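import Pool.Agent.N429.KS.Defs

/-!
# Orthogonal diagonalization of a self-adjoint matrix
-/

set_option linter.unusedSectionVars false

open Matrix Finset Function

namespace Pool.Agent.N429.KS

noncomputable section

section
variable {B : Type} [Fintype B] [DecidableEq B] (Q Θ : Matrix B B ℂ)

/-- one more vector of an orthonormal family of eigenvectors -/
theorem orth_step (hQ : Q.IsSymm) (hdet : Q.det ≠ 0) (hΘ : (Q * Θ).IsSymm)
    (hdiag : ⨆ μ : ℂ, Module.End.eigenspace (Matrix.toLin' Θ) μ = ⊤) {n : ℕ}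
    (hn : n < Fintype.card B) (e : Fin n → B → ℂ) (κ : Fin n → ℂ)
    (he : ∀ i j, e i ⬝ᵥ (Q *ᵥ e j) = if i = j then 1 else 0)
    (hκ : ∀ i, Θ *ᵥ e i = κ i • e i) :
    ∃ (x : B → ℂ) (μ : ℂ), (∀ i, x ⬝ᵥ (Q *ᵥ e i) = 0) ∧ x ⬝ᵥ (Q *ᵥ x) = 1 ∧ Θ *ᵥ x = μ • x := by
  have hsymm : ∀ x y : B → ℂ, x ⬝ᵥ (Q *ᵥ y) = y ⬝ᵥ (Q *ᵥ x) := by
    intro x y
    rw [Matrix.dotProduct_mulVec, ← Matrix.mulVec_transpose, hQ.eq, dotProduct_comm]
  have hself : ∀ x y : B → ℂ, (Θ *ᵥ x) ⬝ᵥ (Q *ᵥ y) = x ⬝ᵥ (Q *ᵥ (Θ *ᵥ y)) := by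
    intro x y
    rw [hsymm, Matrix.mulVec_mulVec, Matrix.mulVec_mulVec, Matrix.dotProduct_mulVec,
      ← Matrix.mulVec_transpose, hΘ.eq, dotProduct_comm]
  -- the orthogonal complement
  let p : Submodule ℂ (B → ℂ) :=
    { carrier := {x | ∀ i, x ⬝ᵥ (Q *ᵥ e i) = 0}
      add_mem' := by
        intro a b ha hb i
        rw [add_dotProduct, ha i, hb i, add_zero]
      zero_mem' := by
        intro i
        rw [zero_dotProduct]
      smul_mem' := by
        intro c a ha i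
        rw [smul_dotProduct, ha i, smul_zero] }
  have hp : ∀ x, x ∈ p ↔ ∀ i, x ⬝ᵥ (Q *ᵥ e i) = 0 := fun x => Iff.rfl
  have hpne : ∃ x ∈ p, x ≠ 0 := by
    let L : (B → ℂ) →ₗ[ℂ] (Fin n → ℂ) :=
      { toFun := fun x i => x ⬝ᵥ (Q *ᵥ e i)
        map_add' := by intro x y; funext i; rw [add_dotProduct]; rfl
        map_smul' := by intro c x; funext i; rw [smul_dotProduct]; rfl }
    have h1 : LinearMap.ker L ≠ ⊥ := LinearMap.ker_ne_bot_of_finrank_lt (by
      rw [Module.finrank_fintype_fun_eq_card, Module.finrank_fintype_fun_eq_card, Fintype.card_fin]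
      exact hn)
    obtain ⟨x, hx, hx0⟩ := (Submodule.ne_bot_iff _).1 h1
    refine ⟨x, fun i => ?_, hx0⟩
    exact congrFun (LinearMap.mem_ker.1 hx) i
  have hpT : ∀ x ∈ p, Matrix.toLin' Θ x ∈ p := by
    intro x hx i
    rw [Matrix.toLin'_apply, hself, hκ, Matrix.mulVec_smul, dotProduct_smul, hx i, smul_zero]
  have hpsup : p = ⨆ μ : ℂ, p ⊓ Module.End.eigenspace (Matrix.toLin' Θ) μ := by
    have h1 := Submodule.inf_iSup_genEigenspace hpT 1
    have h2 : (⨆ μ : ℂ, Module.End.genEigenspace (Matrix.toLin' Θ) μ 1) = ⊤ := hdiag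
    rw [h2, inf_top_eq] at h1
    exact h1
  -- an eigenvector which is not isotropic
  have key : ∃ (μ : ℂ) (x : B → ℂ), x ∈ p ∧ Θ *ᵥ x = μ • x ∧ x ⬝ᵥ (Q *ᵥ x) ≠ 0 := by
    by_contra hcon
    push Not at hcon
    have hE : ∀ (μ : ℂ) (x : B → ℂ), x ∈ p ⊓ Module.End.eigenspace (Matrix.toLin' Θ) μ ↔
        x ∈ p ∧ Θ *ᵥ x = μ • x := by
      intro μ x
      rw [Submodule.mem_inf, Module.End.mem_eigenspace_iff, Matrix.toLin'_apply]
    have h1 : ∀ (μ ν : ℂ) (x y : B → ℂ), x ∈ p → Θ *ᵥ x = μ • x → y ∈ p → Θ *ᵥ y = ν • y →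
        x ⬝ᵥ (Q *ᵥ y) = 0 := by
      intro μ ν x y hx hx' hy hy'
      by_cases hμν : μ = ν
      · subst hμν
        have h2 := hcon μ (x + y) (p.add_mem hx hy)
          (by rw [Matrix.mulVec_add, hx', hy', smul_add])
        have h3 := hcon μ x hx hx'
        have h4 := hcon μ y hy hy'
        rw [Matrix.mulVec_add, add_dotProduct, dotProduct_add, dotProduct_add, h3, h4,
          hsymm y x] at h2
        have h5 : (2 : ℂ) * (x ⬝ᵥ (Q *ᵥ y)) = 0 := by linear_combination h2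
        exact (mul_eq_zero.1 h5).resolve_left two_ne_zero
      · have h2 := hself x y
        rw [hx', hy', smul_dotProduct, Matrix.mulVec_smul, dotProduct_smul, smul_eq_mul,
          smul_eq_mul] at h2
        have h3 : (μ - ν) * (x ⬝ᵥ (Q *ᵥ y)) = 0 := by linear_combination h2
        exact (mul_eq_zero.1 h3).resolve_left (sub_ne_zero.2 hμν)
    -- everything in `p` is orthogonal to `p`
    have h2 : ∀ (μ : ℂ) (x : B → ℂ), x ∈ p → Θ *ᵥ x = μ • x → ∀ y ∈ p, x ⬝ᵥ (Q *ᵥ y) = 0 := by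
      intro μ x hx hx' y hy
      rw [hpsup] at hy
      refine Submodule.iSup_induction _ (motive := fun y => x ⬝ᵥ (Q *ᵥ y) = 0) hy ?_ ?_ ?_
      · intro ν z hz
        obtain ⟨hz1, hz2⟩ := (hE ν z).1 hz
        exact h1 μ ν x z hx hx' hz1 hz2
      · rw [Matrix.mulVec_zero, dotProduct_zero]
      · intro a b ha hb
        rw [Matrix.mulVec_add, dotProduct_add, ha, hb, add_zero]
    have h3 : ∀ x ∈ p, ∀ y ∈ p, x ⬝ᵥ (Q *ᵥ y) = 0 := by
      intro x hx y hy
      have hx2 := hx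
      rw [hpsup] at hx2
      refine Submodule.iSup_induction _ (motive := fun x => x ⬝ᵥ (Q *ᵥ y) = 0) hx2 ?_ ?_ ?_
      · intro ν z hz
        obtain ⟨hz1, hz2⟩ := (hE ν z).1 hz
        exact h2 ν z hz1 hz2 y hy
      · rw [zero_dotProduct]
      · intro a b ha hb
        rw [add_dotProduct, ha, hb, add_zero]
    obtain ⟨x, hx, hx0⟩ := hpne
    apply hx0
    -- `x` is orthogonal to everything
    have h4 : ∀ y : B → ℂ, y ⬝ᵥ (Q *ᵥ x) = 0 := by
      intro y
      have h5 : y - ∑ i, (y ⬝ᵥ (Q *ᵥ e i)) • e i ∈ p := by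
        intro j
        rw [sub_dotProduct, sum_dotProduct, Finset.sum_eq_single j]
        · rw [smul_dotProduct, he, if_pos rfl, smul_eq_mul, mul_one, sub_self]
        · intro i _ hij
          rw [smul_dotProduct, he, if_neg hij, smul_zero]
        · intro hj
          exact absurd (Finset.mem_univ j) hj
      have h6 := h3 _ h5 x hx
      rw [sub_dotProduct, sum_dotProduct, sub_eq_zero] at h6
      rw [h6]
      refine Finset.sum_eq_zero fun i _ => ?_
      rw [smul_dotProduct, hsymm (e i) x, hx i, smul_zero]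
    have h5 : Q *ᵥ x = 0 := by
      funext b
      have := h4 (Pi.single b 1)
      simpa using this
    have h6 : Q⁻¹ *ᵥ (Q *ᵥ x) = x := by
      rw [Matrix.mulVec_mulVec, Matrix.nonsing_inv_mul _ (isUnit_iff_ne_zero.2 hdet),
        Matrix.one_mulVec]
    rw [← h6, h5, Matrix.mulVec_zero]
  obtain ⟨μ, x, hx, hx', hx0⟩ := key
  obtain ⟨z, hz⟩ := IsAlgClosed.exists_eq_mul_self ((x ⬝ᵥ (Q *ᵥ x))⁻¹)
  refine ⟨z • x, μ, p.smul_mem z hx, ?_, ?_⟩
  · rw [Matrix.mulVec_smul, smul_dotProduct, dotProduct_smul, smul_smul, ← hz, smul_eq_mul,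
      inv_mul_cancel₀ hx0]
  · rw [Matrix.mulVec_smul, hx', smul_comm]

theorem orth_family (hQ : Q.IsSymm) (hdet : Q.det ≠ 0) (hΘ : (Q * Θ).IsSymm)
    (hdiag : ⨆ μ : ℂ, Module.End.eigenspace (Matrix.toLin' Θ) μ = ⊤) :
    ∀ n : ℕ, n ≤ Fintype.card B → ∃ (e : Fin n → B → ℂ) (κ : Fin n → ℂ),
      (∀ i j, e i ⬝ᵥ (Q *ᵥ e j) = if i = j then 1 else 0) ∧ ∀ i, Θ *ᵥ e i = κ i • e i := by
  have hsymm : ∀ x y : B → ℂ, x ⬝ᵥ (Q *ᵥ y) = y ⬝ᵥ (Q *ᵥ x) := by
    intro x y
    rw [Matrix.dotProduct_mulVec, ← Matrix.mulVec_transpose, hQ.eq, dotProduct_comm]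
  intro n
  induction n with
  | zero => intro _; exact ⟨fun i => i.elim0, fun i => i.elim0, fun i => i.elim0, fun i => i.elim0⟩
  | succ n ih =>
    intro hn
    obtain ⟨e, κ, he, hκ⟩ := ih (by omega)
    obtain ⟨x, μ, h1, h2, h3⟩ := orth_step Q Θ hQ hdet hΘ hdiag (by omega) e κ he hκ
    refine ⟨Fin.snoc (α := fun _ => B → ℂ) e x, Fin.snoc (α := fun _ => ℂ) κ μ, ?_, ?_⟩
    · intro i j
      induction i using Fin.lastCases with
      | last =>
        induction j using Fin.lastCases with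
        | last => rw [Fin.snoc_last, h2, if_pos rfl]
        | cast j =>
          rw [Fin.snoc_last, Fin.snoc_castSucc, h1, if_neg (Fin.castSucc_lt_last j).ne']
      | cast i =>
        induction j using Fin.lastCases with
        | last =>
          rw [Fin.snoc_last, Fin.snoc_castSucc, hsymm, h1, if_neg (Fin.castSucc_lt_last i).ne]
        | cast j =>
          rw [Fin.snoc_castSucc, Fin.snoc_castSucc, he]
          simp [Fin.castSucc_inj]
    · intro i
      induction i using Fin.lastCases with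
      | last => rw [Fin.snoc_last, Fin.snoc_last, h3]
      | cast i => rw [Fin.snoc_castSucc, Fin.snoc_castSucc, hκ]

end

theorem cm_diag {B : Type} [Fintype B] [DecidableEq B] (θ : Matrix B B ℚ)
    (hsq : Squarefree (minpoly ℚ θ)) :
    ⨆ μ : ℂ, Module.End.eigenspace (Matrix.toLin' (cm θ)) μ = ⊤ := by
  have hsep : ((minpoly ℚ θ).map (algebraMap ℚ ℂ)).Separable :=
    (PerfectField.separable_iff_squarefree.2 hsq).map
  have h0 : Polynomial.aeval (cm θ) ((minpoly ℚ θ).map (algebraMap ℚ ℂ)) = 0 := by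
    have h1 : (algebraMap ℚ ℂ).mapMatrix (Polynomial.aeval θ (minpoly ℚ θ)) = 0 := by
      rw [minpoly.aeval, map_zero]
    rw [Polynomial.aeval_def, Polynomial.eval₂_map]
    rw [Polynomial.aeval_def, Polynomial.hom_eval₂] at h1
    have h2 : (algebraMap ℂ (Matrix B B ℂ)).comp (algebraMap ℚ ℂ) =
        ((algebraMap ℚ ℂ).mapMatrix (m := B)).comp (algebraMap ℚ (Matrix B B ℚ)) :=
      RingHom.ext_rat _ _
    rw [h2]
    exact h1
  have h1 : Polynomial.aeval (Matrix.toLin' (cm θ)) ((minpoly ℚ θ).map (algebraMap ℚ ℂ)) = 0 := by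
    have h2 := Polynomial.aeval_algHom_apply
      (Matrix.toLinAlgEquiv' : Matrix B B ℂ ≃ₐ[ℂ] Module.End ℂ (B → ℂ)).toAlgHom (cm θ)
      ((minpoly ℚ θ).map (algebraMap ℚ ℂ))
    rw [h0, map_zero] at h2
    exact h2
  exact (Module.End.isSemisimple_of_squarefree_aeval_eq_zero hsep.squarefree
    h1).iSup_eigenspace_eq_top

theorem orth {B : Type} [Fintype B] [DecidableEq B] (q θ : Matrix B B ℚ) (hq : q.IsSymm)
    (hdet : q.det ≠ 0) (hθ : (q * θ).IsSymm) (hsq : Squarefree (minpoly ℚ θ)) :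
    ∃ (U : Matrix B B ℂ) (κ : B → ℂ), Uᵀ * U = cm q ∧ U * cm θ = diagonal κ * U := by
  have hQ : (cm q).IsSymm := by
    unfold cm Matrix.IsSymm
    rw [← Matrix.transpose_map, hq.eq]
  have hΘ : (cm q * cm θ).IsSymm := by
    unfold cm
    rw [← Matrix.map_mul]
    unfold Matrix.IsSymm
    rw [← Matrix.transpose_map, hθ.eq]
  have hd : (cm q).det ≠ 0 := by
    have h1 : (cm q).det = algebraMap ℚ ℂ q.det := by
      rw [RingHom.map_det]
      rfl
    rw [h1]
    exact (map_ne_zero_iff _ (algebraMap ℚ ℂ).injective).2 hdet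
  obtain ⟨e, κ, he, hκ⟩ := orth_family (cm q) (cm θ) hQ hd hΘ (cm_diag θ hsq) (Fintype.card B) le_rfl
  let E : B ≃ Fin (Fintype.card B) := Fintype.equivFin B
  let P : Matrix B B ℂ := Matrix.of fun b c => e (E c) b
  have hPcol : ∀ c, (fun b => P b c) = e (E c) := fun c => rfl
  have hPP : (Pᵀ * cm q) * P = 1 := by
    rw [Matrix.mul_assoc]
    ext i j
    have h1 : (Pᵀ * (cm q * P)) i j = e (E i) ⬝ᵥ (cm q *ᵥ e (E j)) := by
      rw [Matrix.mul_apply']
      congr 1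
    rw [h1, he, Matrix.one_apply]
    simp [E.injective.eq_iff]
  have hΘP : cm θ * P = P * diagonal (fun b => κ (E b)) := by
    ext i j
    have h1 : (cm θ * P) i j = (cm θ *ᵥ e (E j)) i := rfl
    rw [h1, hκ, Matrix.mul_diagonal]
    simp [P, mul_comm]
  have hPP' : P * (Pᵀ * cm q) = 1 := _root_.mul_eq_one_comm.1 hPP
  refine ⟨Pᵀ * cm q, fun b => κ (E b), ?_, ?_⟩
  · rw [Matrix.transpose_mul, Matrix.transpose_transpose, hQ.eq, Matrix.mul_assoc, hPP',
      Matrix.mul_one]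
  · have h1 : cm q * cm θ = (cm θ)ᵀ * cm q := by
      have h2 := hΘ.eq
      rw [Matrix.transpose_mul, hQ.eq] at h2
      exact h2.symm
    rw [Matrix.mul_assoc, h1, ← Matrix.mul_assoc, ← Matrix.transpose_mul, hΘP,
      Matrix.transpose_mul, Matrix.diagonal_transpose, Matrix.mul_assoc]

end

end Pool.Agent.N429.KS
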