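import Pool.Agent.N429.KS.Defs

/-!
# K15: Zarhin's theorem, the assembly (with the parts K9 - K14 as hypotheses)
-/

set_option linter.unusedSectionVars false
set_option autoImplicit false

open Matrix Finset Function

namespace Pool.Agent.N429.KS

namespace K15

variable {B : Type} [Fintype B] [DecidableEq B]

lemma star_dot (M : Matrix B B ℚ) (u v : B → ℂ) :
    star (u ⬝ᵥ (cm M *ᵥ v)) = star u ⬝ᵥ (cm M *ᵥ star v) := by
  simp [dotProduct, mulVec, cm, star_sum]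

lemma star_mulVec' (M : Matrix B B ℚ) (v : B → ℂ) : star (cm M *ᵥ v) = cm M *ᵥ star v := by
  funext i
  simp [mulVec, dotProduct, cm, star_sum]

lemma wedge_mulVec {K : Type} [Field K] (Q : Matrix B B K) (x y u : B → K) :
    wedge Q x y *ᵥ u = ((Q *ᵥ y) ⬝ᵥ u) • x - ((Q *ᵥ x) ⬝ᵥ u) • y := by
  have h1 : ∀ a b : B → K, vecMulVec a b *ᵥ u = (b ⬝ᵥ u) • a := by
    intro a b
    funext i
    simp only [mulVec, vecMulVec_apply, dotProduct, Pi.smul_apply, smul_eq_mul]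
    rw [Finset.sum_mul]
    exact Finset.sum_congr rfl fun j _ => by ring
  rw [wedge, sub_mulVec, h1, h1]

lemma cm_mul (M M' : Matrix B B ℚ) : cm (M * M') = cm M * cm M' := by
  unfold cm
  exact Matrix.map_mul

lemma cm_add (M M' : Matrix B B ℚ) : cm (M + M') = cm M + cm M' := by
  ext i j
  simp [cm]

lemma cm_one : cm (1 : Matrix B B ℚ) = 1 := by
  unfold cm
  exact Matrix.map_one _ (map_zero _) (map_one _)

lemma cm_pow (M : Matrix B B ℚ) (n : ℕ) : cm (M ^ n) = cm M ^ n := by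
  induction n with
  | zero => rw [pow_zero, pow_zero, cm_one]
  | succ n ih => rw [pow_succ, pow_succ, cm_mul, ih]

lemma cm_smul (a : ℚ) (M : Matrix B B ℚ) : cm (a • M) = (a : ℂ) • cm M := by
  ext i j
  simp [cm]

lemma cm_transpose (M : Matrix B B ℚ) : (cm M)ᵀ = cm Mᵀ := by
  ext i j
  simp [cm]

lemma aeval_eig (θ : Matrix B B ℚ) {r : ℂ} {x : B → ℂ} (hx : cm θ *ᵥ x = r • x)
    (p : Polynomial ℚ) : cm (Polynomial.aeval θ p) *ᵥ x = (Polynomial.aeval r p) • x := by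
  have hpow : ∀ n : ℕ, cm (θ ^ n) *ᵥ x = r ^ n • x := by
    intro n
    induction n with
    | zero => rw [pow_zero, pow_zero, cm_one, one_mulVec, one_smul]
    | succ n ih =>
      rw [pow_succ, cm_mul, ← mulVec_mulVec, hx, mulVec_smul, ih, smul_smul, pow_succ, mul_comm r]
  induction p using Polynomial.induction_on' with
  | add p q hp hq =>
    rw [map_add, map_add, cm_add, add_mulVec, hp, hq, add_smul]
  | monomial n a =>
    rw [Polynomial.aeval_monomial, Polynomial.aeval_monomial, ← Algebra.smul_def, cm_smul,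
      smul_mulVec, hpow, smul_smul]
    rfl

lemma der_add {K : Type} [Field K] {S : Type} [Fintype S] [DecidableEq S]
    (Y Z : Matrix B B K) (f : (S → B) → K) : der (Y + Z) f = der Y f + der Z f := by
  funext J
  simp only [der, Matrix.add_apply, Pi.add_apply, add_mul, Finset.sum_add_distrib]

lemma der_smul {K : Type} [Field K] {S : Type} [Fintype S] [DecidableEq S]
    (a : K) (Y : Matrix B B K) (f : (S → B) → K) : der (a • Y) f = a • der Y f := by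
  funext J
  simp only [der, Matrix.smul_apply, Pi.smul_apply, smul_eq_mul, Finset.mul_sum, mul_assoc]

lemma der_zero {K : Type} [Field K] {S : Type} [Fintype S] [DecidableEq S]
    (f : (S → B) → K) : der (0 : Matrix B B K) f = 0 := by
  funext J
  simp [der]

lemma der_cx {S : Type} [Fintype S] [DecidableEq S] (Y : Matrix B B ℚ) (f : (S → B) → ℚ) :
    der (cm Y) (cx f) = cx (der Y f) := by
  funext J
  simp [der, cx, cm]

end K15

open K15 in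
/-- Zarhin's theorem from the parts K9 - K14 -/
theorem zarhin_core {B : Type} [Fintype B] [DecidableEq B] (X : K3Type B)
    (h9a : X.h ∈ X.gC)
    (h9b : ∀ {Y Z : Matrix B B ℂ}, Y ∈ X.gC → Z ∈ X.gC → Y * Z - Z * Y ∈ X.gC)
    (h9c : ∀ {Y : Matrix B B ℂ}, Y ∈ X.gC → cm X.q * Y + Yᵀ * cm X.q = 0)
    (h11 : ∃ θ : Matrix B B ℚ, (X.q * θ).IsSymm ∧
      cm θ * X.h = X.h * cm θ ∧ Irreducible (minpoly ℚ θ) ∧ (∀ Y ∈ X.gQ, Y * θ = θ * Y) ∧
      ∀ A : Matrix B B ℚ, A * θ = θ * A → A ∈ Algebra.adjoin ℚ (X.gQ : Set (Matrix B B ℚ)))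
    (h12 : ∀ (Q : Matrix B B ℂ) (_ : Q.IsSymm) (L : Submodule ℂ (Matrix B B ℂ))
      (_ : ∀ Y ∈ L, ∀ Z ∈ L, Y * Z - Z * Y ∈ L) (_ : ∀ Y ∈ L, Q * Y + Yᵀ * Q = 0)
      (ω ω' : B → ℂ) (_ : ω ⬝ᵥ (Q *ᵥ ω) = 0) (_ : ω' ⬝ᵥ (Q *ᵥ ω') = 0)
      (_ : ω ⬝ᵥ (Q *ᵥ ω') ≠ 0) (_ : wedge Q ω ω' ∈ L) (T : Submodule ℂ (B → ℂ)) (_ : ω ∈ T)
      (_ : ω' ∈ T) (_ : ∀ Y ∈ L, ∀ x ∈ T, Y *ᵥ x ∈ T)
      (_ : ∀ M ≤ T, (∀ Y ∈ L, ∀ x ∈ M, Y *ᵥ x ∈ M) → M = ⊥ ∨ M = T),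
      ∀ x ∈ T, ∀ y ∈ T, wedge Q x y ∈ L)
    (h13 : ∀ (q θ : Matrix B B ℚ) (_ : q.IsSymm) (_ : q.det ≠ 0) (_ : (q * θ).IsSymm)
      (_ : Irreducible (minpoly ℚ θ)) (g : Submodule ℚ (Matrix B B ℚ))
      (_ : ∀ Y ∈ g, Y * θ = θ * Y)
      (_ : ∀ A : Matrix B B ℚ, A * θ = θ * A → A ∈ Algebra.adjoin ℚ (g : Set (Matrix B B ℚ)))
      (r : ℂ) (M : Submodule ℂ (B → ℂ)) (_ : ∀ x ∈ M, cm θ *ᵥ x = r • x)
      (_ : ∀ Y ∈ g, ∀ x ∈ M, cm Y *ᵥ x ∈ M),
      M = ⊥ ∨ ∀ x, cm θ *ᵥ x = r • x → x ∈ M)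
    (h14 : ∀ (q θ : Matrix B B ℚ) (_ : (q * θ).IsSymm) (_ : Irreducible (minpoly ℚ θ))
      (r0 : ℂ) (_ : Polynomial.aeval r0 (minpoly ℚ θ) = 0) {S : Type} [Fintype S] [DecidableEq S]
      (f : (S → B) → ℚ)
      (_ : ∀ x y, cm θ *ᵥ x = r0 • x → cm θ *ᵥ y = r0 • y → der (wedge (cm q) x y) (cx f) = 0)
      (r : ℂ) (x y : B → ℂ) (_ : cm θ *ᵥ x = r • x) (_ : cm θ *ᵥ y = r • y),
      der (wedge (cm q) x y) (cx f) = 0) :
    ∃ θ : Matrix B B ℚ, (X.q * θ).IsSymm ∧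
      cm θ * X.h = X.h * cm θ ∧ Irreducible (minpoly ℚ θ) ∧
      ∀ (r : ℂ) (x y : B → ℂ), cm θ *ᵥ x = r • x → cm θ *ᵥ y = r • y →
        ∀ (S : Type) [Fintype S] [DecidableEq S] (f : (S → B) → ℚ), X.IsHodge f →
          der (wedge (cm X.q) x y) (cx f) = 0 := by
  obtain ⟨θ, hθs, hθh, hirr, hcomm, hdens⟩ := h11
  refine ⟨θ, hθs, hθh, hirr, ?_⟩
  obtain ⟨N, hN⟩ : ∃ N, N = X.N := ⟨_, rfl⟩
  have hN0 : N ≠ 0 := by rw [hN]; exact X.pol
  have hN1 : X.ω ⬝ᵥ (cm X.q *ᵥ star X.ω) = N := by rw [hN]; rfl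
  have hQs : (cm X.q).IsSymm := by
    rw [Matrix.IsSymm, cm_transpose, X.sym]
  have hiso' : star X.ω ⬝ᵥ (cm X.q *ᵥ star X.ω) = 0 := by
    rw [← star_dot, X.iso, star_zero]
  have hN2 : star X.ω ⬝ᵥ (cm X.q *ᵥ X.ω) = N := by
    rw [dotProduct_mulVec, ← mulVec_transpose, hQs, dotProduct_comm, hN1]
  have hω0 : X.ω ≠ 0 := by
    intro h0
    apply hN0
    rw [← hN1, h0, zero_dotProduct]
  have hhdef : X.h = N⁻¹ • wedge (cm X.q) X.ω (star X.ω) := by rw [hN]; rfl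
  have hhv : ∀ u, X.h *ᵥ u = (N⁻¹ * ((cm X.q *ᵥ star X.ω) ⬝ᵥ u)) • X.ω -
      (N⁻¹ * ((cm X.q *ᵥ X.ω) ⬝ᵥ u)) • star X.ω := by
    intro u
    rw [hhdef, smul_mulVec, wedge_mulVec, smul_sub, smul_smul, smul_smul]
  have hhω : X.h *ᵥ X.ω = X.ω := by
    rw [hhv, dotProduct_comm, hN1, dotProduct_comm, X.iso, inv_mul_cancel₀ hN0, mul_zero, one_smul,
      zero_smul, sub_zero]
  have hhω' : X.h *ᵥ star X.ω = -star X.ω := by
    rw [hhv, dotProduct_comm, hiso', dotProduct_comm, hN2, inv_mul_cancel₀ hN0, mul_zero, one_smul,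
      zero_smul, zero_sub]
  have heig : ∀ u, X.h *ᵥ u = u → ∃ a : ℂ, u = a • X.ω := by
    intro u hu
    obtain ⟨a, ha⟩ : ∃ a, a = N⁻¹ * ((cm X.q *ᵥ star X.ω) ⬝ᵥ u) := ⟨_, rfl⟩
    obtain ⟨b, hb⟩ : ∃ b, b = N⁻¹ * ((cm X.q *ᵥ X.ω) ⬝ᵥ u) := ⟨_, rfl⟩
    have h1 : u = a • X.ω - b • star X.ω := by rw [ha, hb, ← hhv, hu]
    have h2 : X.h *ᵥ u = a • X.ω + b • star X.ω := by
      rw [h1, mulVec_sub, mulVec_smul, mulVec_smul, hhω, hhω', smul_neg, sub_neg_eq_add]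
    rw [hu] at h2
    refine ⟨a, ?_⟩
    have h3 : u + u = a • X.ω + a • X.ω := by
      nth_rewrite 1 [h1]
      nth_rewrite 1 [h2]
      abel
    have h4 : (2 : ℂ) • u = (2 : ℂ) • (a • X.ω) := by rw [two_smul, two_smul, h3]
    exact smul_right_injective _ (two_ne_zero) h4
  obtain ⟨r0, hr0⟩ : ∃ r0 : ℂ, cm θ *ᵥ X.ω = r0 • X.ω := by
    apply heig
    rw [mulVec_mulVec, ← hθh, ← mulVec_mulVec, hhω]
  have hr0' : cm θ *ᵥ star X.ω = star r0 • star X.ω := by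
    rw [← star_mulVec', hr0, star_smul]
  have hsa : (cm θ)ᵀ * cm X.q = cm X.q * cm θ := by
    rw [cm_transpose, ← cm_mul, ← cm_mul]
    congr 1
    have h1 : (X.q * θ)ᵀ = X.q * θ := hθs
    rw [← h1, transpose_mul, X.sym]
  have hreal : star r0 = r0 := by
    have h1 : (cm θ *ᵥ X.ω) ⬝ᵥ (cm X.q *ᵥ star X.ω) = X.ω ⬝ᵥ (cm X.q *ᵥ (cm θ *ᵥ star X.ω)) := by
      rw [mulVec_mulVec, ← hsa, ← mulVec_mulVec, dotProduct_mulVec X.ω (cm θ)ᵀ, vecMul_transpose]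
    rw [hr0, hr0', smul_dotProduct, mulVec_smul, dotProduct_smul, hN1, smul_eq_mul,
      smul_eq_mul] at h1
    exact (mul_right_cancel₀ hN0 h1).symm
  rw [hreal] at hr0'
  have hroot : Polynomial.aeval r0 (minpoly ℚ θ) = 0 := by
    have h1 := aeval_eig θ hr0 (minpoly ℚ θ)
    rw [minpoly.aeval] at h1
    have h2 : cm (0 : Matrix B B ℚ) = 0 := by
      ext i j
      simp [cm]
    rw [h2, zero_mulVec] at h1
    exact (smul_eq_zero.1 h1.symm).resolve_right hω0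
  -- the eigenspace
  obtain ⟨T, hT⟩ : ∃ T : Submodule ℂ (B → ℂ), ∀ x, x ∈ T ↔ cm θ *ᵥ x = r0 • x := by
    refine ⟨{ carrier := {x | cm θ *ᵥ x = r0 • x}
              add_mem' := ?_
              zero_mem' := ?_
              smul_mem' := ?_ }, fun x => Iff.rfl⟩
    · intro x y hx hy
      show cm θ *ᵥ (x + y) = r0 • (x + y)
      rw [mulVec_add, smul_add, (hx : cm θ *ᵥ x = r0 • x), (hy : cm θ *ᵥ y = r0 • y)]
    · show cm θ *ᵥ (0 : B → ℂ) = r0 • (0 : B → ℂ)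
      rw [mulVec_zero, smul_zero]
    · intro a x hx
      show cm θ *ᵥ (a • x) = r0 • (a • x)
      rw [mulVec_smul, (hx : cm θ *ᵥ x = r0 • x), smul_comm]
  have hgcomm : ∀ Y ∈ X.gC, Y * cm θ = cm θ * Y := by
    intro Y hY
    induction hY using Submodule.span_induction with
    | mem x hx =>
      obtain ⟨Y', hY', rfl⟩ := hx
      rw [← cm_mul, ← cm_mul, hcomm Y' hY']
    | zero => rw [zero_mul, mul_zero]
    | add x y _ _ h1 h2 => rw [add_mul, mul_add, h1, h2]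
    | smul a x _ h1 => rw [smul_mul_assoc, mul_smul_comm, h1]
  have hTst : ∀ Y ∈ X.gC, ∀ x ∈ T, Y *ᵥ x ∈ T := by
    intro Y hY x hx
    rw [hT] at hx ⊢
    rw [mulVec_mulVec, ← hgcomm Y hY, ← mulVec_mulVec, hx, mulVec_smul]
  have hwed : wedge (cm X.q) X.ω (star X.ω) ∈ X.gC := by
    have h1 : wedge (cm X.q) X.ω (star X.ω) = N • X.h := by
      rw [hhdef, smul_smul, mul_inv_cancel₀ hN0, one_smul]
    rw [h1]
    exact Submodule.smul_mem _ _ h9a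
  have hmain := h12 (cm X.q) hQs X.gC (fun Y hY Z hZ => h9b hY hZ) (fun Y hY => h9c hY)
    X.ω (star X.ω) X.iso hiso' (by rw [hN1]; exact hN0) hwed T ((hT _).2 hr0) ((hT _).2 hr0')
    hTst (fun M hM hst => by
      rcases h13 X.q θ X.sym X.nondeg hθs hirr X.gQ hcomm hdens r0 M
        (fun x hx => (hT x).1 (hM hx))
        (fun Y hY x hx => hst (cm Y) (Submodule.subset_span ⟨Y, hY, rfl⟩) x hx) with h | h
      · exact Or.inl h
      · exact Or.inr (le_antisymm hM fun x hx => h x ((hT x).1 hx)))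
  have hkill : ∀ Z ∈ X.gC, ∀ (S : Type) [Fintype S] [DecidableEq S] (f : (S → B) → ℚ),
      X.IsHodge f → der Z (cx f) = 0 := by
    intro Z hZ S _ _ f hf
    induction hZ using Submodule.span_induction with
    | mem x hx =>
      obtain ⟨Y, hY, rfl⟩ := hx
      rw [der_cx, hY S _ _ f hf]
      funext J
      simp [cx]
    | zero => exact der_zero _
    | add x y _ _ h1 h2 => rw [der_add, h1, h2, add_zero]
    | smul a x _ h1 => rw [der_smul, h1, smul_zero]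
  intro r x y hx hy S _ _ f hf
  exact h14 X.q θ hθs hirr r0 hroot f
    (fun x y hx hy => hkill _ (hmain x ((hT x).2 hx) y ((hT y).2 hy)) S f hf) r x y hx hy

end Pool.Agent.N429.KS
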