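import Pool.Agent.N429.KS.Defs

/-!
# Real multiplication: the double centralizer and a primitive element
-/

set_option linter.unusedSectionVars false

open Matrix Finset Function

namespace Pool.Agent.N429.KS

/-- the density theorem for an irreducible algebra of endomorphisms -/
theorem density_end {K V : Type} [Field K] [AddCommGroup V] [Module K V] [FiniteDimensional K V]
    (A : Subalgebra K (Module.End K V))
    (hs : ∀ W : Submodule K V, (∀ Y ∈ A, ∀ w ∈ W, Y w ∈ W) → W = ⊥ ∨ W = ⊤)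
    (f : Module.End K V)
    (hf : ∀ g : Module.End K V, (∀ Y ∈ A, g * Y = Y * g) → f * g = g * f) : f ∈ A := by
  have hss : IsSemisimpleModule A V := by
    refine (isSemisimpleModule_iff A V).mpr ⟨fun W => ?_⟩
    have h := hs (W.restrictScalars K) (fun Y hY w hw => W.smul_mem (⟨Y, hY⟩ : A) hw)
    rcases h with h | h
    · have hW : W = ⊥ := by
        rw [Submodule.restrictScalars_eq_bot_iff] at h
        exact h
      exact ⟨⊤, by rw [hW]; exact isCompl_bot_top⟩
    · have hW : W = ⊤ := by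
        rw [Submodule.restrictScalars_eq_top_iff] at h
        exact h
      exact ⟨⊥, by rw [hW]; exact isCompl_top_bot⟩
  let F : Module.End (Module.End A V) V :=
    { toFun := fun v => f v
      map_add' := fun v w => map_add f v w
      map_smul' := by
        intro g v
        have h := hf (g.restrictScalars K) (by
          intro Y hY
          ext v
          exact g.map_smul (⟨Y, hY⟩ : A) v)
        exact LinearMap.congr_fun h v }
  obtain ⟨s, hs'⟩ := Module.Finite.fg_top (R := K) (M := V)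
  obtain ⟨r, hr⟩ := jacobson_density (R := A) F s
  have e : f = (r : Module.End K V) := by
    refine LinearMap.ext_on_range (v := fun x : s => (x : V)) ?_ (fun x => hr x.1 x.2)
    rw [Subtype.range_coe_subtype]
    exact hs'
  rw [e]
  exact r.2

variable {B : Type} [Fintype B] [DecidableEq B]

theorem adjoin_stable {g : Set (Matrix B B ℚ)} {W : Submodule ℚ (B → ℚ)}
    (hW : ∀ Y ∈ g, ∀ w ∈ W, Y *ᵥ w ∈ W) {Y : Matrix B B ℚ} (hY : Y ∈ Algebra.adjoin ℚ g) :
    ∀ w ∈ W, Y *ᵥ w ∈ W := by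
  induction hY using Algebra.adjoin_induction with
  | mem x hx => exact hW x hx
  | algebraMap r =>
    intro w hw
    rw [Algebra.algebraMap_eq_smul_one, Matrix.smul_mulVec, Matrix.one_mulVec]
    exact W.smul_mem r hw
  | add x y _ _ hx hy =>
    intro w hw
    rw [Matrix.add_mulVec]
    exact W.add_mem (hx w hw) (hy w hw)
  | mul x y _ _ hx hy =>
    intro w hw
    rw [← Matrix.mulVec_mulVec]
    exact hx _ (hy w hw)

theorem comm_adjoin {g : Set (Matrix B B ℚ)} {M : Matrix B B ℚ} (hM : ∀ Y ∈ g, M * Y = Y * M)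
    {Y : Matrix B B ℚ} (hY : Y ∈ Algebra.adjoin ℚ g) : M * Y = Y * M := by
  induction hY using Algebra.adjoin_induction with
  | mem x hx => exact hM x hx
  | algebraMap r => exact (Algebra.commutes r M).symm
  | add x y _ _ hx hy => rw [mul_add, add_mul, hx, hy]
  | mul x y _ _ hx hy => rw [← mul_assoc, hx, mul_assoc, hy, mul_assoc]

/-- the density theorem for matrices -/
theorem density_mat {g : Set (Matrix B B ℚ)}
    (hs : ∀ W : Submodule ℚ (B → ℚ), (∀ Y ∈ g, ∀ w ∈ W, Y *ᵥ w ∈ W) → W = ⊥ ∨ W = ⊤)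
    (A : Matrix B B ℚ) (hA : ∀ M : Matrix B B ℚ, (∀ Y ∈ g, M * Y = Y * M) → A * M = M * A) :
    A ∈ Algebra.adjoin ℚ g := by
  have key := density_end ((Algebra.adjoin ℚ g).map (Matrix.toLinAlgEquiv' (R := ℚ) (n := B)).toAlgHom)
    (fun W hW => hs W fun Y hY w hw => by
      have h := hW (Matrix.toLinAlgEquiv' Y)
        ⟨Y, Algebra.subset_adjoin hY, rfl⟩ w hw
      exact h) (Matrix.toLinAlgEquiv' A) (by
      intro f hf
      obtain ⟨M, rfl⟩ := (Matrix.toLinAlgEquiv' (R := ℚ) (n := B)).surjective f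
      rw [← map_mul, ← map_mul]
      congr 1
      refine hA M fun Y hY => ?_
      have h := hf (Matrix.toLinAlgEquiv' Y) ⟨Y, Algebra.subset_adjoin hY, rfl⟩
      rw [← map_mul, ← map_mul] at h
      exact (Matrix.toLinAlgEquiv' (R := ℚ) (n := B)).injective h)
  obtain ⟨A', hA', e⟩ := key
  have e' : A' = A := (Matrix.toLinAlgEquiv' (R := ℚ) (n := B)).injective e
  rw [← e']
  exact hA'

/-- a primitive element of the commutant -/
theorem theta_core [Nonempty B] (q : Matrix B B ℚ) (hdet : q.det ≠ 0) (g : Set (Matrix B B ℚ))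
    (hs : ∀ W : Submodule ℚ (B → ℚ), (∀ Y ∈ g, ∀ w ∈ W, Y *ᵥ w ∈ W) → W = ⊥ ∨ W = ⊤)
    (hsym : ∀ M : Matrix B B ℚ, (∀ Y ∈ g, M * Y = Y * M) → (q * M).IsSymm) (hq : q.IsSymm) :
    ∃ θ : Matrix B B ℚ, (∀ Y ∈ g, θ * Y = Y * θ) ∧ Irreducible (minpoly ℚ θ) ∧
      ∀ A : Matrix B B ℚ, A * θ = θ * A → A ∈ Algebra.adjoin ℚ g := by
  let E : Subalgebra ℚ (Matrix B B ℚ) := Subalgebra.centralizer ℚ g
  have hE : ∀ M : Matrix B B ℚ, M ∈ E ↔ ∀ Y ∈ g, M * Y = Y * M := by
    intro M
    rw [Subalgebra.mem_centralizer_iff]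
    exact ⟨fun h Y hY => (h Y hY).symm, fun h Y hY => (h Y hY).symm⟩
  have hcomm : ∀ M ∈ E, ∀ N ∈ E, M * N = N * M := by
    intro M hM N hN
    have h1 := hsym M ((hE M).1 hM)
    have h2 := hsym N ((hE N).1 hN)
    have h3 := hsym (M * N) ((hE _).1 (E.mul_mem hM hN))
    rw [Matrix.IsSymm, Matrix.transpose_mul, hq] at h1 h2
    rw [Matrix.IsSymm, Matrix.transpose_mul, Matrix.transpose_mul, hq, Matrix.mul_assoc, h1,
      ← Matrix.mul_assoc, h2, Matrix.mul_assoc] at h3
    have h4 : q⁻¹ * (q * (N * M)) = q⁻¹ * (q * (M * N)) := by rw [h3]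
    rw [Matrix.nonsing_inv_mul_cancel_left _ _ (isUnit_iff_ne_zero.mpr hdet),
      Matrix.nonsing_inv_mul_cancel_left _ _ (isUnit_iff_ne_zero.mpr hdet)] at h4
    exact h4.symm
  have hdom : ∀ M ∈ E, ∀ N : Matrix B B ℚ, M * N = 0 → M = 0 ∨ N = 0 := by
    intro M hM N hMN
    have hst := hs (LinearMap.ker M.mulVecLin) (by
      intro Y hY w hw
      rw [LinearMap.mem_ker, Matrix.mulVecLin_apply] at hw ⊢
      rw [Matrix.mulVec_mulVec, (hE M).1 hM Y hY, ← Matrix.mulVec_mulVec, hw, Matrix.mulVec_zero])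
    rcases hst with h | h
    · right
      have h0 : ∀ v, M *ᵥ v = 0 → v = 0 := by
        intro v hv
        have : v ∈ LinearMap.ker M.mulVecLin := by
          rw [LinearMap.mem_ker, Matrix.mulVecLin_apply, hv]
        rw [h] at this
        exact this
      refine Matrix.ext_of_mulVec_single fun b => ?_
      rw [Matrix.zero_mulVec]
      apply h0
      rw [Matrix.mulVec_mulVec, hMN, Matrix.zero_mulVec]
    · left
      refine Matrix.ext_of_mulVec_single fun b => ?_
      rw [Matrix.zero_mulVec]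
      have : (Pi.single b 1 : B → ℚ) ∈ LinearMap.ker M.mulVecLin := by rw [h]; trivial
      rwa [LinearMap.mem_ker, Matrix.mulVecLin_apply] at this
  let hcr : CommRing E :=
    { (inferInstance : Ring E) with
      mul_comm := fun a b => Subtype.ext (hcomm a.1 a.2 b.1 b.2) }
  have : NoZeroDivisors E := ⟨fun {a b} hab => by
    rcases hdom a.1 a.2 b.1 (congrArg Subtype.val hab) with h | h
    · exact Or.inl (Subtype.ext h)
    · exact Or.inr (Subtype.ext h)⟩
  have : Nontrivial E := inferInstance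
  have : IsDomain E := NoZeroDivisors.to_isDomain E
  have : FiniteDimensional ℚ E := inferInstance
  let : Field E := fieldOfFiniteDimensional ℚ E
  obtain ⟨α, hα⟩ := Field.exists_primitive_element ℚ E
  have hint : IsIntegral ℚ α := Algebra.IsIntegral.isIntegral α
  have hadj : Algebra.adjoin ℚ {α} = ⊤ := by
    rw [← IntermediateField.adjoin_simple_toSubalgebra_of_isAlgebraic hint.isAlgebraic, hα]
    exact IntermediateField.top_toSubalgebra
  refine ⟨α.1, (hE _).1 α.2, ?_, ?_⟩
  · have h := minpoly.irreducible hint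
    have e : minpoly ℚ (α : Matrix B B ℚ) = minpoly ℚ α :=
      minpoly.algHom_eq E.val Subtype.val_injective α
    rw [e]
    exact h
  · intro A hA
    refine density_mat hs A fun M hM => ?_
    have hM' : (⟨M, (hE M).2 hM⟩ : E) ∈ Algebra.adjoin ℚ {α} := by rw [hadj]; trivial
    have hM2 : M ∈ Algebra.adjoin ℚ {(α : Matrix B B ℚ)} := by
      have h := (Subalgebra.mem_map (f := E.val)).2 ⟨_, hM', rfl⟩
      rw [AlgHom.map_adjoin, Set.image_singleton] at h
      exact h
    exact comm_adjoin (g := {(α : Matrix B B ℚ)}) (by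
      intro Y hY
      rw [Set.mem_singleton_iff.mp hY]
      exact hA) hM2

/-- K11 from K9 (`comm_iff`) and K10 (`simple`) -/
theorem exists_theta_of (X : K3Type B)
    (comm_iff : ∀ M : Matrix B B ℚ, (∀ Y ∈ X.gQ, M * Y = Y * M) ↔ cm M * X.h = X.h * cm M)
    (simple : ∀ W : Submodule ℚ (B → ℚ), (∀ Y ∈ X.gQ, ∀ w ∈ W, Y *ᵥ w ∈ W) → W = ⊥ ∨ W = ⊤)
    (hX : X.NonCM) : ∃ θ : Matrix B B ℚ, (X.q * θ).IsSymm ∧
    cm θ * X.h = X.h * cm θ ∧ Irreducible (minpoly ℚ θ) ∧ (∀ Y ∈ X.gQ, Y * θ = θ * Y) ∧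
    ∀ A : Matrix B B ℚ, A * θ = θ * A → A ∈ Algebra.adjoin ℚ (X.gQ : Set (Matrix B B ℚ)) := by
  have hB : Nonempty B := by
    by_contra h
    rw [not_nonempty_iff] at h
    exact X.pol (by simp [dotProduct])
  obtain ⟨θ, h1, h2, h3⟩ := theta_core X.q X.nondeg (X.gQ : Set (Matrix B B ℚ)) simple
    (fun M hM => hX M ((comm_iff M).1 hM)) X.sym
  have hh := (comm_iff θ).1 h1
  exact ⟨θ, hX θ hh, hh, h2, fun Y hY => (h1 Y hY).symm, h3⟩

end Pool.Agent.N429.KS
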