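import Pool.Agent.N429.KS.Defs2
import Pool.Agent.N429.KS.K10a
import Pool.Agent.N429.KS.K11a

/-!
# KS2/Z1: simple module and density for smaller Lie algebras (helper284, adapted from K10, K11)
-/

set_option linter.unusedSectionVars false

open Matrix Finset Function

namespace Pool.Agent.N429.KS

open K10

variable {B : Type} [Fintype B] [DecidableEq B]

/-- Z1 the module is simple -/
theorem simple' (X : K3Type B) (g : Submodule ℚ (Matrix B B ℚ))
    (hh : X.h ∈ Submodule.span ℂ (cm '' (g : Set (Matrix B B ℚ)))) (W : Submodule ℚ (B → ℚ))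
    (hW : ∀ Y ∈ g, ∀ w ∈ W, Y *ᵥ w ∈ W) : W = ⊥ ∨ W = ⊤ := by
  by_cases hbot : W = ⊥
  · exact Or.inl hbot
  right
  obtain ⟨w, hw, hw0⟩ := (Submodule.ne_bot_iff W).1 hbot
  set W' : Submodule ℂ (B → ℂ) := Submodule.span ℂ (cx '' (W : Set (B → ℚ))) with hW'
  -- stability
  have st1 : ∀ Y ∈ g, ∀ x ∈ W', cm Y *ᵥ x ∈ W' := by
    intro Y hY x hx
    induction hx using Submodule.span_induction with
    | mem x hx =>
      obtain ⟨u, hu, rfl⟩ := hx
      rw [cm_cx]
      exact Submodule.subset_span ⟨_, hW Y hY u hu, rfl⟩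
    | zero => rw [mulVec_zero]; exact W'.zero_mem
    | add x y _ _ h1 h2 => rw [mulVec_add]; exact W'.add_mem h1 h2
    | smul a x _ h1 => rw [mulVec_smul]; exact W'.smul_mem a h1
  have st2 : ∀ Z ∈ Submodule.span ℂ (cm '' (g : Set (Matrix B B ℚ))), ∀ x ∈ W', Z *ᵥ x ∈ W' := by
    intro Z hZ x hx
    induction hZ using Submodule.span_induction with
    | mem Z hZ =>
      obtain ⟨Y, hY, rfl⟩ := hZ
      exact st1 Y hY x hx
    | zero => rw [zero_mulVec]; exact W'.zero_mem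
    | add Z Z' _ _ h1 h2 => rw [add_mulVec]; exact W'.add_mem h1 h2
    | smul a Z _ h1 => rw [smul_mulVec]; exact W'.smul_mem a h1
  have st := st2 _ hh
  -- the period is in the span
  have hw' : cx w ∈ W' := Submodule.subset_span ⟨w, hw, rfl⟩
  have ha : (cm X.q *ᵥ star X.ω) ⬝ᵥ cx w ≠ 0 := by
    intro h0
    apply hw0
    apply X.trans
    have h1 : (cm X.q *ᵥ star X.ω) ⬝ᵥ cx w = star ((cm X.q *ᵥ X.ω) ⬝ᵥ cx w) := by
      rw [← star_dot, star_cm, star_cx]
    rw [h1] at h0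
    rw [dotProduct_comm]
    exact star_eq_zero.1 h0
  have hω : X.ω ∈ W' := by
    have h1 := W'.add_mem (st _ (st _ hw')) (st _ hw')
    have h2 : X.h *ᵥ (X.h *ᵥ cx w) + X.h *ᵥ cx w =
        (2 * (X.N)⁻¹ * ((cm X.q *ᵥ star X.ω) ⬝ᵥ cx w)) • X.ω := by
      rw [h_mulVec X (cx w), mulVec_smul, mulVec_sub, mulVec_smul, mulVec_smul, h_omega,
        h_omega_bar]
      module
    rw [h2] at h1
    have hne : 2 * (X.N)⁻¹ * ((cm X.q *ᵥ star X.ω) ⬝ᵥ cx w) ≠ 0 :=
      mul_ne_zero (mul_ne_zero two_ne_zero (inv_ne_zero (N_ne X))) ha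
    exact (Submodule.smul_mem_iff W' hne).1 h1
  -- orthogonal vectors
  have hort : ∀ v : B → ℚ, (∀ u ∈ W, v ⬝ᵥ (X.q *ᵥ u) = 0) → v = 0 := by
    intro v hv
    apply X.trans
    have key : ∀ x ∈ W', cx v ⬝ᵥ (cm X.q *ᵥ x) = 0 := by
      intro x hx
      induction hx using Submodule.span_induction with
      | mem x hx =>
        obtain ⟨u, hu, rfl⟩ := hx
        rw [cm_cx]
        have h1 := hv u hu
        have h2 : cx v ⬝ᵥ cx (X.q *ᵥ u) = ((v ⬝ᵥ (X.q *ᵥ u) : ℚ) : ℂ) := by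
          simp [dotProduct, cx]
        rw [h2, h1]
        simp
      | zero => simp
      | add x y _ _ h1 h2 => rw [mulVec_add, dotProduct_add, h1, h2, add_zero]
      | smul a x _ h1 => rw [mulVec_smul, dotProduct_smul, h1, smul_zero]
    exact key _ hω
  by_contra htop
  obtain ⟨φ, hφ, hle⟩ := Submodule.exists_le_ker_of_lt_top W (lt_top_iff_ne_top.2 htop)
  set u : B → ℚ := fun b => φ (Pi.single b 1) with hu
  have hφu : ∀ x, φ x = u ⬝ᵥ x := by
    intro x
    rw [dotProduct, hu]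
    conv_lhs => rw [← Finset.univ_sum_single x]
    rw [map_sum]
    refine sum_congr rfl fun b _ => ?_
    have : (Pi.single b (x b) : B → ℚ) = x b • Pi.single b 1 := by
      rw [← Pi.single_smul, smul_eq_mul, mul_one]
    rw [this, map_smul, smul_eq_mul, mul_comm]
  have hunit : IsUnit X.q.det := isUnit_iff_ne_zero.2 X.nondeg
  have hv0 := hort (X.q⁻¹ *ᵥ u) (by
    intro y hy
    have h1 : (X.q⁻¹ *ᵥ u) ⬝ᵥ (X.q *ᵥ y) = u ⬝ᵥ y := by
      rw [← dotProduct_transpose_mulVec, X.sym, mulVec_mulVec, mul_nonsing_inv _ hunit,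
        one_mulVec]
      exact dotProduct_comm _ _
    rw [h1, ← hφu]
    exact hle hy)
  apply hφ
  have hu0 : u = 0 := by
    have h1 := congrArg (fun z => X.q *ᵥ z) hv0
    simp only [mulVec_zero] at h1
    rwa [mulVec_mulVec, mul_nonsing_inv _ hunit, one_mulVec] at h1
  refine LinearMap.ext fun x => ?_
  rw [LinearMap.zero_apply, hφu, hu0, zero_dotProduct]

/-- Z1 density -/
theorem exists_theta' (X : K3Type B) (hX : X.NonCM) (g : Submodule ℚ (Matrix B B ℚ))
    (hh : X.h ∈ Submodule.span ℂ (cm '' (g : Set (Matrix B B ℚ)))) (hg : g ≤ X.gQ) :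
    ∃ θ : Matrix B B ℚ, (X.q * θ).IsSymm ∧
    cm θ * X.h = X.h * cm θ ∧ Irreducible (minpoly ℚ θ) ∧ (∀ Y ∈ g, Y * θ = θ * Y) ∧
    ∀ A : Matrix B B ℚ, A * θ = θ * A → A ∈ Algebra.adjoin ℚ (g : Set (Matrix B B ℚ)) := by
  have hB : Nonempty B := by
    by_contra h
    rw [not_nonempty_iff] at h
    exact X.pol (by simp [dotProduct])
  have hcomm : ∀ M : Matrix B B ℚ, (∀ Y ∈ g, M * Y = Y * M) → cm M * X.h = X.h * cm M := by
    intro M hM
    have h1 : ∀ Z ∈ Submodule.span ℂ (cm '' (g : Set (Matrix B B ℚ))), cm M * Z = Z * cm M := by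
      intro Z hZ
      induction hZ using Submodule.span_induction with
      | mem Z hZ =>
        obtain ⟨Y, hY, rfl⟩ := hZ
        have h2 : cm (M * Y) = cm (Y * M) := by rw [hM Y hY]
        have h3 : cm (M * Y) = cm M * cm Y := Matrix.map_mul
        have h4 : cm (Y * M) = cm Y * cm M := Matrix.map_mul
        rw [← h3, h2, h4]
      | zero => rw [mul_zero, zero_mul]
      | add Z Z' _ _ h1 h2 => rw [mul_add, add_mul, h1, h2]
      | smul a Z _ h1 => rw [mul_smul_comm, smul_mul_assoc, h1]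
    exact h1 _ hh
  obtain ⟨θ, h1, h2, h3⟩ := theta_core X.q X.nondeg (g : Set (Matrix B B ℚ)) (simple' X g hh)
    (fun M hM => hX M (hcomm M hM)) X.sym
  have h4 := hcomm θ h1
  exact ⟨θ, hX θ h4, h4, h2, fun Y hY => (h1 Y hY).symm, h3⟩

end Pool.Agent.N429.KS
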