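import Pool.Agent.N429.KS.K9
import Pool.Agent.N429.KS.Z1

/-!
# KS4/P2: the skew generator of the field of endomorphisms, complex multiplication (helper946)
-/

set_option linter.unusedSectionVars false

open Matrix Finset Function

namespace Pool.Agent.N429.KS

namespace P2

open K10

variable {B : Type} [Fintype B] [DecidableEq B]

/-- the period is an eigenvector of the operators which commute with `h` -/
theorem eig_omega (X : K3Type B) (θ : Matrix B B ℚ) (hθh : cm θ * X.h = X.h * cm θ) :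
    ∃ r : ℂ, cm θ *ᵥ X.ω = r • X.ω := by
  have heig : ∀ u, X.h *ᵥ u = u → ∃ a : ℂ, u = a • X.ω := by
    intro u hu
    have h1 := h_mulVec X u
    have h2 : X.h *ᵥ (X.h *ᵥ u) = u := by rw [hu, hu]
    rw [h1, mulVec_smul, mulVec_sub, mulVec_smul, mulVec_smul, h_omega, h_omega_bar] at h2
    rw [hu] at h1
    generalize (cm X.q *ᵥ star X.ω) ⬝ᵥ u = a at h1 h2
    generalize (cm X.q *ᵥ X.ω) ⬝ᵥ u = b at h1 h2
    have h3 : (2 : ℂ) • u = (2 : ℂ) • (((X.N)⁻¹ * a) • X.ω) := by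
      rw [two_smul]
      calc u + u = (X.N)⁻¹ • (a • X.ω - b • star X.ω) + (X.N)⁻¹ • (a • X.ω - b • -star X.ω) :=
            congrArg₂ (· + ·) h1 h2.symm
        _ = _ := by module
    exact ⟨_, smul_right_injective _ (two_ne_zero) h3⟩
  apply heig
  rw [mulVec_mulVec, ← hθh, ← mulVec_mulVec, h_omega]

theorem omega_ne (X : K3Type B) : X.ω ≠ 0 := by
  intro h
  apply X.pol
  rw [h]
  simp

/-- the kernel of an element of the commutant -/
theorem inj (X : K3Type B) (g : Submodule ℚ (Matrix B B ℚ))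
    (hh : X.h ∈ Submodule.span ℂ (cm '' (g : Set (Matrix B B ℚ)))) {M : Matrix B B ℚ}
    (hM : ∀ Y ∈ g, M * Y = Y * M) (h0 : M ≠ 0) : M.det ≠ 0 := by
  have hst := simple' X g hh (LinearMap.ker M.mulVecLin) (by
    intro Y hY w hw
    rw [LinearMap.mem_ker, Matrix.mulVecLin_apply] at hw ⊢
    rw [Matrix.mulVec_mulVec, hM Y hY, ← Matrix.mulVec_mulVec, hw, Matrix.mulVec_zero])
  rcases hst with h | h
  · intro hdet
    obtain ⟨v, hv0, hv⟩ := Matrix.exists_mulVec_eq_zero_iff.2 hdet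
    apply hv0
    have : v ∈ LinearMap.ker M.mulVecLin := by
      rw [LinearMap.mem_ker, Matrix.mulVecLin_apply, hv]
    rw [h] at this
    exact this
  · exfalso
    apply h0
    refine Matrix.ext_of_mulVec_single fun b => ?_
    rw [Matrix.zero_mulVec]
    have : (Pi.single b 1 : B → ℚ) ∈ LinearMap.ker M.mulVecLin := by rw [h]; trivial
    rwa [LinearMap.mem_ker, Matrix.mulVecLin_apply] at this

/-- an element of the commutant which kills the period is zero -/
theorem eq_zero (X : K3Type B) (g : Submodule ℚ (Matrix B B ℚ))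
    (hh : X.h ∈ Submodule.span ℂ (cm '' (g : Set (Matrix B B ℚ)))) {M : Matrix B B ℚ}
    (hM : ∀ Y ∈ g, M * Y = Y * M) (h0 : cm M *ᵥ X.ω = 0) : M = 0 := by
  by_contra hne
  have hdet := inj X g hh hM hne
  have h1 : (cm M).det = ((M.det : ℚ) : ℂ) := by
    have := RingHom.map_det (algebraMap ℚ ℂ) M
    simpa [cm, RingHom.mapMatrix_apply] using this.symm
  have h2 : (cm M).det = 0 := Matrix.exists_mulVec_eq_zero_iff.1 ⟨X.ω, omega_ne X, h0⟩
  rw [h1] at h2
  exact hdet (by exact_mod_cast h2)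

/-- the elements which commute with `g` are Hodge endomorphisms -/
theorem comm_h (X : K3Type B) (g : Submodule ℚ (Matrix B B ℚ))
    (hh : X.h ∈ Submodule.span ℂ (cm '' (g : Set (Matrix B B ℚ)))) {M : Matrix B B ℚ}
    (hM : ∀ Y ∈ g, M * Y = Y * M) : cm M * X.h = X.h * cm M := by
  have h1 : ∀ Z ∈ Submodule.span ℂ (cm '' (g : Set (Matrix B B ℚ))), cm M * Z = Z * cm M := by
    intro Z hZ
    induction hZ using Submodule.span_induction with
    | mem Z hZ =>
      obtain ⟨Y, hY, rfl⟩ := hZ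
      rw [← K9.cm_mul, hM Y hY, K9.cm_mul]
    | zero => rw [mul_zero, zero_mul]
    | add Z Z' _ _ h1 h2 => rw [mul_add, add_mul, h1, h2]
    | smul a Z _ h1 => rw [mul_smul_comm, smul_mul_assoc, h1]
  exact h1 _ hh

/-- the commutant is commutative -/
theorem comm_comm (X : K3Type B) (g : Submodule ℚ (Matrix B B ℚ))
    (hh : X.h ∈ Submodule.span ℂ (cm '' (g : Set (Matrix B B ℚ)))) {M N : Matrix B B ℚ}
    (hM : ∀ Y ∈ g, M * Y = Y * M) (hN : ∀ Y ∈ g, N * Y = Y * N) : M * N = N * M := by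
  obtain ⟨r, hr⟩ := eig_omega X M (comm_h X g hh hM)
  obtain ⟨r', hr'⟩ := eig_omega X N (comm_h X g hh hN)
  refine sub_eq_zero.1 (eq_zero X g hh (M := M * N - N * M) ?_ ?_)
  · intro Y hY
    rw [sub_mul, mul_sub, mul_assoc, hN Y hY, ← mul_assoc, hM Y hY, mul_assoc, mul_assoc N M Y,
      hM Y hY, ← mul_assoc N Y M, hN Y hY, mul_assoc Y N M]
  · rw [K9.cm_sub, K9.cm_mul, K9.cm_mul, sub_mulVec, ← mulVec_mulVec, ← mulVec_mulVec, hr, hr',
      mulVec_smul, mulVec_smul, hr, hr', smul_smul, smul_smul, mul_comm, sub_self]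

/-- the adjoint -/
noncomputable def ad (q M : Matrix B B ℚ) : Matrix B B ℚ := q⁻¹ * Mᵀ * q

variable {q : Matrix B B ℚ}

theorem ad_add (M N : Matrix B B ℚ) : ad q (M + N) = ad q M + ad q N := by
  unfold ad
  rw [transpose_add, mul_add, add_mul]

theorem ad_mul (hq : IsUnit q.det) (M N : Matrix B B ℚ) : ad q (M * N) = ad q N * ad q M := by
  unfold ad
  rw [transpose_mul]
  have : q * (q⁻¹ * Mᵀ * q) = Mᵀ * q := by
    rw [mul_assoc q⁻¹, ← mul_assoc q, mul_nonsing_inv _ hq, one_mul]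
  rw [mul_assoc (q⁻¹ * Nᵀ) q, this, mul_assoc q⁻¹, mul_assoc q⁻¹, mul_assoc Nᵀ]

theorem ad_one (hq : IsUnit q.det) : ad q 1 = 1 := by
  unfold ad
  rw [transpose_one, mul_one, nonsing_inv_mul _ hq]

theorem ad_smul (c : ℚ) (M : Matrix B B ℚ) : ad q (c • M) = c • ad q M := by
  unfold ad
  rw [transpose_smul, mul_smul_comm, smul_mul_assoc]

theorem ad_ad (hq : IsUnit q.det) (hs : qᵀ = q) (M : Matrix B B ℚ) : ad q (ad q M) = M := by
  unfold ad
  rw [transpose_mul, transpose_mul, transpose_transpose, transpose_nonsing_inv, hs]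
  rw [← mul_assoc, ← mul_assoc, nonsing_inv_mul _ hq, one_mul, mul_assoc, nonsing_inv_mul _ hq,
    mul_one]

/-- the adjoint preserves the commutant -/
theorem ad_comm (hq : IsUnit q.det) {M Y : Matrix B B ℚ} (hY : Yᵀ * q + q * Y = 0)
    (h : M * Y = Y * M) : ad q M * Y = Y * ad q M := by
  have h1 : Yᵀ * q = -(q * Y) := eq_neg_of_add_eq_zero_left hY
  have h2 : Yᵀ * Mᵀ = Mᵀ * Yᵀ := by rw [← transpose_mul, ← transpose_mul, h]
  unfold ad
  have h3 : q * (q⁻¹ * Mᵀ * q * Y) = q * (Y * (q⁻¹ * Mᵀ * q)) := by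
    have e1 : q * (q⁻¹ * Mᵀ * q * Y) = Mᵀ * (q * Y) := by
      rw [mul_assoc, mul_assoc, ← mul_assoc q, mul_nonsing_inv _ hq, one_mul]
    have e2 : q * (Y * (q⁻¹ * Mᵀ * q)) = q * Y * q⁻¹ * Mᵀ * q := by
      simp only [mul_assoc]
    have e3 : q * Y * q⁻¹ = -Yᵀ := by
      have e4 : q * Y = -(Yᵀ * q) := by rw [h1, neg_neg]
      rw [e4, neg_mul, mul_assoc, mul_nonsing_inv _ hq, mul_one]
    rw [e1, e2, e3, neg_mul, neg_mul, h2, mul_assoc, h1, mul_neg, neg_neg]
  have h4 := congrArg (fun W => q⁻¹ * W) h3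
  simp only [← mul_assoc, nonsing_inv_mul _ hq, one_mul] at h4
  simpa only [mul_assoc] using h4

end P2

open P2

variable {B : Type} [Fintype B] [DecidableEq B]

/-- P2, from P1 -/
theorem exists_theta_cm_of
    (P1 : ∀ (F : Type) [Field F] [Algebra ℚ F] [FiniteDimensional ℚ F]
      (s : F ≃ₐ[ℚ] F), (∀ x, s (s x) = x) → (∃ x, s x ≠ x) →
      ∃ t : F, s t = -t ∧ t ≠ 0 ∧ ∀ x : F, ∃ p : Polynomial ℚ, x = Polynomial.aeval t p)
    (X : K3Type B) (hX : ¬ X.NonCM) (g : Submodule ℚ (Matrix B B ℚ))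
    (hh : X.h ∈ Submodule.span ℂ (cm '' (g : Set (Matrix B B ℚ)))) (hg : g ≤ X.gQ) :
    ∃ θ : Matrix B B ℚ, (X.q * θ)ᵀ = -(X.q * θ) ∧ θ ≠ 0 ∧
    cm θ * X.h = X.h * cm θ ∧ Irreducible (minpoly ℚ θ) ∧ (∀ Y ∈ g, Y * θ = θ * Y) ∧
    ∀ A : Matrix B B ℚ, A * θ = θ * A → A ∈ Algebra.adjoin ℚ (g : Set (Matrix B B ℚ)) := by
  have hB : Nonempty B := by
    by_contra h
    rw [not_nonempty_iff] at h
    exact X.pol (by simp [dotProduct])
  have hq : IsUnit X.q.det := isUnit_iff_ne_zero.2 X.nondeg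
  let E : Subalgebra ℚ (Matrix B B ℚ) := Subalgebra.centralizer ℚ (g : Set (Matrix B B ℚ))
  have hE : ∀ M : Matrix B B ℚ, M ∈ E ↔ ∀ Y ∈ g, M * Y = Y * M := by
    intro M
    rw [Subalgebra.mem_centralizer_iff]
    exact ⟨fun h Y hY => (h Y hY).symm, fun h Y hY => (h Y hY).symm⟩
  have hcomm : ∀ M ∈ E, ∀ N ∈ E, M * N = N * M := fun M hM N hN =>
    comm_comm X g hh ((hE M).1 hM) ((hE N).1 hN)
  have hdom : ∀ M ∈ E, ∀ N ∈ E, M * N = 0 → M = 0 ∨ N = 0 := by
    intro M hM N hN hMN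
    by_contra hcon
    push Not at hcon
    have h1 := inj X g hh ((hE M).1 hM) hcon.1
    have h2 := inj X g hh ((hE N).1 hN) hcon.2
    have h3 : (M * N).det ≠ 0 := by
      rw [det_mul]
      exact mul_ne_zero h1 h2
    rw [hMN] at h3
    exact h3 det_zero
  have had : ∀ M ∈ E, ad X.q M ∈ E := fun M hM => (hE _).2 fun Y hY =>
    ad_comm hq (K9.gQ_skew X (hg hY)) ((hE M).1 hM Y hY)
  let f : E →ₐ[ℚ] E := AlgHom.ofLinearMap
    { toFun := fun M => ⟨ad X.q M.1, had M.1 M.2⟩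
      map_add' := fun M N => Subtype.ext (ad_add M.1 N.1)
      map_smul' := fun c M => Subtype.ext (ad_smul c M.1) }
    (Subtype.ext (ad_one hq))
    (fun M N => Subtype.ext ((ad_mul hq M.1 N.1).trans
      (hcomm _ (had _ N.2) _ (had _ M.2))))
  have hff : ∀ M : E, f (f M) = M := fun M => Subtype.ext (ad_ad hq X.sym M.1)
  let s : E ≃ₐ[ℚ] E := AlgEquiv.ofAlgHom f f (AlgHom.ext hff) (AlgHom.ext hff)
  have hs1 : ∀ M : E, (s M).1 = ad X.q M.1 := fun M => rfl
  have hss : ∀ M : E, s (s M) = M := hff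
  have hsne : ∃ M : E, s M ≠ M := by
    unfold K3Type.NonCM at hX
    push Not at hX
    obtain ⟨M, hM, hns⟩ := hX
    refine ⟨⟨M, (hE M).2 fun Y hY => (comm_iff X M).2 hM Y (hg hY)⟩, fun h => hns ?_⟩
    have h1 : ad X.q M = M := congrArg Subtype.val h
    unfold ad at h1
    have h2 : X.q * (X.q⁻¹ * Mᵀ * X.q) = X.q * M := by rw [h1]
    rw [mul_assoc, ← mul_assoc X.q, mul_nonsing_inv _ hq, one_mul] at h2
    rw [Matrix.IsSymm, transpose_mul, X.sym, h2]
  let hcr : CommRing E :=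
    { (inferInstance : Ring E) with
      mul_comm := fun a b => Subtype.ext (hcomm a.1 a.2 b.1 b.2) }
  have : NoZeroDivisors E := ⟨fun {a b} hab => by
    rcases hdom a.1 a.2 b.1 b.2 (congrArg Subtype.val hab) with h | h
    · exact Or.inl (Subtype.ext h)
    · exact Or.inr (Subtype.ext h)⟩
  have : Nontrivial E := inferInstance
  have : IsDomain E := NoZeroDivisors.to_isDomain E
  have : FiniteDimensional ℚ E := inferInstance
  let : Field E := fieldOfFiniteDimensional ℚ E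
  obtain ⟨α, hα1, hα2, hα3⟩ := P1 E s hss hsne
  have hint : IsIntegral ℚ α := Algebra.IsIntegral.isIntegral α
  have hαE := (hE α.1).1 α.2
  refine ⟨α.1, ?_, fun h => hα2 (Subtype.ext h), comm_h X g hh hαE, ?_,
    fun Y hY => (hαE Y hY).symm, ?_⟩
  · have h1 : ad X.q α.1 = -α.1 := congrArg Subtype.val hα1
    unfold ad at h1
    have h2 : X.q * (X.q⁻¹ * (α.1)ᵀ * X.q) = X.q * (-α.1) := by rw [h1]
    rw [mul_assoc, ← mul_assoc X.q, mul_nonsing_inv _ hq, one_mul] at h2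
    rw [transpose_mul, X.sym, h2, mul_neg]
  · have h := minpoly.irreducible hint
    have e : minpoly ℚ (α : Matrix B B ℚ) = minpoly ℚ α :=
      minpoly.algHom_eq E.val Subtype.val_injective α
    rw [e]
    exact h
  · intro A hA
    refine density_mat (simple' X g hh) A fun M hM => ?_
    obtain ⟨p, hp⟩ := hα3 ⟨M, (hE M).2 hM⟩
    have hM2 : M ∈ Algebra.adjoin ℚ {(α : Matrix B B ℚ)} := by
      have h1 : M = Polynomial.aeval (α : Matrix B B ℚ) p := by
        have h2 := congrArg E.val hp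
        rw [← Polynomial.aeval_algHom_apply] at h2
        exact h2
      rw [h1]
      exact Polynomial.aeval_mem_adjoin_singleton ℚ _
    exact comm_adjoin (g := {(α : Matrix B B ℚ)}) (by
      intro Y hY
      rw [Set.mem_singleton_iff.mp hY]
      exact hA) hM2

end Pool.Agent.N429.KS
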