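import Pool.Agent.N429.KS.P1
import Pool.Agent.N429.KS.P2a

/-!
# KS4/P2: the skew generator of the field of endomorphisms, complex multiplication (helper946)
-/

set_option linter.unusedSectionVars false

open Matrix Finset Function

namespace Pool.Agent.N429.KS

variable {B : Type} [Fintype B] [DecidableEq B]

/-- P2 -/
theorem exists_theta_cm (X : K3Type B) (hX : ¬ X.NonCM) (g : Submodule ℚ (Matrix B B ℚ))
    (hh : X.h ∈ Submodule.span ℂ (cm '' (g : Set (Matrix B B ℚ)))) (hg : g ≤ X.gQ) :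
    ∃ θ : Matrix B B ℚ, (X.q * θ)ᵀ = -(X.q * θ) ∧ θ ≠ 0 ∧
    cm θ * X.h = X.h * cm θ ∧ Irreducible (minpoly ℚ θ) ∧ (∀ Y ∈ g, Y * θ = θ * Y) ∧
    ∀ A : Matrix B B ℚ, A * θ = θ * A → A ∈ Algebra.adjoin ℚ (g : Set (Matrix B B ℚ)) :=
  exists_theta_cm_of (fun F _ _ _ s hs hne => exists_skew_primitive F s hs hne) X hX g hh hg

end Pool.Agent.N429.KS
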