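import Pool.Agent.N429.KS.K13

/-!
# Irreducibility of the eigenspaces, without a symmetric form (P3)
-/

set_option linter.unusedSectionVars false

open Matrix Finset Function

namespace Pool.Agent.N429.KS

noncomputable section

variable {B : Type} [Fintype B] [DecidableEq B]

/-- the projection to an eigenspace -/
theorem p3_proj (θ : Matrix B B ℚ) (hirr : Irreducible (minpoly ℚ θ)) (r : ℂ) (x : B → ℂ)
    (hx0 : x ≠ 0) (hx : cm θ *ᵥ x = r • x) :
    ∃ P : Matrix B B ℂ, P *ᵥ x = x ∧ P * cm θ = r • P := by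
  -- polynomials in `θ`
  have hev : ∀ s : Polynomial ℂ, Polynomial.aeval (cm θ) s *ᵥ x = s.eval r • x := by
    intro s
    induction s using Polynomial.induction_on' with
    | add s t hs ht => rw [map_add, Matrix.add_mulVec, hs, ht, Polynomial.eval_add, add_smul]
    | monomial n a =>
      have hn : ∀ n : ℕ, cm θ ^ n *ᵥ x = r ^ n • x := by
        intro n
        induction n with
        | zero => simp
        | succ n ih =>
          rw [pow_succ, ← Matrix.mulVec_mulVec, hx, Matrix.mulVec_smul, ih, smul_smul, pow_succ,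
            mul_comm]
      rw [Polynomial.aeval_monomial, Polynomial.eval_monomial, ← Matrix.mulVec_mulVec, hn,
        Matrix.mulVec_smul, Algebra.algebraMap_eq_smul_one, Matrix.smul_mulVec,
        Matrix.one_mulVec, smul_smul, mul_comm]
  -- the minimal polynomial
  set p : Polynomial ℂ := (minpoly ℚ θ).map (algebraMap ℚ ℂ) with hp
  have hp0 : Polynomial.aeval (cm θ) p = 0 := by
    rw [hp, Polynomial.aeval_map_algebraMap]
    let F : Matrix B B ℚ →ₐ[ℚ] Matrix B B ℂ := (Algebra.ofId ℚ ℂ).mapMatrix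
    have hF : F θ = cm θ := rfl
    rw [← hF, Polynomial.aeval_algHom_apply, minpoly.aeval, map_zero]
  have hroot : p.IsRoot r := by
    have h1 := hev p
    rw [hp0, Matrix.zero_mulVec] at h1
    rcases smul_eq_zero.mp h1.symm with h | h
    · exact h
    · exact absurd h hx0
  have hsep : p.Separable := by
    rw [hp]
    exact (hirr.separable).map
  obtain ⟨s, hs⟩ := Polynomial.dvd_iff_isRoot.mpr hroot
  have hsr : s.eval r ≠ 0 := by
    intro h
    obtain ⟨t, ht⟩ := Polynomial.dvd_iff_isRoot.mpr h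
    have h2 : (Polynomial.X - Polynomial.C r) * (Polynomial.X - Polynomial.C r) ∣ p := by
      rw [hs, ht, ← mul_assoc]
      exact dvd_mul_right _ _
    have h3 := hsep.squarefree _ h2
    exact Polynomial.not_isUnit_X_sub_C r h3
  refine ⟨(s.eval r)⁻¹ • Polynomial.aeval (cm θ) s, ?_, ?_⟩
  · rw [Matrix.smul_mulVec, hev, smul_smul, inv_mul_cancel₀ hsr, one_smul]
  · have h1 : Polynomial.aeval (cm θ) s * (cm θ - algebraMap ℂ (Matrix B B ℂ) r) = 0 := by
      rw [← hp0, hs, mul_comm (Polynomial.X - Polynomial.C r) s, map_mul, map_sub,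
        Polynomial.aeval_X, Polynomial.aeval_C]
    rw [Matrix.mul_sub, sub_eq_zero, Algebra.algebraMap_eq_smul_one, Matrix.mul_smul,
      Matrix.mul_one] at h1
    rw [Matrix.smul_mul, h1, smul_comm]

/-- P3 -/
theorem irred' (θ : Matrix B B ℚ) (hirr : Irreducible (minpoly ℚ θ))
    (g : Submodule ℚ (Matrix B B ℚ)) (hcomm : ∀ Y ∈ g, Y * θ = θ * Y)
    (hdens : ∀ A : Matrix B B ℚ, A * θ = θ * A → A ∈ Algebra.adjoin ℚ (g : Set (Matrix B B ℚ)))
    (r : ℂ) (M : Submodule ℂ (B → ℂ)) (hM : ∀ x ∈ M, cm θ *ᵥ x = r • x)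
    (hst : ∀ Y ∈ g, ∀ x ∈ M, cm Y *ᵥ x ∈ M) :
    M = ⊥ ∨ ∀ x, cm θ *ᵥ x = r • x → x ∈ M := by
  rcases eq_or_ne M ⊥ with h | hne
  · exact Or.inl h
  right
  intro y hy
  obtain ⟨x, hxM, hx0⟩ := Submodule.exists_mem_ne_zero_of_ne_bot hne
  obtain ⟨P, hPx, hPθ⟩ := p3_proj θ hirr r x hx0 (hM x hxM)
  obtain ⟨b, hb⟩ := Function.ne_iff.mp hx0
  simp only [Pi.zero_apply] at hb
  let Z : Matrix B B ℂ := (x b)⁻¹ • vecMulVec y (P b)
  have hZx : Z *ᵥ x = y := by
    have h1 : P b ⬝ᵥ x = x b := congrFun hPx b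
    simp only [Z]
    rw [Matrix.smul_mulVec, Matrix.vecMulVec_mulVec, h1]
    ext c
    simp only [Pi.smul_apply, smul_eq_mul, MulOpposite.smul_eq_mul_unop, MulOpposite.unop_op]
    field_simp
  have hrow : P b ᵥ* cm θ = r • P b := congrFun hPθ b
  have hZθ : Z * cm θ = cm θ * Z := by
    simp only [Z]
    rw [Matrix.smul_mul, Matrix.mul_smul, Matrix.mul_vecMulVec, Matrix.vecMulVec_mul, hy,
      hrow, Matrix.vecMulVec_smul, Matrix.smul_vecMulVec]
  -- descent
  let L : Matrix B B ℚ →ₗ[ℚ] (B × B → ℚ) :=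
    { toFun := fun A p => (A * θ - θ * A) p.1 p.2
      map_add' := by
        intro A A'
        funext p
        simp only [Matrix.add_mul, Matrix.mul_add, Matrix.sub_apply, Matrix.add_apply,
          Pi.add_apply]
        ring
      map_smul' := by
        intro c A
        funext p
        simp only [Matrix.smul_mul, Matrix.mul_smul, Matrix.sub_apply, Matrix.smul_apply,
          Pi.smul_apply, RingHom.id_apply, smul_eq_mul]
        ring }
  let Lc : Matrix B B ℂ →ₗ[ℂ] (B × B → ℂ) :=
    { toFun := fun A p => (A * cm θ - cm θ * A) p.1 p.2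
      map_add' := by
        intro A A'
        funext p
        simp only [Matrix.add_mul, Matrix.mul_add, Matrix.sub_apply, Matrix.add_apply,
          Pi.add_apply]
        ring
      map_smul' := by
        intro c A
        funext p
        simp only [Matrix.smul_mul, Matrix.mul_smul, Matrix.sub_apply, Matrix.smul_apply,
          Pi.smul_apply, RingHom.id_apply, smul_eq_mul]
        ring }
  have hL : ∀ A t, Lc (cm A) t = (L A t : ℂ) := by
    intro A t
    change (cm A * cm θ - cm θ * cm A) t.1 t.2 = (((A * θ - θ * A) t.1 t.2 : ℚ) : ℂ)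
    rw [← k13_cm_mul, ← k13_cm_mul, ← k13_cm_sub]
    rfl
  have hZ0 : Lc Z = 0 := by
    funext p
    change (Z * cm θ - cm θ * Z) p.1 p.2 = 0
    rw [hZθ, sub_self]
    rfl
  have hspan := sol L Lc hL hZ0
  -- the rational operators which stabilise `M`
  have hadj : ∀ A ∈ Algebra.adjoin ℚ (g : Set (Matrix B B ℚ)), ∀ z ∈ M, cm A *ᵥ z ∈ M := by
    intro A hA
    induction hA using Algebra.adjoin_induction with
    | mem A hA => exact hst A hA
    | algebraMap c =>
      intro z hz
      rw [k13_cm_algebraMap, Algebra.algebraMap_eq_smul_one, Matrix.smul_mulVec,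
        Matrix.one_mulVec]
      exact M.smul_mem _ hz
    | add A A' _ _ h1 h2 =>
      intro z hz
      rw [k13_cm_add, Matrix.add_mulVec]
      exact M.add_mem (h1 z hz) (h2 z hz)
    | mul A A' _ _ h1 h2 =>
      intro z hz
      rw [k13_cm_mul, ← Matrix.mulVec_mulVec]
      exact h1 _ (h2 z hz)
  have hall : ∀ W ∈ Submodule.span ℂ (cm '' {A : Matrix B B ℚ | L A = 0}), W *ᵥ x ∈ M := by
    intro W hW
    induction hW using Submodule.span_induction with
    | mem W hW =>
      obtain ⟨A, hA, rfl⟩ := hW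
      apply hadj A _ x hxM
      apply hdens
      have hA' : L A = 0 := hA
      ext a b
      have := congrFun hA' (a, b)
      change (A * θ - θ * A) a b = 0 at this
      rw [Matrix.sub_apply] at this
      linarith
    | zero => rw [Matrix.zero_mulVec]; exact M.zero_mem
    | add W W' _ _ h1 h2 => rw [Matrix.add_mulVec]; exact M.add_mem h1 h2
    | smul c W _ h1 => rw [Matrix.smul_mulVec]; exact M.smul_mem _ h1
  have := hall Z hspan
  rwa [hZx] at this

end

end Pool.Agent.N429.KS
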