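import Pool.Agent.N429.KS.K12

/-!
# The weight argument for a general linear algebra
-/

set_option linter.unusedSectionVars false

open Matrix Finset Function

namespace Pool.Agent.N429.KS

noncomputable section

namespace P4

open K12

variable {B : Type} [Fintype B] [DecidableEq B]

/-- the situation -/
structure Dat (Q : Matrix B B ℂ) (L P : Submodule ℂ (Matrix B B ℂ))
    (T T' : Submodule ℂ (B → ℂ)) (ω ω' : B → ℂ) : Prop where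
  hQ : Q.IsSymm
  hPL : P ≤ L
  hLP : ∀ Y ∈ L, ∀ Z ∈ P, Y * Z - Z * Y ∈ P
  hsk : ∀ Y ∈ L, Q * Y + Yᵀ * Q = 0
  hTT : ∀ x ∈ T, ∀ y ∈ T, bf Q x y = 0
  hTT' : ∀ x ∈ T', ∀ y ∈ T', bf Q x y = 0
  hω : ω ∈ T
  hω' : ω' ∈ T'
  h3 : bf Q ω ω' ≠ 0
  hh : wedge Q ω ω' ∈ P
  hT : ∀ Y ∈ L, ∀ x ∈ T, Y *ᵥ x ∈ T
  hT' : ∀ Y ∈ L, ∀ x ∈ T', Y *ᵥ x ∈ T'
  irr : ∀ M ≤ T, (∀ Y ∈ L, ∀ x ∈ M, Y *ᵥ x ∈ M) → M = ⊥ ∨ M = T
  irr' : ∀ M ≤ T', (∀ Y ∈ L, ∀ x ∈ M, Y *ᵥ x ∈ M) → M = ⊥ ∨ M = T'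

variable {Q : Matrix B B ℂ} {L P : Submodule ℂ (Matrix B B ℂ)} {T T' : Submodule ℂ (B → ℂ)}
  {ω ω' : B → ℂ}

theorem Dat.swap (D : Dat Q L P T T' ω ω') : Dat Q L P T' T ω' ω where
  hQ := D.hQ
  hPL := D.hPL
  hLP := D.hLP
  hsk := D.hsk
  hTT := D.hTT'
  hTT' := D.hTT
  hω := D.hω'
  hω' := D.hω
  h3 := by rw [bf_symm D.hQ]; exact D.h3
  hh := by rw [wedge_anti]; exact P.neg_mem D.hh
  hT := D.hT'
  hT' := D.hT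
  irr := D.irr'
  irr' := D.irr

theorem bracket_mem (D : Dat Q L P T T' ω ω') {Y : Matrix B B ℂ} (hY : Y ∈ L) {x y : B → ℂ}
    (hxy : wedge Q x y ∈ P) : wedge Q (Y *ᵥ x) y + wedge Q x (Y *ᵥ y) ∈ P := by
  rw [← bracket (D.hsk Y hY)]
  exact D.hLP Y hY _ hxy

/-- the first step -/
theorem step1 (D : Dat Q L P T T' ω ω') {Y : Matrix B B ℂ} (hY : Y ∈ L) :
    wedge Q (Y *ᵥ ω) ω' ∈ P := by
  have b1 := bracket_mem D hY D.hh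
  have hN : bf Q ω ω' ≠ 0 := D.h3
  have f1 : wedge Q ω ω' *ᵥ ω = bf Q ω ω' • ω := by
    rw [wedge_mulVec, D.hTT ω D.hω ω D.hω, zero_smul, sub_zero]
  have f2 : wedge Q ω ω' *ᵥ ω' = (-bf Q ω ω') • ω' := by
    rw [wedge_mulVec, D.hTT' ω' D.hω' ω' D.hω', zero_smul, zero_sub, bf_symm D.hQ ω' ω, neg_smul]
  have f3 : wedge Q ω ω' *ᵥ (Y *ᵥ ω) = bf Q (Y *ᵥ ω) ω' • ω := by
    rw [wedge_mulVec, D.hTT _ (D.hT Y hY ω D.hω) ω D.hω, zero_smul, sub_zero]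
  have f4 : wedge Q ω ω' *ᵥ (Y *ᵥ ω') = bf Q (Y *ᵥ ω) ω' • ω' := by
    rw [wedge_mulVec, D.hTT' _ (D.hT' Y hY ω' D.hω') ω' D.hω', zero_smul, zero_sub,
      bf_skew (D.hsk Y hY) ω' ω, bf_symm D.hQ ω' (Y *ᵥ ω), neg_smul, neg_neg]
  have b2 := D.hLP _ (D.hPL D.hh) _ b1
  have e : wedge Q ω ω' * (wedge Q (Y *ᵥ ω) ω' + wedge Q ω (Y *ᵥ ω')) -
      (wedge Q (Y *ᵥ ω) ω' + wedge Q ω (Y *ᵥ ω')) * wedge Q ω ω' =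
      (wedge Q ω ω' * wedge Q (Y *ᵥ ω) ω' - wedge Q (Y *ᵥ ω) ω' * wedge Q ω ω') +
      (wedge Q ω ω' * wedge Q ω (Y *ᵥ ω') - wedge Q ω (Y *ᵥ ω') * wedge Q ω ω') := by
    rw [mul_add, add_mul]; abel
  rw [e, bracket (D.hsk _ (D.hPL D.hh)), bracket (D.hsk _ (D.hPL D.hh)), f1, f2, f3, f4] at b2
  simp only [wedge_smul_left, wedge_smul_right] at b2
  have b3 := P.sub_mem (P.smul_mem (bf Q ω ω') b1) (P.sub_mem b2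
    (P.smul_mem (2 * bf Q (Y *ᵥ ω) ω') D.hh))
  have e3 : bf Q ω ω' • (wedge Q (Y *ᵥ ω) ω' + wedge Q ω (Y *ᵥ ω')) -
      (bf Q (Y *ᵥ ω) ω' • wedge Q ω ω' + -bf Q ω ω' • wedge Q (Y *ᵥ ω) ω' +
        (bf Q ω ω' • wedge Q ω (Y *ᵥ ω') + bf Q (Y *ᵥ ω) ω' • wedge Q ω ω') -
        (2 * bf Q (Y *ᵥ ω) ω') • wedge Q ω ω') =
      (2 * bf Q ω ω') • wedge Q (Y *ᵥ ω) ω' := by
    module
  rw [e3] at b3
  have h2N : (2 * bf Q ω ω') ≠ 0 := mul_ne_zero two_ne_zero hN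
  have h5 := P.smul_mem (2 * bf Q ω ω')⁻¹ b3
  rwa [smul_smul, inv_mul_cancel₀ h2N, one_smul] at h5

/-- brackets with `x ∧ ω'` -/
theorem step2 (D : Dat Q L P T T' ω ω') {x y : B → ℂ} (hx : x ∈ T) (hy : y ∈ T')
    (hxω : wedge Q x ω' ∈ P) (hy' : wedge Q ω y ∈ P) : wedge Q x y ∈ P := by
  have b1 := bracket_mem D (D.hPL hxω) hy'
  have f1 : wedge Q x ω' *ᵥ ω = bf Q ω ω' • x := by
    rw [wedge_mulVec, D.hTT ω D.hω x hx, zero_smul, sub_zero]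
  have f2 : wedge Q x ω' *ᵥ y = (-bf Q y x) • ω' := by
    rw [wedge_mulVec, D.hTT' y hy ω' D.hω', zero_smul, zero_sub, neg_smul]
  rw [f1, f2, wedge_smul_left, wedge_smul_right] at b1
  have b2 := P.add_mem b1 (P.smul_mem (bf Q y x) D.hh)
  have e : bf Q ω ω' • wedge Q x y + -bf Q y x • wedge Q ω ω' + bf Q y x • wedge Q ω ω' =
      bf Q ω ω' • wedge Q x y := by
    module
  rw [e] at b2
  have h5 := P.smul_mem (bf Q ω ω')⁻¹ b2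
  rwa [smul_smul, inv_mul_cancel₀ D.h3, one_smul] at h5

theorem step1' (D : Dat Q L P T T' ω ω') {Y : Matrix B B ℂ} (hY : Y ∈ L) :
    wedge Q ω (Y *ᵥ ω') ∈ P := by
  rw [wedge_anti]
  exact P.neg_mem (step1 D.swap hY)

/-- the second step -/
theorem step3 (D : Dat Q L P T T' ω ω') : ∀ x ∈ T, wedge Q x ω' ∈ P := by
  let M : Submodule ℂ (B → ℂ) :=
    { carrier := {x | x ∈ T ∧ wedge Q x ω' ∈ P}
      zero_mem' := ⟨T.zero_mem, by rw [wedge_anti, wedge_zero_right, neg_zero]; exact P.zero_mem⟩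
      add_mem' := by
        rintro x y ⟨a1, a2⟩ ⟨b1, b2⟩
        exact ⟨T.add_mem a1 b1, by rw [wedge_add_left]; exact P.add_mem a2 b2⟩
      smul_mem' := by
        rintro c x ⟨a1, a2⟩
        exact ⟨T.smul_mem c a1, by rw [wedge_smul_left]; exact P.smul_mem c a2⟩ }
  have hM : M ≤ T := fun x hx => hx.1
  have hst : ∀ Y ∈ L, ∀ x ∈ M, Y *ᵥ x ∈ M := by
    rintro Y hY x ⟨hx, hx'⟩
    refine ⟨D.hT Y hY x hx, ?_⟩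
    have h1 := bracket_mem D hY hx'
    have h2 : wedge Q x (Y *ᵥ ω') ∈ P :=
      step2 D hx (D.hT' Y hY ω' D.hω') hx' (step1' D hY)
    have h3 := P.sub_mem h1 h2
    rwa [add_sub_cancel_right] at h3
  have hωM : ω ∈ M := ⟨D.hω, D.hh⟩
  rcases D.irr M hM hst with h | h
  · rw [h, Submodule.mem_bot] at hωM
    exact absurd (by rw [hωM, bf_zero_left]) D.h3
  · intro x hx
    rw [← h] at hx
    exact hx.2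

end P4

open P4 K12 in
/-- P4 -/
theorem weight_gl {B : Type} [Fintype B] [DecidableEq B] (Q : Matrix B B ℂ) (hQ : Q.IsSymm)
    (L P : Submodule ℂ (Matrix B B ℂ))
    (hPL : P ≤ L) (hLP : ∀ Y ∈ L, ∀ Z ∈ P, Y * Z - Z * Y ∈ P)
    (hsk : ∀ Y ∈ L, Q * Y + Yᵀ * Q = 0) (T T' : Submodule ℂ (B → ℂ))
    (hTT : ∀ x ∈ T, ∀ y ∈ T, x ⬝ᵥ (Q *ᵥ y) = 0) (hTT' : ∀ x ∈ T', ∀ y ∈ T', x ⬝ᵥ (Q *ᵥ y) = 0)
    (ω ω' : B → ℂ) (hω : ω ∈ T) (hω' : ω' ∈ T') (h3 : ω ⬝ᵥ (Q *ᵥ ω') ≠ 0)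
    (hh : wedge Q ω ω' ∈ P) (hT : ∀ Y ∈ L, ∀ x ∈ T, Y *ᵥ x ∈ T)
    (hT' : ∀ Y ∈ L, ∀ x ∈ T', Y *ᵥ x ∈ T')
    (irr : ∀ M ≤ T, (∀ Y ∈ L, ∀ x ∈ M, Y *ᵥ x ∈ M) → M = ⊥ ∨ M = T)
    (irr' : ∀ M ≤ T', (∀ Y ∈ L, ∀ x ∈ M, Y *ᵥ x ∈ M) → M = ⊥ ∨ M = T') :
    ∀ x ∈ T, ∀ y ∈ T', wedge Q x y ∈ P := by
  have D : Dat Q L P T T' ω ω' :=
    ⟨hQ, hPL, hLP, hsk, hTT, hTT', hω, hω', h3, hh, hT, hT', irr, irr'⟩
  intro x hx y hy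
  refine step2 D hx hy (step3 D x hx) ?_
  rw [wedge_anti]
  exact P.neg_mem (step3 D.swap y hy)

end

end Pool.Agent.N429.KS
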