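import Pool.Agent.N429.KS.Defs

/-!
# K14: Galois conjugation of the eigenspaces
-/

set_option linter.unusedSectionVars false

open Matrix Finset Function

namespace Pool.Agent.N429.KS

noncomputable section

namespace K14

variable {B : Type} [Fintype B] [DecidableEq B]

/-- the divided difference of the polynomial `p` -/
def PP {R : Type} [CommRing R] [Algebra ℚ R] (p : Polynomial ℚ) (t : R) (M : Matrix B B R) :
    Matrix B B R :=
  ∑ n ∈ range (p.natDegree + 1), algebraMap ℚ R (p.coeff n) •
    ∑ i ∈ range n, t ^ (n - 1 - i) • M ^ i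

lemma PP_map {R R' : Type} [CommRing R] [Algebra ℚ R] [CommRing R'] [Algebra ℚ R']
    (φ : R →ₐ[ℚ] R') (p : Polynomial ℚ) (t : R) (M : Matrix B B R) :
    (PP p t M).map φ = PP p (φ t) (M.map φ) := by
  have h : ∀ A : Matrix B B R, A.map φ = (φ : R →+* R').mapMatrix A := fun A => rfl
  unfold PP
  rw [h, map_sum]
  refine Finset.sum_congr rfl fun n _ => ?_
  have h1 : ∀ (c : R) (A : Matrix B B R), (φ : R →+* R').mapMatrix (c • A) =
      φ c • (φ : R →+* R').mapMatrix A := by
    intro c A
    ext i j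
    simp
  rw [h1, map_sum, AlgHom.commutes]
  congr 1
  refine Finset.sum_congr rfl fun i _ => ?_
  rw [h1, map_pow, map_pow, h]

/-- the operator `x ∧ y` over a commutative ring -/
def wR {R : Type} [CommRing R] (Q : Matrix B B R) (x y : B → R) : Matrix B B R :=
  fun i j => x i * (∑ k, Q j k * y k) - y i * (∑ k, Q j k * x k)

/-- the derivation over a commutative ring -/
def dR {R : Type} [CommRing R] (X : Matrix B B R) {S : Type} [Fintype S] [DecidableEq S]
    (f : (S → B) → R) : (S → B) → R :=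
  fun J => ∑ s, ∑ b, X b (J s) * f (update J s b)

lemma dR_wR_map {R R' : Type} [CommRing R] [CommRing R'] (φ : R →+* R') (Q : Matrix B B R)
    (x y : B → R) {S : Type} [Fintype S] [DecidableEq S] (f : (S → B) → R) (J : S → B) :
    φ (dR (wR Q x y) f J) =
      dR (wR (Q.map φ) (fun i => φ (x i)) fun i => φ (y i)) (fun I => φ (f I)) J := by
  simp only [dR, wR, map_sum, map_mul, map_sub, Matrix.map_apply]

lemma der_wedge {K : Type} [Field K] (Q : Matrix B B K) (x y : B → K) {S : Type} [Fintype S]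
    [DecidableEq S] (f : (S → B) → K) : der (wedge Q x y) f = dR (wR Q x y) f := rfl

/-- the value of `der (x ∧ y) f` -/
lemma add_left {K : Type} [Field K] (Q : Matrix B B K) (x x' y : B → K) {S : Type} [Fintype S]
    [DecidableEq S] (f : (S → B) → K) :
    dR (wR Q (x + x') y) f = dR (wR Q x y) f + dR (wR Q x' y) f := by
  funext J
  simp only [dR, wR, Pi.add_apply, ← Finset.sum_add_distrib]
  refine Finset.sum_congr rfl fun s _ => Finset.sum_congr rfl fun b _ => ?_
  have h : ∑ k, Q (J s) k * (x k + x' k) = ∑ k, Q (J s) k * x k + ∑ k, Q (J s) k * x' k := by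
    rw [← Finset.sum_add_distrib]
    exact Finset.sum_congr rfl fun k _ => by ring
  rw [h]
  ring

lemma smul_left {K : Type} [Field K] (Q : Matrix B B K) (c : K) (x y : B → K) {S : Type}
    [Fintype S] [DecidableEq S] (f : (S → B) → K) :
    dR (wR Q (c • x) y) f = c • dR (wR Q x y) f := by
  funext J
  simp only [dR, wR, Pi.smul_apply, smul_eq_mul, Finset.mul_sum]
  refine Finset.sum_congr rfl fun s _ => Finset.sum_congr rfl fun b _ => ?_
  have h : ∑ k, y b * (Q (J s) k * (c * x k)) = c * ∑ k, y b * (Q (J s) k * x k) := by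
    rw [Finset.mul_sum]
    exact Finset.sum_congr rfl fun k _ => by ring
  have h' : ∑ k, c * x b * (Q (J s) k * y k) = c * ∑ k, x b * (Q (J s) k * y k) := by
    rw [Finset.mul_sum]
    exact Finset.sum_congr rfl fun k _ => by ring
  rw [h, h']
  ring

lemma symm {K : Type} [Field K] (Q : Matrix B B K) (x y : B → K) {S : Type} [Fintype S]
    [DecidableEq S] (f : (S → B) → K) : dR (wR Q x y) f = - dR (wR Q y x) f := by
  funext J
  simp only [dR, wR, Pi.neg_apply, ← Finset.sum_neg_distrib]
  refine Finset.sum_congr rfl fun s _ => Finset.sum_congr rfl fun b _ => ?_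
  ring

/-- the vectors `x` with `der (x ∧ y) f = 0` -/
def U (Q : Matrix B B ℂ) (y : B → ℂ) {S : Type} [Fintype S] [DecidableEq S]
    (f : (S → B) → ℂ) : Submodule ℂ (B → ℂ) where
  carrier := {x | dR (wR Q x y) f = 0}
  zero_mem' := by
    have := smul_left Q 0 (0 : B → ℂ) y f
    simpa using this
  add_mem' := by
    intro a b ha hb
    show dR (wR Q (a + b) y) f = 0
    rw [add_left, show dR (wR Q a y) f = 0 from ha, show dR (wR Q b y) f = 0 from hb, add_zero]
  smul_mem' := by
    intro c a ha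
    show dR (wR Q (c • a) y) f = 0
    rw [smul_left, show dR (wR Q a y) f = 0 from ha, smul_zero]

/-- `(θ - t) P_t = p(θ) - p(t)` -/
lemma PP_mul (p : Polynomial ℚ) (t : ℂ) (M : Matrix B B ℂ) :
    (M - t • (1 : Matrix B B ℂ)) * PP p t M =
      Polynomial.aeval M p - (Polynomial.aeval t p) • (1 : Matrix B B ℂ) := by
  have hc : Commute M (t • (1 : Matrix B B ℂ)) := by
    unfold Commute SemiconjBy
    rw [mul_smul_comm, smul_mul_assoc, mul_one, one_mul]
  unfold PP
  rw [Finset.mul_sum]
  have h1 : ∀ n, (M - t • (1 : Matrix B B ℂ)) * (algebraMap ℚ ℂ (p.coeff n) •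
      ∑ i ∈ range n, t ^ (n - 1 - i) • M ^ i) =
      algebraMap ℚ ℂ (p.coeff n) • M ^ n - (algebraMap ℚ ℂ (p.coeff n) * t ^ n) •
        (1 : Matrix B B ℂ) := by
    intro n
    rw [mul_smul_comm]
    have h2 : ∑ i ∈ range n, t ^ (n - 1 - i) • M ^ i =
        ∑ i ∈ range n, M ^ i * (t • (1 : Matrix B B ℂ)) ^ (n - 1 - i) := by
      refine Finset.sum_congr rfl fun i _ => ?_
      rw [smul_pow, one_pow, mul_smul_comm, mul_one]
    rw [h2, hc.mul_geom_sum₂ n, smul_pow, one_pow, smul_sub, smul_smul]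
  rw [Finset.sum_congr rfl fun n _ => h1 n, Finset.sum_sub_distrib]
  congr 1
  · rw [Polynomial.aeval_eq_sum_range]
    rfl
  · rw [← Finset.sum_smul, Polynomial.aeval_eq_sum_range]
    rfl

lemma pow_mulVec {M : Matrix B B ℂ} {r : ℂ} {x : B → ℂ} (hx : M *ᵥ x = r • x) (i : ℕ) :
    (M ^ i) *ᵥ x = r ^ i • x := by
  induction i with
  | zero => simp
  | succ i ih =>
    rw [pow_succ, ← Matrix.mulVec_mulVec, hx, Matrix.mulVec_smul, ih, smul_smul, pow_succ, mul_comm]

/-- `P_r x = p'(r) x` on the eigenspace -/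
lemma PP_mulVec (p : Polynomial ℚ) {M : Matrix B B ℂ} {r : ℂ} {x : B → ℂ}
    (hx : M *ᵥ x = r • x) :
    PP p r M *ᵥ x = (Polynomial.aeval r (Polynomial.derivative p)) • x := by
  unfold PP
  rw [Matrix.sum_mulVec]
  have h1 : ∀ n, (algebraMap ℚ ℂ (p.coeff n) • ∑ i ∈ range n, r ^ (n - 1 - i) • M ^ i) *ᵥ x =
      (algebraMap ℚ ℂ (p.coeff n) * (n * r ^ (n - 1))) • x := by
    intro n
    rw [Matrix.smul_mulVec, Matrix.sum_mulVec]
    have h2 : ∀ i ∈ range n, (r ^ (n - 1 - i) • M ^ i) *ᵥ x = r ^ (n - 1) • x := by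
      intro i hi
      rw [Matrix.smul_mulVec, pow_mulVec hx, smul_smul, ← pow_add]
      congr 2
      have := Finset.mem_range.1 hi
      omega
    rw [Finset.sum_congr rfl h2, Finset.sum_const, Finset.card_range, ← Nat.cast_smul_eq_nsmul ℂ,
      smul_smul, smul_smul, mul_assoc]
  rw [Finset.sum_congr rfl fun n _ => h1 n, ← Finset.sum_smul]
  congr 1
  rw [Polynomial.derivative_apply, Polynomial.sum_over_range _ (by simp), map_sum]
  refine Finset.sum_congr rfl fun n _ => ?_
  rw [map_mul, Polynomial.aeval_C, map_pow, Polynomial.aeval_X, map_mul, map_natCast, mul_assoc]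

end K14

open K14 in
/-- K14 -/
theorem galois {B : Type} [Fintype B] [DecidableEq B] (q θ : Matrix B B ℚ) (hθ : (q * θ).IsSymm)
    (hirr : Irreducible (minpoly ℚ θ)) (r0 : ℂ)
    (hr0 : Polynomial.aeval r0 (minpoly ℚ θ) = 0) {S : Type} [Fintype S] [DecidableEq S]
    (f : (S → B) → ℚ)
    (h0 : ∀ x y, cm θ *ᵥ x = r0 • x → cm θ *ᵥ y = r0 • y → der (wedge (cm q) x y) (cx f) = 0)
    (r : ℂ) (x y : B → ℂ) (hx : cm θ *ᵥ x = r • x) (hy : cm θ *ᵥ y = r • y) :
    der (wedge (cm q) x y) (cx f) = 0 := by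
  rw [der_wedge]
  set p := minpoly ℚ θ with hp
  have hmon : p.Monic := minpoly.monic (Matrix.isIntegral θ)
  have hpθ : Polynomial.aeval (cm θ) p = 0 := by
    have h1 : cm θ = ((Algebra.ofId ℚ ℂ).mapMatrix : Matrix B B ℚ →ₐ[ℚ] Matrix B B ℂ) θ := rfl
    rw [h1, Polynomial.aeval_algHom_apply, hp, minpoly.aeval, map_zero]
  -- the case where `r` is not a root
  by_cases hr : Polynomial.aeval r p = 0
  swap
  · have h1 : ∀ p' : Polynomial ℚ, Polynomial.aeval (cm θ) p' *ᵥ x =
        Polynomial.aeval r p' • x := by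
      intro p'
      rw [Polynomial.aeval_eq_sum_range, Polynomial.aeval_eq_sum_range, Matrix.sum_mulVec,
        Finset.sum_smul]
      refine Finset.sum_congr rfl fun n _ => ?_
      rw [Matrix.smul_mulVec, pow_mulVec hx, smul_assoc]
    have h2 := h1 p
    rw [hpθ, Matrix.zero_mulVec] at h2
    have h3 : x = 0 := by
      rcases smul_eq_zero.1 h2.symm with h | h
      · exact absurd h hr
      · exact h
    rw [h3]
    exact (U (cm q) y (cx f)).zero_mem
  -- the polynomials
  have key : ∀ (a b : B) (J : S → B) (t : ℂ), Polynomial.aeval t p = 0 →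
      dR (wR (cm q) (fun i => PP p t (cm θ) i a) fun i => PP p t (cm θ) i b) (cx f) J = 0 := by
    intro a b J
    set M : Matrix B B (Polynomial ℚ) := θ.map Polynomial.C with hM
    set G : Polynomial ℚ := dR (wR (q.map Polynomial.C) (fun i => PP p Polynomial.X M i a)
      fun i => PP p Polynomial.X M i b) (fun I => Polynomial.C (f I)) J with hG
    have hev : ∀ t : ℂ, Polynomial.aeval t G =
        dR (wR (cm q) (fun i => PP p t (cm θ) i a) fun i => PP p t (cm θ) i b) (cx f) J := by
      intro t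
      have h1 := dR_wR_map ((Polynomial.aeval t : Polynomial ℚ →ₐ[ℚ] ℂ) : Polynomial ℚ →+* ℂ)
        (q.map Polynomial.C) (fun i => PP p Polynomial.X M i a)
        (fun i => PP p Polynomial.X M i b) (fun I => Polynomial.C (f I)) J
      have h2 : ∀ N : Matrix B B ℚ, (N.map Polynomial.C).map (Polynomial.aeval t :
          Polynomial ℚ →ₐ[ℚ] ℂ) = cm N := by
        intro N
        ext i j
        simp [cm]
      have h3 := PP_map (Polynomial.aeval t : Polynomial ℚ →ₐ[ℚ] ℂ) p Polynomial.X M
      rw [hM, h2, Polynomial.aeval_X] at h3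
      have h4 : ∀ i j, (Polynomial.aeval t) (PP p Polynomial.X M i j) = PP p t (cm θ) i j := by
        intro i j
        rw [← h3]
        rfl
      have h5 : (fun I => ((Polynomial.aeval t : Polynomial ℚ →ₐ[ℚ] ℂ) : Polynomial ℚ →+* ℂ)
          (Polynomial.C (f I))) = cx f := by
        funext I
        simp [cx]
      rw [h5] at h1
      have h6 : (q.map Polynomial.C).map ((Polynomial.aeval t : Polynomial ℚ →ₐ[ℚ] ℂ) :
          Polynomial ℚ →+* ℂ) = cm q := h2 q
      rw [h6] at h1
      have h7 : ∀ c : B, (fun i => ((Polynomial.aeval t : Polynomial ℚ →ₐ[ℚ] ℂ) :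
          Polynomial ℚ →+* ℂ) (PP p Polynomial.X M i c)) = fun i => PP p t (cm θ) i c :=
        fun c => funext fun i => h4 i c
      rw [h7, h7] at h1
      exact h1
    have hcol : ∀ (t : ℂ), Polynomial.aeval t p = 0 → ∀ c : B,
        cm θ *ᵥ (fun i => PP p t (cm θ) i c) = t • fun i => PP p t (cm θ) i c := by
      intro t ht c
      have h1 := PP_mul p t (cm θ)
      rw [ht, hpθ, zero_smul, sub_zero, sub_mul, smul_mul_assoc, one_mul, sub_eq_zero] at h1
      funext i
      have h2 := congrFun (congrFun h1 i) c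
      exact h2
    have hG0 : Polynomial.aeval r0 G = 0 := by
      rw [hev]
      have h1 := h0 _ _ (hcol r0 hr0 a) (hcol r0 hr0 b)
      rw [der_wedge] at h1
      exact congrFun h1 J
    have hdvd : p ∣ G := by
      rw [minpoly.eq_of_irreducible_of_monic hirr hr0 hmon]
      exact minpoly.dvd ℚ r0 hG0
    intro t ht
    rw [← hev]
    obtain ⟨G', hG'⟩ := hdvd
    rw [hG', map_mul, ht, zero_mul]
  -- reduction to the columns
  have hsep : Polynomial.aeval r (Polynomial.derivative p) ≠ 0 :=
    hirr.separable.aeval_derivative_ne_zero hr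
  have hspan : ∀ z : B → ℂ, cm θ *ᵥ z = r • z →
      z ∈ Submodule.span ℂ (Set.range fun c : B => fun i => PP p r (cm θ) i c) := by
    intro z hz
    have h1 := PP_mulVec p hz
    have h2 : z = (Polynomial.aeval r (Polynomial.derivative p))⁻¹ • (PP p r (cm θ) *ᵥ z) := by
      rw [h1, smul_smul, inv_mul_cancel₀ hsep, one_smul]
    rw [h2]
    apply Submodule.smul_mem
    have h3 : PP p r (cm θ) *ᵥ z = ∑ c, z c • fun i => PP p r (cm θ) i c := by
      funext i
      simp only [Matrix.mulVec, dotProduct, Finset.sum_apply, Pi.smul_apply, smul_eq_mul]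
      exact Finset.sum_congr rfl fun c _ => mul_comm _ _
    rw [h3]
    exact Submodule.sum_mem _ fun c _ => Submodule.smul_mem _ _ (Submodule.subset_span ⟨c, rfl⟩)
  have hcols : ∀ a b : B,
      dR (wR (cm q) (fun i => PP p r (cm θ) i a) fun i => PP p r (cm θ) i b) (cx f) = 0 :=
    fun a b => funext fun J => key a b J r hr
  have h1 : ∀ b : B, x ∈ U (cm q) (fun i => PP p r (cm θ) i b) (cx f) := by
    intro b
    have : Submodule.span ℂ (Set.range fun c : B => fun i => PP p r (cm θ) i c) ≤
        U (cm q) (fun i => PP p r (cm θ) i b) (cx f) := by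
      rw [Submodule.span_le]
      rintro _ ⟨c, rfl⟩
      exact hcols c b
    exact this (hspan x hx)
  have h2 : y ∈ U (cm q) x (cx f) := by
    have : Submodule.span ℂ (Set.range fun c : B => fun i => PP p r (cm θ) i c) ≤
        U (cm q) x (cx f) := by
      rw [Submodule.span_le]
      rintro _ ⟨c, rfl⟩
      show dR (wR (cm q) _ x) (cx f) = 0
      rw [K14.symm, show dR (wR (cm q) x _) (cx f) = 0 from h1 c, neg_zero]
    exact this (hspan y hy)
  rw [K14.symm, show dR (wR (cm q) y x) (cx f) = 0 from h2, neg_zero]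

end

end Pool.Agent.N429.KS
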