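import Pool.Agent.N429.KS.Defs2
import Pool.Agent.N429.KS.K14

/-!
# P5: Galois conjugation for pairs of opposite eigenvalues (helper565, after Z8 of helper424)
-/

set_option linter.unusedSectionVars false

open Matrix Finset Function

namespace Pool.Agent.N429.KS

noncomputable section

open K14 in
/-- P5 Galois conjugation -/
theorem galois3 {B : Type} [Fintype B] [DecidableEq B] (θ : Matrix B B ℚ)
    (hirr : Irreducible (minpoly ℚ θ)) (r0 : ℂ)
    (hr0 : Polynomial.aeval r0 (minpoly ℚ θ) = 0)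
    (hr0' : Polynomial.aeval (-r0) (minpoly ℚ θ) = 0) {τ : Type} (P : B → B → τ → ℚ)
    (h0 : ∀ x y : B → ℂ, cm θ *ᵥ x = r0 • x → cm θ *ᵥ y = (-r0) • y →
      ∀ t, ∑ a, ∑ b, x a * y b * (P a b t : ℂ) = 0)
    (r : ℂ) (x y : B → ℂ) (hx : cm θ *ᵥ x = r • x) (hy : cm θ *ᵥ y = (-r) • y) (t : τ) :
    ∑ a, ∑ b, x a * y b * (P a b t : ℂ) = 0 := by
  set p := minpoly ℚ θ with hp
  have hmon : p.Monic := minpoly.monic (Matrix.isIntegral θ)
  have hpθ : Polynomial.aeval (cm θ) p = 0 := by
    have h1 : cm θ = ((Algebra.ofId ℚ ℂ).mapMatrix : Matrix B B ℚ →ₐ[ℚ] Matrix B B ℂ) θ := rfl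
    rw [h1, Polynomial.aeval_algHom_apply, hp, minpoly.aeval, map_zero]
  -- the cases where `r` or `-r` is not a root
  have hnr : ∀ (s : ℂ) (z : B → ℂ), cm θ *ᵥ z = s • z → Polynomial.aeval s p ≠ 0 → z = 0 := by
    intro s z hz hs
    have h1 : ∀ p' : Polynomial ℚ, Polynomial.aeval (cm θ) p' *ᵥ z =
        Polynomial.aeval s p' • z := by
      intro p'
      rw [Polynomial.aeval_eq_sum_range, Polynomial.aeval_eq_sum_range, Matrix.sum_mulVec,
        Finset.sum_smul]
      refine Finset.sum_congr rfl fun n _ => ?_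
      rw [Matrix.smul_mulVec, pow_mulVec hz, smul_assoc]
    have h2 := h1 p
    rw [hpθ, Matrix.zero_mulVec] at h2
    rcases smul_eq_zero.1 h2.symm with h | h
    · exact absurd h hs
    · exact h
  by_cases hr : Polynomial.aeval r p = 0
  swap
  · rw [hnr r x hx hr]
    simp
  by_cases hr' : Polynomial.aeval (-r) p = 0
  swap
  · rw [hnr (-r) y hy hr']
    simp
  -- the polynomials
  have key : ∀ (a b : B) (s : ℂ), Polynomial.aeval s p = 0 →
      ∑ i, ∑ j, PP p s (cm θ) i a * PP p (-s) (cm θ) j b * (P i j t : ℂ) = 0 := by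
    intro a b
    set M : Matrix B B (Polynomial ℚ) := θ.map Polynomial.C with hM
    set G : Polynomial ℚ := ∑ i, ∑ j, PP p Polynomial.X M i a * PP p (-Polynomial.X) M j b *
      Polynomial.C (P i j t) with hG
    have hev : ∀ s : ℂ, Polynomial.aeval s G =
        ∑ i, ∑ j, PP p s (cm θ) i a * PP p (-s) (cm θ) j b * (P i j t : ℂ) := by
      intro s
      have h2 : ∀ N : Matrix B B ℚ, (N.map Polynomial.C).map (Polynomial.aeval s :
          Polynomial ℚ →ₐ[ℚ] ℂ) = cm N := by
        intro N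
        ext i j
        simp [cm]
      have h3 := PP_map (Polynomial.aeval s : Polynomial ℚ →ₐ[ℚ] ℂ) p Polynomial.X M
      rw [hM, h2, Polynomial.aeval_X] at h3
      have h4 : ∀ i j, (Polynomial.aeval s) (PP p Polynomial.X M i j) = PP p s (cm θ) i j := by
        intro i j
        rw [← h3]
        rfl
      have h3' := PP_map (Polynomial.aeval s : Polynomial ℚ →ₐ[ℚ] ℂ) p (-Polynomial.X) M
      rw [hM, h2, map_neg, Polynomial.aeval_X] at h3'
      have h4' : ∀ i j, (Polynomial.aeval s) (PP p (-Polynomial.X) M i j) =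
          PP p (-s) (cm θ) i j := by
        intro i j
        rw [← h3']
        rfl
      rw [hG, map_sum]
      refine Finset.sum_congr rfl fun i _ => ?_
      rw [map_sum]
      refine Finset.sum_congr rfl fun j _ => ?_
      rw [map_mul, map_mul, h4, h4', Polynomial.aeval_C]
      simp
    have hcol : ∀ (s : ℂ), Polynomial.aeval s p = 0 → ∀ c : B,
        cm θ *ᵥ (fun i => PP p s (cm θ) i c) = s • fun i => PP p s (cm θ) i c := by
      intro s hs c
      have h1 := PP_mul p s (cm θ)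
      rw [hs, hpθ, zero_smul, sub_zero, sub_mul, smul_mul_assoc, one_mul, sub_eq_zero] at h1
      funext i
      have h2 := congrFun (congrFun h1 i) c
      exact h2
    have hG0 : Polynomial.aeval r0 G = 0 := by
      rw [hev]
      exact h0 _ _ (hcol r0 hr0 a) (hcol (-r0) hr0' b) t
    have hdvd : p ∣ G := by
      rw [minpoly.eq_of_irreducible_of_monic hirr hr0 hmon]
      exact minpoly.dvd ℚ r0 hG0
    intro s hs
    rw [← hev]
    obtain ⟨G', hG'⟩ := hdvd
    rw [hG', map_mul, hs, zero_mul]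
  -- reduction to the columns
  have hsum : ∀ s : ℂ, Polynomial.aeval s p = 0 → ∀ z : B → ℂ, cm θ *ᵥ z = s • z →
      ∃ w : B → ℂ, ∀ i, z i = ∑ c, w c * PP p s (cm θ) i c := by
    intro s hs z hz
    have hsep : Polynomial.aeval s (Polynomial.derivative p) ≠ 0 :=
      hirr.separable.aeval_derivative_ne_zero hs
    have h1 := PP_mulVec p hz
    refine ⟨(Polynomial.aeval s (Polynomial.derivative p))⁻¹ • z, fun i => ?_⟩
    have h2 : z = (Polynomial.aeval s (Polynomial.derivative p))⁻¹ • (PP p s (cm θ) *ᵥ z) := by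
      rw [h1, smul_smul, inv_mul_cancel₀ hsep, one_smul]
    conv_lhs => rw [h2]
    simp only [Matrix.mulVec, dotProduct, Pi.smul_apply, smul_eq_mul, Finset.mul_sum]
    refine Finset.sum_congr rfl fun c _ => by ring
  obtain ⟨w, hw⟩ := hsum r hr x hx
  obtain ⟨w', hw'⟩ := hsum (-r) hr' y hy
  have h1 : ∑ a, ∑ b, x a * y b * (P a b t : ℂ) =
      ∑ c, ∑ d, w c * w' d *
        ∑ a, ∑ b, PP p r (cm θ) a c * PP p (-r) (cm θ) b d * (P a b t : ℂ) := by
    have e1 : ∀ a b, x a * y b * (P a b t : ℂ) = ∑ c, ∑ d, w c * w' d *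
        (PP p r (cm θ) a c * PP p (-r) (cm θ) b d * (P a b t : ℂ)) := by
      intro a b
      rw [hw a, hw' b, Finset.sum_mul_sum, Finset.sum_mul]
      refine Finset.sum_congr rfl fun c _ => ?_
      rw [Finset.sum_mul]
      refine Finset.sum_congr rfl fun d _ => by ring
    simp only [e1, Finset.mul_sum]
    have e2 : ∀ f : B → B → B → B → ℂ, ∑ a, ∑ b, ∑ c, ∑ d, f a b c d =
        ∑ c, ∑ d, ∑ a, ∑ b, f a b c d := by
      intro f
      calc ∑ a, ∑ b, ∑ c, ∑ d, f a b c d = ∑ a, ∑ c, ∑ b, ∑ d, f a b c d :=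
            Finset.sum_congr rfl fun a _ => Finset.sum_comm
        _ = ∑ c, ∑ a, ∑ b, ∑ d, f a b c d := Finset.sum_comm
        _ = ∑ c, ∑ a, ∑ d, ∑ b, f a b c d :=
            Finset.sum_congr rfl fun c _ => Finset.sum_congr rfl fun a _ => Finset.sum_comm
        _ = ∑ c, ∑ d, ∑ a, ∑ b, f a b c d :=
            Finset.sum_congr rfl fun c _ => Finset.sum_comm
    exact e2 _
  rw [h1]
  refine Finset.sum_eq_zero fun c _ => Finset.sum_eq_zero fun d _ => ?_
  rw [key c d r hr, mul_zero]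

end

end Pool.Agent.N429.KS
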