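import Pool.Agent.N429.KS.Defs

/-!
# Adapted coordinates for a skew endomorphism with an irreducible minimal polynomial
-/

set_option linter.unusedSectionVars false

open Matrix Finset Function

namespace Pool.Agent.N429.KS

noncomputable section

namespace P6_

section abstract_part

variable {V : Type} [AddCommGroup V] [Module ℂ V] [FiniteDimensional ℂ V]

/-- systems of `m` hyperbolic pairs of eigenvectors -/
def Sy (b : V →ₗ[ℂ] V →ₗ[ℂ] ℂ) (A : V →ₗ[ℂ] V) (m : ℕ) : Prop :=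
  ∃ (w : Fin m → Bool → V) (κ : Fin m → ℂ), (∀ i, κ i ≠ 0) ∧
    (∀ i s, A (w i s) = (if s then κ i else -κ i) • w i s) ∧
    ∀ i s j s', b (w i s) (w j s') = if i = j ∧ s' = !s then 1 else 0

lemma Sy_zero (b : V →ₗ[ℂ] V →ₗ[ℂ] ℂ) (A : V →ₗ[ℂ] V) : Sy b A 0 :=
  ⟨fun i => i.elim0, fun i => i.elim0, fun i => i.elim0, fun i => i.elim0, fun i => i.elim0⟩

lemma sum_pick {m : ℕ} (f : Fin m × Bool → ℂ) (i : Fin m) (s : Bool) :
    (∑ p : Fin m × Bool, f p * (if i = p.1 ∧ p.2 = !s then 1 else 0)) = f (i, !s) := by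
  rw [Finset.sum_eq_single (i, !s)]
  · simp
  · rintro ⟨j, t⟩ - hne
    have : ¬ (i = j ∧ t = !s) := by
      rintro ⟨rfl, rfl⟩; exact hne rfl
    simp [this]
  · intro h; exact absurd (Finset.mem_univ _) h

lemma Sy_le {b : V →ₗ[ℂ] V →ₗ[ℂ] ℂ} {A : V →ₗ[ℂ] V} {m : ℕ} (h : Sy b A m) :
    2 * m ≤ Module.finrank ℂ V := by
  obtain ⟨w, κ, -, -, hb⟩ := h
  have hli : LinearIndependent ℂ (fun p : Fin m × Bool => w p.1 p.2) := by
    rw [Fintype.linearIndependent_iff]
    rintro g hg ⟨i, s⟩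
    have h1 := congrArg (b (w i (!s))) hg
    rw [map_sum, map_zero] at h1
    have h2 : (∑ p : Fin m × Bool, b (w i (!s)) (g p • w p.1 p.2)) = g (i, s) := by
      have h3 := sum_pick g i (!s)
      rw [Bool.not_not] at h3
      rw [← h3]
      refine Finset.sum_congr rfl fun p _ => ?_
      rw [map_smul, hb, smul_eq_mul, Bool.not_not]
    rw [← h2, h1]
  have h4 := hli.fintype_card_le_finrank
  simp only [Fintype.card_prod, Fintype.card_fin, Fintype.card_bool] at h4
  omega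

lemma poly_bl {b : V →ₗ[ℂ] V →ₗ[ℂ] ℂ} {A : V →ₗ[ℂ] V}
    (hA : ∀ x y, b (A x) y = - b x (A y)) {e : V} {c : ℂ} (he : A e = c • e)
    (p : Polynomial ℂ) : ∀ y : V,
    b e (Polynomial.aeval A p y) = p.eval (-c) * b e y := by
  have hstep : ∀ y, b e (A y) = -c * b e y := by
    intro y
    have := hA e y
    rw [he, map_smul, LinearMap.smul_apply, smul_eq_mul] at this
    rw [neg_mul, this, neg_neg]
  induction p using Polynomial.induction_on' with
  | add p q hp hq =>
    intro y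
    rw [map_add, LinearMap.add_apply, map_add, hp, hq, Polynomial.eval_add, add_mul]
  | monomial n a =>
    intro y
    rw [Polynomial.aeval_monomial, Polynomial.eval_monomial]
    have : ∀ n : ℕ, ∀ z : V, b e ((A ^ n) z) = (-c) ^ n * b e z := by
      intro n
      induction n with
      | zero => intro z; simp
      | succ n ih =>
        intro z
        rw [pow_succ, Module.End.mul_apply, ih, hstep, pow_succ, mul_assoc]
    rw [Module.End.mul_apply, Module.algebraMap_end_apply, map_smul, this, smul_eq_mul, mul_assoc]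

lemma Sy_step {b : V →ₗ[ℂ] V →ₗ[ℂ] ℂ} {A : V →ₗ[ℂ] V}
    (hs : ∀ x y, b x y = b y x) (hnd : ∀ x, (∀ y, b x y = 0) → x = 0)
    (hA : ∀ x y, b (A x) y = - b x (A y)) {μ : Polynomial ℂ} (hμ : Polynomial.aeval A μ = 0)
    (hsq : Squarefree μ) (hμ0 : μ.eval 0 ≠ 0) {m : ℕ} (h : Sy b A m)
    (hm : 2 * m < Module.finrank ℂ V) : Sy b A (m + 1) := by
  obtain ⟨w, κ, hκ, hw, hb⟩ := h
  -- the orthogonal complement
  let F : V →ₗ[ℂ] (Fin m × Bool → ℂ) := LinearMap.pi fun p => b (w p.1 p.2)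
  have hker : LinearMap.ker F ≠ ⊥ := by
    apply LinearMap.ker_ne_bot_of_finrank_lt
    rw [Module.finrank_fintype_fun_eq_card]
    simp only [Fintype.card_prod, Fintype.card_fin, Fintype.card_bool]
    omega
  have hmem : ∀ x, x ∈ LinearMap.ker F ↔ ∀ i s, b (w i s) x = 0 := by
    intro x
    rw [LinearMap.mem_ker]
    constructor
    · intro h i s
      exact congrFun h (i, s)
    · intro h
      funext p
      exact h p.1 p.2
  have hinv : ∀ x ∈ LinearMap.ker F, A x ∈ LinearMap.ker F := by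
    intro x hx
    rw [hmem] at hx ⊢
    intro i s
    have h1 := hA (w i s) x
    rw [hw, map_smul, LinearMap.smul_apply, hx, smul_zero] at h1
    exact (neg_eq_zero.mp h1.symm)
  haveI : Nontrivial (LinearMap.ker F) := Submodule.nontrivial_iff_ne_bot.mpr hker
  obtain ⟨c, hc⟩ := Module.End.exists_eigenvalue (A.restrict hinv)
  obtain ⟨v, hv⟩ := hc.exists_hasEigenvector
  have hve : A (v : V) = c • (v : V) := by
    have := congrArg Subtype.val hv.apply_eq_smul
    simpa using this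
  have hv0 : (v : V) ≠ 0 := by
    intro h0
    exact hv.2 (Subtype.ext h0)
  have hvW := (hmem v).mp v.2
  obtain ⟨e, he⟩ : ∃ e : V, e = (v : V) := ⟨_, rfl⟩
  rw [← he] at hve hv0 hvW
  clear he hv hc
  obtain ⟨y, hy⟩ : ∃ y, b e y ≠ 0 := by
    by_contra hcon
    push Not at hcon
    exact hv0 (hnd e hcon)
  have hroot : μ.eval (-c) = 0 := by
    have h1 := poly_bl hA hve μ y
    rw [hμ, LinearMap.zero_apply, map_zero] at h1
    rcases mul_eq_zero.mp h1.symm with h2 | h2
    · exact h2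
    · exact absurd h2 hy
  have hc0 : c ≠ 0 := by
    rintro rfl
    rw [neg_zero] at hroot
    exact hμ0 hroot
  obtain ⟨g, hg⟩ := Polynomial.dvd_iff_isRoot.mpr (show μ.IsRoot (-c) from hroot)
  have hg0 : g.eval (-c) ≠ 0 := by
    intro h0
    obtain ⟨g', hg'⟩ := Polynomial.dvd_iff_isRoot.mpr (show g.IsRoot (-c) from h0)
    have h1 : (Polynomial.X - Polynomial.C (-c)) * (Polynomial.X - Polynomial.C (-c)) ∣ μ :=
      ⟨g', by rw [hg, hg', mul_assoc]⟩
    exact Polynomial.not_isUnit_X_sub_C (-c) (hsq _ h1)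
  obtain ⟨f0, hf0⟩ : ∃ f0, f0 = Polynomial.aeval A g y := ⟨_, rfl⟩
  have hAf0 : A f0 = (-c) • f0 := by
    have h1 : Polynomial.aeval A μ y = 0 := by rw [hμ, LinearMap.zero_apply]
    rw [hg, map_mul, Module.End.mul_apply, ← hf0, map_sub, Polynomial.aeval_X,
      Polynomial.aeval_C, LinearMap.sub_apply, Module.algebraMap_end_apply, sub_eq_zero] at h1
    exact h1
  have hef0 : b e f0 ≠ 0 := by
    rw [hf0, poly_bl hA hve g y]
    exact mul_ne_zero hg0 hy
  obtain ⟨f1, hf1⟩ : ∃ f1, f1 = f0 - ∑ p : Fin m × Bool, (b (w p.1 (!p.2)) f0) • w p.1 p.2 :=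
    ⟨_, rfl⟩
  have hf1W : ∀ i s, b (w i s) f1 = 0 := by
    intro i s
    rw [hf1, map_sub, map_sum]
    have h1 : (∑ p : Fin m × Bool, b (w i s) ((b (w p.1 (!p.2)) f0) • w p.1 p.2)) =
        b (w i s) f0 := by
      have h2 := sum_pick (fun p => b (w p.1 (!p.2)) f0) i s
      simp only [Bool.not_not] at h2
      rw [← h2]
      refine Finset.sum_congr rfl fun p _ => ?_
      rw [map_smul, hb, smul_eq_mul]
    rw [h1, sub_self]
  have hAf1 : A f1 = (-c) • f1 := by
    rw [hf1, map_sub, map_sum, smul_sub, Finset.smul_sum, hAf0]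
    congr 1
    refine Finset.sum_congr rfl fun p _ => ?_
    rw [map_smul, hw, smul_smul, smul_smul]
    congr 1
    have h1 := hA (w p.1 (!p.2)) f0
    rw [hw, map_smul, LinearMap.smul_apply, hAf0, map_smul, smul_eq_mul, smul_eq_mul] at h1
    cases hp : p.2
    · simp only [hp, Bool.not_false, if_true, Bool.false_eq_true, if_false] at h1 ⊢
      linear_combination -h1
    · simp only [hp, Bool.not_true, if_true, Bool.false_eq_true, if_false] at h1 ⊢
      linear_combination -h1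
  have hef1 : b e f1 = b e f0 := by
    rw [hf1, map_sub, map_sum]
    have h1 : (∑ p : Fin m × Bool, b e ((b (w p.1 (!p.2)) f0) • w p.1 p.2)) = 0 := by
      refine Finset.sum_eq_zero fun p _ => ?_
      rw [map_smul, hs e, hvW, smul_zero]
    rw [h1, sub_zero]
  obtain ⟨f, hf⟩ : ∃ f, f = (b e f1)⁻¹ • f1 := ⟨_, rfl⟩
  have hef : b e f = 1 := by
    rw [hf, map_smul, smul_eq_mul]
    exact inv_mul_cancel₀ (by rw [hef1]; exact hef0)
  have hAf : A f = (-c) • f := by
    rw [hf, map_smul, hAf1, smul_comm]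
  have hfW : ∀ i s, b (w i s) f = 0 := by
    intro i s
    rw [hf, map_smul, hf1W, smul_zero]
  have hee : b e e = 0 := by
    have h1 := hA e e
    rw [hve, map_smul, LinearMap.smul_apply, map_smul, smul_eq_mul] at h1
    have h2 : c * b e e = 0 := by linear_combination h1 / 2
    exact (mul_eq_zero.mp h2).resolve_left hc0
  have hff : b f f = 0 := by
    have h1 := hA f f
    rw [hAf, map_smul, LinearMap.smul_apply, map_smul, smul_eq_mul] at h1
    have h2 : c * b f f = 0 := by linear_combination -h1 / 2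
    exact (mul_eq_zero.mp h2).resolve_left hc0
  refine ⟨Fin.cons (fun s => if s then e else f) w, Fin.cons c κ, ?_, ?_, ?_⟩
  · intro i
    refine Fin.cases ?_ (fun i => ?_) i
    · simpa using hc0
    · simpa using hκ i
  · intro i s
    refine Fin.cases ?_ (fun i => ?_) i
    · cases s
      · simpa using hAf
      · simpa using hve
    · simpa using hw i s
  · intro i s j s'
    refine Fin.cases ?_ (fun i => ?_) i
    · refine Fin.cases ?_ (fun j => ?_) j
      · cases s <;> cases s' <;> simp [hee, hff, hef, hs f e]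
      · have h0 : ¬ ((0 : Fin (m + 1)) = j.succ ∧ s' = !s) := by
          rintro ⟨h, -⟩
          exact (Fin.succ_ne_zero j) h.symm
        rw [if_neg h0]
        cases s
        · simp [hs f, hfW]
        · simp [hs e, hvW]
    · refine Fin.cases ?_ (fun j => ?_) j
      · have h0 : ¬ (i.succ = (0 : Fin (m + 1)) ∧ s' = !s) := by
          rintro ⟨h, -⟩
          exact (Fin.succ_ne_zero i) h
        rw [if_neg h0]
        cases s'
        · simp [hfW]
        · simp [hvW]
      · simp only [Fin.cons_succ, hb, Fin.succ_inj]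

lemma Sy_full {b : V →ₗ[ℂ] V →ₗ[ℂ] ℂ} {A : V →ₗ[ℂ] V}
    (hs : ∀ x y, b x y = b y x) (hnd : ∀ x, (∀ y, b x y = 0) → x = 0)
    (hA : ∀ x y, b (A x) y = - b x (A y)) {μ : Polynomial ℂ} (hμ : Polynomial.aeval A μ = 0)
    (hsq : Squarefree μ) (hμ0 : μ.eval 0 ≠ 0) :
    ∃ m, Sy b A m ∧ 2 * m = Module.finrank ℂ V := by
  by_contra hcon
  push Not at hcon
  have hall : ∀ m, Sy b A m := by
    intro m
    induction m with
    | zero => exact Sy_zero b A
    | succ m ih =>
      exact Sy_step hs hnd hA hμ hsq hμ0 ih (lt_of_le_of_ne (Sy_le ih) (hcon m ih))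
  have := Sy_le (hall (Module.finrank ℂ V + 1))
  omega

end abstract_part

variable {B : Type} [Fintype B] [DecidableEq B]

lemma coeff_ne (θ : Matrix B B ℚ) (hθ0 : θ ≠ 0) (hirr : Irreducible (minpoly ℚ θ)) :
    (minpoly ℚ θ).eval 0 ≠ 0 := by
  intro h0
  have hroot : (minpoly ℚ θ).IsRoot 0 := h0
  obtain ⟨u, hu⟩ := Polynomial.dvd_iff_isRoot.mpr hroot
  rw [Polynomial.C_0, sub_zero] at hu
  rcases hirr.isUnit_or_isUnit hu with h | h
  · exact Polynomial.not_isUnit_X h
  · have h1 : Polynomial.aeval θ (minpoly ℚ θ) = 0 := minpoly.aeval ℚ θ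
    rw [hu, map_mul, Polynomial.aeval_X] at h1
    have h2 : IsUnit (Polynomial.aeval θ u) := h.map _
    exact hθ0 ((h2.mul_left_eq_zero).mp h1)

end P6_

variable {B : Type} [Fintype B] [DecidableEq B]

open P6_ in
theorem adapted (q θ : Matrix B B ℚ) (hq : q.IsSymm) (hdet : q.det ≠ 0)
    (hθ : (q * θ)ᵀ = -(q * θ)) (hθ0 : θ ≠ 0) (hirr : Irreducible (minpoly ℚ θ)) :
    ∃ (U : Matrix B B ℂ) (κ : B → ℂ) (τ : B → B), (∀ a, τ (τ a) = a) ∧ (∀ a, κ (τ a) = -κ a) ∧
      (∀ a, κ a ≠ 0) ∧ Uᵀ * (Matrix.of fun a b => if b = τ a then (1 : ℂ) else 0) * U = cm q ∧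
      U * cm θ = diagonal κ * U := by
  obtain ⟨Q, hQ⟩ : ∃ Q, Q = cm q := ⟨_, rfl⟩
  obtain ⟨A, hAdef⟩ : ∃ A, A = cm θ := ⟨_, rfl⟩
  have hQs : Qᵀ = Q := by
    rw [hQ, cm, ← Matrix.transpose_map, hq]
  have hQA : (Q * A)ᵀ = -(Q * A) := by
    have h1 : Q * A = (q * θ).map (algebraMap ℚ ℂ) := by
      rw [hQ, hAdef, cm, cm, Matrix.map_mul]
    rw [h1, ← Matrix.transpose_map, hθ]
    ext i j
    exact map_neg (algebraMap ℚ ℂ) ((q * θ) i j)
  have hQd : Q.det ≠ 0 := by
    have h1 : Q.det = algebraMap ℚ ℂ q.det := by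
      rw [hQ, cm, RingHom.map_det]; rfl
    rw [h1]
    exact (map_ne_zero_iff _ (algebraMap ℚ ℂ).injective).mpr hdet
  rw [← hQ, ← hAdef]
  -- the bilinear form
  let b : (B → ℂ) →ₗ[ℂ] (B → ℂ) →ₗ[ℂ] ℂ := Matrix.toLinearMap₂' ℂ Q
  have hb : ∀ x y, b x y = x ⬝ᵥ (Q *ᵥ y) := fun x y => Matrix.toLinearMap₂'_apply' Q x y
  have hs : ∀ x y, b x y = b y x := by
    intro x y
    rw [hb, hb, Matrix.dotProduct_mulVec, ← Matrix.mulVec_transpose, hQs, dotProduct_comm]
  have hnd : ∀ x, (∀ y, b x y = 0) → x = 0 := by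
    intro x hx
    have h1 : x ᵥ* Q = 0 := by
      funext j
      have h2 := hx (Pi.single j 1)
      rw [hb, Matrix.dotProduct_mulVec] at h2
      simpa using h2
    have h3 : (x ᵥ* Q) ᵥ* Q⁻¹ = x := by
      rw [Matrix.vecMul_vecMul, Matrix.mul_nonsing_inv _ (Ne.isUnit hQd), Matrix.vecMul_one]
    rw [← h3, h1, Matrix.zero_vecMul]
  let L : (B → ℂ) →ₗ[ℂ] (B → ℂ) := Matrix.toLinAlgEquiv' A
  have hL : ∀ x, L x = A *ᵥ x := fun x => Matrix.toLinAlgEquiv'_apply A x
  have hsk : ∀ x y, b (L x) y = - b x (L y) := by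
    intro x y
    rw [hb, hb, hL, hL, Matrix.mulVec_mulVec, ← Matrix.vecMul_transpose,
      ← Matrix.dotProduct_mulVec, Matrix.mulVec_mulVec]
    have h1 : Aᵀ * Q = -(Q * A) := by
      rw [← hQA, Matrix.transpose_mul, hQs]
    rw [h1, Matrix.neg_mulVec, dotProduct_neg]
  obtain ⟨μ, hμdef⟩ : ∃ μ : Polynomial ℂ, μ = (minpoly ℚ θ).map (algebraMap ℚ ℂ) := ⟨_, rfl⟩
  have hμ : Polynomial.aeval L μ = 0 := by
    have h1 : Polynomial.aeval A μ = 0 := by
      have h2 : A = (Algebra.ofId ℚ ℂ).mapMatrix θ := hAdef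
      rw [hμdef, Polynomial.aeval_map_algebraMap, h2, Polynomial.aeval_algHom_apply,
        minpoly.aeval, map_zero]
    have h3 : Polynomial.aeval L μ = Matrix.toLinAlgEquiv' (Polynomial.aeval A μ) :=
      Polynomial.aeval_algHom_apply (Matrix.toLinAlgEquiv' (R := ℂ) (n := B)).toAlgHom A μ
    rw [h3, h1, map_zero]
  have hsq : Squarefree μ := by
    rw [hμdef]
    exact (hirr.separable.map).squarefree
  have hμ0 : μ.eval 0 ≠ 0 := by
    have h1 : μ.eval 0 = algebraMap ℚ ℂ ((minpoly ℚ θ).eval 0) := by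
      rw [hμdef, Polynomial.eval_zero_map]
    rw [h1]
    exact (map_ne_zero_iff _ (algebraMap ℚ ℂ).injective).mpr (coeff_ne θ hθ0 hirr)
  obtain ⟨m, ⟨w, κ, hκ, hw, hbw⟩, hm⟩ := Sy_full hs hnd hsk hμ hsq hμ0
  rw [Module.finrank_fintype_fun_eq_card] at hm
  have hcard : Fintype.card B = Fintype.card (Fin m × Bool) := by
    simp only [Fintype.card_prod, Fintype.card_fin, Fintype.card_bool]
    omega
  let e : B ≃ Fin m × Bool := Fintype.equivOfCardEq hcard
  let τ : B → B := fun a => e.symm ((e a).1, !(e a).2)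
  have heτ : ∀ a, e (τ a) = ((e a).1, !(e a).2) := fun a => e.apply_symm_apply _
  have hττ : ∀ a, τ (τ a) = a := by
    intro a
    apply e.injective
    rw [heτ, heτ, Bool.not_not]
  let k : B → ℂ := fun a => if (e a).2 then κ (e a).1 else -κ (e a).1
  let M : Matrix B B ℂ := Matrix.of fun x a => w (e a).1 (e a).2 x
  obtain ⟨J, hJ⟩ : ∃ J : Matrix B B ℂ, J = Matrix.of fun a b => if b = τ a then (1 : ℂ) else 0 :=
    ⟨_, rfl⟩
  have hJJ : J * J = 1 := by
    ext a c
    rw [Matrix.mul_apply, Finset.sum_eq_single (τ a)]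
    · rw [hJ, Matrix.of_apply, Matrix.of_apply, hττ, if_pos rfl, one_mul, Matrix.one_apply]
      by_cases hac : a = c
      · rw [if_pos hac.symm, if_pos hac]
      · rw [if_neg (Ne.symm hac), if_neg hac]
    · intro x _ hx
      rw [hJ, Matrix.of_apply, if_neg hx, zero_mul]
    · intro h; exact absurd (Finset.mem_univ _) h
  have hMQ : Mᵀ * Q * M = J := by
    ext a c
    have h1 : (Mᵀ * Q * M) a c = b (w (e a).1 (e a).2) (w (e c).1 (e c).2) := by
      rw [hb, Matrix.mul_assoc, Matrix.mul_apply]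
      simp only [dotProduct]
      refine Finset.sum_congr rfl fun x _ => ?_
      rw [Matrix.transpose_apply, Matrix.mul_apply]
      rfl
    rw [h1, hbw, hJ, Matrix.of_apply]
    by_cases hc : c = τ a
    · rw [if_pos hc, if_pos]
      rw [hc, heτ]
      exact ⟨rfl, rfl⟩
    · rw [if_neg hc, if_neg]
      rintro ⟨h2, h3⟩
      apply hc
      apply e.injective
      rw [heτ]
      exact Prod.ext h2.symm h3
  have hAM : A * M = M * diagonal k := by
    ext x a
    rw [Matrix.mul_diagonal, Matrix.mul_apply]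
    have h1 := congrFun (hw (e a).1 (e a).2) x
    rw [hL, Pi.smul_apply, smul_eq_mul, mul_comm] at h1
    exact h1
  have hUM : (J * Mᵀ * Q) * M = 1 := by
    rw [Matrix.mul_assoc, Matrix.mul_assoc, ← Matrix.mul_assoc Mᵀ, hMQ, hJJ]
  have hMU : M * (J * Mᵀ * Q) = 1 := mul_eq_one_comm.mp hUM
  obtain ⟨U, hU⟩ : ∃ U, U = J * Mᵀ * Q := ⟨_, rfl⟩
  rw [← hU] at hUM hMU
  refine ⟨U, k, τ, hττ, ?_, ?_, ?_, ?_⟩
  · intro a
    show (if (e (τ a)).2 then κ (e (τ a)).1 else -κ (e (τ a)).1) = -(if (e a).2 then κ (e a).1 else -κ (e a).1)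
    rw [heτ]
    cases h : (e a).2 <;> simp
  · intro a
    show (if (e a).2 then κ (e a).1 else -κ (e a).1) ≠ 0
    cases h : (e a).2
    · simpa using hκ _
    · simpa using hκ _
  · rw [← hJ, ← hMQ]
    have h1 : Uᵀ * (Mᵀ * Q * M) * U = (M * U)ᵀ * Q * (M * U) := by
      rw [Matrix.transpose_mul]
      simp only [Matrix.mul_assoc]
    rw [h1, hMU, Matrix.transpose_one, Matrix.one_mul, Matrix.mul_one]
  · calc U * A = U * A * (M * U) := by rw [hMU, Matrix.mul_one]
      _ = U * (A * M) * U := by simp only [Matrix.mul_assoc]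
      _ = (U * M) * diagonal k * U := by rw [hAM]; simp only [Matrix.mul_assoc]
      _ = diagonal k * U := by rw [hUM, Matrix.one_mul]

end

end Pool.Agent.N429.KS
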