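import Pool.Agent.N429.KS.Defs

/-!
# Descent from the complex to the rational numbers
-/

set_option linter.unusedSectionVars false

open Matrix Finset Function

namespace Pool.Agent.N429.KS

noncomputable section

/-- a rational function in the complex span of a rational space is in this space -/
theorem cx_mem_span {A : Type} (W : Submodule ℚ (A → ℚ)) (f : A → ℚ)
    (hf : cx f ∈ Submodule.span ℂ (cx '' (W : Set (A → ℚ)))) : f ∈ W := by
  -- a rational retraction of the inclusion of `ℚ` in `ℂ`
  have hinj : Function.Injective (Algebra.linearMap ℚ ℂ) := by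
    intro x y h
    exact (algebraMap ℚ ℂ).injective h
  obtain ⟨π, hπ⟩ := LinearMap.exists_leftInverse_of_injective (Algebra.linearMap ℚ ℂ)
    (LinearMap.ker_eq_bot.2 hinj)
  have hπ1 : ∀ r : ℚ, π ((r : ℚ) : ℂ) = r := by
    intro r
    have := LinearMap.congr_fun hπ r
    simpa using this
  have hπ2 : ∀ (z : ℂ) (r : ℚ), π (z * (r : ℂ)) = r * π z := by
    intro z r
    have : z * (r : ℂ) = r • z := by
      rw [Rat.smul_def, mul_comm]
    rw [this, map_smul, smul_eq_mul]
  have key : ∀ g ∈ Submodule.span ℂ (cx '' (W : Set (A → ℚ))), ∀ z : ℂ,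
      (fun a => π (z * g a)) ∈ W := by
    intro g hg
    induction hg using Submodule.span_induction with
    | mem g hg =>
      obtain ⟨w, hw, rfl⟩ := hg
      intro z
      have : (fun a => π (z * cx w a)) = (π z) • w := by
        funext a
        show π (z * (w a : ℂ)) = π z * w a
        rw [hπ2, mul_comm]
      rw [this]
      exact W.smul_mem _ hw
    | zero =>
      intro z
      have : (fun a : A => π (z * (0 : A → ℂ) a)) = 0 := by
        funext a
        simp
      rw [this]
      exact W.zero_mem
    | add x y _ _ hx hy =>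
      intro z
      have : (fun a : A => π (z * (x + y) a)) = (fun a => π (z * x a)) + fun a => π (z * y a) := by
        funext a
        simp [mul_add]
      rw [this]
      exact W.add_mem (hx z) (hy z)
    | smul c x _ hx =>
      intro z
      have : (fun a : A => π (z * (c • x) a)) = (fun a => π ((z * c) * x a)) := by
        funext a
        simp [mul_assoc]
      rw [this]
      exact hx _
  have h := key _ hf 1
  have : (fun a => π (1 * cx f a)) = f := by
    funext a
    rw [one_mul]
    exact hπ1 _
  rwa [this] at h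

/-- complex solutions of a rational linear system are complex combinations of rational solutions -/
theorem sol {A A' : Type} [Finite A] [Finite A'] {τ : Type*}
    (L : Matrix A A' ℚ →ₗ[ℚ] (τ → ℚ)) (Lc : Matrix A A' ℂ →ₗ[ℂ] (τ → ℂ))
    (hL : ∀ M t, Lc (cm M) t = (L M t : ℂ)) {Z : Matrix A A' ℂ} (hZ : Lc Z = 0) :
    Z ∈ Submodule.span ℂ (cm '' {M : Matrix A A' ℚ | L M = 0}) := by
  classical
  cases nonempty_fintype A
  cases nonempty_fintype A'
  let b := Module.Free.chooseBasis ℚ ℂ
  let s : Finset (Module.Free.ChooseBasisIndex ℚ ℂ) :=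
    Finset.univ.biUnion fun p : A × A' => (b.repr (Z p.1 p.2)).support
  let Y : Module.Free.ChooseBasisIndex ℚ ℂ → Matrix A A' ℚ := fun k =>
    Matrix.of fun a a' => b.repr (Z a a') k
  have hZ1 : Z = ∑ k ∈ s, b k • cm (Y k) := by
    ext a a'
    rw [Matrix.sum_apply]
    have h1 : Z a a' = ∑ k ∈ (b.repr (Z a a')).support, b.repr (Z a a') k • b k := by
      conv_lhs => rw [← b.linearCombination_repr (Z a a')]
      rfl
    rw [h1]
    have h2 : (b.repr (Z a a')).support ⊆ s := by
      intro k hk
      exact Finset.mem_biUnion.2 ⟨(a, a'), Finset.mem_univ _, hk⟩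
    rw [Finset.sum_subset h2]
    · refine Finset.sum_congr rfl fun k _ => ?_
      rw [Matrix.smul_apply, smul_eq_mul]
      show _ = b k * ((b.repr (Z a a') k : ℚ) : ℂ)
      rw [Rat.smul_def, mul_comm]
    · intro k _ hk
      rw [Finsupp.notMem_support_iff] at hk
      rw [hk, zero_smul]
  have hY : ∀ k ∈ s, L (Y k) = 0 := by
    intro k hk
    funext t
    have h1 : (∑ k ∈ s, L (Y k) t • b k) = 0 := by
      have h2 := congrFun hZ t
      rw [hZ1, map_sum, Finset.sum_apply] at h2
      rw [Pi.zero_apply] at h2
      rw [← h2]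
      refine Finset.sum_congr rfl fun k _ => ?_
      rw [map_smul, Pi.smul_apply, hL, smul_eq_mul, Rat.smul_def, mul_comm]
    exact linearIndependent_iff'.1 b.linearIndependent s _ h1 k hk
  rw [hZ1]
  exact Submodule.sum_mem _ fun k hk => Submodule.smul_mem _ _
    (Submodule.subset_span ⟨Y k, hY k hk, rfl⟩)

end

end Pool.Agent.N429.KS
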