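import Pool.Agent.N429.KS.Defs

/-!
# Change of coordinates for forms and systems of forms
-/

set_option autoImplicit false
set_option linter.unusedSectionVars false

open Matrix Finset Function

namespace Pool.Agent.N429.KS

noncomputable section

theorem chg_chg {K : Type} [Field K] {B : Type} [Fintype B] [DecidableEq B] {M : Type}
    [AddCommGroup M] [Module K M] (U W : Matrix B B K) {S : Type} [Fintype S] [DecidableEq S]
    (f : (S → B) → M) : chg U (chg W f) = chg (W * U) f := by
  funext J
  simp only [chg]
  simp only [Finset.smul_sum]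
  rw [Finset.sum_comm]
  refine Finset.sum_congr rfl fun J'' _ => ?_
  simp only [smul_smul, ← Finset.prod_mul_distrib]
  rw [← Finset.sum_smul]
  congr 1
  simp only [Matrix.mul_apply]
  rw [Finset.prod_univ_sum, Fintype.piFinset_univ]
  refine Finset.sum_congr rfl fun J' _ => ?_
  refine Finset.prod_congr rfl fun s _ => ?_
  ring

theorem chg_one {K : Type} [Field K] {B : Type} [Fintype B] [DecidableEq B] {M : Type}
    [AddCommGroup M] [Module K M] {S : Type} [Fintype S] [DecidableEq S]
    (f : (S → B) → M) : chg (1 : Matrix B B K) f = f := by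
  funext J
  simp only [chg]
  rw [Finset.sum_eq_single J]
  · simp
  · intro J' _ hJ
    have : ∃ s, J' s ≠ J s := by
      by_contra h
      push Not at h
      exact hJ (funext h)
    obtain ⟨s, hs⟩ := this
    have h0 : ∏ s, (1 : Matrix B B K) (J' s) (J s) = 0 :=
      Finset.prod_eq_zero (Finset.mem_univ s) (Matrix.one_apply_ne hs)
    rw [h0, zero_smul]
  · intro h
    exact absurd (Finset.mem_univ _) h

/-- the exchange of the value at `s` with a free value -/
def exch {B : Type} {S : Type} [DecidableEq S] (s : S) : (S → B) × B → (S → B) × B :=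
  fun p => (update p.1 s p.2, p.1 s)

theorem exch_inv {B : Type} {S : Type} [DecidableEq S] (s : S) :
    Involutive (exch (B := B) s) := by
  rintro ⟨J, b⟩
  simp [exch]

theorem sum_exch {B : Type} {S : Type} [Fintype S] [Fintype B] [DecidableEq S] {M : Type}
    [AddCommMonoid M] (s : S) (G : (S → B) → B → M) :
    ∑ J : S → B, ∑ b, G J b = ∑ J : S → B, ∑ b, G (update J s b) (J s) := by
  rw [← Fintype.sum_prod_type' G, ← Fintype.sum_prod_type' fun J b => G (update J s b) (J s)]
  exact (Equiv.sum_comp (exch_inv (B := B) s).toPerm fun p => G p.1 p.2).symm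

theorem chg_der {K : Type} [Field K] {B : Type} [Fintype B] [DecidableEq B]
    (U X X' : Matrix B B K) (h : U * X = X' * U) {S : Type} [Fintype S] [DecidableEq S]
    (f : (S → B) → K) : chg U (der X' f) = der X (chg U f) := by
  funext J
  simp only [chg, der, smul_eq_mul, Finset.mul_sum]
  rw [Finset.sum_comm]
  refine Finset.sum_congr rfl fun s _ => ?_
  rw [sum_exch s, Finset.sum_comm (s := univ (α := B))]
  refine Finset.sum_congr rfl fun J' _ => ?_
  have e1 : ∀ b, ∏ t, U (update J' s b t) (J t) =
      U b (J s) * ∏ t ∈ univ.erase s, U (J' t) (J t) := by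
    intro b
    rw [← Finset.mul_prod_erase univ _ (Finset.mem_univ s), update_self]
    congr 1
    refine Finset.prod_congr rfl fun t ht => ?_
    rw [update_of_ne (Finset.ne_of_mem_erase ht)]
  have e2 : ∀ b, ∏ t, U (J' t) (update J s b t) =
      U (J' s) b * ∏ t ∈ univ.erase s, U (J' t) (J t) := by
    intro b
    rw [← Finset.mul_prod_erase univ _ (Finset.mem_univ s), update_self]
    congr 1
    refine Finset.prod_congr rfl fun t ht => ?_
    rw [update_of_ne (Finset.ne_of_mem_erase ht)]
  simp only [e1, e2, update_self, update_idem, update_eq_self]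
  have h3 := congrFun (congrFun h (J' s)) (J s)
  simp only [Matrix.mul_apply] at h3
  calc ∑ b, (U b (J s) * ∏ t ∈ univ.erase s, U (J' t) (J t)) * (X' (J' s) b * f J')
      = (∑ b, X' (J' s) b * U b (J s)) * ((∏ t ∈ univ.erase s, U (J' t) (J t)) * f J') := by
        rw [Finset.sum_mul]
        refine Finset.sum_congr rfl fun b _ => ?_
        ring
    _ = (∑ b, U (J' s) b * X b (J s)) * ((∏ t ∈ univ.erase s, U (J' t) (J t)) * f J') := by
        rw [h3]
    _ = _ := by
        rw [Finset.sum_mul]
        refine Finset.sum_congr rfl fun b _ => ?_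
        ring

section closure

variable {K : Type} [Field K] {B : Type} [Fintype B] [DecidableEq B] (U : Matrix B B K)
  {M M₁ M₂ : Type} [AddCommGroup M] [Module K M] [AddCommGroup M₁] [Module K M₁]
  [AddCommGroup M₂] [Module K M₂]

theorem chg_add {S : Type} [Fintype S] [DecidableEq S] (f g : (S → B) → M) :
    chg U (f + g) = chg U f + chg U g := by
  funext J
  simp only [chg, Pi.add_apply, smul_add, Finset.sum_add_distrib]

theorem chg_zero {S : Type} [Fintype S] [DecidableEq S] :
    chg U (0 : (S → B) → M) = 0 := by
  funext J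
  simp [chg]

theorem chg_smul {S : Type} [Fintype S] [DecidableEq S] (c : K) (f : (S → B) → M) :
    chg U (c • f) = c • chg U f := by
  funext J
  simp only [chg, Pi.smul_apply, Finset.smul_sum]
  refine Finset.sum_congr rfl fun J' _ => ?_
  rw [smul_comm]

theorem chg_map {S : Type} [Fintype S] [DecidableEq S] (L : M →ₗ[K] M₁) (f : (S → B) → M) :
    chg U (fun J => L (f J)) = fun J => L (chg U f J) := by
  funext J
  simp only [chg, map_sum, map_smul]

theorem chg_re {S T : Type} [Fintype S] [DecidableEq S] [Fintype T] [DecidableEq T] (e : S ≃ T)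
    (f : (S → B) → M) :
    chg U (fun J : T → B => f (J ∘ e)) = fun J : T → B => chg U f (J ∘ e) := by
  funext J
  simp only [chg]
  rw [← Equiv.sum_comp (Equiv.arrowCongr e (Equiv.refl B))]
  refine Finset.sum_congr rfl fun J' _ => ?_
  have h1 : (Equiv.arrowCongr e (Equiv.refl B)) J' ∘ e = J' := by
    funext s
    simp [Equiv.arrowCongr]
  rw [h1]
  congr 1
  rw [← Equiv.prod_comp e]
  refine Finset.prod_congr rfl fun s _ => ?_
  simp [Equiv.arrowCongr]

theorem chg_mul {S T : Type} [Fintype S] [DecidableEq S] [Fintype T] [DecidableEq T]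
    [DecidableEq (S ⊕ T)]
    (β : M →ₗ[K] M₁ →ₗ[K] M₂) (f : (S → B) → M) (g : (T → B) → M₁) :
    chg U (fun J : S ⊕ T → B => β (f (J ∘ Sum.inl)) (g (J ∘ Sum.inr))) =
      fun J : S ⊕ T → B => β (chg U f (J ∘ Sum.inl)) (chg U g (J ∘ Sum.inr)) := by
  funext J
  simp only [chg]
  rw [← Equiv.sum_comp (Equiv.sumArrowEquivProdArrow S T B).symm, Fintype.sum_prod_type]
  simp only [map_sum, LinearMap.sum_apply, map_smul, LinearMap.smul_apply, Fintype.prod_sum_type]
  rw [Finset.sum_comm]
  refine Finset.sum_congr rfl fun J2 _ => ?_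
  rw [Finset.smul_sum]
  refine Finset.sum_congr rfl fun J1 _ => ?_
  rw [smul_smul, mul_comm]
  rfl

end closure

theorem exists_chg {K : Type} [Field K] {B C : Type} [Fintype B] [DecidableEq B] [Fintype C]
    (𝒜 : Calc K B C) (U : Matrix B B K) : ∃ 𝒜' : Calc K B C,
    (∀ (S : Type) [Fintype S] [DecidableEq S] (f : (S → B) → K),
      f ∈ 𝒜'.Alg S ↔ chg U f ∈ 𝒜.Alg S) ∧
    (∀ (S : Type) [Fintype S] [DecidableEq S] (f : (S → B) → Matrix C C K),
      f ∈ 𝒜'.Cor S ↔ chg U f ∈ 𝒜.Cor S) := by
  refine ⟨{
    Alg := fun S =>
      { carrier := {f | ∀ (_ : Fintype S) (_ : DecidableEq S), chg U f ∈ 𝒜.Alg S}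
        add_mem' := by
          intro f g hf hg i1 i2
          rw [chg_add]
          exact Submodule.add_mem _ (hf i1 i2) (hg i1 i2)
        zero_mem' := by
          intro i1 i2
          rw [chg_zero]
          exact Submodule.zero_mem _
        smul_mem' := by
          intro c f hf i1 i2
          rw [chg_smul]
          exact Submodule.smul_mem _ _ (hf i1 i2) }
    one := ?_
    re := ?_
    mul := ?_
    Cor := fun S =>
      { carrier := {f | ∀ (_ : Fintype S) (_ : DecidableEq S), chg U f ∈ 𝒜.Cor S}
        add_mem' := by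
          intro f g hf hg i1 i2
          rw [chg_add]
          exact Submodule.add_mem _ (hf i1 i2) (hg i1 i2)
        zero_mem' := by
          intro i1 i2
          rw [chg_zero]
          exact Submodule.zero_mem _
        smul_mem' := by
          intro c f hf i1 i2
          rw [chg_smul]
          exact Submodule.smul_mem _ _ (hf i1 i2) }
    cre := ?_
    cmul := ?_
    ctr := ?_ }, ?_, ?_⟩
  · intro i1 i2
    have : chg U (fun _ : Empty → B => (1 : K)) = fun _ => 1 := by
      funext J
      simp only [chg]
      rw [Fintype.sum_unique]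
      simp
    rw [this]
    exact 𝒜.one
  · intro S T _ _ e f hf i1 i2
    let _ : Fintype S := Fintype.ofFinite S
    let _ : DecidableEq S := Classical.decEq S
    rw [chg_re]
    exact 𝒜.re e (hf _ _)
  · intro S T _ _ f g hf hg i1 i2
    let _ : Fintype S := Fintype.ofFinite S
    let _ : DecidableEq S := Classical.decEq S
    let _ : Fintype T := Fintype.ofFinite T
    let _ : DecidableEq T := Classical.decEq T
    have h1 : i1 = instFintypeSum S T := Subsingleton.elim _ _
    subst h1
    have := chg_mul U (LinearMap.mul K K) f g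
    simp only [LinearMap.mul_apply'] at this
    rw [this]
    exact 𝒜.mul (hf _ _) (hg _ _)
  · intro S T _ _ e f hf i1 i2
    let _ : Fintype S := Fintype.ofFinite S
    let _ : DecidableEq S := Classical.decEq S
    rw [chg_re]
    exact 𝒜.cre e (hf _ _)
  · intro S T _ _ f g hf hg i1 i2
    let _ : Fintype S := Fintype.ofFinite S
    let _ : DecidableEq S := Classical.decEq S
    let _ : Fintype T := Fintype.ofFinite T
    let _ : DecidableEq T := Classical.decEq T
    have h1 : i1 = instFintypeSum S T := Subsingleton.elim _ _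
    subst h1
    have := chg_mul U (LinearMap.mk₂ K (fun a b : Matrix C C K => a * b)
      (fun a b c => Matrix.add_mul a b c) (fun c a b => Matrix.smul_mul c a b)
      (fun a b c => Matrix.mul_add a b c) (fun c a b => Matrix.mul_smul a c b)) f g
    simp only [LinearMap.mk₂_apply] at this
    rw [this]
    exact 𝒜.cmul (hf _ _) (hg _ _)
  · intro S _ f hf i1 i2
    have := chg_map U (Matrix.traceLinearMap C K K) f
    simp only [Matrix.traceLinearMap_apply] at this
    rw [this]
    exact 𝒜.ctr (hf _ _)
  · intro S i1 i2 f
    constructor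
    · intro h
      exact h _ _
    · intro h j1 j2
      have h1 : j1 = i1 := Subsingleton.elim _ _
      have h2 : j2 = i2 := Subsingleton.elim _ _
      subst h1 h2
      exact h
  · intro S i1 i2 f
    constructor
    · intro h
      exact h _ _
    · intro h j1 j2
      have h1 : j1 = i1 := Subsingleton.elim _ _
      have h2 : j2 = i2 := Subsingleton.elim _ _
      subst h1 h2
      exact h

end

end Pool.Agent.N429.KS
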