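import Pool.Agent.N429.KS.Defs
import Pool.Agent.N429.KS.Desc

/-!
# K8: products of the Clifford generators of a block are complex combinations of Hodge endomorphisms
(helper455)
-/

set_option linter.unusedSectionVars false

open Matrix Finset Function

namespace Pool.Agent.N429.KS

noncomputable section

namespace K8

section basics

variable {B C : Type} [Fintype B] [DecidableEq B] [Fintype C] [DecidableEq C]

theorem cm_mul {A A' A'' : Type} [Fintype A'] (M : Matrix A A' ℚ) (N : Matrix A' A'' ℚ) :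
    cm (M * N) = cm M * cm N := by
  unfold cm
  exact Matrix.map_mul

theorem cm_add {A A' : Type} (M N : Matrix A A' ℚ) : cm (M + N) = cm M + cm N := by
  ext i j
  simp [cm]

theorem cm_sub {A A' : Type} (M N : Matrix A A' ℚ) : cm (M - N) = cm M - cm N := by
  ext i j
  simp [cm]

theorem cm_tr {A A' : Type} (M : Matrix A A' ℚ) : cm Mᵀ = (cm M)ᵀ := by
  ext i j
  simp [cm]

theorem cm_smul {A A' : Type} (r : ℚ) (M : Matrix A A' ℚ) : cm (r • M) = (r : ℂ) • cm M := by
  ext i j
  simp [cm]

theorem cm_sum {A A' ι : Type} (s : Finset ι) (F : ι → Matrix A A' ℚ) :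
    cm (∑ i ∈ s, F i) = ∑ i ∈ s, cm (F i) := by
  ext i j
  simp [cm, Matrix.sum_apply]

theorem cm_one : cm (1 : Matrix B B ℚ) = 1 := by
  unfold cm
  exact Matrix.map_one _ (by simp) (by simp)

theorem cm_apply {A A' : Type} (M : Matrix A A' ℚ) (i : A) (j : A') : cm M i j = (M i j : ℂ) := by
  simp [cm]

/-- the quadratic elements -/
def lft {K : Type} [Field K] (Y : Matrix B B K) (F : B → Matrix C C K) : Matrix C C K :=
  ∑ k, ∑ j, Y k j • (F k * F j)

theorem cm_lft (Y : Matrix B B ℚ) (F : B → Matrix C C ℚ) :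
    cm (lft Y F) = lft (cm Y) (fun b => cm (F b)) := by
  unfold lft
  rw [cm_sum]
  refine Finset.sum_congr rfl fun k _ => ?_
  rw [cm_sum]
  refine Finset.sum_congr rfl fun j _ => ?_
  rw [cm_smul, cm_mul, cm_apply]

theorem lft_add {K : Type} [Field K] (Y Z : Matrix B B K) (F : B → Matrix C C K) :
    lft (Y + Z) F = lft Y F + lft Z F := by
  unfold lft
  simp only [Matrix.add_apply, add_smul, Finset.sum_add_distrib]

theorem lft_zero {K : Type} [Field K] (F : B → Matrix C C K) : lft 0 F = 0 := by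
  unfold lft
  simp

theorem lft_smul {K : Type} [Field K] (c : K) (Y : Matrix B B K) (F : B → Matrix C C K) :
    lft (c • Y) F = c • lft Y F := by
  unfold lft
  simp only [Matrix.smul_apply, smul_eq_mul, mul_smul, Finset.smul_sum]

theorem lft_sub {K : Type} [Field K] (Y Z : Matrix B B K) (F : B → Matrix C C K) :
    lft (Y - Z) F = lft Y F - lft Z F := by
  unfold lft
  simp only [Matrix.sub_apply, sub_smul, Finset.sum_sub_distrib]

theorem lft_vec (x y : B → ℂ) (F : B → Matrix C C ℂ) :
    lft (vecMulVec x y) F = (∑ k, x k • F k) * (∑ j, y j • F j) := by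
  unfold lft
  rw [Finset.sum_mul]
  refine Finset.sum_congr rfl fun k _ => ?_
  rw [Finset.mul_sum]
  refine Finset.sum_congr rfl fun j _ => ?_
  rw [Matrix.vecMulVec_apply, smul_mul_smul_comm]

/-- change of the generators -/
theorem lft_chg (Y U : Matrix B B ℂ) (F G : B → Matrix C C ℂ) (h : ∀ b, F b = ∑ a, U a b • G a) :
    lft Y F = lft (U * Y * Uᵀ) G := by
  have h1 : ∀ a b, (U * Y * Uᵀ) a b = ∑ k, ∑ j, U a k * Y k j * U b j := by
    intro a b
    rw [Matrix.mul_apply, Finset.sum_comm]
    refine Finset.sum_congr rfl fun j _ => ?_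
    rw [Matrix.mul_apply, Finset.sum_mul]
    rfl
  unfold lft
  simp only [h1]
  calc ∑ k, ∑ j, Y k j • (F k * F j)
      = ∑ k, ∑ j, ∑ a, ∑ b, (U a k * Y k j * U b j) • (G a * G b) := by
        refine Finset.sum_congr rfl fun k _ => Finset.sum_congr rfl fun j _ => ?_
        rw [h k, h j, Finset.sum_mul, Finset.smul_sum]
        refine Finset.sum_congr rfl fun a _ => ?_
        rw [Finset.mul_sum, Finset.smul_sum]
        refine Finset.sum_congr rfl fun b _ => ?_
        rw [smul_mul_smul_comm, smul_smul]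
        congr 1
        ring
    _ = ∑ k, ∑ a, ∑ j, ∑ b, (U a k * Y k j * U b j) • (G a * G b) :=
        Finset.sum_congr rfl fun k _ => Finset.sum_comm
    _ = ∑ a, ∑ k, ∑ j, ∑ b, (U a k * Y k j * U b j) • (G a * G b) := Finset.sum_comm
    _ = ∑ a, ∑ k, ∑ b, ∑ j, (U a k * Y k j * U b j) • (G a * G b) :=
        Finset.sum_congr rfl fun a _ => Finset.sum_congr rfl fun k _ => Finset.sum_comm
    _ = ∑ a, ∑ b, ∑ k, ∑ j, (U a k * Y k j * U b j) • (G a * G b) :=
        Finset.sum_congr rfl fun a _ => Finset.sum_comm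
    _ = ∑ a, ∑ b, (∑ k, ∑ j, U a k * Y k j * U b j) • (G a * G b) := by
        refine Finset.sum_congr rfl fun a _ => Finset.sum_congr rfl fun b _ => ?_
        rw [Finset.sum_smul]
        refine Finset.sum_congr rfl fun k _ => ?_
        rw [Finset.sum_smul]

/-- the sign of the exchange with a product of generators -/
theorem exch (Ψ : B → Matrix C C ℂ) (hC : Cliff (1 : Matrix B B ℂ) Ψ) (a : B) (l : List B)
    (hl : l.Nodup) : Ψ a * (l.map Ψ).prod =
      (if a ∈ l then (-1 : ℂ) ^ (l.length + 1) else (-1) ^ l.length) • ((l.map Ψ).prod * Ψ a) := by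
  induction l with
  | nil => simp
  | cons b t ih =>
    rw [List.nodup_cons] at hl
    have ih' := ih hl.2
    rw [List.map_cons, List.prod_cons, List.length_cons]
    by_cases hab : a = b
    · subst hab
      rw [if_neg hl.1] at ih'
      rw [if_pos (List.mem_cons_self)]
      rw [mul_assoc (Ψ a) _ (Ψ a)]
      conv_lhs => rw [ih', mul_smul_comm]
      congr 1
      rw [pow_succ, pow_succ]
      ring
    · have h1 : Ψ a * Ψ b = -(Ψ b * Ψ a) := by
        have h2 := hC a b
        rw [Matrix.one_apply_ne hab, mul_zero, zero_smul] at h2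
        exact eq_neg_of_add_eq_zero_left h2
      rw [← mul_assoc, h1, neg_mul, mul_assoc, ih', mul_smul_comm, ← neg_smul, mul_assoc]
      congr 1
      by_cases hat : a ∈ t
      · rw [if_pos hat, if_pos (List.mem_cons_of_mem _ hat), pow_succ (-1 : ℂ) (t.length + 1)]
        ring
      · have : a ∉ b :: t := by
          rw [List.mem_cons]
          tauto
        rw [if_neg hat, if_neg this, pow_succ]
        ring

theorem comm2 (Ψ : B → Matrix C C ℂ) (hC : Cliff (1 : Matrix B B ℂ) Ψ) (a b : B) (l : List B)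
    (hl : l.Nodup) (hab : a ∈ l ↔ b ∈ l) :
    (l.map Ψ).prod * (Ψ a * Ψ b) = (Ψ a * Ψ b) * (l.map Ψ).prod := by
  have ha := exch Ψ hC a l hl
  have hb := exch Ψ hC b l hl
  rw [mul_assoc (Ψ a), hb, mul_smul_comm, ← mul_assoc (Ψ a), ha, smul_mul_assoc, smul_smul]
  have h1 : ((if b ∈ l then (-1 : ℂ) ^ (l.length + 1) else (-1) ^ l.length) *
      (if a ∈ l then (-1 : ℂ) ^ (l.length + 1) else (-1) ^ l.length)) = 1 := by
    by_cases h : a ∈ l
    · rw [if_pos h, if_pos (hab.1 h), ← mul_pow]
      norm_num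
    · rw [if_neg h, if_neg (fun h' => h (hab.2 h')), ← mul_pow]
      norm_num
  rw [h1, one_smul, mul_assoc]

end basics

end K8

section omega

open K8

variable {B C : Type} [Fintype B] [DecidableEq B] [Fintype C] [DecidableEq C]

theorem omega_mem (X : K3Type B) (Φ : B → Matrix C C ℚ) (hΦ : Cliff X.q Φ) (θ : Matrix B B ℚ)
    (hθs : (X.q * θ).IsSymm) (hθh : cm θ * X.h = X.h * cm θ) (U : Matrix B B ℂ) (κ : B → ℂ)
    (hU : Uᵀ * U = cm X.q) (hκ : U * cm θ = diagonal κ * U) (Ψ : B → Matrix C C ℂ)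
    (hΨ : ∀ b, cm (Φ b) = ∑ a, U a b • Ψ a) (i : ℂ) (l : List B) (hl : l.Nodup)
    (hli : ∀ b, b ∈ l ↔ κ b = i) :
    (l.map Ψ).prod ∈ Submodule.span ℂ (cm '' {M : Matrix C C ℚ | X.IsHodgeEnd Φ M}) := by
  -- inverses
  have hqd : IsUnit X.q.det := isUnit_iff_ne_zero.2 X.nondeg
  have hqq : X.q * X.q⁻¹ = 1 := Matrix.mul_nonsing_inv _ hqd
  obtain ⟨Q, hQ⟩ : ∃ Q : Matrix B B ℂ, Q = cm X.q := ⟨_, rfl⟩
  obtain ⟨P, hP⟩ : ∃ P : Matrix B B ℂ, P = cm X.q⁻¹ := ⟨_, rfl⟩
  have hQP : Q * P = 1 := by rw [hQ, hP, ← cm_mul, hqq, cm_one]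
  have hPQ : P * Q = 1 := mul_eq_one_comm.1 hQP
  have hQs : Qᵀ = Q := by
    rw [hQ, ← cm_tr, X.sym.eq]
  have hVU : (P * Uᵀ) * U = 1 := by rw [mul_assoc, hU, ← hQ, hPQ]
  have hUV : U * (P * Uᵀ) = 1 := mul_eq_one_comm.1 hVU
  obtain ⟨V, hV⟩ : ∃ V : Matrix B B ℂ, V = P * Uᵀ := ⟨_, rfl⟩
  rw [← hV] at hVU hUV
  -- Clifford relations
  have hΨV : ∀ a, Ψ a = ∑ b, V b a • cm (Φ b) := by
    intro a
    have h1 : ∑ b, V b a • cm (Φ b) = ∑ b, ∑ c, (U c b * V b a) • Ψ c := by
      refine Finset.sum_congr rfl fun b _ => ?_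
      rw [hΨ b, Finset.smul_sum]
      refine Finset.sum_congr rfl fun c _ => ?_
      rw [smul_smul, mul_comm]
    rw [h1, Finset.sum_comm]
    have h2 : ∀ c, ∑ b, (U c b * V b a) • Ψ c = (if c = a then (1 : ℂ) else 0) • Ψ c := by
      intro c
      rw [← Finset.sum_smul, ← Matrix.mul_apply, hUV, Matrix.one_apply]
    simp only [h2, ite_smul, one_smul, zero_smul]
    simp
  have hCl : Cliff (1 : Matrix B B ℂ) Ψ := by
    intro a b
    have h1 : ∀ c d, cm (Φ c) * cm (Φ d) + cm (Φ d) * cm (Φ c) = (2 * Q c d) • (1 : Matrix C C ℂ) := by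
      intro c d
      rw [← cm_mul, ← cm_mul, ← cm_add, hΦ c d, cm_smul, cm_one, hQ, cm_apply]
      push_cast
      rfl
    have h2 : Ψ a * Ψ b + Ψ b * Ψ a =
        ∑ c, ∑ d, (V c a * V d b) • (cm (Φ c) * cm (Φ d) + cm (Φ d) * cm (Φ c)) := by
      rw [hΨV a, hΨV b]
      have e1 : (∑ c, V c a • cm (Φ c)) * (∑ d, V d b • cm (Φ d)) =
          ∑ c, ∑ d, (V c a * V d b) • (cm (Φ c) * cm (Φ d)) := by
        rw [Finset.sum_mul]
        refine Finset.sum_congr rfl fun c _ => ?_
        rw [Finset.mul_sum]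
        refine Finset.sum_congr rfl fun d _ => ?_
        rw [smul_mul_smul_comm]
      have e2 : (∑ d, V d b • cm (Φ d)) * (∑ c, V c a • cm (Φ c)) =
          ∑ c, ∑ d, (V c a * V d b) • (cm (Φ d) * cm (Φ c)) := by
        rw [Finset.mul_sum]
        refine Finset.sum_congr rfl fun c _ => ?_
        rw [Finset.sum_mul]
        refine Finset.sum_congr rfl fun d _ => ?_
        rw [smul_mul_smul_comm, mul_comm (V d b)]
      rw [e1, e2, ← Finset.sum_add_distrib]
      refine Finset.sum_congr rfl fun c _ => ?_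
      rw [← Finset.sum_add_distrib]
      refine Finset.sum_congr rfl fun d _ => ?_
      rw [smul_add]
    rw [h2]
    simp only [h1, smul_smul]
    simp only [← Finset.sum_smul]
    congr 1
    have h3 : (Vᵀ * Q * V) a b = ∑ c, ∑ d, V c a * Q c d * V d b := by
      rw [Matrix.mul_apply, Finset.sum_comm]
      refine Finset.sum_congr rfl fun j _ => ?_
      rw [Matrix.mul_apply, Finset.sum_mul]
      rfl
    have h4 : Vᵀ * Q * V = 1 := by
      rw [hQ, ← hU, ← mul_assoc, mul_assoc, hUV, mul_one, ← Matrix.transpose_mul, hUV,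
        Matrix.transpose_one]
    rw [h4] at h3
    rw [h3, Finset.mul_sum]
    refine Finset.sum_congr rfl fun c _ => ?_
    rw [Finset.mul_sum]
    refine Finset.sum_congr rfl fun d _ => ?_
    ring
  -- the rational Lie algebra
  obtain ⟨g, hg⟩ : ∃ g : Set (Matrix B B ℚ),
    g = {Y | X.q * Y + Yᵀ * X.q = 0 ∧ Y * θ = θ * Y} := ⟨_, rfl⟩
  -- `h` is in its complex span
  have hhP : lft (X.h * P) (fun b => cm (Φ b)) = (4 : ℂ) • X.ht Φ := by
    have hvP : ∀ x y : B → ℂ, vecMulVec x (Q *ᵥ y) * P = vecMulVec x y := by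
      intro x y
      rw [Matrix.vecMulVec_mul, ← Matrix.vecMul_transpose, hQs, Matrix.vecMul_vecMul, hQP,
        Matrix.vecMul_one]
    unfold K3Type.h K3Type.ht wedge
    rw [← hQ, smul_mul_assoc, Matrix.sub_mul, hvP, hvP, lft_smul, lft_sub, lft_vec, lft_vec, smul_smul]
    congr 1
    rw [mul_inv, ← mul_assoc, mul_inv_cancel₀ (by norm_num : (4 : ℂ) ≠ 0), one_mul]
  have hskew : Q * X.h + X.hᵀ * Q = 0 := by
    have h1 : ∀ x y : B → ℂ, Q * vecMulVec x (Q *ᵥ y) = vecMulVec (Q *ᵥ x) (Q *ᵥ y) := by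
      intro x y
      rw [Matrix.mul_vecMulVec]
    have h2 : ∀ x y : B → ℂ, (vecMulVec x (Q *ᵥ y))ᵀ * Q = vecMulVec (Q *ᵥ y) (Q *ᵥ x) := by
      intro x y
      rw [Matrix.transpose_vecMulVec, Matrix.vecMulVec_mul, ← Matrix.mulVec_transpose, hQs]
    unfold K3Type.h wedge
    rw [← hQ, mul_smul_comm, Matrix.transpose_smul, smul_mul_assoc, Matrix.transpose_sub,
      Matrix.mul_sub, Matrix.sub_mul, h1, h1, h2, h2, ← smul_add]
    rw [show ∀ a b : Matrix B B ℂ, a - b + (b - a) = 0 by intro a b; abel, smul_zero]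
  have hmem : X.h ∈ Submodule.span ℂ (cm '' g) := by
    have h1 := sol (A := B) (A' := B) (τ := (B × B) ⊕ (B × B))
      { toFun := fun M => Sum.elim (fun p => (X.q * M + Mᵀ * X.q) p.1 p.2)
          (fun p => (M * θ - θ * M) p.1 p.2)
        map_add' := by
          intro M N
          funext t
          rcases t with p | p
          · simp only [Sum.elim_inl, Pi.add_apply, Matrix.transpose_add, Matrix.mul_add,
              Matrix.add_mul, Matrix.add_apply]
            ring
          · simp only [Sum.elim_inr, Pi.add_apply, Matrix.mul_add, Matrix.add_mul, Matrix.add_apply,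
              Matrix.sub_apply]
            ring
        map_smul' := by
          intro r M
          funext t
          rcases t with p | p
          · simp only [Sum.elim_inl, Pi.smul_apply, Matrix.transpose_smul, Matrix.mul_smul,
              Matrix.smul_mul, Matrix.add_apply, Matrix.smul_apply, smul_eq_mul, RingHom.id_apply]
            ring
          · simp only [Sum.elim_inr, Pi.smul_apply, Matrix.mul_smul,
              Matrix.smul_mul, Matrix.sub_apply, Matrix.smul_apply, smul_eq_mul, RingHom.id_apply]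
            ring }
      { toFun := fun M => Sum.elim (fun p => (Q * M + Mᵀ * Q) p.1 p.2)
          (fun p => (M * cm θ - cm θ * M) p.1 p.2)
        map_add' := by
          intro M N
          funext t
          rcases t with p | p
          · simp only [Sum.elim_inl, Pi.add_apply, Matrix.transpose_add, Matrix.mul_add,
              Matrix.add_mul, Matrix.add_apply]
            ring
          · simp only [Sum.elim_inr, Pi.add_apply, Matrix.mul_add, Matrix.add_mul, Matrix.add_apply,
              Matrix.sub_apply]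
            ring
        map_smul' := by
          intro r M
          funext t
          rcases t with p | p
          · simp only [Sum.elim_inl, Pi.smul_apply, Matrix.transpose_smul, Matrix.mul_smul,
              Matrix.smul_mul, Matrix.add_apply, Matrix.smul_apply, smul_eq_mul, RingHom.id_apply]
            ring
          · simp only [Sum.elim_inr, Pi.smul_apply, Matrix.mul_smul,
              Matrix.smul_mul, Matrix.sub_apply, Matrix.smul_apply, smul_eq_mul, RingHom.id_apply]
            ring }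
      (by
        intro M t
        rcases t with p | p
        · change (Q * cm M + (cm M)ᵀ * Q) p.1 p.2 = (((X.q * M + Mᵀ * X.q) p.1 p.2 : ℚ) : ℂ)
          rw [← cm_apply, cm_add, cm_mul, cm_mul, cm_tr, hQ]
        · change (cm M * cm θ - cm θ * cm M) p.1 p.2 = (((M * θ - θ * M) p.1 p.2 : ℚ) : ℂ)
          rw [← cm_apply, cm_sub, cm_mul, cm_mul])
      (Z := X.h) (by
        funext t
        rcases t with p | p
        · change (Q * X.h + X.hᵀ * Q) p.1 p.2 = 0
          rw [hskew]
          rfl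
        · change (X.h * cm θ - cm θ * X.h) p.1 p.2 = 0
          rw [hθh, sub_self]
          rfl)
    refine Submodule.span_mono ?_ h1
    rintro _ ⟨M, hM, rfl⟩
    refine ⟨M, ?_, rfl⟩
    rw [hg]
    have h2 : ∀ t, (Sum.elim (fun p : B × B => (X.q * M + Mᵀ * X.q) p.1 p.2)
          (fun p : B × B => (M * θ - θ * M) p.1 p.2)) t = 0 := fun t => congrFun hM t
    constructor
    · ext a b
      exact h2 (Sum.inl (a, b))
    · rw [← sub_eq_zero]
      ext a b
      exact h2 (Sum.inr (a, b))
  -- rational matrices commuting with the lifts of the rational Lie algebra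
  have hR : ∀ M : Matrix C C ℚ, (∀ Y ∈ g, M * lft (Y * X.q⁻¹) Φ = lft (Y * X.q⁻¹) Φ * M) →
      X.IsHodgeEnd Φ M := by
    intro M hM
    have h1 : ∀ Z ∈ Submodule.span ℂ (cm '' g), cm M * lft (Z * P) (fun b => cm (Φ b)) =
        lft (Z * P) (fun b => cm (Φ b)) * cm M := by
      intro Z hZ
      induction hZ using Submodule.span_induction with
      | mem Z hZ =>
        obtain ⟨Y, hY, rfl⟩ := hZ
        rw [hP, ← cm_mul, ← cm_lft, ← cm_mul, ← cm_mul, hM Y hY]
      | zero => rw [zero_mul, lft_zero, zero_mul, mul_zero]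
      | add a b _ _ ha hb => rw [add_mul, lft_add, mul_add, add_mul, ha, hb]
      | smul c a _ ha => rw [smul_mul_assoc, lft_smul, mul_smul_comm, smul_mul_assoc, ha]
    have h2 := h1 _ hmem
    rw [hhP, mul_smul_comm, smul_mul_assoc] at h2
    exact smul_right_injective _ (by norm_num : (4 : ℂ) ≠ 0) h2
  -- the product commutes with the lifts
  have hcomm : ∀ Y ∈ g, (l.map Ψ).prod * cm (lft (Y * X.q⁻¹) Φ) =
      cm (lft (Y * X.q⁻¹) Φ) * (l.map Ψ).prod := by
    intro Y hY
    rw [hg] at hY
    obtain ⟨-, hYθ⟩ := hY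
    have h1 : cm (lft (Y * X.q⁻¹) Φ) = lft (U * cm Y * V) Ψ := by
      rw [cm_lft, cm_mul, ← hP, lft_chg _ U _ Ψ hΨ]
      congr 1
      rw [hV, mul_assoc U, mul_assoc U, mul_assoc (cm Y)]
    have h2 : diagonal κ * (U * cm Y * V) = (U * cm Y * V) * diagonal κ := by
      have h3 : cm θ * V = V * diagonal κ := by
        calc cm θ * V = (V * U) * cm θ * V := by rw [hVU, one_mul]
          _ = V * (U * cm θ) * V := by rw [mul_assoc V]
          _ = V * (diagonal κ * U) * V := by rw [hκ]
          _ = V * diagonal κ * (U * V) := by simp only [mul_assoc]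
          _ = _ := by rw [hUV, mul_one]
      calc diagonal κ * (U * cm Y * V) = (diagonal κ * U) * cm Y * V := by simp only [mul_assoc]
        _ = U * (cm θ * cm Y) * V := by rw [← hκ]; simp only [mul_assoc]
        _ = U * (cm Y * cm θ) * V := by rw [← cm_mul, ← hYθ, cm_mul]
        _ = U * cm Y * (cm θ * V) := by simp only [mul_assoc]
        _ = _ := by rw [h3]; simp only [mul_assoc]
    obtain ⟨Z, hZ⟩ : ∃ Z : Matrix B B ℂ, Z = U * cm Y * V := ⟨_, rfl⟩
    rw [← hZ] at h1 h2
    have h3 : ∀ a b, Z a b ≠ 0 → κ a = κ b := by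
      intro a b hab
      have h4 := congrFun (congrFun h2 a) b
      rw [Matrix.diagonal_mul, Matrix.mul_diagonal] at h4
      have h5 : (κ a - κ b) * Z a b = 0 := by linear_combination h4
      rcases mul_eq_zero.1 h5 with h6 | h6
      · exact sub_eq_zero.1 h6
      · exact absurd h6 hab
    rw [h1]
    unfold lft
    rw [Finset.mul_sum, Finset.sum_mul]
    refine Finset.sum_congr rfl fun a _ => ?_
    rw [Finset.mul_sum, Finset.sum_mul]
    refine Finset.sum_congr rfl fun b _ => ?_
    by_cases hab : Z a b = 0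
    · rw [hab, zero_smul, mul_zero, zero_mul]
    · have h4 := h3 a b hab
      rw [mul_smul_comm, smul_mul_assoc, comm2 Ψ hCl a b l hl (by rw [hli, hli, h4])]
  -- descent
  have h1 := sol (A := C) (A' := C) (τ := g × (C × C))
    { toFun := fun M t => (M * lft (t.1.1 * X.q⁻¹) Φ - lft (t.1.1 * X.q⁻¹) Φ * M) t.2.1 t.2.2
      map_add' := by
        intro M N
        funext t
        simp only [Pi.add_apply, Matrix.mul_add, Matrix.add_mul, Matrix.sub_apply, Matrix.add_apply]
        ring
      map_smul' := by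
        intro r M
        funext t
        simp only [Pi.smul_apply, Matrix.mul_smul, Matrix.smul_mul, Matrix.sub_apply,
          Matrix.smul_apply, smul_eq_mul, RingHom.id_apply]
        ring }
    { toFun := fun M t => (M * cm (lft (t.1.1 * X.q⁻¹) Φ) - cm (lft (t.1.1 * X.q⁻¹) Φ) * M) t.2.1 t.2.2
      map_add' := by
        intro M N
        funext t
        simp only [Pi.add_apply, Matrix.mul_add, Matrix.add_mul, Matrix.sub_apply, Matrix.add_apply]
        ring
      map_smul' := by
        intro r M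
        funext t
        simp only [Pi.smul_apply, Matrix.mul_smul, Matrix.smul_mul, Matrix.sub_apply,
          Matrix.smul_apply, smul_eq_mul, RingHom.id_apply]
        ring }
    (by
      intro M t
      change (cm M * cm (lft (t.1.1 * X.q⁻¹) Φ) - cm (lft (t.1.1 * X.q⁻¹) Φ) * cm M) t.2.1 t.2.2 =
        (((M * lft (t.1.1 * X.q⁻¹) Φ - lft (t.1.1 * X.q⁻¹) Φ * M) t.2.1 t.2.2 : ℚ) : ℂ)
      rw [← cm_apply, cm_sub, cm_mul, cm_mul])
    (Z := (l.map Ψ).prod) (by
      funext t
      change ((l.map Ψ).prod * cm (lft (t.1.1 * X.q⁻¹) Φ) -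
        cm (lft (t.1.1 * X.q⁻¹) Φ) * (l.map Ψ).prod) t.2.1 t.2.2 = 0
      rw [hcomm t.1.1 t.1.2, sub_self]
      rfl)
  refine Submodule.span_mono ?_ h1
  rintro _ ⟨M, hM, rfl⟩
  refine ⟨M, hR M fun Y hY => ?_, rfl⟩
  rw [← sub_eq_zero]
  ext a b
  exact congrFun hM (⟨Y, hY⟩, (a, b))

end omega

end

end Pool.Agent.N429.KS
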