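import Pool.Agent.N429.KS.Defs2
import Pool.Agent.N429.KS.K8

/-!
# Z5: the action of skew operators on a Clifford module
-/

set_option linter.unusedSectionVars false

open Matrix Finset Function

namespace Pool.Agent.N429.KS

noncomputable section

namespace Z5

variable {B C : Type} [Fintype B] [DecidableEq B] [Fintype C] [DecidableEq C]

theorem lft_eq (X : K3Type B) (Φ : B → Matrix C C ℚ) (Y : Matrix B B ℂ) :
    X.lft Φ Y = (1 / 4 : ℂ) • K8.lft (Y * (cm X.q)⁻¹) (fun b => cm (Φ b)) := rfl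

theorem inv_facts (X : K3Type B) : cm X.q * (cm X.q)⁻¹ = 1 ∧ (cm X.q)⁻¹ * cm X.q = 1 ∧
    (cm X.q)ᵀ = cm X.q ∧ ((cm X.q)⁻¹)ᵀ = (cm X.q)⁻¹ := by
  have hqd : IsUnit X.q.det := isUnit_iff_ne_zero.2 X.nondeg
  have hqq : X.q * X.q⁻¹ = 1 := Matrix.mul_nonsing_inv _ hqd
  have h1 : cm X.q * cm X.q⁻¹ = 1 := by rw [← K8.cm_mul, hqq, K8.cm_one]
  have h2 : (cm X.q)⁻¹ = cm X.q⁻¹ := Matrix.inv_eq_right_inv h1
  have h3 : (cm X.q)ᵀ = cm X.q := by rw [← K8.cm_tr, X.sym.eq]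
  refine ⟨by rw [h2, h1], ?_, h3, ?_⟩
  · rw [h2]; exact mul_eq_one_comm.1 h1
  · rw [Matrix.transpose_nonsing_inv, h3]

theorem phi_single (Φ : B → Matrix C C ℚ) (k : B) :
    K3Type.phi Φ (Pi.single k 1) = cm (Φ k) := by
  unfold K3Type.phi
  rw [Finset.sum_eq_single k]
  · simp
  · intro j _ hj
    rw [Pi.single_eq_of_ne hj, zero_smul]
  · intro h; exact absurd (Finset.mem_univ k) h

theorem phi_col (Φ : B → Matrix C C ℚ) (Y : Matrix B B ℂ) (k : B) :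
    K3Type.phi Φ (Y *ᵥ Pi.single k 1) = ∑ i, Y i k • cm (Φ i) := by
  unfold K3Type.phi
  refine Finset.sum_congr rfl fun i _ => ?_
  simp

/-- the commutator of `Z` with a quadratic element -/
theorem comm_quad (Φ : B → Matrix C C ℚ) (Y : Matrix B B ℂ) (Z : Matrix C C ℂ)
    (hZ : ∀ v, Z * K3Type.phi Φ v - K3Type.phi Φ v * Z = K3Type.phi Φ (Y *ᵥ v))
    (A : Matrix B B ℂ) :
    Z * K8.lft A (fun b => cm (Φ b)) - K8.lft A (fun b => cm (Φ b)) * Z =
      K8.lft (Y * A + A * Yᵀ) (fun b => cm (Φ b)) := by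
  have h1 : ∀ k, Z * cm (Φ k) - cm (Φ k) * Z = ∑ i, Y i k • cm (Φ i) := by
    intro k
    have := hZ (Pi.single k 1)
    rw [phi_single, phi_col] at this
    exact this
  have h2 : ∀ k j, Z * (cm (Φ k) * cm (Φ j)) - (cm (Φ k) * cm (Φ j)) * Z =
      (∑ i, Y i k • (cm (Φ i) * cm (Φ j))) + ∑ i, Y i j • (cm (Φ k) * cm (Φ i)) := by
    intro k j
    have e1 : Z * (cm (Φ k) * cm (Φ j)) - (cm (Φ k) * cm (Φ j)) * Z =
        (Z * cm (Φ k) - cm (Φ k) * Z) * cm (Φ j) + cm (Φ k) * (Z * cm (Φ j) - cm (Φ j) * Z) := by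
      noncomm_ring
    rw [e1, h1, h1, Finset.sum_mul, Finset.mul_sum]
    congr 1
    · exact Finset.sum_congr rfl fun i _ => smul_mul_assoc _ _ _
    · exact Finset.sum_congr rfl fun i _ => mul_smul_comm _ _ _
  have h3 : Z * K8.lft A (fun b => cm (Φ b)) - K8.lft A (fun b => cm (Φ b)) * Z =
      ∑ k, ∑ j, A k j • (Z * (cm (Φ k) * cm (Φ j)) - (cm (Φ k) * cm (Φ j)) * Z) := by
    unfold K8.lft
    rw [Finset.mul_sum, Finset.sum_mul, ← Finset.sum_sub_distrib]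
    refine Finset.sum_congr rfl fun k _ => ?_
    rw [Finset.mul_sum, Finset.sum_mul, ← Finset.sum_sub_distrib]
    refine Finset.sum_congr rfl fun j _ => ?_
    rw [mul_smul_comm, smul_mul_assoc, smul_sub]
  rw [h3, K8.lft_add]
  simp only [h2, smul_add, Finset.sum_add_distrib]
  congr 1
  · unfold K8.lft
    have : ∀ k : B, ∑ j, A k j • ∑ i, Y i k • (cm (Φ i) * cm (Φ j)) =
        ∑ i, ∑ j, (Y i k * A k j) • (cm (Φ i) * cm (Φ j)) := by
      intro k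
      rw [Finset.sum_comm]
      refine Finset.sum_congr rfl fun j _ => ?_
      rw [Finset.smul_sum]
      refine Finset.sum_congr rfl fun i _ => ?_
      rw [smul_smul, mul_comm]
    rw [Finset.sum_congr rfl fun k _ => this k, Finset.sum_comm]
    refine Finset.sum_congr rfl fun i _ => ?_
    rw [Finset.sum_comm]
    refine Finset.sum_congr rfl fun j _ => ?_
    rw [← Finset.sum_smul, Matrix.mul_apply]
  · unfold K8.lft
    refine Finset.sum_congr rfl fun k _ => ?_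
    have : ∀ j : B, A k j • ∑ i, Y i j • (cm (Φ k) * cm (Φ i)) =
        ∑ i, (A k j * Y i j) • (cm (Φ k) * cm (Φ i)) := by
      intro j
      rw [Finset.smul_sum]
      refine Finset.sum_congr rfl fun i _ => ?_
      rw [smul_smul]
    rw [Finset.sum_congr rfl fun j _ => this j, Finset.sum_comm]
    refine Finset.sum_congr rfl fun i _ => ?_
    rw [← Finset.sum_smul, Matrix.mul_apply]
    rfl

/-- the commutator of a quadratic element with a generator -/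
theorem quad_gen (X : K3Type B) (Φ : B → Matrix C C ℚ) (hΦ : Cliff X.q Φ) (A : Matrix B B ℂ)
    (i : B) : K8.lft A (fun b => cm (Φ b)) * cm (Φ i) - cm (Φ i) * K8.lft A (fun b => cm (Φ b)) =
      (2 : ℂ) • ∑ a, ((A - Aᵀ) * cm X.q) a i • cm (Φ a) := by
  have hcl : ∀ c d, cm (Φ c) * cm (Φ d) = (2 * cm X.q c d) • (1 : Matrix C C ℂ) -
      cm (Φ d) * cm (Φ c) := by
    intro c d
    have h1 : cm (Φ c) * cm (Φ d) + cm (Φ d) * cm (Φ c) =
        (2 * cm X.q c d) • (1 : Matrix C C ℂ) := by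
      rw [← K8.cm_mul, ← K8.cm_mul, ← K8.cm_add, hΦ c d, K8.cm_smul, K8.cm_one, K8.cm_apply]
      push_cast
      rfl
    rw [← h1]
    abel
  have h2 : ∀ a b, (cm (Φ a) * cm (Φ b)) * cm (Φ i) - cm (Φ i) * (cm (Φ a) * cm (Φ b)) =
      (2 * cm X.q b i) • cm (Φ a) - (2 * cm X.q a i) • cm (Φ b) := by
    intro a b
    have e1 : (cm (Φ a) * cm (Φ b)) * cm (Φ i) = (2 * cm X.q b i) • cm (Φ a) -
        cm (Φ a) * cm (Φ i) * cm (Φ b) := by
      rw [mul_assoc, hcl b i, Matrix.mul_sub, mul_smul_comm, mul_one, ← mul_assoc]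
    rw [e1, hcl a i, sub_mul, smul_mul_assoc, one_mul, mul_assoc]
    abel
  have h3 : K8.lft A (fun b => cm (Φ b)) * cm (Φ i) - cm (Φ i) * K8.lft A (fun b => cm (Φ b)) =
      ∑ a, ∑ b, A a b • ((2 * cm X.q b i) • cm (Φ a) - (2 * cm X.q a i) • cm (Φ b)) := by
    unfold K8.lft
    rw [Finset.mul_sum, Finset.sum_mul, ← Finset.sum_sub_distrib]
    refine Finset.sum_congr rfl fun k _ => ?_
    rw [Finset.mul_sum, Finset.sum_mul, ← Finset.sum_sub_distrib]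
    refine Finset.sum_congr rfl fun j _ => ?_
    rw [mul_smul_comm, smul_mul_assoc, ← smul_sub, h2]
  rw [h3]
  simp only [smul_sub, smul_smul, Finset.sum_sub_distrib]
  have h4 : ∑ a, ∑ b, (A a b * (2 * cm X.q b i)) • cm (Φ a) =
      (2 : ℂ) • ∑ a, (A * cm X.q) a i • cm (Φ a) := by
    rw [Finset.smul_sum]
    refine Finset.sum_congr rfl fun a _ => ?_
    rw [← Finset.sum_smul, Matrix.mul_apply, smul_smul, Finset.mul_sum]
    congr 1
    exact Finset.sum_congr rfl fun b _ => by ring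
  have h5 : ∑ a, ∑ b, (A a b * (2 * cm X.q a i)) • cm (Φ b) =
      (2 : ℂ) • ∑ a, (Aᵀ * cm X.q) a i • cm (Φ a) := by
    rw [Finset.sum_comm, Finset.smul_sum]
    refine Finset.sum_congr rfl fun a _ => ?_
    rw [← Finset.sum_smul, Matrix.mul_apply, smul_smul, Finset.mul_sum]
    congr 1
    exact Finset.sum_congr rfl fun b _ => by rw [Matrix.transpose_apply]; ring
  rw [h4, h5, ← smul_sub, ← Finset.sum_sub_distrib]
  congr 1
  refine Finset.sum_congr rfl fun a _ => ?_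
  rw [← sub_smul, Matrix.sub_mul, Matrix.sub_apply]

end Z5

section one

open Z5

variable {B C : Type} [Fintype B] [DecidableEq B] [Fintype C] [DecidableEq C]

theorem lft_bracket (X : K3Type B) (Φ : B → Matrix C C ℚ) (hΦ : Cliff X.q Φ) (Y : Matrix B B ℂ)
    (hY : cm X.q * Y + Yᵀ * cm X.q = 0) (v : B → ℂ) :
    X.lft Φ Y * K3Type.phi Φ v - K3Type.phi Φ v * X.lft Φ Y = K3Type.phi Φ (Y *ᵥ v) := by
  obtain ⟨f1, f2, f3, f4⟩ := inv_facts X
  have hk : ((Y * (cm X.q)⁻¹ - (Y * (cm X.q)⁻¹)ᵀ) * cm X.q) = (2 : ℂ) • Y := by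
    rw [Matrix.sub_mul, mul_assoc, f2, mul_one, Matrix.transpose_mul, f4, mul_assoc]
    have h1 : Yᵀ * cm X.q = -(cm X.q * Y) := by
      rw [eq_neg_iff_add_eq_zero, add_comm]; exact hY
    rw [h1, mul_neg, ← mul_assoc, f2, one_mul, sub_neg_eq_add, two_smul]
  have h1 : ∀ i, X.lft Φ Y * cm (Φ i) - cm (Φ i) * X.lft Φ Y = ∑ a, Y a i • cm (Φ a) := by
    intro i
    rw [lft_eq, smul_mul_assoc, mul_smul_comm, ← smul_sub, quad_gen X Φ hΦ, hk, smul_smul,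
      Finset.smul_sum]
    refine Finset.sum_congr rfl fun a _ => ?_
    rw [smul_smul, Matrix.smul_apply, smul_eq_mul]
    congr 1
    ring
  have h2 : X.lft Φ Y * K3Type.phi Φ v - K3Type.phi Φ v * X.lft Φ Y =
      ∑ i, v i • (X.lft Φ Y * cm (Φ i) - cm (Φ i) * X.lft Φ Y) := by
    unfold K3Type.phi
    rw [Finset.mul_sum, Finset.sum_mul, ← Finset.sum_sub_distrib]
    refine Finset.sum_congr rfl fun i _ => ?_
    rw [mul_smul_comm, smul_mul_assoc, smul_sub]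
  rw [h2]
  simp only [h1, Finset.smul_sum]
  rw [Finset.sum_comm]
  unfold K3Type.phi
  refine Finset.sum_congr rfl fun a _ => ?_
  simp only [smul_smul]
  rw [← Finset.sum_smul]
  congr 1
  simp only [Matrix.mulVec, dotProduct]
  exact Finset.sum_congr rfl fun i _ => mul_comm _ _

theorem lft_wedge (X : K3Type B) (Φ : B → Matrix C C ℚ) (x y : B → ℂ) :
    X.lft Φ (wedge (cm X.q) x y) = (1 / 4 : ℂ) •
      (K3Type.phi Φ x * K3Type.phi Φ y - K3Type.phi Φ y * K3Type.phi Φ x) := by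
  obtain ⟨f1, f2, f3, f4⟩ := inv_facts X
  have hvP : ∀ x y : B → ℂ, vecMulVec x (cm X.q *ᵥ y) * (cm X.q)⁻¹ = vecMulVec x y := by
    intro x y
    rw [Matrix.vecMulVec_mul, ← Matrix.vecMul_transpose, f3, Matrix.vecMul_vecMul, f1,
      Matrix.vecMul_one]
  rw [lft_eq]
  unfold wedge
  rw [Matrix.sub_mul, hvP, hvP, K8.lft_sub, K8.lft_vec, K8.lft_vec]
  rfl

theorem lft_h (X : K3Type B) (Φ : B → Matrix C C ℚ) : X.lft Φ X.h = X.ht Φ := by
  have h := lft_wedge X Φ X.ω (star X.ω)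
  rw [lft_eq] at h ⊢
  unfold K3Type.h K3Type.ht
  rw [smul_mul_assoc, K8.lft_smul, smul_comm, h, smul_smul]
  congr 1
  rw [mul_inv, mul_comm]
  norm_num

/-- an operator on `H` whose commutator with `Φ_v` is `Φ_{Yv}` differs from `lft Y` by an operator
commuting with the Clifford algebra -/
theorem lft_comm (X : K3Type B) (Φ : B → Matrix C C ℚ) (hΦ : Cliff X.q Φ) (Y : Matrix B B ℂ)
    (hY : cm X.q * Y + Yᵀ * cm X.q = 0) (Z : Matrix C C ℂ)
    (hZ : ∀ v, Z * K3Type.phi Φ v - K3Type.phi Φ v * Z = K3Type.phi Φ (Y *ᵥ v)) (Y' : Matrix B B ℂ)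
    (hY' : cm X.q * Y' + Y'ᵀ * cm X.q = 0) :
    Z * X.lft Φ Y' - X.lft Φ Y' * Z = X.lft Φ (Y * Y' - Y' * Y) := by
  obtain ⟨f1, f2, f3, f4⟩ := inv_facts X
  have h1 : (cm X.q)⁻¹ * Yᵀ = -(Y * (cm X.q)⁻¹) := by
    have h2 : Yᵀ * cm X.q = -(cm X.q * Y) := by
      rw [eq_neg_iff_add_eq_zero, add_comm]; exact hY
    calc (cm X.q)⁻¹ * Yᵀ = (cm X.q)⁻¹ * (Yᵀ * cm X.q) * (cm X.q)⁻¹ := by
          rw [mul_assoc, mul_assoc, f1, mul_one]
      _ = -(((cm X.q)⁻¹ * cm X.q) * Y * (cm X.q)⁻¹) := by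
          rw [h2, mul_neg, neg_mul, ← mul_assoc]
      _ = _ := by rw [f2, one_mul]
  rw [lft_eq, lft_eq, mul_smul_comm, smul_mul_assoc, ← smul_sub, comm_quad Φ Y Z hZ]
  congr 2
  have e1 : Y' * (cm X.q)⁻¹ * Yᵀ = -(Y' * Y * (cm X.q)⁻¹) := by
    rw [mul_assoc, h1, mul_neg, ← mul_assoc]
  rw [e1, Matrix.sub_mul, ← mul_assoc, sub_eq_add_neg]

theorem lft_lie (X : K3Type B) (Φ : B → Matrix C C ℚ) (hΦ : Cliff X.q Φ) (Y Z : Matrix B B ℂ)
    (hY : cm X.q * Y + Yᵀ * cm X.q = 0) (hZ : cm X.q * Z + Zᵀ * cm X.q = 0) :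
    X.lft Φ Y * X.lft Φ Z - X.lft Φ Z * X.lft Φ Y = X.lft Φ (Y * Z - Z * Y) :=
  lft_comm X Φ hΦ Y hY (X.lft Φ Y) (lft_bracket X Φ hΦ Y hY) Z hZ

end one

end

end Pool.Agent.N429.KS
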