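import Pool.Agent.N429.KS.Defs
import Pool.Agent.N429.KS.Desc

/-!
# K9: the Lie algebra of the operators which kill all Hodge classes (helper34)
-/

set_option autoImplicit false
set_option linter.unusedSectionVars false

open Matrix Finset Function

namespace Pool.Agent.N429.KS

noncomputable section

namespace K9

section slots

variable {K : Type} [Field K] {B : Type} [Fintype B] [DecidableEq B] {S : Type} [Fintype S]
  [DecidableEq S]

/-- the action on one variable -/
def sl (X : Matrix B B K) (s : S) (f : (S → B) → K) : (S → B) → K :=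
  fun J => ∑ b, X b (J s) * f (update J s b)

theorem der_sl (X : Matrix B B K) (f : (S → B) → K) : der X f = ∑ s, sl X s f := by
  funext J
  rw [Finset.sum_apply]
  rfl

theorem sl_sum (X : Matrix B B K) (s : S) (g : S → (S → B) → K) :
    sl X s (∑ t, g t) = ∑ t, sl X s (g t) := by
  funext J
  rw [Finset.sum_apply]
  unfold sl
  simp_rw [Finset.sum_apply, Finset.mul_sum]
  rw [Finset.sum_comm]

theorem sl_mul (Y Z : Matrix B B K) (s : S) (f : (S → B) → K) :
    sl Y s (sl Z s f) = sl (Z * Y) s f := by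
  funext J
  unfold sl
  simp_rw [update_self, update_idem, Matrix.mul_apply, Finset.mul_sum, Finset.sum_mul]
  rw [Finset.sum_comm]
  refine Finset.sum_congr rfl fun b _ => Finset.sum_congr rfl fun c _ => ?_
  ring

theorem sl_comm (Y Z : Matrix B B K) {s t : S} (h : s ≠ t) (f : (S → B) → K) :
    sl Y s (sl Z t f) = sl Z t (sl Y s f) := by
  funext J
  unfold sl
  simp_rw [update_of_ne h, update_of_ne h.symm, Finset.mul_sum]
  rw [Finset.sum_comm]
  refine Finset.sum_congr rfl fun b _ => Finset.sum_congr rfl fun c _ => ?_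
  rw [update_comm h]
  ring

theorem der_der (Y Z : Matrix B B K) (f : (S → B) → K) :
    der Y (der Z f) - der Z (der Y f) = der (Z * Y) f - der (Y * Z) f := by
  have e1 : der Y (der Z f) = ∑ s, ∑ t, sl Y s (sl Z t f) := by
    rw [der_sl Z f, der_sl Y]
    exact Finset.sum_congr rfl fun s _ => sl_sum _ _ _
  have e2 : der Z (der Y f) = ∑ s, ∑ t, sl Z t (sl Y s f) := by
    rw [der_sl Y f, der_sl Z, Finset.sum_comm]
    exact Finset.sum_congr rfl fun s _ => sl_sum _ _ _
  rw [e1, e2, der_sl, der_sl, ← Finset.sum_sub_distrib, ← Finset.sum_sub_distrib]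
  refine Finset.sum_congr rfl fun s _ => ?_
  rw [← Finset.sum_sub_distrib, Finset.sum_eq_single s]
  · rw [sl_mul, sl_mul]
  · intro t _ ht
    rw [sl_comm Y Z ht.symm, sub_self]
  · intro h
    exact absurd (Finset.mem_univ s) h

theorem der_sub (Y Z : Matrix B B K) (f : (S → B) → K) : der (Y - Z) f = der Y f - der Z f := by
  funext J
  simp only [der, Pi.sub_apply, Matrix.sub_apply, sub_mul, Finset.sum_sub_distrib]

theorem der_zero (Y : Matrix B B K) : der Y (0 : (S → B) → K) = 0 := by
  funext J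
  simp [der]

/-- bilinear forms -/
theorem der_two (X M : Matrix B B K) (J : Fin 2 → B) :
    der X (fun J : Fin 2 → B => M (J 0) (J 1)) J = (Xᵀ * M + M * X) (J 0) (J 1) := by
  unfold der
  rw [Fin.sum_univ_two, Matrix.add_apply, Matrix.mul_apply, Matrix.mul_apply]
  refine congrArg₂ (· + ·) (Finset.sum_congr rfl fun b _ => ?_) (Finset.sum_congr rfl fun b _ => ?_)
  · show X b (J 0) * M (update J 0 b 0) (update J 0 b 1) = _
    rw [update_self, update_of_ne (by decide), Matrix.transpose_apply]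
  · show X b (J 1) * M (update J 1 b 0) (update J 1 b 1) = _
    rw [update_self, update_of_ne (by decide), mul_comm]

theorem der_two_iff (X M : Matrix B B K) :
    der X (fun J : Fin 2 → B => M (J 0) (J 1)) = 0 ↔ Xᵀ * M + M * X = 0 := by
  constructor
  · intro h
    ext i j
    have h1 := congrFun h ![i, j]
    rw [der_two] at h1
    simpa using h1
  · intro h
    funext J
    rw [der_two, h]
    rfl

theorem wedge_skew {Q : Matrix B B K} (hQ : Q.IsSymm) (x y : B → K) :
    (wedge Q x y)ᵀ * Q + Q * wedge Q x y = 0 := by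
  have h1 : ∀ v : B → K, v ᵥ* Q = Q *ᵥ v := by
    intro v
    have := Matrix.vecMul_transpose Q v
    rwa [hQ] at this
  unfold wedge
  rw [Matrix.transpose_sub, transpose_vecMulVec, transpose_vecMulVec, Matrix.sub_mul,
    Matrix.mul_sub, vecMulVec_mul, vecMulVec_mul, mul_vecMulVec, mul_vecMulVec, h1, h1]
  abel

end slots

section cmx

variable {B : Type} [Fintype B] [DecidableEq B]

theorem cm_mul (Y Z : Matrix B B ℚ) : cm (Y * Z) = cm Y * cm Z := Matrix.map_mul

theorem cm_sub (Y Z : Matrix B B ℚ) : cm (Y - Z) = cm Y - cm Z :=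
  Matrix.map_sub _ (fun a b => map_sub (algebraMap ℚ ℂ) a b) _ _

theorem cm_add (Y Z : Matrix B B ℚ) : cm (Y + Z) = cm Y + cm Z :=
  Matrix.map_add _ (fun a b => map_add (algebraMap ℚ ℂ) a b) _ _

theorem cm_tr (Y : Matrix B B ℚ) : (cm Y)ᵀ = cm Yᵀ := rfl

theorem cm_inj {Y Z : Matrix B B ℚ} (h : cm Y = cm Z) : Y = Z := by
  ext i j
  have := congrFun (congrFun h i) j
  simpa [cm] using this

theorem cm_zero : cm (0 : Matrix B B ℚ) = 0 := by
  ext i j
  simp [cm]

variable (X : K3Type B)

theorem h_skew : X.hᵀ * cm X.q + cm X.q * X.h = 0 := by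
  have hq : (cm X.q).IsSymm := by
    show (cm X.q)ᵀ = cm X.q
    rw [cm_tr, X.sym]
  unfold K3Type.h
  rw [Matrix.transpose_smul, Matrix.smul_mul, Matrix.mul_smul, ← smul_add, wedge_skew hq, smul_zero]

theorem hodge_two (M : Matrix B B ℚ) :
    X.IsHodge (fun J : Fin 2 → B => M (J 0) (J 1)) ↔ X.hᵀ * cm M + cm M * X.h = 0 := by
  rw [← der_two_iff]
  rfl

theorem gQ_skew {Y : Matrix B B ℚ} (hY : Y ∈ X.gQ) : Yᵀ * X.q + X.q * Y = 0 := by
  rw [← der_two_iff]
  exact hY _ _ _ _ ((hodge_two X X.q).2 (h_skew X))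

theorem gQ_bracket {Y Z : Matrix B B ℚ} (hY : Y ∈ X.gQ) (hZ : Z ∈ X.gQ) : Y * Z - Z * Y ∈ X.gQ := by
  intro S _ _ f hf
  have h1 := hY S _ _ f hf
  have h2 := hZ S _ _ f hf
  have h3 := der_der Y Z f
  rw [h1, h2, der_zero, der_zero, sub_zero] at h3
  rw [der_sub]
  rw [eq_comm, sub_eq_zero] at h3
  rw [h3, sub_self]

/-- the index set of all equations -/
structure Eqn where
  /-- the variables -/
  S : Type
  /-- finite -/
  fin : Fintype S
  /-- decidable -/
  dec : DecidableEq S
  /-- the Hodge class -/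
  f : (S → B) → ℚ
  /-- it is a Hodge class -/
  hodge : X.IsHodge f
  /-- the place -/
  J : S → B

/-- the rational equations -/
def L : Matrix B B ℚ →ₗ[ℚ] (Eqn X → ℚ) where
  toFun Y t := letI := t.fin; letI := t.dec; der Y t.f t.J
  map_add' Y Z := by
    funext t
    simp only [der, Pi.add_apply, Matrix.add_apply, add_mul, Finset.sum_add_distrib]
  map_smul' c Y := by
    funext t
    simp only [der, Pi.smul_apply, Matrix.smul_apply, smul_eq_mul, mul_assoc, ← Finset.mul_sum,
      RingHom.id_apply]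

/-- the complex equations -/
def Lc : Matrix B B ℂ →ₗ[ℂ] (Eqn X → ℂ) where
  toFun Y t := letI := t.fin; letI := t.dec; der Y (cx t.f) t.J
  map_add' Y Z := by
    funext t
    simp only [der, Pi.add_apply, Matrix.add_apply, add_mul, Finset.sum_add_distrib]
  map_smul' c Y := by
    funext t
    simp only [der, Pi.smul_apply, Matrix.smul_apply, smul_eq_mul, mul_assoc, ← Finset.mul_sum,
      RingHom.id_apply]

end cmx

end K9

variable {B : Type} [Fintype B] [DecidableEq B]

open K9

/-- K9 -/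
theorem h_mem_gC (X : K3Type B) : X.h ∈ X.gC := by
  have h1 : X.h ∈ Submodule.span ℂ (cm '' {M : Matrix B B ℚ | L X M = 0}) := by
    refine sol (L X) (Lc X) ?_ ?_
    · intro M t
      let _ := t.fin
      let _ := t.dec
      show der (cm M) (cx t.f) t.J = ((der M t.f t.J : ℚ) : ℂ)
      simp only [der, cm, cx, Matrix.map_apply]
      push_cast
      rfl
    · funext t
      have := t.hodge
      unfold K3Type.IsHodge at this
      exact congrFun this t.J
  refine Submodule.span_mono (Set.image_mono ?_) h1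
  intro Y hY S _ _ f hf
  funext J
  exact congrFun hY ⟨S, inferInstance, inferInstance, f, hf, J⟩

theorem gC_bracket (X : K3Type B) {Y Z : Matrix B B ℂ} (hY : Y ∈ X.gC) (hZ : Z ∈ X.gC) :
    Y * Z - Z * Y ∈ X.gC := by
  unfold K3Type.gC at hY hZ
  induction hY using Submodule.span_induction with
  | mem Y hY =>
    induction hZ using Submodule.span_induction with
    | mem Z hZ =>
      obtain ⟨Y₀, hY₀, rfl⟩ := hY
      obtain ⟨Z₀, hZ₀, rfl⟩ := hZ
      rw [← cm_mul, ← cm_mul, ← cm_sub]
      exact Submodule.subset_span ⟨_, gQ_bracket X hY₀ hZ₀, rfl⟩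
    | zero =>
      rw [Matrix.mul_zero, Matrix.zero_mul, sub_zero]
      exact Submodule.zero_mem _
    | add Z Z' _ _ h1 h2 =>
      have e : Y * (Z + Z') - (Z + Z') * Y = (Y * Z - Z * Y) + (Y * Z' - Z' * Y) := by
        rw [Matrix.mul_add, Matrix.add_mul]; abel
      rw [e]
      exact Submodule.add_mem _ h1 h2
    | smul c Z _ h1 =>
      have e : Y * (c • Z) - (c • Z) * Y = c • (Y * Z - Z * Y) := by
        rw [Matrix.mul_smul, Matrix.smul_mul, smul_sub]
      rw [e]
      exact Submodule.smul_mem _ _ h1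
  | zero =>
    rw [Matrix.mul_zero, Matrix.zero_mul, sub_zero]
    exact Submodule.zero_mem _
  | add Y Y' _ _ h1 h2 =>
    have e : (Y + Y') * Z - Z * (Y + Y') = (Y * Z - Z * Y) + (Y' * Z - Z * Y') := by
      rw [Matrix.mul_add, Matrix.add_mul]; abel
    rw [e]
    exact Submodule.add_mem _ h1 h2
  | smul c Y _ h1 =>
    have e : (c • Y) * Z - Z * (c • Y) = c • (Y * Z - Z * Y) := by
      rw [Matrix.mul_smul, Matrix.smul_mul, smul_sub]
    rw [e]
    exact Submodule.smul_mem _ _ h1

theorem gC_skew (X : K3Type B) {Y : Matrix B B ℂ} (hY : Y ∈ X.gC) :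
    cm X.q * Y + Yᵀ * cm X.q = 0 := by
  unfold K3Type.gC at hY
  induction hY using Submodule.span_induction with
  | mem Y hY =>
    obtain ⟨Y₀, hY₀, rfl⟩ := hY
    rw [cm_tr, ← cm_mul, ← cm_mul, ← cm_add, add_comm, gQ_skew X hY₀, cm_zero]
  | zero => simp
  | add Y Y' _ _ h1 h2 =>
    have e : cm X.q * (Y + Y') + (Y + Y')ᵀ * cm X.q =
        (cm X.q * Y + Yᵀ * cm X.q) + (cm X.q * Y' + Y'ᵀ * cm X.q) := by
      rw [Matrix.mul_add, Matrix.transpose_add, Matrix.add_mul]; abel
    rw [e, h1, h2, add_zero]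
  | smul c Y _ h1 =>
    rw [Matrix.mul_smul, Matrix.transpose_smul, Matrix.smul_mul, ← smul_add, h1, smul_zero]

/-- the rational operators which commute with `gQ` are the Hodge endomorphisms -/
theorem comm_iff (X : K3Type B) (M : Matrix B B ℚ) :
    (∀ Y ∈ X.gQ, M * Y = Y * M) ↔ cm M * X.h = X.h * cm M := by
  constructor
  · intro h
    have key : ∀ Y ∈ X.gC, cm M * Y = Y * cm M := by
      intro Y hY
      unfold K3Type.gC at hY
      induction hY using Submodule.span_induction with
      | mem Y hY =>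
        obtain ⟨Y₀, hY₀, rfl⟩ := hY
        rw [← cm_mul, ← cm_mul, h Y₀ hY₀]
      | zero => simp
      | add Y Y' _ _ h1 h2 => rw [Matrix.mul_add, Matrix.add_mul, h1, h2]
      | smul c Y _ h1 => rw [Matrix.mul_smul, Matrix.smul_mul, h1]
    exact key _ (h_mem_gC X)
  · intro h Y hY
    have hs := h_skew X
    have hH : X.IsHodge (fun J : Fin 2 → B => (X.q * M) (J 0) (J 1)) := by
      rw [hodge_two, cm_mul]
      have e1 : X.hᵀ * cm X.q = -(cm X.q * X.h) := eq_neg_of_add_eq_zero_left hs
      rw [← Matrix.mul_assoc, e1, Matrix.neg_mul, Matrix.mul_assoc, Matrix.mul_assoc, h]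
      exact neg_add_cancel _
    have h1 := (der_two_iff Y (X.q * M)).1 (hY _ _ _ _ hH)
    have h2 : Yᵀ * X.q = -(X.q * Y) := eq_neg_of_add_eq_zero_left (gQ_skew X hY)
    rw [← Matrix.mul_assoc, h2, Matrix.neg_mul, Matrix.mul_assoc, Matrix.mul_assoc,
      neg_add_eq_zero] at h1
    have hu : IsUnit X.q.det := isUnit_iff_ne_zero.2 X.nondeg
    have h3 := congrArg (fun W => X.q⁻¹ * W) h1
    simp only [← Matrix.mul_assoc, Matrix.nonsing_inv_mul _ hu, Matrix.one_mul] at h3
    exact h3.symm

end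

end Pool.Agent.N429.KS
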