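import Pool.Agent.N429.KS.Defs
import Pool.Agent.H204R3.GP.FFT

/-!
# P9: the first fundamental theorem for products of general linear groups
(helper862, for helper429)
-/

set_option linter.unusedSectionVars false

open Matrix Finset Function

namespace Pool.Agent.N429.KS

noncomputable section

namespace P9aux

open Pool.Agent.H204R3.SP Pool.Agent.H204R3.GP

variable {K : Type} [Field K] [CharZero K] {B : Type} [Fintype B] [DecidableEq B] {ι : Type}
  [DecidableEq ι]

/-- the sign of a class -/
def jz (κ : B → ι) (τ : B → B) (a : B) : ℤ :=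
  open Classical in if WellOrderingRel (κ a) (κ (τ a)) then 1 else -1

theorem jz_tau {κ : B → ι} {τ : B → B} (hτ : ∀ a, τ (τ a) = a) (hκ : ∀ a, κ (τ a) ≠ κ a) (a : B) :
    jz κ τ (τ a) = - jz κ τ a := by
  unfold jz
  rw [hτ]
  rcases trichotomous_of WellOrderingRel (κ a) (κ (τ a)) with h | h | h
  · rw [if_pos h, if_neg (asymm_of WellOrderingRel h)]
  · exact absurd h.symm (hκ a)
  · rw [if_pos h, if_neg (asymm_of WellOrderingRel h)]
    norm_num

theorem jz_cls {κ : B → ι} {τ : B → B} (hκτ : ∀ a b, κ a = κ b → κ (τ a) = κ (τ b)) {a b : B}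
    (h : κ a = κ b) : jz κ τ a = jz κ τ b := by
  unfold jz
  rw [h, hκτ a b h]

theorem jz_odd (κ : B → ι) (τ : B → B) (a : B) : jz κ τ a = 1 ∨ jz κ τ a = -1 := by
  unfold jz
  split_ifs
  · left; rfl
  · right; rfl

/-- the sign in the field -/
def jk (K : Type) [Field K] (κ : B → ι) (τ : B → B) (a : B) : K := (jz κ τ a : ℤ)

theorem der_single {S : Type} [Fintype S] [DecidableEq S] (a b c d : B) (f : (S → B) → K)
    (J : S → B) : der (Matrix.single a b 1 - Matrix.single c d 1) f J =
      ∑ s, ((if J s = b then f (update J s a) else 0) -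
        (if J s = d then f (update J s c) else 0)) := by
  unfold der
  refine Finset.sum_congr rfl fun s _ => ?_
  have h : ∀ p q : B, ∑ x, (Matrix.single p q (1 : K)) x (J s) * f (update J s x) =
      if J s = q then f (update J s p) else 0 := by
    intro p q
    rw [Finset.sum_eq_single p]
    · rw [Matrix.single_apply]
      by_cases h : J s = q
      · rw [if_pos ⟨rfl, h.symm⟩, if_pos h, one_mul]
      · rw [if_neg (fun h' => h h'.2.symm), if_neg h, zero_mul]
    · intro x _ hx
      rw [Matrix.single_apply, if_neg (fun h' => hx h'.1.symm), zero_mul]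
    · intro h
      exact absurd (Finset.mem_univ p) h
  simp only [Matrix.sub_apply, sub_mul, Finset.sum_sub_distrib]
  rw [h, h]

theorem comp_update {S : Type} [DecidableEq S] (κ : B → ι) (J : S → B) (s : S) (a : B)
    (h : κ a = κ (J s)) : κ ∘ update J s a = κ ∘ J := by
  funext t
  by_cases ht : t = s
  · subst ht
    simp [h]
  · simp [update_of_ne ht]

/-- the types of an invariant form are in `InvG` -/
theorem mem_InvG {κ : B → ι} {τ : B → B} (hτ : ∀ a, τ (τ a) = a) (hκ : ∀ a, κ (τ a) ≠ κ a)
    (hκτ : ∀ a b, κ a = κ b → κ (τ a) = κ (τ b)) {S : Type} [Fintype S] [DecidableEq S]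
    (f : (S → B) → K) (hf : ∀ a b, κ (τ b) = κ a →
      der (Matrix.single a (τ b) (1 : K) - Matrix.single b (τ a) 1) f = 0) (t : S → ι) :
    (fun J => if κ ∘ J = t then f J else 0) ∈ InvG κ τ (jk K κ τ) S t := by
  refine ⟨fun b c hbc I => ?_, fun I hI k => ?_⟩
  · have h0 := congrFun (hf c b hbc) I
    rw [der_single, Pi.zero_apply] at h0
    have hj : jk K κ τ c = - jk K κ τ b := by
      unfold jk
      rw [← jz_cls hκτ hbc, jz_tau hτ hκ]
      push_cast
      ring
    have hcb : κ b = κ (τ c) := by
      have := hκτ _ _ hbc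
      rwa [hτ] at this
    by_cases hI : κ ∘ I = t
    · have h1 : ∀ k, JJ τ (jk K κ τ) b (I k) * (if κ ∘ update I k c = t then f (update I k c) else 0)
          + JJ τ (jk K κ τ) c (I k) * (if κ ∘ update I k b = t then f (update I k b) else 0) =
          jk K κ τ b * ((if I k = τ b then f (update I k c) else 0) -
            (if I k = τ c then f (update I k b) else 0)) := by
        intro k
        unfold JJ
        by_cases hb : I k = τ b
        · rw [if_pos hb, if_pos hb, comp_update κ I k c (by rw [hb, hbc]), if_pos hI]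
          by_cases hc : I k = τ c
          · rw [if_pos hc, if_pos hc, comp_update κ I k b (by rw [hc, hcb]), if_pos hI, hj]
            ring
          · rw [if_neg hc, if_neg hc]
            ring
        · rw [if_neg hb, if_neg hb]
          by_cases hc : I k = τ c
          · rw [if_pos hc, if_pos hc, comp_update κ I k b (by rw [hc, hcb]), if_pos hI, hj]
            ring
          · rw [if_neg hc, if_neg hc]
            ring
      rw [Finset.sum_congr rfl (fun k _ => h1 k), ← Finset.mul_sum, h0, mul_zero]
    · refine Finset.sum_eq_zero fun k _ => ?_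
      unfold JJ
      beta_reduce
      by_cases hb : I k = τ b
      · rw [if_pos hb, comp_update κ I k c (by rw [hb, hbc]), if_neg hI]
        by_cases hc : I k = τ c
        · rw [if_pos hc, comp_update κ I k b (by rw [hc, hcb]), if_neg hI]
          ring
        · rw [if_neg hc]
          ring
      · rw [if_neg hb]
        by_cases hc : I k = τ c
        · rw [if_pos hc, comp_update κ I k b (by rw [hc, hcb]), if_neg hI]
          ring
        · rw [if_neg hc]
          ring
  · by_cases h : κ ∘ I = t
    · exact congrFun h k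
    · exfalso
      exact hI (if_neg h)

/-- the number of variables is even -/
theorem even_card {κ : B → ι} {τ : B → B} (hτ : ∀ a, τ (τ a) = a) (hκ : ∀ a, κ (τ a) ≠ κ a)
    {S : Type} [Fintype S] [DecidableEq S] (f : (S → B) → K) (hf : ∀ a b, κ (τ b) = κ a →
      der (Matrix.single a (τ b) (1 : K) - Matrix.single b (τ a) 1) f = 0) (hf0 : f ≠ 0) :
    ∃ m, Fintype.card S = 2 * m := by
  obtain ⟨J, hJ⟩ : ∃ J, f J ≠ 0 := by
    by_contra h
    push Not at h
    exact hf0 (funext h)
  have h1 : ∀ a : B, ∑ s, ((if J s = a then (1 : K) else 0) - (if J s = τ a then 1 else 0)) = 0 := by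
    intro a
    have h0 := congrFun (hf a (τ a) (by rw [hτ])) J
    rw [der_single, Pi.zero_apply, hτ] at h0
    have h2 : ∀ s, ((if J s = a then f (update J s a) else 0) -
        (if J s = τ a then f (update J s (τ a)) else 0)) =
        ((if J s = a then (1 : K) else 0) - (if J s = τ a then 1 else 0)) * f J := by
      intro s
      have e1 : ∀ x : B, J s = x → f (update J s x) = f J := by
        rintro x rfl
        rw [update_eq_self]
      by_cases ha : J s = a
      · rw [if_pos ha, if_pos ha, e1 a ha]
        by_cases hb : J s = τ a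
        · rw [if_pos hb, if_pos hb, e1 _ hb]; ring
        · rw [if_neg hb, if_neg hb]; ring
      · rw [if_neg ha, if_neg ha]
        by_cases hb : J s = τ a
        · rw [if_pos hb, if_pos hb, e1 _ hb]; ring
        · rw [if_neg hb, if_neg hb]; ring
    rw [Finset.sum_congr rfl (fun s _ => h2 s), ← Finset.sum_mul] at h0
    exact (mul_eq_zero.mp h0).resolve_right hJ
  have h3 : ∑ s, (jk K κ τ (J s)) = 0 := by
    have h4 : ∑ a, jk K κ τ a * ∑ s, ((if J s = a then (1 : K) else 0) -
        (if J s = τ a then 1 else 0)) = 2 * ∑ s, (jk K κ τ (J s)) := by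
      simp only [Finset.mul_sum]
      rw [Finset.sum_comm]
      refine Finset.sum_congr rfl fun s _ => ?_
      simp only [mul_sub, mul_ite, mul_one, mul_zero, Finset.sum_sub_distrib]
      rw [Finset.sum_ite_eq, if_pos (Finset.mem_univ _)]
      have h5 : ∑ a, (if J s = τ a then jk K κ τ a else 0) = jk K κ τ (τ (J s)) := by
        rw [Finset.sum_eq_single (τ (J s))]
        · rw [if_pos (by rw [hτ])]
        · intro b _ hb
          rw [if_neg]
          intro h
          exact hb (by rw [h, hτ])
        · intro h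
          exact absurd (Finset.mem_univ _) h
      rw [h5]
      unfold jk
      rw [jz_tau hτ hκ]
      push_cast
      ring
    rw [Finset.sum_congr rfl (fun a _ => by rw [h1 a, mul_zero]), Finset.sum_const_zero] at h4
    have := mul_eq_zero.mp h4.symm
    exact this.resolve_left two_ne_zero
  have h6 : ∑ s, jz κ τ (J s) = 0 := by
    unfold jk at h3
    exact_mod_cast h3
  have h7 : (2 : ℤ) ∣ (Fintype.card S : ℤ) := by
    have h8 : (Fintype.card S : ℤ) = ∑ s, (1 - jz κ τ (J s)) := by
      rw [Finset.sum_sub_distrib, h6]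
      simp
    rw [h8]
    refine Finset.dvd_sum fun s _ => ?_
    rcases jz_odd κ τ (J s) with h | h <;> rw [h] <;> norm_num
  have h9 : 2 ∣ Fintype.card S := by exact_mod_cast h7
  exact h9

/-- products of forms in two variables -/
theorem prod_mem (𝒮 : Sys K B) (m : ℕ) : ∀ (g : Fin m → (Fin 2 → B) → K),
    (∀ s, g s ∈ 𝒮.Alg (Fin 2)) →
    (fun J : Fin m × Fin 2 → B => ∏ s, g s (fun j => J (s, j))) ∈ 𝒮.Alg (Fin m × Fin 2) := by
  induction m with
  | zero =>
    intro g _
    have h1 := 𝒮.re (Equiv.equivOfIsEmpty Empty (Fin 0 × Fin 2)) 𝒮.one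
    convert h1 using 1
    funext J
    rw [Fin.prod_univ_zero]
  | succ m ih =>
    intro g hg
    have h1 := ih (fun s => g s.succ) (fun s => hg _)
    have h2 := 𝒮.mul (hg 0) h1
    let E : Fin 2 ⊕ (Fin m × Fin 2) ≃ Fin (m + 1) × Fin 2 :=
      { toFun := Sum.elim (fun j => (0, j)) (fun p => (p.1.succ, p.2))
        invFun := fun p => Fin.cases (motive := fun _ => Fin 2 ⊕ (Fin m × Fin 2))
          (Sum.inl p.2) (fun s => Sum.inr (s, p.2)) p.1
        left_inv := by
          rintro (j | ⟨s, j⟩)
          · rfl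
          · rfl
        right_inv := by
          rintro ⟨s, j⟩
          refine Fin.cases ?_ (fun s => ?_) s
          · rfl
          · rfl }
    have h3 := 𝒮.re E h2
    convert h3 using 1
    funext J
    rw [Fin.prod_univ_succ]
    rfl

end P9aux

open P9aux Pool.Agent.H204R3.SP Pool.Agent.H204R3.GP

section sys

variable {K : Type} [Field K] [CharZero K] {B C : Type} [Fintype B] [DecidableEq B] [Fintype C]
  [DecidableEq C] {ι : Type} [DecidableEq ι]

/-- P9 the first fundamental theorem for products of general linear groups -/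
theorem fft_cm (𝒮 : Sys K B) (κ : B → ι) (τ : B → B) (hτ : ∀ a, τ (τ a) = a)
    (hκ : ∀ a, κ (τ a) ≠ κ a) (hκτ : ∀ a b, κ a = κ b → κ (τ a) = κ (τ b))
    (h2 : ∀ i, (fun J : Fin 2 → B => if κ (J 0) = i ∧ J 1 = τ (J 0) then (1 : K) else 0) ∈
      𝒮.Alg (Fin 2)) (S : Type) [Fintype S] [DecidableEq S] (f : (S → B) → K)
    (hf : ∀ a b, κ (τ b) = κ a →
      der (Matrix.single a (τ b) (1 : K) - Matrix.single b (τ a) 1) f = 0) : f ∈ 𝒮.Alg S := by
  classical
  by_cases hf0 : f = 0
  · rw [hf0]; exact Submodule.zero_mem _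
  obtain ⟨m, hm⟩ := even_card hτ hκ f hf hf0
  have hdec : f = ∑ c ∈ (univ : Finset (S → B)).image (fun J => κ ∘ J),
      (fun J => if κ ∘ J = c then f J else 0) := by
    funext J
    rw [Finset.sum_apply, Finset.sum_eq_single (κ ∘ J)]
    · rw [if_pos rfl]
    · intro c _ hc
      rw [if_neg (Ne.symm hc)]
    · intro hn
      exact absurd (Finset.mem_image_of_mem _ (Finset.mem_univ J)) hn
  rw [hdec]
  refine Submodule.sum_mem _ fun c _ => ?_
  have h3 := fftG (Ω := K) (cls := κ) (inv := τ) (jj := jk K κ τ) hτ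
    (fun x => by unfold jk; rw [jz_tau hτ hκ]; push_cast; rfl)
    (fun x => by
      unfold jk
      rcases jz_odd κ τ x with h | h <;> rw [h] <;> norm_num) hκτ m S hm c
    (mem_InvG hτ hκ hκτ f hf c)
  refine (Submodule.span_le (p := 𝒮.Alg S)).2 ?_ h3
  rintro F ⟨e, c, rfl⟩
  have h4 : ∀ s, (fun J : Fin 2 → B => if κ (J 0) = c s then JJ τ (jk K κ τ) (J 0) (J 1) else 0) ∈
      𝒮.Alg (Fin 2) := by
    intro s
    by_cases hx : ∃ x, κ x = c s
    · obtain ⟨x, hx⟩ := hx
      have h5 := Submodule.smul_mem _ (jk K κ τ x) (h2 (c s))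
      convert h5 using 1
      funext J
      rw [Pi.smul_apply, smul_eq_mul]
      unfold JJ
      by_cases h6 : κ (J 0) = c s
      · rw [if_pos h6]
        by_cases h7 : J 1 = τ (J 0)
        · rw [if_pos h7, if_pos ⟨h6, h7⟩, mul_one]
          unfold jk
          rw [jz_cls hκτ (h6.trans hx.symm)]
        · rw [if_neg h7, if_neg (fun h => h7 h.2), mul_zero]
      · rw [if_neg h6, if_neg (fun h => h6 h.1), mul_zero]
    · have h5 := Submodule.zero_mem (𝒮.Alg (Fin 2))
      convert h5 using 1
      funext J
      rw [if_neg (fun h => hx ⟨_, h⟩), Pi.zero_apply]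
  have h5 := 𝒮.re e (prod_mem 𝒮 m _ h4)
  exact h5

end sys

end

end Pool.Agent.N429.KS
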