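import Pool.Agent.N429.KS.Defs2

/-!
# The forms killed by a set of operators form a system
-/

set_option linter.unusedSectionVars false

open Matrix Finset Function

namespace Pool.Agent.N429.KS

noncomputable section

namespace L1aux

variable {K : Type} [Field K] {W : Type} [Fintype W] [DecidableEq W]

/-- the forms killed by the operators of a set -/
def inv (𝒴 : Set (Matrix W W K)) (S : Type) : Submodule K ((S → W) → K) where
  carrier := {f | ∀ (_ : Fintype S) (_ : DecidableEq S), ∀ Y ∈ 𝒴, der Y f = 0}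
  add_mem' := by
    intro f g hf hg i1 i2 Y hY
    have h1 := hf i1 i2 Y hY
    have h2 := hg i1 i2 Y hY
    funext J
    have h3 := congrFun h1 J
    have h4 := congrFun h2 J
    simp only [der, Pi.zero_apply, Pi.add_apply, mul_add, Finset.sum_add_distrib] at *
    rw [h3, h4, add_zero]
  zero_mem' := by
    intro _ _ Y _
    funext J
    simp [der]
  smul_mem' := by
    intro c f hf i1 i2 Y hY
    have h1 := hf i1 i2 Y hY
    funext J
    have h3 := congrFun h1 J
    simp only [der, Pi.zero_apply, Pi.smul_apply, smul_eq_mul, mul_left_comm _ c,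
      ← Finset.mul_sum] at *
    rw [h3, mul_zero]

theorem mem_invs (𝒴 : Set (Matrix W W K)) {S : Type} [iF : Fintype S] [iD : DecidableEq S]
    (f : (S → W) → K) : f ∈ inv 𝒴 S ↔ ∀ Y ∈ 𝒴, der Y f = 0 := by
  constructor
  · intro h
    exact h _ _
  · intro h i1 i2
    rw [Subsingleton.elim i1 iF, Subsingleton.elim i2 iD]
    exact h

theorem der_re {S T : Type} [Fintype S] [DecidableEq S] [Fintype T] [DecidableEq T] (e : S ≃ T)
    (Y : Matrix W W K) (f : (S → W) → K) (J : T → W) :
    der Y (fun J : T → W => f (J ∘ e)) J = der Y f (J ∘ e) := by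
  unfold der
  rw [← e.sum_comp]
  refine Finset.sum_congr rfl fun s _ => Finset.sum_congr rfl fun b _ => ?_
  have : update J (e s) b ∘ e = update (J ∘ e) s b := by
    funext x
    by_cases hx : x = s
    · subst hx; simp
    · have : e x ≠ e s := fun h => hx (e.injective h)
      simp [update_of_ne hx, update_of_ne this]
  rw [← this]
  rfl

theorem der_mul {S T : Type} [Fintype S] [DecidableEq S] [Fintype T] [DecidableEq T]
    (Y : Matrix W W K) (f : (S → W) → K) (g : (T → W) → K) (J : S ⊕ T → W) :
    der Y (fun J : S ⊕ T → W => f (J ∘ Sum.inl) * g (J ∘ Sum.inr)) J =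
      der Y f (J ∘ Sum.inl) * g (J ∘ Sum.inr) + f (J ∘ Sum.inl) * der Y g (J ∘ Sum.inr) := by
  unfold der
  rw [Fintype.sum_sum_type, Finset.sum_mul, Finset.mul_sum]
  congr 1
  · refine Finset.sum_congr rfl fun s _ => ?_
    rw [Finset.sum_mul]
    refine Finset.sum_congr rfl fun b _ => ?_
    have e1 : update J (Sum.inl s) b ∘ Sum.inl = update (J ∘ Sum.inl) s b := by
      funext x
      by_cases hx : x = s
      · subst hx; simp
      · simp [update_of_ne hx]
    have e2 : update J (Sum.inl s) b ∘ Sum.inr = J ∘ Sum.inr := by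
      funext x
      simp
    show Y b (J (Sum.inl s)) * (f (update J (Sum.inl s) b ∘ Sum.inl) *
      g (update J (Sum.inl s) b ∘ Sum.inr)) = Y b (J (Sum.inl s)) * _ * _
    rw [e1, e2, mul_assoc]
  · refine Finset.sum_congr rfl fun s _ => ?_
    rw [Finset.mul_sum]
    refine Finset.sum_congr rfl fun b _ => ?_
    have e1 : update J (Sum.inr s) b ∘ Sum.inr = update (J ∘ Sum.inr) s b := by
      funext x
      by_cases hx : x = s
      · subst hx; simp
      · simp [update_of_ne hx]
    have e2 : update J (Sum.inr s) b ∘ Sum.inl = J ∘ Sum.inl := by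
      funext x
      simp
    show Y b (J (Sum.inr s)) * (f (update J (Sum.inr s) b ∘ Sum.inl) *
      g (update J (Sum.inr s) b ∘ Sum.inr)) = _ * (Y b (J (Sum.inr s)) * _)
    rw [e1, e2]
    ring

theorem der_con {R : Matrix W W K} {Y : Matrix W W K} (h : Y * R + R * Yᵀ = 0) {S : Type}
    [Fintype S] [DecidableEq S] (f : (S ⊕ Fin 2 → W) → K) (J : S → W) :
    der Y (fun J : S → W => ∑ p, ∑ r, R p r * f (Sum.elim J ![p, r])) J =
      ∑ p, ∑ r, R p r * der Y f (Sum.elim J ![p, r]) := by
  have h1 : ∀ p r, der Y f (Sum.elim J ![p, r]) =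
      (∑ s, ∑ b, Y b (J s) * f (Sum.elim (update J s b) ![p, r])) +
      ((∑ b, Y b p * f (Sum.elim J ![b, r])) + ∑ b, Y b r * f (Sum.elim J ![p, b])) := by
    intro p r
    unfold der
    rw [Fintype.sum_sum_type, Fin.sum_univ_two]
    congr 1
    · refine Finset.sum_congr rfl fun s _ => Finset.sum_congr rfl fun b _ => ?_
      rw [Sum.update_elim_inl]
      rfl
    · congr 1
      · refine Finset.sum_congr rfl fun b _ => ?_
        have : update ![p, r] 0 b = ![b, r] := by
          funext i; fin_cases i <;> simp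
        rw [Sum.update_elim_inr, this]
        rfl
      · refine Finset.sum_congr rfl fun b _ => ?_
        have : update ![p, r] 1 b = ![p, b] := by
          funext i; fin_cases i <;> simp
        rw [Sum.update_elim_inr, this]
        rfl
  have h2 : ∑ p, ∑ r, R p r * ((∑ b, Y b p * f (Sum.elim J ![b, r])) +
      ∑ b, Y b r * f (Sum.elim J ![p, b])) = 0 := by
    have e1 : ∑ p, ∑ r, R p r * (∑ b, Y b p * f (Sum.elim J ![b, r])) =
        ∑ b, ∑ r, (Y * R) b r * f (Sum.elim J ![b, r]) := by
      simp only [Matrix.mul_apply, Finset.sum_mul, Finset.mul_sum]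
      rw [Finset.sum_comm]
      rw [Finset.sum_comm (s := univ) (t := univ) (f := fun b r => ∑ j, Y b j * R j r *
        f (Sum.elim J ![b, r]))]
      refine Finset.sum_congr rfl fun r _ => ?_
      rw [Finset.sum_comm]
      refine Finset.sum_congr rfl fun b _ => Finset.sum_congr rfl fun p _ => ?_
      ring
    have e2 : ∑ p, ∑ r, R p r * (∑ b, Y b r * f (Sum.elim J ![p, b])) =
        ∑ p, ∑ b, (R * Yᵀ) p b * f (Sum.elim J ![p, b]) := by
      simp only [Matrix.mul_apply, Matrix.transpose_apply, Finset.sum_mul, Finset.mul_sum]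
      refine Finset.sum_congr rfl fun p _ => ?_
      rw [Finset.sum_comm]
      refine Finset.sum_congr rfl fun b _ => Finset.sum_congr rfl fun r _ => ?_
      ring
    simp only [mul_add, Finset.sum_add_distrib]
    rw [e1, e2, ← Finset.sum_add_distrib]
    refine Finset.sum_eq_zero fun b _ => ?_
    rw [← Finset.sum_add_distrib]
    refine Finset.sum_eq_zero fun r _ => ?_
    have := congrFun (congrFun h b) r
    rw [Matrix.add_apply, Matrix.zero_apply] at this
    rw [← add_mul, this, zero_mul]
  have h3 : ∑ p, ∑ r, R p r * der Y f (Sum.elim J ![p, r]) =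
      ∑ p, ∑ r, R p r * (∑ s, ∑ b, Y b (J s) * f (Sum.elim (update J s b) ![p, r])) := by
    have e : ∀ p r, R p r * der Y f (Sum.elim J ![p, r]) =
        R p r * (∑ s, ∑ b, Y b (J s) * f (Sum.elim (update J s b) ![p, r])) +
        R p r * ((∑ b, Y b p * f (Sum.elim J ![b, r])) + ∑ b, Y b r * f (Sum.elim J ![p, b])) := by
      intro p r
      rw [h1, mul_add]
    simp only [e, Finset.sum_add_distrib]
    rw [h2, add_zero]
  rw [h3]
  unfold der
  simp only [Finset.mul_sum]
  calc ∑ s, ∑ b, ∑ p, ∑ r, Y b (J s) * (R p r * f (Sum.elim (update J s b) ![p, r]))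
      = ∑ s, ∑ p, ∑ r, ∑ b, Y b (J s) * (R p r * f (Sum.elim (update J s b) ![p, r])) := by
        refine Finset.sum_congr rfl fun s _ => ?_
        rw [Finset.sum_comm]
        refine Finset.sum_congr rfl fun p _ => ?_
        rw [Finset.sum_comm]
    _ = ∑ p, ∑ r, ∑ s, ∑ b, Y b (J s) * (R p r * f (Sum.elim (update J s b) ![p, r])) := by
        rw [Finset.sum_comm]
        refine Finset.sum_congr rfl fun p _ => ?_
        rw [Finset.sum_comm]
    _ = _ := by
        refine Finset.sum_congr rfl fun p _ => Finset.sum_congr rfl fun r _ =>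
          Finset.sum_congr rfl fun s _ => Finset.sum_congr rfl fun b _ => ?_
        ring

end L1aux

open L1aux in
/-- L1 the forms killed by a set of operators are a system -/
theorem exists_inv {K : Type} [Field K] {W : Type} [Fintype W] [DecidableEq W] (R : Matrix W W K)
    (𝒴 : Set (Matrix W W K)) (h : ∀ Y ∈ 𝒴, Y * R + R * Yᵀ = 0) : ∃ 𝒥 : Cyc K W R,
    ∀ (S : Type) [Fintype S] [DecidableEq S] (f : (S → W) → K),
      f ∈ 𝒥.Alg S ↔ ∀ Y ∈ 𝒴, der Y f = 0 := by
  classical
  refine ⟨⟨⟨inv 𝒴, ?_, ?_, ?_⟩, ?_⟩, fun S _ _ f => mem_invs 𝒴 f⟩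
  · rw [mem_invs]
    intro Y _
    funext J
    simp [der]
  · intro S T _ _ e f hf
    have := Fintype.ofFinite S
    have := Fintype.ofFinite T
    rw [mem_invs] at hf ⊢
    intro Y hY
    funext J
    rw [der_re, hf Y hY]
    rfl
  · intro S T _ _ f g hf hg
    have := Fintype.ofFinite S
    have := Fintype.ofFinite T
    rw [mem_invs] at hf hg ⊢
    intro Y hY
    funext J
    rw [der_mul, hf Y hY, hg Y hY]
    simp
  · intro S _ f hf
    have := Fintype.ofFinite S
    change f ∈ inv 𝒴 (S ⊕ Fin 2) at hf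
    change _ ∈ inv 𝒴 S
    rw [mem_invs] at hf ⊢
    intro Y hY
    funext J
    rw [der_con (h Y hY), hf Y hY]
    simp

end

end Pool.Agent.N429.KS
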