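import Pool.Agent.N429.KS.Defs2
import Pool.Agent.N429.KS.K9
import Pool.Agent.N429.KS.K10a

/-!
# Z10, Z11: structure of the Lie algebra of the family (helper568)
-/

set_option autoImplicit false
set_option linter.unusedSectionVars false

open Matrix Finset Function

namespace Pool.Agent.N429.KS

noncomputable section

namespace Z10

/-! ### derivations of extensions by zero -/

section ext

variable {K : Type} [Field K] {W : Type} [Fintype W] [DecidableEq W]

theorem der_out {T : Type} [Fintype T] [DecidableEq T] (P : Matrix W W K) (F : (T → W) → K)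
    (good : T → Set W) (hF : ∀ L, (∃ t, L t ∉ good t) → F L = 0)
    (hP : ∀ t, ∀ w ∈ good t, ∀ w', w' ∉ good t → P w w' = 0) (L : T → W)
    (hL : ∃ t, L t ∉ good t) : der P F L = 0 := by
  obtain ⟨t₀, ht₀⟩ := hL
  unfold der
  refine Finset.sum_eq_zero fun t _ => Finset.sum_eq_zero fun w _ => ?_
  by_cases h : t = t₀
  · subst h
    by_cases hw : w ∈ good t
    · rw [hP t w hw _ ht₀, zero_mul]
    · rw [hF _ ⟨t, by rwa [update_self]⟩, mul_zero]
  · rw [hF _ ⟨t₀, by rwa [update_of_ne (Ne.symm h)]⟩, mul_zero]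

variable {B C : Type} [Fintype B] [DecidableEq B] [Fintype C] [DecidableEq C]

theorem comp_inj (u : B → W) (hu : Injective u) {S : Type} :
    Injective (fun J : S → B => u ∘ J) := fun J J' h => by
  funext s
  exact hu (congrFun h s)

theorem extV_apply (u : B → W) (hu : Injective u) {S : Type} (f : (S → B) → K) (J : S → B) :
    extV u f (u ∘ J) = f J :=
  (comp_inj u hu).extend_apply f 0 J

theorem extV_out (u : B → W) {S : Type} (f : (S → B) → K) (L : S → W)
    (hL : ∃ s, L s ∉ Set.range u) : extV u f L = 0 := by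
  obtain ⟨s, hs⟩ := hL
  unfold extV
  rw [extend_apply']
  · rfl
  · rintro ⟨J, hJ⟩
    exact hs ⟨J s, congrFun hJ s⟩

theorem der_extV (u : B → W) (hu : Injective u) (P : Matrix W W K) (Y : Matrix B B K)
    (h1 : ∀ b c, P (u b) (u c) = Y b c) (h2 : ∀ b w, w ∉ Set.range u → P (u b) w = 0)
    {S : Type} [Fintype S] [DecidableEq S] (f : (S → B) → K) :
    der P (extV u f) = extV u (der Y f) := by
  funext L
  by_cases hL : ∃ s, L s ∉ Set.range u
  · rw [extV_out u _ L hL]
    refine der_out P _ (fun _ => Set.range u) (fun L hL => extV_out u f L hL) ?_ L hL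
    rintro _ _ ⟨b, rfl⟩ w' hw'
    exact h2 b w' hw'
  · push Not at hL
    choose J hJ using hL
    obtain rfl : u ∘ J = L := funext hJ
    rw [extV_apply u hu]
    unfold der
    refine Finset.sum_congr rfl fun s _ => ?_
    symm
    refine Fintype.sum_of_injective u hu _ _ ?_ ?_
    · intro w hw
      rw [extV_out u f _ ⟨s, by rwa [update_self]⟩, mul_zero]
    · intro b
      have h3 : update (u ∘ J) s (u b) = u ∘ update J s b := (comp_update u J s b).symm
      rw [h3, extV_apply u hu, Function.comp_apply, h1]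

/-- the extension by zero of a form in the variables of `B` and two variables of `C` -/
def e3 (u : B → W) (v : C → W) {S : Type} (G : (S → B) → Matrix C C K) :
    (S ⊕ Fin 2 → W) → K :=
  Function.extend (fun p : (S → B) × C × C => Sum.elim (u ∘ p.1) ![v p.2.1, v p.2.2])
    (fun p => G p.1 p.2.1 p.2.2) 0

theorem extC_eq (u : B → W) (v : C → W) (E : Matrix C C K) {S : Type}
    (M : (S → B) → Matrix C C K) : extC u v E M = e3 u v (fun J => (M J)ᵀ * E) := rfl

theorem e3_inj (u : B → W) (v : C → W) (hu : Injective u) (hv : Injective v) {S : Type} :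
    Injective (fun p : (S → B) × C × C =>
      (Sum.elim (u ∘ p.1) ![v p.2.1, v p.2.2] : S ⊕ Fin 2 → W)) := by
  rintro ⟨J, c, d⟩ ⟨J', c', d'⟩ h
  have h1 : J = J' := by
    funext s
    exact hu (congrFun h (Sum.inl s))
  have h2 : c = c' := hv (congrFun h (Sum.inr 0))
  have h3 : d = d' := hv (congrFun h (Sum.inr 1))
  rw [h1, h2, h3]

theorem e3_apply (u : B → W) (v : C → W) (hu : Injective u) (hv : Injective v) {S : Type}
    (G : (S → B) → Matrix C C K) (J : S → B) (c d : C) :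
    e3 u v G (Sum.elim (u ∘ J) ![v c, v d]) = G J c d :=
  (e3_inj u v hu hv).extend_apply (fun p => G p.1 p.2.1 p.2.2) 0 (J, c, d)

/-- the permitted values -/
def good (u : B → W) (v : C → W) {S : Type} : S ⊕ Fin 2 → Set W :=
  Sum.elim (fun _ => Set.range u) fun _ => Set.range v

theorem e3_out (u : B → W) (v : C → W) {S : Type} (G : (S → B) → Matrix C C K)
    (L : S ⊕ Fin 2 → W) (hL : ∃ t, L t ∉ good u v t) : e3 u v G L = 0 := by
  obtain ⟨t, ht⟩ := hL
  unfold e3
  rw [extend_apply']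
  · rfl
  · rintro ⟨⟨J, c, d⟩, hJ⟩
    apply ht
    rcases t with s | t
    · exact ⟨J s, congrFun hJ (Sum.inl s)⟩
    · fin_cases t
      · exact ⟨c, congrFun hJ (Sum.inr 0)⟩
      · exact ⟨d, congrFun hJ (Sum.inr 1)⟩

theorem e3_zero (u : B → W) (v : C → W) (hu : Injective u) (hv : Injective v) {S : Type} :
    e3 u v (0 : (S → B) → Matrix C C K) = 0 := by
  funext L
  unfold e3
  by_cases h : ∃ p : (S → B) × C × C,
    (Sum.elim (u ∘ p.1) ![v p.2.1, v p.2.2] : S ⊕ Fin 2 → W) = L
  · obtain ⟨p, rfl⟩ := h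
    exact (e3_inj u v hu hv).extend_apply _ _ p
  · rw [extend_apply' _ _ _ h]

theorem extV_zero (u : B → W) (hu : Injective u) {S : Type} :
    extV u (0 : (S → B) → K) = 0 := by
  funext L
  unfold extV
  by_cases h : ∃ p : S → B, u ∘ p = L
  · obtain ⟨p, rfl⟩ := h
    exact (comp_inj u hu).extend_apply _ _ p
  · rw [extend_apply' _ _ _ h]

theorem der_e3 (u : B → W) (v : C → W) (hu : Injective u) (hv : Injective v) (P : Matrix W W K)
    (Y : Matrix B B K) (Z : Matrix C C K)
    (h1 : ∀ b c, P (u b) (u c) = Y b c) (h2 : ∀ b w, w ∉ Set.range u → P (u b) w = 0)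
    (h3 : ∀ b c, P (v b) (v c) = Z b c) (h4 : ∀ b w, w ∉ Set.range v → P (v b) w = 0)
    {S : Type} [Fintype S] [DecidableEq S] (G : (S → B) → Matrix C C K) :
    der P (e3 u v G) = e3 u v (fun J => (∑ s, ∑ b, Y b (J s) • G (update J s b)) +
      (Zᵀ * G J + G J * Z)) := by
  funext L
  by_cases hL : ∃ t, L t ∉ good u v t
  · rw [e3_out u v _ L hL]
    refine der_out P _ (good u v) (fun L hL => e3_out u v G L hL) ?_ L hL
    rintro (s | t)
    · rintro _ ⟨b, rfl⟩ w' hw'
      exact h2 b w' hw'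
    · rintro _ ⟨b, rfl⟩ w' hw'
      exact h4 b w' hw'
  · push Not at hL
    have hl : ∀ s, ∃ b, u b = L (Sum.inl s) := fun s => hL (Sum.inl s)
    choose J hJ using hl
    obtain ⟨c, hc⟩ : ∃ c, v c = L (Sum.inr 0) := hL (Sum.inr 0)
    obtain ⟨d, hd⟩ : ∃ c, v c = L (Sum.inr 1) := hL (Sum.inr 1)
    obtain rfl : Sum.elim (u ∘ J) ![v c, v d] = L := by
      funext t
      rcases t with s | t
      · exact hJ s
      · fin_cases t
        · exact hc
        · exact hd
    rw [e3_apply u v hu hv]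
    unfold der
    rw [Fintype.sum_sum_type, Fin.sum_univ_two, Matrix.add_apply, Matrix.add_apply]
    refine congrArg₂ (· + ·) ?_ (congrArg₂ (· + ·) ?_ ?_)
    · rw [Matrix.sum_apply]
      refine Finset.sum_congr rfl fun s _ => ?_
      rw [Matrix.sum_apply]
      symm
      refine Fintype.sum_of_injective u hu _ _ ?_ ?_
      · intro w hw
        rw [e3_out u v G _ ⟨Sum.inl s, by rwa [update_self]⟩, mul_zero]
      · intro b
        have h5 : update (Sum.elim (u ∘ J) ![v c, v d]) (Sum.inl s) (u b) =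
            Sum.elim (u ∘ update J s b) ![v c, v d] := by
          rw [Sum.update_elim_inl, comp_update]
        rw [h5, e3_apply u v hu hv, Matrix.smul_apply, smul_eq_mul, Sum.elim_inl,
          Function.comp_apply, h1]
    · rw [Matrix.mul_apply]
      symm
      refine Fintype.sum_of_injective v hv _ _ ?_ ?_
      · intro w hw
        rw [e3_out u v G _ ⟨Sum.inr 0, by rwa [update_self]⟩, mul_zero]
      · intro b
        have h5 : update (Sum.elim (u ∘ J) ![v c, v d]) (Sum.inr 0) (v b) =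
            Sum.elim (u ∘ J) ![v b, v d] := by
          rw [Sum.update_elim_inr]
          congr 1
          funext t
          fin_cases t <;> rfl
        rw [h5, e3_apply u v hu hv, Matrix.transpose_apply]
        congr 1
        exact (h3 b c).symm
    · rw [Matrix.mul_apply]
      symm
      refine Fintype.sum_of_injective v hv _ _ ?_ ?_
      · intro w hw
        rw [e3_out u v G _ ⟨Sum.inr 1, by rwa [update_self]⟩, mul_zero]
      · intro b
        have h5 : update (Sum.elim (u ∘ J) ![v c, v d]) (Sum.inr 1) (v b) =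
            Sum.elim (u ∘ J) ![v c, v b] := by
          rw [Sum.update_elim_inr]
          congr 1
          funext t
          fin_cases t <;> rfl
        rw [h5, e3_apply u v hu hv, mul_comm]
        congr 1
        exact (h3 b d).symm

end ext

section cplx

theorem cx_extend {A A' : Type} (g : A → A') (f : A → ℚ) :
    cx (Function.extend g f 0) = Function.extend g (cx f) 0 := by
  classical
  funext a
  by_cases h : ∃ b, g b = a
  · have e1 : Function.extend g f 0 a = f (Classical.choose h) := by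
      rw [Function.extend_def, dif_pos h]
    have e2 : Function.extend g (cx f) 0 a = cx f (Classical.choose h) := by
      rw [Function.extend_def, dif_pos h]
    rw [e2]
    unfold cx
    rw [e1]
  · rw [extend_apply' _ _ _ h]
    unfold cx
    rw [extend_apply' _ _ _ h]
    simp

theorem cx_extV {B W : Type} (u : B → W) {S : Type} (f : (S → B) → ℚ) :
    cx (extV u f) = extV u (cx f) := cx_extend _ _

theorem cx_e3 {B C W : Type} [Fintype W] [DecidableEq W] [Fintype B] [DecidableEq B] [Fintype C]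
    [DecidableEq C] (u : B → W) (v : C → W) {S : Type} (G : (S → B) → Matrix C C ℚ) :
    cx (e3 u v G) = e3 u v (fun J => cm (G J)) := cx_extend _ _

end cplx

/-! ### the Clifford action -/

section cl

variable {B C : Type} [Fintype B] [DecidableEq B] [Fintype C] [DecidableEq C]

theorem phi_cliff (X : K3Type B) (Φ : B → Matrix C C ℚ) (hΦ : Cliff X.q Φ) (x y : B → ℂ) :
    K3Type.phi Φ x * K3Type.phi Φ y + K3Type.phi Φ y * K3Type.phi Φ x =
      (2 * (x ⬝ᵥ (cm X.q *ᵥ y))) • (1 : Matrix C C ℂ) := by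
  have h1 : ∀ i j, cm (Φ i) * cm (Φ j) + cm (Φ j) * cm (Φ i) =
      (2 * cm X.q i j) • (1 : Matrix C C ℂ) := by
    intro i j
    rw [← K9.cm_mul, ← K9.cm_mul, ← K9.cm_add, hΦ i j]
    ext a b
    by_cases hab : a = b
    · simp [cm, hab]
    · simp [cm, hab]
  unfold K3Type.phi
  have e1 : (∑ i, x i • cm (Φ i)) * (∑ j, y j • cm (Φ j)) =
      ∑ i, ∑ j, (x i * y j) • (cm (Φ i) * cm (Φ j)) := by
    rw [Finset.sum_mul]
    refine Finset.sum_congr rfl fun i _ => ?_
    rw [Finset.mul_sum]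
    refine Finset.sum_congr rfl fun j _ => ?_
    rw [smul_mul_smul_comm]
  have e2 : (∑ j, y j • cm (Φ j)) * (∑ i, x i • cm (Φ i)) =
      ∑ i, ∑ j, (x i * y j) • (cm (Φ j) * cm (Φ i)) := by
    rw [Finset.mul_sum]
    refine Finset.sum_congr rfl fun i _ => ?_
    rw [Finset.sum_mul]
    refine Finset.sum_congr rfl fun j _ => ?_
    rw [smul_mul_smul_comm, mul_comm (y j)]
  rw [e1, e2, ← Finset.sum_add_distrib]
  simp_rw [← Finset.sum_add_distrib, ← smul_add, h1, smul_smul, ← Finset.sum_smul]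
  congr 1
  simp only [dotProduct, Matrix.mulVec, Finset.mul_sum]
  refine Finset.sum_congr rfl fun i _ => Finset.sum_congr rfl fun j _ => ?_
  ring

theorem phi_add (Φ : B → Matrix C C ℚ) (x y : B → ℂ) :
    K3Type.phi Φ (x + y) = K3Type.phi Φ x + K3Type.phi Φ y := by
  unfold K3Type.phi
  simp_rw [Pi.add_apply, add_smul, Finset.sum_add_distrib]

theorem phi_smul (Φ : B → Matrix C C ℚ) (r : ℂ) (x : B → ℂ) :
    K3Type.phi Φ (r • x) = r • K3Type.phi Φ x := by
  unfold K3Type.phi
  simp_rw [Pi.smul_apply, smul_eq_mul, mul_smul, Finset.smul_sum]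

theorem phi_sub (Φ : B → Matrix C C ℚ) (x y : B → ℂ) :
    K3Type.phi Φ (x - y) = K3Type.phi Φ x - K3Type.phi Φ y := by
  unfold K3Type.phi
  simp_rw [Pi.sub_apply, sub_smul, Finset.sum_sub_distrib]

theorem ht_phi (X : K3Type B) (Φ : B → Matrix C C ℚ) (hΦ : Cliff X.q Φ) (v : B → ℂ) :
    X.ht Φ * K3Type.phi Φ v - K3Type.phi Φ v * X.ht Φ = K3Type.phi Φ (X.h *ᵥ v) := by
  have hN : X.N ≠ 0 := K10.N_ne X
  rw [K10.h_mulVec, phi_smul, phi_sub, phi_smul, phi_smul, K10.dot_cm, K10.dot_cm]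
  have hx := phi_cliff X Φ hΦ X.ω v
  have hy := phi_cliff X Φ hΦ (star X.ω) v
  unfold K3Type.ht
  generalize X.ω ⬝ᵥ (cm X.q *ᵥ v) = a at *
  generalize star X.ω ⬝ᵥ (cm X.q *ᵥ v) = b at *
  generalize K3Type.phi Φ X.ω = F at *
  generalize K3Type.phi Φ (star X.ω) = G at *
  generalize K3Type.phi Φ v = V at *
  rw [Matrix.smul_mul, Matrix.mul_smul, ← smul_sub]
  have hF : F * V = (2 * a) • (1 : Matrix C C ℂ) - V * F := eq_sub_of_add_eq hx
  have hG : G * V = (2 * b) • (1 : Matrix C C ℂ) - V * G := eq_sub_of_add_eq hy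
  have e1 : F * G * V = (2 * b) • F - (2 * a) • G + V * (F * G) := by
    rw [mul_assoc, hG, mul_sub, Matrix.mul_smul, mul_one, ← mul_assoc F V G, hF, sub_mul,
      Matrix.smul_mul, one_mul, mul_assoc V F G]
    abel
  have e2 : G * F * V = (2 * a) • G - (2 * b) • F + V * (G * F) := by
    rw [mul_assoc, hF, mul_sub, Matrix.mul_smul, mul_one, ← mul_assoc G V F, hG, sub_mul,
      Matrix.smul_mul, one_mul, mul_assoc V G F]
    abel
  have e3 : (F * G - G * F) * V - V * (F * G - G * F) = (4 : ℂ) • (b • F - a • G) := by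
    rw [sub_mul, mul_sub, e1, e2]
    module
  rw [e3, smul_smul]
  congr 1
  field_simp

end cl

section family

variable {I : Type} [Fintype I] [DecidableEq I] {B C : I → Type} [∀ i, Fintype (B i)]
  [∀ i, DecidableEq (B i)] [∀ i, Fintype (C i)] [∀ i, DecidableEq (C i)]

theorem iv_inj (i : I) : Injective (iv i : B i → Tot B C) := by
  intro b b' h
  unfold iv at h
  simpa using h

theorem ih_inj (i : I) : Injective (ih i : C i → Tot B C) := by
  intro b b' h
  unfold ih at h
  simpa using h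

variable {K : Type} [Field K]

theorem pl_vv (Y : ∀ i, Matrix (B i) (B i) K) (Z : ∀ i, Matrix (C i) (C i) K) (i : I)
    (b c : B i) : placeAll Y Z (iv i b) (iv i c) = Y i b c := by
  unfold placeAll iv
  rw [blockDiagonal'_apply_eq]
  rfl

theorem pl_hh (Y : ∀ i, Matrix (B i) (B i) K) (Z : ∀ i, Matrix (C i) (C i) K) (i : I)
    (b c : C i) : placeAll Y Z (ih i b) (ih i c) = Z i b c := by
  unfold placeAll ih
  rw [blockDiagonal'_apply_eq]
  rfl

theorem pl_v0 (Y : ∀ i, Matrix (B i) (B i) K) (Z : ∀ i, Matrix (C i) (C i) K) (i : I)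
    (b : B i) (w : Tot B C) (hw : w ∉ Set.range (iv i : B i → Tot B C)) :
    placeAll Y Z (iv i b) w = 0 := by
  obtain ⟨j, w⟩ := w
  unfold placeAll iv
  by_cases h : i = j
  · subst h
    rw [blockDiagonal'_apply_eq]
    rcases w with w | w
    · exact absurd ⟨w, rfl⟩ hw
    · rfl
  · rw [blockDiagonal'_apply_ne _ _ _ h]

theorem pl_h0 (Y : ∀ i, Matrix (B i) (B i) K) (Z : ∀ i, Matrix (C i) (C i) K) (i : I)
    (b : C i) (w : Tot B C) (hw : w ∉ Set.range (ih i : C i → Tot B C)) :
    placeAll Y Z (ih i b) w = 0 := by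
  obtain ⟨j, w⟩ := w
  unfold placeAll ih
  by_cases h : i = j
  · subst h
    rw [blockDiagonal'_apply_eq]
    rcases w with w | w
    · rfl
    · exact absurd ⟨w, rfl⟩ hw
  · rw [blockDiagonal'_apply_ne _ _ _ h]

theorem der_pl_extV (Y : ∀ i, Matrix (B i) (B i) K) (Z : ∀ i, Matrix (C i) (C i) K) (i : I)
    {S : Type} [Fintype S] [DecidableEq S] (f : (S → B i) → K) :
    der (placeAll Y Z) (extV (iv i) f) = extV (iv i) (der (Y i) f) :=
  der_extV _ (iv_inj i) _ _ (pl_vv Y Z i) (pl_v0 Y Z i) f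

theorem der_pl_e3 (Y : ∀ i, Matrix (B i) (B i) K) (Z : ∀ i, Matrix (C i) (C i) K) (i : I)
    {S : Type} [Fintype S] [DecidableEq S] (G : (S → B i) → Matrix (C i) (C i) K) :
    der (placeAll Y Z) (e3 (iv i) (ih i) G) =
      e3 (iv i) (ih i) (fun J => (∑ s, ∑ b, Y i b (J s) • G (update J s b)) +
      ((Z i)ᵀ * G J + G J * Z i)) :=
  der_e3 _ _ (iv_inj i) (ih_inj i) _ _ _ (pl_vv Y Z i) (pl_v0 Y Z i) (pl_hh Y Z i)
    (pl_h0 Y Z i) G

end family

end Z10

open Z10

section family

variable {I : Type} [Fintype I] [DecidableEq I] {B C : I → Type} [∀ i, Fintype (B i)]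
  [∀ i, DecidableEq (B i)] [∀ i, Fintype (C i)] [∀ i, DecidableEq (C i)]
  (X : ∀ i, K3Type (B i)) (D : ∀ i, KSData (X i) (C i))

/-- Z11 the Kuga-Satake class and the polarizations are Hodge classes -/
theorem ksForm_hodge (i : I) : IsHodgeT X D (ksForm i (D i).E (D i).Φ) := by
  unfold IsHodgeT ksForm hT
  rw [extC_eq, cx_e3, der_pl_e3]
  have h0 : (fun J : Unit → B i =>
      (∑ s, ∑ b, (X i).h b (J s) • cm (((D i).Φ (update J s b ()))ᵀ * (D i).E)) +
      (((X i).ht (D i).Φ)ᵀ * cm (((D i).Φ (J ()))ᵀ * (D i).E) +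
        cm (((D i).Φ (J ()))ᵀ * (D i).E) * (X i).ht (D i).Φ)) = 0 := by
    funext J
    have hp := (D i).pol
    have hh := ht_phi (X i) (D i).Φ (D i).cliff (Pi.single (J ()) 1)
    have e1 : K3Type.phi (D i).Φ (Pi.single (J ()) 1) = cm ((D i).Φ (J ())) := by
      unfold K3Type.phi
      rw [Finset.sum_eq_single (J ())]
      · rw [Pi.single_eq_same, one_smul]
      · intro b _ hb
        rw [Pi.single_eq_of_ne hb, zero_smul]
      · intro h
        exact absurd (Finset.mem_univ _) h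
    have e2 : K3Type.phi (D i).Φ ((X i).h *ᵥ Pi.single (J ()) 1) =
        ∑ b, (X i).h b (J ()) • cm ((D i).Φ b) := by
      unfold K3Type.phi
      refine Finset.sum_congr rfl fun b _ => ?_
      rw [mulVec_single_one]
      rfl
    rw [e1, e2] at hh
    have e3 : (∑ s : Unit, ∑ b, (X i).h b (J s) • cm (((D i).Φ (update J s b ()))ᵀ * (D i).E)) =
        (∑ b, (X i).h b (J ()) • cm ((D i).Φ b))ᵀ * cm (D i).E := by
      rw [Fintype.sum_unique, Matrix.transpose_sum, Finset.sum_mul]
      refine Finset.sum_congr rfl fun b _ => ?_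
      have e4 : update J default b () = b := update_self _ _ _
      rw [e4, K9.cm_mul, ← K9.cm_tr, Matrix.transpose_smul, Matrix.smul_mul]
    rw [e3, ← hh, K9.cm_mul, ← K9.cm_tr]
    have e5 : cm (D i).E * (X i).ht (D i).Φ = -(((X i).ht (D i).Φ)ᵀ * cm (D i).E) :=
      eq_neg_of_add_eq_zero_right hp
    rw [Matrix.mul_assoc (cm ((D i).Φ (J ())))ᵀ, e5, Matrix.transpose_sub, Matrix.transpose_mul,
      Matrix.transpose_mul]
    show _ = (0 : Matrix (C i) (C i) ℂ)
    noncomm_ring
  have h1 := congrArg (fun G => e3 (iv i) (ih i : C i → Tot B C) G) h0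
  exact h1.trans (e3_zero _ _ (iv_inj i) (ih_inj i))

theorem endForm_hodge (i : I) (M : Matrix (C i) (C i) ℚ) (hM : (X i).IsHodgeEnd (D i).Φ M) :
    IsHodgeT X D (endForm (B := B) i (D i).E M) := by
  unfold IsHodgeT endForm hT
  rw [extC_eq, cx_e3, der_pl_e3]
  have h0 : (fun J : Empty → B i =>
      (∑ s, ∑ b, (X i).h b (J s) • cm (Mᵀ * (D i).E)) +
      (((X i).ht (D i).Φ)ᵀ * cm (Mᵀ * (D i).E) +
        cm (Mᵀ * (D i).E) * (X i).ht (D i).Φ)) = 0 := by
    funext J
    have hp := (D i).pol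
    have e5 : cm (D i).E * (X i).ht (D i).Φ = -(((X i).ht (D i).Φ)ᵀ * cm (D i).E) :=
      eq_neg_of_add_eq_zero_right hp
    have e6 : (cm M)ᵀ * ((X i).ht (D i).Φ)ᵀ = ((X i).ht (D i).Φ)ᵀ * (cm M)ᵀ := by
      rw [← Matrix.transpose_mul, ← Matrix.transpose_mul, show _ = _ from hM]
    rw [Finset.univ_eq_empty, Finset.sum_empty, zero_add, K9.cm_mul, ← K9.cm_tr, Matrix.mul_assoc (cm M)ᵀ,
      e5, Matrix.mul_neg, ← Matrix.mul_assoc (cm M)ᵀ, e6, Matrix.mul_assoc]
    exact add_neg_cancel _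
  have h1 := congrArg (fun G => e3 (iv i) (ih i : C i → Tot B C) G) h0
  exact h1.trans (e3_zero _ _ (iv_inj i) (ih_inj i))

theorem qForm_hodge (i : I) {S : Type} [Fintype S] [DecidableEq S] (f : (S → B i) → ℚ)
    (hf : (X i).IsHodge f) : IsHodgeT X D (extV (iv i : B i → Tot B C) f) := by
  unfold IsHodgeT hT
  rw [cx_extV, der_pl_extV, show der _ _ = _ from hf]
  exact extV_zero _ (iv_inj i)

theorem gT_le (i : I) (y : (∀ i, Matrix (B i) (B i) ℚ) × (∀ i, Matrix (C i) (C i) ℚ))
    (hy : y ∈ gT X D) : y.1 i ∈ (X i).gQ := by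
  intro S _ _ f hf
  have h1 := hy S _ _ _ (qForm_hodge X D i f hf)
  rw [der_pl_extV] at h1
  funext J
  have h2 := congrFun h1 (iv i ∘ J)
  rwa [extV_apply _ (iv_inj i)] at h2

theorem gT_skewE (i : I) (y : (∀ i, Matrix (B i) (B i) ℚ) × (∀ i, Matrix (C i) (C i) ℚ))
    (hy : y ∈ gT X D) : (y.2 i)ᵀ * (D i).E + (D i).E * y.2 i = 0 := by
  have h0 : (X i).IsHodgeEnd (D i).Φ 1 := by
    unfold K3Type.IsHodgeEnd
    have e : cm (1 : Matrix (C i) (C i) ℚ) = 1 :=
      Matrix.map_one _ (map_zero _) (map_one _)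
    rw [e, one_mul, mul_one]
  have h1 := hy _ _ _ _ (endForm_hodge X D i 1 h0)
  unfold endForm at h1
  rw [extC_eq, der_pl_e3] at h1
  ext c d
  have h2 := congrFun h1 (Sum.elim (iv i ∘ (Empty.elim : Empty → B i)) ![ih i c, ih i d])
  rw [e3_apply _ _ (iv_inj i) (ih_inj i)] at h2
  rw [Finset.univ_eq_empty, Finset.sum_empty, zero_add, Matrix.transpose_one, Matrix.one_mul] at h2
  exact h2

theorem gT_phi (i : I) (y : (∀ i, Matrix (B i) (B i) ℚ) × (∀ i, Matrix (C i) (C i) ℚ))
    (hy : y ∈ gT X D) (a : B i) : y.2 i * (D i).Φ a - (D i).Φ a * y.2 i =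
      ∑ b, y.1 i b a • (D i).Φ b := by
  have hE := gT_skewE X D i y hy
  have e5 : (D i).E * y.2 i = -((y.2 i)ᵀ * (D i).E) := eq_neg_of_add_eq_zero_right hE
  have h1 := hy _ _ _ _ (ksForm_hodge X D i)
  unfold ksForm at h1
  rw [extC_eq, der_pl_e3] at h1
  have h3 : (∑ b, y.1 i b a • (D i).Φ b - (y.2 i * (D i).Φ a - (D i).Φ a * y.2 i))ᵀ * (D i).E =
      0 := by
    have h4 : (∑ b, y.1 i b a • ((D i).Φ b)ᵀ) * (D i).E + ((y.2 i)ᵀ * (((D i).Φ a)ᵀ * (D i).E) +
        ((D i).Φ a)ᵀ * (D i).E * y.2 i) = 0 := by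
      ext c d
      have h2 := congrFun h1 (Sum.elim (iv i ∘ (fun _ : Unit => a)) ![ih i c, ih i d])
      rw [e3_apply _ _ (iv_inj i) (ih_inj i)] at h2
      have e3 : (∑ s : Unit, ∑ b, y.1 i b ((fun _ : Unit => a) s) •
          (((D i).Φ (update (fun _ : Unit => a) s b ()))ᵀ * (D i).E)) =
          (∑ b, y.1 i b a • ((D i).Φ b)ᵀ) * (D i).E := by
        rw [Fintype.sum_unique, Finset.sum_mul]
        refine Finset.sum_congr rfl fun b _ => ?_
        have e4 : update (fun _ : Unit => a) default b () = b := update_self _ _ _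
        rw [e4, Matrix.smul_mul]
      rw [e3] at h2
      exact h2
    rw [← h4, Matrix.mul_assoc ((D i).Φ a)ᵀ, e5, Matrix.transpose_sub, Matrix.transpose_sub,
      Matrix.transpose_mul, Matrix.transpose_mul, Matrix.transpose_sum]
    simp_rw [Matrix.transpose_smul]
    noncomm_ring
  have hu : IsUnit (D i).E.det := isUnit_iff_ne_zero.2 (D i).nondeg
  have h5 := congrArg (fun W => W * (D i).E⁻¹) h3
  simp only [Matrix.mul_assoc, Matrix.mul_nonsing_inv _ hu, Matrix.mul_one, Matrix.zero_mul] at h5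
  have h6 := congrArg Matrix.transpose h5
  rw [Matrix.transpose_transpose, Matrix.transpose_zero, sub_eq_zero] at h6
  exact h6.symm

/-- Z10 -/
theorem gTC_skew {y : (∀ i, Matrix (B i) (B i) ℂ) × (∀ i, Matrix (C i) (C i) ℂ)}
    (hy : y ∈ gTC X D) (i : I) :
    cm (X i).q * y.1 i + (y.1 i)ᵀ * cm (X i).q = 0 ∧
    cm (D i).E * y.2 i + (y.2 i)ᵀ * cm (D i).E = 0 := by
  unfold gTC at hy
  induction hy using Submodule.span_induction with
  | mem y hy =>
    obtain ⟨y, hy, rfl⟩ := hy
    constructor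
    · show cm (X i).q * cm (y.1 i) + (cm (y.1 i))ᵀ * cm (X i).q = 0
      rw [K9.cm_tr, ← K9.cm_mul, ← K9.cm_mul, ← K9.cm_add, add_comm,
        K9.gQ_skew (X i) (gT_le X D i y hy), K9.cm_zero]
    · show cm (D i).E * cm (y.2 i) + (cm (y.2 i))ᵀ * cm (D i).E = 0
      rw [K9.cm_tr, ← K9.cm_mul, ← K9.cm_mul, ← K9.cm_add, add_comm, gT_skewE X D i y hy,
        K9.cm_zero]
  | zero => constructor <;> simp
  | add y y' _ _ h1 h2 =>
    constructor
    · rw [Prod.fst_add, Pi.add_apply, Matrix.mul_add, Matrix.transpose_add, Matrix.add_mul,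
        add_add_add_comm, h1.1, h2.1, add_zero]
    · rw [Prod.snd_add, Pi.add_apply, Matrix.mul_add, Matrix.transpose_add, Matrix.add_mul,
        add_add_add_comm, h1.2, h2.2, add_zero]
  | smul c y _ h1 =>
    constructor
    · rw [Prod.smul_fst, Pi.smul_apply, Matrix.mul_smul, Matrix.transpose_smul, Matrix.smul_mul,
        ← smul_add, h1.1, smul_zero]
    · rw [Prod.smul_snd, Pi.smul_apply, Matrix.mul_smul, Matrix.transpose_smul, Matrix.smul_mul,
        ← smul_add, h1.2, smul_zero]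

theorem gTC_phi {y : (∀ i, Matrix (B i) (B i) ℂ) × (∀ i, Matrix (C i) (C i) ℂ)}
    (hy : y ∈ gTC X D) (i : I) (v : B i → ℂ) :
    y.2 i * K3Type.phi (D i).Φ v - K3Type.phi (D i).Φ v * y.2 i =
      K3Type.phi (D i).Φ (y.1 i *ᵥ v) := by
  unfold gTC at hy
  induction hy using Submodule.span_induction with
  | mem y hy =>
    obtain ⟨y, hy, rfl⟩ := hy
    show cm (y.2 i) * K3Type.phi (D i).Φ v - K3Type.phi (D i).Φ v * cm (y.2 i) =
      K3Type.phi (D i).Φ (cm (y.1 i) *ᵥ v)
    have h1 : ∀ a, cm (y.2 i) * cm ((D i).Φ a) - cm ((D i).Φ a) * cm (y.2 i) =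
        ∑ b, cm (y.1 i) b a • cm ((D i).Φ b) := by
      intro a
      rw [← K9.cm_mul, ← K9.cm_mul, ← K9.cm_sub, gT_phi X D i y hy a]
      ext c d
      simp [cm, Matrix.sum_apply]
    unfold K3Type.phi
    rw [Finset.mul_sum, Finset.sum_mul, ← Finset.sum_sub_distrib]
    simp_rw [Matrix.mul_smul, Matrix.smul_mul, ← smul_sub, h1, Finset.smul_sum, smul_smul]
    rw [Finset.sum_comm]
    refine Finset.sum_congr rfl fun b _ => ?_
    rw [← Finset.sum_smul]
    congr 1
    simp only [Matrix.mulVec, dotProduct]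
    exact Finset.sum_congr rfl fun a _ => mul_comm _ _
  | zero =>
    have h0 : K3Type.phi (D i).Φ (0 : B i → ℂ) = 0 := by
      unfold K3Type.phi
      simp
    simp [h0]
  | add y y' _ _ h1 h2 =>
    rw [Prod.fst_add, Pi.add_apply, Prod.snd_add, Pi.add_apply, Matrix.add_mulVec, phi_add, ← h1,
      ← h2, add_mul, mul_add]
    abel
  | smul c y _ h1 =>
    rw [Prod.smul_fst, Pi.smul_apply, Prod.smul_snd, Pi.smul_apply, Matrix.smul_mulVec, phi_smul,
      ← h1, Matrix.mul_smul, Matrix.smul_mul, smul_sub]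

end family

end

end Pool.Agent.N429.KS
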