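import Pool.Agent.N429.KS.R5
import Pool.Agent.N429.KS.L1
import Pool.Agent.N429.KS.Z10

/-!
# Absolute Hodge classes on the tensor powers of motives of K3 type
-/

set_option linter.unusedSectionVars false

open Matrix Finset Function

namespace Pool.Agent.N429.KS

noncomputable section

/-- the effect on forms of the change of coordinates with matrix `U` (values in a ring) -/
def act {R : Type} [CommRing R] {B : Type} [Fintype B] (U : Matrix B B R) {S : Type} [Fintype S]
    [DecidableEq S] (f : (S → B) → R) : (S → B) → R :=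
  fun J => ∑ J' : S → B, (∏ s, U (J' s) (J s)) * f J'

/-- The realizations of a motive of weight zero over the field `k`, in coordinates: for every
embedding `τ` of `k` the Betti realization `ℚ^B` with the operator of its Hodge structure
(eigenvalue `(p - q) / 2` on the part of type `(p, q)`), the de Rham realization `k^B`, the étale
realization `A^B` (`A` the ring of finite adeles) and the comparison isomorphisms
`ℚ^B ⊗ ℂ → k^B ⊗_τ ℂ` and `ℚ^B ⊗ A → A^B`. -/
structure Realizations (k A : Type) [Field k] [CommRing A] [Algebra ℚ A] (B : Type) [Fintype B]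
    [DecidableEq B] where
  /-- the operator of the Hodge structure -/
  h : (k →+* ℂ) → Matrix B B ℂ
  /-- the comparison with de Rham cohomology -/
  dR : (k →+* ℂ) → Matrix B B ℂ
  dR_unit : ∀ τ, IsUnit (dR τ)
  /-- the comparison with étale cohomology -/
  et : (k →+* ℂ) → Matrix B B A
  et_unit : ∀ τ, IsUnit (et τ)

namespace Realizations

section one

variable {k A : Type} [Field k] [CommRing A] [Algebra ℚ A] {B : Type} [Fintype B] [DecidableEq B]
  (M : Realizations k A B) {S : Type} [Fintype S] [DecidableEq S]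

/-- rational forms of type `(0,0)` on the Betti realization for the embedding `σ` -/
def IsHodge (σ : k →+* ℂ) (f : (S → B) → ℚ) : Prop := der (M.h σ) (cx f) = 0

/-- absolute Hodge classes: pairs of a de Rham form `t` and an étale form `u` which for every
embedding `τ` come from one rational form of type `(0,0)` on the Betti realization -/
def AbsHodge (t : (S → B) → k) (u : (S → B) → A) : Prop :=
  ∀ τ : k →+* ℂ, ∃ f : (S → B) → ℚ, M.IsHodge τ f ∧ act (M.dR τ) (cx f) = (fun J => τ (t J)) ∧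
    act (M.et τ) (fun J => algebraMap ℚ A (f J)) = u

/-- the rational form `f` on the Betti realization for `σ` is the component of an absolute Hodge
class -/
def IsAbsolute (σ : k →+* ℂ) (f : (S → B) → ℚ) : Prop :=
  ∃ (t : (S → B) → k) (u : (S → B) → A), M.AbsHodge t u ∧
    act (M.dR σ) (cx f) = (fun J => σ (t J)) ∧
    act (M.et σ) (fun J => algebraMap ℚ A (f J)) = u

end one

/-- the direct sum -/
def sum {k A : Type} [Field k] [CommRing A] [Algebra ℚ A] {I : Type} [Fintype I] [DecidableEq I]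
    {B : I → Type} [∀ i, Fintype (B i)] [∀ i, DecidableEq (B i)]
    (M : ∀ i, Realizations k A (B i)) : Realizations k A (Σ i, B i) where
  h τ := blockDiagonal' fun i => (M i).h τ
  dR τ := blockDiagonal' fun i => (M i).dR τ
  dR_unit τ := by
    have h : ∀ i, ∃ N, (M i).dR τ * N = 1 ∧ N * (M i).dR τ = 1 := fun i =>
      isUnit_iff_exists.1 ((M i).dR_unit τ)
    choose N h1 h2 using h
    refine isUnit_iff_exists.2 ⟨blockDiagonal' N, ?_, ?_⟩
    · rw [← blockDiagonal'_mul, ← blockDiagonal'_one]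
      congr 1
      funext i
      exact h1 i
    · rw [← blockDiagonal'_mul, ← blockDiagonal'_one]
      congr 1
      funext i
      exact h2 i
  et τ := blockDiagonal' fun i => (M i).et τ
  et_unit τ := by
    have h : ∀ i, ∃ N, (M i).et τ * N = 1 ∧ N * (M i).et τ = 1 := fun i =>
      isUnit_iff_exists.1 ((M i).et_unit τ)
    choose N h1 h2 using h
    refine isUnit_iff_exists.2 ⟨blockDiagonal' N, ?_, ?_⟩
    · rw [← blockDiagonal'_mul, ← blockDiagonal'_one]
      congr 1
      funext i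
      exact h1 i
    · rw [← blockDiagonal'_mul, ← blockDiagonal'_one]
      congr 1
      funext i
      exact h2 i

end Realizations

namespace AH

section act

variable {R : Type} [CommRing R] {B : Type} [Fintype B] [DecidableEq B] (U : Matrix B B R)
  {S T : Type} [Fintype S] [DecidableEq S] [Fintype T] [DecidableEq T]

theorem act_add (f g : (S → B) → R) : act U (f + g) = act U f + act U g := by
  funext J
  simp only [act, Pi.add_apply, mul_add, Finset.sum_add_distrib]

theorem act_smul (c : R) (f : (S → B) → R) : act U (c • f) = c • act U f := by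
  funext J
  simp only [act, Pi.smul_apply, smul_eq_mul, Finset.mul_sum]
  refine Finset.sum_congr rfl fun J' _ => ?_
  ring

theorem act_re (e : S ≃ T) (f : (S → B) → R) :
    act U (fun J : T → B => f (J ∘ e)) = fun J : T → B => act U f (J ∘ e) := by
  funext J
  simp only [act]
  rw [← Equiv.sum_comp (Equiv.arrowCongr e (Equiv.refl B))]
  refine Finset.sum_congr rfl fun J' _ => ?_
  have h1 : (Equiv.arrowCongr e (Equiv.refl B)) J' ∘ e = J' := by
    funext s
    simp [Equiv.arrowCongr]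
  rw [h1]
  congr 1
  rw [← Equiv.prod_comp e]
  refine Finset.prod_congr rfl fun s _ => ?_
  simp [Equiv.arrowCongr]

theorem act_mul [DecidableEq (S ⊕ T)] (f : (S → B) → R) (g : (T → B) → R) :
    act U (fun J : S ⊕ T → B => f (J ∘ Sum.inl) * g (J ∘ Sum.inr)) =
      fun J : S ⊕ T → B => act U f (J ∘ Sum.inl) * act U g (J ∘ Sum.inr) := by
  funext J
  simp only [act]
  rw [← Equiv.sum_comp (Equiv.sumArrowEquivProdArrow S T B).symm, Fintype.sum_prod_type,
    Finset.sum_mul_sum]
  refine Finset.sum_congr rfl fun J1 _ => Finset.sum_congr rfl fun J2 _ => ?_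
  rw [Fintype.prod_sum_type]
  have e1 : ((Equiv.sumArrowEquivProdArrow S T B).symm (J1, J2)) ∘ Sum.inl = J1 := rfl
  have e2 : ((Equiv.sumArrowEquivProdArrow S T B).symm (J1, J2)) ∘ Sum.inr = J2 := rfl
  rw [e1, e2]
  show (∏ s, U (J1 s) (J (Sum.inl s))) * (∏ s, U (J2 s) (J (Sum.inr s))) * (f J1 * g J2) = _
  simp only [Function.comp_apply]
  ring

end act

section sys

variable {k A : Type} [Field k] [CommRing A] [Algebra ℚ A] {B : Type} [Fintype B] [DecidableEq B]
  (M : Realizations k A B) (σ : k →+* ℂ)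

/-- families of rational forms -/
def Fam {S : Type} [Fintype S] [DecidableEq S] (F : (k →+* ℂ) → (S → B) → ℚ) : Prop :=
  (∀ τ, M.IsHodge τ (F τ)) ∧
  (∃ t : (S → B) → k, ∀ τ, act (M.dR τ) (cx (F τ)) = fun J => τ (t J)) ∧
  ∃ u : (S → B) → A, ∀ τ, act (M.et τ) (fun J => algebraMap ℚ A (F τ J)) = u

theorem cx_inj {X : Type} {f g : X → ℚ} (h : cx f = cx g) : f = g := by
  funext x
  have := congrFun h x
  unfold cx at this
  exact_mod_cast this

theorem act_act {R : Type} [CommRing R] (U V : Matrix B B R) {S : Type} [Fintype S]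
    [DecidableEq S] (f : (S → B) → R) : act V (act U f) = act (U * V) f := by
  funext J
  simp only [act, Finset.mul_sum]
  rw [Finset.sum_comm]
  refine Finset.sum_congr rfl fun J' _ => ?_
  simp only [← mul_assoc, ← Finset.sum_mul]
  congr 1
  simp only [Matrix.mul_apply]
  rw [Finset.prod_univ_sum]
  simp only [Fintype.piFinset_univ]
  refine Finset.sum_congr rfl fun J'' _ => ?_
  rw [← Finset.prod_mul_distrib]
  refine Finset.prod_congr rfl fun s _ => ?_
  ring

theorem act_one {R : Type} [CommRing R] {S : Type} [Fintype S] [DecidableEq S]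
    (f : (S → B) → R) : act (1 : Matrix B B R) f = f := by
  funext J
  simp only [act]
  rw [Finset.sum_eq_single J]
  · simp
  · intro J' _ hJ'
    obtain ⟨s, hs⟩ := Function.ne_iff.1 hJ'
    have h0 : ∏ s, (1 : Matrix B B R) (J' s) (J s) = 0 :=
      Finset.prod_eq_zero (Finset.mem_univ s) (Matrix.one_apply_ne hs)
    rw [h0, zero_mul]
  · intro h
    exact absurd (Finset.mem_univ _) h

theorem act_inj {R : Type} [CommRing R] (U : Matrix B B R) (hU : IsUnit U) {S : Type} [Fintype S]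
    [DecidableEq S] {f g : (S → B) → R} (h : act U f = act U g) : f = g := by
  obtain ⟨V, h1, -⟩ := isUnit_iff_exists.1 hU
  have h2 : act V (act U f) = act V (act U g) := by rw [h]
  rwa [act_act, act_act, h1, act_one, act_one] at h2

theorem isAbsolute_iff {S : Type} [Fintype S] [DecidableEq S] (f : (S → B) → ℚ) :
    M.IsAbsolute σ f ↔ ∃ F : (k →+* ℂ) → (S → B) → ℚ, Fam M F ∧ F σ = f := by
  constructor
  · rintro ⟨t, u, h, h1, h2⟩
    choose F hF1 hF2 hF3 using h
    refine ⟨F, ⟨hF1, ⟨t, hF2⟩, ⟨u, hF3⟩⟩, ?_⟩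
    exact cx_inj (act_inj (M.dR σ) (M.dR_unit σ) ((hF2 σ).trans h1.symm))
  · rintro ⟨F, ⟨hF1, ⟨t, hF2⟩, ⟨u, hF3⟩⟩, rfl⟩
    exact ⟨t, u, fun τ => ⟨F τ, hF1 τ, hF2 τ, hF3 τ⟩, hF2 σ, hF3 σ⟩

theorem cx_add {X : Type} (f g : X → ℚ) : cx (f + g) = cx f + cx g := by
  funext x
  simp [cx]

theorem cx_smul {X : Type} (c : ℚ) (f : X → ℚ) : cx (c • f) = (c : ℂ) • cx f := by
  funext x
  simp [cx]

theorem der_add {S : Type} [Fintype S] [DecidableEq S] (Y : Matrix B B ℂ) (f g : (S → B) → ℂ) :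
    der Y (f + g) = der Y f + der Y g := by
  funext J
  simp only [der, Pi.add_apply, mul_add, Finset.sum_add_distrib]

theorem der_smul {S : Type} [Fintype S] [DecidableEq S] (Y : Matrix B B ℂ) (c : ℂ)
    (f : (S → B) → ℂ) : der Y (c • f) = c • der Y f := by
  funext J
  simp only [der, Pi.smul_apply, smul_eq_mul, Finset.mul_sum]
  refine Finset.sum_congr rfl fun s _ => Finset.sum_congr rfl fun b _ => ?_
  ring

theorem Fam.add {S : Type} [Fintype S] [DecidableEq S] {F G : (k →+* ℂ) → (S → B) → ℚ}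
    (hF : Fam M F) (hG : Fam M G) : Fam M (fun τ => F τ + G τ) := by
  obtain ⟨h1, ⟨t, h2⟩, ⟨u, h3⟩⟩ := hF
  obtain ⟨g1, ⟨t', g2⟩, ⟨u', g3⟩⟩ := hG
  refine ⟨fun τ => ?_, ⟨t + t', fun τ => ?_⟩, ⟨u + u', fun τ => ?_⟩⟩
  · show der _ _ = 0
    rw [cx_add, der_add, show der _ _ = 0 from h1 τ, show der _ _ = 0 from g1 τ, add_zero]
  · rw [cx_add, act_add, h2 τ, g2 τ]
    funext J
    simp
  · have e : (fun J => algebraMap ℚ A ((F τ + G τ) J)) =
        (fun J => algebraMap ℚ A (F τ J)) + fun J => algebraMap ℚ A (G τ J) := by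
      funext J
      simp
    rw [e, act_add, h3 τ, g3 τ]

theorem Fam.smul {S : Type} [Fintype S] [DecidableEq S] {F : (k →+* ℂ) → (S → B) → ℚ} (c : ℚ)
    [CharZero k] (hF : Fam M F) : Fam M (fun τ => c • F τ) := by
  obtain ⟨h1, ⟨t, h2⟩, ⟨u, h3⟩⟩ := hF
  refine ⟨fun τ => ?_, ⟨fun J => (c : k) * t J, fun τ => ?_⟩,
    ⟨(algebraMap ℚ A c) • u, fun τ => ?_⟩⟩
  · show der _ _ = 0
    rw [cx_smul, der_smul, show der _ _ = 0 from h1 τ, smul_zero]
  · rw [cx_smul, act_smul, h2 τ]
    funext J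
    simp
  · have e : (fun J => algebraMap ℚ A ((c • F τ) J)) =
        (algebraMap ℚ A c) • fun J => algebraMap ℚ A (F τ J) := by
      funext J
      simp
    rw [e, act_smul, h3 τ]

theorem Fam.zero {S : Type} [Fintype S] [DecidableEq S] :
    Fam M (fun _ => (0 : (S → B) → ℚ)) := by
  refine ⟨fun τ => ?_, ⟨0, fun τ => ?_⟩, ⟨0, fun τ => ?_⟩⟩
  · show der _ _ = 0
    funext J
    simp [der, cx]
  · funext J
    simp [act, cx]
  · funext J
    simp [act]

theorem Fam.one : Fam M (fun _ => (fun _ => 1 : (Empty → B) → ℚ)) := by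
  refine ⟨fun τ => ?_, ⟨fun _ => 1, fun τ => ?_⟩, ⟨fun _ => 1, fun τ => ?_⟩⟩
  · show der _ _ = 0
    funext J
    simp [der, cx]
  · funext J
    simp [act, cx]
  · funext J
    simp [act]

theorem Fam.re {S T : Type} [Fintype S] [DecidableEq S] [Fintype T] [DecidableEq T] (e : S ≃ T)
    {F : (k →+* ℂ) → (S → B) → ℚ} (hF : Fam M F) :
    Fam M (fun τ => fun J : T → B => F τ (J ∘ e)) := by
  obtain ⟨h1, ⟨t, h2⟩, ⟨u, h3⟩⟩ := hF
  refine ⟨fun τ => ?_, ⟨fun J => t (J ∘ e), fun τ => ?_⟩, ⟨fun J => u (J ∘ e), fun τ => ?_⟩⟩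
  · show der _ _ = 0
    funext J
    have h := L1aux.der_re e (M.h τ) (cx (F τ)) J
    have h0 : der (M.h τ) (cx (F τ)) = 0 := h1 τ
    rw [h0] at h
    exact h
  · have h := act_re (M.dR τ) e (cx (F τ))
    rw [h2 τ] at h
    exact h
  · have h := act_re (M.et τ) e (fun J => algebraMap ℚ A (F τ J))
    rw [h3 τ] at h
    exact h

theorem Fam.mul {S T : Type} [Fintype S] [DecidableEq S] [Fintype T] [DecidableEq T]
    {F : (k →+* ℂ) → (S → B) → ℚ} {G : (k →+* ℂ) → (T → B) → ℚ} (hF : Fam M F) (hG : Fam M G) :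
    Fam M (fun τ => fun J : S ⊕ T → B => F τ (J ∘ Sum.inl) * G τ (J ∘ Sum.inr)) := by
  obtain ⟨h1, ⟨t, h2⟩, ⟨u, h3⟩⟩ := hF
  obtain ⟨g1, ⟨t', g2⟩, ⟨u', g3⟩⟩ := hG
  refine ⟨fun τ => ?_, ⟨fun J => t (J ∘ Sum.inl) * t' (J ∘ Sum.inr), fun τ => ?_⟩,
    ⟨fun J => u (J ∘ Sum.inl) * u' (J ∘ Sum.inr), fun τ => ?_⟩⟩
  · show der _ _ = 0
    have e : cx (fun J : S ⊕ T → B => F τ (J ∘ Sum.inl) * G τ (J ∘ Sum.inr)) =
        fun J : S ⊕ T → B => cx (F τ) (J ∘ Sum.inl) * cx (G τ) (J ∘ Sum.inr) := by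
      funext J
      simp [cx]
    rw [e]
    funext J
    have h := L1aux.der_mul (M.h τ) (cx (F τ)) (cx (G τ)) J
    have h0 : der (M.h τ) (cx (F τ)) = 0 := h1 τ
    have g0 : der (M.h τ) (cx (G τ)) = 0 := g1 τ
    rw [h0, g0] at h
    rw [h]
    simp
  · have e : cx (fun J : S ⊕ T → B => F τ (J ∘ Sum.inl) * G τ (J ∘ Sum.inr)) =
        fun J : S ⊕ T → B => cx (F τ) (J ∘ Sum.inl) * cx (G τ) (J ∘ Sum.inr) := by
      funext J
      simp [cx]
    rw [e, act_mul, h2 τ, g2 τ]
    funext J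
    simp
  · have e : (fun J : S ⊕ T → B => algebraMap ℚ A (F τ (J ∘ Sum.inl) * G τ (J ∘ Sum.inr))) =
        fun J : S ⊕ T → B => (fun J => algebraMap ℚ A (F τ J)) (J ∘ Sum.inl) *
          (fun J => algebraMap ℚ A (G τ J)) (J ∘ Sum.inr) := by
      funext J
      simp
    rw [e, act_mul (M.et τ) (fun J => algebraMap ℚ A (F τ J)) (fun J => algebraMap ℚ A (G τ J)),
      h3 τ, g3 τ]

/-- the instances do not matter -/
theorem isAbsolute_inst {S : Type} {i1 j1 : Fintype S} {i2 j2 : DecidableEq S}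
    {f : (S → B) → ℚ} (h : @Realizations.IsAbsolute k A _ _ _ B _ _ M S i1 i2 σ f) :
    @Realizations.IsAbsolute k A _ _ _ B _ _ M S j1 j2 σ f := by
  have e1 : i1 = j1 := Subsingleton.elim _ _
  have e2 : i2 = j2 := Subsingleton.elim _ _
  subst e1
  subst e2
  exact h

/-- the system of absolute Hodge classes -/
def absSys [CharZero k] : Sys ℚ B where
  Alg S :=
    { carrier := {f | ∀ (_ : Fintype S) (_ : DecidableEq S), M.IsAbsolute σ f}
      add_mem' := by
        intro f g hf hg i1 i2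
        obtain ⟨F, hF, rfl⟩ := (isAbsolute_iff M σ _).1 (hf i1 i2)
        obtain ⟨G, hG, rfl⟩ := (isAbsolute_iff M σ _).1 (hg i1 i2)
        exact (isAbsolute_iff M σ _).2 ⟨_, Fam.add M hF hG, rfl⟩
      zero_mem' := by
        intro i1 i2
        exact (isAbsolute_iff M σ _).2 ⟨_, Fam.zero M, rfl⟩
      smul_mem' := by
        intro c f hf i1 i2
        obtain ⟨F, hF, rfl⟩ := (isAbsolute_iff M σ _).1 (hf i1 i2)
        exact (isAbsolute_iff M σ _).2 ⟨_, Fam.smul M c hF, rfl⟩ }
  one := by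
    have h : M.IsAbsolute σ (fun _ => 1 : (Empty → B) → ℚ) :=
      (isAbsolute_iff M σ _).2 ⟨_, Fam.one M, rfl⟩
    intro i1 i2
    exact isAbsolute_inst M σ h
  re := by
    intro S T _ _ e f hf i1 i2
    let _ := Fintype.ofFinite S
    let _ := Classical.decEq S
    obtain ⟨F, hF, rfl⟩ := (isAbsolute_iff M σ _).1 (hf inferInstance inferInstance)
    exact (isAbsolute_iff M σ _).2 ⟨_, Fam.re M e hF, rfl⟩
  mul := by
    intro S T _ _ f g hf hg
    let _ := Fintype.ofFinite S
    let _ := Classical.decEq S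
    let _ := Fintype.ofFinite T
    let _ := Classical.decEq T
    have h : M.IsAbsolute σ (fun J : S ⊕ T → B => f (J ∘ Sum.inl) * g (J ∘ Sum.inr)) := by
      obtain ⟨F, hF, rfl⟩ := (isAbsolute_iff M σ _).1 (hf inferInstance inferInstance)
      obtain ⟨G, hG, rfl⟩ := (isAbsolute_iff M σ _).1 (hg inferInstance inferInstance)
      exact (isAbsolute_iff M σ _).2 ⟨_, Fam.mul M hF hG, rfl⟩
    intro i1 i2
    exact isAbsolute_inst M σ h

end sys

section ext

variable {k A : Type} [Field k] [CommRing A] [Algebra ℚ A] {I : Type} [Fintype I] [DecidableEq I]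
  {B : I → Type} [∀ i, Fintype (B i)] [∀ i, DecidableEq (B i)]

/-- extension by zero -/
def ex {R : Type} [Zero R] (i : I) {S : Type} (f : (S → B i) → R) : (S → Σ i, B i) → R :=
  Function.extend (fun J : S → B i => (Sigma.mk i ∘ J : S → Σ i, B i)) f 0

theorem ex_apply {R : Type} [Zero R] (i : I) {S : Type} (f : (S → B i) → R) (J : S → B i) :
    ex i f (Sigma.mk i ∘ J) = f J := by
  unfold ex
  exact (R3aux.sig_inj i S).extend_apply f 0 J

theorem ex_zero {R : Type} [Zero R] (i : I) {S : Type} (f : (S → B i) → R) (J : S → Σ i, B i)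
    (s : S) (h : (J s).1 ≠ i) : ex i f J = 0 := by
  unfold ex
  rw [Function.extend_apply' _ _ _ ?_]
  · rfl
  · rintro ⟨J0, hJ⟩
    apply h
    have := congrFun hJ s
    rw [← this]
    rfl

theorem ex_map {R R' : Type} [Zero R] [Zero R'] (φ : R → R') (h0 : φ 0 = 0) (i : I) {S : Type}
    (f : (S → B i) → R) : (fun J => φ (ex i f J)) = ex i (fun J => φ (f J)) := by
  funext J
  rcases R3aux.ext_cases i J with ⟨J0, rfl⟩ | ⟨s, hs⟩
  · rw [ex_apply, ex_apply]
  · rw [ex_zero i _ J s hs, ex_zero i _ J s hs, h0]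

theorem act_ex {R : Type} [CommRing R] (U : ∀ i, Matrix (B i) (B i) R) (i : I) {S : Type}
    [Fintype S] [DecidableEq S] (g : (S → B i) → R) :
    act (blockDiagonal' U) (ex i g) = ex i (act (U i) g) := by
  funext J
  have h1 : act (blockDiagonal' U) (ex i g) J =
      ∑ J0 : S → B i, (∏ s, blockDiagonal' U ⟨i, J0 s⟩ (J s)) * g J0 := by
    unfold act
    symm
    refine Fintype.sum_of_injective (fun J0 : S → B i => (Sigma.mk i ∘ J0 : S → Σ i, B i))
      (R3aux.sig_inj i S) _ _ ?_ ?_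
    · intro J' hJ'
      rcases R3aux.ext_cases i J' with ⟨J0, rfl⟩ | ⟨s, hs⟩
      · exact absurd ⟨J0, rfl⟩ hJ'
      · rw [ex_zero i _ J' s hs, mul_zero]
    · intro J0
      rw [ex_apply]
      rfl
  rw [h1]
  rcases R3aux.ext_cases i J with ⟨J1, rfl⟩ | ⟨s, hs⟩
  · rw [ex_apply]
    unfold act
    refine Finset.sum_congr rfl fun J0 _ => ?_
    congr 1
    refine Finset.prod_congr rfl fun s _ => ?_
    exact Matrix.blockDiagonal'_apply_eq U i (J0 s) (J1 s)
  · rw [ex_zero i _ J s hs]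
    refine Finset.sum_eq_zero fun J0 _ => ?_
    have h2 : ∏ s, blockDiagonal' U ⟨i, J0 s⟩ (J s) = 0 := by
      refine Finset.prod_eq_zero (Finset.mem_univ s) ?_
      rcases hJ : J s with ⟨j, b⟩
      rw [hJ] at hs
      exact Matrix.blockDiagonal'_apply_ne U (J0 s) b (Ne.symm hs)
    rw [h2, zero_mul]

theorem der_ext (Y : ∀ i, Matrix (B i) (B i) ℂ) (i : I) {S : Type} [Fintype S] [DecidableEq S]
    (f : (S → B i) → ℂ) :
    der (blockDiagonal' Y) (extV (Sigma.mk i) f) = extV (Sigma.mk i) (der (Y i) f) := by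
  refine Z10.der_extV (Sigma.mk i) sigma_mk_injective _ _ ?_ ?_ f
  · intro b c
    exact Matrix.blockDiagonal'_apply_eq Y i b c
  · rintro b ⟨j, c⟩ hw
    by_cases hij : i = j
    · subst hij
      exact absurd ⟨c, rfl⟩ hw
    · exact Matrix.blockDiagonal'_apply_ne Y b c hij

theorem extV_eq_ex (i : I) {S : Type} {K : Type} [Field K] (f : (S → B i) → K) :
    extV (Sigma.mk i) f = ex i f := rfl

/-- absolute Hodge classes on a summand -/
theorem Fam.ext (M : ∀ i, Realizations k A (B i)) (i : I) {S : Type} [Fintype S] [DecidableEq S]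
    {F : (k →+* ℂ) → (S → B i) → ℚ} (hF : Fam (M i) F) :
    Fam (Realizations.sum M) (fun τ => extV (Sigma.mk i) (F τ)) := by
  obtain ⟨h1, ⟨t, h2⟩, ⟨u, h3⟩⟩ := hF
  have ec : ∀ τ, cx (extV (Sigma.mk i) (F τ)) = ex i (cx (F τ)) := fun τ =>
    ex_map (fun r : ℚ => (r : ℂ)) Rat.cast_zero i (F τ)
  refine ⟨fun τ => ?_, ⟨ex i t, fun τ => ?_⟩, ⟨ex i u, fun τ => ?_⟩⟩
  · show der (blockDiagonal' fun i => (M i).h τ) _ = 0
    rw [ec]
    have h := der_ext (fun i => (M i).h τ) i (cx (F τ))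
    have h0 : der ((M i).h τ) (cx (F τ)) = 0 := h1 τ
    rw [h0] at h
    rw [extV_eq_ex] at h
    rw [h]
    funext J
    rcases R3aux.ext_cases i J with ⟨J0, rfl⟩ | ⟨s, hs⟩
    · exact ex_apply (R := ℂ) i (0 : (S → B i) → ℂ) J0
    · exact ex_zero (R := ℂ) i (0 : (S → B i) → ℂ) J s hs
  · show act (blockDiagonal' fun i => (M i).dR τ) _ = _
    rw [ec, act_ex, h2 τ]
    exact (ex_map (R := k) (R' := ℂ) (fun x : k => τ x) (map_zero τ) i t).symm
  · show act (blockDiagonal' fun i => (M i).et τ) _ = _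
    have e : (fun J => algebraMap ℚ A (extV (Sigma.mk i) (F τ) J)) =
        ex i (fun J => algebraMap ℚ A (F τ J)) :=
      ex_map (fun r : ℚ => algebraMap ℚ A r) (map_zero _) i (F τ)
    rw [e, act_ex, h3 τ]

end ext

end AH

/-- the absolute Hodge classes on the tensor powers of a sum of motives of K3 type -/
theorem absolute_all {k A : Type} [Field k] [CharZero k] [CommRing A] [Algebra ℚ A]
    (σ : k →+* ℂ) {I : Type} [Fintype I] [DecidableEq I] {B : I → Type} [∀ i, Fintype (B i)]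
    [∀ i, DecidableEq (B i)] (M : ∀ i, Realizations k A (B i)) (X : ∀ i, K3Type (B i))
    (hM : ∀ i, (M i).h σ = (X i).h)
    (hXX : ∀ i j, i ≠ j → (X i).NonCM ∧
      (∀ P : Matrix (B j) (B i) ℚ, cm P * (X i).h = (X j).h * cm P → P = 0) ∧
      Fintype.card (B i) ≠ 4 * Module.finrank ℚ (X i).endo)
    (m : I → ℕ) (hm : ∀ i, Fintype.card (B i) = Module.finrank ℚ (X i).endo * m i)
    (h2 : ∀ i (f : (Fin 2 → B i) → ℚ), (M i).IsHodge σ f → (M i).IsAbsolute σ f)
    (hdet : ∀ i, (X i).NonCM → ∀ f : (Fin (m i) → B i) → ℚ, (M i).IsHodge σ f →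
      (M i).IsAbsolute σ f)
    {S : Type} [Fintype S] [DecidableEq S] (f : (S → Σ i, B i) → ℚ)
    (hf : (Realizations.sum M).IsHodge σ f) : (Realizations.sum M).IsAbsolute σ f := by
  have key : ∀ i (n : ℕ) (g : (Fin n → B i) → ℚ), (M i).IsAbsolute σ g →
      extV (Sigma.mk i) g ∈ (AH.absSys (Realizations.sum M) σ).Alg (Fin n) := by
    intro i n g hg
    have h : (Realizations.sum M).IsAbsolute σ (extV (Sigma.mk i) g) := by
      obtain ⟨F, hF, rfl⟩ := (AH.isAbsolute_iff (M i) σ _).1 hg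
      exact (AH.isAbsolute_iff _ σ _).2 ⟨_, AH.Fam.ext M i hF, rfl⟩
    intro i1 i2
    exact AH.isAbsolute_inst _ σ h
  have hh : ∀ i (n : ℕ) (g : (Fin n → B i) → ℚ), (X i).IsHodge g → (M i).IsHodge σ g := by
    intro i n g hg
    show der _ _ = 0
    rw [hM i]
    exact hg
  have hfS : der (hS X) (cx f) = 0 := by
    have h1 : (Realizations.sum M).h σ = hS X := by
      show (blockDiagonal' fun i => (M i).h σ) = blockDiagonal' fun i => (X i).h
      congr 1
      funext i
      exact hM i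
    rw [← h1]
    exact hf
  exact generated_all X hXX (AH.absSys (Realizations.sum M) σ) m hm
    (fun i g hg => key i 2 g (h2 i g (hh i 2 g hg)))
    (fun i hi g hg => key i (m i) g (hdet i hi g (hh i (m i) g hg))) f hfS _ _

end

end Pool.Agent.N429.KS
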