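import Mathlib

/-!
# Hodge structures of K3 type, Clifford modules and systems of classes

Everything is written in coordinates: `V = ℚ^B` with a Gram matrix `q`, `H = ℚ^C`; a form on the
power `V^S` is the function of its values on the tuples of basis vectors.
-/

set_option linter.unusedSectionVars false

open Matrix Finset Function

namespace Pool.Agent.N429.KS

noncomputable section

/-- complexification of a rational function (a vector or a form) -/
def cx {A : Type} (f : A → ℚ) : A → ℂ := fun a => (f a : ℂ)

/-- complexification of a rational matrix -/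
def cm {A A' : Type} (M : Matrix A A' ℚ) : Matrix A A' ℂ := M.map (algebraMap ℚ ℂ)

section forms

variable {K : Type} [Field K] {B : Type} [Fintype B] [DecidableEq B]

/-- the derivation of the forms on `V = K^B` given by the matrix `X`: the sum over `s` of
`f(…, X x_s, …)` -/
def der (X : Matrix B B K) {S : Type} [Fintype S] [DecidableEq S] (f : (S → B) → K) :
    (S → B) → K :=
  fun J => ∑ s, ∑ b, X b (J s) * f (update J s b)

/-- the skew operator `x ∧ y : u ↦ Q(y,u) x - Q(x,u) y` -/
def wedge (Q : Matrix B B K) (x y : B → K) : Matrix B B K :=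
  vecMulVec x (Q *ᵥ y) - vecMulVec y (Q *ᵥ x)

/-- the relations of the Clifford algebra of `Q` -/
def Cliff {C : Type} [Fintype C] [DecidableEq C] (Q : Matrix B B K) (Φ : B → Matrix C C K) :
    Prop :=
  ∀ i j, Φ i * Φ j + Φ j * Φ i = (2 * Q i j) • (1 : Matrix C C K)

/-- the pairing of the block `i` of an orthonormal basis (the blocks are the fibres of `κ`) -/
def delta {ι : Type} [DecidableEq ι] (κ : B → ι) (i : ι) : (Fin 2 → B) → K :=
  fun J => if J 0 = J 1 ∧ κ (J 0) = i then 1 else 0

/-- the determinant of the block `i` -/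
def detf {ι : Type} [DecidableEq ι] (κ : B → ι) (i : ι) : ({b : B // κ b = i} → B) → K :=
  fun J => Matrix.det (Matrix.of fun a b : {b : B // κ b = i} => if J a = b.1 then (1 : K) else 0)

/-- the effect on forms of the change of coordinates with matrix `U` (values in a module `M`) -/
def chg (U : Matrix B B K) {M : Type} [AddCommGroup M] [Module K M] {S : Type} [Fintype S]
    [DecidableEq S] (f : (S → B) → M) : (S → B) → M :=
  fun J => ∑ J' : S → B, (∏ s, U (J' s) (J s)) • f J'

end forms

/-- A system of spaces of forms on the powers of `V`, closed under exterior products and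
renumbering of the factors. -/
structure Sys (K : Type) [Field K] (B : Type) where
  /-- the forms of the system -/
  Alg : (S : Type) → Submodule K ((S → B) → K)
  one : (fun _ => 1) ∈ Alg Empty
  re : ∀ {S T : Type} [Finite S] [Finite T] (e : S ≃ T) {f : (S → B) → K}, f ∈ Alg S →
    (fun J : T → B => f (J ∘ e)) ∈ Alg T
  mul : ∀ {S T : Type} [Finite S] [Finite T] {f : (S → B) → K} {g : (T → B) → K}, f ∈ Alg S →
    g ∈ Alg T → (fun J : S ⊕ T → B => f (J ∘ Sum.inl) * g (J ∘ Sum.inr)) ∈ Alg (S ⊕ T)

/-- A system of forms on the powers of `V` together with spaces of correspondences, which are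
multilinear maps from the powers of `V` to `End H`, closed under composition and traces. -/
structure Calc (K : Type) [Field K] (B C : Type) [Fintype C] extends Sys K B where
  /-- the correspondences -/
  Cor : (S : Type) → Submodule K ((S → B) → Matrix C C K)
  cre : ∀ {S T : Type} [Finite S] [Finite T] (e : S ≃ T) {M : (S → B) → Matrix C C K},
    M ∈ Cor S → (fun J : T → B => M (J ∘ e)) ∈ Cor T
  cmul : ∀ {S T : Type} [Finite S] [Finite T] {M : (S → B) → Matrix C C K}
    {N : (T → B) → Matrix C C K}, M ∈ Cor S → N ∈ Cor T →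
      (fun J : S ⊕ T → B => M (J ∘ Sum.inl) * N (J ∘ Sum.inr)) ∈ Cor (S ⊕ T)
  ctr : ∀ {S : Type} [Finite S] {M : (S → B) → Matrix C C K}, M ∈ Cor S →
    (fun J => (M J).trace) ∈ Alg S

/-- A rational Hodge structure of K3 type on `V = ℚ^B`: a nondegenerate form `q` and a period
`ω`, such that no rational vector is orthogonal to the period. -/
structure K3Type (B : Type) [Fintype B] [DecidableEq B] where
  /-- the Gram matrix -/
  q : Matrix B B ℚ
  sym : q.IsSymm
  nondeg : q.det ≠ 0
  /-- the period -/
  ω : B → ℂ
  iso : ω ⬝ᵥ (cm q *ᵥ ω) = 0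
  pol : ω ⬝ᵥ (cm q *ᵥ star ω) ≠ 0
  trans : ∀ v : B → ℚ, cx v ⬝ᵥ (cm q *ᵥ ω) = 0 → v = 0

namespace K3Type

variable {B : Type} [Fintype B] [DecidableEq B] (X : K3Type B)

/-- `q(ω, ω̄)` -/
def N : ℂ := X.ω ⬝ᵥ (cm X.q *ᵥ star X.ω)

/-- the operator which is `1` on `ω`, `-1` on its conjugate and `0` on the vectors orthogonal to
both; its eigenvalues are `(p - q) / 2` -/
def h : Matrix B B ℂ := (X.N)⁻¹ • wedge (cm X.q) X.ω (star X.ω)

/-- Hodge classes: rational forms of type `(0,0)` -/
def IsHodge {S : Type} [Fintype S] [DecidableEq S] (f : (S → B) → ℚ) : Prop :=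
  der X.h (cx f) = 0

/-- no complex multiplication: the endomorphisms of the Hodge structure are self-adjoint -/
def NonCM : Prop := ∀ M : Matrix B B ℚ, cm M * X.h = X.h * cm M → (X.q * M).IsSymm

/-- the rational operators which kill all Hodge classes -/
def gQ : Submodule ℚ (Matrix B B ℚ) where
  carrier := {Y | ∀ (S : Type) (_ : Fintype S) (_ : DecidableEq S) (f : (S → B) → ℚ),
    X.IsHodge f → der Y f = 0}
  add_mem' := by
    intro Y Z hY hZ S _ _ f hf
    have h1 := hY S _ _ f hf
    have h2 := hZ S _ _ f hf
    funext J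
    have h3 := congrFun h1 J
    have h4 := congrFun h2 J
    simp only [der, Pi.zero_apply, Matrix.add_apply, add_mul, Finset.sum_add_distrib] at *
    rw [h3, h4, add_zero]
  zero_mem' := by
    intro S _ _ f _
    funext J
    simp [der]
  smul_mem' := by
    intro c Y hY S _ _ f hf
    have h1 := hY S _ _ f hf
    funext J
    have h3 := congrFun h1 J
    simp only [der, Pi.zero_apply, Matrix.smul_apply, smul_eq_mul, mul_assoc,
      ← Finset.mul_sum] at *
    rw [h3, mul_zero]

/-- its complexification -/
def gC : Submodule ℂ (Matrix B B ℂ) := Submodule.span ℂ (cm '' (X.gQ : Set (Matrix B B ℚ)))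

variable {C : Type} [Fintype C] [DecidableEq C]

/-- the complexified Clifford action -/
def phi (Φ : B → Matrix C C ℚ) (v : B → ℂ) : Matrix C C ℂ := ∑ i, v i • cm (Φ i)

/-- the operator of the Kuga-Satake Hodge structure on `H`; its eigenvalues are `1/2`, `-1/2` -/
def ht (Φ : B → Matrix C C ℚ) : Matrix C C ℂ :=
  (4 * X.N)⁻¹ • (phi Φ X.ω * phi Φ (star X.ω) - phi Φ (star X.ω) * phi Φ X.ω)

/-- the endomorphisms of the Kuga-Satake Hodge structure -/
def IsHodgeEnd (Φ : B → Matrix C C ℚ) (M : Matrix C C ℚ) : Prop :=
  cm M * X.ht Φ = X.ht Φ * cm M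

end K3Type

end

end Pool.Agent.N429.KS
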