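import Pool.Agent.N429.KS.Defs

/-!
# Products of several K3 type structures and of their Kuga-Satake varieties

For a finite family of Hodge structures of K3 type `X i` on `V_i = ℚ^(B i)` with polarized Clifford
modules `H_i = ℚ^(C i)` the forms on the powers of `W = ⊕ (V_i ⊕ H_i)` are the functions of their
values on the tuples of basis vectors.
-/

set_option linter.unusedSectionVars false

open Matrix Finset Function

namespace Pool.Agent.N429.KS

noncomputable section

/-- A system of spaces of forms closed under exterior products, renumbering, and the contraction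
of two variables with the matrix `R`. -/
structure Cyc (K : Type) [Field K] (W : Type) [Fintype W] (R : Matrix W W K) extends Sys K W where
  con : ∀ {S : Type} [Finite S] {f : (S ⊕ Fin 2 → W) → K}, f ∈ Alg (S ⊕ Fin 2) →
    (fun J : S → W => ∑ p, ∑ r, R p r * f (Sum.elim J ![p, r])) ∈ Alg S

/-- the extension by zero of a form on the powers of a coordinate subspace -/
def extV {K : Type} [Field K] {B W : Type} (u : B → W) {S : Type} (f : (S → B) → K) :
    (S → W) → K :=
  Function.extend (fun J : S → B => u ∘ J) f 0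

/-- the form `(…, x, y) ↦ E (M(…) x, y)`, extended by zero -/
def extC {K : Type} [Field K] {B C W : Type} [Fintype C] (u : B → W) (v : C → W)
    (E : Matrix C C K) {S : Type} (M : (S → B) → Matrix C C K) : (S ⊕ Fin 2 → W) → K :=
  Function.extend (fun p : (S → B) × C × C => Sum.elim (u ∘ p.1) ![v p.2.1, v p.2.2])
    (fun p => ((M p.1)ᵀ * E) p.2.1 p.2.2) 0

/-- A polarized Clifford module: the Hodge structure of weight one of the Kuga-Satake variety
(or of an isogenous variety, a power, …), with its polarization `E`. -/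
structure KSData {B : Type} [Fintype B] [DecidableEq B] (X : K3Type B) (C : Type) [Fintype C]
    [DecidableEq C] where
  /-- Clifford multiplication -/
  Φ : B → Matrix C C ℚ
  cliff : Cliff X.q Φ
  /-- the polarization -/
  E : Matrix C C ℚ
  nondeg : E.det ≠ 0
  pol : (X.ht Φ)ᵀ * cm E + cm E * X.ht Φ = 0

section family

variable {I : Type} [Fintype I] [DecidableEq I] {B C : I → Type} [∀ i, Fintype (B i)]
  [∀ i, DecidableEq (B i)] [∀ i, Fintype (C i)] [∀ i, DecidableEq (C i)]

/-- the basis of `⊕ (V_i ⊕ H_i)` -/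
abbrev Tot (B C : I → Type) : Type := Σ i, (B i ⊕ C i)

/-- the basis vectors of `V_i` -/
def iv (i : I) (b : B i) : Tot B C := ⟨i, Sum.inl b⟩

/-- the basis vectors of `H_i` -/
def ih (i : I) (c : C i) : Tot B C := ⟨i, Sum.inr c⟩

variable {K : Type} [Field K]

/-- the block diagonal operator with blocks `Y i` on `V_i` and `Z i` on `H_i` -/
def placeAll (Y : ∀ i, Matrix (B i) (B i) K) (Z : ∀ i, Matrix (C i) (C i) K) :
    Matrix (Tot B C) (Tot B C) K :=
  blockDiagonal' fun i => fromBlocks (Y i) 0 0 (Z i)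

/-- the operator with block `Y` on `V_i`, block `Z` on `H_i` and zero elsewhere -/
def place (i : I) (Y : Matrix (B i) (B i) K) (Z : Matrix (C i) (C i) K) :
    Matrix (Tot B C) (Tot B C) K :=
  placeAll (Pi.single i Y) (Pi.single i Z)

/-- the form `(v, x, y) ↦ E (Ψ_v x, y)` on `V_i × H_i × H_i` -/
def ksForm (i : I) (E : Matrix (C i) (C i) K) (Ψ : B i → Matrix (C i) (C i) K) :
    (Unit ⊕ Fin 2 → Tot B C) → K :=
  extC (iv i) (ih i) E fun J : Unit → B i => Ψ (J ())

/-- the form `(x, y) ↦ E (M x, y)` on `H_i × H_i` -/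
def endForm (i : I) (E M : Matrix (C i) (C i) K) : (Empty ⊕ Fin 2 → Tot B C) → K :=
  extC (iv i) (ih i) E fun _ : Empty → B i => M

/-- the operator of `e_a ∧ e_b` on `V_i ⊕ H_i` -/
def dop (i : I) (Ψ : B i → Matrix (C i) (C i) K) (a b : B i) : Matrix (Tot B C) (Tot B C) K :=
  place i (Matrix.single a b 1 - Matrix.single b a 1) ((1 / 4 : K) • (Ψ a * Ψ b - Ψ b * Ψ a))

/-- the forms killed by the orthogonal Lie algebras of the blocks -/
def InvT {ι : Type} (Ψ : ∀ i, B i → Matrix (C i) (C i) K) (κ : ∀ i, B i → ι) {S : Type} [Fintype S]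
    [DecidableEq S] (f : (S → Tot B C) → K) : Prop :=
  ∀ i a b, κ i a = κ i b → der (dop i (Ψ i) a b) f = 0

variable (X : ∀ i, K3Type (B i)) (D : ∀ i, KSData (X i) (C i))

/-- the Gram matrix of `⊕ (V_i ⊕ H_i)` -/
def gram : Matrix (Tot B C) (Tot B C) ℚ := placeAll (fun i => (X i).q) fun i => (D i).E

/-- the operator of the Hodge structure on `⊕ (V_i ⊕ H_i)` -/
def hT : Matrix (Tot B C) (Tot B C) ℂ := placeAll (fun i => (X i).h) fun i => (X i).ht (D i).Φ

/-- Hodge classes -/
def IsHodgeT {S : Type} [Fintype S] [DecidableEq S] (f : (S → Tot B C) → ℚ) : Prop :=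
  der (hT X D) (cx f) = 0

/-- the rational operators (blocks on the `V_i` and on the `H_i`) which kill all Hodge classes -/
def gT : Set ((∀ i, Matrix (B i) (B i) ℚ) × (∀ i, Matrix (C i) (C i) ℚ)) :=
  {y | ∀ (S : Type) (_ : Fintype S) (_ : DecidableEq S) (f : (S → Tot B C) → ℚ),
    IsHodgeT X D f → der (placeAll y.1 y.2) f = 0}

/-- the complex span of `gT` -/
def gTC : Submodule ℂ ((∀ i, Matrix (B i) (B i) ℂ) × (∀ i, Matrix (C i) (C i) ℂ)) :=
  Submodule.span ℂ ((fun y => (fun i => cm (y.1 i), fun i => cm (y.2 i))) '' gT X D)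

end family

namespace K3Type

variable {B : Type} [Fintype B] [DecidableEq B] (X : K3Type B) {C : Type} [Fintype C]
  [DecidableEq C]

/-- the action on `H` of a skew operator `Y` of `V`:
the quarter of the sum of the `(Y q⁻¹)_{kj} Φ_k Φ_j` -/
def lft (Φ : B → Matrix C C ℚ) (Y : Matrix B B ℂ) : Matrix C C ℂ :=
  (1 / 4 : ℂ) • ∑ k, ∑ j, (Y * (cm X.q)⁻¹) k j • (cm (Φ k) * cm (Φ j))

/-- the algebra of the endomorphisms of the Hodge structure -/
def endo : Submodule ℚ (Matrix B B ℚ) where
  carrier := {M | cm M * X.h = X.h * cm M}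
  add_mem' := by
    intro M N hM hN
    have h : cm (M + N) = cm M + cm N := Matrix.map_add _ (map_add _) _ _
    simp only [Set.mem_ofPred_eq] at *
    rw [h, add_mul, mul_add, hM, hN]
  zero_mem' := by
    have h : cm (0 : Matrix B B ℚ) = 0 := Matrix.map_zero _ (map_zero _)
    simp only [Set.mem_ofPred_eq]
    rw [h, zero_mul, mul_zero]
  smul_mem' := by
    intro c M hM
    have h : cm (c • M) = (c : ℂ) • cm M := by
      ext a b
      simp [cm]
    simp only [Set.mem_ofPred_eq] at *
    rw [h, smul_mul_assoc, mul_smul_comm, hM]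

end K3Type

end

end Pool.Agent.N429.KS
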