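import Pool.Agent.N429.KS.Defs2

/-!
# The operator of the Hodge structure on a direct sum of K3 type structures
-/

set_option linter.unusedSectionVars false

open Matrix Finset Function

namespace Pool.Agent.N429.KS

noncomputable section

section family

variable {I : Type} [Fintype I] [DecidableEq I] {B : I → Type} [∀ i, Fintype (B i)]
  [∀ i, DecidableEq (B i)] (X : ∀ i, K3Type (B i))

/-- the operator of the Hodge structure on `⊕ V_i` -/
def hS : Matrix (Σ i, B i) (Σ i, B i) ℂ := blockDiagonal' fun i => (X i).h

end family

end

end Pool.Agent.N429.KS
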