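import Pool.Agent.N429.KS.Defs
import Pool.Agent.TH125.Nod.Fft

/-!
# Factoring out the determinant of a full block
-/

set_option linter.unusedSectionVars false

open Matrix Finset Function

namespace Pool.Agent.N429.KS

noncomputable section

section fft

variable {K : Type} [Field K] [CharZero K] {B : Type} [Fintype B] [DecidableEq B] {ι : Type}
  [DecidableEq ι]

/-- the forms killed by the orthogonal Lie algebras of the blocks -/
def InvB {S : Type} [Fintype S] [DecidableEq S] (κ : B → ι) (f : (S → B) → K) : Prop :=
  ∀ a b, κ a = κ b → der (Matrix.single a b 1 - Matrix.single b a 1) f = 0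

theorem der_single {S : Type} [Fintype S] [DecidableEq S] (a b : B) (f : (S → B) → K)
    (J : S → B) : der (Matrix.single a b 1 - Matrix.single b a 1) f J =
      ∑ s, ((if J s = b then f (update J s a) else 0) -
        (if J s = a then f (update J s b) else 0)) := by
  unfold der
  refine Finset.sum_congr rfl fun s _ => ?_
  simp only [Matrix.sub_apply, sub_mul, Finset.sum_sub_distrib, Matrix.single_apply, ite_mul,
    one_mul, zero_mul]
  congr 1
  · rw [Finset.sum_eq_single a]
    · by_cases h : J s = b
      · rw [if_pos h, if_pos ⟨rfl, h.symm⟩]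
      · rw [if_neg h, if_neg fun h' => h h'.2.symm]
    · intro x _ hx
      rw [if_neg fun h => hx h.1.symm]
    · intro h
      exact absurd (Finset.mem_univ _) h
  · rw [Finset.sum_eq_single b]
    · by_cases h : J s = a
      · rw [if_pos h, if_pos ⟨rfl, h.symm⟩]
      · rw [if_neg h, if_neg fun h' => h h'.2.symm]
    · intro x _ hx
      rw [if_neg fun h => hx h.1.symm]
    · intro h
      exact absurd (Finset.mem_univ _) h

section full

variable {S : Type} [Fintype S] [DecidableEq S] {κ : B → ι} {c : S → ι} {i : ι}

/-- the tuple with the values of `σ ∘ e` in the variables of the block -/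
def exJ (e : {s : S // c s = i} ≃ {b : B // κ b = i}) (σ : Equiv.Perm {b : B // κ b = i})
    (J : {s : S // c s ≠ i} → B) : S → B :=
  fun s => if h : c s = i then (σ (e ⟨s, h⟩)).1 else J ⟨s, h⟩

theorem exJ_pos (e : {s : S // c s = i} ≃ {b : B // κ b = i}) (σ : Equiv.Perm {b : B // κ b = i})
    (J : {s : S // c s ≠ i} → B) {s : S} (h : c s = i) : exJ e σ J s = (σ (e ⟨s, h⟩)).1 :=
  dif_pos h

theorem exJ_neg (e : {s : S // c s = i} ≃ {b : B // κ b = i}) (σ : Equiv.Perm {b : B // κ b = i})
    (J : {s : S // c s ≠ i} → B) {s : S} (h : c s ≠ i) : exJ e σ J s = J ⟨s, h⟩ :=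
  dif_neg h

theorem exJ_swap (e : {s : S // c s = i} ≃ {b : B // κ b = i})
    (σ : Equiv.Perm {b : B // κ b = i}) (x y : {b : B // κ b = i})
    (J : {s : S // c s ≠ i} → B) :
    exJ e (σ * Equiv.swap x y) J =
      exJ e σ J ∘ Equiv.swap (e.symm x).1 (e.symm y).1 := by
  funext s
  rw [Function.comp_apply]
  by_cases h : c s = i
  · rw [exJ_pos _ _ _ h]
    have h1 : c (Equiv.swap (e.symm x).1 (e.symm y).1 s) = i := by
      by_cases h2 : s = (e.symm x).1
      · rw [h2, Equiv.swap_apply_left]; exact (e.symm y).2
      by_cases h3 : s = (e.symm y).1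
      · rw [h3, Equiv.swap_apply_right]; exact (e.symm x).2
      rw [Equiv.swap_apply_of_ne_of_ne h2 h3]; exact h
    rw [exJ_pos _ _ _ h1, Equiv.Perm.mul_apply]
    congr 2
    have h4 : (⟨Equiv.swap (e.symm x).1 (e.symm y).1 s, h1⟩ : {s : S // c s = i}) =
        Equiv.swap (e.symm x) (e.symm y) ⟨s, h⟩ := by
      apply Subtype.ext
      show Equiv.swap (e.symm x).1 (e.symm y).1 s = (Equiv.swap (e.symm x) (e.symm y) ⟨s, h⟩).1
      by_cases h2 : (⟨s, h⟩ : {s : S // c s = i}) = e.symm x
      · have h2' : s = (e.symm x).1 := congrArg Subtype.val h2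
        rw [h2, Equiv.swap_apply_left, h2', Equiv.swap_apply_left]
      by_cases h3 : (⟨s, h⟩ : {s : S // c s = i}) = e.symm y
      · have h3' : s = (e.symm y).1 := congrArg Subtype.val h3
        rw [h3, Equiv.swap_apply_right, h3', Equiv.swap_apply_right]
      rw [Equiv.swap_apply_of_ne_of_ne h2 h3, Equiv.swap_apply_of_ne_of_ne
        (fun h' => h2 (Subtype.ext h')) (fun h' => h3 (Subtype.ext h'))]
    rw [h4]
    by_cases h2 : (⟨s, h⟩ : {s : S // c s = i}) = e.symm x
    · rw [h2, Equiv.swap_apply_left, e.apply_symm_apply, e.apply_symm_apply,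
        Equiv.swap_apply_left]
    by_cases h3 : (⟨s, h⟩ : {s : S // c s = i}) = e.symm y
    · rw [h3, Equiv.swap_apply_right, e.apply_symm_apply, e.apply_symm_apply,
        Equiv.swap_apply_right]
    rw [Equiv.swap_apply_of_ne_of_ne h2 h3, Equiv.swap_apply_of_ne_of_ne]
    · intro h'; exact h2 (e.eq_symm_apply.2 h')
    · intro h'; exact h3 (e.eq_symm_apply.2 h')
  · have h2 : s ≠ (e.symm x).1 := fun h' => h (h' ▸ (e.symm x).2)
    have h3 : s ≠ (e.symm y).1 := fun h' => h (h' ▸ (e.symm y).2)
    rw [Equiv.swap_apply_of_ne_of_ne h2 h3, exJ_neg _ _ _ h, exJ_neg _ _ _ h]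

theorem exJ_sign (e : {s : S // c s = i} ≃ {b : B // κ b = i}) (w : (S → B) → K)
    (halt : ∀ a b : S, c a = i → c b = i → a ≠ b → ∀ J : S → B, w (J ∘ Equiv.swap a b) = - w J)
    (J : {s : S // c s ≠ i} → B) (σ : Equiv.Perm {b : B // κ b = i}) :
    w (exJ e σ J) = ((Equiv.Perm.sign σ : ℤ) : K) * w (exJ e 1 J) := by
  induction σ using Equiv.Perm.swap_induction_on' with
  | one => simp
  | mul_swap τ x y hxy hτ =>
    rw [exJ_swap, halt _ _ (e.symm x).2 (e.symm y).2 (fun h => hxy (e.symm.injective
      (Subtype.ext h))), hτ, Equiv.Perm.sign_mul, Equiv.Perm.sign_swap hxy]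
    push_cast
    ring

end full

/-- K5b: a form which is alternating in all the variables of a full block is the product of the
determinant of the block and of an invariant form in the other variables -/
theorem full_block {S : Type} [Fintype S] [DecidableEq S] {κ : B → ι} {c : S → ι} {i : ι}
    (e : {s : S // c s = i} ≃ {b : B // κ b = i}) (w : (S → B) → K) (hw : InvB κ w)
    (hsup : TH125.Nod.Sup κ c w)
    (halt : ∀ a b : S, c a = i → c b = i → a ≠ b → ∀ J : S → B, w (J ∘ Equiv.swap a b) = - w J) :
    ∃ g : ({s : S // c s ≠ i} → B) → K, InvB κ g ∧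
      ∀ J : S → B, w J = detf κ i (fun b => J (e.symm b).1) * g (fun s => J s.1) := by
  refine ⟨fun J => w (exJ e 1 J), ?_, ?_⟩
  · intro a b hab
    funext J
    rw [der_single, Pi.zero_apply]
    by_cases hk : κ a = i
    · refine Finset.sum_eq_zero fun s _ => ?_
      have hz : ∀ v, κ v = i → w (exJ e 1 (update J s v)) = 0 := by
        intro v hv
        apply hsup
        intro h
        have h1 := h s.1
        rw [exJ_neg _ _ _ s.2, update_self, hv] at h1
        exact s.2 h1.symm
      rw [hz a hk, hz b (hab ▸ hk)]
      simp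
    · have h0 := congrFun (hw a b hab) (exJ e 1 J)
      rw [der_single, Pi.zero_apply] at h0
      have hsplit : ∀ F : S → K, ∑ s, F s = ∑ s : {s : S // c s = i}, F s.1 +
          ∑ s : {s : S // c s ≠ i}, F s.1 := fun F =>
        (Fintype.sum_subtype_add_sum_subtype (fun s => c s = i) F).symm
      rw [hsplit] at h0
      have hz : ∑ s : {s : S // c s = i}, ((if exJ e 1 J s.1 = b then
          w (update (exJ e 1 J) s.1 a) else 0) -
          (if exJ e 1 J s.1 = a then w (update (exJ e 1 J) s.1 b) else 0)) = 0 := by
        refine Finset.sum_eq_zero fun s _ => ?_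
        have h1 : κ (exJ e 1 J s.1) = i := by
          rw [exJ_pos _ _ _ s.2]
          exact (e ⟨s.1, s.2⟩).2
        rw [if_neg, if_neg, sub_zero]
        · intro h; exact hk (h ▸ h1)
        · intro h; exact hk (hab.trans (h ▸ h1))
      rw [hz, zero_add] at h0
      refine Eq.trans (Finset.sum_congr rfl fun s _ => ?_) h0
      have hu : ∀ v, exJ e 1 (update J s v) = update (exJ e 1 J) s.1 v := by
        intro v
        funext t
        by_cases ht : c t = i
        · have hts : t ≠ s.1 := by
            intro h
            apply s.2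
            rw [← h]
            exact ht
          rw [exJ_pos _ _ _ ht, update_of_ne hts, exJ_pos _ _ _ ht]
        · rw [exJ_neg _ _ _ ht]
          by_cases hts : t = s.1
          · subst hts
            rw [update_self]
            exact (update_self (f := exJ e 1 J) s.1 v).symm ▸ update_self _ _ _
          · rw [update_of_ne hts, exJ_neg _ _ _ ht,
              update_of_ne (fun h => hts (congrArg Subtype.val h))]
      rw [hu, hu, exJ_neg _ _ _ s.2]
  · intro J
    show w J = detf κ i (fun b => J (e.symm b).1) * w (exJ e 1 (fun s => J s.1))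
    by_cases hJ : ∀ b : {b : B // κ b = i}, κ (J (e.symm b).1) = i
    · let p : {b : B // κ b = i} → {b : B // κ b = i} := fun b => ⟨J (e.symm b).1, hJ b⟩
      by_cases hp : Function.Injective p
      · let σ : Equiv.Perm {b : B // κ b = i} :=
          Equiv.ofBijective p (Finite.injective_iff_bijective.1 hp)
        have hσ : ∀ b, σ b = p b := fun b => rfl
        have h1 : J = exJ e σ (fun s => J s.1) := by
          funext s
          by_cases h : c s = i
          · rw [exJ_pos _ _ _ h, hσ]
            show J s = J (e.symm (e ⟨s, h⟩)).1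
            rw [e.symm_apply_apply]
          · rw [exJ_neg _ _ _ h]
        have h2 : detf κ i (fun b => J (e.symm b).1) = ((Equiv.Perm.sign σ : ℤ) : K) := by
          unfold detf
          rw [← Matrix.det_permutation (n := {b : B // κ b = i}) (R := K) σ]
          congr 1
          ext a b
          show (if J (e.symm a).1 = b.1 then (1 : K) else 0) = (Equiv.toPEquiv σ).toMatrix a b
          rw [PEquiv.toMatrix_apply, Equiv.toPEquiv_apply]
          simp only [Option.mem_def, Option.some_inj]
          have h3 : (J (e.symm a).1 = b.1) ↔ σ a = b := by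
            rw [hσ, Subtype.ext_iff]
          by_cases h4 : σ a = b
          · rw [if_pos (h3.2 h4), if_pos h4]
          · rw [if_neg (fun h => h4 (h3.1 h)), if_neg h4]
        rw [h2, ← exJ_sign e w halt, ← h1]
      · rw [Function.Injective] at hp
        push Not at hp
        obtain ⟨x, y, hxy, hne⟩ := hp
        have hv : J (e.symm x).1 = J (e.symm y).1 := congrArg Subtype.val hxy
        have hne' : (e.symm x).1 ≠ (e.symm y).1 := fun h => hne (e.symm.injective (Subtype.ext h))
        have h1 : w J = 0 := by
          have h2 := halt _ _ (e.symm x).2 (e.symm y).2 hne' J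
          have h3 : J ∘ Equiv.swap (e.symm x).1 (e.symm y).1 = J := by
            funext s
            rw [Function.comp_apply]
            by_cases h4 : s = (e.symm x).1
            · rw [h4, Equiv.swap_apply_left, hv]
            by_cases h5 : s = (e.symm y).1
            · rw [h5, Equiv.swap_apply_right, hv]
            rw [Equiv.swap_apply_of_ne_of_ne h4 h5]
          rw [h3] at h2
          exact self_eq_neg.1 h2
        have h2 : detf κ i (fun b => J (e.symm b).1) = (0 : K) := by
          unfold detf
          refine Matrix.det_zero_of_row_eq hne ?_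
          funext b
          simp only [Matrix.of_apply, hv]
        rw [h1, h2, zero_mul]
    · push Not at hJ
      obtain ⟨b, hb⟩ := hJ
      have h1 : w J = 0 := by
        apply hsup
        intro h
        apply hb
        rw [h]
        exact (e.symm b).2
      have h2 : detf κ i (fun b => J (e.symm b).1) = (0 : K) := by
        unfold detf
        refine Matrix.det_eq_zero_of_row_eq_zero b fun x => ?_
        rw [Matrix.of_apply, if_neg]
        intro h
        have h' : J (e.symm b).1 = x.1 := h
        apply hb
        rw [h']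
        exact x.2
      rw [h1, h2, zero_mul]

end fft

end

end Pool.Agent.N429.KS
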