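import Pool.Agent.N429.KS.Defs2
import Pool.Agent.N429.KS.K4
import Pool.Agent.N429.KS.K5b
import Pool.Agent.N429.KS.K8

/-!
# Q1: the invariants of the blocks are complex combinations of Hodge classes (helper362)
-/

set_option linter.unusedSectionVars false

open Matrix Finset Function

namespace Pool.Agent.N429.KS

noncomputable section

namespace Q1

open K8

section lin

variable {K : Type} [Field K] {B : Type} [Fintype B] [DecidableEq B] {S : Type} [Fintype S]
  [DecidableEq S]

theorem der_add' (Y Z : Matrix B B K) (f : (S → B) → K) : der (Y + Z) f = der Y f + der Z f := by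
  funext J
  simp only [der, Pi.add_apply, Matrix.add_apply, add_mul, Finset.sum_add_distrib]

theorem der_smul' (c : K) (Y : Matrix B B K) (f : (S → B) → K) :
    der (c • Y) f = c • der Y f := by
  funext J
  simp only [der, Pi.smul_apply, Matrix.smul_apply, smul_eq_mul, mul_assoc, ← Finset.mul_sum]

theorem der_zero' (f : (S → B) → K) : der (0 : Matrix B B K) f = 0 := by
  funext J
  simp [der]

theorem der_sum' {ι : Type} (s : Finset ι) (Y : ι → Matrix B B K) (f : (S → B) → K) :
    der (∑ i ∈ s, Y i) f = ∑ i ∈ s, der (Y i) f := by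
  classical
  induction s using Finset.induction_on with
  | empty => rw [Finset.sum_empty, Finset.sum_empty, der_zero']
  | insert a s ha ih => rw [Finset.sum_insert ha, Finset.sum_insert ha, der_add', ih]

end lin

variable {B : Type} [Fintype B] [DecidableEq B]

theorem der_cx {S : Type} [Fintype S] [DecidableEq S] (Y : Matrix B B ℚ) (g : (S → B) → ℚ) :
    der (cm Y) (cx g) = cx (der Y g) := by
  funext J
  simp only [der, cm, cx, Matrix.map_apply]
  push_cast
  rfl

/-- the operator of the Hodge structure is in the complex span of the rational skew operators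
commuting with `θ` -/
theorem h_mem (X : K3Type B) (θ : Matrix B B ℚ) (hθh : cm θ * X.h = X.h * cm θ) :
    X.h ∈ Submodule.span ℂ (cm '' {Y : Matrix B B ℚ | X.q * Y + Yᵀ * X.q = 0 ∧ Y * θ = θ * Y}) := by
  obtain ⟨Q, hQ⟩ : ∃ Q : Matrix B B ℂ, Q = cm X.q := ⟨_, rfl⟩
  have hQs : Qᵀ = Q := by
    rw [hQ, ← cm_tr, X.sym.eq]
  obtain ⟨g, hg⟩ : ∃ g : Set (Matrix B B ℚ),
    g = {Y | X.q * Y + Yᵀ * X.q = 0 ∧ Y * θ = θ * Y} := ⟨_, rfl⟩
  rw [← hg]
  have hskew : Q * X.h + X.hᵀ * Q = 0 := by
    have h1 : ∀ x y : B → ℂ, Q * vecMulVec x (Q *ᵥ y) = vecMulVec (Q *ᵥ x) (Q *ᵥ y) := by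
      intro x y
      rw [Matrix.mul_vecMulVec]
    have h2 : ∀ x y : B → ℂ, (vecMulVec x (Q *ᵥ y))ᵀ * Q = vecMulVec (Q *ᵥ y) (Q *ᵥ x) := by
      intro x y
      rw [Matrix.transpose_vecMulVec, Matrix.vecMulVec_mul, ← Matrix.mulVec_transpose, hQs]
    unfold K3Type.h wedge
    rw [← hQ, mul_smul_comm, Matrix.transpose_smul, smul_mul_assoc, Matrix.transpose_sub,
      Matrix.mul_sub, Matrix.sub_mul, h1, h1, h2, h2, ← smul_add]
    rw [show ∀ a b : Matrix B B ℂ, a - b + (b - a) = 0 by intro a b; abel, smul_zero]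
  have hmem : X.h ∈ Submodule.span ℂ (cm '' g) := by
    have h1 := sol (A := B) (A' := B) (τ := (B × B) ⊕ (B × B))
      { toFun := fun M => Sum.elim (fun p => (X.q * M + Mᵀ * X.q) p.1 p.2)
          (fun p => (M * θ - θ * M) p.1 p.2)
        map_add' := by
          intro M N
          funext t
          rcases t with p | p
          · simp only [Sum.elim_inl, Pi.add_apply, Matrix.transpose_add, Matrix.mul_add,
              Matrix.add_mul, Matrix.add_apply]
            ring
          · simp only [Sum.elim_inr, Pi.add_apply, Matrix.mul_add, Matrix.add_mul, Matrix.add_apply,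
              Matrix.sub_apply]
            ring
        map_smul' := by
          intro r M
          funext t
          rcases t with p | p
          · simp only [Sum.elim_inl, Pi.smul_apply, Matrix.transpose_smul, Matrix.mul_smul,
              Matrix.smul_mul, Matrix.add_apply, Matrix.smul_apply, smul_eq_mul, RingHom.id_apply]
            ring
          · simp only [Sum.elim_inr, Pi.smul_apply, Matrix.mul_smul,
              Matrix.smul_mul, Matrix.sub_apply, Matrix.smul_apply, smul_eq_mul, RingHom.id_apply]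
            ring }
      { toFun := fun M => Sum.elim (fun p => (Q * M + Mᵀ * Q) p.1 p.2)
          (fun p => (M * cm θ - cm θ * M) p.1 p.2)
        map_add' := by
          intro M N
          funext t
          rcases t with p | p
          · simp only [Sum.elim_inl, Pi.add_apply, Matrix.transpose_add, Matrix.mul_add,
              Matrix.add_mul, Matrix.add_apply]
            ring
          · simp only [Sum.elim_inr, Pi.add_apply, Matrix.mul_add, Matrix.add_mul, Matrix.add_apply,
              Matrix.sub_apply]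
            ring
        map_smul' := by
          intro r M
          funext t
          rcases t with p | p
          · simp only [Sum.elim_inl, Pi.smul_apply, Matrix.transpose_smul, Matrix.mul_smul,
              Matrix.smul_mul, Matrix.add_apply, Matrix.smul_apply, smul_eq_mul, RingHom.id_apply]
            ring
          · simp only [Sum.elim_inr, Pi.smul_apply, Matrix.mul_smul,
              Matrix.smul_mul, Matrix.sub_apply, Matrix.smul_apply, smul_eq_mul, RingHom.id_apply]
            ring }
      (by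
        intro M t
        rcases t with p | p
        · change (Q * cm M + (cm M)ᵀ * Q) p.1 p.2 = (((X.q * M + Mᵀ * X.q) p.1 p.2 : ℚ) : ℂ)
          rw [← cm_apply, cm_add, cm_mul, cm_mul, cm_tr, hQ]
        · change (cm M * cm θ - cm θ * cm M) p.1 p.2 = (((M * θ - θ * M) p.1 p.2 : ℚ) : ℂ)
          rw [← cm_apply, cm_sub, cm_mul, cm_mul])
      (Z := X.h) (by
        funext t
        rcases t with p | p
        · change (Q * X.h + X.hᵀ * Q) p.1 p.2 = 0
          rw [hskew]
          rfl
        · change (X.h * cm θ - cm θ * X.h) p.1 p.2 = 0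
          rw [hθh, sub_self]
          rfl)
    refine Submodule.span_mono ?_ h1
    rintro _ ⟨M, hM, rfl⟩
    refine ⟨M, ?_, rfl⟩
    rw [hg]
    have h2 : ∀ t, (Sum.elim (fun p : B × B => (X.q * M + Mᵀ * X.q) p.1 p.2)
          (fun p : B × B => (M * θ - θ * M) p.1 p.2)) t = 0 := fun t => congrFun hM t
    constructor
    · ext a b
      exact h2 (Sum.inl (a, b))
    · rw [← sub_eq_zero]
      ext a b
      exact h2 (Sum.inr (a, b))
  exact hmem

/-- descent: the forms killed by the rational skew operators commuting with `θ` are complex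
combinations of Hodge classes -/
theorem span_of_kill (X : K3Type B) (θ : Matrix B B ℚ) (hθh : cm θ * X.h = X.h * cm θ)
    {S : Type} [Fintype S] [DecidableEq S] (F : (S → B) → ℂ)
    (hF : ∀ Y : Matrix B B ℚ, X.q * Y + Yᵀ * X.q = 0 → Y * θ = θ * Y → der (cm Y) F = 0) :
    F ∈ Submodule.span ℂ (cx '' {g : (S → B) → ℚ | X.IsHodge g}) := by
  have hmem := h_mem X θ hθh
  obtain ⟨g, hg⟩ : ∃ g : Set (Matrix B B ℚ),
    g = {Y | X.q * Y + Yᵀ * X.q = 0 ∧ Y * θ = θ * Y} := ⟨_, rfl⟩
  rw [← hg] at hmem
  have hg' : ∀ Y, Y ∈ g ↔ X.q * Y + Yᵀ * X.q = 0 ∧ Y * θ = θ * Y := by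
    intro Y
    rw [hg]
    rfl
  have hR : ∀ f : (S → B) → ℚ, (∀ Y ∈ g, der Y f = 0) → X.IsHodge f := by
    intro f hf
    have h1 : ∀ Z ∈ Submodule.span ℂ (cm '' g), der Z (cx f) = 0 := by
      intro Z hZ
      induction hZ using Submodule.span_induction with
      | mem Z hZ =>
        obtain ⟨Y, hY, rfl⟩ := hZ
        rw [der_cx, hf Y hY]
        funext J
        simp [cx]
      | zero => exact der_zero' _
      | add a b _ _ ha hb => rw [der_add', ha, hb, add_zero]
      | smul c a _ ha => rw [der_smul', ha, smul_zero]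
    exact h1 _ hmem
  have h1 := sol (A := S → B) (A' := Unit) (τ := g × (S → B))
    { toFun := fun M t => der t.1.1 (fun J => M J ()) t.2
      map_add' := by
        intro M N
        funext t
        simp only [der, Pi.add_apply, Matrix.add_apply, mul_add, Finset.sum_add_distrib]
      map_smul' := by
        intro r M
        funext t
        simp only [der, Pi.smul_apply, Matrix.smul_apply, smul_eq_mul, RingHom.id_apply,
          Finset.mul_sum]
        refine Finset.sum_congr rfl fun s _ => Finset.sum_congr rfl fun b _ => ?_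
        ring }
    { toFun := fun M t => der (cm t.1.1) (fun J => M J ()) t.2
      map_add' := by
        intro M N
        funext t
        simp only [der, Pi.add_apply, Matrix.add_apply, mul_add, Finset.sum_add_distrib]
      map_smul' := by
        intro r M
        funext t
        simp only [der, Pi.smul_apply, Matrix.smul_apply, smul_eq_mul, RingHom.id_apply,
          Finset.mul_sum]
        refine Finset.sum_congr rfl fun s _ => Finset.sum_congr rfl fun b _ => ?_
        ring }
    (by
      intro M t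
      change der (cm t.1.1) (cx fun J => M J ()) t.2 = ((der t.1.1 (fun J => M J ()) t.2 : ℚ) : ℂ)
      rw [der_cx]
      rfl)
    (Z := Matrix.of fun J _ => F J) (by
      funext t
      change der (cm t.1.1) F t.2 = 0
      have ht : X.q * t.1.1 + t.1.1ᵀ * X.q = 0 ∧ t.1.1 * θ = θ * t.1.1 := (hg' _).1 t.1.2
      rw [hF t.1.1 ht.1 ht.2]
      rfl)
  let φ : Matrix (S → B) Unit ℂ →ₗ[ℂ] ((S → B) → ℂ) :=
    { toFun := fun M J => M J ()
      map_add' := fun M N => rfl
      map_smul' := fun r M => rfl }
  have h2 : F ∈ (Submodule.span ℂ _).map φ := ⟨_, h1, rfl⟩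
  rw [Submodule.map_span] at h2
  refine Submodule.span_mono ?_ h2
  rintro _ ⟨_, ⟨M, hM, rfl⟩, rfl⟩
  refine ⟨fun J => M J (), hR _ fun Y hY => ?_, rfl⟩
  funext J
  exact congrFun hM (⟨Y, hY⟩, J)

end Q1

section main

open K8 Q1

variable {B : Type} [Fintype B] [DecidableEq B]

/-- Q1 -/
theorem inv_span (X : K3Type B) (θ : Matrix B B ℚ) (hθs : (X.q * θ).IsSymm)
    (hθh : cm θ * X.h = X.h * cm θ) (U : Matrix B B ℂ) (κ : B → ℂ) (hU : Uᵀ * U = cm X.q)
    (hκ : U * cm θ = diagonal κ * U) {S : Type} [Fintype S] [DecidableEq S] (f : (S → B) → ℂ)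
    (hf : InvB κ f) :
    chg U f ∈ Submodule.span ℂ (cx '' {g : (S → B) → ℚ | X.IsHodge g}) := by
  apply span_of_kill X θ hθh
  intro Y hYs hYθ
  -- inverses
  have hqd : IsUnit X.q.det := isUnit_iff_ne_zero.2 X.nondeg
  have hqq : X.q * X.q⁻¹ = 1 := Matrix.mul_nonsing_inv _ hqd
  obtain ⟨Q, hQ⟩ : ∃ Q : Matrix B B ℂ, Q = cm X.q := ⟨_, rfl⟩
  obtain ⟨P, hP⟩ : ∃ P : Matrix B B ℂ, P = cm X.q⁻¹ := ⟨_, rfl⟩
  have hQP : Q * P = 1 := by rw [hQ, hP, ← cm_mul, hqq, cm_one]
  have hPQ : P * Q = 1 := mul_eq_one_comm.1 hQP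
  have hQs : Qᵀ = Q := by
    rw [hQ, ← cm_tr, X.sym.eq]
  have hVU : (P * Uᵀ) * U = 1 := by rw [mul_assoc, hU, ← hQ, hPQ]
  have hUV : U * (P * Uᵀ) = 1 := mul_eq_one_comm.1 hVU
  obtain ⟨V, hV⟩ : ∃ V : Matrix B B ℂ, V = P * Uᵀ := ⟨_, rfl⟩
  rw [← hV] at hVU hUV
  obtain ⟨Z, hZ⟩ : ∃ Z : Matrix B B ℂ, Z = U * cm Y * V := ⟨_, rfl⟩
  have hZU : U * cm Y = Z * U := by rw [hZ, mul_assoc (U * cm Y), hVU, mul_one]
  rw [← chg_der U (cm Y) Z hZU]
  have h2 : diagonal κ * Z = Z * diagonal κ := by
    have h3 : cm θ * V = V * diagonal κ := by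
      calc cm θ * V = (V * U) * cm θ * V := by rw [hVU, one_mul]
        _ = V * (U * cm θ) * V := by rw [mul_assoc V]
        _ = V * (diagonal κ * U) * V := by rw [hκ]
        _ = V * diagonal κ * (U * V) := by simp only [mul_assoc]
        _ = _ := by rw [hUV, mul_one]
    calc diagonal κ * Z = (diagonal κ * U) * cm Y * V := by rw [hZ]; simp only [mul_assoc]
      _ = U * (cm θ * cm Y) * V := by rw [← hκ]; simp only [mul_assoc]
      _ = U * (cm Y * cm θ) * V := by rw [← cm_mul, ← hYθ, cm_mul]
      _ = U * cm Y * (cm θ * V) := by simp only [mul_assoc]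
      _ = _ := by rw [h3, hZ]; simp only [mul_assoc]
  -- `Z` is skew
  have hZs : Zᵀ = -Z := by
    have hPs : Pᵀ = P := by
      calc Pᵀ = Pᵀ * (Q * P) := by rw [hQP, mul_one]
        _ = (Pᵀ * Qᵀ) * P := by rw [hQs, mul_assoc]
        _ = (Q * P)ᵀ * P := by rw [Matrix.transpose_mul]
        _ = P := by rw [hQP, Matrix.transpose_one, one_mul]
    have hs : Q * cm Y + (cm Y)ᵀ * Q = 0 := by
      have h5 := congrArg cm hYs
      rw [cm_add, cm_mul, cm_mul, cm_tr, ← hQ] at h5
      rw [h5]
      ext a b
      simp [cm]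
    have hs' : (cm Y)ᵀ * Q = -(Q * cm Y) := by
      rw [eq_neg_iff_add_eq_zero, add_comm]; exact hs
    have hs2 : P * (cm Y)ᵀ = -(cm Y * P) := by
      calc P * (cm Y)ᵀ = P * ((cm Y)ᵀ * (Q * P)) := by rw [hQP, mul_one]
        _ = P * ((cm Y)ᵀ * Q) * P := by simp only [mul_assoc]
        _ = -((P * Q) * cm Y * P) := by rw [hs']; simp only [mul_neg, neg_mul, mul_assoc]
        _ = _ := by rw [hPQ, one_mul]
    calc Zᵀ = U * (P * (cm Y)ᵀ) * Uᵀ := by
          rw [hZ, hV, Matrix.transpose_mul, Matrix.transpose_mul, Matrix.transpose_mul,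
            Matrix.transpose_transpose, hPs]
          simp only [mul_assoc]
      _ = -Z := by
          rw [hs2, hZ, hV, mul_neg, neg_mul]
          simp only [mul_assoc]
  have h3 : ∀ a b, Z a b ≠ 0 → κ a = κ b := by
    intro a b hab
    have h4 := congrFun (congrFun h2 a) b
    rw [Matrix.diagonal_mul, Matrix.mul_diagonal] at h4
    have h5 : (κ a - κ b) * Z a b = 0 := by linear_combination h4
    rcases mul_eq_zero.1 h5 with h6 | h6
    · exact sub_eq_zero.1 h6
    · exact absurd h6 hab
  have h6 : (2 : ℂ) • Z = ∑ a, ∑ b, Z a b • (Matrix.single a b 1 - Matrix.single b a 1) := by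
    have e1 : ∑ a, ∑ b, Z a b • (Matrix.single a b (1 : ℂ)) = Z := by
      conv_rhs => rw [Matrix.matrix_eq_sum_single Z]
      simp only [Matrix.smul_single, smul_eq_mul, mul_one]
    have e2 : ∑ a, ∑ b, Z a b • (Matrix.single b a (1 : ℂ)) = -Z := by
      conv_rhs => rw [← hZs, Matrix.matrix_eq_sum_single Zᵀ]
      rw [Finset.sum_comm]
      simp only [Matrix.smul_single, smul_eq_mul, mul_one, Matrix.transpose_apply]
    simp only [smul_sub, Finset.sum_sub_distrib]
    rw [e1, e2, two_smul, sub_neg_eq_add]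
  have h7 : der Z f = 0 := by
    have h8 : (2 : ℂ) • der Z f = 0 := by
      rw [← der_smul', h6, der_sum']
      refine Finset.sum_eq_zero fun a _ => ?_
      rw [der_sum']
      refine Finset.sum_eq_zero fun b _ => ?_
      rw [der_smul']
      by_cases hab : Z a b = 0
      · rw [hab, zero_smul]
      · rw [hf a b (h3 a b hab), smul_zero]
    exact (smul_eq_zero.1 h8).resolve_left (by norm_num)
  rw [h7, chg_zero]

end main

end

end Pool.Agent.N429.KS
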