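import Pool.Agent.N429.KS.K9
import Pool.Agent.N429.KS.K10a

/-!
# KS/K10: the transcendental Hodge structure is simple
-/

namespace Pool.Agent.N429.KS

variable {B : Type} [Fintype B] [DecidableEq B]

/-- K10 the module is simple -/
theorem simple (X : K3Type B) (W : Submodule ℚ (B → ℚ))
    (hW : ∀ Y ∈ X.gQ, ∀ w ∈ W, Matrix.mulVec Y w ∈ W) : W = ⊥ ∨ W = ⊤ :=
  K10.simple_of X (h_mem_gC X) W hW

end Pool.Agent.N429.KS
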