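import Pool.Agent.N429.KS.K9
import Pool.Agent.N429.KS.K10
import Pool.Agent.N429.KS.K11a

/-!
# K11: the real multiplication field
-/

set_option linter.unusedSectionVars false

open Matrix Finset Function

namespace Pool.Agent.N429.KS

variable {B : Type} [Fintype B] [DecidableEq B]

/-- K11 -/
theorem exists_theta (X : K3Type B) (hX : X.NonCM) : ∃ θ : Matrix B B ℚ, (X.q * θ).IsSymm ∧
    cm θ * X.h = X.h * cm θ ∧ Irreducible (minpoly ℚ θ) ∧ (∀ Y ∈ X.gQ, Y * θ = θ * Y) ∧
    ∀ A : Matrix B B ℚ, A * θ = θ * A → A ∈ Algebra.adjoin ℚ (X.gQ : Set (Matrix B B ℚ)) :=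
  exists_theta_of X (comm_iff X) (simple X) hX

end Pool.Agent.N429.KS
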