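import Pool.Agent.N429.KS.Defs

/-!
# The weight argument

An irreducible orthogonal Lie algebra which contains `ω ∧ ω'` for two isotropic vectors which are
not orthogonal to each other contains all `x ∧ y`.
-/

set_option linter.unusedSectionVars false

open Matrix Finset Function

namespace Pool.Agent.N429.KS

noncomputable section

namespace K12

variable {B : Type} [Fintype B] [DecidableEq B]

/-- the bilinear form -/
def bf (Q : Matrix B B ℂ) (x y : B → ℂ) : ℂ := x ⬝ᵥ (Q *ᵥ y)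

theorem bf_add_left (Q : Matrix B B ℂ) (x y z : B → ℂ) : bf Q (x + y) z = bf Q x z + bf Q y z := by
  simp [bf, add_dotProduct]

theorem bf_add_right (Q : Matrix B B ℂ) (x y z : B → ℂ) : bf Q x (y + z) = bf Q x y + bf Q x z := by
  simp [bf, mulVec_add, dotProduct_add]

theorem bf_smul_left (Q : Matrix B B ℂ) (c : ℂ) (x y : B → ℂ) : bf Q (c • x) y = c * bf Q x y := by
  simp [bf, smul_dotProduct]

theorem bf_smul_right (Q : Matrix B B ℂ) (c : ℂ) (x y : B → ℂ) : bf Q x (c • y) = c * bf Q x y := by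
  simp [bf, mulVec_smul, dotProduct_smul]

theorem bf_neg_left (Q : Matrix B B ℂ) (x y : B → ℂ) : bf Q (-x) y = - bf Q x y := by
  simp [bf, neg_dotProduct]

theorem bf_neg_right (Q : Matrix B B ℂ) (x y : B → ℂ) : bf Q x (-y) = - bf Q x y := by
  simp [bf, mulVec_neg, dotProduct_neg]

theorem bf_zero_left (Q : Matrix B B ℂ) (x : B → ℂ) : bf Q 0 x = 0 := by
  simp [bf]

theorem bf_zero_right (Q : Matrix B B ℂ) (x : B → ℂ) : bf Q x 0 = 0 := by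
  simp [bf]

theorem bf_symm {Q : Matrix B B ℂ} (hQ : Q.IsSymm) (x y : B → ℂ) : bf Q x y = bf Q y x := by
  unfold bf
  rw [dotProduct_mulVec, ← mulVec_transpose, hQ.eq, dotProduct_comm]

theorem bf_skew {Q : Matrix B B ℂ} {Y : Matrix B B ℂ} (hY : Q * Y + Yᵀ * Q = 0) (x y : B → ℂ) :
    bf Q (Y *ᵥ x) y = - bf Q x (Y *ᵥ y) := by
  have h1 : Yᵀ * Q = - (Q * Y) := eq_neg_of_add_eq_zero_right hY
  unfold bf
  have h2 : (Y *ᵥ x) ⬝ᵥ (Q *ᵥ y) = x ⬝ᵥ ((Yᵀ * Q) *ᵥ y) := by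
    rw [← mulVec_mulVec, dotProduct_comm, dotProduct_mulVec, ← mulVec_transpose, dotProduct_comm]
  rw [h2, h1, neg_mulVec, dotProduct_neg, mulVec_mulVec]

theorem wedge_mulVec (Q : Matrix B B ℂ) (x y u : B → ℂ) :
    wedge Q x y *ᵥ u = bf Q u y • x - bf Q u x • y := by
  have h : ∀ z w : B → ℂ, vecMulVec z w *ᵥ u = (u ⬝ᵥ w) • z := by
    intro z w
    funext i
    simp only [mulVec, vecMulVec_apply, dotProduct, Pi.smul_apply, smul_eq_mul]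
    rw [Finset.sum_mul]
    exact Finset.sum_congr rfl fun j _ => by ring
  rw [wedge, sub_mulVec, h, h]
  rfl

theorem wedge_add_left (Q : Matrix B B ℂ) (x y z : B → ℂ) :
    wedge Q (x + y) z = wedge Q x z + wedge Q y z := by
  simp only [wedge, add_vecMulVec, mulVec_add, vecMulVec_add]
  abel

theorem wedge_add_right (Q : Matrix B B ℂ) (x y z : B → ℂ) :
    wedge Q x (y + z) = wedge Q x y + wedge Q x z := by
  simp only [wedge, add_vecMulVec, mulVec_add, vecMulVec_add]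
  abel

theorem wedge_smul_left (Q : Matrix B B ℂ) (c : ℂ) (x y : B → ℂ) :
    wedge Q (c • x) y = c • wedge Q x y := by
  simp only [wedge, smul_vecMulVec, mulVec_smul, vecMulVec_smul, smul_sub]

theorem wedge_smul_right (Q : Matrix B B ℂ) (c : ℂ) (x y : B → ℂ) :
    wedge Q x (c • y) = c • wedge Q x y := by
  simp only [wedge, smul_vecMulVec, mulVec_smul, vecMulVec_smul, smul_sub]

theorem wedge_anti (Q : Matrix B B ℂ) (x y : B → ℂ) : wedge Q y x = - wedge Q x y := by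
  simp [wedge]

theorem wedge_self (Q : Matrix B B ℂ) (x : B → ℂ) : wedge Q x x = 0 := by
  simp [wedge]

theorem wedge_zero_right (Q : Matrix B B ℂ) (x : B → ℂ) : wedge Q x 0 = 0 := by
  have := wedge_smul_right Q 0 x 0
  simpa using this

theorem bracket {Q : Matrix B B ℂ} {Y : Matrix B B ℂ} (hY : Q * Y + Yᵀ * Q = 0)
    (x y : B → ℂ) :
    Y * wedge Q x y - wedge Q x y * Y = wedge Q (Y *ᵥ x) y + wedge Q x (Y *ᵥ y) := by
  have h1 : Yᵀ * Q = - (Q * Y) := eq_neg_of_add_eq_zero_right hY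
  have h2 : ∀ z w : B → ℂ, Y * vecMulVec z (Q *ᵥ w) = vecMulVec (Y *ᵥ z) (Q *ᵥ w) := fun z w => by
    rw [mul_vecMulVec]
  have h3 : ∀ z w : B → ℂ, vecMulVec z (Q *ᵥ w) * Y = - vecMulVec z (Q *ᵥ (Y *ᵥ w)) := fun z w => by
    rw [vecMulVec_mul, ← mulVec_transpose, mulVec_mulVec, h1, neg_mulVec, vecMulVec_neg,
      ← mulVec_mulVec]
  simp only [wedge, mul_sub, sub_mul, h2, h3]
  abel

/-- the situation -/
structure Dat (Q : Matrix B B ℂ) (L : Submodule ℂ (Matrix B B ℂ)) (T : Submodule ℂ (B → ℂ))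
    (ω ω' : B → ℂ) : Prop where
  hQ : Q.IsSymm
  hbr : ∀ Y ∈ L, ∀ Z ∈ L, Y * Z - Z * Y ∈ L
  hsk : ∀ Y ∈ L, Q * Y + Yᵀ * Q = 0
  h1 : bf Q ω ω = 0
  h2 : bf Q ω' ω' = 0
  h3 : bf Q ω ω' ≠ 0
  hh : wedge Q ω ω' ∈ L
  hω : ω ∈ T
  hω' : ω' ∈ T
  hT : ∀ Y ∈ L, ∀ x ∈ T, Y *ᵥ x ∈ T
  irr : ∀ M ≤ T, (∀ Y ∈ L, ∀ x ∈ M, Y *ᵥ x ∈ M) → M = ⊥ ∨ M = T

variable {Q : Matrix B B ℂ} {L : Submodule ℂ (Matrix B B ℂ)} {T : Submodule ℂ (B → ℂ)}
  {ω ω' : B → ℂ}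

theorem Dat.swap (D : Dat Q L T ω ω') : Dat Q L T ω' ω where
  hQ := D.hQ
  hbr := D.hbr
  hsk := D.hsk
  h1 := D.h2
  h2 := D.h1
  h3 := by rw [bf_symm D.hQ]; exact D.h3
  hh := by rw [wedge_anti]; exact L.neg_mem D.hh
  hω := D.hω'
  hω' := D.hω
  hT := D.hT
  irr := D.irr

/-- the vectors `t` orthogonal to `ω`, `ω'` with `ω ∧ t` in the Lie algebra -/
def Wt (Q : Matrix B B ℂ) (L : Submodule ℂ (Matrix B B ℂ)) (T : Submodule ℂ (B → ℂ))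
    (ω ω' : B → ℂ) : Submodule ℂ (B → ℂ) where
  carrier := {t | t ∈ T ∧ bf Q t ω = 0 ∧ bf Q t ω' = 0 ∧ wedge Q ω t ∈ L}
  add_mem' := by
    rintro x y ⟨a1, a2, a3, a4⟩ ⟨b1, b2, b3, b4⟩
    refine ⟨T.add_mem a1 b1, ?_, ?_, ?_⟩
    · rw [bf_add_left, a2, b2, add_zero]
    · rw [bf_add_left, a3, b3, add_zero]
    · rw [wedge_add_right]
      exact L.add_mem a4 b4
  zero_mem' := ⟨T.zero_mem, bf_zero_left _ _, bf_zero_left _ _, by
    rw [wedge_zero_right]; exact L.zero_mem⟩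
  smul_mem' := by
    rintro c x ⟨a1, a2, a3, a4⟩
    refine ⟨T.smul_mem c a1, ?_, ?_, ?_⟩
    · rw [bf_smul_left, a2, mul_zero]
    · rw [bf_smul_left, a3, mul_zero]
    · rw [wedge_smul_right]
      exact L.smul_mem c a4

theorem mem_Wt {t : B → ℂ} : t ∈ Wt Q L T ω ω' ↔
    t ∈ T ∧ bf Q t ω = 0 ∧ bf Q t ω' = 0 ∧ wedge Q ω t ∈ L := Iff.rfl

theorem bracket_mem (D : Dat Q L T ω ω') {Y : Matrix B B ℂ} (hY : Y ∈ L) {x y : B → ℂ}
    (hxy : wedge Q x y ∈ L) : wedge Q (Y *ᵥ x) y + wedge Q x (Y *ᵥ y) ∈ L := by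
  rw [← bracket (D.hsk Y hY)]
  exact D.hbr Y hY _ hxy

/-- an operator which scales `ω` and `ω'` preserves `W` -/
theorem Wt_stable (D : Dat Q L T ω ω') {Y : Matrix B B ℂ} (hY : Y ∈ L) {a c : ℂ}
    (h1 : Y *ᵥ ω = a • ω) (h2 : Y *ᵥ ω' = c • ω') {t : B → ℂ} (ht : t ∈ Wt Q L T ω ω') :
    Y *ᵥ t ∈ Wt Q L T ω ω' := by
  obtain ⟨a1, a2, a3, a4⟩ := ht
  refine ⟨D.hT Y hY t a1, ?_, ?_, ?_⟩
  · rw [bf_skew (D.hsk Y hY), h1, bf_smul_right, a2, mul_zero, neg_zero]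
  · rw [bf_skew (D.hsk Y hY), h2, bf_smul_right, a3, mul_zero, neg_zero]
  · have h := bracket_mem D hY a4
    rw [h1, wedge_smul_left] at h
    have h5 := L.sub_mem h (L.smul_mem a a4)
    rwa [add_sub_cancel_left] at h5

/-- the decomposition of an element of the Lie algebra -/
theorem decomp (D : Dat Q L T ω ω') {Y : Matrix B B ℂ} (hY : Y ∈ L) :
    ∃ (a : ℂ) (t t' : B → ℂ) (Y0 : Matrix B B ℂ), Y *ᵥ ω = a • ω + t ∧ Y *ᵥ ω' = (-a) • ω' + t' ∧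
      t ∈ Wt Q L T ω' ω ∧ t' ∈ Wt Q L T ω ω' ∧ Y0 ∈ L ∧ Y0 *ᵥ ω = a • ω ∧
      Y0 *ᵥ ω' = (-a) • ω' ∧ ∀ u, bf Q u ω = 0 → bf Q u ω' = 0 → Y *ᵥ u = Y0 *ᵥ u -
        (bf Q ω ω')⁻¹ • (bf Q u t • ω' + bf Q u t' • ω) := by
  obtain ⟨N, hN⟩ : ∃ N, N = bf Q ω ω' := ⟨_, rfl⟩
  have hN0 : N ≠ 0 := by rw [hN]; exact D.h3
  have hN' : bf Q ω' ω = N := by rw [hN, bf_symm D.hQ]
  have hsk := bf_skew (D.hsk Y hY)
  have hYω : bf Q (Y *ᵥ ω) ω = 0 := by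
    have e := hsk ω ω
    rw [bf_symm D.hQ ω (Y *ᵥ ω)] at e
    exact self_eq_neg.1 e
  have hYω' : bf Q (Y *ᵥ ω') ω' = 0 := by
    have e := hsk ω' ω'
    rw [bf_symm D.hQ ω' (Y *ᵥ ω')] at e
    exact self_eq_neg.1 e
  obtain ⟨a, ha⟩ : ∃ a, a = bf Q (Y *ᵥ ω) ω' / N := ⟨_, rfl⟩
  have haN : a * N = bf Q (Y *ᵥ ω) ω' := by rw [ha, div_mul_cancel₀ _ hN0]
  obtain ⟨t, ht⟩ : ∃ t, t = Y *ᵥ ω + (-a) • ω := ⟨_, rfl⟩
  obtain ⟨t', ht'⟩ : ∃ t', t' = Y *ᵥ ω' + a • ω' := ⟨_, rfl⟩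
  have e1 : Y *ᵥ ω = a • ω + t := by rw [ht, neg_smul]; abel
  have e2 : Y *ᵥ ω' = (-a) • ω' + t' := by rw [ht', neg_smul]; abel
  have t1 : bf Q t ω = 0 := by
    rw [ht, bf_add_left, bf_smul_left, hYω, D.h1]; ring
  have t2 : bf Q t ω' = 0 := by
    rw [ht, bf_add_left, bf_smul_left, ← hN, ← haN]; ring
  have t3 : bf Q t' ω' = 0 := by
    rw [ht', bf_add_left, bf_smul_left, hYω', D.h2]; ring
  have t4 : bf Q t' ω = 0 := by
    rw [ht', bf_add_left, bf_smul_left, hN', hsk, bf_symm D.hQ, ← haN]; ring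
  have tT : t ∈ T := by
    rw [ht]; exact T.add_mem (D.hT Y hY _ D.hω) (T.smul_mem _ D.hω)
  have tT' : t' ∈ T := by
    rw [ht']; exact T.add_mem (D.hT Y hY _ D.hω') (T.smul_mem _ D.hω')
  -- the operator H
  have Hω : wedge Q ω ω' *ᵥ ω = N • ω := by
    rw [wedge_mulVec, D.h1, ← hN, zero_smul, sub_zero]
  have Hω' : wedge Q ω ω' *ᵥ ω' = (-N) • ω' := by
    rw [wedge_mulVec, D.h2, hN', zero_smul, zero_sub, neg_smul]
  have Ht : ∀ u, bf Q u ω = 0 → bf Q u ω' = 0 → wedge Q ω ω' *ᵥ u = 0 := by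
    intro u hu1 hu2
    rw [wedge_mulVec, hu1, hu2, zero_smul, zero_smul, sub_zero]
  -- first bracket
  have b1 : wedge Q t ω' + wedge Q ω t' ∈ L := by
    have h := bracket_mem D hY D.hh
    rw [e1, e2, wedge_add_left, wedge_add_right, wedge_smul_left, wedge_smul_right] at h
    have e : a • wedge Q ω ω' + wedge Q t ω' + (-a • wedge Q ω ω' + wedge Q ω t') =
        wedge Q t ω' + wedge Q ω t' := by
      rw [neg_smul]; abel
    rwa [e] at h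
  -- second bracket
  have b2 : wedge Q t ω' - wedge Q ω t' ∈ L := by
    have h := D.hbr _ D.hh _ b1
    have e : wedge Q ω ω' * (wedge Q t ω' + wedge Q ω t') -
        (wedge Q t ω' + wedge Q ω t') * wedge Q ω ω' =
        (wedge Q ω ω' * wedge Q t ω' - wedge Q t ω' * wedge Q ω ω') +
        (wedge Q ω ω' * wedge Q ω t' - wedge Q ω t' * wedge Q ω ω') := by
      rw [mul_add, add_mul]; abel
    rw [e, bracket (D.hsk _ D.hh), bracket (D.hsk _ D.hh), Ht t t1 t2, Ht t' t4 t3, Hω,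
      Hω', wedge_smul_left, wedge_smul_right, wedge_zero_right] at h
    have e' : wedge Q 0 ω' = 0 := by rw [wedge_anti, wedge_zero_right, neg_zero]
    rw [e', zero_add, add_zero] at h
    have h5 := L.smul_mem (-N)⁻¹ h
    have h6 : (-N)⁻¹ • (-N • wedge Q t ω' + N • wedge Q ω t') =
        wedge Q t ω' - wedge Q ω t' := by
      rw [smul_add, smul_smul, smul_smul, inv_mul_cancel₀ (neg_ne_zero.2 hN0), one_smul]
      have : (-N)⁻¹ * N = -1 := by field_simp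
      rw [this, neg_smul, one_smul]
      abel
    rwa [h6] at h5
  have c1 : wedge Q t ω' ∈ L := by
    have h := L.smul_mem (1 / 2 : ℂ) (L.add_mem b1 b2)
    have e : (1 / 2 : ℂ) • (wedge Q t ω' + wedge Q ω t' + (wedge Q t ω' - wedge Q ω t')) =
        wedge Q t ω' := by
      rw [add_add_sub_cancel, ← two_smul ℂ, smul_smul]
      norm_num
    rwa [e] at h
  have c2 : wedge Q ω t' ∈ L := by
    have h := L.sub_mem b1 c1
    rwa [add_sub_cancel_left] at h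
  have c1' : wedge Q ω' t ∈ L := by
    rw [wedge_anti]; exact L.neg_mem c1
  refine ⟨a, t, t', Y + N⁻¹ • (wedge Q ω' t + wedge Q ω t'), e1, e2, ⟨tT, t2, t1, c1'⟩,
    ⟨tT', t4, t3, c2⟩, L.add_mem hY (L.smul_mem _ (L.add_mem c1' c2)), ?_, ?_, ?_⟩
  · rw [add_mulVec, smul_mulVec, add_mulVec, wedge_mulVec, wedge_mulVec, ← hN, D.h1,
      bf_symm D.hQ ω t, bf_symm D.hQ ω t', t1, t4, e1]
    simp only [zero_smul, sub_zero, zero_sub, smul_neg, smul_smul, inv_mul_cancel₀ hN0, one_smul,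
      add_zero]
    abel
  · rw [add_mulVec, smul_mulVec, add_mulVec, wedge_mulVec, wedge_mulVec, hN', D.h2,
      bf_symm D.hQ ω' t, bf_symm D.hQ ω' t', t2, t3, e2]
    simp only [zero_smul, sub_zero, zero_sub, smul_neg, smul_smul, inv_mul_cancel₀ hN0, one_smul,
      zero_add]
    abel
  · intro u hu1 hu2
    rw [add_mulVec, smul_mulVec, add_mulVec, wedge_mulVec, wedge_mulVec, hu1, hu2, ← hN]
    simp only [zero_smul, sub_zero]
    abel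

theorem ω_ne (D : Dat Q L T ω ω') : ω ≠ 0 := by
  rintro rfl
  exact D.h3 (bf_zero_left _ _)

/-- `W` is not isotropic -/
theorem nondeg (D : Dat Q L T ω ω') :
    ∃ t ∈ Wt Q L T ω' ω, ∃ u ∈ Wt Q L T ω' ω, bf Q t u ≠ 0 := by
  by_contra hcon
  push Not at hcon
  -- the stable subspace
  set M : Submodule ℂ (B → ℂ) := Submodule.span ℂ {ω} ⊔ Wt Q L T ω' ω with hM
  have memM : ∀ x, x ∈ M ↔ ∃ c : ℂ, ∃ t ∈ Wt Q L T ω' ω, c • ω + t = x := by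
    intro x
    rw [hM, Submodule.mem_sup]
    constructor
    · rintro ⟨y, hy, z, hz, rfl⟩
      obtain ⟨c, rfl⟩ := Submodule.mem_span_singleton.1 hy
      exact ⟨c, z, hz, rfl⟩
    · rintro ⟨c, t, ht, rfl⟩
      exact ⟨c • ω, Submodule.mem_span_singleton.2 ⟨c, rfl⟩, t, ht, rfl⟩
  have hle : M ≤ T := by
    intro x hx
    obtain ⟨c, t, ht, rfl⟩ := (memM x).1 hx
    exact T.add_mem (T.smul_mem c D.hω) ht.1
  have hstab : ∀ Y ∈ L, ∀ x ∈ M, Y *ᵥ x ∈ M := by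
    intro Y hY x hx
    obtain ⟨c, u, hu, rfl⟩ := (memM x).1 hx
    obtain ⟨a, t, t', Y0, e1, e2, ht, ht', hY0, f1, f2, f3⟩ := decomp D hY
    have h5 := f3 u hu.2.2.1 hu.2.1
    rw [hcon u hu t ht, zero_smul, zero_add] at h5
    rw [memM, mulVec_add, mulVec_smul, e1, h5]
    refine ⟨c * a - (bf Q ω ω')⁻¹ * bf Q u t', c • t + Y0 *ᵥ u, ?_, ?_⟩
    · exact (Wt Q L T ω' ω).add_mem ((Wt Q L T ω' ω).smul_mem c ht)
        (Wt_stable D.swap hY0 f2 f1 hu)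
    · rw [smul_add, smul_smul, smul_smul, sub_smul]
      abel
  have hωM : ω ∈ M := (memM ω).2 ⟨1, 0, Submodule.zero_mem _, by simp⟩
  rcases D.irr M hle hstab with h | h
  · rw [h, Submodule.mem_bot] at hωM
    exact ω_ne D hωM
  · have : ω' ∈ M := by rw [h]; exact D.hω'
    obtain ⟨c, t, ht, he⟩ := (memM ω').1 this
    apply D.h3
    rw [bf_symm D.hQ, ← he, bf_add_left, bf_smul_left, D.h1, ht.2.2.1, mul_zero, add_zero]

/-- `t ∧ t'` for `t` in `W` and `t'` in `W'` -/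
theorem wedge_mem (D : Dat Q L T ω ω') {t t' : B → ℂ} (ht : t ∈ Wt Q L T ω ω')
    (ht' : t' ∈ Wt Q L T ω' ω) : wedge Q t t' ∈ L := by
  have h := bracket_mem D ht.2.2.2 ht'.2.2.2
  have e1 : wedge Q ω t *ᵥ ω' = (-bf Q ω ω') • t := by
    rw [wedge_mulVec, bf_symm D.hQ ω' t, ht.2.2.1, zero_smul, zero_sub, bf_symm D.hQ ω' ω, neg_smul]
  have e2 : wedge Q ω t *ᵥ t' = bf Q t' t • ω := by
    rw [wedge_mulVec, ht'.2.2.1, zero_smul, sub_zero]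
  rw [e1, e2, wedge_smul_left, wedge_smul_right] at h
  have h3 : wedge Q ω' ω ∈ L := D.swap.hh
  have h4 := L.sub_mem h (L.smul_mem (bf Q t' t) h3)
  rw [add_sub_cancel_right] at h4
  have h5 := L.smul_mem (-bf Q ω ω')⁻¹ h4
  rwa [smul_smul, inv_mul_cancel₀ (neg_ne_zero.2 D.h3), one_smul] at h5

/-- `W' ≤ W` -/
theorem Wt_le (D : Dat Q L T ω ω') : Wt Q L T ω' ω ≤ Wt Q L T ω ω' := by
  intro t' ht'
  obtain ⟨t, ht, u, hu, htu⟩ := nondeg D.swap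
  have hY := wedge_mem D ht ht'
  have f1 : wedge Q t t' *ᵥ ω = (0 : ℂ) • ω := by
    rw [wedge_mulVec, bf_symm D.hQ ω t, bf_symm D.hQ ω t', ht.2.1, ht'.2.2.1]
    simp
  have f2 : wedge Q t t' *ᵥ ω' = (0 : ℂ) • ω' := by
    rw [wedge_mulVec, bf_symm D.hQ ω' t, bf_symm D.hQ ω' t', ht.2.2.1, ht'.2.1]
    simp
  have h := Wt_stable D hY f1 f2 hu
  rw [wedge_mulVec] at h
  have h2 := (Wt Q L T ω ω').sub_mem ((Wt Q L T ω ω').smul_mem (bf Q u t') ht) h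
  rw [sub_sub_cancel] at h2
  have h3 := (Wt Q L T ω ω').smul_mem (bf Q u t)⁻¹ h2
  rwa [smul_smul, inv_mul_cancel₀ (by rw [bf_symm D.hQ]; exact htu), one_smul] at h3

theorem main (D : Dat Q L T ω ω') : ∀ x ∈ T, ∀ y ∈ T, wedge Q x y ∈ L := by
  have hW : Wt Q L T ω' ω = Wt Q L T ω ω' := le_antisymm (Wt_le D) (Wt_le D.swap)
  set M : Submodule ℂ (B → ℂ) := Submodule.span ℂ {ω, ω'} ⊔ Wt Q L T ω ω' with hM
  have memM : ∀ x, x ∈ M ↔ ∃ c d : ℂ, ∃ t ∈ Wt Q L T ω ω', c • ω + d • ω' + t = x := by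
    intro x
    rw [hM, Submodule.mem_sup]
    constructor
    · rintro ⟨y, hy, z, hz, rfl⟩
      obtain ⟨c, d, rfl⟩ := Submodule.mem_span_pair.1 hy
      exact ⟨c, d, z, hz, rfl⟩
    · rintro ⟨c, d, t, ht, rfl⟩
      exact ⟨c • ω + d • ω', Submodule.mem_span_pair.2 ⟨c, d, rfl⟩, t, ht, rfl⟩
  have hle : M ≤ T := by
    intro x hx
    obtain ⟨c, d, t, ht, rfl⟩ := (memM x).1 hx
    exact T.add_mem (T.add_mem (T.smul_mem c D.hω) (T.smul_mem d D.hω')) ht.1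
  have hstab : ∀ Y ∈ L, ∀ x ∈ M, Y *ᵥ x ∈ M := by
    intro Y hY x hx
    obtain ⟨c, d, u, hu, rfl⟩ := (memM x).1 hx
    obtain ⟨a, t, t', Y0, e1, e2, ht, ht', hY0, f1, f2, f3⟩ := decomp D hY
    rw [hW] at ht
    have h5 := f3 u hu.2.1 hu.2.2.1
    rw [memM, mulVec_add, mulVec_add, mulVec_smul, mulVec_smul, e1, e2, h5]
    refine ⟨c * a - (bf Q ω ω')⁻¹ * bf Q u t', d * (-a) - (bf Q ω ω')⁻¹ * bf Q u t,
      c • t + d • t' + Y0 *ᵥ u, ?_, ?_⟩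
    · exact (Wt Q L T ω ω').add_mem ((Wt Q L T ω ω').add_mem ((Wt Q L T ω ω').smul_mem c ht)
        ((Wt Q L T ω ω').smul_mem d ht')) (Wt_stable D hY0 f1 f2 hu)
    · simp only [smul_add, smul_smul, sub_smul]
      abel
  have hωM : ω ∈ M := (memM ω).2 ⟨1, 0, 0, Submodule.zero_mem _, by simp⟩
  have hMT : M = T := by
    rcases D.irr M hle hstab with h | h
    · rw [h, Submodule.mem_bot] at hωM
      exact absurd hωM (ω_ne D)
    · exact h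
  have hwt : ∀ t ∈ Wt Q L T ω ω', wedge Q ω t ∈ L ∧ wedge Q ω' t ∈ L := by
    intro t ht
    refine ⟨ht.2.2.2, ?_⟩
    rw [← hW] at ht
    exact ht.2.2.2
  intro x hx y hy
  rw [← hMT] at hx hy
  obtain ⟨c, d, t, ht, rfl⟩ := (memM x).1 hx
  obtain ⟨c', d', u, hu, rfl⟩ := (memM y).1 hy
  simp only [wedge_add_left, wedge_add_right, wedge_smul_left, wedge_smul_right, wedge_self]
  have g1 := D.hh
  have g2 := D.swap.hh
  have g3 := hwt t ht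
  have g4 := hwt u hu
  have g5 : wedge Q t ω ∈ L := by rw [wedge_anti]; exact L.neg_mem g3.1
  have g6 : wedge Q t ω' ∈ L := by rw [wedge_anti]; exact L.neg_mem g3.2
  have g7 : wedge Q t u ∈ L := wedge_mem D ht (by rw [hW]; exact hu)
  have g8 : (0 : Matrix B B ℂ) ∈ L := L.zero_mem
  repeat' first
    | assumption
    | exact g3.1
    | exact g3.2
    | exact g4.1
    | exact g4.2
    | apply L.add_mem
    | apply L.smul_mem

end K12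

/-- K12 -/
theorem weight {B : Type} [Fintype B] [DecidableEq B] (Q : Matrix B B ℂ) (hQ : Q.IsSymm)
    (L : Submodule ℂ (Matrix B B ℂ))
    (hbr : ∀ Y ∈ L, ∀ Z ∈ L, Y * Z - Z * Y ∈ L) (hsk : ∀ Y ∈ L, Q * Y + Yᵀ * Q = 0)
    (ω ω' : B → ℂ) (h1 : ω ⬝ᵥ (Q *ᵥ ω) = 0) (h2 : ω' ⬝ᵥ (Q *ᵥ ω') = 0)
    (h3 : ω ⬝ᵥ (Q *ᵥ ω') ≠ 0) (hh : wedge Q ω ω' ∈ L) (T : Submodule ℂ (B → ℂ)) (hω : ω ∈ T)
    (hω' : ω' ∈ T) (hT : ∀ Y ∈ L, ∀ x ∈ T, Y *ᵥ x ∈ T)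
    (irr : ∀ M ≤ T, (∀ Y ∈ L, ∀ x ∈ M, Y *ᵥ x ∈ M) → M = ⊥ ∨ M = T) :
    ∀ x ∈ T, ∀ y ∈ T, wedge Q x y ∈ L :=
  K12.main ⟨hQ, hbr, hsk, h1, h2, h3, hh, hω, hω', hT, irr⟩

end

end Pool.Agent.N429.KS
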