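import Pool.Agent.N429.KS.Desc

/-!
# Irreducibility of the eigenspaces (K13)
-/

set_option linter.unusedSectionVars false

open Matrix Finset Function

namespace Pool.Agent.N429.KS

noncomputable section

theorem k13_cm_mul {A B C : Type} [Fintype B] (M : Matrix A B ℚ) (N : Matrix B C ℚ) :
    cm (M * N) = cm M * cm N := by
  ext i j
  simp [cm, Matrix.mul_apply]

theorem k13_cm_sub {A B : Type} (M N : Matrix A B ℚ) : cm (M - N) = cm M - cm N := by
  ext i j
  simp [cm]

theorem k13_cm_add {A B : Type} (M N : Matrix A B ℚ) : cm (M + N) = cm M + cm N := by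
  ext i j
  simp [cm]

variable {B : Type} [Fintype B] [DecidableEq B]

theorem k13_cm_algebraMap (c : ℚ) :
    cm (algebraMap ℚ (Matrix B B ℚ) c) = algebraMap ℂ (Matrix B B ℂ) (c : ℂ) := by
  ext i j
  by_cases h : i = j
  · subst h
    simp [cm, Matrix.algebraMap_matrix_apply]
  · simp [cm, Matrix.algebraMap_matrix_apply, h]

theorem k13_cm_symm {M : Matrix B B ℚ} (h : M.IsSymm) : (cm M)ᵀ = cm M := by
  ext i j
  have := congrFun (congrFun h i) j
  simp only [Matrix.transpose_apply] at this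
  simp [cm, this]

/-- in the eigenspace there is a vector which is not orthogonal to a given one -/
theorem k13_dual (q θ : Matrix B B ℚ) (hq : q.IsSymm) (hdet : q.det ≠ 0) (hθ : (q * θ).IsSymm)
    (hirr : Irreducible (minpoly ℚ θ)) (r : ℂ) (x : B → ℂ) (hx0 : x ≠ 0)
    (hx : cm θ *ᵥ x = r • x) :
    ∃ w : B → ℂ, cm θ *ᵥ w = r • w ∧ w ⬝ᵥ (cm q *ᵥ x) ≠ 0 := by
  have hcq : (cm q).det ≠ 0 := by
    have : (cm q).det = algebraMap ℚ ℂ q.det := by
      rw [RingHom.map_det]; rfl
    rw [this]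
    simpa using hdet
  have hQ : (cm q)ᵀ = cm q := k13_cm_symm hq
  have hQθ : (cm θ)ᵀ * cm q = cm q * cm θ := by
    have h1 : (cm (q * θ))ᵀ = cm (q * θ) := k13_cm_symm hθ
    rw [k13_cm_mul, Matrix.transpose_mul, hQ] at h1
    exact h1
  -- polynomials in `θ`
  have hev : ∀ s : Polynomial ℂ, Polynomial.aeval (cm θ) s *ᵥ x = s.eval r • x := by
    intro s
    induction s using Polynomial.induction_on' with
    | add s t hs ht => rw [map_add, Matrix.add_mulVec, hs, ht, Polynomial.eval_add, add_smul]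
    | monomial n a =>
      have hn : ∀ n : ℕ, cm θ ^ n *ᵥ x = r ^ n • x := by
        intro n
        induction n with
        | zero => simp
        | succ n ih =>
          rw [pow_succ, ← Matrix.mulVec_mulVec, hx, Matrix.mulVec_smul, ih, smul_smul, pow_succ,
            mul_comm]
      rw [Polynomial.aeval_monomial, Polynomial.eval_monomial, ← Matrix.mulVec_mulVec, hn,
        Matrix.mulVec_smul, Algebra.algebraMap_eq_smul_one, Matrix.smul_mulVec,
        Matrix.one_mulVec, smul_smul, mul_comm]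
  have hadj : ∀ s : Polynomial ℂ,
      (Polynomial.aeval (cm θ) s)ᵀ * cm q = cm q * Polynomial.aeval (cm θ) s := by
    intro s
    induction s using Polynomial.induction_on' with
    | add s t hs ht =>
      rw [map_add, Matrix.transpose_add, Matrix.add_mul, hs, ht, Matrix.mul_add]
    | monomial n a =>
      have hn : ∀ n : ℕ, (cm θ ^ n)ᵀ * cm q = cm q * cm θ ^ n := by
        intro n
        induction n with
        | zero => simp
        | succ n ih =>
          rw [pow_succ, Matrix.transpose_mul, Matrix.mul_assoc, ih, ← Matrix.mul_assoc, hQθ,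
            Matrix.mul_assoc, ← pow_succ', pow_succ]
      rw [Polynomial.aeval_monomial, Algebra.algebraMap_eq_smul_one, Matrix.smul_mul,
        Matrix.one_mul, Matrix.transpose_smul, Matrix.smul_mul, hn, Matrix.mul_smul]
  -- the minimal polynomial
  set p : Polynomial ℂ := (minpoly ℚ θ).map (algebraMap ℚ ℂ) with hp
  have hp0 : Polynomial.aeval (cm θ) p = 0 := by
    rw [hp, Polynomial.aeval_map_algebraMap]
    let F : Matrix B B ℚ →ₐ[ℚ] Matrix B B ℂ := (Algebra.ofId ℚ ℂ).mapMatrix
    have hF : F θ = cm θ := rfl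
    rw [← hF, Polynomial.aeval_algHom_apply, minpoly.aeval, map_zero]
  have hroot : p.IsRoot r := by
    have h1 := hev p
    rw [hp0, Matrix.zero_mulVec] at h1
    rcases smul_eq_zero.mp h1.symm with h | h
    · exact h
    · exact absurd h hx0
  have hsep : p.Separable := by
    rw [hp]
    exact (hirr.separable).map
  obtain ⟨s, hs⟩ := Polynomial.dvd_iff_isRoot.mpr hroot
  have hsr : s.eval r ≠ 0 := by
    intro h
    obtain ⟨t, ht⟩ := Polynomial.dvd_iff_isRoot.mpr h
    have h2 : (Polynomial.X - Polynomial.C r) * (Polynomial.X - Polynomial.C r) ∣ p := by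
      rw [hs, ht, ← mul_assoc]
      exact dvd_mul_right _ _
    have h3 := hsep.squarefree _ h2
    exact Polynomial.not_isUnit_X_sub_C r h3
  -- a vector which is not orthogonal to `x`
  have hQx : cm q *ᵥ x ≠ 0 := by
    intro h
    apply hx0
    have h1 : (cm q)⁻¹ *ᵥ (cm q *ᵥ x) = x := by
      rw [Matrix.mulVec_mulVec, Matrix.nonsing_inv_mul _ (isUnit_iff_ne_zero.mpr hcq),
        Matrix.one_mulVec]
    rw [← h1, h, Matrix.mulVec_zero]
  obtain ⟨b, hb⟩ := Function.ne_iff.mp hQx
  simp only [Pi.zero_apply] at hb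
  refine ⟨Polynomial.aeval (cm θ) s *ᵥ Pi.single b 1, ?_, ?_⟩
  · have h1 : (cm θ - algebraMap ℂ (Matrix B B ℂ) r) * Polynomial.aeval (cm θ) s = 0 := by
      rw [← hp0, hs, map_mul, map_sub, Polynomial.aeval_X, Polynomial.aeval_C]
    have h2 : ((cm θ - algebraMap ℂ (Matrix B B ℂ) r) * Polynomial.aeval (cm θ) s) *ᵥ
        Pi.single b 1 = 0 := by rw [h1, Matrix.zero_mulVec]
    rw [← Matrix.mulVec_mulVec, Matrix.sub_mulVec, sub_eq_zero,
      Algebra.algebraMap_eq_smul_one, Matrix.smul_mulVec, Matrix.one_mulVec] at h2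
    exact h2
  · have h1 : (Polynomial.aeval (cm θ) s *ᵥ Pi.single b (1 : ℂ)) ⬝ᵥ (cm q *ᵥ x) =
        s.eval r * (cm q *ᵥ x) b := by
      rw [dotProduct_comm, Matrix.dotProduct_mulVec, ← Matrix.mulVec_transpose,
        Matrix.mulVec_mulVec, hadj, ← Matrix.mulVec_mulVec, hev, Matrix.mulVec_smul]
      simp
    rw [h1]
    exact mul_ne_zero hsr hb

/-- K13 -/
theorem irred (q θ : Matrix B B ℚ) (hq : q.IsSymm) (hdet : q.det ≠ 0) (hθ : (q * θ).IsSymm)
    (hirr : Irreducible (minpoly ℚ θ)) (g : Submodule ℚ (Matrix B B ℚ))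
    (hcomm : ∀ Y ∈ g, Y * θ = θ * Y)
    (hdens : ∀ A : Matrix B B ℚ, A * θ = θ * A → A ∈ Algebra.adjoin ℚ (g : Set (Matrix B B ℚ)))
    (r : ℂ) (M : Submodule ℂ (B → ℂ)) (hM : ∀ x ∈ M, cm θ *ᵥ x = r • x)
    (hst : ∀ Y ∈ g, ∀ x ∈ M, cm Y *ᵥ x ∈ M) :
    M = ⊥ ∨ ∀ x, cm θ *ᵥ x = r • x → x ∈ M := by
  rcases eq_or_ne M ⊥ with h | hne
  · exact Or.inl h
  right
  intro y hy
  obtain ⟨x, hxM, hx0⟩ := Submodule.exists_mem_ne_zero_of_ne_bot hne
  -- a dual eigenvector
  obtain ⟨w, hw, hwx⟩ := k13_dual q θ hq hdet hθ hirr r x hx0 (hM x hxM)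
  set c : ℂ := w ⬝ᵥ (cm q *ᵥ x) with hc
  let Z : Matrix B B ℂ := c⁻¹ • vecMulVec y (cm q *ᵥ w)
  have hQ : (cm q)ᵀ = cm q := k13_cm_symm hq
  have hQθ : (cm θ)ᵀ * cm q = cm q * cm θ := by
    have h1 : (cm (q * θ))ᵀ = cm (q * θ) := k13_cm_symm hθ
    rw [k13_cm_mul, Matrix.transpose_mul, hQ] at h1
    exact h1
  have hZx : Z *ᵥ x = y := by
    have h1 : (cm q *ᵥ w) ⬝ᵥ x = c := by
      rw [hc, Matrix.dotProduct_mulVec, ← Matrix.mulVec_transpose, hQ]
    simp only [Z]
    rw [Matrix.smul_mulVec, Matrix.vecMulVec_mulVec, h1]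
    ext b
    simp only [Pi.smul_apply, smul_eq_mul, MulOpposite.smul_eq_mul_unop, MulOpposite.unop_op]
    field_simp
  have hZθ : Z * cm θ = cm θ * Z := by
    simp only [Z]
    rw [Matrix.smul_mul, Matrix.mul_smul, Matrix.mul_vecMulVec, Matrix.vecMulVec_mul, hy,
      ← Matrix.mulVec_transpose, Matrix.mulVec_mulVec, hQθ, ← Matrix.mulVec_mulVec, hw,
      Matrix.mulVec_smul, Matrix.vecMulVec_smul, Matrix.smul_vecMulVec]
  -- descent
  let L : Matrix B B ℚ →ₗ[ℚ] (B × B → ℚ) :=
    { toFun := fun A p => (A * θ - θ * A) p.1 p.2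
      map_add' := by
        intro A A'
        funext p
        simp only [Matrix.add_mul, Matrix.mul_add, Matrix.sub_apply, Matrix.add_apply,
          Pi.add_apply]
        ring
      map_smul' := by
        intro c A
        funext p
        simp only [Matrix.smul_mul, Matrix.mul_smul, Matrix.sub_apply, Matrix.smul_apply,
          Pi.smul_apply, RingHom.id_apply, smul_eq_mul]
        ring }
  let Lc : Matrix B B ℂ →ₗ[ℂ] (B × B → ℂ) :=
    { toFun := fun A p => (A * cm θ - cm θ * A) p.1 p.2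
      map_add' := by
        intro A A'
        funext p
        simp only [Matrix.add_mul, Matrix.mul_add, Matrix.sub_apply, Matrix.add_apply,
          Pi.add_apply]
        ring
      map_smul' := by
        intro c A
        funext p
        simp only [Matrix.smul_mul, Matrix.mul_smul, Matrix.sub_apply, Matrix.smul_apply,
          Pi.smul_apply, RingHom.id_apply, smul_eq_mul]
        ring }
  have hL : ∀ A t, Lc (cm A) t = (L A t : ℂ) := by
    intro A t
    change (cm A * cm θ - cm θ * cm A) t.1 t.2 = (((A * θ - θ * A) t.1 t.2 : ℚ) : ℂ)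
    rw [← k13_cm_mul, ← k13_cm_mul, ← k13_cm_sub]
    rfl
  have hZ0 : Lc Z = 0 := by
    funext p
    change (Z * cm θ - cm θ * Z) p.1 p.2 = 0
    rw [hZθ, sub_self]
    rfl
  have hspan := sol L Lc hL hZ0
  -- the rational operators which stabilise `M`
  have hadj : ∀ A ∈ Algebra.adjoin ℚ (g : Set (Matrix B B ℚ)), ∀ z ∈ M, cm A *ᵥ z ∈ M := by
    intro A hA
    induction hA using Algebra.adjoin_induction with
    | mem A hA => exact hst A hA
    | algebraMap c =>
      intro z hz
      rw [k13_cm_algebraMap, Algebra.algebraMap_eq_smul_one, Matrix.smul_mulVec,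
        Matrix.one_mulVec]
      exact M.smul_mem _ hz
    | add A A' _ _ h1 h2 =>
      intro z hz
      rw [k13_cm_add, Matrix.add_mulVec]
      exact M.add_mem (h1 z hz) (h2 z hz)
    | mul A A' _ _ h1 h2 =>
      intro z hz
      rw [k13_cm_mul, ← Matrix.mulVec_mulVec]
      exact h1 _ (h2 z hz)
  have hall : ∀ W ∈ Submodule.span ℂ (cm '' {A : Matrix B B ℚ | L A = 0}), W *ᵥ x ∈ M := by
    intro W hW
    induction hW using Submodule.span_induction with
    | mem W hW =>
      obtain ⟨A, hA, rfl⟩ := hW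
      apply hadj A _ x hxM
      apply hdens
      have hA' : L A = 0 := hA
      ext a b
      have := congrFun hA' (a, b)
      change (A * θ - θ * A) a b = 0 at this
      rw [Matrix.sub_apply] at this
      linarith
    | zero => rw [Matrix.zero_mulVec]; exact M.zero_mem
    | add W W' _ _ h1 h2 => rw [Matrix.add_mulVec]; exact M.add_mem h1 h2
    | smul c W _ h1 => rw [Matrix.smul_mulVec]; exact M.smul_mem _ h1
  have := hall Z hspan
  rwa [hZx] at this

end

end Pool.Agent.N429.KS
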