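import Pool.Agent.N429.KS.K15a
import Pool.Agent.N429.KS.K9
import Pool.Agent.N429.KS.K11
import Pool.Agent.N429.KS.K12
import Pool.Agent.N429.KS.K13
import Pool.Agent.N429.KS.K14

/-!
# K15: Zarhin's theorem
-/

set_option linter.unusedSectionVars false

open Matrix Finset Function

namespace Pool.Agent.N429.KS

theorem zarhin {B : Type} [Fintype B] [DecidableEq B] (X : K3Type B) (hX : X.NonCM) :
    ∃ θ : Matrix B B ℚ, (X.q * θ).IsSymm ∧
    cm θ * X.h = X.h * cm θ ∧ Irreducible (minpoly ℚ θ) ∧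
    ∀ (r : ℂ) (x y : B → ℂ), cm θ *ᵥ x = r • x → cm θ *ᵥ y = r • y →
      ∀ (S : Type) [Fintype S] [DecidableEq S] (f : (S → B) → ℚ), X.IsHodge f →
        der (wedge (cm X.q) x y) (cx f) = 0 :=
  zarhin_core X (h_mem_gC X) (fun hY hZ => gC_bracket X hY hZ) (fun hY => gC_skew X hY)
    (exists_theta X hX)
    (fun Q hQ L hbr hsk ω ω' h1 h2 h3 hh T hω hω' hT irr =>
      weight Q hQ L hbr hsk ω ω' h1 h2 h3 hh T hω hω' hT irr)
    (fun q θ hq hdet hθ hirr g hcomm hdens r M hM hst =>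
      irred q θ hq hdet hθ hirr g hcomm hdens r M hM hst)
    (fun q θ hθ hirr r0 hr0 {S} _ _ f h0 r x y hx hy =>
      galois q θ hθ hirr r0 hr0 f h0 r x y hx hy)

end Pool.Agent.N429.KS
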