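import Pool.Agent.N429.KS.Defs

/-!
# Complexification of a system of forms and correspondences
-/

set_option linter.unusedSectionVars false

open Matrix Finset Function

namespace Pool.Agent.N429.KS

noncomputable section

/-- the complexified forms of a system -/
def cAlg {B : Type} (𝒜 : Sys ℚ B) (S : Type) : Submodule ℂ ((S → B) → ℂ) :=
  Submodule.span ℂ (cx '' (𝒜.Alg S : Set ((S → B) → ℚ)))

/-- the complexified correspondences of a system -/
def cCor {B C : Type} [Fintype C] (𝒜 : Calc ℚ B C) (S : Type) :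
    Submodule ℂ ((S → B) → Matrix C C ℂ) :=
  Submodule.span ℂ
    ((fun (M : (S → B) → Matrix C C ℚ) (J : S → B) => cm (M J)) '' (𝒜.Cor S : Set _))

section
variable {B C : Type} [Fintype C]

theorem cAlg_re (𝒜 : Sys ℚ B) {S T : Type} [Finite S] [Finite T] (e : S ≃ T)
    {f : (S → B) → ℂ} (hf : f ∈ cAlg 𝒜 S) : (fun J : T → B => f (J ∘ e)) ∈ cAlg 𝒜 T := by
  unfold cAlg at hf
  induction hf using Submodule.span_induction with
  | mem f hf =>
    obtain ⟨f0, hf0, rfl⟩ := hf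
    exact Submodule.subset_span ⟨fun J : T → B => f0 (J ∘ e), 𝒜.re e hf0, rfl⟩
  | zero => exact (cAlg 𝒜 T).zero_mem
  | add x y _ _ hx hy => exact (cAlg 𝒜 T).add_mem hx hy
  | smul a x _ hx => exact (cAlg 𝒜 T).smul_mem a hx

theorem cAlg_mul (𝒜 : Sys ℚ B) {S T : Type} [Finite S] [Finite T] {f : (S → B) → ℂ}
    {g : (T → B) → ℂ} (hf : f ∈ cAlg 𝒜 S) (hg : g ∈ cAlg 𝒜 T) :
    (fun J : S ⊕ T → B => f (J ∘ Sum.inl) * g (J ∘ Sum.inr)) ∈ cAlg 𝒜 (S ⊕ T) := by
  unfold cAlg at hf hg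
  refine Submodule.span_induction₂ (p := fun f g _ _ =>
    (fun J : S ⊕ T → B => f (J ∘ Sum.inl) * g (J ∘ Sum.inr)) ∈ cAlg 𝒜 (S ⊕ T))
    ?_ ?_ ?_ ?_ ?_ ?_ ?_ hf hg
  · rintro _ _ ⟨f0, hf0, rfl⟩ ⟨g0, hg0, rfl⟩
    refine Submodule.subset_span ⟨_, 𝒜.mul hf0 hg0, ?_⟩
    funext J
    simp [cx]
  · intro y _
    convert (cAlg 𝒜 (S ⊕ T)).zero_mem using 1
    funext J
    simp
  · intro y _
    convert (cAlg 𝒜 (S ⊕ T)).zero_mem using 1
    funext J
    simp
  · intro x y z _ _ _ h1 h2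
    convert (cAlg 𝒜 (S ⊕ T)).add_mem h1 h2 using 1
    funext J
    simp [add_mul]
  · intro x y z _ _ _ h1 h2
    convert (cAlg 𝒜 (S ⊕ T)).add_mem h1 h2 using 1
    funext J
    simp [mul_add]
  · intro r x y _ _ h
    convert (cAlg 𝒜 (S ⊕ T)).smul_mem r h using 1
    funext J
    simp [mul_assoc]
  · intro r x y _ _ h
    convert (cAlg 𝒜 (S ⊕ T)).smul_mem r h using 1
    funext J
    simp [mul_left_comm]

theorem cCor_cre (𝒜 : Calc ℚ B C) {S T : Type} [Finite S] [Finite T] (e : S ≃ T)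
    {M : (S → B) → Matrix C C ℂ} (hM : M ∈ cCor 𝒜 S) :
    (fun J : T → B => M (J ∘ e)) ∈ cCor 𝒜 T := by
  unfold cCor at hM
  induction hM using Submodule.span_induction with
  | mem f hf =>
    obtain ⟨f0, hf0, rfl⟩ := hf
    exact Submodule.subset_span ⟨fun J : T → B => f0 (J ∘ e), 𝒜.cre e hf0, rfl⟩
  | zero => exact (cCor 𝒜 T).zero_mem
  | add x y _ _ hx hy => exact (cCor 𝒜 T).add_mem hx hy
  | smul a x _ hx => exact (cCor 𝒜 T).smul_mem a hx

theorem cCor_cmul (𝒜 : Calc ℚ B C) {S T : Type} [Finite S] [Finite T]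
    {M : (S → B) → Matrix C C ℂ} {N : (T → B) → Matrix C C ℂ} (hM : M ∈ cCor 𝒜 S)
    (hN : N ∈ cCor 𝒜 T) :
    (fun J : S ⊕ T → B => M (J ∘ Sum.inl) * N (J ∘ Sum.inr)) ∈ cCor 𝒜 (S ⊕ T) := by
  unfold cCor at hM hN
  refine Submodule.span_induction₂ (p := fun f g _ _ =>
    (fun J : S ⊕ T → B => f (J ∘ Sum.inl) * g (J ∘ Sum.inr)) ∈ cCor 𝒜 (S ⊕ T))
    ?_ ?_ ?_ ?_ ?_ ?_ ?_ hM hN
  · rintro _ _ ⟨f0, hf0, rfl⟩ ⟨g0, hg0, rfl⟩
    refine Submodule.subset_span ⟨_, 𝒜.cmul hf0 hg0, ?_⟩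
    funext J
    simp [cm, Matrix.map_mul]
  · intro y _
    convert (cCor 𝒜 (S ⊕ T)).zero_mem using 1
    funext J
    simp
  · intro y _
    convert (cCor 𝒜 (S ⊕ T)).zero_mem using 1
    funext J
    simp
  · intro x y z _ _ _ h1 h2
    convert (cCor 𝒜 (S ⊕ T)).add_mem h1 h2 using 1
    funext J
    simp [Matrix.add_mul]
  · intro x y z _ _ _ h1 h2
    convert (cCor 𝒜 (S ⊕ T)).add_mem h1 h2 using 1
    funext J
    simp [Matrix.mul_add]
  · intro r x y _ _ h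
    convert (cCor 𝒜 (S ⊕ T)).smul_mem r h using 1
    funext J
    simp
  · intro r x y _ _ h
    convert (cCor 𝒜 (S ⊕ T)).smul_mem r h using 1
    funext J
    simp

theorem cCor_ctr (𝒜 : Calc ℚ B C) {S : Type} [Finite S] {M : (S → B) → Matrix C C ℂ}
    (hM : M ∈ cCor 𝒜 S) : (fun J => (M J).trace) ∈ cAlg 𝒜.toSys S := by
  unfold cCor at hM
  induction hM using Submodule.span_induction with
  | mem f hf =>
    obtain ⟨f0, hf0, rfl⟩ := hf
    refine Submodule.subset_span ⟨_, 𝒜.ctr hf0, ?_⟩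
    funext J
    simp [cm, cx, Matrix.trace]
  | zero =>
    convert (cAlg 𝒜.toSys S).zero_mem using 1
    funext J
    simp
  | add x y _ _ hx hy =>
    convert (cAlg 𝒜.toSys S).add_mem hx hy using 1
    funext J
    simp
  | smul a x _ hx =>
    convert (cAlg 𝒜.toSys S).smul_mem a hx using 1
    funext J
    simp

end

theorem exists_cplx {B C : Type} [Fintype C] (𝒜 : Calc ℚ B C) : ∃ 𝒞 : Calc ℂ B C,
    (∀ S : Type, 𝒞.Alg S = Submodule.span ℂ (cx '' (𝒜.Alg S : Set ((S → B) → ℚ)))) ∧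
    (∀ S : Type, 𝒞.Cor S = Submodule.span ℂ
      ((fun (M : (S → B) → Matrix C C ℚ) (J : S → B) => cm (M J)) '' (𝒜.Cor S : Set _))) := by
  refine ⟨{ Alg := fun S => cAlg 𝒜.toSys S
            one := Submodule.subset_span ⟨fun _ => 1, 𝒜.one, by funext J; simp [cx]⟩
            re := fun e _ hf => cAlg_re 𝒜.toSys e hf
            mul := fun hf hg => cAlg_mul 𝒜.toSys hf hg
            Cor := fun S => cCor 𝒜 S
            cre := fun e _ hM => cCor_cre 𝒜 e hM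
            cmul := fun hM hN => cCor_cmul 𝒜 hM hN
            ctr := fun hM => cCor_ctr 𝒜 hM }, fun _ => rfl, fun _ => rfl⟩

end

end Pool.Agent.N429.KS
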