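import Pool.Agent.N429.KS.K5a
import Pool.Agent.N429.KS.K5b
import Pool.Agent.TH125.Nod.Fft2

/-!
# K5: the first fundamental theorem for products of special orthogonal groups
(helper887, for helper429)
-/

set_option linter.unusedSectionVars false
set_option autoImplicit false

open Matrix Finset Function

namespace Pool.Agent.N429.KS

noncomputable section

section fft

variable {K : Type} [Field K] [CharZero K] {B : Type} [Fintype B] [DecidableEq B] {ι : Type}
  [DecidableEq ι]

namespace K5aux

open Pool.Agent.TH125.Nod (Inv Sup rho sw blk con cas inv_con sup_con rho_mul rho_one Sup_rho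
  c_swap mem_blk)

/-- the constant sign -/
def s1 : ι → ℤ := fun _ => 1

theorem der_single {S : Type} [Fintype S] [DecidableEq S] (a b : B) (f : (S → B) → K)
    (J : S → B) : der (Matrix.single a b 1 - Matrix.single b a 1) f J =
      ∑ s, ((if b = J s then f (update J s a) else 0) -
        (if a = J s then f (update J s b) else 0)) := by
  unfold der
  refine Finset.sum_congr rfl fun s _ => ?_
  have h : ∀ p q : B, ∑ x, (Matrix.single p q (1 : K)) x (J s) * f (update J s x) =
      if q = J s then f (update J s p) else 0 := by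
    intro p q
    rw [Finset.sum_eq_single p]
    · rw [Matrix.single_apply]
      by_cases h : q = J s
      · rw [if_pos ⟨rfl, h⟩, if_pos h, one_mul]
      · rw [if_neg (fun h' => h h'.2), if_neg h, zero_mul]
    · intro x _ hx
      rw [Matrix.single_apply, if_neg (fun h' => hx h'.1.symm), zero_mul]
    · intro h
      exact absurd (Finset.mem_univ p) h
  simp only [Matrix.sub_apply, sub_mul, Finset.sum_sub_distrib]
  rw [h, h]

theorem inv_iff {S : Type} [Fintype S] [DecidableEq S] (κ : B → ι) (f : (S → B) → K) :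
    InvB κ f ↔ Inv κ (1 : Matrix B B K) (fun i => ((s1 i : ℤ) : K)) f := by
  have key : ∀ (u v : B) (J : S → B),
      ∑ j, ((1 : Matrix B B K) v (J j) • f (update J j u) -
        ((((s1 (κ u) : ℤ)) : K) * (1 : Matrix B B K) u (J j)) • f (update J j v)) =
      der (Matrix.single u v 1 - Matrix.single v u 1) f J := by
    intro u v J
    rw [der_single]
    refine Finset.sum_congr rfl fun s _ => ?_
    rw [Matrix.one_apply, Matrix.one_apply]
    simp only [s1, Int.cast_one, one_mul, smul_eq_mul, ite_mul, zero_mul]
  constructor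
  · intro h u v huv J
    rw [key, h u v huv, Pi.zero_apply]
  · intro h a b hab
    funext J
    rw [← key, Pi.zero_apply]
    exact h a b hab J

theorem der_rho {S : Type} [Fintype S] [DecidableEq S] (X : Matrix B B K) (σ : Equiv.Perm S)
    (f : (S → B) → K) : der X (rho (K := K) σ f) = rho (K := K) σ (der X f) := by
  funext J
  show ∑ s, ∑ b, X b (J s) * f (update J s b ∘ σ) =
    ∑ s, ∑ b, X b (J (σ s)) * f (update (J ∘ σ) s b)
  rw [← Equiv.sum_comp σ]
  refine Finset.sum_congr rfl fun s _ => Finset.sum_congr rfl fun b _ => ?_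
  rw [Function.update_comp_eq_of_injective J σ.injective]

theorem der_add {S : Type} [Fintype S] [DecidableEq S] (X : Matrix B B K)
    (f g : (S → B) → K) : der X (f + g) = der X f + der X g := by
  funext J
  simp only [der, Pi.add_apply, mul_add, Finset.sum_add_distrib]

theorem der_smul {S : Type} [Fintype S] [DecidableEq S] (X : Matrix B B K) (r : K)
    (f : (S → B) → K) : der X (r • f) = r • der X f := by
  funext J
  simp only [der, Pi.smul_apply, smul_eq_mul, Finset.mul_sum]
  refine Finset.sum_congr rfl fun s _ => Finset.sum_congr rfl fun b _ => ?_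
  ring

theorem der_zero {S : Type} [Fintype S] [DecidableEq S] (X : Matrix B B K) :
    der X (0 : (S → B) → K) = 0 := by
  funext J
  simp [der]

/-- the invariant forms -/
def PB (κ : B → ι) (S : Type) [Fintype S] [DecidableEq S] : Submodule K ((S → B) → K) where
  carrier := {f | InvB κ f}
  add_mem' := by
    intro f g hf hg a b hab
    rw [der_add, hf a b hab, hg a b hab, add_zero]
  zero_mem' := by
    intro a b _
    exact der_zero _
  smul_mem' := by
    intro r f hf a b hab
    rw [der_smul, hf a b hab, smul_zero]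

theorem PB_rho {κ : B → ι} {S : Type} [Fintype S] [DecidableEq S] (σ : Equiv.Perm S)
    {f : (S → B) → K} (hf : f ∈ PB (K := K) κ S) : rho (K := K) σ f ∈ PB (K := K) κ S := by
  intro a b hab
  rw [der_rho, hf a b hab, map_zero]

theorem comp_update {S : Type} [DecidableEq S] (κ : B → ι) (J : S → B) (s : S) (a : B)
    (h : κ a = κ (J s)) : κ ∘ update J s a = κ ∘ J := by
  funext t
  by_cases ht : t = s
  · subst ht
    simp [h]
  · simp [update_of_ne ht]

/-- decomposition by the patterns -/
theorem sum_pat {S : Type} [Fintype S] [DecidableEq S] (κ : B → ι)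
    (T : Submodule K ((S → B) → K))
    (h : ∀ (c : S → ι) (f : (S → B) → K), InvB κ f → Sup κ c f → f ∈ T) (f : (S → B) → K)
    (hf : InvB κ f) : f ∈ T := by
  classical
  have hdec : f = ∑ c ∈ (univ : Finset (S → B)).image (fun J => κ ∘ J),
      (fun J => if κ ∘ J = c then f J else 0) := by
    funext J
    rw [Finset.sum_apply, Finset.sum_eq_single (κ ∘ J)]
    · rw [if_pos rfl]
    · intro c _ hc
      rw [if_neg (Ne.symm hc)]
    · intro hn
      exact absurd (Finset.mem_image_of_mem _ (Finset.mem_univ J)) hn
  rw [hdec]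
  refine T.sum_mem fun c _ => h c _ ?_ ?_
  · intro a b hab
    funext J
    rw [der_single, Pi.zero_apply]
    have h0 := congrFun (hf a b hab) J
    rw [der_single, Pi.zero_apply] at h0
    by_cases hJ : κ ∘ J = c
    · refine Eq.trans (Finset.sum_congr rfl fun s _ => ?_) h0
      congr 1
      · by_cases hb : b = J s
        · rw [if_pos hb, if_pos hb, comp_update κ J s a (by rw [hab, hb]), if_pos hJ]
        · rw [if_neg hb, if_neg hb]
      · by_cases ha : a = J s
        · rw [if_pos ha, if_pos ha, comp_update κ J s b (by rw [← hab, ha]), if_pos hJ]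
        · rw [if_neg ha, if_neg ha]
    · refine Finset.sum_eq_zero fun s _ => ?_
      have e1 : (if b = J s then (if κ ∘ update J s a = c then f (update J s a) else 0)
          else 0) = 0 := by
        by_cases hb : b = J s
        · rw [if_pos hb, comp_update κ J s a (by rw [hab, hb]), if_neg hJ]
        · rw [if_neg hb]
      have e2 : (if a = J s then (if κ ∘ update J s b = c then f (update J s b) else 0)
          else 0) = 0 := by
        by_cases ha : a = J s
        · rw [if_pos ha, comp_update κ J s b (by rw [← hab, ha]), if_neg hJ]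
        · rw [if_neg ha]
      rw [e1, e2, sub_zero]
  · intro J hJ
    show (if κ ∘ J = c then f J else 0) = 0
    rw [if_neg]
    intro h'
    exact hJ fun j => congrFun h' j

/-- the equivalence which singles out two elements -/
theorem exists_two {S : Type} [DecidableEq S] {a b : S} (hab : a ≠ b) :
    ∃ E : Fin 2 ⊕ {x : S // x ≠ a ∧ x ≠ b} ≃ S, E (Sum.inl 0) = a ∧ E (Sum.inl 1) = b ∧
      ∀ x, E (Sum.inr x) = x.1 := by
  let F : Fin 2 ⊕ {x : S // x ≠ a ∧ x ≠ b} → S := Sum.elim ![a, b] Subtype.val
  have hF : Function.Bijective F := by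
    constructor
    · rintro (p | x) (q | y) h
      · fin_cases p <;> fin_cases q
        · rfl
        · exact absurd h hab
        · exact absurd h (Ne.symm hab)
        · rfl
      · fin_cases p
        · exact absurd h.symm y.2.1
        · exact absurd h.symm y.2.2
      · fin_cases q
        · exact absurd h x.2.1
        · exact absurd h x.2.2
      · exact congrArg Sum.inr (Subtype.ext h)
    · intro x
      by_cases h1 : x = a
      · exact ⟨Sum.inl 0, h1.symm⟩
      by_cases h2 : x = b
      · exact ⟨Sum.inl 1, h2.symm⟩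
      exact ⟨Sum.inr ⟨x, h1, h2⟩, rfl⟩
  exact ⟨Equiv.ofBijective F hF, rfl, rfl, fun x => rfl⟩

/-- the full block -/
theorem hfull (𝒮 : Sys K B) (κ : B → ι) (hd : ∀ i, detf κ i ∈ 𝒮.Alg {b : B // κ b = i})
    {S : Type} [Fintype S] [DecidableEq S] (c : S → ι) (a0 : S)
    (ih : ∀ g : ({s : S // c s ≠ c a0} → B) → K, InvB κ g → g ∈ 𝒮.Alg {s : S // c s ≠ c a0})
    (hcard : (univ.filter (c · = c a0)).card = (univ.filter fun b => κ b = c a0).card)
    (w : (S → B) → K) (hw : w ∈ PB (K := K) κ S) (hsup : Sup κ c w)
    (halt : ∀ a ∈ univ.filter (c · = c a0), ∀ b ∈ univ.filter (c · = c a0), a ≠ b →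
      sw (K := K) a b w + w ∈ 𝒮.Alg S) : w ∈ 𝒮.Alg S := by
  set i := c a0 with hi
  set T := 𝒮.Alg S with hTdef
  have hT : ∀ a b : S, ∀ f ∈ T, sw (K := K) a b f ∈ T := by
    intro a b f hf
    exact 𝒮.re (Equiv.swap a b) hf
  have halt' : ∀ a b : S, c a = i → c b = i → a ≠ b → sw (K := K) a b w + w ∈ T := by
    intro a b ha hb hab
    exact halt a (Finset.mem_filter.2 ⟨Finset.mem_univ _, ha⟩) b
      (Finset.mem_filter.2 ⟨Finset.mem_univ _, hb⟩) hab
  have key : ∀ σ : Equiv.Perm {x : S // c x = i},
      rho (K := K) (Equiv.Perm.ofSubtype σ) w - ((Equiv.Perm.sign σ : ℤ) : K) • w ∈ T := by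
    intro σ
    induction σ using Equiv.Perm.swap_induction_on with
    | one => simp [rho_one]
    | swap_mul τ x y hxy hτ =>
      rw [map_mul, rho_mul, Equiv.Perm.sign_mul, Equiv.Perm.sign_swap hxy,
        Equiv.Perm.ofSubtype_swap_eq]
      have hne : (x : S) ≠ y := fun h => hxy (Subtype.ext h)
      have h1 := hT x y _ hτ
      have h2 := halt' x y x.2 y.2 hne
      have h3 := T.smul_mem ((Equiv.Perm.sign τ : ℤ) : K) h2
      have h4 := T.add_mem h1 h3
      convert h4 using 1
      simp only [sw, map_sub, map_smul, smul_add]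
      push_cast
      module
  have hσc : ∀ (σ : Equiv.Perm {x : S // c x = i}) (j : S),
      c (Equiv.Perm.ofSubtype σ j) = c j := by
    intro σ j
    by_cases hj : c j = i
    · rw [Equiv.Perm.ofSubtype_apply_of_mem σ hj, (σ ⟨j, hj⟩).2, hj]
    · rw [Equiv.Perm.ofSubtype_apply_of_not_mem σ hj]
  obtain ⟨W, hW⟩ : ∃ W : (S → B) → K, W = ∑ σ : Equiv.Perm {x : S // c x = i},
    ((Equiv.Perm.sign σ : ℤ) : K) • rho (K := K) (Equiv.Perm.ofSubtype σ) w := ⟨_, rfl⟩
  have hWP : InvB κ W := by
    rw [hW]
    exact (PB (K := K) κ S).sum_mem fun σ _ => (PB (K := K) κ S).smul_mem _ (PB_rho _ hw)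
  have hWsup : Sup κ c W := by
    intro J hJ
    rw [hW, Finset.sum_apply]
    refine Finset.sum_eq_zero fun σ _ => ?_
    rw [Pi.smul_apply, Sup_rho (K := K) (hσc σ) hsup J hJ, smul_zero]
  have hWalt : ∀ a b : S, c a = i → c b = i → a ≠ b → ∀ J : S → B,
      W (J ∘ Equiv.swap a b) = - W J := by
    intro a b ha hb hab J
    have h0 : rho (K := K) (Equiv.swap a b) W = - W := by
      have hab' : (⟨a, ha⟩ : {x : S // c x = i}) ≠ ⟨b, hb⟩ := fun h =>
        hab (congrArg Subtype.val h)
      obtain ⟨τ, hτ⟩ : ∃ τ : Equiv.Perm {x : S // c x = i}, τ = Equiv.swap ⟨a, ha⟩ ⟨b, hb⟩ :=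
        ⟨_, rfl⟩
      have e1 : Equiv.Perm.ofSubtype τ = Equiv.swap a b := by
        rw [hτ, Equiv.Perm.ofSubtype_swap_eq]
      have e2 : Equiv.Perm.sign τ = -1 := by
        rw [hτ]; exact Equiv.Perm.sign_swap hab'
      rw [hW, map_sum, ← Finset.sum_neg_distrib]
      rw [← Equiv.sum_comp (Equiv.mulLeft τ) (fun σ : Equiv.Perm {x : S // c x = i} =>
        -(((Equiv.Perm.sign σ : ℤ) : K) • rho (K := K) (Equiv.Perm.ofSubtype σ) w))]
      refine Finset.sum_congr rfl fun σ _ => ?_
      rw [map_smul, ← rho_mul, ← e1, ← map_mul, Equiv.coe_mulLeft, Equiv.Perm.sign_mul, e2]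
      push_cast
      module
    exact congrFun h0 J
  have hcard' : Fintype.card {s : S // c s = i} = Fintype.card {b : B // κ b = i} := by
    rw [Fintype.card_subtype, Fintype.card_subtype]
    exact hcard
  have e := Fintype.equivOfCardEq hcard'
  obtain ⟨g, hg, hgW⟩ := full_block e W hWP hWsup hWalt
  have hgm := ih g hg
  let E : {b : B // κ b = i} ⊕ {s : S // c s ≠ i} ≃ S :=
    (Equiv.sumCongr e.symm (Equiv.refl {s : S // ¬ c s = i})).trans
      (Equiv.sumCompl (fun s => c s = i))
  have h4 := 𝒮.re E (𝒮.mul (hd i) hgm)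
  have hWT : W ∈ T := by
    convert h4 using 1
    funext J
    rw [hgW]
    rfl
  have hfac : ∑ σ : Equiv.Perm {x : S // c x = i}, (((Equiv.Perm.sign σ : ℤ) : K) •
      (rho (K := K) (Equiv.Perm.ofSubtype σ) w - ((Equiv.Perm.sign σ : ℤ) : K) • w)) ∈ T :=
    T.sum_mem fun σ _ => T.smul_mem _ (key σ)
  have hsq : ∀ σ : Equiv.Perm {x : S // c x = i},
      ((Equiv.Perm.sign σ : ℤ) : K) * ((Equiv.Perm.sign σ : ℤ) : K) = 1 := by
    intro σ
    rcases Int.units_eq_one_or (Equiv.Perm.sign σ) with h | h <;> rw [h] <;> norm_num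
  simp only [smul_sub, Finset.sum_sub_distrib, smul_smul] at hfac
  rw [← hW] at hfac
  have hfac2 := T.sub_mem hWT hfac
  rw [sub_sub_cancel] at hfac2
  simp only [hsq, one_smul, Finset.sum_const, ← Nat.cast_smul_eq_nsmul K] at hfac2
  rw [Submodule.smul_mem_iff] at hfac2
  · exact hfac2
  · rw [Finset.card_univ, Fintype.card_perm]
    exact_mod_cast Nat.factorial_ne_zero _

theorem fftAux (𝒮 : Sys K B) (κ : B → ι) (h2 : ∀ i, delta κ i ∈ 𝒮.Alg (Fin 2))
    (hd : ∀ i, detf κ i ∈ 𝒮.Alg {b : B // κ b = i}) (N : ℕ) :
    ∀ (S : Type) [Fintype S] [DecidableEq S] (f : (S → B) → K), Fintype.card S = N →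
      InvB κ f → f ∈ 𝒮.Alg S := by
  induction N using Nat.strong_induction_on with
  | _ N ih =>
    intro S _ _ f0 hN hf0
    refine sum_pat κ (𝒮.Alg S) (fun c f hf hsup => ?_) f0 hf0
    rcases isEmpty_or_nonempty S with hS | ⟨⟨a0⟩⟩
    · have h1 := 𝒮.re (Equiv.equivOfIsEmpty Empty S) 𝒮.one
      have h3 := Submodule.smul_mem _ (f (fun j => (hS.false j).elim)) h1
      convert h3 using 1
      funext J
      rw [Pi.smul_apply, smul_eq_mul, mul_one]
      congr 1
      funext j
      exact (hS.false j).elim
    · have hQb : ∀ a b, κ a ≠ κ b → (1 : Matrix B B K) a b = 0 := by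
        intro a b hab
        rw [Matrix.one_apply, if_neg (fun h => hab (congrArg κ h))]
      have hQs : ∀ a b, (1 : Matrix B B K) a b = ((s1 (κ a) : ℤ) : K) * (1 : Matrix B B K) b a := by
        intro a b
        simp only [s1, Int.cast_one, one_mul, Matrix.one_apply, eq_comm]
      have hQR : (1 : Matrix B B K) * 1 = 1 := one_mul 1
      have hs : ∀ i : ι, s1 i = 1 ∨ s1 i = -1 := fun i => Or.inl rfl
      refine alt_mem' (κ := κ) (c := c) (i := c a0) (𝒮.Alg S)
        (fun a b _ _ f hf => 𝒮.re (Equiv.swap a b) hf) (univ.filter fun b => κ b = c a0).card rfl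
        (univ.filter (c · = c a0)) rfl (PB (K := K) κ S) (fun a b _ _ f hf => PB_rho _ hf) ?_
        ((univ.filter fun b => κ b = c a0).card + 1) {a0} ?_ ⟨a0, by simp⟩ ?_ f hf hsup ?_ ?_
      · intro hcard w hw hwsup halt
        refine hfull 𝒮 κ hd c a0 ?_ hcard w hw hwsup halt
        intro g hg
        refine ih (Fintype.card {s : S // c s ≠ c a0}) ?_ _ g rfl hg
        rw [← hN]
        exact Fintype.card_subtype_lt (x := a0) (fun h => h rfl)
      · intro x hx
        rw [Finset.mem_singleton] at hx
        rw [hx]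
        simp
      · rw [Finset.card_singleton]
        omega
      · intro a ha
        have hai : c a = c a0 := (Finset.mem_filter.1 ha).2
        have hterm : ∀ b ∈ (univ.filter (c · = c a0)).erase a,
            (fun J : S → B => (if J a = J b ∧ κ (J a) = c a0 then (1 : K) else 0) *
              con κ (1 : Matrix B B K) (c a0) a b f (fun x => J x.1)) ∈ 𝒮.Alg S := by
          intro b hb
          rw [Finset.mem_erase] at hb
          have hab : a ≠ b := Ne.symm hb.1
          have hcon : con κ (1 : Matrix B B K) (c a0) a b f ∈ 𝒮.Alg {x : S // x ≠ a ∧ x ≠ b} := by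
            refine ih (Fintype.card {x : S // x ≠ a ∧ x ≠ b}) ?_ _ _ rfl ?_
            · rw [← hN]
              exact Fintype.card_subtype_lt (x := a) (fun h => h.1 rfl)
            · exact (inv_iff κ _).2 (inv_con hs hQb hQs hQR ((inv_iff κ f).1 hf) hab)
          obtain ⟨E, hE0, hE1, hE2⟩ := exists_two hab
          have h4 := 𝒮.re E (𝒮.mul (h2 (c a0)) hcon)
          convert h4 using 1
          funext J
          have e1 : (J ∘ E) ∘ Sum.inr = fun x : {x : S // x ≠ a ∧ x ≠ b} => J x.1 := by
            funext x
            exact congrArg J (hE2 x)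
          rw [e1]
          simp only [delta, Function.comp, hE0, hE1]
        convert Submodule.sum_mem _ hterm using 1
        funext J
        rw [Pi.add_apply, Pi.smul_apply, Finset.sum_apply, Finset.sum_apply]
        by_cases hJ : ∀ j, κ (J j) = c j
        · have h5 := cas hs hQb hQR ((inv_iff κ f).1 hf) hJ hai
          have h6 : (((s1 (c a0) : ℤ)) : K) = 1 := by simp [s1]
          rw [h6, one_smul] at h5
          have h7 : ∀ b ∈ (univ.filter (c · = c a0)).erase a,
              (if J a = J b ∧ κ (J a) = c a0 then (1 : K) else 0) *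
                con κ (1 : Matrix B B K) (c a0) a b f (fun x => J x.1) =
              (1 : Matrix B B K) (J a) (J b) •
                con κ (1 : Matrix B B K) (c a0) a b f (fun x => J x.1) := by
            intro b _
            rw [smul_eq_mul, Matrix.one_apply]
            have : κ (J a) = c a0 := by rw [hJ, hai]
            simp only [this, and_true]
          rw [Finset.sum_congr rfl h7, ← h5]
          rfl
        · rw [hsup J hJ, smul_zero, zero_add]
          rw [Finset.sum_eq_zero, Finset.sum_eq_zero]
          · intro b hb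
            rw [Finset.mem_erase, Finset.mem_filter] at hb
            by_cases h8 : J a = J b ∧ κ (J a) = c a0
            · rw [sup_con hsup (1 : Matrix B B K) (fun x => J x.1), mul_zero]
              intro h9
              apply hJ
              intro j
              by_cases h1 : j = a
              · rw [h1, h8.2, hai]
              by_cases h1' : j = b
              · rw [h1', ← h8.1, h8.2, hb.2.2]
              exact h9 ⟨j, h1, h1'⟩
            · rw [if_neg h8, zero_mul]
          · intro b hb
            rw [Finset.mem_erase, Finset.mem_filter] at hb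
            exact Sup_rho (K := K) (c_swap hai hb.2.2) hsup J hJ
      · intro a ha b hb hab
        rw [Finset.mem_singleton] at ha hb
        exact absurd (ha.trans hb.symm) hab

end K5aux

/-- K5: the first fundamental theorem for products of special orthogonal groups -/
theorem fft (𝒮 : Sys K B) (κ : B → ι) (h2 : ∀ i, delta κ i ∈ 𝒮.Alg (Fin 2))
    (hd : ∀ i, detf κ i ∈ 𝒮.Alg {b : B // κ b = i}) (S : Type) [Fintype S] [DecidableEq S]
    (f : (S → B) → K) (hf : InvB κ f) : f ∈ 𝒮.Alg S :=
  K5aux.fftAux 𝒮 κ h2 hd (Fintype.card S) S f rfl hf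

end fft

end

end Pool.Agent.N429.KS

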