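import Pool.Agent.N429.KS.Defs2
import Pool.Agent.N429.KS.K12

/-!
# Independence of two factors

Goursat's lemma with weights: an ideal of a Lie algebra which acts on two orthogonal spaces, which
contains the sum of the two weight operators and projects onto both orthogonal Lie algebras,
contains one of the weight operators or is the graph of an isomorphism (which comes from a
similarity of the two spaces).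
-/

set_option linter.unusedSectionVars false

open Matrix Finset Function

namespace Pool.Agent.N429.KS

noncomputable section

namespace Z6

open K12

/-! ### one factor -/

section one

variable {B : Type} [Fintype B] [DecidableEq B] {Q : Matrix B B ℂ} {T : Submodule ℂ (B → ℂ)}
  {ω ω' : B → ℂ} {N : ℂ}

theorem bf_sub_left (Q : Matrix B B ℂ) (x y z : B → ℂ) : bf Q (x - y) z = bf Q x z - bf Q y z := by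
  simp [bf, sub_dotProduct]

theorem bf_sub_right (Q : Matrix B B ℂ) (x y z : B → ℂ) : bf Q x (y - z) = bf Q x y - bf Q x z := by
  simp [bf, mulVec_sub, dotProduct_sub]

theorem wedge_sub_right (Q : Matrix B B ℂ) (x y z : B → ℂ) :
    wedge Q x (y - z) = wedge Q x y - wedge Q x z := by
  rw [sub_eq_add_neg, wedge_add_right, ← neg_one_smul ℂ z, wedge_smul_right, neg_one_smul,
    ← sub_eq_add_neg]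

theorem wedge_zero_left (Q : Matrix B B ℂ) (x : B → ℂ) : wedge Q 0 x = 0 := by
  rw [wedge_anti, wedge_zero_right, neg_zero]

/-- the vectors of `T` orthogonal to `ω`, `ω'` -/
def T0 (Q : Matrix B B ℂ) (T : Submodule ℂ (B → ℂ)) (ω ω' : B → ℂ) : Submodule ℂ (B → ℂ) where
  carrier := {t | t ∈ T ∧ bf Q t ω = 0 ∧ bf Q t ω' = 0}
  add_mem' := by
    rintro x y ⟨a1, a2, a3⟩ ⟨b1, b2, b3⟩
    exact ⟨T.add_mem a1 b1, by rw [bf_add_left, a2, b2, add_zero],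
      by rw [bf_add_left, a3, b3, add_zero]⟩
  zero_mem' := ⟨T.zero_mem, bf_zero_left _ _, bf_zero_left _ _⟩
  smul_mem' := by
    rintro c x ⟨a1, a2, a3⟩
    exact ⟨T.smul_mem c a1, by rw [bf_smul_left, a2, mul_zero], by rw [bf_smul_left, a3, mul_zero]⟩

theorem mem_T0 {t : B → ℂ} : t ∈ T0 Q T ω ω' ↔ t ∈ T ∧ bf Q t ω = 0 ∧ bf Q t ω' = 0 := Iff.rfl

theorem T0_swap : T0 Q T ω' ω = T0 Q T ω ω' := by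
  ext t
  rw [mem_T0, mem_T0, and_comm (a := bf Q t ω' = 0)]

/-- the data of one factor -/
structure One (Q : Matrix B B ℂ) (T : Submodule ℂ (B → ℂ)) (ω ω' : B → ℂ) (N : ℂ) : Prop where
  hQ : Q.IsSymm
  h1 : bf Q ω ω = 0
  h2 : bf Q ω' ω' = 0
  hN : bf Q ω ω' = N
  hN0 : N ≠ 0
  hω : ω ∈ T
  hω' : ω' ∈ T
  nd : ∀ x ∈ T, x ≠ 0 → ∃ y ∈ T, bf Q x y ≠ 0
  hd : 3 ≤ Module.finrank ℂ T
  h4 : Module.finrank ℂ T ≠ 4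

theorem One.hN' (D : One Q T ω ω' N) : bf Q ω' ω = N := by
  rw [bf_symm D.hQ]
  exact D.hN

theorem One.swap (D : One Q T ω ω' N) : One Q T ω' ω N :=
  ⟨D.hQ, D.h2, D.h1, D.hN', D.hN0, D.hω', D.hω, D.nd, D.hd, D.h4⟩

/-- the projection to the orthogonal complement of `ω`, `ω'` -/
def pr (Q : Matrix B B ℂ) (ω ω' : B → ℂ) (N : ℂ) : (B → ℂ) →ₗ[ℂ] (B → ℂ) where
  toFun x := x - ((N⁻¹ * bf Q x ω') • ω + (N⁻¹ * bf Q x ω) • ω')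
  map_add' x y := by
    simp only [bf_add_left, mul_add, add_smul]
    abel
  map_smul' c x := by
    simp only [bf_smul_left, smul_sub, smul_add, smul_smul, RingHom.id_apply]
    rw [mul_left_comm N⁻¹ c, mul_left_comm N⁻¹ c]

theorem pr_apply (x : B → ℂ) :
    pr Q ω ω' N x = x - ((N⁻¹ * bf Q x ω') • ω + (N⁻¹ * bf Q x ω) • ω') := rfl

theorem split (Q : Matrix B B ℂ) (ω ω' : B → ℂ) (N : ℂ) (x : B → ℂ) :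
    x = (N⁻¹ * bf Q x ω') • ω + (N⁻¹ * bf Q x ω) • ω' + pr Q ω ω' N x := by
  rw [pr_apply]
  abel

theorem pr_mem (D : One Q T ω ω' N) {x : B → ℂ} (hx : x ∈ T) :
    pr Q ω ω' N x ∈ T0 Q T ω ω' := by
  have hN0 := D.hN0
  refine ⟨T.sub_mem hx (T.add_mem (T.smul_mem _ D.hω) (T.smul_mem _ D.hω')), ?_, ?_⟩
  · rw [pr_apply, bf_sub_left, bf_add_left, bf_smul_left, bf_smul_left, D.h1, D.hN']
    field_simp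
    ring
  · rw [pr_apply, bf_sub_left, bf_add_left, bf_smul_left, bf_smul_left, D.h2, D.hN]
    field_simp
    ring

theorem pr_T0 {t : B → ℂ} (ht : t ∈ T0 Q T ω ω') : pr Q ω ω' N t = t := by
  rw [pr_apply, ht.2.1, ht.2.2, mul_zero, zero_smul, zero_smul, add_zero, sub_zero]

theorem pr_ω (D : One Q T ω ω' N) : pr Q ω ω' N ω = 0 := by
  rw [pr_apply, D.h1, D.hN, inv_mul_cancel₀ D.hN0, mul_zero, one_smul, zero_smul, add_zero, sub_self]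

theorem pr_ω' (D : One Q T ω ω' N) : pr Q ω ω' N ω' = 0 := by
  rw [pr_apply, D.h2, D.hN', inv_mul_cancel₀ D.hN0, mul_zero, one_smul, zero_smul, zero_add,
    sub_self]

theorem ortho (D : One Q T ω ω' N) {t : B → ℂ} (ht : t ∈ T0 Q T ω ω') :
    bf Q ω t = 0 ∧ bf Q ω' t = 0 := by
  rw [bf_symm D.hQ, bf_symm D.hQ ω']
  exact ht.2

theorem nd0 (D : One Q T ω ω' N) {x : B → ℂ} (hx : x ∈ T0 Q T ω ω') (h : x ≠ 0) :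
    ∃ y ∈ T0 Q T ω ω', bf Q x y ≠ 0 := by
  obtain ⟨y, hy, hxy⟩ := D.nd x hx.1 h
  refine ⟨pr Q ω ω' N y, pr_mem D hy, ?_⟩
  rw [pr_apply, bf_sub_right, bf_add_right, bf_smul_right, bf_smul_right, hx.2.1, hx.2.2]
  simpa using hxy

theorem exT0 (D : One Q T ω ω' N) : ∃ t ∈ T0 Q T ω ω', t ≠ 0 := by
  classical
  by_contra hcon
  push Not at hcon
  have h1 : T ≤ Submodule.span ℂ (({ω, ω'} : Finset (B → ℂ)) : Set (B → ℂ)) := by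
    intro x hx
    have h2 := split Q ω ω' N x
    rw [hcon _ (pr_mem D hx), add_zero] at h2
    rw [h2, coe_pair]
    exact Submodule.mem_span_pair.2 ⟨_, _, rfl⟩
  have h2 := Submodule.finrank_mono h1
  have h3 : Module.finrank ℂ (Submodule.span ℂ (({ω, ω'} : Finset (B → ℂ)) : Set (B → ℂ))) ≤ _ :=
    finrank_span_finset_le_card (R := ℂ) ({ω, ω'} : Finset (B → ℂ))
  have h4 : ({ω, ω'} : Finset (B → ℂ)).card ≤ 2 := Finset.card_le_two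
  have h5 := D.hd
  omega

theorem gen4 (D : One Q T ω ω' N) {t u : B → ℂ} (ht : t ∈ T0 Q T ω ω') (hu : u ∈ T0 Q T ω ω')
    (htt : bf Q t t = 0) (htu : bf Q t u = 1) :
    ∃ v ∈ T0 Q T ω ω', ∀ c d : ℂ, v ≠ c • t + d • u := by
  by_contra hcon
  push Not at hcon
  have hut : bf Q u t = 1 := by rw [bf_symm D.hQ]; exact htu
  have hli : LinearIndependent ℂ ![ω, ω', t, u] := by
    rw [Fintype.linearIndependent_iff]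
    intro g hg
    rw [Fin.sum_univ_four] at hg
    change g 0 • ω + g 1 • ω' + g 2 • t + g 3 • u = 0 at hg
    have a1 := congrArg (fun x => bf Q x ω') hg
    have a2 := congrArg (fun x => bf Q x ω) hg
    have a3 := congrArg (fun x => bf Q x t) hg
    have a4 := congrArg (fun x => bf Q x u) hg
    simp only [bf_add_left, bf_smul_left, bf_zero_left, D.hN, D.h2, ht.2.1, ht.2.2, hu.2.1, hu.2.2,
      D.h1, D.hN', (ortho D ht).1, (ortho D ht).2, (ortho D hu).1, (ortho D hu).2, htt, htu, hut,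
      mul_zero, add_zero, zero_add, mul_one] at a1 a2 a3 a4
    have b0 : g 0 = 0 := (mul_eq_zero.1 a1).resolve_right D.hN0
    have b1 : g 1 = 0 := (mul_eq_zero.1 a2).resolve_right D.hN0
    have b3 : g 3 = 0 := a3
    have b2 : g 2 = 0 := by
      rw [b3, zero_mul, add_zero] at a4
      exact a4
    intro i
    fin_cases i
    · exact b0
    · exact b1
    · exact b2
    · exact b3
  have hspan : Submodule.span ℂ (Set.range ![ω, ω', t, u]) = T := by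
    apply le_antisymm
    · rw [Submodule.span_le]
      rintro x ⟨i, rfl⟩
      fin_cases i
      · exact D.hω
      · exact D.hω'
      · exact ht.1
      · exact hu.1
    · intro x hx
      obtain ⟨c, d, hcd⟩ := hcon _ (pr_mem D hx)
      rw [split Q ω ω' N x, hcd]
      have m : ∀ i : Fin 4, ![ω, ω', t, u] i ∈ Submodule.span ℂ (Set.range ![ω, ω', t, u]) :=
        fun i => Submodule.subset_span ⟨i, rfl⟩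
      exact Submodule.add_mem _ (Submodule.add_mem _ (Submodule.smul_mem _ _ (m 0))
        (Submodule.smul_mem _ _ (m 1))) (Submodule.add_mem _ (Submodule.smul_mem _ _ (m 2))
        (Submodule.smul_mem _ _ (m 3)))
  have h5 := finrank_span_eq_card hli
  rw [hspan] at h5
  exact D.h4 (by simpa using h5)

/-- a submodule of `T0` stable under the orthogonal Lie algebra contains a vector which is not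
isotropic -/
theorem noniso (D : One Q T ω ω' N) (M : Submodule ℂ (B → ℂ)) (hM : M ≤ T0 Q T ω ω')
    (hst : ∀ x ∈ T0 Q T ω ω', ∀ y ∈ T0 Q T ω ω', ∀ v ∈ M, wedge Q x y *ᵥ v ∈ M) {t : B → ℂ}
    (ht : t ∈ M) (h0 : t ≠ 0) : ∃ v ∈ M, bf Q v v ≠ 0 := by
  by_contra hcon
  push Not at hcon
  have htt := hcon t ht
  have ht0 := hM ht
  obtain ⟨y, hy, hty⟩ := nd0 D ht0 h0
  obtain ⟨u, hu⟩ : ∃ u, u = (bf Q t y)⁻¹ • y := ⟨_, rfl⟩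
  have hu0 : u ∈ T0 Q T ω ω' := by rw [hu]; exact Submodule.smul_mem _ _ hy
  have htu : bf Q t u = 1 := by rw [hu, bf_smul_right, inv_mul_cancel₀ hty]
  have hut : bf Q u t = 1 := by rw [bf_symm D.hQ]; exact htu
  -- the vectors orthogonal to `t` are in `M`
  have key : ∀ x ∈ T0 Q T ω ω', bf Q x t = 0 → x ∈ M := by
    intro x hx hxt
    have h := hst x hx u hu0 t ht
    rw [wedge_mulVec, htu, bf_symm D.hQ t x, hxt, one_smul, zero_smul, sub_zero] at h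
    exact h
  have pol : ∀ v ∈ M, ∀ w ∈ M, bf Q v w = 0 := by
    intro v hv w hw
    have h := hcon _ (M.add_mem hv hw)
    rw [bf_add_left, bf_add_right, bf_add_right, hcon v hv, hcon w hw, bf_symm D.hQ w v] at h
    have h2 : 2 * bf Q v w = 0 := by linear_combination h
    exact (mul_eq_zero.1 h2).resolve_left two_ne_zero
  have sub : ∀ x ∈ T0 Q T ω ω', x - bf Q x t • u ∈ M := by
    intro x hx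
    apply key _ (Submodule.sub_mem _ hx (Submodule.smul_mem _ _ hu0))
    rw [bf_sub_left, bf_smul_left, hut, mul_one, sub_self]
  obtain ⟨v0, hv0, hv1⟩ := gen4 D ht0 hu0 htt htu
  obtain ⟨v, hv⟩ : ∃ v, v = v0 - bf Q v0 t • u := ⟨_, rfl⟩
  have hvM : v ∈ M := by rw [hv]; exact sub v0 hv0
  obtain ⟨w, hw⟩ : ∃ w, w = v - bf Q v u • t := ⟨_, rfl⟩
  have hwM : w ∈ M := by rw [hw]; exact M.sub_mem hvM (M.smul_mem _ ht)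
  have hwu : bf Q w u = 0 := by rw [hw, bf_sub_left, bf_smul_left, htu, mul_one, sub_self]
  have hw0 : w = 0 := by
    by_contra hne
    obtain ⟨z, hz, hwz⟩ := nd0 D (hM hwM) hne
    apply hwz
    have h := pol w hwM _ (sub z hz)
    rw [bf_sub_right, bf_smul_right, hwu, mul_zero, sub_zero] at h
    exact h
  apply hv1 (bf Q v u) (bf Q v0 t)
  have h1 : v = bf Q v u • t := sub_eq_zero.1 (hw ▸ hw0)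
  rw [← h1, hv]
  abel

/-- the decomposition of a skew operator -/
theorem dec (D : One Q T ω ω' N) {Y : Matrix B B ℂ} (hY : Q * Y + Yᵀ * Q = 0)
    (hT : ∀ x ∈ T, Y *ᵥ x ∈ T) :
    ∃ (a : ℂ) (t t' : B → ℂ), Y *ᵥ ω = a • ω + t ∧ Y *ᵥ ω' = (-a) • ω' + t' ∧
      t ∈ T0 Q T ω ω' ∧ t' ∈ T0 Q T ω ω' := by
  have hN0 := D.hN0
  have hsk := bf_skew hY
  have hYω : bf Q (Y *ᵥ ω) ω = 0 := by
    have e := hsk ω ω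
    rw [bf_symm D.hQ ω (Y *ᵥ ω)] at e
    exact self_eq_neg.1 e
  have hYω' : bf Q (Y *ᵥ ω') ω' = 0 := by
    have e := hsk ω' ω'
    rw [bf_symm D.hQ ω' (Y *ᵥ ω')] at e
    exact self_eq_neg.1 e
  obtain ⟨a, ha⟩ : ∃ a, a = bf Q (Y *ᵥ ω) ω' / N := ⟨_, rfl⟩
  have haN : a * N = bf Q (Y *ᵥ ω) ω' := by rw [ha, div_mul_cancel₀ _ hN0]
  refine ⟨a, Y *ᵥ ω + (-a) • ω, Y *ᵥ ω' + a • ω', ?_, ?_, ⟨?_, ?_, ?_⟩, ⟨?_, ?_, ?_⟩⟩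
  · rw [neg_smul]; abel
  · rw [neg_smul]; abel
  · exact T.add_mem (hT _ D.hω) (T.smul_mem _ D.hω)
  · rw [bf_add_left, bf_smul_left, hYω, D.h1]; ring
  · rw [bf_add_left, bf_smul_left, D.hN, ← haN]; ring
  · exact T.add_mem (hT _ D.hω') (T.smul_mem _ D.hω')
  · rw [bf_add_left, bf_smul_left, D.hN', hsk, bf_symm D.hQ, ← haN]; ring
  · rw [bf_add_left, bf_smul_left, hYω', D.h2]; ring

/-! the action of some operators -/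

theorem h_ω (D : One Q T ω ω' N) : (N⁻¹ • wedge Q ω ω') *ᵥ ω = ω := by
  rw [smul_mulVec, wedge_mulVec, D.h1, D.hN, zero_smul, sub_zero, smul_smul, inv_mul_cancel₀ D.hN0,
    one_smul]

theorem h_ω' (D : One Q T ω ω' N) : (N⁻¹ • wedge Q ω ω') *ᵥ ω' = -ω' := by
  rw [smul_mulVec, wedge_mulVec, D.h2, D.hN', zero_smul, zero_sub, smul_neg, smul_smul,
    inv_mul_cancel₀ D.hN0, one_smul]

theorem h_t {t : B → ℂ} (ht : t ∈ T0 Q T ω ω') : (N⁻¹ • wedge Q ω ω') *ᵥ t = 0 := by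
  rw [smul_mulVec, wedge_mulVec, ht.2.1, ht.2.2, zero_smul, zero_smul, sub_zero, smul_zero]

theorem ωt_ω (D : One Q T ω ω' N) {t : B → ℂ} (ht : t ∈ T0 Q T ω ω') : wedge Q ω t *ᵥ ω = 0 := by
  rw [wedge_mulVec, (ortho D ht).1, D.h1, zero_smul, zero_smul, sub_zero]

theorem ωt_ω' (D : One Q T ω ω' N) {t : B → ℂ} (ht : t ∈ T0 Q T ω ω') :
    wedge Q ω t *ᵥ ω' = (-N) • t := by
  rw [wedge_mulVec, (ortho D ht).2, D.hN', zero_smul, zero_sub, neg_smul]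

theorem ωt_t {t s : B → ℂ} (hs : s ∈ T0 Q T ω ω') : wedge Q ω t *ᵥ s = bf Q s t • ω := by
  rw [wedge_mulVec, hs.2.1, zero_smul, sub_zero]

theorem ω't_ω' (D : One Q T ω ω' N) {t : B → ℂ} (ht : t ∈ T0 Q T ω ω') :
    wedge Q ω' t *ᵥ ω' = 0 := by
  rw [wedge_mulVec, (ortho D ht).2, D.h2, zero_smul, zero_smul, sub_zero]

theorem ω't_ω (D : One Q T ω ω' N) {t : B → ℂ} (ht : t ∈ T0 Q T ω ω') :
    wedge Q ω' t *ᵥ ω = (-N) • t := by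
  rw [wedge_mulVec, (ortho D ht).1, D.hN, zero_smul, zero_sub, neg_smul]

theorem ω't_t {t s : B → ℂ} (hs : s ∈ T0 Q T ω ω') : wedge Q ω' t *ᵥ s = bf Q s t • ω' := by
  rw [wedge_mulVec, hs.2.2, zero_smul, sub_zero]

theorem xy_ω (D : One Q T ω ω' N) {x y : B → ℂ} (hx : x ∈ T0 Q T ω ω') (hy : y ∈ T0 Q T ω ω') :
    wedge Q x y *ᵥ ω = 0 := by
  rw [wedge_mulVec, (ortho D hx).1, (ortho D hy).1, zero_smul, zero_smul, sub_zero]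

theorem xy_ω' (D : One Q T ω ω' N) {x y : B → ℂ} (hx : x ∈ T0 Q T ω ω') (hy : y ∈ T0 Q T ω ω') :
    wedge Q x y *ᵥ ω' = 0 := by
  rw [wedge_mulVec, (ortho D hx).2, (ortho D hy).2, zero_smul, zero_smul, sub_zero]

theorem xy_mem {x y : B → ℂ} (hx : x ∈ T0 Q T ω ω') (hy : y ∈ T0 Q T ω ω') (v : B → ℂ) :
    wedge Q x y *ᵥ v ∈ T0 Q T ω ω' := by
  rw [wedge_mulVec]
  exact Submodule.sub_mem _ (Submodule.smul_mem _ _ hx) (Submodule.smul_mem _ _ hy)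

/-- the first bracket -/
theorem comp1 {Y : Matrix B B ℂ} {a : ℂ} {t t' : B → ℂ}
    (e1 : Y *ᵥ ω = a • ω + t) (e2 : Y *ᵥ ω' = (-a) • ω' + t') :
    wedge Q (Y *ᵥ (N⁻¹ • ω)) ω' + wedge Q (N⁻¹ • ω) (Y *ᵥ ω') =
      wedge Q (N⁻¹ • t) ω' + wedge Q ω (N⁻¹ • t') := by
  rw [mulVec_smul, e1, e2]
  simp only [wedge_add_left, wedge_add_right, wedge_smul_left, wedge_smul_right]
  module

/-- the second bracket -/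
theorem comp2 (D : One Q T ω ω' N)
    (hsk : Q * (N⁻¹ • wedge Q ω ω') + (N⁻¹ • wedge Q ω ω')ᵀ * Q = 0) {p p' : B → ℂ}
    (hp : p ∈ T0 Q T ω ω') (hp' : p' ∈ T0 Q T ω ω') :
    (N⁻¹ • wedge Q ω ω') * (wedge Q p ω' + wedge Q ω p') -
      (wedge Q p ω' + wedge Q ω p') * (N⁻¹ • wedge Q ω ω') = wedge Q ω p' - wedge Q p ω' := by
  have e : (N⁻¹ • wedge Q ω ω') * (wedge Q p ω' + wedge Q ω p') -
      (wedge Q p ω' + wedge Q ω p') * (N⁻¹ • wedge Q ω ω') =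
      ((N⁻¹ • wedge Q ω ω') * wedge Q p ω' - wedge Q p ω' * (N⁻¹ • wedge Q ω ω')) +
      ((N⁻¹ • wedge Q ω ω') * wedge Q ω p' - wedge Q ω p' * (N⁻¹ • wedge Q ω ω')) := by
    rw [mul_add, add_mul]; abel
  rw [e, bracket hsk, bracket hsk, h_t hp, h_t hp', h_ω D, h_ω' D, wedge_zero_left,
    wedge_zero_right, ← neg_one_smul ℂ ω', wedge_smul_right]
  module

end one

/-! ### two factors -/

section two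

variable {B₁ B₂ : Type} [Fintype B₁] [DecidableEq B₁] [Fintype B₂] [DecidableEq B₂]
  {Q₁ : Matrix B₁ B₁ ℂ} {Q₂ : Matrix B₂ B₂ ℂ}
  {L P : Submodule ℂ (Matrix B₁ B₁ ℂ × Matrix B₂ B₂ ℂ)}
  {T₁ : Submodule ℂ (B₁ → ℂ)} {T₂ : Submodule ℂ (B₂ → ℂ)}
  {ω₁ ω₁' : B₁ → ℂ} {ω₂ ω₂' : B₂ → ℂ} {N₁ N₂ : ℂ}

/-- the situation -/
structure PD (Q₁ : Matrix B₁ B₁ ℂ) (Q₂ : Matrix B₂ B₂ ℂ)
    (L P : Submodule ℂ (Matrix B₁ B₁ ℂ × Matrix B₂ B₂ ℂ))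
    (T₁ : Submodule ℂ (B₁ → ℂ)) (T₂ : Submodule ℂ (B₂ → ℂ))
    (ω₁ ω₁' : B₁ → ℂ) (ω₂ ω₂' : B₂ → ℂ) (N₁ N₂ : ℂ) : Prop where
  o1 : One Q₁ T₁ ω₁ ω₁' N₁
  o2 : One Q₂ T₂ ω₂ ω₂' N₂
  hPL : P ≤ L
  hLP : ∀ y ∈ L, ∀ z ∈ P, y * z - z * y ∈ P
  sk1 : ∀ y ∈ L, Q₁ * y.1 + y.1ᵀ * Q₁ = 0
  sk2 : ∀ y ∈ L, Q₂ * y.2 + y.2ᵀ * Q₂ = 0
  hh : (N₁⁻¹ • wedge Q₁ ω₁ ω₁', N₂⁻¹ • wedge Q₂ ω₂ ω₂') ∈ P
  hT1 : ∀ y ∈ L, ∀ x ∈ T₁, y.1 *ᵥ x ∈ T₁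
  hT2 : ∀ y ∈ L, ∀ x ∈ T₂, y.2 *ᵥ x ∈ T₂
  hs1 : ∀ x ∈ T₁, ∀ y ∈ T₁, ∃ Z, (wedge Q₁ x y, Z) ∈ P
  hs2 : ∀ x ∈ T₂, ∀ y ∈ T₂, ∃ Z, (Z, wedge Q₂ x y) ∈ P

/-- exchange of `ω` and `ω'` -/
theorem PD.sw (D : PD Q₁ Q₂ L P T₁ T₂ ω₁ ω₁' ω₂ ω₂' N₁ N₂) :
    PD Q₁ Q₂ L P T₁ T₂ ω₁' ω₁ ω₂' ω₂ N₁ N₂ where
  o1 := D.o1.swap
  o2 := D.o2.swap
  hPL := D.hPL
  hLP := D.hLP
  sk1 := D.sk1
  sk2 := D.sk2
  hh := by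
    rw [wedge_anti Q₁ ω₁, wedge_anti Q₂ ω₂, smul_neg, smul_neg]
    exact P.neg_mem D.hh
  hT1 := D.hT1
  hT2 := D.hT2
  hs1 := D.hs1
  hs2 := D.hs2

/-- exchange of the factors -/
theorem PD.flip (D : PD Q₁ Q₂ L P T₁ T₂ ω₁ ω₁' ω₂ ω₂' N₁ N₂) :
    PD Q₂ Q₁ (L.comap (LinearEquiv.prodComm ℂ _ _).toLinearMap)
      (P.comap (LinearEquiv.prodComm ℂ _ _).toLinearMap) T₂ T₁ ω₂ ω₂' ω₁ ω₁' N₂ N₁ where
  o1 := D.o2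
  o2 := D.o1
  hPL := fun _ hx => D.hPL hx
  hLP := fun y hy z hz => D.hLP (y.2, y.1) hy (z.2, z.1) hz
  sk1 := fun y hy => D.sk2 (y.2, y.1) hy
  sk2 := fun y hy => D.sk1 (y.2, y.1) hy
  hh := D.hh
  hT1 := fun y hy => D.hT2 (y.2, y.1) hy
  hT2 := fun y hy => D.hT1 (y.2, y.1) hy
  hs1 := D.hs2
  hs2 := D.hs1

/-- bracket with a pair of wedge products -/
theorem PD.br (D : PD Q₁ Q₂ L P T₁ T₂ ω₁ ω₁' ω₂ ω₂' N₁ N₂)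
    {y : Matrix B₁ B₁ ℂ × Matrix B₂ B₂ ℂ} (hy : y ∈ L) {x₁ z₁ : B₁ → ℂ} {x₂ z₂ : B₂ → ℂ}
    (h : (wedge Q₁ x₁ z₁, wedge Q₂ x₂ z₂) ∈ P) :
    (wedge Q₁ (y.1 *ᵥ x₁) z₁ + wedge Q₁ x₁ (y.1 *ᵥ z₁),
      wedge Q₂ (y.2 *ᵥ x₂) z₂ + wedge Q₂ x₂ (y.2 *ᵥ z₂)) ∈ P := by
  have h1 := D.hLP y hy _ h
  rw [← bracket (D.sk1 y hy), ← bracket (D.sk2 y hy)]
  exact h1

theorem PD.step1 (D : PD Q₁ Q₂ L P T₁ T₂ ω₁ ω₁' ω₂ ω₂' N₁ N₂)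
    {y : Matrix B₁ B₁ ℂ × Matrix B₂ B₂ ℂ} (hy : y ∈ L) :
    ∃ (a₁ : ℂ) (t₁ t₁' : B₁ → ℂ) (a₂ : ℂ) (t₂ t₂' : B₂ → ℂ),
      (y.1 *ᵥ ω₁ = a₁ • ω₁ + t₁ ∧ y.1 *ᵥ ω₁' = (-a₁) • ω₁' + t₁' ∧
        t₁ ∈ T0 Q₁ T₁ ω₁ ω₁' ∧ t₁' ∈ T0 Q₁ T₁ ω₁ ω₁') ∧
      (y.2 *ᵥ ω₂ = a₂ • ω₂ + t₂ ∧ y.2 *ᵥ ω₂' = (-a₂) • ω₂' + t₂' ∧
        t₂ ∈ T0 Q₂ T₂ ω₂ ω₂' ∧ t₂' ∈ T0 Q₂ T₂ ω₂ ω₂') ∧
      (wedge Q₁ ω₁ (N₁⁻¹ • t₁'), wedge Q₂ ω₂ (N₂⁻¹ • t₂')) ∈ P ∧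
      (wedge Q₁ ω₁' (N₁⁻¹ • t₁), wedge Q₂ ω₂' (N₂⁻¹ • t₂)) ∈ P := by
  obtain ⟨a₁, t₁, t₁', e1, e2, m1, m2⟩ := dec D.o1 (D.sk1 y hy) (D.hT1 y hy)
  obtain ⟨a₂, t₂, t₂', f1, f2, n1, n2⟩ := dec D.o2 (D.sk2 y hy) (D.hT2 y hy)
  have hh' : (wedge Q₁ (N₁⁻¹ • ω₁) ω₁', wedge Q₂ (N₂⁻¹ • ω₂) ω₂') ∈ P := by
    rw [wedge_smul_left, wedge_smul_left]
    exact D.hh
  have z := D.br hy hh'
  rw [comp1 e1 e2, comp1 f1 f2] at z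
  have w := D.hLP _ (D.hPL D.hh) _ z
  rw [Prod.mk_mul_mk, Prod.mk_mul_mk, Prod.mk_sub_mk,
    comp2 D.o1 (D.sk1 _ (D.hPL D.hh)) (Submodule.smul_mem _ _ m1) (Submodule.smul_mem _ _ m2),
    comp2 D.o2 (D.sk2 _ (D.hPL D.hh)) (Submodule.smul_mem _ _ n1)
      (Submodule.smul_mem _ _ n2)] at w
  refine ⟨a₁, t₁, t₁', a₂, t₂, t₂', ⟨e1, e2, m1, m2⟩, ⟨f1, f2, n1, n2⟩, ?_, ?_⟩
  · have h := P.smul_mem (1 / 2 : ℂ) (P.add_mem z w)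
    rw [Prod.mk_add_mk, Prod.smul_mk] at h
    convert h using 2 <;> module
  · have h := P.smul_mem (-(1 / 2) : ℂ) (P.sub_mem z w)
    rw [Prod.mk_sub_mk, Prod.smul_mk] at h
    rw [wedge_anti Q₁ _ ω₁', wedge_anti Q₂ _ ω₂']
    convert h using 2 <;> module

/-- lifting of `ω₁ ∧ t` -/
theorem PD.ex_u (D : PD Q₁ Q₂ L P T₁ T₂ ω₁ ω₁' ω₂ ω₂' N₁ N₂) {t : B₁ → ℂ}
    (ht : t ∈ T0 Q₁ T₁ ω₁ ω₁') :
    ∃ u ∈ T0 Q₂ T₂ ω₂ ω₂', (wedge Q₁ ω₁ t, wedge Q₂ ω₂ u) ∈ P := by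
  have hN0 := D.o1.hN0
  obtain ⟨Z, hZ⟩ := D.hs1 ω₁ D.o1.hω t ht.1
  obtain ⟨a₁, t₁, t₁', a₂, t₂, t₂', ⟨e1, e2, m1, m2⟩, ⟨f1, f2, n1, n2⟩, c1, c2⟩ :=
    D.step1 (D.hPL hZ)
  dsimp only at e2
  rw [ωt_ω' D.o1 ht] at e2
  have ha : a₁ = 0 := by
    have h := congrArg (fun x => bf Q₁ x ω₁) e2
    simp only [bf_add_left, bf_smul_left, ht.2.1, m2.2.1, D.o1.hN', mul_zero, add_zero] at h
    have h2 : a₁ * N₁ = 0 := by linear_combination h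
    exact (mul_eq_zero.1 h2).resolve_right hN0
  rw [ha, neg_zero, zero_smul, zero_add] at e2
  refine ⟨(-1 : ℂ) • (N₂⁻¹ • t₂'), Submodule.smul_mem _ _ (Submodule.smul_mem _ _ n2), ?_⟩
  have h := P.smul_mem (-1 : ℂ) c1
  rw [← e2, Prod.smul_mk, ← wedge_smul_right, ← wedge_smul_right, smul_smul, smul_smul] at h
  have e : (-1 : ℂ) * N₁⁻¹ * (-N₁) = 1 := by field_simp
  rw [e, one_smul] at h
  exact h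

/-- the vectors `t` with `(ω₁ ∧ t, 0)` in the ideal -/
def KK (Q₁ : Matrix B₁ B₁ ℂ) (P : Submodule ℂ (Matrix B₁ B₁ ℂ × Matrix B₂ B₂ ℂ))
    (T₁ : Submodule ℂ (B₁ → ℂ)) (ω₁ ω₁' : B₁ → ℂ) : Submodule ℂ (B₁ → ℂ) where
  carrier := {t | t ∈ T0 Q₁ T₁ ω₁ ω₁' ∧ (wedge Q₁ ω₁ t, (0 : Matrix B₂ B₂ ℂ)) ∈ P}
  add_mem' := by
    rintro x y ⟨a1, a2⟩ ⟨b1, b2⟩
    refine ⟨Submodule.add_mem _ a1 b1, ?_⟩
    have h := P.add_mem a2 b2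
    rw [Prod.mk_add_mk, add_zero] at h
    rw [wedge_add_right]
    exact h
  zero_mem' := ⟨Submodule.zero_mem _, by rw [wedge_zero_right]; exact P.zero_mem⟩
  smul_mem' := by
    rintro c x ⟨a1, a2⟩
    refine ⟨Submodule.smul_mem _ c a1, ?_⟩
    have h := P.smul_mem c a2
    rw [Prod.smul_mk, smul_zero] at h
    rw [wedge_smul_right]
    exact h

theorem PD.first (D : PD Q₁ Q₂ L P T₁ T₂ ω₁ ω₁' ω₂ ω₂' N₁ N₂) {t : B₁ → ℂ}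
    (ht : t ∈ T0 Q₁ T₁ ω₁ ω₁') (h0 : t ≠ 0) (h : (wedge Q₁ ω₁ t, (0 : Matrix B₂ B₂ ℂ)) ∈ P) :
    (wedge Q₁ ω₁ ω₁', (0 : Matrix B₂ B₂ ℂ)) ∈ P := by
  have hst : ∀ x ∈ T0 Q₁ T₁ ω₁ ω₁', ∀ y ∈ T0 Q₁ T₁ ω₁ ω₁', ∀ v ∈ KK Q₁ P T₁ ω₁ ω₁',
      wedge Q₁ x y *ᵥ v ∈ KK Q₁ P T₁ ω₁ ω₁' := by
    intro x hx y hy v hv
    refine ⟨xy_mem hx hy v, ?_⟩
    obtain ⟨Z, hZ⟩ := D.hs1 x hx.1 y hy.1
    have h1 := D.hLP _ (D.hPL hZ) _ hv.2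
    rw [Prod.mk_mul_mk, Prod.mk_mul_mk, Prod.mk_sub_mk, bracket (D.sk1 _ (D.hPL hZ)),
      xy_ω D.o1 hx hy, wedge_zero_left, zero_add, mul_zero, zero_mul, sub_zero] at h1
    exact h1
  obtain ⟨v, hv, hvv⟩ := noniso D.o1 (KK Q₁ P T₁ ω₁ ω₁') (fun x hx => hx.1) hst ⟨ht, h⟩ h0
  obtain ⟨Z, hZ⟩ := D.hs1 ω₁' D.o1.hω' v hv.1.1
  have h1 := D.hLP _ (D.hPL hZ) _ hv.2
  rw [Prod.mk_mul_mk, Prod.mk_mul_mk, Prod.mk_sub_mk, bracket (D.sk1 _ (D.hPL hZ)),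
    ω't_ω D.o1 hv.1, ω't_t hv.1, wedge_smul_left, wedge_self, smul_zero, zero_add, mul_zero,
    zero_mul, sub_zero, wedge_smul_right] at h1
  have h2 := P.smul_mem (bf Q₁ v v)⁻¹ h1
  rw [Prod.smul_mk, smul_zero, smul_smul, inv_mul_cancel₀ hvv, one_smul] at h2
  exact h2

/-- the first alternative does not hold -/
structure ND (Q₁ : Matrix B₁ B₁ ℂ) (Q₂ : Matrix B₂ B₂ ℂ)
    (P : Submodule ℂ (Matrix B₁ B₁ ℂ × Matrix B₂ B₂ ℂ))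
    (T₁ : Submodule ℂ (B₁ → ℂ)) (T₂ : Submodule ℂ (B₂ → ℂ))
    (ω₁ ω₁' : B₁ → ℂ) (ω₂ ω₂' : B₂ → ℂ) : Prop where
  k1 : ∀ t ∈ T0 Q₁ T₁ ω₁ ω₁', (wedge Q₁ ω₁ t, (0 : Matrix B₂ B₂ ℂ)) ∈ P → t = 0
  k1' : ∀ t ∈ T0 Q₁ T₁ ω₁ ω₁', (wedge Q₁ ω₁' t, (0 : Matrix B₂ B₂ ℂ)) ∈ P → t = 0
  k2 : ∀ t ∈ T0 Q₂ T₂ ω₂ ω₂', ((0 : Matrix B₁ B₁ ℂ), wedge Q₂ ω₂ t) ∈ P → t = 0
  k2' : ∀ t ∈ T0 Q₂ T₂ ω₂ ω₂', ((0 : Matrix B₁ B₁ ℂ), wedge Q₂ ω₂' t) ∈ P → t = 0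

theorem ND.sw (K : ND Q₁ Q₂ P T₁ T₂ ω₁ ω₁' ω₂ ω₂') : ND Q₁ Q₂ P T₁ T₂ ω₁' ω₁ ω₂' ω₂ where
  k1 := by rw [T0_swap]; exact K.k1'
  k1' := by rw [T0_swap]; exact K.k1
  k2 := by rw [T0_swap]; exact K.k2'
  k2' := by rw [T0_swap]; exact K.k2

theorem PD.nd (D : PD Q₁ Q₂ L P T₁ T₂ ω₁ ω₁' ω₂ ω₂' N₁ N₂)
    (hn : (wedge Q₁ ω₁ ω₁', (0 : Matrix B₂ B₂ ℂ)) ∉ P) : ND Q₁ Q₂ P T₁ T₂ ω₁ ω₁' ω₂ ω₂' := by
  have hn2 : ((0 : Matrix B₁ B₁ ℂ), wedge Q₂ ω₂ ω₂') ∉ P := by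
    intro h
    apply hn
    have h1 := P.smul_mem N₁ (P.sub_mem D.hh (P.smul_mem N₂⁻¹ h))
    have e : N₁ • ((N₁⁻¹ • wedge Q₁ ω₁ ω₁', N₂⁻¹ • wedge Q₂ ω₂ ω₂') -
        N₂⁻¹ • ((0 : Matrix B₁ B₁ ℂ), wedge Q₂ ω₂ ω₂')) = (wedge Q₁ ω₁ ω₁', 0) := by
      apply Prod.ext
      · change N₁ • (N₁⁻¹ • wedge Q₁ ω₁ ω₁' - N₂⁻¹ • (0 : Matrix B₁ B₁ ℂ)) = wedge Q₁ ω₁ ω₁'
        rw [smul_zero, sub_zero, smul_smul, mul_inv_cancel₀ D.o1.hN0, one_smul]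
      · change N₁ • (N₂⁻¹ • wedge Q₂ ω₂ ω₂' - N₂⁻¹ • wedge Q₂ ω₂ ω₂') = 0
        rw [sub_self, smul_zero]
    rw [e] at h1
    exact h1
  refine ⟨?_, ?_, ?_, ?_⟩
  · intro t ht h
    by_contra h0
    exact hn (D.first ht h0 h)
  · intro t ht h
    by_contra h0
    rw [← T0_swap] at ht
    have h1 := P.neg_mem (D.sw.first ht h0 h)
    rw [wedge_anti Q₁ ω₁, Prod.neg_mk, neg_neg, neg_zero] at h1
    exact hn h1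
  · intro t ht h
    by_contra h0
    exact hn2 (D.flip.first ht h0 h)
  · intro t ht h
    by_contra h0
    rw [← T0_swap] at ht
    have h1 : ((0 : Matrix B₁ B₁ ℂ), wedge Q₂ ω₂' ω₂) ∈ P := D.sw.flip.first ht h0 h
    have h2 := P.neg_mem h1
    rw [wedge_anti Q₂ ω₂, Prod.neg_mk, neg_neg, neg_zero] at h2
    exact hn2 h2

/-- uniqueness of the lift -/
theorem ND.uniq (K : ND Q₁ Q₂ P T₁ T₂ ω₁ ω₁' ω₂ ω₂') {x : B₁ → ℂ} {u u' : B₂ → ℂ}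
    (hu : u ∈ T0 Q₂ T₂ ω₂ ω₂') (hu' : u' ∈ T0 Q₂ T₂ ω₂ ω₂')
    (h : (wedge Q₁ ω₁ x, wedge Q₂ ω₂ u) ∈ P) (h' : (wedge Q₁ ω₁ x, wedge Q₂ ω₂ u') ∈ P) :
    u = u' := by
  have h1 := P.sub_mem h h'
  rw [Prod.mk_sub_mk, sub_self, ← wedge_sub_right] at h1
  exact sub_eq_zero.1 (K.k2 _ (Submodule.sub_mem _ hu hu') h1)

/-- the map `g` -/
theorem PD.exg (D : PD Q₁ Q₂ L P T₁ T₂ ω₁ ω₁' ω₂ ω₂' N₁ N₂)
    (K : ND Q₁ Q₂ P T₁ T₂ ω₁ ω₁' ω₂ ω₂') : ∃ g : (B₁ → ℂ) →ₗ[ℂ] (B₂ → ℂ),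
      ∀ t ∈ T0 Q₁ T₁ ω₁ ω₁', g t ∈ T0 Q₂ T₂ ω₂ ω₂' ∧ (wedge Q₁ ω₁ t, wedge Q₂ ω₂ (g t)) ∈ P := by
  have hex : ∀ t : T0 Q₁ T₁ ω₁ ω₁', ∃ u ∈ T0 Q₂ T₂ ω₂ ω₂',
      (wedge Q₁ ω₁ (t : B₁ → ℂ), wedge Q₂ ω₂ u) ∈ P := fun t => D.ex_u t.2
  choose g0 hg0 hg1 using hex
  let g1 : T0 Q₁ T₁ ω₁ ω₁' →ₗ[ℂ] (B₂ → ℂ) :=
    { toFun := g0
      map_add' := by
        intro x y
        apply K.uniq (hg0 _) (Submodule.add_mem _ (hg0 x) (hg0 y)) (hg1 _)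
        have h := P.add_mem (hg1 x) (hg1 y)
        rw [Prod.mk_add_mk, ← wedge_add_right, ← wedge_add_right] at h
        exact h
      map_smul' := by
        intro c x
        apply K.uniq (hg0 _) (Submodule.smul_mem _ _ (hg0 x)) (hg1 _)
        have h := P.smul_mem c (hg1 x)
        rw [Prod.smul_mk, ← wedge_smul_right, ← wedge_smul_right] at h
        exact h }
  obtain ⟨g, hg⟩ := LinearMap.exists_extend g1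
  refine ⟨g, fun t ht => ?_⟩
  have h : g t = g0 ⟨t, ht⟩ := by
    have := congrArg (fun f => f ⟨t, ht⟩) hg
    exact this
  rw [h]
  exact ⟨hg0 _, hg1 ⟨t, ht⟩⟩

/-- the bracket of the two kinds of elements -/
theorem PD.brA (D : PD Q₁ Q₂ L P T₁ T₂ ω₁ ω₁' ω₂ ω₂' N₁ N₂) {t t' : B₁ → ℂ} {u u' : B₂ → ℂ}
    (ht : t ∈ T0 Q₁ T₁ ω₁ ω₁') (ht' : t' ∈ T0 Q₁ T₁ ω₁ ω₁') (hu : u ∈ T0 Q₂ T₂ ω₂ ω₂')
    (hu' : u' ∈ T0 Q₂ T₂ ω₂ ω₂') (h : (wedge Q₁ ω₁ t, wedge Q₂ ω₂ u) ∈ P)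
    (h' : (wedge Q₁ ω₁' t', wedge Q₂ ω₂' u') ∈ P) :
    ((-N₁) • wedge Q₁ t t', (-N₂) • wedge Q₂ u u' +
      (bf Q₁ t' t * N₁ - bf Q₂ u' u * N₂) • (N₂⁻¹ • wedge Q₂ ω₂ ω₂')) ∈ P := by
  have hN1 := D.o1.hN0
  have hN2 := D.o2.hN0
  have h1 := D.br (D.hPL h) h'
  dsimp only at h1
  rw [ωt_ω' D.o1 ht, ωt_t ht', ωt_ω' D.o2 hu, ωt_t hu', wedge_smul_left, wedge_smul_right,
    wedge_smul_left, wedge_smul_right, wedge_anti Q₁ ω₁ ω₁', wedge_anti Q₂ ω₂ ω₂'] at h1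
  have h2 := P.add_mem h1 (P.smul_mem (bf Q₁ t' t * N₁) D.hh)
  rw [Prod.smul_mk, Prod.mk_add_mk] at h2
  have e1 : (-N₁) • wedge Q₁ t t' + bf Q₁ t' t • -wedge Q₁ ω₁ ω₁' +
      (bf Q₁ t' t * N₁) • N₁⁻¹ • wedge Q₁ ω₁ ω₁' = (-N₁) • wedge Q₁ t t' := by
    rw [smul_smul, mul_assoc, mul_inv_cancel₀ hN1, mul_one]
    module
  have e2 : (-N₂) • wedge Q₂ u u' + bf Q₂ u' u • -wedge Q₂ ω₂ ω₂' +
      (bf Q₁ t' t * N₁) • N₂⁻¹ • wedge Q₂ ω₂ ω₂' = (-N₂) • wedge Q₂ u u' +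
      (bf Q₁ t' t * N₁ - bf Q₂ u' u * N₂) • (N₂⁻¹ • wedge Q₂ ω₂ ω₂') := by
    have e3 : (bf Q₁ t' t * N₁ - bf Q₂ u' u * N₂) * N₂⁻¹ =
        bf Q₁ t' t * N₁ * N₂⁻¹ - bf Q₂ u' u := by
      rw [sub_mul, mul_assoc (bf Q₂ u' u), mul_inv_cancel₀ hN2, mul_one]
    rw [smul_smul, smul_smul, e3]
    module
  rw [e1, e2] at h2
  exact h2

/-- elements of the second factor -/
theorem PD.cF (D : PD Q₁ Q₂ L P T₁ T₂ ω₁ ω₁' ω₂ ω₂' N₁ N₂)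
    (K : ND Q₁ Q₂ P T₁ T₂ ω₁ ω₁' ω₂ ω₂') {F : Matrix B₂ B₂ ℂ} {c : ℂ}
    (h : ((0 : Matrix B₁ B₁ ℂ), (-N₂) • F + c • (N₂⁻¹ • wedge Q₂ ω₂ ω₂')) ∈ P)
    (F1 : F *ᵥ ω₂ = 0) (F2 : F *ᵥ ω₂' = 0)
    (FT : ∀ s ∈ T0 Q₂ T₂ ω₂ ω₂', F *ᵥ s ∈ T0 Q₂ T₂ ω₂ ω₂') :
    c = 0 ∧ ∀ s ∈ T0 Q₂ T₂ ω₂ ω₂', F *ᵥ s = 0 := by
  have hN2 := D.o2.hN0
  have E1 : ((-N₂) • F + c • (N₂⁻¹ • wedge Q₂ ω₂ ω₂')) *ᵥ ω₂ = c • ω₂ := by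
    rw [add_mulVec, smul_mulVec, F1, smul_zero, zero_add, smul_mulVec, h_ω D.o2]
  have E2 : ((-N₂) • F + c • (N₂⁻¹ • wedge Q₂ ω₂ ω₂')) *ᵥ ω₂' = (-c) • ω₂' := by
    rw [add_mulVec, smul_mulVec, F2, smul_zero, zero_add, smul_mulVec, h_ω' D.o2, smul_neg,
      neg_smul]
  have E3 : ∀ s ∈ T0 Q₂ T₂ ω₂ ω₂', ((-N₂) • F + c • (N₂⁻¹ • wedge Q₂ ω₂ ω₂')) *ᵥ s =
      (-N₂) • (F *ᵥ s) := by
    intro s hs
    rw [add_mulVec, smul_mulVec, smul_mulVec, h_t hs, smul_zero, add_zero]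
  have A1 : ∀ s ∈ T0 Q₂ T₂ ω₂ ω₂', c • s + (-N₂) • (F *ᵥ s) = 0 := by
    intro s hs
    obtain ⟨x, -, hx⟩ := D.flip.ex_u hs
    have hx' : (wedge Q₁ ω₁ x, wedge Q₂ ω₂ s) ∈ P := hx
    have h1 := D.br (D.hPL h) hx'
    dsimp only at h1
    rw [E1, E3 s hs, zero_mulVec, zero_mulVec, wedge_zero_left, wedge_zero_right, add_zero,
      wedge_smul_left, ← wedge_smul_right, ← wedge_add_right] at h1
    exact K.k2 _ (Submodule.add_mem _ (Submodule.smul_mem _ _ hs)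
      (Submodule.smul_mem _ _ (FT s hs))) h1
  have A2 : ∀ s ∈ T0 Q₂ T₂ ω₂ ω₂', (-c) • s + (-N₂) • (F *ᵥ s) = 0 := by
    intro s hs
    have hs' : s ∈ T0 Q₂ T₂ ω₂' ω₂ := by rw [T0_swap]; exact hs
    obtain ⟨x, -, hx⟩ := D.sw.flip.ex_u hs'
    have hx' : (wedge Q₁ ω₁' x, wedge Q₂ ω₂' s) ∈ P := hx
    have h1 := D.br (D.hPL h) hx'
    dsimp only at h1
    rw [E2, E3 s hs, zero_mulVec, zero_mulVec, wedge_zero_left, wedge_zero_right, add_zero,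
      wedge_smul_left, ← wedge_smul_right, ← wedge_add_right] at h1
    exact K.k2' _ (Submodule.add_mem _ (Submodule.smul_mem _ _ hs)
      (Submodule.smul_mem _ _ (FT s hs))) h1
  constructor
  · obtain ⟨s, hs, hs0⟩ := exT0 D.o2
    have h1 : (2 * c) • s = 0 := by
      have := congrArg₂ (fun x y => x - y) (A1 s hs) (A2 s hs)
      simp only [sub_zero] at this
      rw [← this]
      module
    rcases smul_eq_zero.1 h1 with h2 | h2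
    · exact (mul_eq_zero.1 h2).resolve_left two_ne_zero
    · exact absurd h2 hs0
  · intro s hs
    have h1 : (-(2 * N₂)) • (F *ᵥ s) = 0 := by
      have := congrArg₂ (fun x y => x + y) (A1 s hs) (A2 s hs)
      simp only [add_zero] at this
      rw [← this]
      module
    rcases smul_eq_zero.1 h1 with h2 | h2
    · exact absurd h2 (neg_ne_zero.2 (mul_ne_zero two_ne_zero hN2))
    · exact h2

/-- the second map is a multiple of the first one -/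
theorem exlam (hQ : Q₂.IsSymm) (g g' : (B₁ → ℂ) →ₗ[ℂ] (B₂ → ℂ)) (S₁ : Submodule ℂ (B₁ → ℂ))
    (S₂ : Submodule ℂ (B₂ → ℂ)) (nd : ∀ x ∈ S₂, x ≠ 0 → ∃ y ∈ S₂, bf Q₂ x y ≠ 0)
    (inj : ∀ t ∈ S₁, g t = 0 → t = 0) (hg : ∀ t ∈ S₁, g t ∈ S₂)
    (F0 : ∀ t ∈ S₁, ∀ t' ∈ S₁, ∀ s ∈ S₂,
      wedge Q₂ (g t) (g' t') *ᵥ s + wedge Q₂ (g t') (g' t) *ᵥ s = 0) :
    ∃ l : ℂ, ∀ t ∈ S₁, g' t = l • g t := by
  -- one vector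
  have one : ∀ t ∈ S₁, t ≠ 0 → ∃ l : ℂ, g' t = l • g t := by
    intro t ht h0
    obtain ⟨y, hy, hty⟩ := nd (g t) (hg t ht) (fun h => h0 (inj t ht h))
    rw [bf_symm hQ] at hty
    have h := F0 t ht t ht y hy
    rw [wedge_mulVec] at h
    refine ⟨(bf Q₂ y (g t))⁻¹ * bf Q₂ y (g' t), ?_⟩
    have h1 : (2 : ℂ) • (bf Q₂ y (g' t) • g t - bf Q₂ y (g t) • g' t) = 0 := by
      rw [two_smul]; exact h
    have h2 := (smul_eq_zero.1 h1).resolve_left two_ne_zero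
    rw [← smul_smul, sub_eq_zero.1 h2, smul_smul, inv_mul_cancel₀ hty, one_smul]
  by_cases hex : ∃ t ∈ S₁, t ≠ 0
  swap
  · push Not at hex
    exact ⟨0, fun t ht => by rw [hex t ht, map_zero, map_zero, smul_zero]⟩
  obtain ⟨t0, ht0, h0⟩ := hex
  obtain ⟨l, hl⟩ := one t0 ht0 h0
  refine ⟨l, fun t ht => ?_⟩
  by_cases htz : t = 0
  · rw [htz, map_zero, map_zero, smul_zero]
  obtain ⟨m, hm⟩ := one t ht htz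
  obtain ⟨y, hy, hty⟩ := nd (g t0) (hg t0 ht0) (fun h => h0 (inj t0 ht0 h))
  rw [bf_symm hQ] at hty
  have h := F0 t ht t0 ht0 y hy
  rw [wedge_mulVec, wedge_mulVec, hl, hm, bf_smul_right, bf_smul_right] at h
  -- `(l - m) (Q(y, g t0) g t - Q(y, g t) g t0) = 0`
  have h1 : (l - m) • (bf Q₂ y (g t0) • g t - bf Q₂ y (g t) • g t0) = 0 := by
    rw [← h]
    module
  rcases smul_eq_zero.1 h1 with h2 | h2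
  · rw [hm, sub_eq_zero.1 h2]
  · have h3 : g (bf Q₂ y (g t0) • t - bf Q₂ y (g t) • t0) = 0 := by
      rw [map_sub, map_smul, map_smul]; exact h2
    have h4 := sub_eq_zero.1 (inj _ (S₁.sub_mem (S₁.smul_mem _ ht) (S₁.smul_mem _ ht0)) h3)
    have h5 : t = ((bf Q₂ y (g t0))⁻¹ * bf Q₂ y (g t)) • t0 := by
      rw [← smul_smul, ← h4, smul_smul, inv_mul_cancel₀ hty, one_smul]
    rw [h5, map_smul, map_smul, hl, smul_comm]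

/-- the map `G` -/
def GG (Q₁ : Matrix B₁ B₁ ℂ) (ω₁ ω₁' : B₁ → ℂ) (ω₂ ω₂' : B₂ → ℂ) (N₁ α β : ℂ)
    (g : (B₁ → ℂ) →ₗ[ℂ] (B₂ → ℂ)) : (B₁ → ℂ) →ₗ[ℂ] (B₂ → ℂ) where
  toFun x := (N₁⁻¹ * bf Q₁ x ω₁') • (α • ω₂) + (N₁⁻¹ * bf Q₁ x ω₁) • (β • ω₂') +
    g (pr Q₁ ω₁ ω₁' N₁ x)
  map_add' x y := by
    rw [map_add, map_add, bf_add_left, bf_add_left]
    module
  map_smul' c x := by
    rw [map_smul, map_smul, bf_smul_left, bf_smul_left, RingHom.id_apply]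
    module

theorem GG_apply (α β : ℂ) (g : (B₁ → ℂ) →ₗ[ℂ] (B₂ → ℂ)) (x : B₁ → ℂ) :
    GG Q₁ ω₁ ω₁' ω₂ ω₂' N₁ α β g x = (N₁⁻¹ * bf Q₁ x ω₁') • (α • ω₂) +
      (N₁⁻¹ * bf Q₁ x ω₁) • (β • ω₂') + g (pr Q₁ ω₁ ω₁' N₁ x) := rfl

theorem GG_ω (D : One Q₁ T₁ ω₁ ω₁' N₁) (α β : ℂ) (g : (B₁ → ℂ) →ₗ[ℂ] (B₂ → ℂ)) :
    GG Q₁ ω₁ ω₁' ω₂ ω₂' N₁ α β g ω₁ = α • ω₂ := by
  rw [GG_apply, pr_ω D, D.h1, D.hN, map_zero, inv_mul_cancel₀ D.hN0, mul_zero, one_smul, zero_smul,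
    add_zero, add_zero]

theorem GG_ω' (D : One Q₁ T₁ ω₁ ω₁' N₁) (α β : ℂ) (g : (B₁ → ℂ) →ₗ[ℂ] (B₂ → ℂ)) :
    GG Q₁ ω₁ ω₁' ω₂ ω₂' N₁ α β g ω₁' = β • ω₂' := by
  rw [GG_apply, pr_ω' D, D.h2, D.hN', map_zero, inv_mul_cancel₀ D.hN0, mul_zero, one_smul,
    zero_smul, add_zero, zero_add]

theorem GG_t (α β : ℂ) (g : (B₁ → ℂ) →ₗ[ℂ] (B₂ → ℂ)) {t : B₁ → ℂ} (ht : t ∈ T0 Q₁ T₁ ω₁ ω₁') :
    GG Q₁ ω₁ ω₁' ω₂ ω₂' N₁ α β g t = g t := by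
  rw [GG_apply, pr_T0 ht, ht.2.1, ht.2.2, mul_zero, zero_smul, zero_smul, add_zero, zero_add]

/-- an equality on `T` can be checked on `ω`, `ω'` and the vectors orthogonal to them -/
theorem check (D : One Q₁ T₁ ω₁ ω₁' N₁) (G G' : (B₁ → ℂ) →ₗ[ℂ] (B₂ → ℂ)) (h1 : G ω₁ = G' ω₁)
    (h2 : G ω₁' = G' ω₁') (h3 : ∀ t ∈ T0 Q₁ T₁ ω₁ ω₁', G t = G' t) : ∀ x ∈ T₁, G x = G' x := by
  intro x hx
  rw [split Q₁ ω₁ ω₁' N₁ x]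
  simp only [map_add, map_smul]
  rw [h1, h2, h3 _ (pr_mem D hx)]

/-- the map `G` commutes with the pair `y` -/
def Cmt (T₁ : Submodule ℂ (B₁ → ℂ)) (G : (B₁ → ℂ) →ₗ[ℂ] (B₂ → ℂ))
    (y : Matrix B₁ B₁ ℂ × Matrix B₂ B₂ ℂ) : Prop := ∀ x ∈ T₁, G (y.1 *ᵥ x) = y.2 *ᵥ (G x)

theorem Cmt.of (D : One Q₁ T₁ ω₁ ω₁' N₁) (G : (B₁ → ℂ) →ₗ[ℂ] (B₂ → ℂ))
    {y : Matrix B₁ B₁ ℂ × Matrix B₂ B₂ ℂ} (h1 : G (y.1 *ᵥ ω₁) = y.2 *ᵥ (G ω₁))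
    (h2 : G (y.1 *ᵥ ω₁') = y.2 *ᵥ (G ω₁'))
    (h3 : ∀ t ∈ T0 Q₁ T₁ ω₁ ω₁', G (y.1 *ᵥ t) = y.2 *ᵥ (G t)) : Cmt T₁ G y :=
  check D (G ∘ₗ Matrix.mulVecLin y.1) (Matrix.mulVecLin y.2 ∘ₗ G) h1 h2 h3

theorem Cmt.sub {G : (B₁ → ℂ) →ₗ[ℂ] (B₂ → ℂ)} {y z : Matrix B₁ B₁ ℂ × Matrix B₂ B₂ ℂ}
    (hy : Cmt T₁ G y) (hz : Cmt T₁ G z) : Cmt T₁ G (y - z) := by
  intro x hx
  rw [Prod.fst_sub, Prod.snd_sub, sub_mulVec, sub_mulVec, map_sub, hy x hx, hz x hx]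

theorem PD.main (D : PD Q₁ Q₂ L P T₁ T₂ ω₁ ω₁' ω₂ ω₂' N₁ N₂)
    (K : ND Q₁ Q₂ P T₁ T₂ ω₁ ω₁' ω₂ ω₂') :
    ∃ G : (B₁ → ℂ) →ₗ[ℂ] (B₂ → ℂ), (∃ x ∈ T₁, G x ≠ 0) ∧
      (∀ x ∈ T₁, G x ∈ T₂) ∧ ∀ y ∈ L, ∀ x ∈ T₁, G (y.1 *ᵥ x) = y.2 *ᵥ (G x) := by
  have hN1 := D.o1.hN0
  have hN2 := D.o2.hN0
  obtain ⟨g, hg⟩ := D.exg K
  obtain ⟨g', hg'⟩ := D.sw.exg K.sw
  rw [T0_swap (ω := ω₁) (ω' := ω₁'), T0_swap (ω := ω₂) (ω' := ω₂')] at hg'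
  have injg : ∀ t ∈ T0 Q₁ T₁ ω₁ ω₁', g t = 0 → t = 0 := by
    intro t ht h
    have h1 := (hg t ht).2
    rw [h, wedge_zero_right] at h1
    exact K.k1 t ht h1
  have injg' : ∀ t ∈ T0 Q₁ T₁ ω₁ ω₁', g' t = 0 → t = 0 := by
    intro t ht h
    have h1 := (hg' t ht).2
    rw [h, wedge_zero_right] at h1
    exact K.k1' t ht h1
  -- the relations
  have rel : ∀ t ∈ T0 Q₁ T₁ ω₁ ω₁', ∀ t' ∈ T0 Q₁ T₁ ω₁ ω₁',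
      2 * bf Q₁ t t' * N₁ - (bf Q₂ (g' t') (g t) + bf Q₂ (g' t) (g t')) * N₂ = 0 ∧
        ∀ s ∈ T0 Q₂ T₂ ω₂ ω₂', (wedge Q₂ (g t) (g' t') + wedge Q₂ (g t') (g' t)) *ᵥ s = 0 := by
    intro t ht t' ht'
    have h1 := P.add_mem
      (D.brA ht ht' (hg t ht).1 (hg' t' ht').1 (hg t ht).2 (hg' t' ht').2)
      (D.brA ht' ht (hg t' ht').1 (hg' t ht).1 (hg t' ht').2 (hg' t ht).2)
    rw [Prod.mk_add_mk] at h1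
    have e1 : (-N₁) • wedge Q₁ t t' + (-N₁) • wedge Q₁ t' t = 0 := by
      rw [wedge_anti Q₁ t t', smul_neg, add_neg_cancel]
    have e2 : (-N₂) • wedge Q₂ (g t) (g' t') + (bf Q₁ t' t * N₁ - bf Q₂ (g' t') (g t) * N₂) •
        (N₂⁻¹ • wedge Q₂ ω₂ ω₂') + ((-N₂) • wedge Q₂ (g t') (g' t) +
        (bf Q₁ t t' * N₁ - bf Q₂ (g' t) (g t') * N₂) • (N₂⁻¹ • wedge Q₂ ω₂ ω₂')) =
        (-N₂) • (wedge Q₂ (g t) (g' t') + wedge Q₂ (g t') (g' t)) +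
        (2 * bf Q₁ t t' * N₁ - (bf Q₂ (g' t') (g t) + bf Q₂ (g' t) (g t')) * N₂) •
        (N₂⁻¹ • wedge Q₂ ω₂ ω₂') := by
      rw [bf_symm D.o1.hQ t' t]
      module
    rw [e1, e2] at h1
    refine D.cF K h1 ?_ ?_ ?_
    · rw [add_mulVec, xy_ω D.o2 (hg t ht).1 (hg' t' ht').1, xy_ω D.o2 (hg t' ht').1 (hg' t ht).1,
        add_zero]
    · rw [add_mulVec, xy_ω' D.o2 (hg t ht).1 (hg' t' ht').1,
        xy_ω' D.o2 (hg t' ht').1 (hg' t ht).1, add_zero]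
    · intro s _
      rw [add_mulVec]
      exact Submodule.add_mem _ (xy_mem (hg t ht).1 (hg' t' ht').1 s)
        (xy_mem (hg t' ht').1 (hg' t ht).1 s)
  obtain ⟨l, hl⟩ := exlam D.o2.hQ g g' (T0 Q₁ T₁ ω₁ ω₁') (T0 Q₂ T₂ ω₂ ω₂')
    (fun x hx h => nd0 D.o2 hx h) injg (fun t ht => (hg t ht).1) (fun t ht t' ht' s hs => by
      rw [← add_mulVec]
      exact (rel t ht t' ht').2 s hs)
  obtain ⟨t0, ht0, h0⟩ := exT0 D.o1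
  have hl0 : l ≠ 0 := by
    rintro rfl
    exact h0 (injg' t0 ht0 (by rw [hl t0 ht0, zero_smul]))
  have hbf : ∀ t ∈ T0 Q₁ T₁ ω₁ ω₁', ∀ t' ∈ T0 Q₁ T₁ ω₁ ω₁',
      bf Q₁ t t' * N₁ = l * bf Q₂ (g t) (g t') * N₂ := by
    intro t ht t' ht'
    have h1 := (rel t ht t' ht').1
    rw [hl t ht, hl t' ht', bf_smul_left, bf_smul_left, bf_symm D.o2.hQ (g t') (g t)] at h1
    have h2 : (2 : ℂ) * (bf Q₁ t t' * N₁ - l * bf Q₂ (g t) (g t') * N₂) = 0 := by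
      linear_combination h1
    exact sub_eq_zero.1 ((mul_eq_zero.1 h2).resolve_left two_ne_zero)
  -- the map
  obtain ⟨α, hα⟩ : ∃ α, α = N₁ / (l * N₂) := ⟨_, rfl⟩
  obtain ⟨β, hβ⟩ : ∃ β, β = N₁ / N₂ := ⟨_, rfl⟩
  have hα1 : α * (l * N₂) = N₁ := by rw [hα, div_mul_cancel₀ _ (mul_ne_zero hl0 hN2)]
  have hβ1 : β * N₂ = N₁ := by rw [hβ, div_mul_cancel₀ _ hN2]
  have hα2 : ∀ t ∈ T0 Q₁ T₁ ω₁ ω₁', ∀ t' ∈ T0 Q₁ T₁ ω₁ ω₁',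
      bf Q₂ (g t) (g t') = bf Q₁ t t' * α := by
    intro t ht t' ht'
    have h1 := hbf t ht t' ht'
    rw [hα, mul_div_assoc', eq_div_iff (mul_ne_zero hl0 hN2), h1]
    ring
  have hβ2 : ∀ t ∈ T0 Q₁ T₁ ω₁ ω₁', ∀ t' ∈ T0 Q₁ T₁ ω₁ ω₁',
      l * bf Q₂ (g t) (g t') = bf Q₁ t t' * β := by
    intro t ht t' ht'
    have h1 := hbf t ht t' ht'
    rw [hβ, mul_div_assoc', eq_div_iff hN2, h1]
  obtain ⟨G, hG⟩ : ∃ G, G = GG Q₁ ω₁ ω₁' ω₂ ω₂' N₁ α β g := ⟨_, rfl⟩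
  have Gω : G ω₁ = α • ω₂ := by rw [hG, GG_ω D.o1]
  have Gω' : G ω₁' = β • ω₂' := by rw [hG, GG_ω' D.o1]
  have Gt : ∀ t ∈ T0 Q₁ T₁ ω₁ ω₁', G t = g t := by
    intro t ht
    rw [hG, GG_t α β g ht]
  have hω2' : ω₂' ≠ 0 := by
    intro h
    apply hN2
    rw [← D.o2.hN, h, bf_zero_right]
  refine ⟨G, ⟨ω₁', D.o1.hω', ?_⟩, ?_, ?_⟩
  · rw [Gω']
    refine smul_ne_zero ?_ hω2'
    rw [hβ]
    exact div_ne_zero hN1 hN2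
  · intro x hx
    rw [hG, GG_apply]
    exact T₂.add_mem (T₂.add_mem (T₂.smul_mem _ (T₂.smul_mem _ D.o2.hω))
      (T₂.smul_mem _ (T₂.smul_mem _ D.o2.hω'))) (hg _ (pr_mem D.o1 hx)).1.1
  -- the two kinds of elements
  have C1 : ∀ t ∈ T0 Q₁ T₁ ω₁ ω₁', Cmt T₁ G (wedge Q₁ ω₁ t, wedge Q₂ ω₂ (g t)) := by
    intro t ht
    apply Cmt.of D.o1
    · dsimp only
      rw [ωt_ω D.o1 ht, Gω, map_zero, mulVec_smul, ωt_ω D.o2 (hg t ht).1, smul_zero]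
    · dsimp only
      rw [ωt_ω' D.o1 ht, Gω', map_smul, Gt t ht, mulVec_smul, ωt_ω' D.o2 (hg t ht).1, smul_smul,
        ← hβ1]
      module
    · intro s hs
      dsimp only
      rw [ωt_t hs, map_smul, Gω, Gt s hs, ωt_t (hg s hs).1, hα2 s hs t ht, smul_smul]
  have C2 : ∀ t ∈ T0 Q₁ T₁ ω₁ ω₁', Cmt T₁ G (wedge Q₁ ω₁' t, wedge Q₂ ω₂' (g' t)) := by
    intro t ht
    apply Cmt.of D.o1
    · dsimp only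
      rw [ω't_ω D.o1 ht, Gω, map_smul, Gt t ht, mulVec_smul, ω't_ω D.o2 (hg' t ht).1, hl t ht,
        smul_smul, smul_smul, ← hα1]
      module
    · dsimp only
      rw [ω't_ω' D.o1 ht, Gω', map_zero, mulVec_smul, ω't_ω' D.o2 (hg' t ht).1, smul_zero]
    · intro s hs
      dsimp only
      rw [ω't_t hs, map_smul, Gω', Gt s hs, ω't_t (hg s hs).1, hl t ht, bf_smul_right,
        hβ2 s hs t ht, smul_smul]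
  intro y hy
  obtain ⟨a₁, t₁, t₁', a₂, t₂, t₂', ⟨e1, e2, m1, m2⟩, ⟨f1, f2, n1, n2⟩, c1, c2⟩ := D.step1 hy
  obtain ⟨p₁, hp₁⟩ : ∃ p, p = N₁⁻¹ • t₁ := ⟨_, rfl⟩
  obtain ⟨p₁', hp₁'⟩ : ∃ p, p = N₁⁻¹ • t₁' := ⟨_, rfl⟩
  obtain ⟨p₂, hp₂⟩ : ∃ p, p = N₂⁻¹ • t₂ := ⟨_, rfl⟩
  obtain ⟨p₂', hp₂'⟩ : ∃ p, p = N₂⁻¹ • t₂' := ⟨_, rfl⟩
  rw [← hp₁', ← hp₂'] at c1
  rw [← hp₁, ← hp₂] at c2
  have k1 : p₁ ∈ T0 Q₁ T₁ ω₁ ω₁' := by rw [hp₁]; exact Submodule.smul_mem _ _ m1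
  have k1' : p₁' ∈ T0 Q₁ T₁ ω₁ ω₁' := by rw [hp₁']; exact Submodule.smul_mem _ _ m2
  have k2 : p₂ ∈ T0 Q₂ T₂ ω₂ ω₂' := by rw [hp₂]; exact Submodule.smul_mem _ _ n1
  have k2' : p₂' ∈ T0 Q₂ T₂ ω₂ ω₂' := by rw [hp₂']; exact Submodule.smul_mem _ _ n2
  have u1 : p₂' = g p₁' := K.uniq k2' (hg p₁' k1').1 c1 (hg p₁' k1').2
  have u2 : p₂ = g' p₁ := K.sw.uniq (by rw [T0_swap]; exact k2)
    (by rw [T0_swap]; exact (hg' p₁ k1).1) c2 (hg' p₁ k1).2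
  rw [u1] at c1
  rw [u2] at c2
  have s1 : t₁ = N₁ • p₁ := by rw [hp₁, smul_smul, mul_inv_cancel₀ hN1, one_smul]
  have s1' : t₁' = N₁ • p₁' := by rw [hp₁', smul_smul, mul_inv_cancel₀ hN1, one_smul]
  have s2 : t₂ = N₂ • g' p₁ := by rw [← u2, hp₂, smul_smul, mul_inv_cancel₀ hN2, one_smul]
  have s2' : t₂' = N₂ • g p₁' := by rw [← u1, hp₂', smul_smul, mul_inv_cancel₀ hN2, one_smul]
  -- the element `y0`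
  obtain ⟨y0, hy0⟩ : ∃ y0, y0 = y - (-(wedge Q₁ ω₁ p₁', wedge Q₂ ω₂ (g p₁'))) -
      (-(wedge Q₁ ω₁' p₁, wedge Q₂ ω₂' (g' p₁))) := ⟨_, rfl⟩
  have hy0L : y0 ∈ L := by
    rw [hy0]
    exact L.sub_mem (L.sub_mem hy (L.neg_mem (D.hPL c1))) (L.neg_mem (D.hPL c2))
  have z1 : y0.1 = y.1 + wedge Q₁ ω₁ p₁' + wedge Q₁ ω₁' p₁ := by
    rw [hy0]
    change y.1 - (-wedge Q₁ ω₁ p₁') - (-wedge Q₁ ω₁' p₁) = _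
    abel
  have z2 : y0.2 = y.2 + wedge Q₂ ω₂ (g p₁') + wedge Q₂ ω₂' (g' p₁) := by
    rw [hy0]
    change y.2 - (-wedge Q₂ ω₂ (g p₁')) - (-wedge Q₂ ω₂' (g' p₁)) = _
    abel
  have w1 : y0.1 *ᵥ ω₁ = a₁ • ω₁ := by
    rw [z1, add_mulVec, add_mulVec, e1, ωt_ω D.o1 k1', ω't_ω D.o1 k1, s1]
    module
  have w1' : y0.1 *ᵥ ω₁' = (-a₁) • ω₁' := by
    rw [z1, add_mulVec, add_mulVec, e2, ωt_ω' D.o1 k1', ω't_ω' D.o1 k1, s1']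
    module
  have w2 : y0.2 *ᵥ ω₂ = a₂ • ω₂ := by
    rw [z2, add_mulVec, add_mulVec, f1, ωt_ω D.o2 (hg p₁' k1').1, ω't_ω D.o2 (hg' p₁ k1).1, s2]
    module
  have w2' : y0.2 *ᵥ ω₂' = (-a₂) • ω₂' := by
    rw [z2, add_mulVec, add_mulVec, f2, ωt_ω' D.o2 (hg p₁' k1').1, ω't_ω' D.o2 (hg' p₁ k1).1, s2']
    module
  have w3 : ∀ t ∈ T0 Q₁ T₁ ω₁ ω₁', y0.1 *ᵥ t ∈ T0 Q₁ T₁ ω₁ ω₁' := by
    intro t ht
    refine ⟨D.hT1 y0 hy0L t ht.1, ?_, ?_⟩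
    · rw [bf_skew (D.sk1 y0 hy0L), w1, bf_smul_right, ht.2.1, mul_zero, neg_zero]
    · rw [bf_skew (D.sk1 y0 hy0L), w1', bf_smul_right, ht.2.2, mul_zero, neg_zero]
  have w4 : ∀ t ∈ T0 Q₂ T₂ ω₂ ω₂', y0.2 *ᵥ t ∈ T0 Q₂ T₂ ω₂ ω₂' := by
    intro t ht
    refine ⟨D.hT2 y0 hy0L t ht.1, ?_, ?_⟩
    · rw [bf_skew (D.sk2 y0 hy0L), w2, bf_smul_right, ht.2.1, mul_zero, neg_zero]
    · rw [bf_skew (D.sk2 y0 hy0L), w2', bf_smul_right, ht.2.2, mul_zero, neg_zero]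
  have r1 : ∀ t ∈ T0 Q₁ T₁ ω₁ ω₁', a₁ • g t + g (y0.1 *ᵥ t) = a₂ • g t + y0.2 *ᵥ g t := by
    intro t ht
    have h1 := D.br hy0L (hg t ht).2
    rw [w1, w2, wedge_smul_left, wedge_smul_left, ← wedge_smul_right, ← wedge_smul_right,
      ← wedge_add_right, ← wedge_add_right] at h1
    have h2 := K.uniq (hg _ (Submodule.add_mem _ (Submodule.smul_mem _ a₁ ht) (w3 t ht))).1
      (Submodule.add_mem _ (Submodule.smul_mem _ a₂ (hg t ht).1) (w4 _ (hg t ht).1))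
      (hg _ (Submodule.add_mem _ (Submodule.smul_mem _ a₁ ht) (w3 t ht))).2 h1
    rw [map_add, map_smul] at h2
    exact h2
  have r2 : ∀ t ∈ T0 Q₁ T₁ ω₁ ω₁', (-a₁) • g t + g (y0.1 *ᵥ t) = (-a₂) • g t + y0.2 *ᵥ g t := by
    intro t ht
    have h1 := D.br hy0L (hg' t ht).2
    rw [w1', w2', wedge_smul_left, wedge_smul_left, ← wedge_smul_right, ← wedge_smul_right,
      ← wedge_add_right, ← wedge_add_right] at h1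
    have h2 := K.sw.uniq (by
        rw [T0_swap]
        exact (hg' _ (Submodule.add_mem _ (Submodule.smul_mem _ (-a₁) ht) (w3 t ht))).1)
      (by
        rw [T0_swap]
        exact Submodule.add_mem _ (Submodule.smul_mem _ (-a₂) (hg' t ht).1) (w4 _ (hg' t ht).1))
      (hg' _ (Submodule.add_mem _ (Submodule.smul_mem _ (-a₁) ht) (w3 t ht))).2 h1
    rw [map_add, map_smul, hl t ht, hl _ (w3 t ht), mulVec_smul] at h2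
    have h3 : l • ((-a₁) • g t + g (y0.1 *ᵥ t)) = l • ((-a₂) • g t + y0.2 *ᵥ g t) := by
      rw [smul_add, smul_add, smul_comm l (-a₁), smul_comm l (-a₂)]
      exact h2
    exact smul_right_injective _ hl0 h3
  have ha : a₁ = a₂ := by
    have h1 : (2 * (a₁ - a₂)) • g t0 = 0 := by
      have h2 := r1 t0 ht0
      have h3 := r2 t0 ht0
      have h4 : (2 * (a₁ - a₂)) • g t0 = (a₁ • g t0 + g (y0.1 *ᵥ t0)) -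
          ((-a₁) • g t0 + g (y0.1 *ᵥ t0)) - ((a₂ • g t0 + y0.2 *ᵥ g t0) -
          ((-a₂) • g t0 + y0.2 *ᵥ g t0)) := by module
      rw [h4, h2, h3, sub_self]
    rcases smul_eq_zero.1 h1 with h2 | h2
    · exact sub_eq_zero.1 ((mul_eq_zero.1 h2).resolve_left two_ne_zero)
    · exact absurd (injg t0 ht0 h2) h0
  have C0 : Cmt T₁ G y0 := by
    apply Cmt.of D.o1
    · rw [w1, map_smul, Gω, mulVec_smul, w2, ha, smul_comm]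
    · rw [w1', map_smul, Gω', mulVec_smul, w2', ha, smul_comm]
    · intro t ht
      rw [Gt t ht, Gt _ (w3 t ht)]
      have h1 := r1 t ht
      rw [ha] at h1
      exact add_left_cancel h1
  have hy1 : y = y0 - (wedge Q₁ ω₁ p₁', wedge Q₂ ω₂ (g p₁')) -
      (wedge Q₁ ω₁' p₁, wedge Q₂ ω₂' (g' p₁)) := by
    rw [hy0]
    abel
  rw [hy1]
  exact (C0.sub (C1 p₁' k1')).sub (C2 p₁ k1)

end two

end Z6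

/-- Z6 -/
theorem pair {B₁ B₂ : Type} [Fintype B₁] [DecidableEq B₁] [Fintype B₂] [DecidableEq B₂]
    (Q₁ : Matrix B₁ B₁ ℂ) (Q₂ : Matrix B₂ B₂ ℂ) (hQ₁ : Q₁.IsSymm) (hQ₂ : Q₂.IsSymm)
    (L P : Submodule ℂ (Matrix B₁ B₁ ℂ × Matrix B₂ B₂ ℂ)) (hPL : P ≤ L)
    (hLP : ∀ y ∈ L, ∀ z ∈ P, y * z - z * y ∈ P)
    (hsk₁ : ∀ y ∈ L, Q₁ * y.1 + y.1ᵀ * Q₁ = 0) (hsk₂ : ∀ y ∈ L, Q₂ * y.2 + y.2ᵀ * Q₂ = 0)
    (ω₁ ω₁' : B₁ → ℂ) (ω₂ ω₂' : B₂ → ℂ) (h11 : ω₁ ⬝ᵥ (Q₁ *ᵥ ω₁) = 0)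
    (h12 : ω₁' ⬝ᵥ (Q₁ *ᵥ ω₁') = 0) (h21 : ω₂ ⬝ᵥ (Q₂ *ᵥ ω₂) = 0) (h22 : ω₂' ⬝ᵥ (Q₂ *ᵥ ω₂') = 0)
    (N₁ N₂ : ℂ) (hN₁ : ω₁ ⬝ᵥ (Q₁ *ᵥ ω₁') = N₁) (hN₂ : ω₂ ⬝ᵥ (Q₂ *ᵥ ω₂') = N₂) (hN₁0 : N₁ ≠ 0)
    (hN₂0 : N₂ ≠ 0) (hh : (N₁⁻¹ • wedge Q₁ ω₁ ω₁', N₂⁻¹ • wedge Q₂ ω₂ ω₂') ∈ P)
    (T₁ : Submodule ℂ (B₁ → ℂ)) (T₂ : Submodule ℂ (B₂ → ℂ)) (hω₁ : ω₁ ∈ T₁) (hω₁' : ω₁' ∈ T₁)
    (hω₂ : ω₂ ∈ T₂) (hω₂' : ω₂' ∈ T₂) (hT₁ : ∀ y ∈ L, ∀ x ∈ T₁, y.1 *ᵥ x ∈ T₁)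
    (hT₂ : ∀ y ∈ L, ∀ x ∈ T₂, y.2 *ᵥ x ∈ T₂)
    (hnd₁ : ∀ x ∈ T₁, x ≠ 0 → ∃ y ∈ T₁, x ⬝ᵥ (Q₁ *ᵥ y) ≠ 0)
    (hnd₂ : ∀ x ∈ T₂, x ≠ 0 → ∃ y ∈ T₂, x ⬝ᵥ (Q₂ *ᵥ y) ≠ 0)
    (hs₁ : ∀ x ∈ T₁, ∀ y ∈ T₁, ∃ Z, (wedge Q₁ x y, Z) ∈ P)
    (hs₂ : ∀ x ∈ T₂, ∀ y ∈ T₂, ∃ Z, (Z, wedge Q₂ x y) ∈ P)
    (hd₁ : 3 ≤ Module.finrank ℂ T₁) (hd₂ : 3 ≤ Module.finrank ℂ T₂)
    (h4₁ : Module.finrank ℂ T₁ ≠ 4) (h4₂ : Module.finrank ℂ T₂ ≠ 4) :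
    (wedge Q₁ ω₁ ω₁', 0) ∈ P ∨ ∃ G : (B₁ → ℂ) →ₗ[ℂ] (B₂ → ℂ), (∃ x ∈ T₁, G x ≠ 0) ∧
      (∀ x ∈ T₁, G x ∈ T₂) ∧ ∀ y ∈ L, ∀ x ∈ T₁, G (y.1 *ᵥ x) = y.2 *ᵥ (G x) := by
  have D : Z6.PD Q₁ Q₂ L P T₁ T₂ ω₁ ω₁' ω₂ ω₂' N₁ N₂ :=
    ⟨⟨hQ₁, h11, h12, hN₁, hN₁0, hω₁, hω₁', hnd₁, hd₁, h4₁⟩,
      ⟨hQ₂, h21, h22, hN₂, hN₂0, hω₂, hω₂', hnd₂, hd₂, h4₂⟩, hPL, hLP, hsk₁, hsk₂, hh, hT₁, hT₂,
      hs₁, hs₂⟩
  by_cases h : (wedge Q₁ ω₁ ω₁', (0 : Matrix B₂ B₂ ℂ)) ∈ P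
  · exact Or.inl h
  · exact Or.inr (D.main (D.nd h))

end

end Pool.Agent.N429.KS
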