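import Pool.Agent.N429.KS.Z12a
import Pool.Agent.N429.KS.Z6

/-!
# Z12 the theorem of Zarhin for the family (helper891)
-/

set_option linter.unusedSectionVars false
set_option autoImplicit false

open Matrix Finset Function

namespace Pool.Agent.N429.KS

noncomputable section

section family

variable {I : Type} [Fintype I] [DecidableEq I] {B C : I → Type} [∀ i, Fintype (B i)]
  [∀ i, DecidableEq (B i)] [∀ i, Fintype (C i)] [∀ i, DecidableEq (C i)]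
  (X : ∀ i, K3Type (B i)) (D : ∀ i, KSData (X i) (C i))

open Z12 in
/-- Z12 the theorem of Zarhin for the family -/
theorem zarhinT (hX : ∀ i, (X i).NonCM)
    (hXX : ∀ i j, i ≠ j → (∀ M : Matrix (B j) (B i) ℚ, cm M * (X i).h = (X j).h * cm M → M = 0) ∧
      Fintype.card (B i) ≠ 4 * Module.finrank ℚ (X i).endo) (i : I) :
    ∃ θ : Matrix (B i) (B i) ℚ, ((X i).q * θ).IsSymm ∧
    cm θ * (X i).h = (X i).h * cm θ ∧ Irreducible (minpoly ℚ θ) ∧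
    ∀ (r : ℂ) (x y : B i → ℂ), cm θ *ᵥ x = r • x → cm θ *ᵥ y = r • y →
      ∀ (S : Type) [Fintype S] [DecidableEq S] (f : (S → Tot B C) → ℚ), IsHodgeT X D f →
        der (place i (wedge (cm (X i).q) x y) ((X i).lft (D i).Φ (wedge (cm (X i).q) x y)))
          (cx f) = 0 :=
  zarhinT_of X D (fun Q₁ Q₂ h1 h2 L P h3 h4 h5 h6 a1 a2 a3 a4 b1 b2 b3 b4 N₁ N₂ c1 c2 c3 c4 hh T₁ T₂
    d1 d2 d3 d4 e1 e2 f1 f2 g1 g2 i1 i2 j1 j2 => pair Q₁ Q₂ h1 h2 L P h3 h4 h5 h6 a1 a2 a3 a4 b1 b2 b3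
    b4 N₁ N₂ c1 c2 c3 c4 hh T₁ T₂ d1 d2 d3 d4 e1 e2 f1 f2 g1 g2 i1 i2 j1 j2) hX hXX i

end family

end

end Pool.Agent.N429.KS
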