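import Mathlib

/-!
# A skew generator of a field with involution (helper697)
-/

set_option autoImplicit false
set_option linter.unusedSectionVars false

open Matrix Finset Function

namespace Pool.Agent.N429.KS

/-- P1 a skew generator of a field with involution -/
theorem exists_skew_primitive (F : Type) [Field F] [Algebra ℚ F] [FiniteDimensional ℚ F]
    (s : F ≃ₐ[ℚ] F) (hs : ∀ x, s (s x) = x) (hne : ∃ x, s x ≠ x) :
    ∃ t : F, s t = -t ∧ t ≠ 0 ∧ ∀ x : F, ∃ p : Polynomial ℚ, x = Polynomial.aeval t p := by
  classical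
  have hchar : CharZero F := algebraRat.charZero F
  -- the skew elements
  set V : Submodule ℚ F := LinearMap.ker (s.toLinearMap + LinearMap.id) with hV
  have hmem : ∀ x, x ∈ V ↔ s x = -x := by
    intro x
    rw [hV, LinearMap.mem_ker]
    simp only [LinearMap.add_apply, LinearMap.id_coe, id_eq, AlgEquiv.toLinearMap_apply]
    exact add_eq_zero_iff_eq_neg
  obtain ⟨z, hz⟩ := hne
  -- some skew element generates
  have key : ∃ t : F, s t = -t ∧ IntermediateField.adjoin ℚ {t} = ⊤ := by
    by_contra hcon
    push Not at hcon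
    have hfin : Finite (IntermediateField ℚ F) :=
      Field.finite_intermediateField_of_exists_primitive_element ℚ F
        (Field.exists_primitive_element ℚ F)
    obtain ⟨⟨K, hK⟩, hKV⟩ := Subspace.exists_eq_top_of_iUnion_eq_univ
      (ι := {K : IntermediateField ℚ F // K ≠ ⊤}) (k := ℚ) (E := V)
      (p := fun K => (Subalgebra.toSubmodule K.1.toSubalgebra).comap V.subtype) (by
        ext ⟨t, ht⟩
        simp only [Set.mem_iUnion, Set.mem_univ, iff_true]
        refine ⟨⟨IntermediateField.adjoin ℚ {t}, hcon t ((hmem t).1 ht)⟩, ?_⟩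
        exact IntermediateField.mem_adjoin_simple_self ℚ t)
    have hVK : ∀ x : F, s x = -x → x ∈ K := by
      intro x hx
      have h1 : (⟨x, (hmem x).2 hx⟩ : V) ∈
          (Subalgebra.toSubmodule K.toSubalgebra).comap V.subtype := by
        rw [hKV]
        exact Submodule.mem_top
      exact h1
    have ha0 : z - s z ≠ 0 := fun h => hz (sub_eq_zero.1 h).symm
    have haV : s (z - s z) = -(z - s z) := by rw [map_sub, hs]; ring
    apply hK
    rw [eq_top_iff]
    intro y _
    have h2 : (y + s y) ∈ K := by
      have h3 : s ((y + s y) * (z - s z)) = -((y + s y) * (z - s z)) := by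
        rw [map_mul, haV, map_add, hs]; ring
      have h4 := K.mul_mem (hVK _ h3) (K.inv_mem (hVK _ haV))
      rwa [mul_inv_cancel_right₀ ha0] at h4
    have h5 : (y - s y) ∈ K := hVK _ (by rw [map_sub, hs]; ring)
    have h6 : y = (2 : ℚ)⁻¹ • ((y + s y) + (y - s y)) := by
      rw [Algebra.smul_def, map_inv₀, map_ofNat]
      field_simp
      ring
    rw [h6]
    exact K.smul_mem (K.add_mem h2 h5)
  obtain ⟨t, ht, htop⟩ := key
  refine ⟨t, ht, ?_, ?_⟩
  · rintro rfl
    apply hz
    have h1 : z ∈ IntermediateField.adjoin ℚ {(0 : F)} := by rw [htop]; exact IntermediateField.mem_top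
    rw [IntermediateField.adjoin_zero, IntermediateField.mem_bot] at h1
    obtain ⟨r, rfl⟩ := h1
    exact s.commutes r
  · intro x
    have h1 : x ∈ IntermediateField.adjoin ℚ {t} := by rw [htop]; exact IntermediateField.mem_top
    rw [← IntermediateField.mem_toSubalgebra,
      IntermediateField.adjoin_simple_toSubalgebra_of_isAlgebraic
        (Algebra.IsAlgebraic.isAlgebraic t),
      Algebra.adjoin_singleton_eq_range_aeval] at h1
    obtain ⟨p, hp⟩ := h1
    exact ⟨p, hp.symm⟩

end Pool.Agent.N429.KS
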