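import Pool.Agent.N429.KS.P11a
import Pool.Agent.N429.KS.P2
import Pool.Agent.N429.KS.P3
import Pool.Agent.N429.KS.P4
import Pool.Agent.N429.KS.P5
import Pool.Agent.N429.KS.K9

/-!
# P11: Zarhin's theorem, complex multiplication
-/

set_option linter.unusedSectionVars false

open Matrix Finset Function

namespace Pool.Agent.N429.KS

variable {B : Type} [Fintype B] [DecidableEq B]

/-- P11 the theorem of Zarhin -/
theorem zarhin_cm (X : K3Type B) (hX : ¬ X.NonCM) : ∃ θ : Matrix B B ℚ,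
    (X.q * θ)ᵀ = -(X.q * θ) ∧ θ ≠ 0 ∧ cm θ * X.h = X.h * cm θ ∧ Irreducible (minpoly ℚ θ) ∧
    ∀ (r : ℂ) (x y : B → ℂ), cm θ *ᵥ x = r • x → cm θ *ᵥ y = (-r) • y →
      ∀ (S : Type) [Fintype S] [DecidableEq S] (f : (S → B) → ℚ), X.IsHodge f →
        der (wedge (cm X.q) x y) (cx f) = 0 :=
  zarhin_cm_core X (h_mem_gC X) (fun hY hZ => gC_bracket X hY hZ) (fun hY => gC_skew X hY)
    (exists_theta_cm X hX X.gQ (h_mem_gC X) le_rfl)
    (fun θ hirr g hcomm hdens r M hM hst => irred' θ hirr g hcomm hdens r M hM hst)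
    (fun Q hQ L P hPL hLP hsk T T' hTT hTT' ω ω' hω hω' h3 hh hT hT' irr irr' =>
      weight_gl Q hQ L P hPL hLP hsk T T' hTT hTT' ω ω' hω hω' h3 hh hT hT' irr irr')
    (fun θ hirr r0 hr0 hr0' {_} P h0 r x y hx hy t =>
      galois3 θ hirr r0 hr0 hr0' P h0 r x y hx hy t)

end Pool.Agent.N429.KS
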