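import Pool.Agent.N429.KS.K15a

/-!
# P11: Zarhin's theorem, complex multiplication, the assembly (with the parts P2 - P5 as hypotheses)
-/

set_option linter.unusedSectionVars false
set_option autoImplicit false

open Matrix Finset Function

namespace Pool.Agent.N429.KS

namespace P11

variable {B : Type} [Fintype B] [DecidableEq B]

/-- `der (x ∧ y) f` is bilinear in `x`, `y`, with rational coefficients -/
lemma der_wedge_bil (q : Matrix B B ℚ) (x y : B → ℂ) {S : Type} [Fintype S] [DecidableEq S]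
    (f : (S → B) → ℚ) (J : S → B) :
    der (wedge (cm q) x y) (cx f) J = ∑ a, ∑ b, x a * y b *
      ((∑ s, (q (J s) b * f (update J s a) - q (J s) a * f (update J s b)) : ℚ) : ℂ) := by
  have h1 : ∀ s c, wedge (cm q) x y c (J s) = ∑ b, (x c * y b * (q (J s) b : ℂ) -
      x b * y c * (q (J s) b : ℂ)) := by
    intro s c
    simp only [wedge, Matrix.sub_apply, vecMulVec_apply, mulVec, dotProduct, cm, map_apply,
      Finset.mul_sum, Finset.sum_sub_distrib, eq_ratCast]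
    congr 1
    · exact Finset.sum_congr rfl fun b _ => by ring
    · exact Finset.sum_congr rfl fun b _ => by ring
  have h2 : der (wedge (cm q) x y) (cx f) J = ∑ s, ∑ a, ∑ b,
      (x a * y b * (q (J s) b : ℂ) * (f (update J s a) : ℂ) -
        x b * y a * (q (J s) b : ℂ) * (f (update J s a) : ℂ)) := by
    simp only [der]
    refine Finset.sum_congr rfl fun s _ => Finset.sum_congr rfl fun a _ => ?_
    rw [h1, Finset.sum_mul]
    exact Finset.sum_congr rfl fun b _ => by simp only [cx]; ring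
  rw [h2]
  have h3 : ∀ s, ∑ a, ∑ b, (x a * y b * (q (J s) b : ℂ) * (f (update J s a) : ℂ) -
        x b * y a * (q (J s) b : ℂ) * (f (update J s a) : ℂ)) =
      ∑ a, ∑ b, x a * y b * (q (J s) b * f (update J s a) - q (J s) a * f (update J s b) : ℂ) := by
    intro s
    simp only [Finset.sum_sub_distrib, mul_sub]
    congr 1
    · exact Finset.sum_congr rfl fun a _ => Finset.sum_congr rfl fun b _ => by ring
    · rw [Finset.sum_comm]
      exact Finset.sum_congr rfl fun a _ => Finset.sum_congr rfl fun b _ => by ring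
  simp only [h3]
  rw [Finset.sum_comm]
  refine Finset.sum_congr rfl fun a _ => ?_
  rw [Finset.sum_comm]
  refine Finset.sum_congr rfl fun b _ => ?_
  rw [← Finset.mul_sum]
  push_cast
  rfl

/-- the eigenspace as a submodule -/
lemma exists_eig (M : Matrix B B ℂ) (r : ℂ) :
    ∃ T : Submodule ℂ (B → ℂ), ∀ x, x ∈ T ↔ M *ᵥ x = r • x := by
  refine ⟨{ carrier := {x | M *ᵥ x = r • x}
            add_mem' := ?_
            zero_mem' := ?_
            smul_mem' := ?_ }, fun x => Iff.rfl⟩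
  · intro x y hx hy
    show M *ᵥ (x + y) = r • (x + y)
    rw [mulVec_add, smul_add, (hx : M *ᵥ x = r • x), (hy : M *ᵥ y = r • y)]
  · show M *ᵥ (0 : B → ℂ) = r • (0 : B → ℂ)
    rw [mulVec_zero, smul_zero]
  · intro a x hx
    show M *ᵥ (a • x) = r • (a • x)
    rw [mulVec_smul, (hx : M *ᵥ x = r • x), smul_comm]

/-- an eigenvalue is a root of the minimal polynomial -/
lemma root_of_eig (θ : Matrix B B ℚ) {r : ℂ} {x : B → ℂ} (hx0 : x ≠ 0)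
    (hx : cm θ *ᵥ x = r • x) : Polynomial.aeval r (minpoly ℚ θ) = 0 := by
  have h1 := K15.aeval_eig θ hx (minpoly ℚ θ)
  rw [minpoly.aeval] at h1
  have h2 : cm (0 : Matrix B B ℚ) = 0 := by
    ext i j
    simp [cm]
  rw [h2, zero_mulVec] at h1
  exact (smul_eq_zero.1 h1.symm).resolve_right hx0

/-- zero is not a root of the minimal polynomial -/
lemma root_ne_zero (θ : Matrix B B ℚ) (hirr : Irreducible (minpoly ℚ θ)) (hθ : θ ≠ 0) {r : ℂ}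
    (hr : Polynomial.aeval r (minpoly ℚ θ) = 0) : r ≠ 0 := by
  rintro rfl
  have h1 : (minpoly ℚ θ).coeff 0 = 0 := by
    have h2 : Polynomial.aeval (0 : ℂ) (minpoly ℚ θ) = algebraMap ℚ ℂ ((minpoly ℚ θ).coeff 0) := by
      rw [Polynomial.coeff_zero_eq_aeval_zero, Polynomial.aeval_def, Polynomial.aeval_def,
        Polynomial.hom_eval₂]
      simp
    rw [h2] at hr
    exact (map_eq_zero _).1 hr
  have h3 : Polynomial.X ∣ minpoly ℚ θ := Polynomial.X_dvd_iff.2 h1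
  obtain ⟨p, hp⟩ := h3
  have h4 : IsUnit p := by
    rcases hirr.isUnit_or_isUnit hp with h | h
    · exact absurd h Polynomial.not_isUnit_X
    · exact h
  obtain ⟨c, hc, rfl⟩ := Polynomial.isUnit_iff.1 h4
  have h5 := minpoly.aeval ℚ θ
  rw [hp, map_mul, Polynomial.aeval_X, Polynomial.aeval_C] at h5
  have h6 : (c • θ : Matrix B B ℚ) = 0 := by
    rw [Algebra.smul_def, Algebra.commutes]
    exact h5
  rcases smul_eq_zero.1 h6 with h | h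
  · exact hc.ne_zero h
  · exact hθ h

end P11

open K15 P11 in
/-- the theorem of Zarhin for complex multiplication from the parts P2 - P5 -/
theorem zarhin_cm_core {B : Type} [Fintype B] [DecidableEq B] (X : K3Type B)
    (h9a : X.h ∈ X.gC)
    (h9b : ∀ {Y Z : Matrix B B ℂ}, Y ∈ X.gC → Z ∈ X.gC → Y * Z - Z * Y ∈ X.gC)
    (h9c : ∀ {Y : Matrix B B ℂ}, Y ∈ X.gC → cm X.q * Y + Yᵀ * cm X.q = 0)
    (h2 : ∃ θ : Matrix B B ℚ, (X.q * θ)ᵀ = -(X.q * θ) ∧ θ ≠ 0 ∧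
      cm θ * X.h = X.h * cm θ ∧ Irreducible (minpoly ℚ θ) ∧ (∀ Y ∈ X.gQ, Y * θ = θ * Y) ∧
      ∀ A : Matrix B B ℚ, A * θ = θ * A → A ∈ Algebra.adjoin ℚ (X.gQ : Set (Matrix B B ℚ)))
    (h3 : ∀ (θ : Matrix B B ℚ) (_ : Irreducible (minpoly ℚ θ))
      (g : Submodule ℚ (Matrix B B ℚ)) (_ : ∀ Y ∈ g, Y * θ = θ * Y)
      (_ : ∀ A : Matrix B B ℚ, A * θ = θ * A → A ∈ Algebra.adjoin ℚ (g : Set (Matrix B B ℚ)))
      (r : ℂ) (M : Submodule ℂ (B → ℂ)) (_ : ∀ x ∈ M, cm θ *ᵥ x = r • x)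
      (_ : ∀ Y ∈ g, ∀ x ∈ M, cm Y *ᵥ x ∈ M),
      M = ⊥ ∨ ∀ x, cm θ *ᵥ x = r • x → x ∈ M)
    (h4 : ∀ (Q : Matrix B B ℂ) (_ : Q.IsSymm) (L P : Submodule ℂ (Matrix B B ℂ))
      (_ : P ≤ L) (_ : ∀ Y ∈ L, ∀ Z ∈ P, Y * Z - Z * Y ∈ P)
      (_ : ∀ Y ∈ L, Q * Y + Yᵀ * Q = 0) (T T' : Submodule ℂ (B → ℂ))
      (_ : ∀ x ∈ T, ∀ y ∈ T, x ⬝ᵥ (Q *ᵥ y) = 0) (_ : ∀ x ∈ T', ∀ y ∈ T', x ⬝ᵥ (Q *ᵥ y) = 0)
      (ω ω' : B → ℂ) (_ : ω ∈ T) (_ : ω' ∈ T') (_ : ω ⬝ᵥ (Q *ᵥ ω') ≠ 0)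
      (_ : wedge Q ω ω' ∈ P) (_ : ∀ Y ∈ L, ∀ x ∈ T, Y *ᵥ x ∈ T)
      (_ : ∀ Y ∈ L, ∀ x ∈ T', Y *ᵥ x ∈ T')
      (_ : ∀ M ≤ T, (∀ Y ∈ L, ∀ x ∈ M, Y *ᵥ x ∈ M) → M = ⊥ ∨ M = T)
      (_ : ∀ M ≤ T', (∀ Y ∈ L, ∀ x ∈ M, Y *ᵥ x ∈ M) → M = ⊥ ∨ M = T'),
      ∀ x ∈ T, ∀ y ∈ T', wedge Q x y ∈ P)
    (h5 : ∀ (θ : Matrix B B ℚ) (_ : Irreducible (minpoly ℚ θ)) (r0 : ℂ)
      (_ : Polynomial.aeval r0 (minpoly ℚ θ) = 0)
      (_ : Polynomial.aeval (-r0) (minpoly ℚ θ) = 0) {τ : Type} (P : B → B → τ → ℚ)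
      (_ : ∀ x y : B → ℂ, cm θ *ᵥ x = r0 • x → cm θ *ᵥ y = (-r0) • y →
        ∀ t, ∑ a, ∑ b, x a * y b * (P a b t : ℂ) = 0)
      (r : ℂ) (x y : B → ℂ) (_ : cm θ *ᵥ x = r • x) (_ : cm θ *ᵥ y = (-r) • y) (t : τ),
      ∑ a, ∑ b, x a * y b * (P a b t : ℂ) = 0) :
    ∃ θ : Matrix B B ℚ,
      (X.q * θ)ᵀ = -(X.q * θ) ∧ θ ≠ 0 ∧ cm θ * X.h = X.h * cm θ ∧ Irreducible (minpoly ℚ θ) ∧
      ∀ (r : ℂ) (x y : B → ℂ), cm θ *ᵥ x = r • x → cm θ *ᵥ y = (-r) • y →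
        ∀ (S : Type) [Fintype S] [DecidableEq S] (f : (S → B) → ℚ), X.IsHodge f →
          der (wedge (cm X.q) x y) (cx f) = 0 := by
  obtain ⟨θ, hθs, hθ0, hθh, hirr, hcomm, hdens⟩ := h2
  refine ⟨θ, hθs, hθ0, hθh, hirr, ?_⟩
  obtain ⟨N, hN⟩ : ∃ N, N = X.N := ⟨_, rfl⟩
  have hN0 : N ≠ 0 := by rw [hN]; exact X.pol
  have hN1 : X.ω ⬝ᵥ (cm X.q *ᵥ star X.ω) = N := by rw [hN]; rfl
  have hQs : (cm X.q).IsSymm := by
    rw [Matrix.IsSymm, cm_transpose, X.sym]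
  have hiso' : star X.ω ⬝ᵥ (cm X.q *ᵥ star X.ω) = 0 := by
    rw [← star_dot, X.iso, star_zero]
  have hN2 : star X.ω ⬝ᵥ (cm X.q *ᵥ X.ω) = N := by
    rw [dotProduct_mulVec, ← mulVec_transpose, hQs, dotProduct_comm, hN1]
  have hω0 : X.ω ≠ 0 := by
    intro h0
    apply hN0
    rw [← hN1, h0, zero_dotProduct]
  have hω0' : star X.ω ≠ 0 := by
    intro h0
    apply hN0
    rw [← hN2, h0, zero_dotProduct]
  have hhdef : X.h = N⁻¹ • wedge (cm X.q) X.ω (star X.ω) := by rw [hN]; rfl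
  have hhv : ∀ u, X.h *ᵥ u = (N⁻¹ * ((cm X.q *ᵥ star X.ω) ⬝ᵥ u)) • X.ω -
      (N⁻¹ * ((cm X.q *ᵥ X.ω) ⬝ᵥ u)) • star X.ω := by
    intro u
    rw [hhdef, smul_mulVec, wedge_mulVec, smul_sub, smul_smul, smul_smul]
  have hhω : X.h *ᵥ X.ω = X.ω := by
    rw [hhv, dotProduct_comm, hN1, dotProduct_comm, X.iso, inv_mul_cancel₀ hN0, mul_zero, one_smul,
      zero_smul, sub_zero]
  have hhω' : X.h *ᵥ star X.ω = -star X.ω := by
    rw [hhv, dotProduct_comm, hiso', dotProduct_comm, hN2, inv_mul_cancel₀ hN0, mul_zero, one_smul,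
      zero_smul, zero_sub]
  have heig : ∀ u, X.h *ᵥ u = u → ∃ a : ℂ, u = a • X.ω := by
    intro u hu
    obtain ⟨a, ha⟩ : ∃ a, a = N⁻¹ * ((cm X.q *ᵥ star X.ω) ⬝ᵥ u) := ⟨_, rfl⟩
    obtain ⟨b, hb⟩ : ∃ b, b = N⁻¹ * ((cm X.q *ᵥ X.ω) ⬝ᵥ u) := ⟨_, rfl⟩
    have h1 : u = a • X.ω - b • star X.ω := by rw [ha, hb, ← hhv, hu]
    have h2 : X.h *ᵥ u = a • X.ω + b • star X.ω := by
      rw [h1, mulVec_sub, mulVec_smul, mulVec_smul, hhω, hhω', smul_neg, sub_neg_eq_add]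
    rw [hu] at h2
    refine ⟨a, ?_⟩
    have h3 : u + u = a • X.ω + a • X.ω := by
      nth_rewrite 1 [h1]
      nth_rewrite 1 [h2]
      abel
    have h4 : (2 : ℂ) • u = (2 : ℂ) • (a • X.ω) := by rw [two_smul, two_smul, h3]
    exact smul_right_injective _ (two_ne_zero) h4
  obtain ⟨r0, hr0⟩ : ∃ r0 : ℂ, cm θ *ᵥ X.ω = r0 • X.ω := by
    apply heig
    rw [mulVec_mulVec, ← hθh, ← mulVec_mulVec, hhω]
  have hr0' : cm θ *ᵥ star X.ω = star r0 • star X.ω := by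
    rw [← star_mulVec', hr0, star_smul]
  have hsa : (cm θ)ᵀ * cm X.q = -(cm X.q * cm θ) := by
    have h1 : θᵀ * X.q = -(X.q * θ) := by
      rw [← hθs, transpose_mul, X.sym]
    have h2 : ∀ M : Matrix B B ℚ, cm (-M) = -cm M := by
      intro M
      ext i j
      simp [cm]
    rw [cm_transpose, ← cm_mul, ← cm_mul, h1, h2]
  have hskew : ∀ x y : B → ℂ, (cm θ *ᵥ x) ⬝ᵥ (cm X.q *ᵥ y) =
      -(x ⬝ᵥ (cm X.q *ᵥ (cm θ *ᵥ y))) := by
    intro x y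
    rw [mulVec_mulVec, ← dotProduct_neg, ← neg_mulVec, ← hsa, ← mulVec_mulVec,
      dotProduct_mulVec x (cm θ)ᵀ, vecMul_transpose]
  have hconj : star r0 = -r0 := by
    have h1 := hskew X.ω (star X.ω)
    rw [hr0, hr0', smul_dotProduct, mulVec_smul, dotProduct_smul, hN1, smul_eq_mul,
      smul_eq_mul, ← neg_mul] at h1
    exact (neg_eq_iff_eq_neg.2 (mul_right_cancel₀ hN0 h1)).symm
  rw [hconj] at hr0'
  have hroot : Polynomial.aeval r0 (minpoly ℚ θ) = 0 := root_of_eig θ hω0 hr0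
  have hroot' : Polynomial.aeval (-r0) (minpoly ℚ θ) = 0 := root_of_eig θ hω0' hr0'
  have hr00 : r0 ≠ 0 := root_ne_zero θ hirr hθ0 hroot
  -- the eigenspaces
  obtain ⟨T, hT⟩ := exists_eig (cm θ) r0
  obtain ⟨T', hT'⟩ := exists_eig (cm θ) (-r0)
  have hiso : ∀ (c : ℂ), c ≠ 0 → ∀ x y : B → ℂ, cm θ *ᵥ x = c • x → cm θ *ᵥ y = c • y →
      x ⬝ᵥ (cm X.q *ᵥ y) = 0 := by
    intro c hc x y hx hy
    have h1 := hskew x y
    rw [hx, hy, smul_dotProduct, mulVec_smul, dotProduct_smul, smul_eq_mul] at h1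
    have h2 : (2 * c) * (x ⬝ᵥ (cm X.q *ᵥ y)) = 0 := by
      linear_combination h1
    exact (mul_eq_zero.1 h2).resolve_left (mul_ne_zero two_ne_zero hc)
  have hgcomm : ∀ Y ∈ X.gC, Y * cm θ = cm θ * Y := by
    intro Y hY
    induction hY using Submodule.span_induction with
    | mem x hx =>
      obtain ⟨Y', hY', rfl⟩ := hx
      rw [← cm_mul, ← cm_mul, hcomm Y' hY']
    | zero => rw [zero_mul, mul_zero]
    | add x y _ _ h1 h2 => rw [add_mul, mul_add, h1, h2]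
    | smul a x _ h1 => rw [smul_mul_assoc, mul_smul_comm, h1]
  have hst0 : ∀ (c : ℂ), ∀ Y ∈ X.gC, ∀ x, cm θ *ᵥ x = c • x → cm θ *ᵥ (Y *ᵥ x) = c • (Y *ᵥ x) := by
    intro c Y hY x hx
    rw [mulVec_mulVec, ← hgcomm Y hY, ← mulVec_mulVec, hx, mulVec_smul]
  have hwed : wedge (cm X.q) X.ω (star X.ω) ∈ X.gC := by
    have h1 : wedge (cm X.q) X.ω (star X.ω) = N • X.h := by
      rw [hhdef, smul_smul, mul_inv_cancel₀ hN0, one_smul]
    rw [h1]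
    exact Submodule.smul_mem _ _ h9a
  have hirred : ∀ (c : ℂ) (V : Submodule ℂ (B → ℂ)), (∀ x, x ∈ V ↔ cm θ *ᵥ x = c • x) →
      ∀ M ≤ V, (∀ Y ∈ X.gC, ∀ x ∈ M, Y *ᵥ x ∈ M) → M = ⊥ ∨ M = V := by
    intro c V hV M hM hst
    rcases h3 θ hirr X.gQ hcomm hdens c M (fun x hx => (hV x).1 (hM hx))
      (fun Y hY x hx => hst (cm Y) (Submodule.subset_span ⟨Y, hY, rfl⟩) x hx) with h | h
    · exact Or.inl h
    · exact Or.inr (le_antisymm hM fun x hx => h x ((hV x).1 hx))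
  have hmain := h4 (cm X.q) hQs X.gC X.gC le_rfl (fun Y hY Z hZ => h9b hY hZ)
    (fun Y hY => h9c hY) T T'
    (fun x hx y hy => hiso r0 hr00 x y ((hT x).1 hx) ((hT y).1 hy))
    (fun x hx y hy => hiso (-r0) (neg_ne_zero.2 hr00) x y ((hT' x).1 hx) ((hT' y).1 hy))
    X.ω (star X.ω) ((hT _).2 hr0) ((hT' _).2 hr0') (by rw [hN1]; exact hN0) hwed
    (fun Y hY x hx => (hT _).2 (hst0 r0 Y hY x ((hT x).1 hx)))
    (fun Y hY x hx => (hT' _).2 (hst0 (-r0) Y hY x ((hT' x).1 hx)))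
    (hirred r0 T hT) (hirred (-r0) T' hT')
  have hkill : ∀ Z ∈ X.gC, ∀ (S : Type) [Fintype S] [DecidableEq S] (f : (S → B) → ℚ),
      X.IsHodge f → der Z (cx f) = 0 := by
    intro Z hZ S _ _ f hf
    induction hZ using Submodule.span_induction with
    | mem x hx =>
      obtain ⟨Y, hY, rfl⟩ := hx
      rw [der_cx, hY S _ _ f hf]
      funext J
      simp [cx]
    | zero => exact der_zero _
    | add x y _ _ h1 h2 => rw [der_add, h1, h2, add_zero]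
    | smul a x _ h1 => rw [der_smul, h1, smul_zero]
  intro r x y hx hy S _ _ f hf
  funext J
  rw [der_wedge_bil]
  refine h5 θ hirr r0 hroot hroot' (τ := S → B)
    (fun a b J => ∑ s, (X.q (J s) b * f (update J s a) - X.q (J s) a * f (update J s b)))
    (fun x y hx hy t => ?_) r x y hx hy J
  rw [← der_wedge_bil]
  rw [hkill _ (hmain x ((hT x).2 hx) y ((hT' y).2 hy)) S f hf]
  rfl

end Pool.Agent.N429.KS
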