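import Pool.Agent.N429.KS.Defs2
import Pool.Agent.N429.KS.K8
import Pool.Agent.N429.KS.K4

/-!
# Q2: invariants of the unitary Lie algebra are combinations of Hodge classes
(helper73; the first part is adapted from P7 of helper362 and Z4 of helper2)
-/

set_option linter.unusedSectionVars false

open Matrix Finset Function

namespace Pool.Agent.N429.KS

noncomputable section

namespace Q2

section lin

variable {K : Type} [Field K] {B : Type} [Fintype B] [DecidableEq B] {S : Type} [Fintype S]
  [DecidableEq S]

/-- `der` as a linear map in both arguments -/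
theorem der_add (Y Z : Matrix B B K) (f : (S → B) → K) : der (Y + Z) f = der Y f + der Z f := by
  funext J
  simp only [der, Pi.add_apply, Matrix.add_apply, add_mul, Finset.sum_add_distrib]

theorem der_smul (c : K) (Y : Matrix B B K) (f : (S → B) → K) : der (c • Y) f = c • der Y f := by
  funext J
  simp only [der, Pi.smul_apply, Matrix.smul_apply, smul_eq_mul, Finset.mul_sum, mul_assoc]

theorem der_zero_left (f : (S → B) → K) : der (0 : Matrix B B K) f = 0 := by
  funext J
  simp [der]

theorem der_sum {ι : Type} (s : Finset ι) (Y : ι → Matrix B B K) (f : (S → B) → K) :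
    der (∑ i ∈ s, Y i) f = ∑ i ∈ s, der (Y i) f := by
  classical
  induction s using Finset.induction_on with
  | empty => simp [der_zero_left]
  | insert a s ha ih => rw [Finset.sum_insert ha, Finset.sum_insert ha, der_add, ih]

theorem der_add_right (Y : Matrix B B K) (f g : (S → B) → K) :
    der Y (f + g) = der Y f + der Y g := by
  funext J
  simp only [der, Pi.add_apply, mul_add, Finset.sum_add_distrib]

theorem der_smul_right (Y : Matrix B B K) (c : K) (f : (S → B) → K) :
    der Y (c • f) = c • der Y f := by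
  funext J
  simp only [der, Pi.smul_apply, smul_eq_mul, Finset.mul_sum]
  refine Finset.sum_congr rfl fun s _ => Finset.sum_congr rfl fun b _ => ?_
  ring

end lin

theorem der_cm_cx {B : Type} [Fintype B] [DecidableEq B] {S : Type} [Fintype S]
    [DecidableEq S] (Y : Matrix B B ℚ) (g : (S → B) → ℚ) : der (cm Y) (cx g) = cx (der Y g) := by
  funext J
  simp only [der, cx, K8.cm_apply]
  push_cast
  rfl

/-- `sol` for functions -/
theorem sol_fn {A : Type} [Finite A] {τ : Type*}
    (L : (A → ℚ) →ₗ[ℚ] (τ → ℚ)) (Lc : (A → ℂ) →ₗ[ℂ] (τ → ℂ))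
    (hL : ∀ g t, Lc (cx g) t = (L g t : ℂ)) {Z : A → ℂ} (hZ : Lc Z = 0) :
    Z ∈ Submodule.span ℂ (cx '' {g : A → ℚ | L g = 0}) := by
  have h1 := sol (A := A) (A' := Unit) (τ := τ)
    { toFun := fun M => L (fun a => M a ())
      map_add' := by
        intro M N
        rw [← map_add]
        rfl
      map_smul' := by
        intro r M
        rw [← map_smul]
        rfl }
    { toFun := fun M => Lc (fun a => M a ())
      map_add' := by
        intro M N
        rw [← map_add]
        rfl
      map_smul' := by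
        intro r M
        rw [← map_smul]
        rfl }
    (by
      intro M t
      exact hL (fun a => M a ()) t)
    (Z := fun a _ => Z a) hZ
  let ev : Matrix A Unit ℂ →ₗ[ℂ] (A → ℂ) :=
    { toFun := fun M a => M a ()
      map_add' := fun _ _ => rfl
      map_smul' := fun _ _ => rfl }
  have h2 := Submodule.mem_map_of_mem (f := ev) h1
  rw [Submodule.map_span] at h2
  have h3 : ev (fun a _ => Z a) = Z := rfl
  rw [h3] at h2
  refine Submodule.span_mono ?_ h2
  rintro _ ⟨_, ⟨M, hM, rfl⟩, rfl⟩
  exact ⟨fun a => M a (), hM, rfl⟩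

end Q2

section comm

open K8

variable {B : Type} [Fintype B] [DecidableEq B]

theorem inv_span_cm (X : K3Type B) (θ : Matrix B B ℚ) (hθ : (X.q * θ)ᵀ = -(X.q * θ))
    (hθh : cm θ * X.h = X.h * cm θ) (U : Matrix B B ℂ)
    (κ : B → ℂ) (τ : B → B) (hτ : ∀ a, τ (τ a) = a) (hκτ : ∀ a, κ (τ a) = -κ a)
    (hκ0 : ∀ a, κ a ≠ 0)
    (hU : Uᵀ * (Matrix.of fun a b => if b = τ a then (1 : ℂ) else 0) * U = cm X.q)
    (hκ : U * cm θ = diagonal κ * U) {S : Type} [Fintype S] [DecidableEq S] (f : (S → B) → ℂ)
    (hf : ∀ a b, κ (τ b) = κ a →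
      der (Matrix.single a (τ b) (1 : ℂ) - Matrix.single b (τ a) 1) f = 0) :
    chg U f ∈ Submodule.span ℂ (cx '' {g : (S → B) → ℚ | X.IsHodge g}) := by
  obtain ⟨J, hJ⟩ : ∃ J : Matrix B B ℂ, J = Matrix.of fun a b => if b = τ a then (1 : ℂ) else 0 :=
    ⟨_, rfl⟩
  rw [← hJ] at hU
  have hJJ : J * J = 1 := by
    ext a b
    rw [Matrix.mul_apply, Finset.sum_eq_single (τ a)]
    · rw [hJ, Matrix.of_apply, Matrix.of_apply, if_pos rfl, one_mul, hτ, Matrix.one_apply]
      by_cases h : a = b
      · rw [if_pos h.symm, if_pos h]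
      · rw [if_neg (fun h' => h h'.symm), if_neg h]
    · intro c _ hc
      rw [hJ, Matrix.of_apply, if_neg hc, zero_mul]
    · intro h
      exact absurd (Finset.mem_univ _) h
  -- inverses
  have hqd : IsUnit X.q.det := isUnit_iff_ne_zero.2 X.nondeg
  have hqq : X.q * X.q⁻¹ = 1 := Matrix.mul_nonsing_inv _ hqd
  obtain ⟨Q, hQ⟩ : ∃ Q : Matrix B B ℂ, Q = cm X.q := ⟨_, rfl⟩
  obtain ⟨P, hP⟩ : ∃ P : Matrix B B ℂ, P = cm X.q⁻¹ := ⟨_, rfl⟩
  have hQP : Q * P = 1 := by rw [hQ, hP, ← cm_mul, hqq, cm_one]
  have hPQ : P * Q = 1 := mul_eq_one_comm.1 hQP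
  have hQs : Qᵀ = Q := by
    rw [hQ, ← cm_tr, X.sym.eq]
  have hVU : (P * Uᵀ * J) * U = 1 := by rw [mul_assoc P, mul_assoc P, hU, ← hQ, hPQ]
  have hUV : U * (P * Uᵀ * J) = 1 := mul_eq_one_comm.1 hVU
  obtain ⟨V, hV⟩ : ∃ V : Matrix B B ℂ, V = P * Uᵀ * J := ⟨_, rfl⟩
  rw [← hV] at hVU hUV
  -- the rational Lie algebra
  obtain ⟨g, hg⟩ : ∃ g : Set (Matrix B B ℚ),
    g = {Y | X.q * Y + Yᵀ * X.q = 0 ∧ Y * θ = θ * Y} := ⟨_, rfl⟩
  have hskew : Q * X.h + X.hᵀ * Q = 0 := by
    have h1 : ∀ x y : B → ℂ, Q * vecMulVec x (Q *ᵥ y) = vecMulVec (Q *ᵥ x) (Q *ᵥ y) := by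
      intro x y
      rw [Matrix.mul_vecMulVec]
    have h2 : ∀ x y : B → ℂ, (vecMulVec x (Q *ᵥ y))ᵀ * Q = vecMulVec (Q *ᵥ y) (Q *ᵥ x) := by
      intro x y
      rw [Matrix.transpose_vecMulVec, Matrix.vecMulVec_mul, ← Matrix.mulVec_transpose, hQs]
    unfold K3Type.h wedge
    rw [← hQ, mul_smul_comm, Matrix.transpose_smul, smul_mul_assoc, Matrix.transpose_sub,
      Matrix.mul_sub, Matrix.sub_mul, h1, h1, h2, h2, ← smul_add]
    rw [show ∀ a b : Matrix B B ℂ, a - b + (b - a) = 0 by intro a b; abel, smul_zero]
  have hmem : X.h ∈ Submodule.span ℂ (cm '' g) := by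
    have h1 := sol (A := B) (A' := B) (τ := (B × B) ⊕ (B × B))
      { toFun := fun M => Sum.elim (fun p => (X.q * M + Mᵀ * X.q) p.1 p.2)
          (fun p => (M * θ - θ * M) p.1 p.2)
        map_add' := by
          intro M N
          funext t
          rcases t with p | p
          · simp only [Sum.elim_inl, Pi.add_apply, Matrix.transpose_add, Matrix.mul_add,
              Matrix.add_mul, Matrix.add_apply]
            ring
          · simp only [Sum.elim_inr, Pi.add_apply, Matrix.mul_add, Matrix.add_mul, Matrix.add_apply,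
              Matrix.sub_apply]
            ring
        map_smul' := by
          intro r M
          funext t
          rcases t with p | p
          · simp only [Sum.elim_inl, Pi.smul_apply, Matrix.transpose_smul, Matrix.mul_smul,
              Matrix.smul_mul, Matrix.add_apply, Matrix.smul_apply, smul_eq_mul, RingHom.id_apply]
            ring
          · simp only [Sum.elim_inr, Pi.smul_apply, Matrix.mul_smul,
              Matrix.smul_mul, Matrix.sub_apply, Matrix.smul_apply, smul_eq_mul, RingHom.id_apply]
            ring }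
      { toFun := fun M => Sum.elim (fun p => (Q * M + Mᵀ * Q) p.1 p.2)
          (fun p => (M * cm θ - cm θ * M) p.1 p.2)
        map_add' := by
          intro M N
          funext t
          rcases t with p | p
          · simp only [Sum.elim_inl, Pi.add_apply, Matrix.transpose_add, Matrix.mul_add,
              Matrix.add_mul, Matrix.add_apply]
            ring
          · simp only [Sum.elim_inr, Pi.add_apply, Matrix.mul_add, Matrix.add_mul, Matrix.add_apply,
              Matrix.sub_apply]
            ring
        map_smul' := by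
          intro r M
          funext t
          rcases t with p | p
          · simp only [Sum.elim_inl, Pi.smul_apply, Matrix.transpose_smul, Matrix.mul_smul,
              Matrix.smul_mul, Matrix.add_apply, Matrix.smul_apply, smul_eq_mul, RingHom.id_apply]
            ring
          · simp only [Sum.elim_inr, Pi.smul_apply, Matrix.mul_smul,
              Matrix.smul_mul, Matrix.sub_apply, Matrix.smul_apply, smul_eq_mul, RingHom.id_apply]
            ring }
      (by
        intro M t
        rcases t with p | p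
        · change (Q * cm M + (cm M)ᵀ * Q) p.1 p.2 = (((X.q * M + Mᵀ * X.q) p.1 p.2 : ℚ) : ℂ)
          rw [← cm_apply, cm_add, cm_mul, cm_mul, cm_tr, hQ]
        · change (cm M * cm θ - cm θ * cm M) p.1 p.2 = (((M * θ - θ * M) p.1 p.2 : ℚ) : ℂ)
          rw [← cm_apply, cm_sub, cm_mul, cm_mul])
      (Z := X.h) (by
        funext t
        rcases t with p | p
        · change (Q * X.h + X.hᵀ * Q) p.1 p.2 = 0
          rw [hskew]
          rfl
        · change (X.h * cm θ - cm θ * X.h) p.1 p.2 = 0
          rw [hθh, sub_self]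
          rfl)
    refine Submodule.span_mono ?_ h1
    rintro _ ⟨M, hM, rfl⟩
    refine ⟨M, ?_, rfl⟩
    rw [hg]
    have h2 : ∀ t, (Sum.elim (fun p : B × B => (X.q * M + Mᵀ * X.q) p.1 p.2)
          (fun p : B × B => (M * θ - θ * M) p.1 p.2)) t = 0 := fun t => congrFun hM t
    constructor
    · ext a b
      exact h2 (Sum.inl (a, b))
    · rw [← sub_eq_zero]
      ext a b
      exact h2 (Sum.inr (a, b))
  -- rational forms killed by the rational Lie algebra
  have hR : ∀ g' : (S → B) → ℚ, (∀ Y ∈ g, der Y g' = 0) → X.IsHodge g' := by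
    intro g' hg'
    have h1 : ∀ Z ∈ Submodule.span ℂ (cm '' g), der Z (cx g') = 0 := by
      intro Z hZ
      induction hZ using Submodule.span_induction with
      | mem Z hZ =>
        obtain ⟨Y, hY, rfl⟩ := hZ
        rw [Q2.der_cm_cx, hg' Y hY]
        funext J
        simp [cx]
      | zero => exact Q2.der_zero_left _
      | add a b _ _ ha hb => rw [Q2.der_add, ha, hb, add_zero]
      | smul c a _ ha => rw [Q2.der_smul, ha, smul_zero]
    exact h1 _ hmem
  -- the form is killed by the Lie algebra
  have hkill : ∀ Y ∈ g, der (cm Y) (chg U f) = 0 := by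
    intro Y hY
    rw [hg] at hY
    obtain ⟨hYs, hYθ⟩ := hY
    have hPU : P * Uᵀ = V * J := by rw [hV, mul_assoc, hJJ, mul_one]
    have hA : U * (cm Y * P) * Uᵀ = (U * cm Y * V) * J := by
      calc U * (cm Y * P) * Uᵀ = U * cm Y * (P * Uᵀ) := by simp only [mul_assoc]
        _ = _ := by rw [hPU]; simp only [mul_assoc]
    have h2 : diagonal κ * (U * cm Y * V) = (U * cm Y * V) * diagonal κ := by
      have h3 : cm θ * V = V * diagonal κ := by
        calc cm θ * V = (V * U) * cm θ * V := by rw [hVU, one_mul]
          _ = V * (U * cm θ) * V := by rw [mul_assoc V]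
          _ = V * (diagonal κ * U) * V := by rw [hκ]
          _ = V * diagonal κ * (U * V) := by simp only [mul_assoc]
          _ = _ := by rw [hUV, mul_one]
      calc diagonal κ * (U * cm Y * V) = (diagonal κ * U) * cm Y * V := by simp only [mul_assoc]
        _ = U * (cm θ * cm Y) * V := by rw [← hκ]; simp only [mul_assoc]
        _ = U * (cm Y * cm θ) * V := by rw [← cm_mul, ← hYθ, cm_mul]
        _ = U * cm Y * (cm θ * V) := by simp only [mul_assoc]
        _ = _ := by rw [h3]; simp only [mul_assoc]
    obtain ⟨Z, hZ⟩ : ∃ Z : Matrix B B ℂ, Z = U * cm Y * V := ⟨_, rfl⟩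
    obtain ⟨A, hAe⟩ : ∃ A : Matrix B B ℂ, A = U * (cm Y * P) * Uᵀ := ⟨_, rfl⟩
    rw [← hZ] at h2 hA
    rw [← hAe] at hA
    -- `A` is skew
    have hAs : Aᵀ = -A := by
      have hPs : Pᵀ = P := by
        calc Pᵀ = Pᵀ * (Q * P) := by rw [hQP, mul_one]
          _ = (Pᵀ * Qᵀ) * P := by rw [hQs, mul_assoc]
          _ = (Q * P)ᵀ * P := by rw [Matrix.transpose_mul]
          _ = P := by rw [hQP, Matrix.transpose_one, one_mul]
      have hs : Q * cm Y + (cm Y)ᵀ * Q = 0 := by
        have h5 := congrArg cm hYs
        rw [cm_add, cm_mul, cm_mul, cm_tr, ← hQ] at h5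
        rw [h5]
        ext a b
        simp [cm]
      have hs' : (cm Y)ᵀ * Q = -(Q * cm Y) := by
        rw [eq_neg_iff_add_eq_zero, add_comm]; exact hs
      have hs2 : P * (cm Y)ᵀ = -(cm Y * P) := by
        calc P * (cm Y)ᵀ = P * ((cm Y)ᵀ * (Q * P)) := by rw [hQP, mul_one]
          _ = P * ((cm Y)ᵀ * Q) * P := by simp only [mul_assoc]
          _ = -((P * Q) * cm Y * P) := by rw [hs']; simp only [mul_neg, neg_mul, mul_assoc]
          _ = _ := by rw [hPQ, one_mul]
      rw [hAe, Matrix.transpose_mul, Matrix.transpose_mul, Matrix.transpose_mul,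
        Matrix.transpose_transpose, hPs, hs2, neg_mul, mul_neg]
      simp only [mul_assoc]
    have h3 : ∀ a b, Z a b ≠ 0 → κ a = κ b := by
      intro a b hab
      have h4 := congrFun (congrFun h2 a) b
      rw [Matrix.diagonal_mul, Matrix.mul_diagonal] at h4
      have h5 : (κ a - κ b) * Z a b = 0 := by linear_combination h4
      rcases mul_eq_zero.1 h5 with h6 | h6
      · exact sub_eq_zero.1 h6
      · exact absurd h6 hab
    have hAZ : ∀ a b, A a b = Z a (τ b) := by
      intro a b
      rw [hA, Matrix.mul_apply, Finset.sum_eq_single (τ b)]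
      · rw [hJ, Matrix.of_apply, hτ, if_pos rfl, mul_one]
      · intro c _ hc
        rw [hJ, Matrix.of_apply, if_neg, mul_zero]
        intro h
        exact hc (by rw [h, hτ])
      · intro h
        exact absurd (Finset.mem_univ _) h
    have hUZ : U * cm Y = Z * U := by
      rw [hZ, mul_assoc, hVU, mul_one]
    rw [← chg_der U (cm Y) Z hUZ]
    -- twice `Z` is a combination of the operators
    have h6 : (2 : ℂ) • Z = ∑ a, ∑ b, A a b •
        (Matrix.single a (τ b) (1 : ℂ) - Matrix.single b (τ a) 1) := by
      have e1 : ∑ a, ∑ b, A a b • Matrix.single a (τ b) (1 : ℂ) = Z := by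
        conv_rhs => rw [Matrix.matrix_eq_sum_single Z]
        refine Finset.sum_congr rfl fun a _ => ?_
        rw [← Equiv.sum_comp (Function.Involutive.toPerm τ hτ)]
        refine Finset.sum_congr rfl fun b _ => ?_
        rw [hAZ, Function.Involutive.coe_toPerm, Matrix.smul_single, smul_eq_mul, mul_one, hτ]
      have e2 : ∑ a, ∑ b, A a b • Matrix.single b (τ a) (1 : ℂ) = -Z := by
        rw [Finset.sum_comm, ← e1, ← Finset.sum_neg_distrib]
        refine Finset.sum_congr rfl fun b _ => ?_
        rw [← Finset.sum_neg_distrib]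
        refine Finset.sum_congr rfl fun a _ => ?_
        have h8 : A a b = -A b a := by
          have h9 := congrFun (congrFun hAs b) a
          rw [Matrix.transpose_apply, Matrix.neg_apply] at h9
          exact h9
        rw [h8, neg_smul]
      simp only [smul_sub, Finset.sum_sub_distrib]
      rw [e1, e2, two_smul, sub_neg_eq_add]
    have h10 : der ((2 : ℂ) • Z) f = 0 := by
      rw [h6, Q2.der_sum]
      refine Finset.sum_eq_zero fun a _ => ?_
      rw [Q2.der_sum]
      refine Finset.sum_eq_zero fun b _ => ?_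
      rw [Q2.der_smul]
      by_cases hab : A a b = 0
      · rw [hab, zero_smul]
      · have h4 : κ (τ b) = κ a := by
          rw [hAZ] at hab
          exact (h3 _ _ hab).symm
        rw [hf a b h4, smul_zero]
    rw [Q2.der_smul] at h10
    have h11 : der Z f = 0 := by
      rcases smul_eq_zero.1 h10 with h | h
      · norm_num at h
      · exact h
    rw [h11, chg_zero]
  -- descent
  have h1 := Q2.sol_fn (A := S → B) (τ := g × (S → B))
    { toFun := fun g' t => der t.1.1 g' t.2
      map_add' := by
        intro M N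
        funext t
        rw [Q2.der_add_right]
        rfl
      map_smul' := by
        intro r M
        funext t
        rw [Q2.der_smul_right]
        rfl }
    { toFun := fun g' t => der (cm t.1.1) g' t.2
      map_add' := by
        intro M N
        funext t
        rw [Q2.der_add_right]
        rfl
      map_smul' := by
        intro r M
        funext t
        rw [Q2.der_smul_right]
        rfl }
    (by
      intro M t
      change der (cm t.1.1) (cx M) t.2 = ((der t.1.1 M t.2 : ℚ) : ℂ)
      rw [Q2.der_cm_cx]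
      rfl)
    (Z := chg U f) (by
      funext t
      change der (cm t.1.1) (chg U f) t.2 = 0
      rw [hkill t.1.1 t.1.2]
      rfl)
  refine Submodule.span_mono ?_ h1
  rintro _ ⟨M, hM, rfl⟩
  refine ⟨M, hR M fun Y hY => ?_, rfl⟩
  funext J'
  exact congrFun hM (⟨Y, hY⟩, J')

end comm

end

end Pool.Agent.N429.KS
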