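import Pool.Agent.N429.KS.Q3a
import Pool.Agent.N429.KS.Desc
import Pool.Agent.N429.KS.Q1
import Pool.Agent.N429.KS.Q2
import Pool.Agent.N429.KS.P6
import Pool.Agent.N429.KS.P9
import Pool.Agent.N429.KS.P11

/-!
# Q3: generators of the algebra of Hodge classes (helper814)
-/

set_option linter.unusedSectionVars false

open Matrix Finset Function

namespace Pool.Agent.N429.KS

noncomputable section

namespace Q3b

open Q3a

variable {B : Type} [Fintype B] [DecidableEq B]

/-- the wedge of two columns of `W` in the new coordinates -/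
theorem wedge_cols (Q U W : Matrix B B ℂ) (σ : B → B) (hUW : U * W = 1)
    (hq : ∀ c, Q *ᵥ (fun k => W k c) = fun k => U (σ c) k) (a b : B) :
    W * (Matrix.single a (σ b) 1 - Matrix.single b (σ a) 1) =
      wedge Q (fun k => W k a) (fun k => W k b) * W := by
  have hrow : ∀ c j, ∑ m, U c m * W m j = (1 : Matrix B B ℂ) c j := by
    intro c j
    rw [← hUW, Matrix.mul_apply]
  ext k j
  unfold wedge
  rw [hq, hq, Matrix.mul_sub, Matrix.sub_mul, Matrix.sub_apply, Matrix.sub_apply]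
  have e1 : ∀ c d : B, (W * Matrix.single c d (1 : ℂ)) k j = W k c * (1 : Matrix B B ℂ) d j := by
    intro c d
    rw [Matrix.mul_apply, Finset.sum_eq_single c]
    · by_cases h : d = j
      · subst h
        simp
      · rw [Matrix.one_apply_ne h, Matrix.single_apply, if_neg (fun h' => h h'.2)]
    · intro m _ hm
      rw [Matrix.single_apply, if_neg (fun h' => hm h'.1.symm), mul_zero]
    · intro h
      exact absurd (Finset.mem_univ c) h
  have e2 : ∀ c d : B, (vecMulVec (fun k => W k c) (fun k => U d k) * W) k j =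
      W k c * (1 : Matrix B B ℂ) d j := by
    intro c d
    rw [Matrix.mul_apply, ← hrow, Finset.mul_sum]
    refine Finset.sum_congr rfl fun m _ => ?_
    rw [vecMulVec_apply, mul_assoc]
  rw [e1, e1, e2, e2]

theorem inv_of (q : Matrix B B ℚ) (hq : q.det ≠ 0) (U P : Matrix B B ℂ) (hU : Uᵀ * P * U = cm q) :
    ∃ W : Matrix B B ℂ, W * U = 1 ∧ U * W = 1 := by
  have hdet : IsUnit U.det := by
    have h1 : U.det * P.det * U.det = (cm q).det := by
      rw [← hU, Matrix.det_mul, Matrix.det_mul, Matrix.det_transpose]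
    have h2 : (cm q).det = algebraMap ℚ ℂ q.det := by
      unfold cm
      rw [RingHom.map_det]
      rfl
    have h3 : algebraMap ℚ ℂ q.det ≠ 0 := by
      intro h
      exact hq ((map_eq_zero (algebraMap ℚ ℂ)).1 h)
    rw [isUnit_iff_ne_zero]
    intro h
    rw [h2, h, mul_zero] at h1
    exact h3 h1.symm
  exact ⟨U⁻¹, Matrix.nonsing_inv_mul U hdet, Matrix.mul_nonsing_inv U hdet⟩

/-- the columns of `W` are eigenvectors -/
theorem eig_cols (Θ U W : Matrix B B ℂ) (κ : B → ℂ) (hWU : W * U = 1) (hUW : U * W = 1)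
    (hκ : U * Θ = diagonal κ * U) (a : B) :
    Θ *ᵥ (fun k => W k a) = κ a • (fun k => W k a) := by
  have hWκ : Θ * W = W * diagonal κ := by
    calc Θ * W = W * U * (Θ * W) := by rw [hWU, Matrix.one_mul]
      _ = W * (U * Θ) * W := by simp only [Matrix.mul_assoc]
      _ = W * (diagonal κ * U) * W := by rw [hκ]
      _ = W * diagonal κ * (U * W) := by simp only [Matrix.mul_assoc]
      _ = W * diagonal κ := by rw [hUW, Matrix.mul_one]
  funext k
  have h := congrFun (congrFun hWκ k) a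
  rw [Matrix.mul_apply, Matrix.mul_diagonal] at h
  rw [Pi.smul_apply, smul_eq_mul, mul_comm]
  exact h

theorem col_ne (U W : Matrix B B ℂ) (hUW : U * W = 1) (a : B) : (fun k => W k a) ≠ 0 := by
  intro h
  have h1 := congrFun (congrFun hUW a) a
  rw [Matrix.mul_apply, Matrix.one_apply_eq] at h1
  rw [Finset.sum_eq_zero fun k _ => by rw [show W k a = 0 from congrFun h k, mul_zero]] at h1
  exact zero_ne_one h1

/-- the eigenvalues are roots of the minimal polynomial -/
theorem root_of (θ : Matrix B B ℚ) {r : ℂ} {x : B → ℂ} (hx : cm θ *ᵥ x = r • x) (h0 : x ≠ 0) :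
    Polynomial.aeval r (minpoly ℚ θ) = 0 := by
  have h1 := K15.aeval_eig θ hx (minpoly ℚ θ)
  rw [minpoly.aeval] at h1
  have h2 : cm (0 : Matrix B B ℚ) = 0 := by
    ext i j
    simp [cm]
  rw [h2, zero_mulVec] at h1
  exact (smul_eq_zero.1 h1.symm).resolve_right h0

theorem finish (𝒜 : Sys ℚ B) (U W : Matrix B B ℂ) (hWU : W * U = 1) (𝒞 : Calc ℂ B Empty)
    (hCA : ∀ S : Type, 𝒞.Alg S = Submodule.span ℂ (cx '' (𝒜.Alg S : Set ((S → B) → ℚ))))
    {S : Type} [Fintype S] [DecidableEq S] (f : (S → B) → ℚ)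
    (h : chg U (chg W (cx f)) ∈ 𝒞.Alg S) : f ∈ 𝒜.Alg S := by
  rw [chg_chg, hWU, chg_one, hCA] at h
  exact cx_mem_span _ f h

theorem case_real (X : K3Type B) (𝒜 : Sys ℚ B) (m : ℕ)
    (hm : Fintype.card B = Module.finrank ℚ X.endo * m)
    (h2 : ∀ f : (Fin 2 → B) → ℚ, X.IsHodge f → f ∈ 𝒜.Alg (Fin 2)) (hX : X.NonCM)
    (hdet : ∀ f : (Fin m → B) → ℚ, X.IsHodge f → f ∈ 𝒜.Alg (Fin m))
    {S : Type} [Fintype S] [DecidableEq S] (f : (S → B) → ℚ) (hf : X.IsHodge f) :
    f ∈ 𝒜.Alg S := by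
  classical
  obtain ⟨θ, hθs, hθh, hirr, hcomm, hdens⟩ := exists_theta X hX
  obtain ⟨U, κ, hU, hκ⟩ := orth X.q θ X.sym X.nondeg hθs hirr.squarefree
  obtain ⟨𝒞, hCA, -⟩ := exists_cplx (calcOf 𝒜)
  obtain ⟨𝒜', hA', -⟩ := exists_chg 𝒞 U
  obtain ⟨W, hWU, hUW⟩ := inv_of X.q X.nondeg U 1 (by rw [Matrix.mul_one, hU])
  have hq : ∀ c, cm X.q *ᵥ (fun k => W k c) = fun k => U c k := by
    intro c
    have h1 : cm X.q * W = Uᵀ := by rw [← hU, Matrix.mul_assoc, hUW, Matrix.mul_one]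
    funext k
    have h2 := congrFun (congrFun h1 k) c
    rw [Matrix.mul_apply, Matrix.transpose_apply] at h2
    exact h2
  have heig := eig_cols (cm θ) U W κ hWU hUW hκ
  have hdel : ∀ i, delta κ i ∈ 𝒜'.Alg (Fin 2) := by
    intro i
    rw [hA']
    exact mem_of_span X 𝒜 𝒞 hCA h2 (inv_span X θ hθs hθh U κ hU hκ _ (invB_delta κ i))
  have hd : ∀ i, detf κ i ∈ 𝒜'.Alg {b : B // κ b = i} := by
    intro i
    by_cases hi : Nonempty {b : B // κ b = i}
    · obtain ⟨⟨b, hb⟩⟩ := hi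
      have hr : Polynomial.aeval i (minpoly ℚ θ) = 0 := by
        rw [← hb]
        exact root_of θ (heig b) (col_ne U W hUW b)
      have hcard := dim_eq X hX θ hθh hirr hcomm hdens i hr
      rw [card_block (cm θ) U W κ hWU hUW hκ i, hm] at hcard
      have h0 : Module.finrank ℚ X.endo ≠ 0 := by
        intro h
        rw [h, zero_mul] at hm
        have hne : Nonempty B := ⟨b⟩
        exact Fintype.card_ne_zero hm
      have hmc : m = Fintype.card {b : B // κ b = i} :=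
        Nat.eq_of_mul_eq_mul_left (Nat.pos_of_ne_zero h0) hcard
      have e : Fin m ≃ {b : B // κ b = i} := (Fintype.equivFinOfCardEq hmc.symm).symm
      rw [hA']
      refine mem_of_span X 𝒜 𝒞 hCA (fun g hg => ?_)
        (inv_span X θ hθs hθh U κ hU hκ _ (invB_detf κ i))
      have h3 := 𝒜.re e (hdet _ (hodge_re X e.symm hg))
      have h4 : (fun J : {b : B // κ b = i} → B => g ((J ∘ e) ∘ e.symm)) = g := by
        funext J
        congr 1
        funext t
        simp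
      rw [← h4]
      exact h3
    · rw [not_nonempty_iff] at hi
      have h3 := 𝒜'.re (Equiv.equivOfIsEmpty Empty {b : B // κ b = i}) 𝒜'.one
      have h4 : detf κ i = fun _ => (1 : ℂ) := by
        funext J
        unfold detf
        exact Matrix.det_isEmpty
      rw [h4]
      exact h3
  have hinv : InvB κ (chg W (cx f)) := by
    intro a b hab
    have h1 := zarhin_at X θ hθs hθh hirr hcomm hdens (κ a) (fun k => W k a) (fun k => W k b)
      (heig a) (by rw [hab]; exact heig b) S f hf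
    have h3 := chg_der W _ _ (wedge_cols (cm X.q) U W id hUW hq a b) (cx f)
    rw [h1, chg_zero] at h3
    exact h3.symm
  have hfin := fft 𝒜'.toSys κ hdel hd S (chg W (cx f)) hinv
  exact finish 𝒜 U W hWU 𝒞 hCA f ((hA' S (chg W (cx f))).1 hfin)

theorem case_cm (X : K3Type B) (𝒜 : Sys ℚ B)
    (h2 : ∀ f : (Fin 2 → B) → ℚ, X.IsHodge f → f ∈ 𝒜.Alg (Fin 2)) (hX : ¬ X.NonCM)
    {S : Type} [Fintype S] [DecidableEq S] (f : (S → B) → ℚ) (hf : X.IsHodge f) :
    f ∈ 𝒜.Alg S := by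
  classical
  obtain ⟨θ, hθs, hθ0, hθh, hirr, hz⟩ := zarhin_cm X hX
  obtain ⟨U, κ, τ, hτ, hκτ, hκ0, hU, hκ⟩ := adapted X.q θ X.sym X.nondeg hθs hθ0 hirr
  obtain ⟨𝒞, hCA, -⟩ := exists_cplx (calcOf 𝒜)
  obtain ⟨𝒜', hA', -⟩ := exists_chg 𝒞 U
  obtain ⟨W, hWU, hUW⟩ := inv_of X.q X.nondeg U _ hU
  have hq : ∀ c, cm X.q *ᵥ (fun k => W k c) = fun k => U (τ c) k := by
    intro c
    have h1 : cm X.q * W = Uᵀ * (Matrix.of fun a b => if b = τ a then (1 : ℂ) else 0) := by
      rw [← hU, Matrix.mul_assoc, hUW, Matrix.mul_one]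
    funext k
    have h2 := congrFun (congrFun h1 k) c
    rw [Matrix.mul_apply, Matrix.mul_apply] at h2
    refine Eq.trans h2 ?_
    rw [Finset.sum_eq_single (τ c)]
    · rw [Matrix.transpose_apply, Matrix.of_apply, hτ, if_pos rfl, mul_one]
    · intro d _ hd
      rw [Matrix.of_apply, if_neg, mul_zero]
      intro h
      exact hd (by rw [h, hτ])
    · intro h
      exact absurd (Finset.mem_univ _) h
  have heig := eig_cols (cm θ) U W κ hWU hUW hκ
  have hopp : ∀ a b, κ (τ b) = κ a → κ b = -κ a := by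
    intro a b h
    rw [← h, hκτ, neg_neg]
  have hpair : ∀ i, (fun J : Fin 2 → B => if κ (J 0) = i ∧ J 1 = τ (J 0) then (1 : ℂ) else 0) ∈
      𝒜'.Alg (Fin 2) := by
    intro i
    rw [hA']
    refine mem_of_span X 𝒜 𝒞 hCA h2 (inv_span_cm X θ hθs hθh U κ τ hτ hκτ hκ0 hU hκ _ ?_)
    intro a b hab
    exact inv_pair κ τ hτ i hab (by rw [hκτ, hopp a b hab])
  have hinv : ∀ a b, κ (τ b) = κ a →
      der (Matrix.single a (τ b) (1 : ℂ) - Matrix.single b (τ a) 1) (chg W (cx f)) = 0 := by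
    intro a b hab
    have h1 := hz (κ a) (fun k => W k a) (fun k => W k b) (heig a)
      (by rw [← hopp a b hab]; exact heig b) S f hf
    rw [← chg_der W _ _ (wedge_cols (cm X.q) U W τ hUW hq a b) (cx f), h1, chg_zero]
  have hne : ∀ a, κ (τ a) ≠ κ a := by
    intro a h
    rw [hκτ] at h
    exact hκ0 a (self_eq_neg.1 h.symm)
  have hfin := fft_cm 𝒜'.toSys κ τ hτ hne (fun a b h => by rw [hκτ, hκτ, h]) hpair S
    (chg W (cx f)) hinv
  exact finish 𝒜 U W hWU 𝒞 hCA f ((hA' S (chg W (cx f))).1 hfin)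

end Q3b

variable {B : Type} [Fintype B] [DecidableEq B]

/-- Q3 (from Q1, Q2, zarhin, zarhin_cm, orth, adapted, fft, fft_cm, dim_eq) -/
theorem hodge_generated (X : K3Type B) (𝒜 : Sys ℚ B) (m : ℕ)
    (hm : Fintype.card B = Module.finrank ℚ X.endo * m)
    (h2 : ∀ f : (Fin 2 → B) → ℚ, X.IsHodge f → f ∈ 𝒜.Alg (Fin 2))
    (hdet : X.NonCM → ∀ f : (Fin m → B) → ℚ, X.IsHodge f → f ∈ 𝒜.Alg (Fin m))
    {S : Type} [Fintype S] [DecidableEq S] (f : (S → B) → ℚ) (hf : X.IsHodge f) :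
    f ∈ 𝒜.Alg S := by
  by_cases hX : X.NonCM
  · exact Q3b.case_real X 𝒜 m hm h2 hX (hdet hX) f hf
  · exact Q3b.case_cm X 𝒜 h2 hX f hf

end

end Pool.Agent.N429.KS
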