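import Pool.Agent.N429.KS.Defs2
import Pool.Agent.N429.KS.K9

/-!
# Z3: the dimension of the eigenspace of the period (helper767)
-/

set_option autoImplicit false
set_option linter.unusedSectionVars false
set_option linter.unusedVariables false

open Matrix Finset Function

namespace Pool.Agent.N429.KS

noncomputable section

namespace Z3

open Polynomial

/-- the double commutant of an operator with irreducible minimal polynomial -/
theorem exists_aeval {K V : Type} [Field K] [AddCommGroup V] [Module K V] [Nontrivial V]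
    (T : Module.End K V) (μ : K[X]) (hμ : Irreducible μ) (hT : aeval T μ = 0)
    (M : Module.End K V) (hM : ∀ A : Module.End K V, A * T = T * A → M * A = A * M) :
    ∃ p : K[X], M = aeval T p := by
  classical
  let I : Ideal K[X] := Ideal.span {μ}
  have : I.IsMaximal := PrincipalIdealRing.isMaximal_of_irreducible hμ
  let _ : Field (K[X] ⧸ I) := Ideal.Quotient.field I
  let φ : (K[X] ⧸ I) →+* Module.End K V := Ideal.Quotient.lift I (aeval T).toRingHom (by
    intro a ha
    obtain ⟨c, rfl⟩ := Ideal.mem_span_singleton.1 ha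
    show aeval T (μ * c) = 0
    rw [map_mul, hT, zero_mul])
  let _ : Module (K[X] ⧸ I) V := Module.compHom V φ
  have smul_def : ∀ (p : K[X]) (x : V), (Ideal.Quotient.mk I p) • x = aeval T p x := fun p x => rfl
  obtain ⟨v, hv⟩ := exists_ne (0 : V)
  obtain ⟨f, hf⟩ : ∃ f : Module.Dual (K[X] ⧸ I) V, f v = 1 := by
    have h1 : ¬ ∀ f : Module.Dual (K[X] ⧸ I) V, f v = 0 := fun h =>
      hv ((Module.forall_dual_apply_eq_zero_iff (K[X] ⧸ I) v).1 h)
    push Not at h1
    obtain ⟨f, hf⟩ := h1
    exact ⟨(f v)⁻¹ • f, by simp [hf]⟩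
  have hfK : ∀ (c : K) (x : V), f (c • x) = Ideal.Quotient.mk I (C c) * f x := by
    intro c x
    have h1 : c • x = (Ideal.Quotient.mk I (C c)) • x := by
      rw [smul_def, aeval_C]
      rfl
    rw [h1, map_smul, smul_eq_mul]
  have hA : ∀ w : V, ∃ A : Module.End K V, (∀ x, A x = f x • w) ∧ A * T = T * A := by
    intro w
    refine ⟨{ toFun := fun x => f x • w
              map_add' := fun x y => by rw [map_add, add_smul]
              map_smul' := fun c x => ?_ }, fun x => rfl, ?_⟩
    · rw [hfK, mul_smul, smul_def, aeval_C]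
      rfl
    · ext x
      show f (T x) • w = T (f x • w)
      have h2 : ∀ y : V, T y = (Ideal.Quotient.mk I X) • y := by
        intro y
        rw [smul_def, aeval_X]
      rw [h2, h2, map_smul, smul_eq_mul, mul_smul]
  obtain ⟨p, hp⟩ := Ideal.Quotient.mk_surjective (f (M v))
  refine ⟨p, ?_⟩
  ext w
  obtain ⟨A, hA1, hA2⟩ := hA w
  have h3 := LinearMap.congr_fun (hM A hA2) v
  simp only [Module.End.mul_apply] at h3
  rw [hA1, hA1, hf, one_smul] at h3
  rw [h3, ← hp, smul_def]

theorem aeval_cm {B : Type} [Fintype B] [DecidableEq B] (θ : Matrix B B ℚ) (p : ℚ[X]) :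
    cm (aeval θ p) = aeval (cm θ) (p.map (algebraMap ℚ ℂ)) := by
  refine Polynomial.map_aeval_eq_aeval_map (φ := algebraMap ℚ ℂ)
    (ψ := (algebraMap ℚ ℂ).mapMatrix (m := B)) ?_ p θ
  refine RingHom.ext fun c => ?_
  ext i j
  show (algebraMap ℂ (Matrix B B ℂ)) (algebraMap ℚ ℂ c) i j =
    algebraMap ℚ ℂ (algebraMap ℚ (Matrix B B ℚ) c i j)
  rw [Matrix.algebraMap_matrix_apply, Matrix.algebraMap_matrix_apply]
  split_ifs <;> simp

theorem aeval_toLin' {K : Type} [Field K] {B : Type} [Fintype B] [DecidableEq B]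
    (A : Matrix B B K) (p : K[X]) : aeval (Matrix.toLin' A) p = Matrix.toLin' (aeval A p) :=
  aeval_algHom_apply (Matrix.toLinAlgEquiv' (R := K) (n := B)) A p

theorem aeval_toLin'_cm {B : Type} [Fintype B] [DecidableEq B] (θ : Matrix B B ℚ) :
    aeval (Matrix.toLin' (cm θ)) ((minpoly ℚ θ).map (algebraMap ℚ ℂ)) = 0 := by
  rw [aeval_toLin', ← aeval_cm, minpoly.aeval, K9.cm_zero, map_zero]

/-- the characteristic polynomial is a power of the irreducible minimal polynomial -/
theorem charpoly_eq {B : Type} [Fintype B] [DecidableEq B] (θ : Matrix B B ℚ)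
    (hirr : Irreducible (minpoly ℚ θ)) : ∃ m : ℕ, θ.charpoly = minpoly ℚ θ ^ m := by
  have h0 := aeval_toLin'_cm θ
  set μ := minpoly ℚ θ with hμ
  have hmon : μ.Monic := minpoly.monic (Matrix.isIntegral θ)
  have hfin : FiniteMultiplicity μ θ.charpoly :=
    FiniteMultiplicity.of_not_isUnit hirr.not_isUnit (θ.charpoly_monic.ne_zero)
  obtain ⟨g, hg, hng⟩ := hfin.exists_eq_pow_mul_and_not_dvd
  refine ⟨multiplicity μ θ.charpoly, ?_⟩
  generalize multiplicity μ θ.charpoly = m at hg ⊢
  have hgm : g.Monic := by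
    have h1 := θ.charpoly_monic
    rw [hg] at h1
    exact (hmon.pow _).of_mul_monic_left h1
  have hcop : IsCoprime μ g := (hirr.coprime_iff_not_dvd).2 hng
  have hdeg : g.natDegree = 0 := by
    by_contra hne
    have hd : (g.map (algebraMap ℚ ℂ)).degree ≠ 0 := by
      rw [degree_map]
      intro h
      exact hne (natDegree_eq_of_degree_eq_some h)
    obtain ⟨z, hz⟩ := IsAlgClosed.exists_root _ hd
    have h2 : Module.End.HasEigenvalue (Matrix.toLin' (cm θ)) z := by
      rw [Module.End.hasEigenvalue_iff_isRoot_charpoly, Matrix.charpoly_toLin']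
      have h3 : (cm θ).charpoly = θ.charpoly.map (algebraMap ℚ ℂ) := Matrix.charpoly_map θ _
      rw [h3, hg, Polynomial.map_mul, IsRoot.def, eval_mul, hz.eq_zero, mul_zero]
    have h4 : aeval z μ = 0 := by
      obtain ⟨v, hv⟩ := h2.exists_hasEigenvector
      have h6 := Module.End.aeval_apply_of_hasEigenvector (p := μ.map (algebraMap ℚ ℂ)) hv
      rw [h0, LinearMap.zero_apply, eq_comm, smul_eq_zero, or_iff_left hv.2, eval_map] at h6
      exact h6
    obtain ⟨a, b, hab⟩ := hcop
    have h7 := congrArg (aeval z) hab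
    rw [map_add, map_mul, map_mul, h4, mul_zero, zero_add, map_one] at h7
    have h8 : aeval z g = 0 := by
      rw [aeval_def, ← eval_map]
      exact hz
    rw [h8, mul_zero] at h7
    exact zero_ne_one h7
  rw [hg, hgm.natDegree_eq_zero.1 hdeg, mul_one]

/-- the dimension of an eigenspace -/
theorem finrank_eigenspace {B : Type} [Fintype B] [DecidableEq B] (θ : Matrix B B ℚ)
    (hirr : Irreducible (minpoly ℚ θ)) (r : ℂ) (hr : aeval r (minpoly ℚ θ) = 0) :
    Fintype.card B = (minpoly ℚ θ).natDegree *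
      Module.finrank ℂ (Module.End.eigenspace (Matrix.toLin' (cm θ)) r) := by
  obtain ⟨m, hm⟩ := charpoly_eq θ hirr
  have hsep : ((minpoly ℚ θ).map (algebraMap ℚ ℂ)).Separable := hirr.separable.map
  have hss : Module.End.IsSemisimple (Matrix.toLin' (cm θ)) :=
    Module.End.isSemisimple_of_squarefree_aeval_eq_zero hsep.squarefree (aeval_toLin'_cm θ)
  have h1 := LinearMap.finrank_maxGenEigenspace_eq (Matrix.toLin' (cm θ)) r
  rw [hss.isFinitelySemisimple.maxGenEigenspace_eq_eigenspace, Matrix.charpoly_toLin'] at h1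
  have h3 : (cm θ).charpoly = θ.charpoly.map (algebraMap ℚ ℂ) := Matrix.charpoly_map θ _
  have hroot : ((minpoly ℚ θ).map (algebraMap ℚ ℂ)).IsRoot r := by
    rw [IsRoot.def, eval_map]
    exact hr
  have hne : (minpoly ℚ θ).map (algebraMap ℚ ℂ) ≠ 0 := hsep.ne_zero
  have h4 : ((minpoly ℚ θ).map (algebraMap ℚ ℂ)).rootMultiplicity r = 1 := by
    refine le_antisymm (rootMultiplicity_le_one_of_separable hsep r) ?_
    exact (rootMultiplicity_pos hne).2 hroot
  have h5 : rootMultiplicity r (((minpoly ℚ θ).map (algebraMap ℚ ℂ)) ^ m) = m := by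
    rw [← count_roots, roots_pow, Multiset.count_nsmul, count_roots, h4, mul_one]
  rw [h3, hm, Polynomial.map_pow, h5] at h1
  rw [h1]
  have h6 := congrArg natDegree hm
  rw [Matrix.charpoly_natDegree_eq_dim, natDegree_pow, mul_comm] at h6
  exact h6

/-- the dimension of the algebra of the polynomials in an operator -/
theorem finrank_poly {B : Type} [Fintype B] [DecidableEq B] (θ : Matrix B B ℚ)
    (W : Submodule ℚ (Matrix B B ℚ)) (hW : ∀ M, M ∈ W ↔ ∃ p : ℚ[X], M = aeval θ p) :
    Module.finrank ℚ W = (minpoly ℚ θ).natDegree := by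
  have h1 : W = Submodule.span ℚ (Set.range fun i : Fin (minpoly ℚ θ).natDegree =>
      θ ^ (i : ℕ)) := by
    refine le_antisymm (fun M hM => ?_) (Submodule.span_le.2 ?_)
    · exact (Matrix.isIntegral θ).mem_span_pow ((hW M).1 hM)
    · rintro _ ⟨i, rfl⟩
      exact (hW _).2 ⟨X ^ (i : ℕ), by simp⟩
  rw [h1, finrank_span_eq_card (linearIndependent_pow θ), Fintype.card_fin]

end Z3

variable {B : Type} [Fintype B] [DecidableEq B]

/-- Z3 dimension of the eigenspace of the period -/
theorem dim_eq (X : K3Type B) (hX : X.NonCM) (θ : Matrix B B ℚ)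
    (hθ : cm θ * X.h = X.h * cm θ) (hirr : Irreducible (minpoly ℚ θ))
    (hcomm : ∀ Y ∈ X.gQ, Y * θ = θ * Y)
    (hdens : ∀ A : Matrix B B ℚ, A * θ = θ * A →
      A ∈ Algebra.adjoin ℚ (X.gQ : Set (Matrix B B ℚ)))
    (r : ℂ) (hr : Polynomial.aeval r (minpoly ℚ θ) = 0) :
    Fintype.card B = Module.finrank ℚ X.endo *
      Module.finrank ℂ (Module.End.eigenspace (Matrix.toLin' (cm θ)) r) := by
  have hB : Nonempty B := by
    by_contra hne
    rw [not_nonempty_iff] at hne
    apply X.pol
    simp [dotProduct]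
  have hVn : Nontrivial (B → ℚ) := inferInstance
  have h0 : Polynomial.aeval (Matrix.toLin' θ) (minpoly ℚ θ) = 0 := by
    rw [Z3.aeval_toLin', minpoly.aeval, map_zero]
  have h1 : Module.finrank ℚ X.endo = (minpoly ℚ θ).natDegree := by
    refine Z3.finrank_poly θ _ fun M => ⟨fun hM => ?_, ?_⟩
    · have hM1 := (comm_iff X M).2 hM
      have hM2 : ∀ A ∈ Algebra.adjoin ℚ (X.gQ : Set (Matrix B B ℚ)), M * A = A * M := by
        intro A hA
        induction hA using Algebra.adjoin_induction with
        | mem x hx => exact hM1 x hx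
        | algebraMap r => exact (Algebra.commutes r M).symm
        | add x y _ _ hx hy => rw [mul_add, add_mul, hx, hy]
        | mul x y _ _ hx hy => rw [← mul_assoc, hx, mul_assoc, hy, mul_assoc]
      obtain ⟨p, hp⟩ := Z3.exists_aeval (Matrix.toLin' θ) (minpoly ℚ θ) hirr h0
        (Matrix.toLin' M) (fun A hA => by
          obtain ⟨A, rfl⟩ := (Matrix.toLin').surjective A
          have hA' : A * θ = θ * A := by
            apply (Matrix.toLin' (R := ℚ)).injective
            rw [Matrix.toLin'_mul, Matrix.toLin'_mul]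
            exact hA
          have h2 := congrArg Matrix.toLin' (hM2 A (hdens A hA'))
          rw [Matrix.toLin'_mul, Matrix.toLin'_mul] at h2
          exact h2)
      refine ⟨p, ?_⟩
      rw [Z3.aeval_toLin'] at hp
      exact Matrix.toLin'.injective hp
    · rintro ⟨p, rfl⟩
      show cm (Polynomial.aeval θ p) * X.h = X.h * cm (Polynomial.aeval θ p)
      rw [Z3.aeval_cm]
      generalize Polynomial.map (algebraMap ℚ ℂ) p = p'
      have h3 : Commute (Polynomial.aeval (cm θ) p') X.h := by
        refine Polynomial.induction_on' p' ?_ ?_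
        · intro a b ha hb
          rw [map_add]
          exact ha.add_left hb
        · intro n a
          rw [Polynomial.aeval_monomial]
          exact Commute.mul_left (Algebra.commutes a X.h) (Commute.pow_left hθ n)
      exact h3
  rw [h1]
  exact Z3.finrank_eigenspace θ hirr r hr

end

end Pool.Agent.N429.KS
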