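import Pool.Agent.N429.KS.K15
import Pool.Agent.N429.KS.Z3
import Pool.Agent.N429.KS.K2
import Pool.Agent.N429.KS.K3
import Pool.Agent.N429.KS.K4
import Pool.Agent.N429.KS.K5

/-!
# Q3, preparations (helper814)

Zarhin's theorem for a given generator of the field of endomorphisms, invariance of the pairings
and of the determinants of the blocks, cardinality of the blocks, renumbering of Hodge classes.
-/

set_option linter.unusedSectionVars false

open Matrix Finset Function

namespace Pool.Agent.N429.KS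

namespace Q3a

noncomputable section

open K15 in
/-- Zarhin's theorem for a given generator (copy of the proof of `zarhin_core`) -/
theorem zarhin_at {B : Type} [Fintype B] [DecidableEq B] (X : K3Type B) (θ : Matrix B B ℚ)
    (hθs : (X.q * θ).IsSymm) (hθh : cm θ * X.h = X.h * cm θ) (hirr : Irreducible (minpoly ℚ θ))
    (hcomm : ∀ Y ∈ X.gQ, Y * θ = θ * Y)
    (hdens : ∀ A : Matrix B B ℚ, A * θ = θ * A →
      A ∈ Algebra.adjoin ℚ (X.gQ : Set (Matrix B B ℚ)))
    (r : ℂ) (x y : B → ℂ) (hx : cm θ *ᵥ x = r • x) (hy : cm θ *ᵥ y = r • y)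
    (S : Type) [Fintype S] [DecidableEq S] (f : (S → B) → ℚ) (hf : X.IsHodge f) :
    der (wedge (cm X.q) x y) (cx f) = 0 := by
  obtain ⟨N, hN⟩ : ∃ N, N = X.N := ⟨_, rfl⟩
  have hN0 : N ≠ 0 := by rw [hN]; exact X.pol
  have hN1 : X.ω ⬝ᵥ (cm X.q *ᵥ star X.ω) = N := by rw [hN]; rfl
  have hQs : (cm X.q).IsSymm := by
    rw [Matrix.IsSymm, cm_transpose, X.sym]
  have hiso' : star X.ω ⬝ᵥ (cm X.q *ᵥ star X.ω) = 0 := by
    rw [← star_dot, X.iso, star_zero]
  have hN2 : star X.ω ⬝ᵥ (cm X.q *ᵥ X.ω) = N := by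
    rw [dotProduct_mulVec, ← mulVec_transpose, hQs, dotProduct_comm, hN1]
  have hω0 : X.ω ≠ 0 := by
    intro h0
    apply hN0
    rw [← hN1, h0, zero_dotProduct]
  have hhdef : X.h = N⁻¹ • wedge (cm X.q) X.ω (star X.ω) := by rw [hN]; rfl
  have hhv : ∀ u, X.h *ᵥ u = (N⁻¹ * ((cm X.q *ᵥ star X.ω) ⬝ᵥ u)) • X.ω -
      (N⁻¹ * ((cm X.q *ᵥ X.ω) ⬝ᵥ u)) • star X.ω := by
    intro u
    rw [hhdef, smul_mulVec, wedge_mulVec, smul_sub, smul_smul, smul_smul]
  have hhω : X.h *ᵥ X.ω = X.ω := by
    rw [hhv, dotProduct_comm, hN1, dotProduct_comm, X.iso, inv_mul_cancel₀ hN0, mul_zero, one_smul,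
      zero_smul, sub_zero]
  have hhω' : X.h *ᵥ star X.ω = -star X.ω := by
    rw [hhv, dotProduct_comm, hiso', dotProduct_comm, hN2, inv_mul_cancel₀ hN0, mul_zero, one_smul,
      zero_smul, zero_sub]
  have heig : ∀ u, X.h *ᵥ u = u → ∃ a : ℂ, u = a • X.ω := by
    intro u hu
    obtain ⟨a, ha⟩ : ∃ a, a = N⁻¹ * ((cm X.q *ᵥ star X.ω) ⬝ᵥ u) := ⟨_, rfl⟩
    obtain ⟨b, hb⟩ : ∃ b, b = N⁻¹ * ((cm X.q *ᵥ X.ω) ⬝ᵥ u) := ⟨_, rfl⟩
    have h1 : u = a • X.ω - b • star X.ω := by rw [ha, hb, ← hhv, hu]
    have h2 : X.h *ᵥ u = a • X.ω + b • star X.ω := by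
      rw [h1, mulVec_sub, mulVec_smul, mulVec_smul, hhω, hhω', smul_neg, sub_neg_eq_add]
    rw [hu] at h2
    refine ⟨a, ?_⟩
    have h3 : u + u = a • X.ω + a • X.ω := by
      nth_rewrite 1 [h1]
      nth_rewrite 1 [h2]
      abel
    have h4 : (2 : ℂ) • u = (2 : ℂ) • (a • X.ω) := by rw [two_smul, two_smul, h3]
    exact smul_right_injective _ (two_ne_zero) h4
  obtain ⟨r0, hr0⟩ : ∃ r0 : ℂ, cm θ *ᵥ X.ω = r0 • X.ω := by
    apply heig
    rw [mulVec_mulVec, ← hθh, ← mulVec_mulVec, hhω]
  have hr0' : cm θ *ᵥ star X.ω = star r0 • star X.ω := by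
    rw [← star_mulVec', hr0, star_smul]
  have hsa : (cm θ)ᵀ * cm X.q = cm X.q * cm θ := by
    rw [cm_transpose, ← cm_mul, ← cm_mul]
    congr 1
    have h1 : (X.q * θ)ᵀ = X.q * θ := hθs
    rw [← h1, transpose_mul, X.sym]
  have hreal : star r0 = r0 := by
    have h1 : (cm θ *ᵥ X.ω) ⬝ᵥ (cm X.q *ᵥ star X.ω) = X.ω ⬝ᵥ (cm X.q *ᵥ (cm θ *ᵥ star X.ω)) := by
      rw [mulVec_mulVec, ← hsa, ← mulVec_mulVec, dotProduct_mulVec X.ω (cm θ)ᵀ, vecMul_transpose]
    rw [hr0, hr0', smul_dotProduct, mulVec_smul, dotProduct_smul, hN1, smul_eq_mul,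
      smul_eq_mul] at h1
    exact (mul_right_cancel₀ hN0 h1).symm
  rw [hreal] at hr0'
  have hroot : Polynomial.aeval r0 (minpoly ℚ θ) = 0 := by
    have h1 := aeval_eig θ hr0 (minpoly ℚ θ)
    rw [minpoly.aeval] at h1
    have h2 : cm (0 : Matrix B B ℚ) = 0 := by
      ext i j
      simp [cm]
    rw [h2, zero_mulVec] at h1
    exact (smul_eq_zero.1 h1.symm).resolve_right hω0
  -- the eigenspace
  obtain ⟨T, hT⟩ : ∃ T : Submodule ℂ (B → ℂ), ∀ x, x ∈ T ↔ cm θ *ᵥ x = r0 • x := by
    refine ⟨{ carrier := {x | cm θ *ᵥ x = r0 • x}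
              add_mem' := ?_
              zero_mem' := ?_
              smul_mem' := ?_ }, fun x => Iff.rfl⟩
    · intro x y hx hy
      show cm θ *ᵥ (x + y) = r0 • (x + y)
      rw [mulVec_add, smul_add, (hx : cm θ *ᵥ x = r0 • x), (hy : cm θ *ᵥ y = r0 • y)]
    · show cm θ *ᵥ (0 : B → ℂ) = r0 • (0 : B → ℂ)
      rw [mulVec_zero, smul_zero]
    · intro a x hx
      show cm θ *ᵥ (a • x) = r0 • (a • x)
      rw [mulVec_smul, (hx : cm θ *ᵥ x = r0 • x), smul_comm]
  have hgcomm : ∀ Y ∈ X.gC, Y * cm θ = cm θ * Y := by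
    intro Y hY
    induction hY using Submodule.span_induction with
    | mem x hx =>
      obtain ⟨Y', hY', rfl⟩ := hx
      rw [← cm_mul, ← cm_mul, hcomm Y' hY']
    | zero => rw [zero_mul, mul_zero]
    | add x y _ _ h1 h2 => rw [add_mul, mul_add, h1, h2]
    | smul a x _ h1 => rw [smul_mul_assoc, mul_smul_comm, h1]
  have hTst : ∀ Y ∈ X.gC, ∀ x ∈ T, Y *ᵥ x ∈ T := by
    intro Y hY x hx
    rw [hT] at hx ⊢
    rw [mulVec_mulVec, ← hgcomm Y hY, ← mulVec_mulVec, hx, mulVec_smul]
  have hwed : wedge (cm X.q) X.ω (star X.ω) ∈ X.gC := by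
    have h1 : wedge (cm X.q) X.ω (star X.ω) = N • X.h := by
      rw [hhdef, smul_smul, mul_inv_cancel₀ hN0, one_smul]
    rw [h1]
    exact Submodule.smul_mem _ _ (h_mem_gC X)
  have hmain := weight (cm X.q) hQs X.gC (fun Y hY Z hZ => gC_bracket X hY hZ) (fun Y hY => gC_skew X hY)
    X.ω (star X.ω) X.iso hiso' (by rw [hN1]; exact hN0) hwed T ((hT _).2 hr0) ((hT _).2 hr0')
    hTst (fun M hM hst => by
      rcases irred X.q θ X.sym X.nondeg hθs hirr X.gQ hcomm hdens r0 M
        (fun x hx => (hT x).1 (hM hx))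
        (fun Y hY x hx => hst (cm Y) (Submodule.subset_span ⟨Y, hY, rfl⟩) x hx) with h | h
      · exact Or.inl h
      · exact Or.inr (le_antisymm hM fun x hx => h x ((hT x).1 hx)))
  have hkill : ∀ Z ∈ X.gC, ∀ (S : Type) [Fintype S] [DecidableEq S] (f : (S → B) → ℚ),
      X.IsHodge f → der Z (cx f) = 0 := by
    intro Z hZ S _ _ f hf
    induction hZ using Submodule.span_induction with
    | mem x hx =>
      obtain ⟨Y, hY, rfl⟩ := hx
      rw [der_cx, hY S _ _ f hf]
      funext J
      simp [cx]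
    | zero => exact der_zero _
    | add x y _ _ h1 h2 => rw [der_add, h1, h2, add_zero]
    | smul a x _ h1 => rw [der_smul, h1, smul_zero]
  exact galois X.q θ hθs hirr r0 hroot f
    (fun x y hx hy => hkill _ (hmain x ((hT x).2 hx) y ((hT y).2 hy)) S f hf) r x y hx hy

section der

variable {K : Type} [Field K] {B : Type} [Fintype B] [DecidableEq B] {S : Type} [Fintype S]
  [DecidableEq S]

theorem der_single1 (a b : B) (f : (S → B) → K) (J : S → B) :
    der (Matrix.single a b 1) f J = ∑ s, if J s = b then f (update J s a) else 0 := by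
  unfold der
  refine Finset.sum_congr rfl fun s _ => ?_
  rw [Finset.sum_eq_single a]
  · by_cases h : J s = b
    · rw [if_pos h, h, Matrix.single_apply, if_pos ⟨rfl, rfl⟩, one_mul]
    · rw [if_neg h, Matrix.single_apply, if_neg (fun h' => h h'.2.symm), zero_mul]
  · intro c _ hc
    rw [Matrix.single_apply, if_neg (fun h' => hc h'.1.symm), zero_mul]
  · intro h
    exact absurd (Finset.mem_univ _) h

theorem der_sub (Y Z : Matrix B B K) (f : (S → B) → K) : der (Y - Z) f = der Y f - der Z f := by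
  funext J
  simp only [der, Matrix.sub_apply, Pi.sub_apply, sub_mul, Finset.sum_sub_distrib]

/-- renumbering of the variables -/
theorem der_re {T : Type} [Fintype T] [DecidableEq T] (Y : Matrix B B K) (e : S ≃ T)
    (f : (S → B) → K) (J : T → B) : der Y (fun J : T → B => f (J ∘ e)) J = der Y f (J ∘ e) := by
  unfold der
  rw [← Equiv.sum_comp e]
  refine Finset.sum_congr rfl fun s _ => Finset.sum_congr rfl fun b _ => ?_
  have h : update J (e s) b ∘ e = update (J ∘ e) s b := by
    funext t
    by_cases ht : t = s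
    · subst ht
      simp
    · rw [Function.comp_apply, update_of_ne (fun h => ht (e.injective h)), update_of_ne ht,
        Function.comp_apply]
  show Y b (J (e s)) * f (update J (e s) b ∘ e) = Y b ((J ∘ e) s) * f (update (J ∘ e) s b)
  rw [h]
  rfl

variable {ι : Type} [DecidableEq ι] [CharZero K]

theorem invB_delta (κ : B → ι) (i : ι) : InvB κ (delta (K := K) κ i) := by
  intro a b hab
  funext J
  rw [der_single, Fin.sum_univ_two, Pi.zero_apply]
  have h0 : ∀ v : B, update J 0 v 0 = v := fun v => update_self _ _ _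
  have h1 : ∀ v : B, update J 0 v 1 = J 1 := fun v => update_of_ne (by decide) _ _
  have h2 : ∀ v : B, update J 1 v 1 = v := fun v => update_self _ _ _
  have h3 : ∀ v : B, update J 1 v 0 = J 0 := fun v => update_of_ne (by decide) _ _
  simp only [delta, h0, h1, h2, h3]
  by_cases c1 : J 0 = a <;> by_cases c2 : J 0 = b <;> by_cases c3 : J 1 = a <;>
    by_cases c4 : J 1 = b <;> by_cases c5 : κ a = i <;>
    simp_all [eq_comm]

/-- the off-diagonal operators of a block kill its determinant -/
theorem off_det (κ : B → ι) (i : ι) {a b : B} (hne : a ≠ b) (hab : κ a = κ b)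
    (J : {b : B // κ b = i} → B) :
    ∑ s, (if J s = b then detf (K := K) κ i (update J s a) else 0) = 0 := by
  by_cases hi : κ b = i
  · -- `b` in the block
    by_cases hex : ∃ s t, s ≠ t ∧ J s = b ∧ J t = b
    · obtain ⟨s, t, hst, hs, ht⟩ := hex
      have hz : ∀ u ∈ (univ : Finset {b : B // κ b = i}), u ∉ ({s, t} : Finset {b : B // κ b = i}) →
          (if J u = b then detf (K := K) κ i (update J u a) else 0) = 0 := by
        intro u _ hu
        rw [mem_insert, mem_singleton, not_or] at hu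
        have h1 : detf (K := K) κ i (update J u a) = 0 := by
          unfold detf
          refine Matrix.det_zero_of_row_eq hst ?_
          funext c
          simp only [Matrix.of_apply]
          rw [update_of_ne (fun h => hu.1 h.symm), update_of_ne (fun h => hu.2 h.symm), hs, ht]
        rw [h1, ite_self]
      rw [← Finset.sum_subset (subset_univ ({s, t} : Finset {b : B // κ b = i})) hz,
        Finset.sum_pair hst, if_pos hs, if_pos ht]
      have h2 : detf (K := K) κ i (update J t a) = - detf κ i (update J s a) := by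
        unfold detf
        have h3 : (Matrix.of fun x y : {b : B // κ b = i} =>
            if update J t a x = y.1 then (1 : K) else 0) =
            (Matrix.of fun x y : {b : B // κ b = i} =>
              if update J s a x = y.1 then (1 : K) else 0).submatrix (Equiv.swap s t) id := by
          ext x y
          simp only [Matrix.submatrix_apply, Matrix.of_apply, id]
          have h4 : update J t a x = update J s a (Equiv.swap s t x) := by
            by_cases hx : x = s
            · subst hx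
              rw [Equiv.swap_apply_left, update_of_ne hst, update_of_ne hst.symm, hs, ht]
            · by_cases hx' : x = t
              · subst hx'
                rw [Equiv.swap_apply_right, update_self, update_self]
              · rw [Equiv.swap_apply_of_ne_of_ne hx hx', update_of_ne hx', update_of_ne hx]
          rw [h4]
        rw [h3, Matrix.det_permute, Equiv.Perm.sign_swap hst]
        simp
      rw [h2, add_neg_cancel]
    · push Not at hex
      refine Finset.sum_eq_zero fun s _ => ?_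
      by_cases hs : J s = b
      · rw [if_pos hs]
        unfold detf
        refine Matrix.det_eq_zero_of_column_eq_zero (⟨b, hi⟩ : {b : B // κ b = i}) fun x => ?_
        rw [Matrix.of_apply, if_neg]
        by_cases hx : x = s
        · subst hx
          rw [update_self]
          exact hne
        · rw [update_of_ne hx]
          exact hex s x (fun h => hx h.symm) hs
      · rw [if_neg hs]
  · -- `a` and `b` not in the block
    refine Finset.sum_eq_zero fun s _ => ?_
    have h1 : detf (K := K) κ i (update J s a) = 0 := by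
      unfold detf
      refine Matrix.det_eq_zero_of_row_eq_zero s fun x => ?_
      rw [Matrix.of_apply, update_self, if_neg]
      intro h
      apply hi
      rw [← hab, h]
      exact x.2
    rw [h1, ite_self]

theorem invB_detf (κ : B → ι) (i : ι) : InvB κ (detf (K := K) κ i) := by
  intro a b hab
  by_cases h : a = b
  · subst h
    rw [sub_self]
    funext J
    simp [der]
  · rw [der_sub]
    funext J
    rw [Pi.sub_apply, der_single1, der_single1, off_det κ i h hab, off_det κ i (Ne.symm h) hab.symm,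
      sub_zero, Pi.zero_apply]

/-- invariance of the pairings of opposite eigenspaces -/
theorem inv_pair (κ : B → ι) (τ : B → B) (hτ : ∀ a, τ (τ a) = a) (i : ι) {a b : B}
    (h1 : κ (τ b) = κ a) (h2 : κ (τ a) = κ b) :
    der (Matrix.single a (τ b) (1 : K) - Matrix.single b (τ a) 1)
      (fun J : Fin 2 → B => if κ (J 0) = i ∧ J 1 = τ (J 0) then (1 : K) else 0) = 0 := by
  funext J
  rw [der_sub, Pi.sub_apply, der_single1, der_single1, Fin.sum_univ_two, Fin.sum_univ_two,
    Pi.zero_apply]
  have e0 : ∀ v : B, update J 0 v 0 = v := fun v => update_self _ _ _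
  have e1 : ∀ v : B, update J 0 v 1 = J 1 := fun v => update_of_ne (by decide) _ _
  have e2 : ∀ v : B, update J 1 v 1 = v := fun v => update_self _ _ _
  have e3 : ∀ v : B, update J 1 v 0 = J 0 := fun v => update_of_ne (by decide) _ _
  simp only [e0, e1, e2, e3]
  have f1 : (if J 0 = τ b then (if κ a = i ∧ J 1 = τ a then (1 : K) else 0) else 0) =
      (if J 1 = τ a then (if κ (J 0) = i ∧ b = τ (J 0) then (1 : K) else 0) else 0) := by
    by_cases c1 : J 0 = τ b
    · rw [if_pos c1, c1, hτ, h1]
      by_cases c2 : J 1 = τ a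
      · rw [if_pos c2]
        simp [c2]
      · rw [if_neg c2]
        simp [c2]
    · rw [if_neg c1]
      have c3 : ¬ b = τ (J 0) := fun h => c1 (by rw [h, hτ])
      simp [c3]
  have f2 : (if J 0 = τ a then (if κ b = i ∧ J 1 = τ b then (1 : K) else 0) else 0) =
      (if J 1 = τ b then (if κ (J 0) = i ∧ a = τ (J 0) then (1 : K) else 0) else 0) := by
    by_cases c1 : J 0 = τ a
    · rw [if_pos c1, c1, hτ, h2]
      by_cases c2 : J 1 = τ b
      · rw [if_pos c2]
        simp [c2]
      · rw [if_neg c2]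
        simp [c2]
    · rw [if_neg c1]
      have c3 : ¬ a = τ (J 0) := fun h => c1 (by rw [h, hτ])
      simp [c3]
  rw [f1, f2]
  ring

end der

section hodge

variable {B : Type} [Fintype B] [DecidableEq B]

/-- a renumbered Hodge class is a Hodge class -/
theorem hodge_re (X : K3Type B) {S T : Type} [Fintype S] [DecidableEq S] [Fintype T]
    [DecidableEq T] (e : S ≃ T) {f : (S → B) → ℚ} (hf : X.IsHodge f) :
    X.IsHodge (fun J : T → B => f (J ∘ e)) := by
  unfold K3Type.IsHodge at *
  funext J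
  have h1 : cx (fun J : T → B => f (J ∘ e)) = fun J : T → B => cx f (J ∘ e) := rfl
  rw [h1, der_re, hf]
  rfl

/-- a system with all correspondences of the zero space -/
def calcOf (𝒜 : Sys ℚ B) : Calc ℚ B Empty where
  toSys := 𝒜
  Cor := fun _ => ⊤
  cre := fun _ _ _ => Submodule.mem_top
  cmul := fun _ _ => Submodule.mem_top
  ctr := by
    intro S _ M _
    have h : (fun J => (M J).trace) = (0 : (S → B) → ℚ) := by
      funext J
      simp [Matrix.trace]
    rw [h]
    exact Submodule.zero_mem _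

/-- complex Hodge classes are in a system which contains the rational ones -/
theorem mem_of_span (X : K3Type B) (𝒜 : Sys ℚ B) (𝒞 : Calc ℂ B Empty)
    (hC : ∀ S : Type, 𝒞.Alg S = Submodule.span ℂ (cx '' (𝒜.Alg S : Set ((S → B) → ℚ))))
    {S : Type} [Fintype S] [DecidableEq S]
    (h : ∀ f : (S → B) → ℚ, X.IsHodge f → f ∈ 𝒜.Alg S) {f : (S → B) → ℂ}
    (hf : f ∈ Submodule.span ℂ (cx '' {g : (S → B) → ℚ | X.IsHodge g})) : f ∈ 𝒞.Alg S := by
  rw [hC]
  exact Submodule.span_mono (Set.image_mono fun g hg => h g hg) hf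

/-- dimension of an eigenspace -/
theorem card_block (Θ U W : Matrix B B ℂ) (κ : B → ℂ) (hWU : W * U = 1) (hUW : U * W = 1)
    (hκ : U * Θ = diagonal κ * U) (i : ℂ) :
    Module.finrank ℂ (Module.End.eigenspace (Matrix.toLin' Θ) i) =
      Fintype.card {b : B // κ b = i} := by
  rw [← Module.finrank_fintype_fun_eq_card ℂ]
  have hmem : ∀ x : B → ℂ, x ∈ Module.End.eigenspace (Matrix.toLin' Θ) i ↔
      ∀ b, κ b ≠ i → (U *ᵥ x) b = 0 := by
    intro x
    rw [Module.End.mem_eigenspace_iff, Matrix.toLin'_apply]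
    have h1 : Θ *ᵥ x = i • x ↔ diagonal κ *ᵥ (U *ᵥ x) = i • (U *ᵥ x) := by
      constructor
      · intro h
        rw [mulVec_mulVec, ← hκ, ← mulVec_mulVec, h, mulVec_smul]
      · intro h
        have h2 : W *ᵥ (U *ᵥ (Θ *ᵥ x)) = W *ᵥ (i • (U *ᵥ x)) := by
          rw [← h, mulVec_mulVec x U Θ, hκ, ← mulVec_mulVec]
        rw [mulVec_smul, mulVec_mulVec, hWU, one_mulVec, mulVec_mulVec, hWU, one_mulVec] at h2
        exact h2
    rw [h1]
    constructor
    · intro h b hb
      have h3 := congrFun h b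
      rw [mulVec_diagonal, Pi.smul_apply, smul_eq_mul] at h3
      have h4 : (κ b - i) * (U *ᵥ x) b = 0 := by rw [sub_mul, h3, sub_self]
      exact (mul_eq_zero.1 h4).resolve_left (sub_ne_zero.2 hb)
    · intro h
      funext b
      rw [mulVec_diagonal, Pi.smul_apply, smul_eq_mul]
      by_cases hb : κ b = i
      · rw [hb]
      · rw [h b hb, mul_zero, mul_zero]
  refine LinearEquiv.finrank_eq
    { toFun := fun x => fun c : {b : B // κ b = i} => (U *ᵥ (x : B → ℂ)) c.1
      map_add' := ?_
      map_smul' := ?_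
      invFun := fun y => ⟨W *ᵥ (fun b => if h : κ b = i then y ⟨b, h⟩ else 0), ?_⟩
      left_inv := ?_
      right_inv := ?_ }
  · intro x y
    funext c
    show (U *ᵥ ((x : B → ℂ) + (y : B → ℂ))) c.1 = _
    rw [mulVec_add]
    rfl
  · intro a x
    funext c
    show (U *ᵥ (a • (x : B → ℂ))) c.1 = _
    rw [mulVec_smul]
    rfl
  · rw [hmem]
    intro b hb
    rw [mulVec_mulVec, hUW, one_mulVec, dif_neg hb]
  · intro x
    apply Subtype.ext
    have hx := (hmem x).1 x.2
    have h1 : (fun b => if h : κ b = i then (U *ᵥ (x : B → ℂ)) b else 0) = U *ᵥ (x : B → ℂ) := by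
      funext b
      by_cases hb : κ b = i
      · rw [dif_pos hb]
      · rw [dif_neg hb, hx b hb]
    show W *ᵥ (fun b => if h : κ b = i then (U *ᵥ (x : B → ℂ)) b else 0) = (x : B → ℂ)
    rw [h1, mulVec_mulVec, hWU, one_mulVec]
  · intro y
    funext c
    show (U *ᵥ (W *ᵥ (fun b => if h : κ b = i then y ⟨b, h⟩ else 0))) c.1 = y c
    rw [mulVec_mulVec, hUW, one_mulVec, dif_pos c.2]

end hodge

end

end Q3a

end Pool.Agent.N429.KS
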