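import Pool.Agent.N429.KS.Defs2

/-!
# Polarized Clifford modules exist
-/

set_option autoImplicit false
set_option linter.unusedSectionVars false

open Matrix Finset Function

namespace Pool.Agent.N429.KS

noncomputable section

/-- annihilation and creation operators -/
theorem exists_fermion (n : ℕ) : ∃ (C : Type) (_ : Fintype C) (_ : DecidableEq C), Nonempty C ∧
    ∃ c d : Fin n → Matrix C C ℚ, (∀ i j, c i * c j + c j * c i = 0) ∧
      (∀ i j, d i * d j + d j * d i = 0) ∧
      ∀ i j, c i * d j + d j * c i = if i = j then 1 else 0 := by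
  induction n with
  | zero =>
    refine ⟨Unit, inferInstance, inferInstance, inferInstance, fun i => i.elim0, fun i => i.elim0,
      fun i => i.elim0, fun i => i.elim0, fun i => i.elim0⟩
  | succ n ih =>
    obtain ⟨C, hC1, hC2, hC3, c, d, h1, h2, h3⟩ := ih
    refine ⟨C ⊕ C, inferInstance, inferInstance, inferInstance,
      Fin.cons (fromBlocks 0 1 0 0) (fun i => fromBlocks (c i) 0 0 (-(c i))),
      Fin.cons (fromBlocks 0 0 1 0) (fun i => fromBlocks (d i) 0 0 (-(d i))), ?_, ?_, ?_⟩
    · intro i j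
      refine Fin.cases ?_ (fun i => ?_) i <;> refine Fin.cases ?_ (fun j => ?_) j <;>
        simp [fromBlocks_multiply, fromBlocks_add, h1, ← fromBlocks_zero]
    · intro i j
      refine Fin.cases ?_ (fun i => ?_) i <;> refine Fin.cases ?_ (fun j => ?_) j <;>
        simp [fromBlocks_multiply, fromBlocks_add, h2, ← fromBlocks_zero]
    · intro i j
      refine Fin.cases ?_ (fun i => ?_) i <;> refine Fin.cases ?_ (fun j => ?_) j
      · simp [fromBlocks_multiply, fromBlocks_add, ← fromBlocks_one]
      · rw [if_neg (by exact (Fin.succ_ne_zero j).symm)]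
        simp [fromBlocks_multiply, fromBlocks_add, ← fromBlocks_zero]
      · rw [if_neg (by exact Fin.succ_ne_zero i)]
        simp [fromBlocks_multiply, fromBlocks_add, ← fromBlocks_zero]
      · by_cases hij : i = j
        · subst hij
          have := h3 i i
          rw [if_pos rfl] at this
          simp [fromBlocks_multiply, fromBlocks_add, this, ← fromBlocks_one]
        · have := h3 i j
          rw [if_neg hij] at this
          rw [if_neg (fun h => hij (Fin.succ_injective _ h))]
          simp [fromBlocks_multiply, fromBlocks_add, this, ← fromBlocks_zero]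

/-- Clifford modules exist -/
theorem exists_cliff {B : Type} [Fintype B] [DecidableEq B] (Q : Matrix B B ℚ) (hQ : Q.IsSymm) :
    ∃ (C : Type) (_ : Fintype C) (_ : DecidableEq C), Nonempty C ∧
      ∃ Φ : B → Matrix C C ℚ, Cliff Q Φ := by
  obtain ⟨C, hC1, hC2, hC3, c, d, h1, h2, h3⟩ := exists_fermion (Fintype.card B)
  let e := Fintype.equivFin B
  have h3' : ∀ i j, c (e i) * d (e j) + d (e j) * c (e i) = if i = j then 1 else 0 := by
    intro i j
    rw [h3]
    by_cases hij : i = j
    · rw [if_pos hij, if_pos (by rw [hij])]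
    · rw [if_neg hij, if_neg (fun h => hij (e.injective h))]
  refine ⟨C, hC1, hC2, hC3, fun i => d (e i) + ∑ j, Q i j • c (e j), fun i k => ?_⟩
  have e1 : (d (e i) + ∑ j, Q i j • c (e j)) * (d (e k) + ∑ j, Q k j • c (e j)) =
      d (e i) * d (e k) + ∑ j, Q k j • (d (e i) * c (e j)) + ∑ j, Q i j • (c (e j) * d (e k))
        + ∑ j, ∑ l, (Q i j * Q k l) • (c (e j) * c (e l)) := by
    rw [add_mul, mul_add, mul_add, Finset.mul_sum, Finset.sum_mul, Finset.sum_mul_sum]
    simp only [mul_smul_comm, smul_mul_assoc, smul_smul]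
    rw [← add_assoc]
    congr 1
    exact Finset.sum_congr rfl fun _ _ => Finset.sum_congr rfl fun _ _ => by rw [mul_comm]
  have e2 : (d (e k) + ∑ j, Q k j • c (e j)) * (d (e i) + ∑ j, Q i j • c (e j)) =
      d (e k) * d (e i) + ∑ j, Q i j • (d (e k) * c (e j)) + ∑ j, Q k j • (c (e j) * d (e i))
        + ∑ j, ∑ l, (Q i j * Q k l) • (c (e l) * c (e j)) := by
    rw [add_mul, mul_add, mul_add, Finset.mul_sum, Finset.sum_mul, Finset.sum_mul_sum,
      Finset.sum_comm]
    simp only [mul_smul_comm, smul_mul_assoc, smul_smul]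
    rw [← add_assoc]
  rw [e1, e2]
  have s1 : ∑ j, Q k j • (d (e i) * c (e j)) + ∑ j, Q k j • (c (e j) * d (e i)) =
      Q k i • (1 : Matrix C C ℚ) := by
    rw [← Finset.sum_add_distrib, Finset.sum_eq_single i]
    · rw [← smul_add, add_comm, h3', if_pos rfl]
    · intro j _ hj
      rw [← smul_add, add_comm, h3', if_neg hj, smul_zero]
    · intro h
      exact absurd (Finset.mem_univ _) h
  have s2 : ∑ j, Q i j • (c (e j) * d (e k)) + ∑ j, Q i j • (d (e k) * c (e j)) =
      Q i k • (1 : Matrix C C ℚ) := by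
    rw [← Finset.sum_add_distrib, Finset.sum_eq_single k]
    · rw [← smul_add, h3', if_pos rfl]
    · intro j _ hj
      rw [← smul_add, h3', if_neg hj, smul_zero]
    · intro h
      exact absurd (Finset.mem_univ _) h
  have s3 : ∑ j, ∑ l, (Q i j * Q k l) • (c (e j) * c (e l)) +
      ∑ j, ∑ l, (Q i j * Q k l) • (c (e l) * c (e j)) = 0 := by
    rw [← Finset.sum_add_distrib]
    refine Finset.sum_eq_zero fun j _ => ?_
    rw [← Finset.sum_add_distrib]
    refine Finset.sum_eq_zero fun l _ => ?_
    rw [← smul_add, h1, smul_zero]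
  have s4 := h2 (e i) (e k)
  have hQ' : Q k i = Q i k := hQ.apply i k
  calc _ = (d (e i) * d (e k) + d (e k) * d (e i)) +
        (∑ j, Q k j • (d (e i) * c (e j)) + ∑ j, Q k j • (c (e j) * d (e i))) +
        (∑ j, Q i j • (c (e j) * d (e k)) + ∑ j, Q i j • (d (e k) * c (e j))) +
        (∑ j, ∑ l, (Q i j * Q k l) • (c (e j) * c (e l)) +
          ∑ j, ∑ l, (Q i j * Q k l) • (c (e l) * c (e j))) := by abel
    _ = _ := by
      rw [s1, s2, s3, s4, hQ', zero_add, add_zero, ← add_smul, two_mul]

/-- R1 polarized Clifford modules exist -/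
theorem exists_ksdata {B : Type} [Fintype B] [DecidableEq B] (X : K3Type B) :
    ∃ (C : Type) (_ : Fintype C) (_ : DecidableEq C), Nonempty C ∧ Nonempty (KSData X C) := by
  obtain ⟨C, hC1, hC2, hC3, Φ, hΦ⟩ := exists_cliff X.q X.sym
  refine ⟨C ⊕ C, inferInstance, inferInstance, inferInstance, ⟨{
    Φ := fun i => fromBlocks (Φ i) 0 0 (Φ i)ᵀ
    cliff := ?_
    E := fromBlocks 0 1 1 0
    nondeg := ?_
    pol := ?_ }⟩⟩
  · intro i j
    have h1 := hΦ i j
    have h2 := congrArg Matrix.transpose (hΦ j i)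
    rw [transpose_add, transpose_mul, transpose_mul, transpose_smul, transpose_one] at h2
    have h3 : X.q j i = X.q i j := X.sym.apply i j
    rw [h3] at h2
    simp only [fromBlocks_multiply, fromBlocks_add, zero_mul, mul_zero, add_zero, zero_add, h1, h2]
    rw [← fromBlocks_one, fromBlocks_smul, smul_zero]
  · have h : (fromBlocks 0 1 1 0 : Matrix (C ⊕ C) (C ⊕ C) ℚ) * fromBlocks 0 1 1 0 = 1 := by
      simp [fromBlocks_multiply, fromBlocks_one]
    intro h0
    have h1 := congrArg Matrix.det h
    rw [det_mul, h0, zero_mul, det_one] at h1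
    exact zero_ne_one h1
  · have hphi : ∀ v : B → ℂ, K3Type.phi (fun i => fromBlocks (Φ i) 0 0 (Φ i)ᵀ) v =
        fromBlocks (K3Type.phi Φ v) 0 0 (K3Type.phi Φ v)ᵀ := by
      intro v
      ext (a | a) (b | b) <;>
        simp [K3Type.phi, cm, Matrix.sum_apply]
    have hht : X.ht (fun i => fromBlocks (Φ i) 0 0 (Φ i)ᵀ) =
        fromBlocks (X.ht Φ) 0 0 (-(X.ht Φ)ᵀ) := by
      unfold K3Type.ht
      rw [hphi, hphi, fromBlocks_multiply, fromBlocks_multiply, sub_eq_add_neg, fromBlocks_neg,
        fromBlocks_add, fromBlocks_smul]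
      simp only [zero_mul, mul_zero, add_zero, zero_add, neg_zero, smul_zero, ← sub_eq_add_neg]
      congr 1
      rw [transpose_smul, transpose_sub, transpose_mul, transpose_mul, ← smul_neg, neg_sub]
    have hE : cm (fromBlocks 0 1 1 0 : Matrix (C ⊕ C) (C ⊕ C) ℚ) = fromBlocks 0 1 1 0 := by
      unfold cm
      rw [fromBlocks_map]
      congr 1
      all_goals ext a b; simp [Matrix.one_apply]
    rw [hht, hE, fromBlocks_transpose, fromBlocks_multiply, fromBlocks_multiply, fromBlocks_add]
    simp

end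

end Pool.Agent.N429.KS
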