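import Pool.Agent.N429.KS.Defs4
import Pool.Agent.N429.KS.Z12
import Pool.Agent.N429.KS.Z3

/-!
# R2 the theorem of Zarhin for products, forms on the `V_i` only, for given Clifford modules
(helper568)
-/

set_option linter.unusedSectionVars false
set_option autoImplicit false

open Matrix Finset Function

namespace Pool.Agent.N429.KS

noncomputable section

namespace R2

section one

variable {I : Type} [Fintype I] [DecidableEq I] {B C : I → Type} [∀ i, Fintype (B i)]
  [∀ i, DecidableEq (B i)] [∀ i, Fintype (C i)] [∀ i, DecidableEq (C i)]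
  (X : ∀ i, K3Type (B i)) (D : ∀ i, KSData (X i) (C i))

open Z12 in
/-- the theorem of Zarhin for the family, with the dimensions of the eigenspaces -/
theorem zarhinT_dim (hX : ∀ i, (X i).NonCM)
    (hXX : ∀ i j, i ≠ j → (∀ M : Matrix (B j) (B i) ℚ, cm M * (X i).h = (X j).h * cm M → M = 0) ∧
      Fintype.card (B i) ≠ 4 * Module.finrank ℚ (X i).endo) (i : I) :
    ∃ θ : Matrix (B i) (B i) ℚ, ((X i).q * θ).IsSymm ∧
    cm θ * (X i).h = (X i).h * cm θ ∧ Irreducible (minpoly ℚ θ) ∧
    (∀ r : ℂ, Polynomial.aeval r (minpoly ℚ θ) = 0 → Fintype.card (B i) =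
      Module.finrank ℚ (X i).endo *
        Module.finrank ℂ (Module.End.eigenspace (Matrix.toLin' (cm θ)) r)) ∧
    ∀ (r : ℂ) (x y : B i → ℂ), cm θ *ᵥ x = r • x → cm θ *ᵥ y = r • y →
      ∀ (S : Type) [Fintype S] [DecidableEq S] (f : (S → Tot B C) → ℚ), IsHodgeT X D f →
        der (place i (wedge (cm (X i).q) x y) ((X i).lft (D i).Φ (wedge (cm (X i).q) x y)))
          (cx f) = 0 := by
  obtain ⟨θ, r₀, T, hT⟩ := exists_per X D hX i
  have h4 := step4 hT (fun j hji => by
    obtain ⟨θ₂, r₂, T₂, hT₂⟩ := exists_per X D hX j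
    exact step2 (fun Q₁ Q₂ h1 h2 L P h3 h4 h5 h6 a1 a2 a3 a4 b1 b2 b3 b4 N₁ N₂ c1 c2 c3 c4 hh T₁ T₂
      d1 d2 d3 d4 e1 e2 f1 f2 g1 g2 i1 i2 j1 j2 => pair Q₁ Q₂ h1 h2 L P h3 h4 h5 h6 a1 a2 a3 a4 b1
      b2 b3 b4 N₁ N₂ c1 c2 c3 c4 hh T₁ T₂ d1 d2 d3 d4 e1 e2 f1 f2 g1 g2 i1 i2 j1 j2)
      hT hT₂ (hXX i j hji.symm).1 (hXX i j hji.symm).2 (hXX j i hji).2)
  refine ⟨θ, hT.sym, hT.com, hT.irr, ?_, ?_⟩
  · have hTe : Module.End.eigenspace (Matrix.toLin' (cm θ)) r₀ = T := by
      ext x
      rw [Module.End.mem_eigenspace_iff, Matrix.toLin'_apply, hT.mem]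
    have h1 := Z3.finrank_eigenspace θ hT.irr r₀ hT.root
    have h2 := hT.card
    rw [hTe, h2] at h1
    have h3 : Module.finrank ℚ (X i).endo = (minpoly ℚ θ).natDegree :=
      Nat.eq_of_mul_eq_mul_right (lt_of_lt_of_le (by norm_num) hT.dim) h1
    intro r hr
    rw [h3]
    exact Z3.finrank_eigenspace θ hT.irr r hr
  · intro r x y hx hy S _ _ f hf
    funext t
    rw [der_expand X D i x y f t]
    refine galois2 θ hT.irr r₀ hT.root (fun a b t => der (place (B := B) (C := C) i
        (wedge (X i).q (Pi.single a 1) (Pi.single b 1))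
        ((1 / 4 : ℚ) • ((D i).Φ a * (D i).Φ b - (D i).Φ b * (D i).Φ a))) f t) ?_ r x y hx hy t
    intro x y hx hy t
    rw [← der_expand X D i x y f t]
    exact congrFun (step5 (h4 x ((hT.mem x).2 hx) y ((hT.mem y).2 hy)) f hf) t

/-! ### Extension by zero of the forms on the `V_i` -/

/-- the basis vectors of the `V_i` -/
def inc (B C : I → Type) (p : Σ i, B i) : Tot B C := ⟨p.1, Sum.inl p.2⟩

lemma inc_inj : Function.Injective (inc B C) := by
  rintro ⟨i, b⟩ ⟨j, c⟩ h
  simp only [inc, Sigma.mk.injEq] at h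
  obtain ⟨rfl, h⟩ := h
  rw [heq_eq_eq, Sum.inl.injEq] at h
  rw [h]

variable {K : Type} [Field K]

/-- the extension by zero -/
def extS {S : Type} (f : (S → Σ i, B i) → K) : (S → Tot B C) → K :=
  Function.extend (fun J : S → Σ i, B i => inc B C ∘ J) f (fun _ => 0)

lemma extS_inc {S : Type} (f : (S → Σ i, B i) → K) (J : S → Σ i, B i) :
    extS (C := C) f (inc B C ∘ J) = f J :=
  (inc_inj.comp_left).extend_apply f _ J

lemma extS_zero {S : Type} (f : (S → Σ i, B i) → K) (J : S → Tot B C)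
    (h : ∃ s, ∀ p, J s ≠ inc B C p) : extS (C := C) f J = 0 := by
  obtain ⟨s, hs⟩ := h
  refine Function.extend_apply' f _ J ?_
  rintro ⟨J', hJ'⟩
  exact hs (J' s) (congrFun hJ' s).symm

lemma extS_cx {S : Type} (f : (S → Σ i, B i) → ℚ) :
    cx (extS (C := C) f) = extS (C := C) (cx f) := by
  funext J
  by_cases h : ∃ s, ∀ p, J s ≠ inc B C p
  · unfold cx
    rw [extS_zero _ _ h]
    rw [extS_zero _ _ h]
    simp
  · push Not at h
    choose J' hJ' using h
    have h1 : J = inc B C ∘ J' := funext hJ'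
    rw [h1]
    unfold cx
    rw [extS_inc, extS_inc]

/-- the derivation of an extension by zero, for an operator which preserves `⊕ V_i` and `⊕ H_i` -/
lemma der_extS (A : Matrix (Σ i, B i) (Σ i, B i) K) (A' : Matrix (Tot B C) (Tot B C) K)
    (h1 : ∀ p p', A' (inc B C p) (inc B C p') = A p p')
    (h2 : ∀ p r, (∀ p', r ≠ inc B C p') → A' (inc B C p) r = 0)
    {S : Type} [Fintype S] [DecidableEq S] (f : (S → Σ i, B i) → K) :
    der A' (extS (C := C) f) = extS (C := C) (der A f) := by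
  funext J
  by_cases h : ∃ s, ∀ p, J s ≠ inc B C p
  · rw [extS_zero _ _ h]
    obtain ⟨s, hs⟩ := h
    unfold der
    refine Finset.sum_eq_zero fun s' _ => Finset.sum_eq_zero fun b _ => ?_
    by_cases hss : s' = s
    · subst hss
      by_cases hb : ∃ p, b = inc B C p
      · obtain ⟨p, rfl⟩ := hb
        rw [h2 p _ hs, zero_mul]
      · push Not at hb
        rw [extS_zero, mul_zero]
        exact ⟨s', fun p => by rw [update_self]; exact hb p⟩
    · rw [extS_zero, mul_zero]
      exact ⟨s, fun p => by rw [update_of_ne (Ne.symm hss)]; exact hs p⟩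
  · push Not at h
    choose J' hJ' using h
    have h3 : J = inc B C ∘ J' := funext hJ'
    subst h3
    rw [extS_inc]
    unfold der
    refine Finset.sum_congr rfl fun s _ => ?_
    rw [← Finset.sum_subset (Finset.subset_univ (Finset.univ.image (inc B C)))]
    · rw [Finset.sum_image (fun _ _ _ _ h => inc_inj h)]
      refine Finset.sum_congr rfl fun p _ => ?_
      rw [Function.comp_apply, h1, ← Function.comp_update, extS_inc]
    · intro b _ hb
      rw [extS_zero, mul_zero]
      refine ⟨s, fun p => ?_⟩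
      rw [update_self]
      rintro rfl
      exact hb (Finset.mem_image_of_mem _ (Finset.mem_univ p))

lemma extS_eq_zero {S : Type} (f : (S → Σ i, B i) → K) (h : extS (C := C) f = 0) : f = 0 := by
  funext J
  have h1 := congrFun h (inc B C ∘ J)
  rw [extS_inc] at h1
  exact h1

lemma placeAll_inc (Y : ∀ i, Matrix (B i) (B i) K) (Z : ∀ i, Matrix (C i) (C i) K)
    (p p' : Σ i, B i) : placeAll Y Z (inc B C p) (inc B C p') = blockDiagonal' Y p p' := by
  obtain ⟨i, b⟩ := p
  obtain ⟨j, c⟩ := p'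
  unfold placeAll inc
  rw [blockDiagonal'_apply, blockDiagonal'_apply]
  by_cases h : i = j
  · subst h
    simp
  · simp [h]

lemma placeAll_inr (Y : ∀ i, Matrix (B i) (B i) K) (Z : ∀ i, Matrix (C i) (C i) K)
    (p : Σ i, B i) (r : Tot B C) (hr : ∀ p', r ≠ inc B C p') : placeAll Y Z (inc B C p) r = 0 := by
  obtain ⟨i, b⟩ := p
  obtain ⟨j, c | c⟩ := r
  · exact absurd rfl (hr ⟨j, c⟩)
  · unfold placeAll inc
    rw [blockDiagonal'_apply]
    by_cases h : i = j
    · subst h
      simp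
    · simp [h]

end one

end R2

section family

variable {I : Type} [Fintype I] [DecidableEq I] {B : I → Type} [∀ i, Fintype (B i)]
  [∀ i, DecidableEq (B i)] (X : ∀ i, K3Type (B i))

open R2 in
/-- R2 the theorem of Zarhin for products, forms on the `V_i` only -/
theorem zarhinV_of {C : I → Type} [∀ i, Fintype (C i)] [∀ i, DecidableEq (C i)]
    (D : ∀ i, KSData (X i) (C i)) (hX : ∀ i, (X i).NonCM)
    (hXX : ∀ i j, i ≠ j → (∀ M : Matrix (B j) (B i) ℚ, cm M * (X i).h = (X j).h * cm M → M = 0) ∧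
      Fintype.card (B i) ≠ 4 * Module.finrank ℚ (X i).endo) (i : I) :
    ∃ θ : Matrix (B i) (B i) ℚ, ((X i).q * θ).IsSymm ∧
    cm θ * (X i).h = (X i).h * cm θ ∧ Irreducible (minpoly ℚ θ) ∧
    (∀ r : ℂ, Polynomial.aeval r (minpoly ℚ θ) = 0 → Fintype.card (B i) =
      Module.finrank ℚ (X i).endo *
        Module.finrank ℂ (Module.End.eigenspace (Matrix.toLin' (cm θ)) r)) ∧
    ∀ (r : ℂ) (x y : B i → ℂ), cm θ *ᵥ x = r • x → cm θ *ᵥ y = r • y →
      ∀ (S : Type) [Fintype S] [DecidableEq S] (f : (S → Σ i, B i) → ℚ),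
        der (hS X) (cx f) = 0 →
        der (blockDiagonal' (Pi.single i (wedge (cm (X i).q) x y))) (cx f) = 0 := by
  obtain ⟨θ, h1, h2, h3, h4, h5⟩ := zarhinT_dim X D hX hXX i
  refine ⟨θ, h1, h2, h3, h4, ?_⟩
  intro r x y hx hy S _ _ f hf
  have h6 : IsHodgeT X D (extS (C := C) f) := by
    unfold IsHodgeT hT
    rw [extS_cx, der_extS (hS X) _ (fun p p' => placeAll_inc _ _ p p')
      (fun p r hr => placeAll_inr _ _ p r hr), hf]
    funext J
    by_cases h : ∃ s, ∀ p, J s ≠ inc B C p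
    · rw [extS_zero _ _ h]
      rfl
    · push Not at h
      choose J' hJ' using h
      have h1 : J = inc B C ∘ J' := funext hJ'
      rw [h1, extS_inc]
      rfl
  have h7 := h5 r x y hx hy S _ h6
  rw [extS_cx] at h7
  unfold place at h7
  rw [der_extS (blockDiagonal' (Pi.single i (wedge (cm (X i).q) x y))) _
    (fun p p' => placeAll_inc _ _ p p') (fun p r hr => placeAll_inr _ _ p r hr)] at h7
  exact extS_eq_zero _ h7

end family

end

end Pool.Agent.N429.KS
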