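import Pool.Agent.N429.KS.R1
import Pool.Agent.N429.KS.R2a

/-!
# R2 the theorem of Zarhin for products, forms on the `V_i` only (helper568)
-/

set_option linter.unusedSectionVars false

open Matrix Finset Function

namespace Pool.Agent.N429.KS

noncomputable section

section family

variable {I : Type} [Fintype I] [DecidableEq I] {B : I → Type} [∀ i, Fintype (B i)]
  [∀ i, DecidableEq (B i)] (X : ∀ i, K3Type (B i))

/-- R2 the theorem of Zarhin for products, forms on the `V_i` only -/
theorem zarhinV (hX : ∀ i, (X i).NonCM)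
    (hXX : ∀ i j, i ≠ j → (∀ M : Matrix (B j) (B i) ℚ, cm M * (X i).h = (X j).h * cm M → M = 0) ∧
      Fintype.card (B i) ≠ 4 * Module.finrank ℚ (X i).endo) (i : I) :
    ∃ θ : Matrix (B i) (B i) ℚ, ((X i).q * θ).IsSymm ∧
    cm θ * (X i).h = (X i).h * cm θ ∧ Irreducible (minpoly ℚ θ) ∧
    (∀ r : ℂ, Polynomial.aeval r (minpoly ℚ θ) = 0 → Fintype.card (B i) =
      Module.finrank ℚ (X i).endo *
        Module.finrank ℂ (Module.End.eigenspace (Matrix.toLin' (cm θ)) r)) ∧
    ∀ (r : ℂ) (x y : B i → ℂ), cm θ *ᵥ x = r • x → cm θ *ᵥ y = r • y →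
      ∀ (S : Type) [Fintype S] [DecidableEq S] (f : (S → Σ i, B i) → ℚ),
        der (hS X) (cx f) = 0 →
        der (blockDiagonal' (Pi.single i (wedge (cm (X i).q) x y))) (cx f) = 0 := by
  choose C hC1 hC2 hC3 hC4 using fun i => exists_ksdata (X i)
  exact zarhinV_of X (fun i => (hC4 i).some) hX hXX i

end family

end

end Pool.Agent.N429.KS
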