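import Pool.Agent.N429.KS.Defs2
import Pool.Agent.N429.KS.K5

/-!
# R3: the first fundamental theorem for several orthogonal sums
(helper427, for helper429)
-/

set_option linter.unusedSectionVars false
set_option autoImplicit false

open Matrix Finset Function

namespace Pool.Agent.N429.KS

noncomputable section

namespace R3aux

section ext

variable {K : Type} [Field K] {I : Type} {B : I → Type}

theorem sig_inj (i : I) (S : Type) :
    Injective (fun J : S → B i => (Sigma.mk i ∘ J : S → Σ i, B i)) := by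
  intro J J' h
  funext s
  have h1 := congrFun h s
  simp only [Function.comp_apply] at h1
  exact eq_of_heq (Sigma.mk.inj h1).2

theorem ext_apply (i : I) {S : Type} (f : (S → B i) → K) (J : S → B i) :
    extV (Sigma.mk i) f (Sigma.mk i ∘ J) = f J := by
  unfold extV
  exact (sig_inj i S).extend_apply f 0 J

theorem ext_zero (i : I) {S : Type} (f : (S → B i) → K) (J : S → Σ i, B i) (s : S)
    (h : (J s).1 ≠ i) : extV (Sigma.mk i) f J = 0 := by
  unfold extV
  rw [Function.extend_apply' _ _ _ ?_]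
  · rfl
  · rintro ⟨J0, hJ⟩
    apply h
    have := congrFun hJ s
    rw [← this]
    rfl

theorem ext_cases (i : I) {S : Type} (J : S → Σ i, B i) :
    (∃ J0 : S → B i, J = Sigma.mk i ∘ J0) ∨ ∃ s, (J s).1 ≠ i := by
  by_cases h : ∃ s, (J s).1 ≠ i
  · exact Or.inr h
  · left
    push Not at h
    have h1 : ∀ s, ∃ b : B i, J s = ⟨i, b⟩ := by
      intro s
      have h2 := h s
      rcases hJ : J s with ⟨j, b⟩
      rw [hJ] at h2
      simp only at h2
      subst h2
      exact ⟨b, rfl⟩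
    choose J0 hJ0 using h1
    exact ⟨J0, funext hJ0⟩

end ext

section fam

variable {I : Type} [Fintype I] [DecidableEq I] {B : I → Type} [∀ i, Fintype (B i)]
  [∀ i, DecidableEq (B i)] {K : Type} [Field K] {ι : I → Type} [∀ i, DecidableEq (ι i)]

/-- the blocks of the sum -/
def kap (κ : ∀ i, B i → ι i) (b : Σ i, B i) : Σ i, ι i := ⟨b.1, κ b.1 b.2⟩

theorem kap_eq (κ : ∀ i, B i → ι i) (b : Σ i, B i) (i : I) (r : ι i) (h : kap κ b = ⟨i, r⟩) :
    b.1 = i := congrArg Sigma.fst h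

theorem kap_mk (κ : ∀ i, B i → ι i) (i : I) (b : B i) (r : ι i) :
    kap κ ⟨i, b⟩ = ⟨i, r⟩ ↔ κ i b = r := by
  constructor
  · intro h
    exact eq_of_heq (Sigma.mk.inj h).2
  · intro h
    unfold kap
    simp only
    rw [h]

theorem delta_eq (κ : ∀ i, B i → ι i) (i : I) (r : ι i) :
    delta (K := K) (kap κ) ⟨i, r⟩ = extV (Sigma.mk i) (delta (K := K) (κ i) r) := by
  funext J
  rcases ext_cases i J with ⟨J0, rfl⟩ | ⟨s, hs⟩
  · rw [ext_apply]
    unfold delta
    simp only [Function.comp_apply]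
    have h1 : ((⟨i, J0 0⟩ : Σ i, B i) = ⟨i, J0 1⟩) ↔ J0 0 = J0 1 := by
      constructor
      · intro h
        exact eq_of_heq (Sigma.mk.inj h).2
      · intro h
        rw [h]
    have h2 := kap_mk κ i (J0 0) r
    by_cases h3 : J0 0 = J0 1 ∧ κ i (J0 0) = r
    · rw [if_pos h3, if_pos ⟨h1.2 h3.1, h2.2 h3.2⟩]
    · rw [if_neg h3, if_neg (fun h => h3 ⟨h1.1 h.1, h2.1 h.2⟩)]
  · rw [ext_zero i _ J s hs]
    unfold delta
    rw [if_neg]
    rintro ⟨h1, h2⟩
    have h3 := kap_eq κ _ i r h2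
    apply hs
    fin_cases s
    · exact h3
    · show (J 1).1 = i
      rw [← h1]
      exact h3

/-- the block of the sum -/
def blkE (κ : ∀ i, B i → ι i) (i : I) (r : ι i) :
    {b : B i // κ i b = r} ≃ {b : Σ i, B i // kap κ b = ⟨i, r⟩} :=
  Equiv.ofBijective (fun b => ⟨⟨i, b.1⟩, (kap_mk κ i b.1 r).2 b.2⟩) (by
    constructor
    · intro b b' h
      have h1 := congrArg Subtype.val h
      simp only at h1
      exact Subtype.ext (eq_of_heq (Sigma.mk.inj h1).2)
    · rintro ⟨⟨j, b⟩, hb⟩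
      have h1 := kap_eq κ _ i r hb
      simp only at h1
      subst h1
      exact ⟨⟨b, (kap_mk κ j b r).1 hb⟩, rfl⟩)

theorem blkE_val (κ : ∀ i, B i → ι i) (i : I) (r : ι i) (b : {b : B i // κ i b = r}) :
    (blkE κ i r b).1 = ⟨i, b.1⟩ := rfl

theorem detf_eq (κ : ∀ i, B i → ι i) (i : I) (r : ι i)
    (J : {b : Σ i, B i // kap κ b = ⟨i, r⟩} → Σ i, B i) :
    detf (K := K) (kap κ) ⟨i, r⟩ J =
      extV (Sigma.mk i) (detf (K := K) (κ i) r) (J ∘ blkE κ i r) := by
  have e1 : detf (K := K) (kap κ) ⟨i, r⟩ J =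
      Matrix.det (Matrix.of fun a b : {b : B i // κ i b = r} =>
        if J (blkE κ i r a) = ⟨i, b.1⟩ then (1 : K) else 0) := by
    unfold detf
    rw [← Matrix.det_submatrix_equiv_self (blkE κ i r)]
    rfl
  rw [e1]
  rcases ext_cases i (J ∘ blkE κ i r) with ⟨J0, hJ0⟩ | ⟨a, ha⟩
  · rw [hJ0, ext_apply]
    unfold detf
    congr 1
    ext a b
    simp only [Matrix.of_apply]
    have h1 : J (blkE κ i r a) = ⟨i, J0 a⟩ := congrFun hJ0 a
    rw [h1]
    have h2 : ((⟨i, J0 a⟩ : Σ i, B i) = ⟨i, b.1⟩) ↔ J0 a = b.1 := by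
      constructor
      · intro h
        exact eq_of_heq (Sigma.mk.inj h).2
      · intro h
        rw [h]
    by_cases h3 : J0 a = b.1
    · rw [if_pos h3, if_pos (h2.2 h3)]
    · rw [if_neg h3, if_neg (fun h => h3 (h2.1 h))]
  · rw [ext_zero i _ _ a ha]
    refine Matrix.det_eq_zero_of_row_eq_zero a fun b => ?_
    simp only [Matrix.of_apply]
    rw [if_neg]
    intro h
    apply ha
    show (J (blkE κ i r a)).1 = i
    rw [h]

theorem single_eq (i : I) (a b : B i) :
    (blockDiagonal' (Pi.single i (Matrix.single a b (1 : K) - Matrix.single b a 1)) :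
      Matrix (Σ i, B i) (Σ i, B i) K) =
      Matrix.single ⟨i, a⟩ ⟨i, b⟩ 1 - Matrix.single ⟨i, b⟩ ⟨i, a⟩ 1 := by
  ext ⟨k, x⟩ ⟨l, y⟩
  rw [Matrix.blockDiagonal'_apply]
  simp only [Matrix.sub_apply, Matrix.single_apply]
  by_cases hkl : k = l
  · subst hkl
    rw [dif_pos rfl]
    by_cases hik : i = k
    · subst hik
      rw [Pi.single_eq_same]
      simp only [Matrix.sub_apply, Matrix.single_apply, cast_eq]
      have h1 : ∀ u v : B i, ((⟨i, u⟩ : Σ i, B i) = ⟨i, v⟩) ↔ u = v := by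
        intro u v
        constructor
        · intro h
          exact eq_of_heq (Sigma.mk.inj h).2
        · intro h
          rw [h]
      simp only [h1]
    · rw [Pi.single_eq_of_ne (Ne.symm hik)]
      have h1 : ∀ (u : B i) (v : B k), ((⟨i, u⟩ : Σ i, B i) = ⟨k, v⟩) ↔ False := by
        intro u v
        constructor
        · intro h
          exact hik (Sigma.mk.inj h).1
        · exact False.elim
      simp only [h1, false_and, if_false, sub_zero]
      rfl
  · rw [dif_neg hkl]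
    have h1 : ∀ (u v : B i), ¬ ((⟨i, u⟩ : Σ i, B i) = ⟨k, x⟩ ∧ (⟨i, v⟩ : Σ i, B i) = ⟨l, y⟩) := by
      rintro u v ⟨h, h'⟩
      exact hkl ((Sigma.mk.inj h).1.symm.trans (Sigma.mk.inj h').1)
    rw [if_neg (h1 a b), if_neg (h1 b a), sub_zero]

end fam

end R3aux

section family

variable {I : Type} [Fintype I] [DecidableEq I] {B : I → Type} [∀ i, Fintype (B i)]
  [∀ i, DecidableEq (B i)]

/-- R3 the invariants of the blocks in each factor: from generators to all forms -/
theorem fft_sigma {K : Type} [Field K] [CharZero K] {ι : I → Type} [∀ i, DecidableEq (ι i)]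
    (𝒮 : Sys K (Σ i, B i)) (κ : ∀ i, B i → ι i)
    (h2 : ∀ i r, extV (Sigma.mk i) (delta (K := K) (κ i) r) ∈ 𝒮.Alg (Fin 2))
    (hd : ∀ i r, extV (Sigma.mk i) (detf (K := K) (κ i) r) ∈ 𝒮.Alg {b : B i // κ i b = r})
    (S : Type) [Fintype S] [DecidableEq S] (f : (S → Σ i, B i) → K)
    (hf : ∀ i a b, κ i a = κ i b → der (blockDiagonal'
      (Pi.single i (Matrix.single a b (1 : K) - Matrix.single b a 1))) f = 0) :
    f ∈ 𝒮.Alg S := by
  refine fft 𝒮 (R3aux.kap κ) ?_ ?_ S f ?_
  · rintro ⟨i, r⟩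
    rw [R3aux.delta_eq]
    exact h2 i r
  · rintro ⟨i, r⟩
    have h1 := 𝒮.re (R3aux.blkE κ i r) (hd i r)
    have h3 : (fun J : {b : Σ i, B i // R3aux.kap κ b = ⟨i, r⟩} → Σ i, B i =>
        extV (Sigma.mk i) (detf (K := K) (κ i) r) (J ∘ R3aux.blkE κ i r)) =
        detf (K := K) (R3aux.kap κ) ⟨i, r⟩ := by
      funext J
      exact (R3aux.detf_eq κ i r J).symm
    rw [h3] at h1
    exact h1
  · rintro ⟨i, a⟩ ⟨j, b⟩ hab
    have hij : i = j := congrArg Sigma.fst hab
    subst hij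
    have h1 : κ i a = κ i b := eq_of_heq (Sigma.mk.inj hab).2
    rw [← R3aux.single_eq]
    exact hf i a b h1

end family

end

end Pool.Agent.N429.KS
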