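import Pool.Agent.N429.KS.Defs4
import Pool.Agent.N429.KS.Q3
import Pool.Agent.N429.KS.R3

/-!
# R4: generation of the Hodge classes on products of powers, from the theorem of Zarhin and the
first fundamental theorem (helper314)
-/

set_option linter.unusedSectionVars false

open Matrix Finset Function

namespace Pool.Agent.N429.KS

noncomputable section

namespace R4

variable {I : Type} [Fintype I] [DecidableEq I] {B : I → Type} [∀ i, Fintype (B i)]
  [∀ i, DecidableEq (B i)]

/-! ### extension by zero -/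

/-- extension by zero as a linear map -/
def extL (K : Type) [Field K] (i : I) (S : Type) :
    ((S → B i) → K) →ₗ[K] ((S → Σ i, B i) → K) where
  toFun := extV (Sigma.mk i)
  map_add' f g := by
    funext J
    rcases R3aux.ext_cases i J with ⟨J0, rfl⟩ | ⟨s, hs⟩
    · rw [Pi.add_apply, R3aux.ext_apply, R3aux.ext_apply, R3aux.ext_apply]
      rfl
    · rw [Pi.add_apply, R3aux.ext_zero i _ J s hs, R3aux.ext_zero i _ J s hs,
        R3aux.ext_zero i _ J s hs, add_zero]
  map_smul' c f := by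
    funext J
    rcases R3aux.ext_cases i J with ⟨J0, rfl⟩ | ⟨s, hs⟩
    · rw [Pi.smul_apply, R3aux.ext_apply, R3aux.ext_apply]
      rfl
    · rw [Pi.smul_apply, R3aux.ext_zero i _ J s hs, R3aux.ext_zero i _ J s hs, smul_zero]

theorem extV_cx (i : I) {S : Type} (g : (S → B i) → ℚ) :
    extV (Sigma.mk i) (cx g) = cx (extV (Sigma.mk i) g) := by
  funext J
  unfold cx
  rcases R3aux.ext_cases i J with ⟨J0, rfl⟩ | ⟨s, hs⟩
  · rw [R3aux.ext_apply, R3aux.ext_apply]
  · rw [R3aux.ext_zero i _ J s hs, R3aux.ext_zero i _ J s hs, Rat.cast_zero]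

theorem extV_re {K : Type} [Field K] (i : I) {S T : Type} (e : S ≃ T) (g : (S → B i) → K) :
    extV (Sigma.mk i) (fun J : T → B i => g (J ∘ e)) =
      fun J : T → Σ i, B i => extV (Sigma.mk i) g (J ∘ e) := by
  funext J
  rcases R3aux.ext_cases i J with ⟨J0, rfl⟩ | ⟨s, hs⟩
  · rw [R3aux.ext_apply]
    exact (R3aux.ext_apply i g (J0 ∘ e)).symm
  · rw [R3aux.ext_zero i _ J s hs, R3aux.ext_zero i _ (J ∘ e) (e.symm s)]
    rw [Function.comp_apply, Equiv.apply_symm_apply]
    exact hs

/-- block diagonal changes of coordinates commute with the extension by zero -/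
theorem chg_ext {K : Type} [Field K] (U : ∀ i, Matrix (B i) (B i) K) (i : I) {S : Type} [Fintype S]
    [DecidableEq S] (g : (S → B i) → K) :
    chg (blockDiagonal' U) (extV (Sigma.mk i) g) = extV (Sigma.mk i) (chg (U i) g) := by
  funext J
  have h1 : chg (blockDiagonal' U) (extV (Sigma.mk i) g) J =
      ∑ J0 : S → B i, (∏ s, blockDiagonal' U ⟨i, J0 s⟩ (J s)) • g J0 := by
    unfold chg
    symm
    refine Fintype.sum_of_injective (fun J0 : S → B i => (Sigma.mk i ∘ J0 : S → Σ i, B i))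
      (R3aux.sig_inj i S) _ _ ?_ ?_
    · intro J' hJ'
      rcases R3aux.ext_cases i J' with ⟨J0, rfl⟩ | ⟨s, hs⟩
      · exact absurd ⟨J0, rfl⟩ hJ'
      · rw [R3aux.ext_zero i _ J' s hs, smul_zero]
    · intro J0
      rw [R3aux.ext_apply]
      rfl
  rw [h1]
  rcases R3aux.ext_cases i J with ⟨J1, rfl⟩ | ⟨s, hs⟩
  · rw [R3aux.ext_apply]
    unfold chg
    refine Finset.sum_congr rfl fun J0 _ => ?_
    congr 1
    refine Finset.prod_congr rfl fun s _ => ?_
    exact Matrix.blockDiagonal'_apply_eq U i (J0 s) (J1 s)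
  · rw [R3aux.ext_zero i _ J s hs]
    refine Finset.sum_eq_zero fun J0 _ => ?_
    have h2 : ∏ s, blockDiagonal' U ⟨i, J0 s⟩ (J s) = 0 := by
      refine Finset.prod_eq_zero (Finset.mem_univ s) ?_
      rcases hJ : J s with ⟨j, b⟩
      rw [hJ] at hs
      exact Matrix.blockDiagonal'_apply_ne U (J0 s) b (Ne.symm hs)
    rw [h2, zero_smul]

/-- complex Hodge classes of a factor are in a system which contains the rational ones -/
theorem mem_ext (i : I) (X : K3Type (B i)) (𝒜 : Sys ℚ (Σ i, B i)) (𝒞 : Calc ℂ (Σ i, B i) Empty)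
    (hC : ∀ S : Type, 𝒞.Alg S =
      Submodule.span ℂ (cx '' (𝒜.Alg S : Set ((S → Σ i, B i) → ℚ))))
    {S : Type} [Fintype S] [DecidableEq S]
    (h : ∀ f : (S → B i) → ℚ, X.IsHodge f → extV (Sigma.mk i) f ∈ 𝒜.Alg S) {f : (S → B i) → ℂ}
    (hf : f ∈ Submodule.span ℂ (cx '' {g : (S → B i) → ℚ | X.IsHodge g})) :
    extV (Sigma.mk i) f ∈ 𝒞.Alg S := by
  have h1 : extL ℂ i S f ∈ Submodule.map (extL ℂ i S)
      (Submodule.span ℂ (cx '' {g : (S → B i) → ℚ | X.IsHodge g})) :=
    Submodule.mem_map_of_mem hf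
  rw [Submodule.map_span] at h1
  rw [hC]
  refine Submodule.span_mono ?_ h1
  rintro _ ⟨_, ⟨g, hg, rfl⟩, rfl⟩
  exact ⟨extV (Sigma.mk i) g, h g hg, (extV_cx i g).symm⟩

theorem bd_mul_one {K : Type} [Field K] (W U : ∀ i, Matrix (B i) (B i) K)
    (h : ∀ i, W i * U i = 1) : blockDiagonal' W * blockDiagonal' U = 1 := by
  rw [← Matrix.blockDiagonal'_mul]
  have h1 : (fun k => W k * U k) = (1 : ∀ i, Matrix (B i) (B i) K) := funext h
  rw [h1, Matrix.blockDiagonal'_one]

/-- conjugation of an operator of one factor -/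
theorem bd_single {K : Type} [Field K] (W : ∀ i, Matrix (B i) (B i) K) (i : I)
    (Z Z' : Matrix (B i) (B i) K) (h : W i * Z = Z' * W i) :
    blockDiagonal' W * blockDiagonal' (Pi.single i Z) =
      blockDiagonal' (Pi.single i Z') * blockDiagonal' W := by
  rw [← Matrix.blockDiagonal'_mul, ← Matrix.blockDiagonal'_mul]
  congr 1
  funext k
  by_cases hk : k = i
  · subst hk
    rw [Pi.single_eq_same, Pi.single_eq_same, h]
  · rw [Pi.single_eq_of_ne hk, Pi.single_eq_of_ne hk, Matrix.mul_zero, Matrix.zero_mul]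

/-- generation of the Hodge classes from the conclusion of the theorem of Zarhin -/
theorem generated_of (X : ∀ i, K3Type (B i))
    (hz : ∀ i, ∃ θ : Matrix (B i) (B i) ℚ, ((X i).q * θ).IsSymm ∧
      cm θ * (X i).h = (X i).h * cm θ ∧ Irreducible (minpoly ℚ θ) ∧
      (∀ r : ℂ, Polynomial.aeval r (minpoly ℚ θ) = 0 → Fintype.card (B i) =
        Module.finrank ℚ (X i).endo *
          Module.finrank ℂ (Module.End.eigenspace (Matrix.toLin' (cm θ)) r)) ∧
      ∀ (r : ℂ) (x y : B i → ℂ), cm θ *ᵥ x = r • x → cm θ *ᵥ y = r • y →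
        ∀ (S : Type) [Fintype S] [DecidableEq S] (f : (S → Σ i, B i) → ℚ),
          der (hS X) (cx f) = 0 →
          der (blockDiagonal' (Pi.single i (wedge (cm (X i).q) x y))) (cx f) = 0)
    (𝒜 : Sys ℚ (Σ i, B i)) (m : I → ℕ)
    (hm : ∀ i, Fintype.card (B i) = Module.finrank ℚ (X i).endo * m i)
    (h2 : ∀ i (f : (Fin 2 → B i) → ℚ), (X i).IsHodge f → extV (Sigma.mk i) f ∈ 𝒜.Alg (Fin 2))
    (hdet : ∀ i (f : (Fin (m i) → B i) → ℚ), (X i).IsHodge f →
      extV (Sigma.mk i) f ∈ 𝒜.Alg (Fin (m i)))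
    {S : Type} [Fintype S] [DecidableEq S] (f : (S → Σ i, B i) → ℚ)
    (hf : der (hS X) (cx f) = 0) : f ∈ 𝒜.Alg S := by
  classical
  choose θ hθs hθh hirr hdim hz using hz
  choose U κ hU hκ using fun i =>
    orth (X i).q (θ i) (X i).sym (X i).nondeg (hθs i) (hirr i).squarefree
  obtain ⟨𝒞, hCA, -⟩ := exists_cplx (Q3a.calcOf 𝒜)
  obtain ⟨𝒜', hA', -⟩ := exists_chg 𝒞 (blockDiagonal' U)
  choose W hWU hUW using fun i =>
    Q3b.inv_of (X i).q (X i).nondeg (U i) 1 (by rw [Matrix.mul_one, hU])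
  have hq : ∀ i c, cm (X i).q *ᵥ (fun k => W i k c) = fun k => U i c k := by
    intro i c
    have h1 : cm (X i).q * W i = (U i)ᵀ := by rw [← hU, Matrix.mul_assoc, hUW, Matrix.mul_one]
    funext k
    have h2 := congrFun (congrFun h1 k) c
    rw [Matrix.mul_apply, Matrix.transpose_apply] at h2
    exact h2
  have heig := fun i => Q3b.eig_cols (cm (θ i)) (U i) (W i) (κ i) (hWU i) (hUW i) (hκ i)
  have hdel : ∀ i r, extV (Sigma.mk i) (delta (κ i) r) ∈ 𝒜'.Alg (Fin 2) := by
    intro i r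
    rw [hA', chg_ext]
    exact mem_ext i (X i) 𝒜 𝒞 hCA (h2 i)
      (inv_span (X i) (θ i) (hθs i) (hθh i) (U i) (κ i) (hU i) (hκ i) _
        (Q3a.invB_delta (κ i) r))
  have hd : ∀ i r, extV (Sigma.mk i) (detf (κ i) r) ∈ 𝒜'.Alg {b : B i // κ i b = r} := by
    intro i r
    by_cases hi : Nonempty {b : B i // κ i b = r}
    · obtain ⟨⟨b, hb⟩⟩ := hi
      have hr : Polynomial.aeval r (minpoly ℚ (θ i)) = 0 := by
        rw [← hb]
        exact Q3b.root_of (θ i) (heig i b) (Q3b.col_ne (U i) (W i) (hUW i) b)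
      have hcard := hdim i r hr
      rw [Q3a.card_block (cm (θ i)) (U i) (W i) (κ i) (hWU i) (hUW i) (hκ i) r, hm] at hcard
      have h0 : Module.finrank ℚ (X i).endo ≠ 0 := by
        intro h
        have h1 := hm i
        rw [h, zero_mul] at h1
        have hne : Nonempty (B i) := ⟨b⟩
        exact Fintype.card_ne_zero h1
      have hmc : m i = Fintype.card {b : B i // κ i b = r} :=
        Nat.eq_of_mul_eq_mul_left (Nat.pos_of_ne_zero h0) hcard
      have e : Fin (m i) ≃ {b : B i // κ i b = r} := (Fintype.equivFinOfCardEq hmc.symm).symm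
      rw [hA', chg_ext]
      refine mem_ext i (X i) 𝒜 𝒞 hCA (fun g hg => ?_)
        (inv_span (X i) (θ i) (hθs i) (hθh i) (U i) (κ i) (hU i) (hκ i) _
          (Q3a.invB_detf (κ i) r))
      have h3 := 𝒜.re e (hdet i _ (Q3a.hodge_re (X i) e.symm hg))
      have h4 : (fun J : {b : B i // κ i b = r} → Σ i, B i =>
          extV (Sigma.mk i) (fun J : Fin (m i) → B i => g (J ∘ e.symm)) (J ∘ e)) =
          extV (Sigma.mk i) g := by
        rw [extV_re i e.symm g]
        funext J
        show extV (Sigma.mk i) g ((J ∘ e) ∘ e.symm) = _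
        congr 1
        funext t
        simp
      rw [← h4]
      exact h3
    · rw [not_nonempty_iff] at hi
      have h3 := 𝒜'.re (Equiv.equivOfIsEmpty Empty {b : B i // κ i b = r}) 𝒜'.one
      have h4 : extV (Sigma.mk i) (detf (κ i) r) =
          fun _ : {b : B i // κ i b = r} → Σ i, B i => (1 : ℂ) := by
        funext J
        have hJ : J = Sigma.mk i ∘ (fun s => (hi.false s).elim) :=
          funext fun s => (hi.false s).elim
        rw [hJ, R3aux.ext_apply]
        unfold detf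
        exact Matrix.det_isEmpty
      rw [h4]
      exact h3
  have hinv : ∀ i a b, κ i a = κ i b → der (blockDiagonal'
      (Pi.single i (Matrix.single a b (1 : ℂ) - Matrix.single b a 1)))
      (chg (blockDiagonal' W) (cx f)) = 0 := by
    intro i a b hab
    have h1 := hz i (κ i a) (fun k => W i k a) (fun k => W i k b)
      (heig i a) (by rw [hab]; exact heig i b) S f hf
    have h3 := chg_der (blockDiagonal' W) _ _
      (bd_single W i _ _ (Q3b.wedge_cols (cm (X i).q) (U i) (W i) id (hUW i) (hq i) a b)) (cx f)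
    rw [h1, chg_zero] at h3
    exact h3.symm
  have hfin := fft_sigma (ι := fun _ => ℂ) 𝒜'.toSys κ hdel hd S (chg (blockDiagonal' W) (cx f)) hinv
  exact Q3b.finish 𝒜 (blockDiagonal' U) (blockDiagonal' W) (bd_mul_one W U hWU) 𝒞 hCA f
    ((hA' S (chg (blockDiagonal' W) (cx f))).1 hfin)

end R4

end

end Pool.Agent.N429.KS
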