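import Pool.Agent.N429.KS.R2
import Pool.Agent.N429.KS.R4a

/-!
# R4: generation of the Hodge classes on products of powers of K3 surfaces without complex
multiplication (helper314)
-/

set_option linter.unusedSectionVars false

open Matrix Finset Function

namespace Pool.Agent.N429.KS

noncomputable section

section family

variable {I : Type} [Fintype I] [DecidableEq I] {B : I → Type} [∀ i, Fintype (B i)]
  [∀ i, DecidableEq (B i)] (X : ∀ i, K3Type (B i))

/-- R4 (from R2, R3, Q1) generation of the Hodge classes on products of powers -/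
theorem generated_noncm (hX : ∀ i, (X i).NonCM)
    (hXX : ∀ i j, i ≠ j → (∀ M : Matrix (B j) (B i) ℚ, cm M * (X i).h = (X j).h * cm M → M = 0) ∧
      Fintype.card (B i) ≠ 4 * Module.finrank ℚ (X i).endo)
    (𝒜 : Sys ℚ (Σ i, B i)) (m : I → ℕ)
    (hm : ∀ i, Fintype.card (B i) = Module.finrank ℚ (X i).endo * m i)
    (h2 : ∀ i (f : (Fin 2 → B i) → ℚ), (X i).IsHodge f → extV (Sigma.mk i) f ∈ 𝒜.Alg (Fin 2))
    (hdet : ∀ i (f : (Fin (m i) → B i) → ℚ), (X i).IsHodge f →
      extV (Sigma.mk i) f ∈ 𝒜.Alg (Fin (m i)))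
    {S : Type} [Fintype S] [DecidableEq S] (f : (S → Σ i, B i) → ℚ)
    (hf : der (hS X) (cx f) = 0) : f ∈ 𝒜.Alg S :=
  R4.generated_of X (fun i => zarhinV X hX hXX i) 𝒜 m hm h2 hdet f hf

end family

end

end Pool.Agent.N429.KS
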