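import Pool.Agent.N429.KS.Defs4
import Pool.Agent.N429.KS.R4
import Pool.Agent.N429.KS.Q3

/-!
# Generation of the Hodge classes on products of powers of several K3 surfaces (KS6/R5, helper403)
-/

set_option linter.unusedSectionVars false

open Matrix Finset Function

namespace Pool.Agent.N429.KS

noncomputable section

namespace R5

section

variable {K : Type} [Field K] {B W : Type} (u : B ≃ W)

theorem extV_equiv {S : Type} (f : (S → B) → K) (J : S → W) :
    extV u f J = f (u.symm ∘ J) := by
  have h : Function.Injective (fun J : S → B => u ∘ J) := by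
    intro J J' hJ
    funext s
    exact u.injective (congrFun hJ s)
  have h2 : (u ∘ (u.symm ∘ J) : S → W) = J := by
    funext s
    simp
  have h3 : extV u f (u ∘ (u.symm ∘ J)) = f (u.symm ∘ J) := h.extend_apply f 0 (u.symm ∘ J)
  rw [h2] at h3
  exact h3

/-- the extension as a linear map -/
def extL (S : Type) : ((S → B) → K) →ₗ[K] ((S → W) → K) where
  toFun f := extV u f
  map_add' f g := by
    funext J
    rw [Pi.add_apply, extV_equiv, extV_equiv, extV_equiv, Pi.add_apply]
  map_smul' c f := by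
    funext J
    rw [RingHom.id_apply, Pi.smul_apply, extV_equiv, extV_equiv, Pi.smul_apply]

theorem extL_apply (S : Type) (f : (S → B) → K) : extL u S f = extV u f := rfl

/-- the system induced on a space with bijective coordinates -/
def sysE (𝒜 : Sys K W) : Sys K B where
  Alg S := (𝒜.Alg S).comap (extL u S)
  one := by
    rw [Submodule.mem_comap, extL_apply]
    have h : extV u (fun _ => 1 : (Empty → B) → K) = fun _ => 1 := by
      funext J
      rw [extV_equiv]
    rw [h]
    exact 𝒜.one
  re := by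
    intro S T _ _ e f hf
    rw [Submodule.mem_comap, extL_apply] at hf ⊢
    have h : extV u (fun J : T → B => f (J ∘ e)) = fun J : T → W => extV u f (J ∘ e) := by
      funext J
      rw [extV_equiv, extV_equiv]
      rfl
    rw [h]
    exact 𝒜.re e hf
  mul := by
    intro S T _ _ f g hf hg
    rw [Submodule.mem_comap, extL_apply] at hf hg ⊢
    have h : extV u (fun J : S ⊕ T → B => f (J ∘ Sum.inl) * g (J ∘ Sum.inr)) =
        fun J : S ⊕ T → W => extV u f (J ∘ Sum.inl) * extV u g (J ∘ Sum.inr) := by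
      funext J
      rw [extV_equiv, extV_equiv, extV_equiv]
      rfl
    rw [h]
    exact 𝒜.mul hf hg

end

end R5

section family

variable {I : Type} [Fintype I] [DecidableEq I] {B : I → Type} [∀ i, Fintype (B i)]
  [∀ i, DecidableEq (B i)] (X : ∀ i, K3Type (B i))

/-- R5 (from R4 and `hodge_generated`) -/
theorem generated_all (hXX : ∀ i j, i ≠ j → (X i).NonCM ∧
      (∀ M : Matrix (B j) (B i) ℚ, cm M * (X i).h = (X j).h * cm M → M = 0) ∧
      Fintype.card (B i) ≠ 4 * Module.finrank ℚ (X i).endo)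
    (𝒜 : Sys ℚ (Σ i, B i)) (m : I → ℕ)
    (hm : ∀ i, Fintype.card (B i) = Module.finrank ℚ (X i).endo * m i)
    (h2 : ∀ i (f : (Fin 2 → B i) → ℚ), (X i).IsHodge f → extV (Sigma.mk i) f ∈ 𝒜.Alg (Fin 2))
    (hdet : ∀ i, (X i).NonCM → ∀ f : (Fin (m i) → B i) → ℚ, (X i).IsHodge f →
      extV (Sigma.mk i) f ∈ 𝒜.Alg (Fin (m i)))
    {S : Type} [Fintype S] [DecidableEq S] (f : (S → Σ i, B i) → ℚ)
    (hf : der (hS X) (cx f) = 0) : f ∈ 𝒜.Alg S := by
  by_cases hI : ∀ i, (X i).NonCM
  · exact generated_noncm X hI (fun i j hij => (hXX i j hij).2) 𝒜 m hm h2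
      (fun i => hdet i (hI i)) f hf
  push Not at hI
  obtain ⟨i, hi⟩ := hI
  have hall : ∀ j, j = i := by
    intro j
    by_contra hj
    exact hi (hXX i j (Ne.symm hj)).1
  -- the only factor
  have hbij : Function.Bijective (Sigma.mk i : B i → Σ i, B i) := by
    refine ⟨sigma_mk_injective, ?_⟩
    rintro ⟨j, b⟩
    obtain rfl := hall j
    exact ⟨b, rfl⟩
  obtain ⟨u, hu⟩ : ∃ u : B i ≃ Σ i, B i, ∀ b, u b = ⟨i, b⟩ := ⟨Equiv.ofBijective _ hbij, fun _ => rfl⟩
  have hu' : (u : B i → Σ i, B i) = Sigma.mk i := funext hu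
  obtain ⟨g, hg⟩ : ∃ g : (S → B i) → ℚ, g = fun J => f (u ∘ J) := ⟨_, rfl⟩
  have hfg : f = extV u g := by
    funext J
    rw [R5.extV_equiv, hg]
    congr 1
    funext s
    simp
  have hgH : (X i).IsHodge g := by
    unfold K3Type.IsHodge
    funext J
    have h1 := congrFun hf (u ∘ J)
    rw [Pi.zero_apply] at h1 ⊢
    rw [← h1]
    unfold der
    refine Finset.sum_congr rfl fun s _ => ?_
    rw [← Equiv.sum_comp u]
    refine Finset.sum_congr rfl fun b _ => ?_
    have h3 : hS X (u b) ((u ∘ J) s) = (X i).h b (J s) := by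
      rw [Function.comp_apply, hu, hu, hS, blockDiagonal'_apply_eq]
    have h4 : cx f (update (u ∘ J) s (u b)) = cx g (update J s b) := by
      unfold cx
      rw [hg]
      have h5 : update (u ∘ J) s (u b) = u ∘ update J s b := by
        rw [Function.comp_update]
      rw [h5]
    rw [h3, h4]
  have hmain := hodge_generated (X i) (R5.sysE u 𝒜) (m i) (hm i)
    (fun f' hf' => by
      show extV u f' ∈ 𝒜.Alg (Fin 2)
      rw [hu']
      exact h2 i f' hf')
    (fun hN f' hf' => by
      show extV u f' ∈ 𝒜.Alg (Fin (m i))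
      rw [hu']
      exact hdet i hN f' hf') g hgH
  rw [hfg]
  exact hmain

end family

end

end Pool.Agent.N429.KS
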