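import Pool.Agent.N429.KS.Defs2

/-!
# Z13: the Lie algebra of the wedge products of a nondegenerate space is perfect
-/

set_option linter.unusedSectionVars false

open Matrix Finset Function

namespace Pool.Agent.N429.KS

namespace Z13

variable {B : Type} [Fintype B] [DecidableEq B]

theorem wedge_add_left (Q : Matrix B B ℂ) (x x' y : B → ℂ) :
    wedge Q (x + x') y = wedge Q x y + wedge Q x' y := by
  unfold wedge
  rw [Matrix.mulVec_add, Matrix.add_vecMulVec, Matrix.vecMulVec_add]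
  abel

theorem wedge_smul_left (Q : Matrix B B ℂ) (c : ℂ) (x y : B → ℂ) :
    wedge Q (c • x) y = c • wedge Q x y := by
  unfold wedge
  rw [Matrix.mulVec_smul, Matrix.smul_vecMulVec, Matrix.vecMulVec_smul, smul_sub]

theorem wedge_swap (Q : Matrix B B ℂ) (x y : B → ℂ) : wedge Q x y = -wedge Q y x := by
  unfold wedge
  rw [neg_sub]

theorem wedge_self (Q : Matrix B B ℂ) (x : B → ℂ) : wedge Q x x = 0 := by
  unfold wedge
  rw [sub_self]

/-- the wedge product as a linear map in the first variable -/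
noncomputable def wl (Q : Matrix B B ℂ) (y : B → ℂ) : (B → ℂ) →ₗ[ℂ] Matrix B B ℂ where
  toFun x := wedge Q x y
  map_add' x x' := wedge_add_left Q x x' y
  map_smul' c x := wedge_smul_left Q c x y

theorem wl_apply (Q : Matrix B B ℂ) (x y : B → ℂ) : wl Q y x = wedge Q x y := rfl

/-- the symmetry of the form -/
theorem sym_dot {Q : Matrix B B ℂ} (hQ : Q.IsSymm) (x y : B → ℂ) :
    (Q *ᵥ x) ⬝ᵥ y = (Q *ᵥ y) ⬝ᵥ x := by
  rw [dotProduct_comm (Q *ᵥ x) y, Matrix.dotProduct_mulVec, ← Matrix.mulVec_transpose, hQ.eq]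

theorem vmv (x w u : B → ℂ) : vecMulVec x w *ᵥ u = (w ⬝ᵥ u) • x := by
  funext a
  simp only [Matrix.mulVec, Matrix.vecMulVec_apply, dotProduct, Pi.smul_apply, smul_eq_mul,
    Finset.sum_mul]
  exact Finset.sum_congr rfl fun b _ => by ring

/-- the action of a wedge product -/
theorem wedge_mulVec (Q : Matrix B B ℂ) (x y u : B → ℂ) :
    wedge Q x y *ᵥ u = ((Q *ᵥ y) ⬝ᵥ u) • x - ((Q *ᵥ x) ⬝ᵥ u) • y := by
  unfold wedge
  rw [Matrix.sub_mulVec, vmv, vmv]

/-- the product of two wedge products -/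
theorem wedge_mul (Q : Matrix B B ℂ) (x y u v : B → ℂ) :
    wedge Q x y * wedge Q u v =
      ((Q *ᵥ y) ⬝ᵥ u) • vecMulVec x (Q *ᵥ v) - ((Q *ᵥ y) ⬝ᵥ v) • vecMulVec x (Q *ᵥ u) -
      ((Q *ᵥ x) ⬝ᵥ u) • vecMulVec y (Q *ᵥ v) + ((Q *ᵥ x) ⬝ᵥ v) • vecMulVec y (Q *ᵥ u) := by
  unfold wedge
  rw [sub_mul, mul_sub, mul_sub]
  simp only [Matrix.vecMulVec_mul_vecMulVec]
  ext a b
  simp only [Matrix.sub_apply, Matrix.add_apply, Matrix.smul_apply, Matrix.vecMulVec_apply,
    smul_eq_mul, Pi.smul_apply]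
  ring

/-- the bracket of two wedge products -/
theorem bracket {Q : Matrix B B ℂ} (hQ : Q.IsSymm) (x y u v : B → ℂ) :
    wedge Q x y * wedge Q u v - wedge Q u v * wedge Q x y =
      wedge Q (wedge Q x y *ᵥ u) v + wedge Q u (wedge Q x y *ᵥ v) := by
  rw [wedge_mul, wedge_mul, wedge_mulVec, wedge_mulVec]
  rw [sym_dot hQ v x, sym_dot hQ v y, sym_dot hQ u x, sym_dot hQ u y]
  unfold wedge
  rw [Matrix.mulVec_sub, Matrix.mulVec_sub]
  simp only [Matrix.mulVec_smul]
  ext a b
  simp only [Matrix.sub_apply, Matrix.add_apply, Matrix.smul_apply, Matrix.vecMulVec_apply,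
    smul_eq_mul, Pi.smul_apply, Pi.sub_apply]
  ring

end Z13

open Z13

variable {B : Type} [Fintype B] [DecidableEq B]

/-- Z13 the Lie algebra of the wedge products of a nondegenerate space is perfect -/
theorem wedge_perfect (Q : Matrix B B ℂ) (hQ : Q.IsSymm) (T : Submodule ℂ (B → ℂ))
    (hnd : ∀ x ∈ T, x ≠ 0 → ∃ y ∈ T, x ⬝ᵥ (Q *ᵥ y) ≠ 0) (h3 : 3 ≤ Module.finrank ℂ T)
    (V : Submodule ℂ (Matrix B B ℂ))
    (hV : V = Submodule.span ℂ {w | ∃ x ∈ T, ∃ y ∈ T, w = wedge Q x y}) :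
    V ≤ Submodule.span ℂ {a | ∃ b ∈ V, ∃ c ∈ V, a = b * c - c * b} ∧
      ∀ b ∈ V, ∀ c ∈ V, b * c - c * b ∈ V := by
  have hw : ∀ x ∈ T, ∀ y ∈ T, wedge Q x y ∈ V := by
    intro x hx y hy
    rw [hV]
    exact Submodule.subset_span ⟨x, hx, y, hy, rfl⟩
  have hT : ∀ x ∈ T, ∀ y ∈ T, ∀ u ∈ T, wedge Q x y *ᵥ u ∈ T := by
    intro x hx y hy u hu
    rw [wedge_mulVec]
    exact T.sub_mem (T.smul_mem _ hx) (T.smul_mem _ hy)
  constructor
  · set W : Submodule ℂ (Matrix B B ℂ) :=
      Submodule.span ℂ {a | ∃ b ∈ V, ∃ c ∈ V, a = b * c - c * b} with hW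
    have hWb : ∀ b ∈ V, ∀ c ∈ V, b * c - c * b ∈ W := fun b hb c hc =>
      Submodule.subset_span ⟨b, hb, c, hc, rfl⟩
    set β : LinearMap.BilinForm ℂ T := (Matrix.toBilin' Q).restrict T with hβ
    have hβa : ∀ x y : T, β x y = (x : B → ℂ) ⬝ᵥ (Q *ᵥ (y : B → ℂ)) := by
      intro x y
      rw [hβ, LinearMap.BilinForm.restrict_apply, LinearMap.domRestrict_apply,
        Matrix.toBilin'_apply']
    have hβs : LinearMap.IsSymm β := ⟨fun x y => by
      rw [RingHom.id_apply, hβa, hβa, dotProduct_comm, sym_dot hQ, dotProduct_comm]⟩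
    obtain ⟨v, hv⟩ := LinearMap.BilinForm.exists_orthogonal_basis (K := ℂ) (V := T) hβs
    have hvo : ∀ i j, i ≠ j → (v i : B → ℂ) ⬝ᵥ (Q *ᵥ (v j : B → ℂ)) = 0 := by
      intro i j hij
      rw [← hβa]
      exact hv hij
    have hspan : T ≤ Submodule.span ℂ (Set.range fun i => (v i : B → ℂ)) := by
      intro x hx
      have h1 := v.sum_repr ⟨x, hx⟩
      have h2 := congrArg (T.subtype) h1
      rw [map_sum] at h2
      have h3 : T.subtype ⟨x, hx⟩ = x := rfl
      rw [← h3, ← h2]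
      refine Submodule.sum_mem _ fun i _ => ?_
      rw [map_smul]
      exact Submodule.smul_mem _ _ (Submodule.subset_span ⟨i, rfl⟩)
    have hvn : ∀ i, (v i : B → ℂ) ⬝ᵥ (Q *ᵥ (v i : B → ℂ)) ≠ 0 := by
      intro i h0
      have hne : (v i : B → ℂ) ≠ 0 := by
        intro h
        exact v.ne_zero i (Subtype.ext h)
      obtain ⟨y, hy, hxy⟩ := hnd _ (v i).2 hne
      apply hxy
      -- the linear form vanishes on the basis
      let f : (B → ℂ) →ₗ[ℂ] ℂ :=
        { toFun := fun y => (v i : B → ℂ) ⬝ᵥ (Q *ᵥ y)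
          map_add' := fun a b => by rw [Matrix.mulVec_add, dotProduct_add]
          map_smul' := fun c a => by
            rw [Matrix.mulVec_smul, dotProduct_smul, RingHom.id_apply] }
      have h4 : Submodule.span ℂ (Set.range fun i => (v i : B → ℂ)) ≤ LinearMap.ker f := by
        rw [Submodule.span_le]
        rintro _ ⟨j, rfl⟩
        rw [SetLike.mem_coe, LinearMap.mem_ker]
        show (v i : B → ℂ) ⬝ᵥ (Q *ᵥ (v j : B → ℂ)) = 0
        by_cases hij : i = j
        · rw [← hij]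
          exact h0
        · exact hvo i j hij
      exact LinearMap.mem_ker.1 (h4 (hspan hy))
    -- the wedge products of the basis vectors
    have hbb : ∀ i j, wedge Q (v i : B → ℂ) (v j : B → ℂ) ∈ W := by
      intro i j
      by_cases hij : i = j
      · rw [hij, wedge_self]
        exact W.zero_mem
      obtain ⟨k, hki, hkj⟩ : ∃ k : Fin (Module.finrank ℂ T), k ≠ i ∧ k ≠ j := by
        by_contra hcon
        push Not at hcon
        have h5 : (Finset.univ : Finset (Fin (Module.finrank ℂ T))) ⊆ {i, j} := by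
          intro k _
          rw [Finset.mem_insert, Finset.mem_singleton]
          by_cases h : k = i
          · exact Or.inl h
          · exact Or.inr (hcon k h)
        have h6 := Finset.card_le_card h5
        rw [Finset.card_univ, Fintype.card_fin] at h6
        have h7 := Finset.card_le_two (a := i) (b := j)
        omega
      have h8 := hWb _ (hw _ (v i).2 _ (v k).2) _ (hw _ (v k).2 _ (v j).2)
      rw [bracket hQ, wedge_mulVec, wedge_mulVec] at h8
      have e1 : (Q *ᵥ (v i : B → ℂ)) ⬝ᵥ (v k : B → ℂ) = 0 := by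
        rw [dotProduct_comm]
        exact hvo k i hki
      have e2 : (Q *ᵥ (v k : B → ℂ)) ⬝ᵥ (v j : B → ℂ) = 0 := by
        rw [dotProduct_comm]
        exact hvo j k hkj.symm
      have e3 : (Q *ᵥ (v i : B → ℂ)) ⬝ᵥ (v j : B → ℂ) = 0 := by
        rw [dotProduct_comm]
        exact hvo j i (Ne.symm hij)
      rw [e1, e2, e3, zero_smul, zero_smul, sub_zero, sub_zero] at h8
      have e4 : wedge Q (v k : B → ℂ) 0 = 0 := by
        unfold wedge
        simp
      rw [e4, add_zero, wedge_smul_left] at h8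
      have e5 : (Q *ᵥ (v k : B → ℂ)) ⬝ᵥ (v k : B → ℂ) ≠ 0 := by
        rw [dotProduct_comm]
        exact hvn k
      have h9 := W.smul_mem ((Q *ᵥ (v k : B → ℂ)) ⬝ᵥ (v k : B → ℂ))⁻¹ h8
      rwa [smul_smul, inv_mul_cancel₀ e5, one_smul] at h9
    have s1 : ∀ j, ∀ x ∈ T, wedge Q x (v j : B → ℂ) ∈ W := by
      intro j
      have h : Submodule.span ℂ (Set.range fun i => (v i : B → ℂ)) ≤ W.comap (wl Q (v j : B → ℂ)) := by
        rw [Submodule.span_le]
        rintro _ ⟨i, rfl⟩
        exact hbb i j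
      exact fun x hx => h (hspan hx)
    have s2 : ∀ x ∈ T, ∀ y ∈ T, wedge Q y x ∈ W := by
      intro x hx
      have h : Submodule.span ℂ (Set.range fun i => (v i : B → ℂ)) ≤ W.comap (wl Q x) := by
        rw [Submodule.span_le]
        rintro _ ⟨i, rfl⟩
        show wedge Q (v i : B → ℂ) x ∈ W
        rw [wedge_swap]
        exact W.neg_mem (s1 i x hx)
      exact fun y hy => h (hspan hy)
    have h10 : Submodule.span ℂ {w | ∃ x ∈ T, ∃ y ∈ T, w = wedge Q x y} ≤ W := by
      rw [Submodule.span_le]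
      rintro _ ⟨x, hx, y, hy, rfl⟩
      exact s2 y hy x hx
    rw [← hV] at h10
    exact h10
  · -- the brackets
    have hg : ∀ x ∈ T, ∀ y ∈ T, ∀ c ∈ V, wedge Q x y * c - c * wedge Q x y ∈ V := by
      intro x hx y hy c hc
      let f : Matrix B B ℂ →ₗ[ℂ] Matrix B B ℂ :=
        { toFun := fun c => wedge Q x y * c - c * wedge Q x y
          map_add' := fun a b => by rw [mul_add, add_mul]; abel
          map_smul' := fun t a => by
            rw [RingHom.id_apply, mul_smul_comm, smul_mul_assoc, smul_sub] }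
      have h : V ≤ V.comap f := by
        conv_lhs => rw [hV]
        rw [Submodule.span_le]
        rintro _ ⟨u, hu, v, hv, rfl⟩
        show wedge Q x y * wedge Q u v - wedge Q u v * wedge Q x y ∈ V
        rw [bracket hQ]
        exact V.add_mem (hw _ (hT x hx y hy u hu) _ hv) (hw _ hu _ (hT x hx y hy v hv))
      exact h hc
    intro b hb c hc
    let f : Matrix B B ℂ →ₗ[ℂ] Matrix B B ℂ :=
      { toFun := fun b => b * c - c * b
        map_add' := fun a b => by rw [mul_add, add_mul]; abel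
        map_smul' := fun t a => by
          rw [RingHom.id_apply, mul_smul_comm, smul_mul_assoc, smul_sub] }
    have h : V ≤ V.comap f := by
      conv_lhs => rw [hV]
      rw [Submodule.span_le]
      rintro _ ⟨x, hx, y, hy, rfl⟩
      exact hg x hx y hy c hc
    exact h hb

end Pool.Agent.N429.KS
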