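import Pool.Agent.N429.KS.Defs2
import Pool.Agent.N429.KS.K9
import Pool.Agent.N429.KS.K13
import Pool.Agent.N429.KS.K15a

/-!
# Z14: the eigenspace of the period (with the parts Z1 and Z3 as hypotheses)
-/

set_option linter.unusedSectionVars false
set_option autoImplicit false

open Matrix Finset Function

namespace Pool.Agent.N429.KS

namespace Z14

variable {B : Type} [Fintype B] [DecidableEq B]

/-- a polynomial in `θ` which is a multiple of the projection to the eigenspace -/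
theorem exists_poly (θ : Matrix B B ℚ) (hirr : Irreducible (minpoly ℚ θ)) (r : ℂ)
    (hr : Polynomial.aeval r (minpoly ℚ θ) = 0) : ∃ s : Polynomial ℂ, s.eval r ≠ 0 ∧
      cm θ * Polynomial.aeval (cm θ) s = r • Polynomial.aeval (cm θ) s := by
  set p : Polynomial ℂ := (minpoly ℚ θ).map (algebraMap ℚ ℂ) with hp
  have hp0 : Polynomial.aeval (cm θ) p = 0 := by
    rw [hp, Polynomial.aeval_map_algebraMap]
    let F : Matrix B B ℚ →ₐ[ℚ] Matrix B B ℂ := (Algebra.ofId ℚ ℂ).mapMatrix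
    have hF : F θ = cm θ := rfl
    rw [← hF, Polynomial.aeval_algHom_apply, minpoly.aeval, map_zero]
  have hroot : p.IsRoot r := by
    rw [hp, Polynomial.IsRoot.def, Polynomial.eval_map_algebraMap]
    exact hr
  have hsep : p.Separable := by
    rw [hp]
    exact (hirr.separable).map
  obtain ⟨s, hs⟩ := Polynomial.dvd_iff_isRoot.mpr hroot
  have hsr : s.eval r ≠ 0 := by
    intro h
    obtain ⟨t, ht⟩ := Polynomial.dvd_iff_isRoot.mpr h
    have h2 : (Polynomial.X - Polynomial.C r) * (Polynomial.X - Polynomial.C r) ∣ p := by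
      rw [hs, ht, ← mul_assoc]
      exact dvd_mul_right _ _
    have h3 := hsep.squarefree _ h2
    exact Polynomial.not_isUnit_X_sub_C r h3
  refine ⟨s, hsr, ?_⟩
  have h1 : (cm θ - algebraMap ℂ (Matrix B B ℂ) r) * Polynomial.aeval (cm θ) s = 0 := by
    rw [← hp0, hs, map_mul, map_sub, Polynomial.aeval_X, Polynomial.aeval_C]
  rw [sub_mul, sub_eq_zero, Algebra.algebraMap_eq_smul_one, smul_mul_assoc, one_mul] at h1
  exact h1

theorem aeval_vec (A : Matrix B B ℂ) (r : ℂ) (x : B → ℂ) (hx : A *ᵥ x = r • x)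
    (s : Polynomial ℂ) : Polynomial.aeval A s *ᵥ x = s.eval r • x := by
  induction s using Polynomial.induction_on' with
  | add s t hs ht => rw [map_add, Matrix.add_mulVec, hs, ht, Polynomial.eval_add, add_smul]
  | monomial n a =>
    have hn : ∀ n : ℕ, A ^ n *ᵥ x = r ^ n • x := by
      intro n
      induction n with
      | zero => simp
      | succ n ih =>
        rw [pow_succ, ← Matrix.mulVec_mulVec, hx, Matrix.mulVec_smul, ih, smul_smul, pow_succ,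
          mul_comm]
    rw [Polynomial.aeval_monomial, Polynomial.eval_monomial, ← Matrix.mulVec_mulVec, hn,
      Matrix.mulVec_smul, Algebra.algebraMap_eq_smul_one, Matrix.smul_mulVec,
      Matrix.one_mulVec, smul_smul, mul_comm]

theorem aeval_comm (A Y : Matrix B B ℂ) (h : Y * A = A * Y) (s : Polynomial ℂ) :
    Y * Polynomial.aeval A s = Polynomial.aeval A s * Y := by
  have hc : Commute Y A := h
  induction s using Polynomial.induction_on' with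
  | add s t hs ht => rw [map_add, mul_add, add_mul, hs, ht]
  | monomial n a =>
    rw [Polynomial.aeval_monomial]
    have h1 : Commute Y (A ^ n) := hc.pow_right n
    have h2 : Commute Y (algebraMap ℂ (Matrix B B ℂ) a) := (Algebra.commutes a Y).symm
    exact (h2.mul_right h1)

end Z14

open K15 Z14 in
/-- Z14, with the parts Z1 and Z3 as hypotheses -/
theorem period_core {B : Type} [Fintype B] [DecidableEq B] (X : K3Type B)
    (g : Submodule ℚ (Matrix B B ℚ)) (hg : g ≤ X.gQ)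
    (hZ1 : ∃ θ : Matrix B B ℚ, (X.q * θ).IsSymm ∧
      cm θ * X.h = X.h * cm θ ∧ Irreducible (minpoly ℚ θ) ∧ (∀ Y ∈ g, Y * θ = θ * Y) ∧
      ∀ A : Matrix B B ℚ, A * θ = θ * A → A ∈ Algebra.adjoin ℚ (g : Set (Matrix B B ℚ)))
    (hZ3 : ∀ (θ : Matrix B B ℚ)
      (_ : cm θ * X.h = X.h * cm θ) (_ : Irreducible (minpoly ℚ θ))
      (_ : ∀ Y ∈ X.gQ, Y * θ = θ * Y)
      (_ : ∀ A : Matrix B B ℚ, A * θ = θ * A →
        A ∈ Algebra.adjoin ℚ (X.gQ : Set (Matrix B B ℚ)))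
      (r : ℂ) (_ : Polynomial.aeval r (minpoly ℚ θ) = 0),
      Fintype.card B = Module.finrank ℚ X.endo *
        Module.finrank ℂ (Module.End.eigenspace (Matrix.toLin' (cm θ)) r)) :
    ∃ (θ : Matrix B B ℚ) (r : ℂ) (T : Submodule ℂ (B → ℂ)), (X.q * θ).IsSymm ∧
      cm θ * X.h = X.h * cm θ ∧ Irreducible (minpoly ℚ θ) ∧
      Polynomial.aeval r (minpoly ℚ θ) = 0 ∧ (∀ Y ∈ g, Y * θ = θ * Y) ∧
      (∀ x, x ∈ T ↔ cm θ *ᵥ x = r • x) ∧ X.ω ∈ T ∧ star X.ω ∈ T ∧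
      (∀ Y ∈ g, ∀ x ∈ T, cm Y *ᵥ x ∈ T) ∧
      (∀ M ≤ T, (∀ Y ∈ g, ∀ x ∈ M, cm Y *ᵥ x ∈ M) → M = ⊥ ∨ M = T) ∧
      (∀ x ∈ T, x ≠ 0 → ∃ y ∈ T, x ⬝ᵥ (cm X.q *ᵥ y) ≠ 0) ∧ 3 ≤ Module.finrank ℂ T ∧
      Fintype.card B = Module.finrank ℚ X.endo * Module.finrank ℂ T ∧
      ∃ P : Matrix B B ℂ, (∀ x, P *ᵥ x ∈ T) ∧ (∀ x ∈ T, P *ᵥ x = x) ∧
        ∀ Y ∈ g, cm Y * P = P * cm Y := by
  obtain ⟨θ, hθs, hθh, hirr, hcomm, hdens⟩ := hZ1
  obtain ⟨N, hN⟩ : ∃ N, N = X.N := ⟨_, rfl⟩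
  have hN0 : N ≠ 0 := by rw [hN]; exact X.pol
  have hN1 : X.ω ⬝ᵥ (cm X.q *ᵥ star X.ω) = N := by rw [hN]; rfl
  have hQs : (cm X.q).IsSymm := by
    rw [Matrix.IsSymm, cm_transpose, X.sym]
  have hsym : ∀ x y : B → ℂ, x ⬝ᵥ (cm X.q *ᵥ y) = y ⬝ᵥ (cm X.q *ᵥ x) := by
    intro x y
    rw [dotProduct_mulVec, ← mulVec_transpose, hQs, dotProduct_comm]
  have hiso' : star X.ω ⬝ᵥ (cm X.q *ᵥ star X.ω) = 0 := by
    rw [← star_dot, X.iso, star_zero]
  have hN2 : star X.ω ⬝ᵥ (cm X.q *ᵥ X.ω) = N := by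
    rw [hsym, hN1]
  have hω0 : X.ω ≠ 0 := by
    intro h0
    apply hN0
    rw [← hN1, h0, zero_dotProduct]
  have hhdef : X.h = N⁻¹ • wedge (cm X.q) X.ω (star X.ω) := by rw [hN]; rfl
  have hhv : ∀ u, X.h *ᵥ u = (N⁻¹ * ((cm X.q *ᵥ star X.ω) ⬝ᵥ u)) • X.ω -
      (N⁻¹ * ((cm X.q *ᵥ X.ω) ⬝ᵥ u)) • star X.ω := by
    intro u
    rw [hhdef, smul_mulVec, wedge_mulVec, smul_sub, smul_smul, smul_smul]
  have hhω : X.h *ᵥ X.ω = X.ω := by
    rw [hhv, dotProduct_comm, hN1, dotProduct_comm, X.iso, inv_mul_cancel₀ hN0, mul_zero, one_smul,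
      zero_smul, sub_zero]
  have hhω' : X.h *ᵥ star X.ω = -star X.ω := by
    rw [hhv, dotProduct_comm, hiso', dotProduct_comm, hN2, inv_mul_cancel₀ hN0, mul_zero, one_smul,
      zero_smul, zero_sub]
  have heig : ∀ u, X.h *ᵥ u = u → ∃ a : ℂ, u = a • X.ω := by
    intro u hu
    obtain ⟨a, ha⟩ : ∃ a, a = N⁻¹ * ((cm X.q *ᵥ star X.ω) ⬝ᵥ u) := ⟨_, rfl⟩
    obtain ⟨b, hb⟩ : ∃ b, b = N⁻¹ * ((cm X.q *ᵥ X.ω) ⬝ᵥ u) := ⟨_, rfl⟩
    have h1 : u = a • X.ω - b • star X.ω := by rw [ha, hb, ← hhv, hu]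
    have h2 : X.h *ᵥ u = a • X.ω + b • star X.ω := by
      rw [h1, mulVec_sub, mulVec_smul, mulVec_smul, hhω, hhω', smul_neg, sub_neg_eq_add]
    rw [hu] at h2
    refine ⟨a, ?_⟩
    have h3 : u + u = a • X.ω + a • X.ω := by
      nth_rewrite 1 [h1]
      nth_rewrite 1 [h2]
      abel
    have h4 : (2 : ℂ) • u = (2 : ℂ) • (a • X.ω) := by rw [two_smul, two_smul, h3]
    exact smul_right_injective _ (two_ne_zero) h4
  obtain ⟨r0, hr0⟩ : ∃ r0 : ℂ, cm θ *ᵥ X.ω = r0 • X.ω := by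
    apply heig
    rw [mulVec_mulVec, ← hθh, ← mulVec_mulVec, hhω]
  have hr0' : cm θ *ᵥ star X.ω = star r0 • star X.ω := by
    rw [← star_mulVec', hr0, star_smul]
  have hsa : (cm θ)ᵀ * cm X.q = cm X.q * cm θ := by
    rw [cm_transpose, ← cm_mul, ← cm_mul]
    congr 1
    have h1 : (X.q * θ)ᵀ = X.q * θ := hθs
    rw [← h1, transpose_mul, X.sym]
  have hreal : star r0 = r0 := by
    have h1 : (cm θ *ᵥ X.ω) ⬝ᵥ (cm X.q *ᵥ star X.ω) = X.ω ⬝ᵥ (cm X.q *ᵥ (cm θ *ᵥ star X.ω)) := by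
      rw [mulVec_mulVec, ← hsa, ← mulVec_mulVec, dotProduct_mulVec X.ω (cm θ)ᵀ, vecMul_transpose]
    rw [hr0, hr0', smul_dotProduct, mulVec_smul, dotProduct_smul, hN1, smul_eq_mul,
      smul_eq_mul] at h1
    exact (mul_right_cancel₀ hN0 h1).symm
  rw [hreal] at hr0'
  have hroot : Polynomial.aeval r0 (minpoly ℚ θ) = 0 := by
    have h1 := aeval_eig θ hr0 (minpoly ℚ θ)
    rw [minpoly.aeval] at h1
    have h2 : cm (0 : Matrix B B ℚ) = 0 := by
      ext i j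
      simp [cm]
    rw [h2, zero_mulVec] at h1
    exact (smul_eq_zero.1 h1.symm).resolve_right hω0
  -- the eigenspace
  set T : Submodule ℂ (B → ℂ) := Module.End.eigenspace (Matrix.toLin' (cm θ)) r0 with hTdef
  have hT : ∀ x, x ∈ T ↔ cm θ *ᵥ x = r0 • x := by
    intro x
    rw [hTdef, Module.End.mem_eigenspace_iff, Matrix.toLin'_apply]
  have hωT : X.ω ∈ T := (hT _).2 hr0
  have hω'T : star X.ω ∈ T := (hT _).2 hr0'
  have hcmc : ∀ Y ∈ g, cm Y * cm θ = cm θ * cm Y := by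
    intro Y hY
    rw [← cm_mul, ← cm_mul, hcomm Y hY]
  have hTst : ∀ Y ∈ g, ∀ x ∈ T, cm Y *ᵥ x ∈ T := by
    intro Y hY x hx
    rw [hT] at hx ⊢
    rw [mulVec_mulVec, ← hcmc Y hY, ← mulVec_mulVec, hx, mulVec_smul]
  have hirrT : ∀ M ≤ T, (∀ Y ∈ g, ∀ x ∈ M, cm Y *ᵥ x ∈ M) → M = ⊥ ∨ M = T := by
    intro M hM hst
    rcases irred X.q θ X.sym X.nondeg hθs hirr g hcomm hdens r0 M
      (fun x hx => (hT x).1 (hM hx)) hst with h | h
    · exact Or.inl h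
    · exact Or.inr (le_antisymm hM fun x hx => h x ((hT x).1 hx))
  have hnd : ∀ x ∈ T, x ≠ 0 → ∃ y ∈ T, x ⬝ᵥ (cm X.q *ᵥ y) ≠ 0 := by
    intro x hx hx0
    obtain ⟨w, hw, hwx⟩ := k13_dual X.q θ X.sym X.nondeg hθs hirr r0 x hx0 ((hT x).1 hx)
    refine ⟨w, (hT w).2 hw, ?_⟩
    rw [hsym]
    exact hwx
  -- the dimension
  have hcombo : ∀ a b : ℂ, a • X.ω + b • star X.ω = 0 → a = 0 ∧ b = 0 := by
    intro a b hab
    have h1 : (a • X.ω + b • star X.ω) ⬝ᵥ (cm X.q *ᵥ star X.ω) = 0 := by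
      rw [hab, zero_dotProduct]
    have h2 : (a • X.ω + b • star X.ω) ⬝ᵥ (cm X.q *ᵥ X.ω) = 0 := by
      rw [hab, zero_dotProduct]
    rw [add_dotProduct, smul_dotProduct, smul_dotProduct, hN1, hiso', smul_zero, add_zero,
      smul_eq_mul] at h1
    rw [add_dotProduct, smul_dotProduct, smul_dotProduct, hN2, X.iso, smul_zero, zero_add,
      smul_eq_mul] at h2
    exact ⟨(mul_eq_zero.1 h1).resolve_right hN0, (mul_eq_zero.1 h2).resolve_right hN0⟩
  have h3 : 3 ≤ Module.finrank ℂ T := by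
    by_contra hlt
    have hle : Module.finrank ℂ T ≤ 2 := by omega
    have hli : LinearIndependent ℂ ![X.ω, star X.ω] := by
      rw [LinearIndependent.pair_iff]
      exact hcombo
    set W : Submodule ℂ (B → ℂ) := Submodule.span ℂ (Set.range ![X.ω, star X.ω]) with hW
    have hWr : Module.finrank ℂ W = 2 := by
      rw [hW, finrank_span_eq_card hli, Fintype.card_fin]
    have hWT : W ≤ T := by
      rw [hW, Submodule.span_le]
      rintro _ ⟨i, rfl⟩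
      fin_cases i
      · exact hωT
      · exact hω'T
    have hWeq : W = T := Submodule.eq_of_le_of_finrank_le hWT (by rw [hWr]; exact hle)
    have hmem : ∀ x ∈ T, ∃ a b : ℂ, x = a • X.ω + b • star X.ω := by
      intro x hx
      rw [← hWeq, hW] at hx
      obtain ⟨c, hc⟩ := (Submodule.mem_span_range_iff_exists_fun ℂ).1 hx
      rw [Fin.sum_univ_two] at hc
      exact ⟨c 0, c 1, hc.symm⟩
    have hstab : ∀ Y ∈ g, ∃ a : ℂ, cm Y *ᵥ X.ω = a • X.ω := by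
      intro Y hY
      obtain ⟨a, b, hab⟩ := hmem _ (hTst Y hY _ hωT)
      have hskew := gC_skew X (Submodule.subset_span ⟨Y, hg hY, rfl⟩ : cm Y ∈ X.gC)
      have h4 : X.ω ⬝ᵥ (cm X.q *ᵥ (cm Y *ᵥ X.ω)) + (cm Y *ᵥ X.ω) ⬝ᵥ (cm X.q *ᵥ X.ω) = 0 := by
        have h5 : (cm Y *ᵥ X.ω) ⬝ᵥ (cm X.q *ᵥ X.ω) = X.ω ⬝ᵥ (((cm Y)ᵀ * cm X.q) *ᵥ X.ω) := by
          rw [← mulVec_mulVec, dotProduct_mulVec X.ω (cm Y)ᵀ, vecMul_transpose]
        rw [h5, mulVec_mulVec, ← dotProduct_add, ← add_mulVec, hskew, zero_mulVec,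
          dotProduct_zero]
      rw [← hsym, hab, add_dotProduct, smul_dotProduct, smul_dotProduct, hN2, X.iso, smul_zero,
        zero_add, smul_eq_mul] at h4
      have h6 : (2 * N) * b = 0 := by linear_combination h4
      have h7 : b = 0 := (mul_eq_zero.1 h6).resolve_left (mul_ne_zero two_ne_zero hN0)
      refine ⟨a, ?_⟩
      rw [hab, h7, zero_smul, add_zero]
    rcases hirrT (Submodule.span ℂ {X.ω}) (by
      rw [Submodule.span_le, Set.singleton_subset_iff]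
      exact hωT) (by
      intro Y hY x hx
      obtain ⟨c, rfl⟩ := Submodule.mem_span_singleton.1 hx
      obtain ⟨a, ha⟩ := hstab Y hY
      rw [mulVec_smul, ha]
      exact Submodule.smul_mem _ _ (Submodule.smul_mem _ _ (Submodule.mem_span_singleton_self _)))
      with h | h
    · exact hω0 (Submodule.span_singleton_eq_bot.1 h)
    · have h5 : star X.ω ∈ Submodule.span ℂ {X.ω} := by rw [h]; exact hω'T
      obtain ⟨c, hc⟩ := Submodule.mem_span_singleton.1 h5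
      have h6 := hcombo c (-1) (by rw [hc]; simp)
      exact neg_ne_zero.2 one_ne_zero h6.2
  -- the projection
  obtain ⟨s, hs0, hs⟩ := exists_poly θ hirr r0 hroot
  refine ⟨θ, r0, T, hθs, hθh, hirr, hroot, hcomm, hT, hωT, hω'T, hTst, hirrT, hnd, h3, ?_,
    (s.eval r0)⁻¹ • Polynomial.aeval (cm θ) s, ?_, ?_, ?_⟩
  · exact hZ3 θ hθh hirr (fun Y hY => ((comm_iff X θ).2 hθh Y hY).symm)
      (fun A hA => Algebra.adjoin_mono (s := (g : Set (Matrix B B ℚ)))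
        (t := (X.gQ : Set (Matrix B B ℚ))) hg (hdens A hA)) r0 hroot
  · intro x
    rw [hT, smul_mulVec, mulVec_smul, mulVec_mulVec, hs, smul_mulVec, smul_comm]
  · intro x hx
    rw [smul_mulVec, aeval_vec _ r0 x ((hT x).1 hx), smul_smul, inv_mul_cancel₀ hs0, one_smul]
  · intro Y hY
    rw [mul_smul_comm, smul_mul_assoc, aeval_comm _ _ (hcmc Y hY)]

end Pool.Agent.N429.KS
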