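import Pool.Agent.N429.KS.Z1
import Pool.Agent.N429.KS.Z3
import Pool.Agent.N429.KS.Z14a

/-!
# Z14: the eigenspace of the period
-/

set_option linter.unusedSectionVars false

open Matrix Finset Function

namespace Pool.Agent.N429.KS

/-- Z14 the eigenspace of the period -/
theorem period_space {B : Type} [Fintype B] [DecidableEq B] (X : K3Type B) (hX : X.NonCM)
    (g : Submodule ℚ (Matrix B B ℚ))
    (hh : X.h ∈ Submodule.span ℂ (cm '' (g : Set (Matrix B B ℚ)))) (hg : g ≤ X.gQ) :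
    ∃ (θ : Matrix B B ℚ) (r : ℂ) (T : Submodule ℂ (B → ℂ)), (X.q * θ).IsSymm ∧
      cm θ * X.h = X.h * cm θ ∧ Irreducible (minpoly ℚ θ) ∧
      Polynomial.aeval r (minpoly ℚ θ) = 0 ∧ (∀ Y ∈ g, Y * θ = θ * Y) ∧
      (∀ x, x ∈ T ↔ cm θ *ᵥ x = r • x) ∧ X.ω ∈ T ∧ star X.ω ∈ T ∧
      (∀ Y ∈ g, ∀ x ∈ T, cm Y *ᵥ x ∈ T) ∧
      (∀ M ≤ T, (∀ Y ∈ g, ∀ x ∈ M, cm Y *ᵥ x ∈ M) → M = ⊥ ∨ M = T) ∧
      (∀ x ∈ T, x ≠ 0 → ∃ y ∈ T, x ⬝ᵥ (cm X.q *ᵥ y) ≠ 0) ∧ 3 ≤ Module.finrank ℂ T ∧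
      Fintype.card B = Module.finrank ℚ X.endo * Module.finrank ℂ T ∧
      ∃ P : Matrix B B ℂ, (∀ x, P *ᵥ x ∈ T) ∧ (∀ x ∈ T, P *ᵥ x = x) ∧
        ∀ Y ∈ g, cm Y * P = P * cm Y :=
  period_core X g hg (exists_theta' X hX g hh hg)
    (fun θ h1 h2 h3 h4 r h5 => dim_eq X hX θ h1 h2 h3 h4 r h5)

end Pool.Agent.N429.KS
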