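import Pool.Agent.N429.KS.Defs2
import Pool.Agent.N429.KS.Desc
import Pool.Agent.N429.KS.K9

/-!
# Z9: the Lie algebra of the operators which kill all Hodge classes of the family (helper530)
-/

set_option autoImplicit false
set_option linter.unusedSectionVars false

open Matrix Finset Function

namespace Pool.Agent.N429.KS

noncomputable section

namespace Z9

section general

variable {I : Type} [Fintype I] [DecidableEq I] {B C : I → Type} [∀ i, Fintype (B i)]
  [∀ i, DecidableEq (B i)] [∀ i, Fintype (C i)] [∀ i, DecidableEq (C i)] {K : Type} [Field K]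

/-- pairs of families of matrices -/
abbrev Pr (B C : I → Type) (K : Type) : Type :=
  (∀ i, Matrix (B i) (B i) K) × (∀ i, Matrix (C i) (C i) K)

theorem placeAll_add (y z : Pr B C K) :
    placeAll (y + z).1 (y + z).2 = placeAll y.1 y.2 + placeAll z.1 z.2 := by
  unfold placeAll
  rw [← blockDiagonal'_add]
  congr 1
  funext i
  simp only [Prod.fst_add, Prod.snd_add, Pi.add_apply]
  rw [fromBlocks_add, add_zero, add_zero]

theorem placeAll_smul (c : K) (y : Pr B C K) :
    placeAll (c • y).1 (c • y).2 = c • placeAll y.1 y.2 := by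
  unfold placeAll
  rw [← blockDiagonal'_smul]
  congr 1
  funext i
  simp only [Prod.smul_fst, Prod.smul_snd, Pi.smul_apply]
  rw [fromBlocks_smul, smul_zero, smul_zero]

theorem placeAll_mul (y z : Pr B C K) :
    placeAll (y * z).1 (y * z).2 = placeAll y.1 y.2 * placeAll z.1 z.2 := by
  unfold placeAll
  rw [← blockDiagonal'_mul]
  congr 1
  funext i
  simp only [Prod.fst_mul, Prod.snd_mul, Pi.mul_apply]
  rw [fromBlocks_multiply]
  simp only [Matrix.mul_zero, Matrix.zero_mul, add_zero, zero_add]

theorem placeAll_cm (Y : ∀ i, Matrix (B i) (B i) ℚ) (Z : ∀ i, Matrix (C i) (C i) ℚ) :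
    cm (placeAll Y Z) = placeAll (fun i => cm (Y i)) fun i => cm (Z i) := by
  unfold placeAll cm
  rw [blockDiagonal'_map _ _ (map_zero _)]
  congr 1
  funext i
  rw [fromBlocks_map]
  congr 1
  · ext a b
    simp
  · ext a b
    simp

variable (B C K) in
/-- the blocks -/
def bl : Matrix (Tot B C) (Tot B C) K →ₗ[K] Pr B C K where
  toFun M := (fun i => Matrix.of fun a b => M (iv i a) (iv i b),
    fun i => Matrix.of fun a b => M (ih i a) (ih i b))
  map_add' _ _ := rfl
  map_smul' _ _ := rfl

theorem bl_placeAll (y : Pr B C K) : bl B C K (placeAll y.1 y.2) = y := by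
  refine Prod.ext ?_ ?_
  · funext i
    ext a b
    show blockDiagonal' (fun i => fromBlocks (y.1 i) 0 0 (y.2 i)) (⟨i, Sum.inl a⟩ : Tot B C)
      ⟨i, Sum.inl b⟩ = _
    rw [blockDiagonal'_apply_eq, fromBlocks_apply₁₁]
  · funext i
    ext a b
    show blockDiagonal' (fun i => fromBlocks (y.1 i) 0 0 (y.2 i)) (⟨i, Sum.inr a⟩ : Tot B C)
      ⟨i, Sum.inr b⟩ = _
    rw [blockDiagonal'_apply_eq, fromBlocks_apply₂₂]

variable (B C K) in
/-- the difference from the block diagonal part -/
def off : Matrix (Tot B C) (Tot B C) K →ₗ[K] Matrix (Tot B C) (Tot B C) K where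
  toFun M := M - placeAll (bl B C K M).1 (bl B C K M).2
  map_add' M N := by
    rw [map_add, placeAll_add]
    abel
  map_smul' c M := by
    rw [map_smul, placeAll_smul, RingHom.id_apply, smul_sub]

theorem der_add' {S : Type} [Fintype S] [DecidableEq S] (Y Z : Matrix (Tot B C) (Tot B C) K)
    (f : (S → Tot B C) → K) : der (Y + Z) f = der Y f + der Z f := by
  funext J
  simp only [der, Pi.add_apply, Matrix.add_apply, add_mul, Finset.sum_add_distrib]

theorem der_smul' {S : Type} [Fintype S] [DecidableEq S] (c : K)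
    (Y : Matrix (Tot B C) (Tot B C) K) (f : (S → Tot B C) → K) : der (c • Y) f = c • der Y f := by
  funext J
  simp only [der, Pi.smul_apply, Matrix.smul_apply, smul_eq_mul, mul_assoc, ← Finset.mul_sum]

theorem der_cm {S : Type} [Fintype S] [DecidableEq S] (M : Matrix (Tot B C) (Tot B C) ℚ)
    (f : (S → Tot B C) → ℚ) : der (cm M) (cx f) = cx (der M f) := by
  funext J
  simp only [der, cm, cx, Matrix.map_apply]
  push_cast
  rfl

end general

section family

variable {I : Type} [Fintype I] [DecidableEq I] {B C : I → Type} [∀ i, Fintype (B i)]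
  [∀ i, DecidableEq (B i)] [∀ i, Fintype (C i)] [∀ i, DecidableEq (C i)]
  (X : ∀ i, K3Type (B i)) (D : ∀ i, KSData (X i) (C i))

/-- the index set of all equations -/
structure Eqn where
  /-- the variables -/
  S : Type
  /-- finite -/
  fin : Fintype S
  /-- decidable -/
  dec : DecidableEq S
  /-- the Hodge class -/
  f : (S → Tot B C) → ℚ
  /-- it is a Hodge class -/
  hodge : IsHodgeT X D f
  /-- the place -/
  J : S → Tot B C

/-- the rational equations -/
def L : Matrix (Tot B C) (Tot B C) ℚ →ₗ[ℚ] (Eqn X D ⊕ (Tot B C × Tot B C) → ℚ) where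
  toFun Y t := match t with
    | Sum.inl t => letI := t.fin; letI := t.dec; der Y t.f t.J
    | Sum.inr p => off B C ℚ Y p.1 p.2
  map_add' Y Z := by
    funext t
    rcases t with t | p
    · let _ := t.fin
      let _ := t.dec
      exact congrFun (der_add' Y Z _) t.J
    · simp only [Pi.add_apply]
      rw [map_add]
      rfl
  map_smul' c Y := by
    funext t
    rcases t with t | p
    · let _ := t.fin
      let _ := t.dec
      exact congrFun (der_smul' c Y _) t.J
    · simp only [Pi.smul_apply]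
      rw [map_smul]
      rfl

/-- the complex equations -/
def Lc : Matrix (Tot B C) (Tot B C) ℂ →ₗ[ℂ] (Eqn X D ⊕ (Tot B C × Tot B C) → ℂ) where
  toFun Y t := match t with
    | Sum.inl t => letI := t.fin; letI := t.dec; der Y (cx t.f) t.J
    | Sum.inr p => off B C ℂ Y p.1 p.2
  map_add' Y Z := by
    funext t
    rcases t with t | p
    · let _ := t.fin
      let _ := t.dec
      exact congrFun (der_add' Y Z _) t.J
    · simp only [Pi.add_apply]
      rw [map_add]
      rfl
  map_smul' c Y := by
    funext t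
    rcases t with t | p
    · let _ := t.fin
      let _ := t.dec
      exact congrFun (der_smul' c Y _) t.J
    · simp only [Pi.smul_apply]
      rw [map_smul]
      rfl

/-- complexification of pairs -/
def cp (y : Pr B C ℚ) : Pr B C ℂ := (fun i => cm (y.1 i), fun i => cm (y.2 i))

theorem bl_cm (M : Matrix (Tot B C) (Tot B C) ℚ) : bl B C ℂ (cm M) = cp (bl B C ℚ M) := rfl

theorem cp_mul (y z : Pr B C ℚ) : cp (y * z) = cp y * cp z :=
  Prod.ext (funext fun i => K9.cm_mul (y.1 i) (z.1 i)) (funext fun i => K9.cm_mul (y.2 i) (z.2 i))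

theorem cp_sub (y z : Pr B C ℚ) : cp (y - z) = cp y - cp z :=
  Prod.ext (funext fun i => K9.cm_sub (y.1 i) (z.1 i)) (funext fun i => K9.cm_sub (y.2 i) (z.2 i))

theorem gT_bracket {y z : Pr B C ℚ} (hy : y ∈ gT X D) (hz : z ∈ gT X D) :
    y * z - z * y ∈ gT X D := by
  intro S _ _ f hf
  have h1 := hy S _ _ f hf
  have h2 := hz S _ _ f hf
  have e : placeAll (y * z - z * y).1 (y * z - z * y).2 =
      placeAll y.1 y.2 * placeAll z.1 z.2 - placeAll z.1 z.2 * placeAll y.1 y.2 := by
    have e1 : y * z - z * y = y * z + (-1 : ℚ) • (z * y) := by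
      rw [neg_smul, one_smul, sub_eq_add_neg]
    rw [e1, placeAll_add, placeAll_smul, placeAll_mul, placeAll_mul, neg_smul, one_smul,
      ← sub_eq_add_neg]
  have h3 := K9.der_der (placeAll y.1 y.2) (placeAll z.1 z.2) f
  rw [h1, h2, K9.der_zero, K9.der_zero, sub_zero] at h3
  rw [e, K9.der_sub]
  rw [eq_comm, sub_eq_zero] at h3
  rw [h3, sub_self]

end family

end Z9

open Z9

section family

variable {I : Type} [Fintype I] [DecidableEq I] {B C : I → Type} [∀ i, Fintype (B i)]
  [∀ i, DecidableEq (B i)] [∀ i, Fintype (C i)] [∀ i, DecidableEq (C i)]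
  (X : ∀ i, K3Type (B i)) (D : ∀ i, KSData (X i) (C i))

/-- Z9 -/
theorem gTC_h : ((fun i => (X i).h, fun i => (X i).ht (D i).Φ) :
    (∀ i, Matrix (B i) (B i) ℂ) × (∀ i, Matrix (C i) (C i) ℂ)) ∈ gTC X D := by
  have h1 : hT X D ∈ Submodule.span ℂ (cm '' {M : Matrix (Tot B C) (Tot B C) ℚ | L X D M = 0}) := by
    refine sol (L X D) (Lc X D) ?_ ?_
    · intro M t
      rcases t with t | p
      · let _ := t.fin
        let _ := t.dec
        show der (cm M) (cx t.f) t.J = ((der M t.f t.J : ℚ) : ℂ)
        rw [der_cm]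
        rfl
      · show (cm M - placeAll (bl B C ℂ (cm M)).1 (bl B C ℂ (cm M)).2) p.1 p.2 =
          (((M - placeAll (bl B C ℚ M).1 (bl B C ℚ M).2) p.1 p.2 : ℚ) : ℂ)
        rw [bl_cm]
        have e : placeAll (cp (bl B C ℚ M)).1 (cp (bl B C ℚ M)).2 =
            cm (placeAll (bl B C ℚ M).1 (bl B C ℚ M).2) := (placeAll_cm _ _).symm
        rw [e, Matrix.sub_apply, Matrix.sub_apply]
        push_cast
        rfl
    · funext t
      rcases t with t | p
      · have := t.hodge
        unfold IsHodgeT at this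
        exact congrFun this t.J
      · show (hT X D - placeAll (bl B C ℂ (hT X D)).1 (bl B C ℂ (hT X D)).2) p.1 p.2 = 0
        unfold hT
        rw [bl_placeAll (B := B) (C := C) (K := ℂ)
          ((fun i => (X i).h, fun i => (X i).ht (D i).Φ) : Pr B C ℂ)]
        rw [sub_self]
        rfl
  have h2 := Submodule.mem_map_of_mem (f := bl B C ℂ) h1
  have e : bl B C ℂ (hT X D) = ((fun i => (X i).h, fun i => (X i).ht (D i).Φ) : Pr B C ℂ) :=
    bl_placeAll (B := B) (C := C) (K := ℂ)
      ((fun i => (X i).h, fun i => (X i).ht (D i).Φ) : Pr B C ℂ)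
  rw [e, Submodule.map_span] at h2
  refine Submodule.span_mono ?_ h2
  rintro _ ⟨_, ⟨M, hM, rfl⟩, rfl⟩
  refine ⟨bl B C ℚ M, ?_, rfl⟩
  have hM' : M = placeAll (bl B C ℚ M).1 (bl B C ℚ M).2 := by
    ext p q
    have h3 : L X D M (Sum.inr (p, q)) = 0 := congrFun hM (Sum.inr (p, q))
    have h4 : (M - placeAll (bl B C ℚ M).1 (bl B C ℚ M).2) p q = 0 := h3
    rw [Matrix.sub_apply, sub_eq_zero] at h4
    exact h4
  intro S _ _ f hf
  rw [← hM']
  funext J
  exact congrFun hM (Sum.inl ⟨S, inferInstance, inferInstance, f, hf, J⟩)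

theorem gTC_bracket {y z : (∀ i, Matrix (B i) (B i) ℂ) × (∀ i, Matrix (C i) (C i) ℂ)}
    (hy : y ∈ gTC X D) (hz : z ∈ gTC X D) : y * z - z * y ∈ gTC X D := by
  unfold gTC at hy hz
  induction hy using Submodule.span_induction with
  | mem y hy =>
    induction hz using Submodule.span_induction with
    | mem z hz =>
      obtain ⟨y₀, hy₀, rfl⟩ := hy
      obtain ⟨z₀, hz₀, rfl⟩ := hz
      have e : cp y₀ * cp z₀ - cp z₀ * cp y₀ = cp (y₀ * z₀ - z₀ * y₀) := by
        rw [cp_sub, cp_mul, cp_mul]
      show cp y₀ * cp z₀ - cp z₀ * cp y₀ ∈ _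
      rw [e]
      exact Submodule.subset_span ⟨_, gT_bracket X D hy₀ hz₀, rfl⟩
    | zero =>
      rw [mul_zero, zero_mul, sub_zero]
      exact Submodule.zero_mem _
    | add z z' _ _ h1 h2 =>
      have e : y * (z + z') - (z + z') * y = (y * z - z * y) + (y * z' - z' * y) := by
        rw [mul_add, add_mul]; abel
      rw [e]
      exact Submodule.add_mem _ h1 h2
    | smul c z _ h1 =>
      have e : y * (c • z) - (c • z) * y = c • (y * z - z * y) := by
        rw [mul_smul_comm, smul_mul_assoc, smul_sub]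
      rw [e]
      exact Submodule.smul_mem _ _ h1
  | zero =>
    rw [mul_zero, zero_mul, sub_zero]
    exact Submodule.zero_mem _
  | add y y' _ _ h1 h2 =>
    have e : (y + y') * z - z * (y + y') = (y * z - z * y) + (y' * z - z * y') := by
      rw [mul_add, add_mul]; abel
    rw [e]
    exact Submodule.add_mem _ h1 h2
  | smul c y _ h1 =>
    have e : (c • y) * z - z * (c • y) = c • (y * z - z * y) := by
      rw [mul_smul_comm, smul_mul_assoc, smul_sub]
    rw [e]
    exact Submodule.smul_mem _ _ h1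

theorem gTC_kill {y : (∀ i, Matrix (B i) (B i) ℂ) × (∀ i, Matrix (C i) (C i) ℂ)}
    (hy : y ∈ gTC X D) {S : Type} [Fintype S] [DecidableEq S] (f : (S → Tot B C) → ℚ)
    (hf : IsHodgeT X D f) : der (placeAll y.1 y.2) (cx f) = 0 := by
  unfold gTC at hy
  induction hy using Submodule.span_induction with
  | mem y hy =>
    obtain ⟨y₀, hy₀, rfl⟩ := hy
    have h1 := hy₀ S _ _ f hf
    show der (placeAll (fun i => cm (y₀.1 i)) fun i => cm (y₀.2 i)) (cx f) = 0
    rw [← placeAll_cm, der_cm, h1]
    funext J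
    simp [cx]
  | zero =>
    have e : placeAll (0 : Pr B C ℂ).1 (0 : Pr B C ℂ).2 = 0 := by
      have := placeAll_smul (B := B) (C := C) (0 : ℂ) 0
      rw [zero_smul, zero_smul] at this
      exact this
    rw [e]
    funext J
    simp [der]
  | add y y' _ _ h1 h2 => rw [placeAll_add, der_add', h1, h2, add_zero]
  | smul c y _ h1 => rw [placeAll_smul, der_smul', h1, smul_zero]

end family

end

end Pool.Agent.N429.KS
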