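import Pool.Agent.N429.KS.Desc
import Pool.Agent.N429.KS.Z5
import Pool.Agent.N429.KS.Z9
import Pool.Agent.N429.KS.Z10

/-!
# Z15 complex intertwiners, Z16 pure elements (helper73)
-/

set_option linter.unusedSectionVars false

open Matrix Finset Function

namespace Pool.Agent.N429.KS

noncomputable section

section more2

variable {I : Type} [Fintype I] [DecidableEq I] {B C : I → Type} [∀ i, Fintype (B i)]
  [∀ i, DecidableEq (B i)] [∀ i, Fintype (C i)] [∀ i, DecidableEq (C i)]
  (X : ∀ i, K3Type (B i)) (D : ∀ i, KSData (X i) (C i))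

/-- Z15 complex intertwiners give rational ones -/
theorem no_intertwiner (i j : I)
    (hom : ∀ M : Matrix (B j) (B i) ℚ, cm M * (X i).h = (X j).h * cm M → M = 0)
    (G : Matrix (B j) (B i) ℂ) (hG : ∀ y ∈ gT X D, G * cm (y.1 i) = cm (y.1 j) * G) : G = 0 := by
  let τ : Type := {y // y ∈ gT X D} × B j × B i
  let L : Matrix (B j) (B i) ℚ →ₗ[ℚ] (τ → ℚ) :=
    { toFun := fun M t => (M * t.1.1.1 i - t.1.1.1 j * M) t.2.1 t.2.2
      map_add' := by
        intro M N
        funext t
        simp only [Pi.add_apply]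
        rw [Matrix.add_mul, Matrix.mul_add, add_sub_add_comm, Matrix.add_apply]
      map_smul' := by
        intro c M
        funext t
        simp only [Pi.smul_apply, RingHom.id_apply]
        rw [Matrix.smul_mul, Matrix.mul_smul, ← smul_sub, Matrix.smul_apply] }
  let Lc : Matrix (B j) (B i) ℂ →ₗ[ℂ] (τ → ℂ) :=
    { toFun := fun M t => (M * cm (t.1.1.1 i) - cm (t.1.1.1 j) * M) t.2.1 t.2.2
      map_add' := by
        intro M N
        funext t
        simp only [Pi.add_apply]
        rw [Matrix.add_mul, Matrix.mul_add, add_sub_add_comm, Matrix.add_apply]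
      map_smul' := by
        intro c M
        funext t
        simp only [Pi.smul_apply, RingHom.id_apply]
        rw [Matrix.smul_mul, Matrix.mul_smul, ← smul_sub, Matrix.smul_apply] }
  have hL : ∀ M t, Lc (cm M) t = (L M t : ℂ) := by
    intro M t
    change (cm M * cm (t.1.1.1 i) - cm (t.1.1.1 j) * cm M) t.2.1 t.2.2 =
      (((M * t.1.1.1 i - t.1.1.1 j * M) t.2.1 t.2.2 : ℚ) : ℂ)
    have h1 : cm M * cm (t.1.1.1 i) = cm (M * t.1.1.1 i) := (Matrix.map_mul).symm
    have h2 : cm (t.1.1.1 j) * cm M = cm (t.1.1.1 j * M) := (Matrix.map_mul).symm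
    rw [h1, h2, Matrix.sub_apply, Matrix.sub_apply]
    push_cast
    rfl
  have hZ : Lc G = 0 := by
    funext t
    change (G * cm (t.1.1.1 i) - cm (t.1.1.1 j) * G) t.2.1 t.2.2 = 0
    rw [hG t.1.1 t.1.2, sub_self]
    rfl
  have h1 := sol L Lc hL hZ
  have h2 : cm '' {M : Matrix (B j) (B i) ℚ | L M = 0} ⊆ ({0} : Set (Matrix (B j) (B i) ℂ)) := by
    rintro _ ⟨M, hM, rfl⟩
    have h3 : ∀ y ∈ gT X D, M * y.1 i = y.1 j * M := by
      intro y hy
      ext a b
      have h4 := congrFun (show L M = 0 from hM) (⟨⟨y, hy⟩, a, b⟩ : τ)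
      change (M * y.1 i - y.1 j * M) a b = 0 at h4
      rw [Matrix.sub_apply, sub_eq_zero] at h4
      exact h4
    have h5 : ∀ y ∈ gTC X D, cm M * y.1 i = y.1 j * cm M := by
      intro y hy
      rw [gTC] at hy
      induction hy using Submodule.span_induction with
      | mem y hy =>
        obtain ⟨z, hz, rfl⟩ := hy
        change cm M * cm (z.1 i) = cm (z.1 j) * cm M
        have h6 : cm M * cm (z.1 i) = cm (M * z.1 i) := (Matrix.map_mul).symm
        have h7 : cm (z.1 j) * cm M = cm (z.1 j * M) := (Matrix.map_mul).symm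
        rw [h6, h7, h3 z hz]
      | zero =>
        change cm M * (0 : Matrix (B i) (B i) ℂ) = (0 : Matrix (B j) (B j) ℂ) * cm M
        rw [Matrix.mul_zero, Matrix.zero_mul]
      | add y z _ _ hy hz =>
        change cm M * (y.1 i + z.1 i) = (y.1 j + z.1 j) * cm M
        rw [Matrix.mul_add, Matrix.add_mul, hy, hz]
      | smul c y _ hy =>
        change cm M * (c • y.1 i) = (c • y.1 j) * cm M
        rw [Matrix.mul_smul, Matrix.smul_mul, hy]
    have h6 : M = 0 := hom M (h5 _ (gTC_h X D))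
    rw [h6]
    exact Matrix.map_zero _ (map_zero _)
  have h3 := Submodule.span_mono h2 h1
  rw [Submodule.span_zero_singleton, Submodule.mem_bot] at h3
  exact h3

/-- Z16 the elements of `gTC` whose part on `H` is determined by the part on `V`: an ideal -/
theorem pure_ideal {y z : (∀ i, Matrix (B i) (B i) ℂ) × (∀ i, Matrix (C i) (C i) ℂ)}
    (hy : y ∈ gTC X D) (hz : z ∈ gTC X D) (hz' : ∀ i, z.2 i = (X i).lft (D i).Φ (z.1 i)) :
    y * z - z * y ∈ gTC X D ∧
      ∀ i, (y * z - z * y).2 i = (X i).lft (D i).Φ ((y * z - z * y).1 i) := by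
  refine ⟨gTC_bracket X D hy hz, fun i => ?_⟩
  change y.2 i * z.2 i - z.2 i * y.2 i = (X i).lft (D i).Φ (y.1 i * z.1 i - z.1 i * y.1 i)
  rw [hz' i]
  exact lft_comm (X i) (D i).Φ (D i).cliff (y.1 i) (gTC_skew X D hy i).1 (y.2 i)
    (gTC_phi X D hy i) (z.1 i) (gTC_skew X D hz i).1

end more2

end

end Pool.Agent.N429.KS
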