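import Pool.Agent.N429.KS.Defs2

/-!
# Z7: separation of the factors (helper413, for project KS of helper429)
-/

set_option linter.unusedSectionVars false

open Matrix Finset Function

namespace Pool.Agent.N429.KS

theorem isolate_aux {I : Type} [Fintype I] [DecidableEq I] {A : I → Type} [∀ i, Ring (A i)]
    [∀ i, Algebra ℂ (A i)] (P : Submodule ℂ (∀ i, A i)) (hP : ∀ y ∈ P, ∀ z ∈ P, y * z - z * y ∈ P)
    (i : I) (V : Submodule ℂ (A i))
    (hV : V ≤ Submodule.span ℂ {a | ∃ b ∈ V, ∃ c ∈ V, a = b * c - c * b})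
    (hpair : ∀ a ∈ V, ∀ j, j ≠ i → ∃ p ∈ P, p i = a ∧ p j = 0) (hex : ∀ a ∈ V, ∃ p ∈ P, p i = a)
    (J : Finset I) (hJ : i ∉ J) : ∀ a ∈ V, ∃ p ∈ P, p i = a ∧ ∀ j ∈ J, p j = 0 := by
  induction J using Finset.induction_on with
  | empty =>
    intro a ha
    obtain ⟨p, hp, hpa⟩ := hex a ha
    exact ⟨p, hp, hpa, by simp⟩
  | insert j J hj ih =>
    rw [Finset.mem_insert, not_or] at hJ
    intro a ha
    refine Submodule.span_induction
      (p := fun a _ => ∃ p ∈ P, p i = a ∧ ∀ k ∈ insert j J, p k = 0) ?_ ?_ ?_ ?_ (hV ha)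
    · rintro _ ⟨b, hb, c, hc, rfl⟩
      obtain ⟨p, hp, hpi, hpJ⟩ := ih hJ.2 b hb
      obtain ⟨p', hp', hpi', hpj'⟩ := hpair c hc j (Ne.symm hJ.1)
      refine ⟨p * p' - p' * p, hP p hp p' hp', ?_, ?_⟩
      · rw [Pi.sub_apply, Pi.mul_apply, Pi.mul_apply, hpi, hpi']
      · intro k hk
        rw [Pi.sub_apply, Pi.mul_apply, Pi.mul_apply]
        rcases Finset.mem_insert.1 hk with rfl | hk
        · rw [hpj', mul_zero, zero_mul, sub_zero]
        · rw [hpJ k hk, mul_zero, zero_mul, sub_zero]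
    · exact ⟨0, P.zero_mem, rfl, fun k _ => rfl⟩
    · rintro x y _ _ ⟨p, hp, hpi, hpJ⟩ ⟨p', hp', hpi', hpJ'⟩
      exact ⟨p + p', P.add_mem hp hp', by rw [Pi.add_apply, hpi, hpi'],
        fun k hk => by rw [Pi.add_apply, hpJ k hk, hpJ' k hk, add_zero]⟩
    · rintro c x _ ⟨p, hp, hpi, hpJ⟩
      exact ⟨c • p, P.smul_mem c hp, by rw [Pi.smul_apply, hpi],
        fun k hk => by rw [Pi.smul_apply, hpJ k hk, smul_zero]⟩

/-- Z7 separation of the factors -/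
theorem isolate {I : Type} [Fintype I] [DecidableEq I] {A : I → Type} [∀ i, Ring (A i)]
    [∀ i, Algebra ℂ (A i)] (P : Submodule ℂ (∀ i, A i)) (hP : ∀ y ∈ P, ∀ z ∈ P, y * z - z * y ∈ P)
    (i : I) (V : Submodule ℂ (A i))
    (hV : V ≤ Submodule.span ℂ {a | ∃ b ∈ V, ∃ c ∈ V, a = b * c - c * b})
    (hbr : ∀ b ∈ V, ∀ c ∈ V, b * c - c * b ∈ V)
    (hpair : ∀ a ∈ V, ∀ j, j ≠ i → ∃ p ∈ P, p i = a ∧ p j = 0) (hex : ∀ a ∈ V, ∃ p ∈ P, p i = a)
    (a : A i) (ha : a ∈ V) : Pi.single i a ∈ P := by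
  obtain ⟨p, hp, hpi, hpJ⟩ := isolate_aux P hP i V hV hpair hex (Finset.univ.erase i) (by simp) a ha
  have h : Pi.single i a = p := by
    funext j
    by_cases hj : j = i
    · subst hj
      rw [Pi.single_eq_same, hpi]
    · rw [Pi.single_eq_of_ne hj, hpJ j (by simp [hj])]
  rw [h]
  exact hp

end Pool.Agent.N429.KS
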