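import Pool.Agent.N429.KS.Defs2
import Pool.Agent.N429.KS.Z2
import Pool.Agent.N429.KS.Z5
import Pool.Agent.N429.KS.Z7
import Pool.Agent.N429.KS.Z8
import Pool.Agent.N429.KS.Z9
import Pool.Agent.N429.KS.Z10
import Pool.Agent.N429.KS.Z13
import Pool.Agent.N429.KS.Z14
import Pool.Agent.N429.KS.Z15

/-!
# Z12 the theorem of Zarhin for the family, from the statement of Z6 (helper891)
-/

set_option linter.unusedSectionVars false
set_option autoImplicit false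

open Matrix Finset Function

namespace Pool.Agent.N429.KS

noncomputable section

namespace Z12

/-! ### Linearity -/

section gen

variable {K : Type} [Field K]

/-- `der` as a linear map in the operator -/
def derL {W : Type} [Fintype W] [DecidableEq W] {S : Type} [Fintype S] [DecidableEq S]
    (f : (S → W) → K) : Matrix W W K →ₗ[K] ((S → W) → K) where
  toFun X := der X f
  map_add' X Y := by
    funext J
    simp only [der, Matrix.add_apply, add_mul, Finset.sum_add_distrib, Pi.add_apply]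
  map_smul' c X := by
    funext J
    simp only [der, Matrix.smul_apply, smul_eq_mul, mul_assoc, ← Finset.mul_sum, Pi.smul_apply,
      RingHom.id_apply]

lemma der_cm {W : Type} [Fintype W] [DecidableEq W] {S : Type} [Fintype S] [DecidableEq S]
    (M : Matrix W W ℚ) (f : (S → W) → ℚ) : der (cm M) (cx f) = cx (der M f) := by
  funext J
  simp only [der, cm, cx, Matrix.map_apply, eq_ratCast]
  push_cast
  rfl

variable {I : Type} [Fintype I] [DecidableEq I] {B C : I → Type} [∀ i, Fintype (B i)]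
  [∀ i, DecidableEq (B i)] [∀ i, Fintype (C i)] [∀ i, DecidableEq (C i)]

/-- `placeAll` as a linear map -/
def plL : ((∀ i, Matrix (B i) (B i) K) × (∀ i, Matrix (C i) (C i) K)) →ₗ[K]
    Matrix (Tot B C) (Tot B C) K where
  toFun y := placeAll y.1 y.2
  map_add' y z := by
    unfold placeAll
    rw [← blockDiagonal'_add]
    congr 1
    funext i
    simp [fromBlocks_add]
  map_smul' c y := by
    unfold placeAll
    rw [RingHom.id_apply, ← blockDiagonal'_smul]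
    congr 1
    funext i
    simp [fromBlocks_smul]

/-- `place i` as a linear map -/
def piL (i : I) : (Matrix (B i) (B i) K × Matrix (C i) (C i) K) →ₗ[K]
    Matrix (Tot B C) (Tot B C) K :=
  (plL (K := K) (B := B) (C := C)).comp
    (LinearMap.prodMap (LinearMap.single K (fun i => Matrix (B i) (B i) K) i)
      (LinearMap.single K (fun i => Matrix (C i) (C i) K) i))

lemma piL_apply (i : I) (Y : Matrix (B i) (B i) K) (Z : Matrix (C i) (C i) K) :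
    piL i (Y, Z) = place (B := B) (C := C) i Y Z := rfl

end gen

section fam

variable {I : Type} [Fintype I] [DecidableEq I] {B C : I → Type} [∀ i, Fintype (B i)]
  [∀ i, DecidableEq (B i)] [∀ i, Fintype (C i)] [∀ i, DecidableEq (C i)]

lemma place_cm (i : I) (Y : Matrix (B i) (B i) ℚ) (Z : Matrix (C i) (C i) ℚ) :
    place (B := B) (C := C) i (cm Y) (cm Z) = cm (place i Y Z) := by
  have h1 : (Pi.single i (cm Y) : ∀ i, Matrix (B i) (B i) ℂ) =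
      fun j => cm ((Pi.single i Y : ∀ i, Matrix (B i) (B i) ℚ) j) := by
    funext j
    by_cases h : j = i
    · subst h
      rw [Pi.single_eq_same, Pi.single_eq_same]
    · rw [Pi.single_eq_of_ne h, Pi.single_eq_of_ne h]
      exact (Matrix.map_zero _ (map_zero _)).symm
  have h2 : (Pi.single i (cm Z) : ∀ i, Matrix (C i) (C i) ℂ) =
      fun j => cm ((Pi.single i Z : ∀ i, Matrix (C i) (C i) ℚ) j) := by
    funext j
    by_cases h : j = i
    · subst h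
      rw [Pi.single_eq_same, Pi.single_eq_same]
    · rw [Pi.single_eq_of_ne h, Pi.single_eq_of_ne h]
      exact (Matrix.map_zero _ (map_zero _)).symm
  unfold place placeAll
  rw [h1, h2]
  unfold cm
  rw [blockDiagonal'_map _ _ (map_zero _)]
  congr 1
  funext j
  rw [fromBlocks_map, Matrix.map_zero _ (map_zero _), Matrix.map_zero _ (map_zero _)]

variable (X : ∀ i, K3Type (B i)) (D : ∀ i, KSData (X i) (C i))

lemma gT_add {y z : (∀ i, Matrix (B i) (B i) ℚ) × (∀ i, Matrix (C i) (C i) ℚ)}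
    (hy : y ∈ gT X D) (hz : z ∈ gT X D) : y + z ∈ gT X D := by
  intro S _ _ f hf
  have h := (derL f).map_add (plL y) (plL z)
  rw [← plL.map_add] at h
  have h1 : derL f (plL y) = 0 := hy S _ _ f hf
  have h2 : derL f (plL z) = 0 := hz S _ _ f hf
  rw [h1, h2, add_zero] at h
  exact h

lemma gT_zero : (0 : (∀ i, Matrix (B i) (B i) ℚ) × (∀ i, Matrix (C i) (C i) ℚ)) ∈ gT X D := by
  intro S _ _ f hf
  have h : derL f (plL (0 : (∀ i, Matrix (B i) (B i) ℚ) × (∀ i, Matrix (C i) (C i) ℚ))) = 0 := by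
    rw [map_zero, map_zero]
  exact h

lemma gT_smul (c : ℚ) {y : (∀ i, Matrix (B i) (B i) ℚ) × (∀ i, Matrix (C i) (C i) ℚ)}
    (hy : y ∈ gT X D) : c • y ∈ gT X D := by
  intro S _ _ f hf
  have h := (derL f).map_smul c (plL y)
  rw [← plL.map_smul] at h
  have h1 : derL f (plL y) = 0 := hy S _ _ f hf
  rw [h1, smul_zero] at h
  exact h

/-- the projection of `gT` to the factor `j` -/
def gj (j : I) : Submodule ℚ (Matrix (B j) (B j) ℚ) where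
  carrier := {Y | ∃ y ∈ gT X D, y.1 j = Y}
  add_mem' := by
    rintro _ _ ⟨y, hy, rfl⟩ ⟨z, hz, rfl⟩
    exact ⟨y + z, gT_add X D hy hz, rfl⟩
  zero_mem' := ⟨0, gT_zero X D, rfl⟩
  smul_mem' := by
    rintro c _ ⟨y, hy, rfl⟩
    exact ⟨c • y, gT_smul X D c hy, rfl⟩

/-- the projection to the factor `j` -/
def pj (B C : I → Type) [∀ i, Fintype (B i)] [∀ i, DecidableEq (B i)] [∀ i, Fintype (C i)]
    [∀ i, DecidableEq (C i)] (j : I) : ((∀ i, Matrix (B i) (B i) ℂ) × (∀ i, Matrix (C i) (C i) ℂ)) →ₗ[ℂ]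
    Matrix (B j) (B j) ℂ :=
  (LinearMap.proj j : (∀ i, Matrix (B i) (B i) ℂ) →ₗ[ℂ] Matrix (B j) (B j) ℂ).comp
    (LinearMap.fst ℂ (∀ i, Matrix (B i) (B i) ℂ) (∀ i, Matrix (C i) (C i) ℂ))

lemma pj_apply (j : I) (y : (∀ i, Matrix (B i) (B i) ℂ) × (∀ i, Matrix (C i) (C i) ℂ)) :
    pj B C j y = y.1 j := rfl

lemma map_gTC (j : I) : (gTC X D).map (pj B C j) =
    Submodule.span ℂ (cm '' (gj X D j : Set (Matrix (B j) (B j) ℚ))) := by
  unfold gTC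
  rw [Submodule.map_span, ← Set.image_comp]
  congr 1
  ext Y
  constructor
  · rintro ⟨y, hy, rfl⟩
    exact ⟨y.1 j, ⟨y, hy, rfl⟩, rfl⟩
  · rintro ⟨_, ⟨y, hy, rfl⟩, rfl⟩
    exact ⟨y, hy, rfl⟩

/-- `lft` as a linear map -/
def lftL (j : I) : Matrix (B j) (B j) ℂ →ₗ[ℂ] Matrix (C j) (C j) ℂ where
  toFun Y := (X j).lft (D j).Φ Y
  map_add' Y Z := by
    simp only [K3Type.lft, Matrix.add_mul, Matrix.add_apply, add_smul, Finset.sum_add_distrib,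
      smul_add]
  map_smul' c Y := by
    simp only [K3Type.lft, Matrix.smul_mul, Matrix.smul_apply, smul_eq_mul, mul_smul,
      ← Finset.smul_sum, RingHom.id_apply]
    rw [smul_comm]

/-- the pure elements -/
def PP : Submodule ℂ ((∀ i, Matrix (B i) (B i) ℂ) × (∀ i, Matrix (C i) (C i) ℂ)) where
  carrier := {y | y ∈ gTC X D ∧ ∀ j, y.2 j = lftL X D j (y.1 j)}
  add_mem' := by
    rintro y z ⟨hy, hy'⟩ ⟨hz, hz'⟩
    refine ⟨(gTC X D).add_mem hy hz, fun j => ?_⟩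
    have h1 : (y + z).2 j = y.2 j + z.2 j := rfl
    have h2 : (y + z).1 j = y.1 j + z.1 j := rfl
    rw [h1, h2, hy', hz', map_add]
  zero_mem' := by
    refine ⟨(gTC X D).zero_mem, fun j => ?_⟩
    have h1 : (0 : (∀ i, Matrix (B i) (B i) ℂ) × (∀ i, Matrix (C i) (C i) ℂ)).2 j = 0 := rfl
    have h2 : (0 : (∀ i, Matrix (B i) (B i) ℂ) × (∀ i, Matrix (C i) (C i) ℂ)).1 j = 0 := rfl
    rw [h1, h2, map_zero]
  smul_mem' := by
    rintro c y ⟨hy, hy'⟩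
    refine ⟨(gTC X D).smul_mem c hy, fun j => ?_⟩
    have h1 : (c • y).2 j = c • y.2 j := rfl
    have h2 : (c • y).1 j = c • y.1 j := rfl
    rw [h1, h2, hy', map_smul]

lemma PP_le : PP X D ≤ gTC X D := fun _ h => h.1

lemma PP_ideal {y z : (∀ i, Matrix (B i) (B i) ℂ) × (∀ i, Matrix (C i) (C i) ℂ)}
    (hy : y ∈ gTC X D) (hz : z ∈ PP X D) : y * z - z * y ∈ PP X D := by
  have h := pure_ideal X D hy hz.1 (fun i => hz.2 i)
  exact ⟨h.1, fun j => h.2 j⟩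

/-- the operator of the Hodge structure is pure -/
lemma h_mem : ((fun i => (X i).h, fun i => (X i).ht (D i).Φ) :
    (∀ i, Matrix (B i) (B i) ℂ) × (∀ i, Matrix (C i) (C i) ℂ)) ∈ PP X D :=
  ⟨gTC_h X D, fun j => (lft_h (X j) (D j).Φ).symm⟩

end fam

/-! ### Facts on one structure -/

section one

variable {B : Type} [Fintype B] [DecidableEq B] (X : K3Type B)

lemma cm_symm : (cm X.q).IsSymm := by
  unfold cm
  rw [Matrix.IsSymm, ← Matrix.transpose_map, X.sym.eq]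

lemma N_ne : X.N ≠ 0 := X.pol

lemma star_iso : star X.ω ⬝ᵥ (cm X.q *ᵥ star X.ω) = 0 := by
  have h := congrArg star X.iso
  rw [star_zero] at h
  rw [← h]
  simp only [dotProduct, mulVec, star_sum, star_mul', Pi.star_apply]
  refine Finset.sum_congr rfl fun a _ => ?_
  congr 1
  refine Finset.sum_congr rfl fun b _ => ?_
  congr 1
  simp [cm]

lemma wedge_of_h : wedge (cm X.q) X.ω (star X.ω) = X.N • X.h := by
  unfold K3Type.h
  rw [smul_smul, mul_inv_cancel₀ (N_ne X), one_smul]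

end one

/-! ### Expansion of the wedge products -/

section expand

variable {B C : Type} [Fintype B] [DecidableEq B] [Fintype C] [DecidableEq C]

lemma wedge_expand (q : Matrix B B ℚ) (x y : B → ℂ) : wedge (cm q) x y =
    ∑ a, ∑ b, (x a * y b) • cm (wedge q (Pi.single a 1) (Pi.single b 1)) := by
  ext c d
  have h : ∀ a b : B, (cm (wedge q (Pi.single a 1) (Pi.single b 1))) c d =
      (if c = a then (1 : ℂ) else 0) * q d b - (if c = b then (1 : ℂ) else 0) * q d a := by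
    intro a b
    simp only [cm, wedge, Matrix.map_apply, Matrix.sub_apply, vecMulVec_apply, mulVec_single_one,
      Matrix.col_apply, Pi.single_apply, eq_ratCast]
    push_cast
    split_ifs <;> simp
  simp only [Matrix.sum_apply, Matrix.smul_apply, smul_eq_mul, h, mul_sub,
    Finset.sum_sub_distrib]
  have h1 : ∑ a, ∑ b, x a * y b * ((if c = a then (1 : ℂ) else 0) * (q d b : ℂ)) =
      x c * ∑ b, (q d b : ℂ) * y b := by
    rw [Finset.sum_eq_single c]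
    · rw [Finset.mul_sum]
      refine Finset.sum_congr rfl fun b _ => ?_
      rw [if_pos rfl]
      ring
    · intro a _ ha
      refine Finset.sum_eq_zero fun b _ => ?_
      rw [if_neg (Ne.symm ha)]
      ring
    · intro hc
      exact absurd (Finset.mem_univ c) hc
  have h2 : ∑ a, ∑ b, x a * y b * ((if c = b then (1 : ℂ) else 0) * (q d a : ℂ)) =
      y c * ∑ a, (q d a : ℂ) * x a := by
    rw [Finset.sum_comm, Finset.sum_eq_single c]
    · rw [Finset.mul_sum]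
      refine Finset.sum_congr rfl fun b _ => ?_
      rw [if_pos rfl]
      ring
    · intro a _ ha
      refine Finset.sum_eq_zero fun b _ => ?_
      rw [if_neg (Ne.symm ha)]
      ring
    · intro hc
      exact absurd (Finset.mem_univ c) hc
  rw [h1, h2]
  simp only [wedge, Matrix.sub_apply, vecMulVec_apply, mulVec, dotProduct, cm, Matrix.map_apply,
    eq_ratCast]

lemma lft_expand (X : K3Type B) (Φ : B → Matrix C C ℚ) (x y : B → ℂ) :
    X.lft Φ (wedge (cm X.q) x y) =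
      ∑ a, ∑ b, (x a * y b) • cm ((1 / 4 : ℚ) • (Φ a * Φ b - Φ b * Φ a)) := by
  rw [lft_wedge]
  have hm : ∀ a b, cm ((1 / 4 : ℚ) • (Φ a * Φ b - Φ b * Φ a)) =
      (1 / 4 : ℂ) • (cm (Φ a) * cm (Φ b) - cm (Φ b) * cm (Φ a)) := by
    intro a b
    ext c d
    simp only [cm, Matrix.map_apply, Matrix.smul_apply, Matrix.sub_apply, Matrix.mul_apply,
      smul_eq_mul, eq_ratCast]
    push_cast
    rfl
  have h1 : K3Type.phi Φ x * K3Type.phi Φ y = ∑ a, ∑ b, (x a * y b) • (cm (Φ a) * cm (Φ b)) := by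
    unfold K3Type.phi
    rw [Finset.sum_mul]
    refine Finset.sum_congr rfl fun a _ => ?_
    rw [Finset.mul_sum]
    refine Finset.sum_congr rfl fun b _ => ?_
    rw [smul_mul_smul_comm]
  have h2 : K3Type.phi Φ y * K3Type.phi Φ x = ∑ a, ∑ b, (x a * y b) • (cm (Φ b) * cm (Φ a)) := by
    unfold K3Type.phi
    rw [Finset.sum_mul]
    simp only [Finset.mul_sum]
    rw [Finset.sum_comm]
    refine Finset.sum_congr rfl fun a _ => ?_
    refine Finset.sum_congr rfl fun b _ => ?_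
    rw [smul_mul_smul_comm, mul_comm (y b)]
  rw [h1, h2, ← Finset.sum_sub_distrib, Finset.smul_sum]
  refine Finset.sum_congr rfl fun a _ => ?_
  rw [← Finset.sum_sub_distrib, Finset.smul_sum]
  refine Finset.sum_congr rfl fun b _ => ?_
  rw [hm, ← smul_sub, smul_comm]

end expand


/-! ### The main argument -/

/-- the statement of Z6 -/
def PairS : Prop := ∀ {B₁ B₂ : Type} [Fintype B₁] [DecidableEq B₁] [Fintype B₂] [DecidableEq B₂]
    (Q₁ : Matrix B₁ B₁ ℂ) (Q₂ : Matrix B₂ B₂ ℂ) (hQ₁ : Q₁.IsSymm) (hQ₂ : Q₂.IsSymm)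
    (L P : Submodule ℂ (Matrix B₁ B₁ ℂ × Matrix B₂ B₂ ℂ)) (hPL : P ≤ L)
    (hLP : ∀ y ∈ L, ∀ z ∈ P, y * z - z * y ∈ P)
    (hsk₁ : ∀ y ∈ L, Q₁ * y.1 + y.1ᵀ * Q₁ = 0) (hsk₂ : ∀ y ∈ L, Q₂ * y.2 + y.2ᵀ * Q₂ = 0)
    (ω₁ ω₁' : B₁ → ℂ) (ω₂ ω₂' : B₂ → ℂ) (h11 : ω₁ ⬝ᵥ (Q₁ *ᵥ ω₁) = 0)
    (h12 : ω₁' ⬝ᵥ (Q₁ *ᵥ ω₁') = 0) (h21 : ω₂ ⬝ᵥ (Q₂ *ᵥ ω₂) = 0) (h22 : ω₂' ⬝ᵥ (Q₂ *ᵥ ω₂') = 0)
    (N₁ N₂ : ℂ) (hN₁ : ω₁ ⬝ᵥ (Q₁ *ᵥ ω₁') = N₁) (hN₂ : ω₂ ⬝ᵥ (Q₂ *ᵥ ω₂') = N₂) (hN₁0 : N₁ ≠ 0)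
    (hN₂0 : N₂ ≠ 0) (hh : (N₁⁻¹ • wedge Q₁ ω₁ ω₁', N₂⁻¹ • wedge Q₂ ω₂ ω₂') ∈ P)
    (T₁ : Submodule ℂ (B₁ → ℂ)) (T₂ : Submodule ℂ (B₂ → ℂ)) (hω₁ : ω₁ ∈ T₁) (hω₁' : ω₁' ∈ T₁)
    (hω₂ : ω₂ ∈ T₂) (hω₂' : ω₂' ∈ T₂) (hT₁ : ∀ y ∈ L, ∀ x ∈ T₁, y.1 *ᵥ x ∈ T₁)
    (hT₂ : ∀ y ∈ L, ∀ x ∈ T₂, y.2 *ᵥ x ∈ T₂)
    (hnd₁ : ∀ x ∈ T₁, x ≠ 0 → ∃ y ∈ T₁, x ⬝ᵥ (Q₁ *ᵥ y) ≠ 0)
    (hnd₂ : ∀ x ∈ T₂, x ≠ 0 → ∃ y ∈ T₂, x ⬝ᵥ (Q₂ *ᵥ y) ≠ 0)
    (hs₁ : ∀ x ∈ T₁, ∀ y ∈ T₁, ∃ Z, (wedge Q₁ x y, Z) ∈ P)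
    (hs₂ : ∀ x ∈ T₂, ∀ y ∈ T₂, ∃ Z, (Z, wedge Q₂ x y) ∈ P)
    (hd₁ : 3 ≤ Module.finrank ℂ T₁) (hd₂ : 3 ≤ Module.finrank ℂ T₂)
    (h4₁ : Module.finrank ℂ T₁ ≠ 4) (h4₂ : Module.finrank ℂ T₂ ≠ 4),
    (wedge Q₁ ω₁ ω₁', 0) ∈ P ∨ ∃ G : (B₁ → ℂ) →ₗ[ℂ] (B₂ → ℂ), (∃ x ∈ T₁, G x ≠ 0) ∧
      (∀ x ∈ T₁, G x ∈ T₂) ∧ ∀ y ∈ L, ∀ x ∈ T₁, G (y.1 *ᵥ x) = y.2 *ᵥ (G x)

section main

variable {I : Type} [Fintype I] [DecidableEq I] {B C : I → Type} [∀ i, Fintype (B i)]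
  [∀ i, DecidableEq (B i)] [∀ i, Fintype (C i)] [∀ i, DecidableEq (C i)]
  (X : ∀ i, K3Type (B i)) (D : ∀ i, KSData (X i) (C i))

/-- the eigenspace of the period, with its properties, for the Lie algebra `gTC` -/
structure Per (j : I) (θ : Matrix (B j) (B j) ℚ) (r : ℂ) (T : Submodule ℂ (B j → ℂ)) : Prop where
  sym : ((X j).q * θ).IsSymm
  com : cm θ * (X j).h = (X j).h * cm θ
  irr : Irreducible (minpoly ℚ θ)
  root : Polynomial.aeval r (minpoly ℚ θ) = 0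
  mem : ∀ x, x ∈ T ↔ cm θ *ᵥ x = r • x
  om : (X j).ω ∈ T
  om' : star (X j).ω ∈ T
  inv : ∀ y ∈ gTC X D, ∀ x ∈ T, y.1 j *ᵥ x ∈ T
  simple : ∀ M ≤ T, (∀ y ∈ gTC X D, ∀ x ∈ M, y.1 j *ᵥ x ∈ M) → M = ⊥ ∨ M = T
  nd : ∀ x ∈ T, x ≠ 0 → ∃ y ∈ T, x ⬝ᵥ (cm (X j).q *ᵥ y) ≠ 0
  dim : 3 ≤ Module.finrank ℂ T
  card : Fintype.card (B j) = Module.finrank ℚ (X j).endo * Module.finrank ℂ T
  proj : ∃ P : Matrix (B j) (B j) ℂ, (∀ x, P *ᵥ x ∈ T) ∧ (∀ x ∈ T, P *ᵥ x = x) ∧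
    ∀ y ∈ gT X D, cm (y.1 j) * P = P * cm (y.1 j)

lemma exists_per (hX : ∀ i, (X i).NonCM) (j : I) : ∃ θ r T, Per X D j θ r T := by
  have hh : (X j).h ∈ Submodule.span ℂ (cm '' (gj X D j : Set (Matrix (B j) (B j) ℚ))) := by
    rw [← map_gTC]
    exact ⟨_, gTC_h X D, rfl⟩
  have hg : gj X D j ≤ (X j).gQ := by
    rintro _ ⟨y, hy, rfl⟩
    exact gT_le X D j y hy
  obtain ⟨θ, r, T, h1, h2, h3, h4, -, h6, h7, h8, h9, h10, h11, h12, h13, P, h14, h15, h16⟩ :=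
    period_space (X j) (hX j) (gj X D j) hh hg
  refine ⟨θ, r, T, h1, h2, h3, h4, h6, h7, h8, ?_, ?_, h11, h12, h13, P, h14, h15, ?_⟩
  · intro y hy x hx
    have hy' : y.1 j ∈ Submodule.span ℂ (cm '' (gj X D j : Set (Matrix (B j) (B j) ℚ))) := by
      rw [← map_gTC]
      exact ⟨y, hy, rfl⟩
    refine Submodule.span_induction (p := fun Y _ => Y *ᵥ x ∈ T) ?_ ?_ ?_ ?_ hy'
    · rintro _ ⟨Y, hY, rfl⟩
      exact h9 Y hY x hx
    · rw [zero_mulVec]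
      exact T.zero_mem
    · intro Y Z _ _ hY hZ
      rw [add_mulVec]
      exact T.add_mem hY hZ
    · intro c Y _ hY
      rw [smul_mulVec]
      exact T.smul_mem c hY
  · intro M hM hinv
    refine h10 M hM fun Y hY x hx => ?_
    obtain ⟨y, hy, rfl⟩ := hY
    exact hinv (fun i => cm (y.1 i), fun i => cm (y.2 i)) (Submodule.subset_span ⟨y, hy, rfl⟩) x hx
  · intro y hy
    exact h16 (y.1 j) ⟨y, hy, rfl⟩

variable {X D}

/-- weights: from an ideal `P` of the projection to the factor `j` which contains the wedge product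
of the period and its conjugate -/
lemma use_weight {j : I} {θ : Matrix (B j) (B j) ℚ} {r : ℂ} {T : Submodule ℂ (B j → ℂ)}
    (hT : Per X D j θ r T)
    (Q : Submodule ℂ ((∀ i, Matrix (B i) (B i) ℂ) × (∀ i, Matrix (C i) (C i) ℂ)))
    (hQ : Q ≤ gTC X D) (hid : ∀ y ∈ gTC X D, ∀ z ∈ Q, y * z - z * y ∈ Q)
    (hw : ∃ z ∈ Q, z.1 j = wedge (cm (X j).q) (X j).ω (star (X j).ω)) :
    ∀ x ∈ T, ∀ y ∈ T, ∃ z ∈ Q, z.1 j = wedge (cm (X j).q) x y := by
  have key := weight' (cm (X j).q) (cm_symm (X j)) ((gTC X D).map (pj B C j)) (Q.map (pj B C j))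
    (Submodule.map_mono hQ) ?_ ?_ (X j).ω (star (X j).ω) (X j).iso (star_iso (X j)) (X j).pol ?_ T
    hT.om hT.om' ?_ ?_
  · intro x hx y hy
    obtain ⟨z, hz, hz'⟩ := key x hx y hy
    exact ⟨z, hz, hz'⟩
  · rintro _ ⟨y, hy, rfl⟩ _ ⟨z, hz, rfl⟩
    exact ⟨y * z - z * y, hid y hy z hz, rfl⟩
  · rintro _ ⟨y, hy, rfl⟩
    exact (gTC_skew X D hy j).1
  · obtain ⟨z, hz, hz'⟩ := hw
    exact ⟨z, hz, hz'⟩
  · rintro _ ⟨y, hy, rfl⟩ x hx
    exact hT.inv y hy x hx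
  · intro M hM hinv
    exact hT.simple M hM fun y hy x hx => hinv _ ⟨y, hy, rfl⟩ x hx

/-- the first step -/
lemma step1 {j : I} {θ : Matrix (B j) (B j) ℚ} {r : ℂ} {T : Submodule ℂ (B j → ℂ)}
    (hT : Per X D j θ r T) :
    ∀ x ∈ T, ∀ y ∈ T, ∃ z ∈ PP X D, z.1 j = wedge (cm (X j).q) x y := by
  refine use_weight hT (PP X D) (PP_le X D) (fun y hy z hz => PP_ideal X D hy hz) ?_
  refine ⟨(X j).N • _, (PP X D).smul_mem _ (h_mem X D), ?_⟩
  rw [wedge_of_h]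
  rfl

/-- the second step -/
lemma step2 (pair : PairS) {i j : I} {θ₁ : Matrix (B i) (B i) ℚ} {r₁ : ℂ} {T₁ : Submodule ℂ (B i → ℂ)}
    (hT₁ : Per X D i θ₁ r₁ T₁) {θ₂ : Matrix (B j) (B j) ℚ} {r₂ : ℂ} {T₂ : Submodule ℂ (B j → ℂ)}
    (hT₂ : Per X D j θ₂ r₂ T₂)
    (hom : ∀ M : Matrix (B j) (B i) ℚ, cm M * (X i).h = (X j).h * cm M → M = 0)
    (h4i : Fintype.card (B i) ≠ 4 * Module.finrank ℚ (X i).endo)
    (h4j : Fintype.card (B j) ≠ 4 * Module.finrank ℚ (X j).endo) :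
    ∃ z ∈ PP X D, z.1 i = wedge (cm (X i).q) (X i).ω (star (X i).ω) ∧ z.1 j = 0 := by
  have key := pair (cm (X i).q) (cm (X j).q) (cm_symm (X i)) (cm_symm (X j))
    ((gTC X D).map ((pj B C i).prod (pj B C j))) ((PP X D).map ((pj B C i).prod (pj B C j)))
    (Submodule.map_mono (PP_le X D)) ?_ ?_ ?_ (X i).ω (star (X i).ω) (X j).ω (star (X j).ω)
    (X i).iso (star_iso (X i)) (X j).iso (star_iso (X j)) (X i).N (X j).N rfl rfl (N_ne _) (N_ne _)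
    ?_ T₁ T₂ hT₁.om hT₁.om' hT₂.om hT₂.om' ?_ ?_ hT₁.nd hT₂.nd ?_ ?_ hT₁.dim hT₂.dim ?_ ?_
  · rcases key with ⟨z, hz, hz'⟩ | ⟨G, ⟨x, hx, hGx⟩, hG2, hG3⟩
    · exact ⟨z, hz, congrArg Prod.fst hz', congrArg Prod.snd hz'⟩
    · exfalso
      obtain ⟨P, hP1, hP2, hP3⟩ := hT₁.proj
      have h0 := no_intertwiner X D i j hom (LinearMap.toMatrix' (G ∘ₗ Matrix.toLin' P)) ?_
      · apply hGx
        have h1 : G (P *ᵥ x) = (LinearMap.toMatrix' (G ∘ₗ Matrix.toLin' P)) *ᵥ x := by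
          rw [← Matrix.toLin'_apply (LinearMap.toMatrix' (G ∘ₗ Matrix.toLin' P)),
            Matrix.toLin'_toMatrix']
          rfl
        rw [hP2 x hx, h0, zero_mulVec] at h1
        exact h1
      · intro y hy
        apply Matrix.toLin'.injective
        rw [Matrix.toLin'_mul, Matrix.toLin'_mul, Matrix.toLin'_toMatrix']
        apply LinearMap.ext
        intro v
        have h1 := hG3 (cm (y.1 i), cm (y.1 j)) ⟨(fun i => cm (y.1 i), fun i => cm (y.2 i)),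
          Submodule.subset_span ⟨y, hy, rfl⟩, rfl⟩ (P *ᵥ v) (hP1 v)
        have h2 : P *ᵥ (cm (y.1 i) *ᵥ v) = cm (y.1 i) *ᵥ (P *ᵥ v) := by
          rw [mulVec_mulVec, mulVec_mulVec, hP3 y hy]
        change G (P *ᵥ (cm (y.1 i) *ᵥ v)) = cm (y.1 j) *ᵥ (G (P *ᵥ v))
        rw [h2]
        exact h1
  · rintro _ ⟨y, hy, rfl⟩ _ ⟨z, hz, rfl⟩
    exact ⟨y * z - z * y, PP_ideal X D hy hz, rfl⟩
  · rintro _ ⟨y, hy, rfl⟩
    exact (gTC_skew X D hy i).1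
  · rintro _ ⟨y, hy, rfl⟩
    exact (gTC_skew X D hy j).1
  · exact ⟨_, h_mem X D, rfl⟩
  · rintro _ ⟨y, hy, rfl⟩ x hx
    exact hT₁.inv y hy x hx
  · rintro _ ⟨y, hy, rfl⟩ x hx
    exact hT₂.inv y hy x hx
  · intro x hx y hy
    obtain ⟨z, hz, hz'⟩ := step1 hT₁ x hx y hy
    exact ⟨z.1 j, z, hz, Prod.ext hz' rfl⟩
  · intro x hx y hy
    obtain ⟨z, hz, hz'⟩ := step1 hT₂ x hx y hy
    exact ⟨z.1 i, z, hz, Prod.ext rfl hz'⟩
  · intro h
    have := hT₁.card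
    rw [h] at this
    exact h4i (this.trans (mul_comm _ _))
  · intro h
    have := hT₂.card
    rw [h] at this
    exact h4j (this.trans (mul_comm _ _))

/-- the pure elements whose component `j` vanishes -/
def Pj (X : ∀ i, K3Type (B i)) (D : ∀ i, KSData (X i) (C i)) (j : I) :
    Submodule ℂ ((∀ i, Matrix (B i) (B i) ℂ) × (∀ i, Matrix (C i) (C i) ℂ)) :=
  PP X D ⊓ LinearMap.ker (pj B C j)

/-- the third step -/
lemma step3 {i j : I} {θ₁ : Matrix (B i) (B i) ℚ} {r₁ : ℂ} {T₁ : Submodule ℂ (B i → ℂ)}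
    (hT₁ : Per X D i θ₁ r₁ T₁)
    (h : ∃ z ∈ PP X D, z.1 i = wedge (cm (X i).q) (X i).ω (star (X i).ω) ∧ z.1 j = 0) :
    ∀ x ∈ T₁, ∀ y ∈ T₁, ∃ z ∈ PP X D, z.1 i = wedge (cm (X i).q) x y ∧ z.1 j = 0 := by
  have key := use_weight hT₁ (Pj X D j) (inf_le_left.trans (PP_le X D)) ?_ ?_
  · intro x hx y hy
    obtain ⟨z, hz, hz'⟩ := key x hx y hy
    exact ⟨z, hz.1, hz', hz.2⟩
  · intro y hy z hz
    refine ⟨PP_ideal X D hy hz.1, ?_⟩
    have h1 : z.1 j = 0 := hz.2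
    change y.1 j * z.1 j - z.1 j * y.1 j = 0
    rw [h1, mul_zero, zero_mul, sub_zero]
  · obtain ⟨z, hz, hz1, hz2⟩ := h
    exact ⟨z, ⟨hz, hz2⟩, hz1⟩

/-- the span of the wedge products -/
def VV {i : I} (Q : Matrix (B i) (B i) ℂ) (T : Submodule ℂ (B i → ℂ)) : Submodule ℂ (Matrix (B i) (B i) ℂ) :=
  Submodule.span ℂ {w | ∃ x ∈ T, ∃ y ∈ T, w = wedge Q x y}

/-- the fourth step -/
lemma step4 {i : I} {θ₁ : Matrix (B i) (B i) ℚ} {r₁ : ℂ} {T₁ : Submodule ℂ (B i → ℂ)}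
    (hT₁ : Per X D i θ₁ r₁ T₁)
    (h : ∀ j, j ≠ i → ∃ z ∈ PP X D, z.1 i = wedge (cm (X i).q) (X i).ω (star (X i).ω) ∧ z.1 j = 0) :
    ∀ x ∈ T₁, ∀ y ∈ T₁, ∃ z ∈ PP X D, z.1 = Pi.single i (wedge (cm (X i).q) x y) := by
  intro x hx y hy
  obtain ⟨hV, hbr⟩ := wedge_perfect (cm (X i).q) (cm_symm (X i)) T₁ hT₁.nd hT₁.dim
    (VV (cm (X i).q) T₁) rfl
  have key := isolate (A := fun j => Matrix (B j) (B j) ℂ)
    ((PP X D).map (LinearMap.fst ℂ (∀ i, Matrix (B i) (B i) ℂ) (∀ i, Matrix (C i) (C i) ℂ))) ?_ i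
    (VV (cm (X i).q) T₁) hV hbr ?_ ?_ (wedge (cm (X i).q) x y)
    (Submodule.subset_span ⟨x, hx, y, hy, rfl⟩)
  · obtain ⟨z, hz, hz'⟩ := key
    exact ⟨z, hz, hz'⟩
  · rintro _ ⟨y, hy, rfl⟩ _ ⟨z, hz, rfl⟩
    exact ⟨y * z - z * y, PP_ideal X D (PP_le X D hy) hz, rfl⟩
  · intro a ha j hji
    have h1 : VV (cm (X i).q) T₁ ≤ (Pj X D j).map (pj B C i) := by
      refine Submodule.span_le.2 ?_
      rintro _ ⟨x, hx, y, hy, rfl⟩
      obtain ⟨z, hz, hz1, hz2⟩ := step3 hT₁ (h j hji) x hx y hy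
      exact ⟨z, ⟨hz, hz2⟩, hz1⟩
    obtain ⟨z, hz, hz'⟩ := h1 ha
    exact ⟨z.1, ⟨z, hz.1, rfl⟩, hz', hz.2⟩
  · intro a ha
    have h1 : VV (cm (X i).q) T₁ ≤ (PP X D).map (pj B C i) := by
      refine Submodule.span_le.2 ?_
      rintro _ ⟨x, hx, y, hy, rfl⟩
      obtain ⟨z, hz, hz1⟩ := step1 hT₁ x hx y hy
      exact ⟨z, hz, hz1⟩
    obtain ⟨z, hz, hz'⟩ := h1 ha
    exact ⟨z.1, ⟨z, hz, rfl⟩, hz'⟩

/-- the operators `place i w (lft w)` kill the Hodge classes -/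
lemma step5 {i : I} {w : Matrix (B i) (B i) ℂ}
    (h : ∃ z ∈ PP X D, z.1 = Pi.single i w) {S : Type} [Fintype S] [DecidableEq S]
    (f : (S → Tot B C) → ℚ) (hf : IsHodgeT X D f) :
    der (place (B := B) (C := C) i w ((X i).lft (D i).Φ w)) (cx f) = 0 := by
  obtain ⟨z, hz, hz'⟩ := h
  have h1 := gTC_kill X D hz.1 f hf
  have h2 : z.2 = Pi.single i ((X i).lft (D i).Φ w) := by
    funext j
    rw [hz.2 j, hz']
    by_cases hj : j = i
    · subst hj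
      rw [Pi.single_eq_same, Pi.single_eq_same]
      rfl
    · rw [Pi.single_eq_of_ne hj, Pi.single_eq_of_ne hj, map_zero]
  rw [hz', h2] at h1
  exact h1

lemma der_expand (X : ∀ i, K3Type (B i)) (D : ∀ i, KSData (X i) (C i)) (i : I) (x y : B i → ℂ)
    {S : Type} [Fintype S] [DecidableEq S] (f : (S → Tot B C) → ℚ) (t : S → Tot B C) :
    der (place (B := B) (C := C) i (wedge (cm (X i).q) x y)
      ((X i).lft (D i).Φ (wedge (cm (X i).q) x y))) (cx f) t =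
    ∑ a, ∑ b, x a * y b * ((der (place (B := B) (C := C) i
      (wedge (X i).q (Pi.single a 1) (Pi.single b 1))
      ((1 / 4 : ℚ) • ((D i).Φ a * (D i).Φ b - (D i).Φ b * (D i).Φ a))) f t : ℚ) : ℂ) := by
  have h1 : (wedge (cm (X i).q) x y, (X i).lft (D i).Φ (wedge (cm (X i).q) x y)) =
      ∑ a, ∑ b, (x a * y b) • (cm (wedge (X i).q (Pi.single a 1) (Pi.single b 1)),
        cm ((1 / 4 : ℚ) • ((D i).Φ a * (D i).Φ b - (D i).Φ b * (D i).Φ a))) := by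
    refine Prod.ext ?_ ?_
    · simp only [Prod.fst_sum, Prod.smul_fst]
      exact wedge_expand _ _ _
    · simp only [Prod.snd_sum, Prod.smul_snd]
      exact lft_expand _ _ _ _
  change derL (cx f) (piL i (wedge (cm (X i).q) x y,
    (X i).lft (D i).Φ (wedge (cm (X i).q) x y))) t = _
  rw [h1]
  simp only [map_sum, map_smul, Finset.sum_apply, Pi.smul_apply, smul_eq_mul]
  refine Finset.sum_congr rfl fun a _ => Finset.sum_congr rfl fun b _ => ?_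
  congr 1
  change der (place i (cm _) (cm _)) (cx f) t = _
  rw [place_cm, der_cm]
  rfl

end main

end Z12

section family

variable {I : Type} [Fintype I] [DecidableEq I] {B C : I → Type} [∀ i, Fintype (B i)]
  [∀ i, DecidableEq (B i)] [∀ i, Fintype (C i)] [∀ i, DecidableEq (C i)]
  (X : ∀ i, K3Type (B i)) (D : ∀ i, KSData (X i) (C i))

open Z12 in
/-- Z12 the theorem of Zarhin for the family -/
theorem zarhinT_of (pair : PairS) (hX : ∀ i, (X i).NonCM)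
    (hXX : ∀ i j, i ≠ j → (∀ M : Matrix (B j) (B i) ℚ, cm M * (X i).h = (X j).h * cm M → M = 0) ∧
      Fintype.card (B i) ≠ 4 * Module.finrank ℚ (X i).endo) (i : I) :
    ∃ θ : Matrix (B i) (B i) ℚ, ((X i).q * θ).IsSymm ∧
    cm θ * (X i).h = (X i).h * cm θ ∧ Irreducible (minpoly ℚ θ) ∧
    ∀ (r : ℂ) (x y : B i → ℂ), cm θ *ᵥ x = r • x → cm θ *ᵥ y = r • y →
      ∀ (S : Type) [Fintype S] [DecidableEq S] (f : (S → Tot B C) → ℚ), IsHodgeT X D f →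
        der (place i (wedge (cm (X i).q) x y) ((X i).lft (D i).Φ (wedge (cm (X i).q) x y)))
          (cx f) = 0 := by
  obtain ⟨θ, r₀, T, hT⟩ := exists_per X D hX i
  have h4 := step4 hT (fun j hji => by
    obtain ⟨θ₂, r₂, T₂, hT₂⟩ := exists_per X D hX j
    exact step2 pair hT hT₂ (hXX i j hji.symm).1 (hXX i j hji.symm).2 (hXX j i hji).2)
  refine ⟨θ, hT.sym, hT.com, hT.irr, ?_⟩
  intro r x y hx hy S _ _ f hf
  funext t
  rw [der_expand X D i x y f t]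
  refine galois2 θ hT.irr r₀ hT.root (fun a b t => der (place (B := B) (C := C) i
      (wedge (X i).q (Pi.single a 1) (Pi.single b 1))
      ((1 / 4 : ℚ) • ((D i).Φ a * (D i).Φ b - (D i).Φ b * (D i).Φ a))) f t) ?_ r x y hx hy t
  intro x y hx hy t
  rw [← der_expand X D i x y f t]
  exact congrFun (step5 (h4 x ((hT.mem x).2 hx) y ((hT.mem y).2 hy)) f hf) t

end family

end

end Pool.Agent.N429.KS
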